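import Mathlib

/-!
# Common denominators of the slopes of a polynomial with coefficients in a `p`-adic field
-/

namespace Pool.Agent.R940

open Polynomial

variable {p : ℕ} [hp : Fact p.Prime]

lemma norm_gal (σ : PadicAlgCl p ≃ₐ[ℚ_[p]] PadicAlgCl p) (x : PadicAlgCl p) : ‖σ x‖ = ‖x‖ := by
  rw [← PadicAlgCl.spectralNorm_eq, ← PadicAlgCl.spectralNorm_eq]
  exact (spectralNorm_eq_of_equiv σ x).symm

/-- The number of roots with a given absolute value is a denominator of the slope. -/
theorem exists_slope {P : ℚ_[p][X]} (hP : P ≠ 0) {y : PadicAlgCl p} (hy : aeval y P = 0)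
    (hy0 : y ≠ 0) : ∃ (N : ℕ) (k : ℤ), 0 < N ∧ N ≤ P.natDegree ∧ ‖y‖ ^ N = (p : ℝ) ^ (-k) := by
  classical
  set f := P.map (algebraMap ℚ_[p] (PadicAlgCl p)) with hf
  have hf0 : f ≠ 0 := (Polynomial.map_ne_zero_iff (algebraMap ℚ_[p] (PadicAlgCl p)).injective).2 hP
  set T := f.roots.filter (fun z => ‖z‖ = ‖y‖) with hT
  have hyT : y ∈ T := by
    rw [hT, Multiset.mem_filter, mem_roots hf0, IsRoot.def, hf, eval_map_algebraMap]
    exact ⟨hy, rfl⟩
  have hTpos : 0 < Multiset.card T := Multiset.card_pos_iff_exists_mem.2 ⟨y, hyT⟩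
  have hTle : Multiset.card T ≤ P.natDegree := by
    calc Multiset.card T ≤ Multiset.card f.roots := Multiset.card_le_card (Multiset.filter_le _ _)
      _ ≤ f.natDegree := card_roots' f
      _ = P.natDegree := natDegree_map _
  have hTn : ‖T.prod‖ = ‖y‖ ^ Multiset.card T := by
    have h1 : ‖T.prod‖ = (T.map fun z => ‖z‖).prod := by
      have := map_multiset_prod (normHom (α := PadicAlgCl p)) T
      exact this
    have h2 : T.map (fun z => ‖z‖) = Multiset.replicate (Multiset.card T) ‖y‖ := by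
      rw [Multiset.eq_replicate]
      refine ⟨Multiset.card_map _ _, fun b hb => ?_⟩
      obtain ⟨z, hz, rfl⟩ := Multiset.mem_map.1 hb
      exact (Multiset.mem_filter.1 hz).2
    rw [h1, h2, Multiset.prod_replicate]
  have hfix : ∀ σ : PadicAlgCl p ≃ₐ[ℚ_[p]] PadicAlgCl p, σ T.prod = T.prod := by
    intro σ
    have h1 : f.map (σ : PadicAlgCl p →+* PadicAlgCl p) = f := by
      rw [hf, Polynomial.map_map]
      congr 1
      ext x
      exact σ.commutes x
    have h2 : f.roots.map σ = f.roots := by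
      have h3 := (IsAlgClosed.splits f).roots_map (σ : PadicAlgCl p →+* PadicAlgCl p)
      rw [h1] at h3
      exact h3.symm
    have h4 : T.map σ = T := by
      conv_rhs => rw [hT, ← h2, Multiset.filter_map]
      rw [hT]
      congr 1
      apply Multiset.filter_congr
      intro z _
      rw [Function.comp_apply, norm_gal]
    rw [map_multiset_prod, h4]
  obtain ⟨c, hc⟩ := (InfiniteGalois.mem_range_algebraMap_iff_fixed T.prod).2 hfix
  have hc0 : c ≠ 0 := by
    rintro rfl
    rw [map_zero] at hc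
    rw [← hc, norm_zero] at hTn
    exact (pow_pos (norm_pos_iff.2 hy0) _).ne hTn
  refine ⟨Multiset.card T, c.valuation, hTpos, hTle, ?_⟩
  have h5 : ‖(algebraMap ℚ_[p] (PadicAlgCl p)) c‖ = ‖c‖ := PadicAlgCl.norm_extends p c
  rw [← hTn, ← hc, h5, Padic.norm_eq_zpow_neg_valuation hc0]

end Pool.Agent.R940
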