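import Pool.Agent.R940.UDefs

/-!
# Classes pulled back from small powers: definitions
-/

open CategoryTheory AlgebraicGeometry

universe u v

namespace Pool.Agent.R940

open Pool.Agent.H914 Pool.Agent.W534 Pool.Agent.Y163 VarClass Obj WeilCohomology

variable {k : Type u} [Field k] {𝒱 : VarClass k} {ops : CycleOps 𝒱}

/-- The projection of `X ^ (n + 1)` to the factor with the number `i`. -/
noncomputable def coord (X : 𝒱.Obj) : ∀ n, Fin (n + 1) → (pw X n ⟶ X)
  | 0, _ => 𝟙 X
  | n + 1, i => Fin.cases (fst X (pw X n)) (fun j => snd X (pw X n) ≫ coord X n j) i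

/-- The morphism to `X ^ (n + 1)` with the given components. -/
noncomputable def tuple {X Z : 𝒱.Obj} : ∀ n, (Fin (n + 1) → (Z ⟶ X)) → (Z ⟶ pw X n)
  | 0, f => f 0
  | n + 1, f => Obj.lift (f 0) (tuple n (fun j => f j.succ))

/-- The projection of `X ^ (n + 1)` to the product of the factors `e 0, ..., e m`. -/
noncomputable def proj (X : 𝒱.Obj) {m n : ℕ} (e : Fin (m + 1) → Fin (n + 1)) : pw X n ⟶ pw X m :=
  tuple m (fun i => coord X n (e i))

/-- The class `c` on `X ^ (n + 1)` is the pull-back, under the projection to the product of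
different factors `e 0, ..., e m`, at most `N` in number, of a generalised Tate class on
`X ^ (m + 1)`. -/
def IsPulled {W : WeilCohomology.{u, v} ops} {p : ℕ} (Φ : FrobSystem W p) (X : 𝒱.Obj) (N n : ℕ)
    (c : W.H (pw X n)) : Prop :=
  ∃ (m : ℕ) (e : Fin (m + 1) → Fin (n + 1)) (s j : ℕ) (t : W.H (pw X m)), m + 1 ≤ N ∧
    Function.Injective e ∧ 0 < s ∧ t ∈ genTate Φ (pw X m) s j ∧ c = W.map (proj X e) t

end Pool.Agent.R940
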