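import Pool.Agent.Y121.AHS.Defs
import Pool.Agent.R940.GDefs

/-!
# Hodge classes on the products of a variety with the powers of a variety of CM type: definitions

A Hodge theory `T` (`Pool.Agent.Y121.AHS.HodgeTheory`) is a Weil cohomology theory with rational
coefficients and a Hodge decomposition of its cohomology with complex coefficients; in the intended use
it is the cohomology of the smooth projective complex varieties.
-/

open CategoryTheory AlgebraicGeometry

universe u

namespace Pool.Agent.R940

open Pool.Agent.H914 Pool.Agent.H914.VarClass Pool.Agent.H914.VarClass.Obj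
  Pool.Agent.H914.WeilCohomology Pool.Agent.Y121.AHS
open Pool.Agent.Y163 (pw)

variable {k : Type u} [Field k] {𝒱 : VarClass k} {ops : CycleOps 𝒱}

/-- The spaces `H^(p,q)(X)` with `p < 0` or `q < 0` vanish, for all `X`. -/
def NonnegTypes (T : HodgeTheory ops) : Prop :=
  ∀ (X : 𝒱.Obj) (p q : ℤ), p < 0 ∨ q < 0 → T.pq X p q = ⊥

/-- The value of the linear endomorphism `f` at `x`. -/
def endApp {K A : Type} [Field K] [Ring A] [Algebra K A] (f : Module.End K A) (x : A) : A := f x

/-- The linear endomorphisms of the cohomology `H(X)`, the sum of the `H^i(X)`. -/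
def EndH (T : HodgeTheory ops) (X : 𝒱.Obj) : Type := Module.End T.W.K (T.W.H X)

/-- The endomorphism applied to a class with complex coefficients. -/
noncomputable def endC {T : HodgeTheory ops} {X : 𝒱.Obj} (f : EndH T X) (x : HL T.W ℂ X) :
    HL T.W ℂ X :=
  extMap T.W.K ℂ (A := T.W.H X) (B := T.W.H X) f x

/-- The characteristic polynomial of the endomorphism is squarefree. -/
def HasSquarefreeCharpoly {T : HodgeTheory ops} {X : 𝒱.Obj} (f : EndH T X) : Prop :=
  Squarefree (LinearMap.charpoly (R := T.W.K) (M := T.W.H X) f)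

/-- The class `x` is of degree `i`. -/
def OfDeg (T : HodgeTheory ops) {X : 𝒱.Obj} (i : ℕ) (x : T.W.H X) : Prop := x ∈ T.W.gr X i

/-- The endomorphism maps `H^i(X)` to `H^i(X)`, for all `i`. -/
def RespDeg {T : HodgeTheory ops} {X : 𝒱.Obj} (f : EndH T X) : Prop :=
  ∀ (i : ℕ) (x : T.W.H X), OfDeg T i x → OfDeg T i (endApp (K := T.W.K) f x)

/-- The endomorphism maps classes of type `(p, q)` to classes of type `(p, q)`. -/
def RespTypes {T : HodgeTheory ops} {X : 𝒱.Obj} (f : EndH T X) : Prop :=
  ∀ (p q : ℤ) (x : HL T.W ℂ X), IsType T.pq p q x → IsType T.pq p q (endC f x)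

/-- The Hodge structure `H(X)`, the sum of the `H^i(X)`, is of CM type: it has an endomorphism (a
rational endomorphism of each `H^i(X)` which preserves the spaces `H^(p,q)(X)`) with a squarefree
characteristic polynomial. Equivalently, the algebra of the endomorphisms of the rational Hodge
structure contains a commutative semisimple algebra of dimension `dim H(X)`, or the Mumford-Tate
group is commutative. -/
def IsCM (T : HodgeTheory ops) (X : 𝒱.Obj) : Prop :=
  ∃ f : EndH T X, HasSquarefreeCharpoly f ∧ RespDeg f ∧ RespTypes f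

/-- The Hodge conjecture for `Y`: the Hodge classes on `Y` are classes of algebraic cycles with
rational coefficients. -/
def HodgeConj (T : HodgeTheory ops) (Y : 𝒱.Obj) : Prop :=
  ∀ (j : ℕ) (c : T.W.H Y), IsHodge T Y j c → ∃ z : Y.Cycles, Y.IsCyc j z ∧ T.W.cl Y z = c

/-- The projection `Z × X ^ (n + 1) → Z × X ^ (m + 1)` to the factor `Z` and the factors
`e 0, ..., e m`. -/
noncomputable def projZ (Z X : 𝒱.Obj) {m n : ℕ} (e : Fin (m + 1) → Fin (n + 1)) :
    Z.prod (pw X n) ⟶ Z.prod (pw X m) :=
  Obj.lift (fst Z (pw X n)) (snd Z (pw X n) ≫ proj X e)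

/-- The class `c` on `Z × X ^ (n + 1)` is the pull-back of a Hodge class on `Z × X ^ (m + 1)`,
`m + 1 ≤ N`, under the projection to `Z` and to different factors `e 0, ..., e m`. -/
def IsPulledHodge (T : HodgeTheory ops) (Z X : 𝒱.Obj) (N n : ℕ)
    (c : T.W.H (Z.prod (pw X n))) : Prop :=
  ∃ (m : ℕ) (e : Fin (m + 1) → Fin (n + 1)) (j : ℕ) (t : T.W.H (Z.prod (pw X m))), m + 1 ≤ N ∧
    Function.Injective e ∧ IsHodge T (Z.prod (pw X m)) j t ∧ c = T.W.map (projZ Z X e) t

/-- All Hodge classes on `Z × X ^ (n + 1)` belong to the algebra generated by the pull-backs of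
Hodge classes on the varieties `Z × X ^ (m + 1)` with `m + 1 ≤ N`. -/
def HodgeGenerated (T : HodgeTheory ops) (Z X : 𝒱.Obj) (N n : ℕ) : Prop :=
  ∀ (j : ℕ) (c : T.W.H (Z.prod (pw X n))), IsHodge T (Z.prod (pw X n)) j c →
    c ∈ Algebra.adjoin T.W.K {c | IsPulledHodge T Z X N n c}

/-- The number `N = b (4 b ^ 2 + 4 e + 1) ^ b`. -/
def hodgeBound (b e : ℕ) : ℕ := b * (4 * b ^ 2 + 4 * e + 1) ^ b

end Pool.Agent.R940
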