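import Pool.Agent.Y163.Defs

/-!
# Slopes and explicit constants: definitions
-/

open CategoryTheory AlgebraicGeometry

universe u v

namespace Pool.Agent.R940

open Pool.Agent.H914 Pool.Agent.W534 VarClass Obj WeilCohomology Polynomial

variable {k : Type u} [Field k] {𝒱 : VarClass k} {ops : CycleOps 𝒱}

/-- The characteristic polynomials of the Frobenius endomorphism of `X` have integral
coefficients. -/
def HasIntegralPolys {W : WeilCohomology.{u, v} ops} {p : ℕ} (Φ : FrobSystem W p)
    (σ : W.K →+* ℂ) (X : 𝒱.Obj) : Prop :=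
  ∀ i, ∃ P : ℤ[X], frobPoly Φ σ X 1 i = P.map (Int.castRingHom ℂ)

/-- The positive number `D` is a common denominator of the slopes of `X`: let `P` be the
characteristic polynomial of the Frobenius endomorphism of `X` over the field with
`q = p ^ (Φ.e X)` elements on a cohomology group of `X`, with integral coefficients. Then the
slopes, the numbers `s` such that `P` has a `p`-adic root `y` of absolute value `q ^ (-s)`, satisfy
`D s ∈ ℤ`. -/
def IsSlopeDenominator {W : WeilCohomology.{u, v} ops} {p : ℕ} [Fact p.Prime]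
    (Φ : FrobSystem W p) (σ : W.K →+* ℂ) (X : 𝒱.Obj) (D : ℕ) : Prop :=
  0 < D ∧ ∀ (i : ℕ) (P : ℤ[X]), frobPoly Φ σ X 1 i = P.map (Int.castRingHom ℂ) →
    ∀ y : PadicAlgCl p, aeval y P = 0 → ∃ m : ℤ, ‖y‖ ^ D = ((p : ℝ) ^ Φ.e X) ^ (-m)

/-- The explicit number of factors `N = 2 b (4 D b ^ 2 + 1) ^ b`. -/
def powerBound (b D : ℕ) : ℕ := 2 * b * (4 * D * b ^ 2 + 1) ^ b

/-- The explicit constant `C = 2 N b ^ (2 N + 2)`. -/
noncomputable def lossConst (b D : ℕ) : ℝ :=
  2 * powerBound b D * (b : ℝ) ^ (2 * powerBound b D + 2)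

end Pool.Agent.R940
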