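import Pool.Agent.R940.Gen
import Pool.Agent.R940.Slope
import Pool.Agent.R940.UDefs

/-!
# The uniform index law
-/

set_option linter.unusedVariables false
set_option linter.unusedSectionVars false

open CategoryTheory AlgebraicGeometry CategoryTheory.Limits

universe u v

namespace Pool.Agent.R940

open Pool.Agent.H914 Pool.Agent.H447 Pool.Agent.W534 Pool.Agent.Y163 VarClass Obj WeilCohomology
  Module Polynomial

variable {k : Type u} [Field k] {𝒱 : VarClass k} {ops : CycleOps 𝒱}
  {W : WeilCohomology.{u, v} ops} {X Y Z U S : 𝒱.Obj} {p : ℕ} [hp : Fact p.Prime]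
  {Φ : FrobSystem W p} {σ : W.K →+* ℂ}

variable {ι : Type v} {B : HBasis W X ι} {lam : ι → W.K}

lemma root_charpoly (hB : IsEig Φ B lam) (l : ι) :
    (frobOn Φ X 1 (B.deg l)).charpoly.IsRoot (lam l) := by
  let v : W.gr X (B.deg l) := ⟨B.b l, B.mem l⟩
  have hv0 : v ≠ 0 := by
    intro h
    exact B.b.ne_zero l (congrArg Subtype.val h)
  obtain ⟨n, hn⟩ := (Module.End.mem_maxGenEigenspace _ _ _).1 (hB l)
  have hv : ((frobOn Φ X 1 (B.deg l) - lam l • 1) ^ n) v = 0 := by
    apply Subtype.ext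
    have key : ∀ (n : ℕ) (w : W.gr X (B.deg l)),
        ((((frobOn Φ X 1 (B.deg l) - lam l • 1) ^ n) w : W.gr X (B.deg l)) : W.H X) =
          ((frob Φ X 1 - lam l • 1) ^ n) (w : W.H X) := by
      intro n
      induction n with
      | zero => intro w; rfl
      | succ n ih =>
        intro w
        rw [pow_succ, pow_succ, Module.End.mul_apply, Module.End.mul_apply, ih]
        rfl
    rw [key]
    exact hn
  have h0 : (frobOn Φ X 1 (B.deg l)).HasGenEigenvalue (lam l) n := by
    intro hbot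
    have h2 : v ∈ (frobOn Φ X 1 (B.deg l)).genEigenspace (lam l) n := by
      rw [Module.End.mem_genEigenspace_nat, LinearMap.mem_ker]
      exact hv
    rw [hbot] at h2
    exact hv0 ((Submodule.mem_bot _).1 h2)
  exact (Module.End.hasEigenvalue_iff_isRoot_charpoly _ _).1
    (Module.End.hasEigenvalue_of_hasGenEigenvalue h0)

/-- The integral polynomial of which `lam l` is a root. -/
lemma exists_poly (hB : IsEig Φ B lam) (hint : HasIntegralPolys Φ σ X) (l : ι) : ∃ P : ℤ[X],
    P.Monic ∧ frobPoly Φ σ X 1 (B.deg l) = P.map (Int.castRingHom ℂ) ∧ aeval (lam l) P = 0 := by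
  obtain ⟨P, hP⟩ := hint (B.deg l)
  have h1 : (frobOn Φ X 1 (B.deg l)).charpoly = P.map (Int.castRingHom W.K) := by
    apply Polynomial.map_injective σ σ.injective
    rw [← frobPoly_eq, hP, Polynomial.map_map]
    congr 1
    exact RingHom.ext_int _ _
  refine ⟨P, ?_, hP, ?_⟩
  · refine monic_of_injective (f := Int.castRingHom W.K) Int.cast_injective ?_
    rw [← h1]
    exact LinearMap.charpoly_monic _
  · have h2 := root_charpoly hB l
    rw [h1, IsRoot.def, Polynomial.eval_map] at h2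
    rw [aeval_def]
    exact h2

lemma aeval_of_minpoly {K A : Type*} [Field K] [CharZero K] [Field A] [CharZero A] {x : K}
    {P : ℤ[X]} (h : aeval x P = 0) {y : A} (hy : aeval y (minpoly ℚ x) = 0) : aeval y P = 0 := by
  have h1 : aeval x (P.map (Int.castRingHom ℚ)) = 0 := by
    rw [aeval_def, eval₂_map]
    rw [aeval_def] at h
    rw [← h]
    congr 1
    exact RingHom.ext_int _ _
  obtain ⟨Q, hQ⟩ := minpoly.dvd ℚ x h1
  have h2 : aeval y (P.map (Int.castRingHom ℚ)) = 0 := by rw [hQ, map_mul, hy, zero_mul]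
  rw [aeval_def, eval₂_map] at h2
  rw [aeval_def, ← h2]
  congr 1
  exact RingHom.ext_int _ _

lemma weilFamily (hB : IsEig Φ B lam) (hRH : RiemannHyp Φ σ X) (hint : HasIntegralPolys Φ σ X)
    {D : ℕ} (hD : IsSlopeDenominator Φ σ X D) : IsWeilFamily p (Φ.e X) D lam B.deg where
  int l := by
    obtain ⟨P, h1, _, h3⟩ := exists_poly hB hint l
    exact ⟨P, h1, h3⟩
  arch l y hy := by
    obtain ⟨P, h1, h2, h3⟩ := exists_poly hB hint l
    have h4 : aeval y P = 0 := aeval_of_minpoly h3 hy
    have h5 := hRH 1 one_pos (B.deg l) y (by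
      rw [h2, IsRoot.def, Polynomial.eval_map]
      exact h4)
    rw [h5, card, mul_one]
    push_cast
    rfl
  slope l y hy := by
    obtain ⟨P, h1, h2, h3⟩ := exists_poly hB hint l
    exact hD.2 _ P h2 y (aeval_of_minpoly h3 hy)

lemma deg_le (B : HBasis W X ι) (l : ι) : B.deg l ≤ 2 * X.dim := by
  by_contra h
  have h1 := B.mem l
  rw [W.gr_eq_bot X _ (not_le.1 h)] at h1
  exact B.b.ne_zero l ((Submodule.mem_bot _).1 h1)

/-- The dimension is less than the total Betti number. -/
lemma dim_lt {E : X.Cycles} (hE : X.IsCyc 1 E) (hbig : W.tr X (W.cl X E ^ X.dim) ≠ 0) :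
    X.dim + 1 ≤ finrank W.K (W.H X) := by
  have h0 : ∀ j : Fin (X.dim + 1), W.cl X E ^ (j : ℕ) ≠ 0 := by
    intro j hj
    apply hbig
    have h1 : X.dim = j + (X.dim - j) := by omega
    rw [h1, pow_add, hj, zero_mul, map_zero]
  have h1 : LinearIndependent W.K (fun j : Fin (X.dim + 1) => W.cl X E ^ (j : ℕ)) := by
    refine iSupIndep.linearIndependent (p := fun j : Fin (X.dim + 1) => W.gr X (2 * (j : ℕ))) ?_
      (fun j => pow_mem_gr hE j) h0
    exact (W.isInternal X).submodule_iSupIndep.comp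
      (f := fun j : Fin (X.dim + 1) => 2 * (j : ℕ)) fun i j hij => Fin.ext (by
        have : 2 * (i : ℕ) = 2 * (j : ℕ) := hij
        omega)
  have h2 := h1.fintype_card_le_finrank
  rwa [Fintype.card_fin] at h2

/-- The unconditional common denominator of the slopes. -/
theorem slopeDenominator (hRH : RiemannHyp Φ σ X) (hint : HasIntegralPolys Φ σ X) :
    IsSlopeDenominator Φ σ X (Φ.e X * (finrank W.K (W.H X)).factorial) := by
  refine ⟨Nat.mul_pos (Φ.e_pos X) (Nat.factorial_pos _), fun i P hP y hy => ?_⟩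
  have hmon : (P.map (Int.castRingHom ℂ)).Monic := by
    rw [← hP, frobPoly_eq]
    exact (LinearMap.charpoly_monic _).map σ
  have hP0 : P.Monic := monic_of_injective (f := Int.castRingHom ℂ) Int.cast_injective hmon
  have hdeg : P.natDegree ≤ finrank W.K (W.H X) := by
    have h1 : (P.map (Int.castRingHom ℂ)).natDegree = finrank W.K (W.gr X i) := by
      rw [← hP, frobPoly_eq, natDegree_map, LinearMap.charpoly_natDegree]
    rw [← hP0.natDegree_map (Int.castRingHom ℂ), h1]
    exact Submodule.finrank_le _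
  have hy0 : y ≠ 0 := by
    rintro rfl
    rw [aeval_def, eval₂_at_zero] at hy
    have h1 : P.coeff 0 = 0 := by
      have : (algebraMap ℤ (PadicAlgCl p)) (P.coeff 0) = 0 := hy
      rw [eq_intCast] at this
      exact_mod_cast this
    have h2 := hRH 1 one_pos i 0 (by
      rw [hP, IsRoot.def, Polynomial.eval_map, eval₂_at_zero, h1, map_zero])
    rw [norm_zero, zero_pow two_ne_zero] at h2
    have h3 : (0 : ℝ) < (card Φ X 1 : ℝ) ^ i := pow_pos (by exact_mod_cast card_pos Φ 1) i
    exact h3.ne h2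
  set Q : ℚ_[p][X] := P.map (Int.castRingHom ℚ_[p]) with hQ
  have hQ0 : Q ≠ 0 := (hP0.map _).ne_zero
  have hQy : aeval y Q = 0 := by
    rw [hQ, aeval_def, eval₂_map]
    rw [aeval_def] at hy
    rw [← hy]
    congr 1
  obtain ⟨N, m, hN, hNle, h⟩ := exists_slope hQ0 hQy hy0
  have hNb : N ∣ (finrank W.K (W.H X)).factorial := by
    apply Nat.dvd_factorial hN
    refine hNle.trans ?_
    rw [hQ, hP0.natDegree_map]
    exact hdeg
  obtain ⟨c, hc⟩ := hNb
  refine ⟨m * c, ?_⟩
  have h1 : Φ.e X * (finrank W.K (W.H X)).factorial = N * (c * Φ.e X) := by rw [hc]; ring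
  rw [h1, pow_mul, h, ← zpow_natCast, ← zpow_mul, ← zpow_natCast, ← zpow_mul]
  congr 1
  push_cast
  ring

/-- The Tate conjecture for a power implies the Tate conjecture for the smaller powers. -/
lemma tate_of_le {m n : ℕ} (hmn : m ≤ n) (h : ∀ j, SemisimpleTateIn Φ (pw X n) j) (j : ℕ) :
    SemisimpleTateIn Φ (pw X m) j := by
  intro s hs c hc
  let π : pw X n ⟶ pw X m := tup m (fun i => pr X n ⟨i, by omega⟩)
  let τ : pw X m ⟶ pw X n := tup n (fun i => pr X m ⟨min i m, by omega⟩)
  have hτ : τ ≫ π = 𝟙 _ := by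
    apply pw_hom_ext
    intro i
    rw [Category.assoc, tup_pr, tup_pr, Category.id_comp]
    congr 1
    apply Fin.ext
    change min (i : ℕ) m = i
    omega
  obtain ⟨s', hs', h1⟩ := Y163.gen_map Φ π hs hc
  have h2 := map_span τ (h j s' hs' h1)
  rw [← W.map_comp, hτ, W.map_id] at h2
  exact h2

/-- The Tate conjecture for generalised classes implies the pole formula. -/
lemma pole_of_semisimple (hRH : RiemannHyp Φ σ Z) (h : ∀ j, SemisimpleTateIn Φ Z j) {j : ℕ}
    (hj : j ≤ Z.dim) : PoleFormula Φ σ Z j := by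
  rw [poleFormula_iff Φ hp.out.one_lt σ hRH hj]
  obtain ⟨t₁, ht₁, h1⟩ := exists_span_eig Φ Z j
  obtain ⟨t₂, ht₂, h2⟩ := exists_span_eig Φ Z (Z.dim - j)
  refine ⟨t₁ * t₂, Nat.mul_pos ht₁ ht₂, ?_⟩
  rintro s hs ⟨r, rfl⟩
  have e1 : spanCycles W Z j = genTate Φ Z (t₁ * t₂ * r) j := by
    refine le_antisymm (fun c hc => ?_) (h j _ hs)
    have := span_eig_mul Φ (h1 c hc) (t₂ * r)
    rw [← mul_assoc] at this
    exact mem_genTate_of_eig Φ (span_gr hc) this
  have e2 : spanCycles W Z ((Z.dim - j : ℕ) : ℤ) = genTate Φ Z (t₁ * t₂ * r) (Z.dim - j) := by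
    refine le_antisymm (fun c hc => ?_) (h _ _ hs)
    have := span_eig_mul Φ (h2 c hc) (t₁ * r)
    rw [show t₂ * (t₁ * r) = t₁ * t₂ * r by ring] at this
    exact mem_genTate_of_eig Φ (span_gr hc) this
  have hinj : Function.Injective (pair W Z j (Z.dim - j)) := by
    rw [injective_iff_map_eq_zero]
    rintro ⟨a, ha⟩ h0
    apply Subtype.ext
    refine genTate_nondeg Φ (s := t₁ * t₂ * r) (j := j) (l := Z.dim - j) (by omega)
      (by rw [← e1]; exact ha) fun y hy => ?_
    rw [← e2] at hy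
    exact congrArg (fun F => F ⟨y, hy⟩) h0
  rw [kRank, LinearMap.finrank_range_of_inj hinj, e1]

/-- The pole formula implies the Tate conjecture for generalised classes. -/
lemma semisimple_of_poles (hRH : RiemannHyp Φ σ Z)
    (h : ∀ j, j ≤ Z.dim → PoleFormula Φ σ Z j) (j : ℕ) : SemisimpleTateIn Φ Z j := by
  rcases Nat.lt_or_ge Z.dim j with hlt | hge
  · intro s hs c hc
    have h1 := hc.2
    rw [W.gr_eq_bot Z _ (by omega)] at h1
    rw [(Submodule.mem_bot _).1 h1]
    exact Submodule.zero_mem _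
  · exact (semisimple_of_pole (Z := Z) hp.out.one_lt hRH (j := j) (l := Z.dim - j) (by omega)
      (h j hge)).1

lemma powerBound_pos {b D : ℕ} (hb : 0 < b) : 2 ≤ powerBound b D := by
  have h1 : 1 ≤ (4 * D * b ^ 2 + 1) ^ b := Nat.one_le_pow _ _ (Nat.succ_pos _)
  calc 2 = 2 * 1 * 1 := rfl
    _ ≤ powerBound b D := Nat.mul_le_mul (Nat.mul_le_mul_left 2 hb) h1

/-- **Bounded powers.** -/
theorem all_powers [IsAlgClosed W.K] (hRH : ∀ Z, RiemannHyp Φ σ Z)
    (hint : HasIntegralPolys Φ σ X) {E : X.Cycles} (hE : X.IsCyc 1 E)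
    (hbig : W.tr X (W.cl X E ^ X.dim) ≠ 0) {D : ℕ} (hD : IsSlopeDenominator Φ σ X D)
    (h : ∀ j, j ≤ (pw X (powerBound (finrank W.K (W.H X)) D - 1)).dim →
      PoleFormula Φ σ (pw X (powerBound (finrank W.K (W.H X)) D - 1)) j) :
    ∀ n j, j ≤ (pw X n).dim → PoleFormula Φ σ (pw X n) j := by
  classical
  obtain ⟨ι, hfin, B, lam, hB⟩ := exists_ebasis Φ X
  have hft : Fintype ι := Fintype.ofFinite ι
  set b := finrank W.K (W.H X) with hb
  have hcard : Fintype.card ι = b := (Module.finrank_eq_card_basis B.b).symm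
  have hdim := dim_lt hE hbig
  rw [← hb] at hdim
  have h1 := semisimple_of_poles (hRH _) h
  have hT : ∀ n j, SemisimpleTateIn Φ (pw X n) j := by
    refine bounded Φ hB hD.1 (weilFamily hB (hRH X) hint hD) (b := b) (M := 2 * D * b) hcard.le
      (fun l => ?_) fun m hm j => ?_
    · calc D * B.deg l ≤ D * (2 * b) := Nat.mul_le_mul_left _ ((deg_le B l).trans (by omega))
        _ = 2 * D * b := by ring
    · refine tate_of_le (n := powerBound b D - 1) ?_ h1 j
      have : powerBound b D = 2 * b * (2 * b * (2 * D * b) + 1) ^ b := by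
        rw [powerBound]
        congr 2
        ring
      omega
  intro n j hj
  exact pole_of_semisimple (hRH _) (hT n) hj

/-- **The uniform index law.** -/
theorem uniform [IsAlgClosed W.K] (hRH : ∀ Z, RiemannHyp Φ σ Z)
    (hint : HasIntegralPolys Φ σ X) {E : X.Cycles} (hE : X.IsCyc 1 E) (hbig : Big ops X E) :
    ∃ z r : ℕ → ℕ, (∀ n, PoleOrderIs Φ σ (sq X n) ((n + 1) * X.dim) (z n)) ∧
      (∀ n, r n = numRank ops (sq X n) ((n + 1) * X.dim)) ∧
      (∀ n, 0 < r n ∧ r n ≤ z n) ∧
      IsSlopeDenominator Φ σ X (Φ.e X * (finrank W.K (W.H X)).factorial) ∧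
      ∀ D, IsSlopeDenominator Φ σ X D →
        ((∀ j, j ≤ (pw X (powerBound (finrank W.K (W.H X)) D - 1)).dim →
            PoleFormula Φ σ (pw X (powerBound (finrank W.K (W.H X)) D - 1)) j) →
          ∀ n j, j ≤ (pw X n).dim → PoleFormula Φ σ (pw X n) j) ∧
        ((∀ n j, j ≤ (pw X n).dim → PoleFormula Φ σ (pw X n) j) ∨
          ∀ n : ℕ, 0 < n →
            (2 - lossConst (finrank W.K (W.H X)) D * Real.log (n + 2) / n) * r n ≤ z n) := by
  have hp1 := hp.out.one_lt
  have hX : par (W.isInternal X) ∈ KOp W X X 0 := par_mem_of_RH Φ hp1 σ (hRH X)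
  have htr : W.tr X (W.cl X E ^ X.dim) ≠ 0 := hbig.tr hE
  have hH : 0 < finrank W.K (W.H X) := by
    have : Nontrivial (W.H X) := by
      by_contra hcon
      rw [not_nontrivial_iff_subsingleton] at hcon
      apply htr
      rw [Subsingleton.elim (W.cl X E ^ X.dim) 0, map_zero]
    exact finrank_pos
  have hle : ∀ n, mrank W X n ≤ finrank W.K (genU Φ (sq X n) ((n + 1) * X.dim)) := fun n =>
    (kRank_le _ _).trans (Submodule.finrank_mono (span_le_genU Φ _ _))
  have hpos : ∀ n, 0 < mrank W X n := by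
    intro n
    have h1 := mrank_growth hX n
    apply Nat.pos_of_ne_zero
    intro h0
    rw [h0, zero_mul] at h1
    have h2 : 0 < (finrank W.K (W.H X) ^ 2) ^ (n + 1) := by positivity
    omega
  -- equality in the middle degree of the square
  have heq : ∀ n, finrank W.K (genU Φ (sq X n) ((n + 1) * X.dim)) ≤ mrank W X n →
      ∀ j, j ≤ (pw X n).dim → PoleFormula Φ σ (pw X n) j := by
    intro n h1 j hj
    obtain ⟨E', hE', hE2⟩ := exists_big hE htr n
    refine factor_pole hp1 (hRH _) (hRH _) hE' hE2 ?_ hj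
    have hpf : PoleFormula Φ σ (sq X n) ((n + 1) * X.dim) := by
      rw [poleFormula_iff Φ hp1 σ (hRH _) (by rw [dim_sq]; omega)]
      refine ⟨(exists_stable Φ (sq X n) ((n + 1) * X.dim)).choose,
        (exists_stable Φ (sq X n) ((n + 1) * X.dim)).choose_spec.1, fun s hs hts => ?_⟩
      have h2 := le_antisymm (hle n) h1
      rw [genU_eq Φ hs hts, ← h2, mrank]
      congr 1
      rw [dim_sq]
      omega
    rw [← dim_pw] at hpf
    exact hpf
  refine ⟨fun n => finrank W.K (genU Φ (sq X n) ((n + 1) * X.dim)), fun n => mrank W X n,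
    fun n => poleOrderIs hp1 (hRH _) (by rw [dim_sq]; omega), fun n => (numRank_sq (W := W) X n).symm,
    fun n => ⟨hpos n, hle n⟩, slopeDenominator (hRH X) hint, fun D hD => ?_⟩
  have hall := all_powers hRH hint hE htr hD
  refine ⟨hall, ?_⟩
  set b := finrank W.K (W.H X) with hb
  have hN := powerBound_pos (D := D) hH
  by_cases hfail : mrank W X (powerBound b D - 1) <
      finrank W.K (genU Φ (sq X (powerBound b D - 1)) ((powerBound b D - 1 + 1) * X.dim))
  · right
    intro n hn
    have h1 := index_eff hX hH (fun n => genU Φ (sq X n) ((n + 1) * X.dim))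
      ((genFam Φ).stable_sq X) hfail hn
    refine le_trans (le_of_eq ?_) h1
    congr 2
    rw [lossConst, ← hb]
    have h2 : 2 * (powerBound b D - 1) + 4 = 2 * powerBound b D + 2 := by omega
    rw [h2]
    have h3 : ((powerBound b D - 1 : ℕ) : ℝ) + 1 = powerBound b D := by
      have : powerBound b D - 1 + 1 = powerBound b D := by omega
      exact_mod_cast this
    rw [h3]
  · left
    exact hall (heq _ (not_lt.1 hfail))

end Pool.Agent.R940
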