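import Pool.Agent.R940.HMain
import Pool.Agent.R940.HDefs
import Pool.Agent.R940.Main
import Pool.Agent.Y121.AHS.Conv

/-!
# Bounded generation of the Hodge classes: the theorem
-/

set_option linter.unusedVariables false
set_option linter.unusedSectionVars false

open CategoryTheory AlgebraicGeometry CategoryTheory.Limits TensorProduct

universe u v

namespace Pool.Agent.R940

open Pool.Agent.H914 Pool.Agent.H447 Pool.Agent.W534 Pool.Agent.Y163 VarClass Obj WeilCohomology
  Module
open Pool.Agent.Y121 Pool.Agent.Y121.AHS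

variable {k : Type u} [Field k] {𝒱 : VarClass k} {ops : CycleOps 𝒱}

/-- The dimension is less than the total Betti number. -/
lemma dim_lt_of_hardLef {W : WeilCohomology.{u, v} ops} {X : 𝒱.Obj} [Nontrivial (W.H X)]
    {E : X.Cycles} (hE : X.IsCyc 1 E) (hl : HardLefschetz W X E) :
    X.dim + 1 ≤ finrank W.K (W.H X) := by
  have hbig : W.cl X E ^ X.dim ≠ 0 := by
    intro h
    have h1 := (hl 0 (Nat.zero_le _)).1 1 (W.one_mem X)
    rw [Nat.sub_zero, LinearMap.pow_mulLeft, LinearMap.mulLeft_apply, mul_one] at h1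
    exact one_ne_zero (h1 h)
  have h0 : ∀ j : Fin (X.dim + 1), W.cl X E ^ (j : ℕ) ≠ 0 := by
    intro j hj
    apply hbig
    have h1 : X.dim = j + (X.dim - j) := by omega
    rw [h1, pow_add, hj, zero_mul]
  have h1 : LinearIndependent W.K (fun j : Fin (X.dim + 1) => W.cl X E ^ (j : ℕ)) := by
    refine iSupIndep.linearIndependent (p := fun j : Fin (X.dim + 1) => W.gr X (2 * (j : ℕ))) ?_
      (fun j => pow_mem_gr hE j) h0
    exact (W.isInternal X).submodule_iSupIndep.comp
      (f := fun j : Fin (X.dim + 1) => 2 * (j : ℕ)) fun i j hij => Fin.ext (by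
        have : 2 * (i : ℕ) = 2 * (j : ℕ) := hij
        omega)
  have h2 := h1.fintype_card_le_finrank
  rwa [Fintype.card_fin] at h2

section Triv

variable {W : WeilCohomology.{u, v} ops} {X Z : 𝒱.Obj}

lemma subsing_of_map {Y Y' : 𝒱.Obj} (f : Y ⟶ Y') (h : Subsingleton (W.H Y')) :
    Subsingleton (W.H Y) := by
  have h1 : (1 : W.H Y) = 0 := by
    rw [← map_one (W.map f), Subsingleton.elim (1 : W.H Y') 0, map_zero]
  exact subsingleton_of_zero_eq_one h1.symm

lemma subsing_prod (h : Subsingleton (W.H X)) (n : ℕ) : Subsingleton (W.H (Z.prod (pw X n))) := by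
  have h2 : Subsingleton (W.H (pw X n)) := subsing_of_map (pr X n 0) h
  exact subsing_of_map (snd Z (pw X n)) h2

end Triv

variable {T : HodgeTheory ops} {X Z : 𝒱.Obj}

lemma pulled_iff {N n : ℕ} {c : T.W.H (Z.prod (pw X n))} :
    IsPulledHodge T Z X N n c ↔ IsPulledH (toH T) Z X N n c := Iff.rfl

/-- **Bounded generation.** -/
theorem hodge_gen (hpos : NonnegTypes T) (hX : IsCM T X) (n : ℕ) {j : ℕ}
    {c : T.W.H (Z.prod (pw X n))} (hc : IsHodge T (Z.prod (pw X n)) j c) :
    c ∈ Algebra.adjoin T.W.K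
      {c | IsPulledHodge T Z X (hodgeBound (finrank T.W.K (T.W.H X)) Z.dim) n c} := by
  classical
  rcases subsingleton_or_nontrivial (T.W.H X) with hs | hn
  · have := subsing_prod (Z := Z) hs n
    rw [Subsingleton.elim c 0]
    exact Subalgebra.zero_mem _
  obtain ⟨f, hf, hgr, hpq⟩ := hX
  set P := LinearMap.charpoly f with hP
  have hgal : IsGalois T.W.K P.SplittingField :=
    IsGalois.of_separable_splitting_field (p := P) (PerfectField.separable_iff_squarefree.2 hf)
  have hfin0 : FiniteDimensional T.W.K P.SplittingField := inferInstance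
  have hfin : @FiniteDimensional (toH T).W.K P.SplittingField _ _ (instAlgH T P.SplittingField
    (h := inferInstance)).toModule := hfin0
  have hgal' : @IsGalois (toH T).W.K _ P.SplittingField _ (instAlgH T P.SplittingField
    (h := inferInstance)) := hgal
  obtain ⟨M⟩ := exists_cmb (T := toH T) (X := X) (L := P.SplittingField) (f := f) hf hgr
    (fun p q x hx => hpq p q x hx) (Polynomial.SplittingField.splits P)
  obtain ⟨D, hD, hl, -⟩ := T.polar X
  have hdim : X.dim + 1 ≤ finrank T.W.K (T.W.H X) := dim_lt_of_hardLef hD hl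
  exact hodge_generated (T := toH T) M hpos (b := finrank T.W.K (T.W.H X))
    (B := 2 * finrank T.W.K (T.W.H X)) (R := 2 * Z.dim)
    (by rw [Fintype.card_fin]; rfl)
    (fun l => (deg_le M.B l).trans (by
      show 2 * X.dim ≤ 2 * finrank T.W.K (T.W.H X)
      omega)) le_rfl (by
      rw [hodgeBound]
      congr 2
      ring) hc

lemma isHodge_map {Y Y' : 𝒱.Obj} (f : Y ⟶ Y') {j : ℕ} {c : T.W.H Y'} (hc : IsHodge T Y' j c) :
    IsHodge T Y j (T.W.map f c) := by
  refine ⟨T.W.map_mem f hc.1, ?_⟩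
  have h1 := T.map Y Y' f j j _ hc.2
  have h2 : mapL f (emL T.W ℂ c) = emL T.W ℂ (T.W.map f c) := by
    exact LinearMap.baseChange_tmul _ _ _
  rwa [h2] at h1

/-- **The reduction of the Hodge conjecture.** -/
theorem hodge_red (hpos : NonnegTypes T) (hX : IsCM T X)
    (hH : HodgeConj T (Z.prod (pw X (hodgeBound (finrank T.W.K (T.W.H X)) Z.dim - 1)))) (n : ℕ) :
    HodgeConj T (Z.prod (pw X n)) := by
  intro j c hc
  rcases subsingleton_or_nontrivial (T.W.H X) with hs | hn
  · have := subsing_prod (Z := Z) hs n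
    exact ⟨0, SmVar.IsCyc.zero _ _, Subsingleton.elim _ _⟩
  have hN : 1 ≤ hodgeBound (finrank T.W.K (T.W.H X)) Z.dim := by
    have h1 : 0 < finrank T.W.K (T.W.H X) := finrank_pos
    exact Nat.mul_pos h1 (Nat.pow_pos (by omega))
  set N := hodgeBound (finrank T.W.K (T.W.H X)) Z.dim with hNd
  have h1 := hodge_gen hpos hX n hc
  have h2 : c ∈ ⨆ j : ℕ, spanCycles T.W (Z.prod (pw X n)) j := by
    refine Algebra.adjoin_induction (p := fun c _ => c ∈ ⨆ j : ℕ, spanCycles T.W (Z.prod (pw X n)) j)
      ?_ ?_ ?_ ?_ h1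
    · rintro _ ⟨m, e, i, t, hm, he, ht, rfl⟩
      -- extend to the largest power
      obtain ⟨r, g, hrg⟩ : ∃ (r : Fin (m + 1) → Fin (N - 1 + 1)) (g : Fin (N - 1 + 1) →
          Fin (m + 1)), g ∘ r = id := by
        have hle : m + 1 ≤ N - 1 + 1 := by omega
        refine ⟨Fin.castLE hle, fun i => if h : i.1 < m + 1 then ⟨i.1, h⟩ else 0, ?_⟩
        funext i
        have h4 : ((Fin.castLE hle i : Fin (N - 1 + 1)) : ℕ) < m + 1 := i.2
        exact (dif_pos h4).trans (Fin.ext rfl)
      have ht1 : IsHodge T (Z.prod (pw X (N - 1))) i (T.W.map (projZ Z X r) t) :=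
        isHodge_map _ ht
      obtain ⟨z, hz, hzt⟩ := hH i _ ht1
      have h3 : T.W.map (projZ Z X e) t = T.W.cl _ (ops.pull (projZ Z X e)
          (ops.pull (projZ Z X g) z)) := by
        rw [T.W.cl_pull, T.W.cl_pull, hzt, ← T.W.map_comp (projZ Z X g), projZ_comp, hrg,
          projZ_id, T.W.map_id]
      rw [h3]
      exact Submodule.mem_iSup_of_mem i (Submodule.subset_span
        ⟨i, rfl, _, ops.pull_mem _ (ops.pull_mem _ hz), rfl⟩)
    · intro r
      rw [Algebra.algebraMap_eq_smul_one, ← T.W.cl_fund]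
      exact Submodule.smul_mem _ _ (Submodule.mem_iSup_of_mem 0 (Submodule.subset_span
        ⟨0, by simp, _, SmVar.fundCycle_mem _, rfl⟩))
    · intro x y _ _ hx hy
      exact Submodule.add_mem _ hx hy
    · intro x y _ _ hx hy
      exact iSup_mul hx hy
  exact exists_cycle T.rat (mem_span_of_iSup h2 hc.1)

end Pool.Agent.R940
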