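import Mathlib

/-!
# Integrality and roots of unity from absolute values
-/

namespace Pool.Agent.R940

open Polynomial

section Padic

variable {p : ℕ} [hp : Fact p.Prime]

lemma padic_add_le (x y : PadicAlgCl p) : ‖x + y‖ ≤ max ‖x‖ ‖y‖ := PadicAlgCl.isNonarchimedean p x y

lemma padic_int_le (n : ℤ) : ‖(n : PadicAlgCl p)‖ ≤ 1 := by
  have h : ((n : ℚ_[p]) : PadicAlgCl p) = (n : PadicAlgCl p) := map_intCast (algebraMap _ _) n
  rw [← h, PadicAlgCl.norm_extends]
  exact Padic.norm_int_le_one n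

lemma padic_sum_le {ι : Type*} (s : Finset ι) (f : ι → PadicAlgCl p) {r : ℝ} (hr : 0 ≤ r)
    (h : ∀ i ∈ s, ‖f i‖ ≤ r) : ‖∑ i ∈ s, f i‖ ≤ r := by
  classical
  induction s using Finset.induction_on with
  | empty => simpa using hr
  | insert a s ha ih =>
    rw [Finset.sum_insert ha]
    exact (padic_add_le _ _).trans (max_le (h a (Finset.mem_insert_self a s))
      (ih fun i hi => h i (Finset.mem_insert_of_mem hi)))

/-- Algebraic integers have norm at most one. -/
lemma padic_integral {x : PadicAlgCl p} (hx : IsIntegral ℤ x) : ‖x‖ ≤ 1 := by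
  obtain ⟨f, hf, h0⟩ := hx
  by_contra hcon
  push Not at hcon
  have hd : f.natDegree ≠ 0 := by
    intro h
    rw [hf.natDegree_eq_zero] at h
    rw [h, eval₂_one] at h0
    exact one_ne_zero h0
  rw [eval₂_eq_sum_range, Finset.sum_range_succ, hf.coeff_natDegree, map_one, one_mul] at h0
  have h1 : x ^ f.natDegree = - ∑ i ∈ Finset.range f.natDegree, (algebraMap ℤ _) (f.coeff i) * x ^ i := by
    linear_combination h0
  have h2 : ‖∑ i ∈ Finset.range f.natDegree, (algebraMap ℤ (PadicAlgCl p)) (f.coeff i) * x ^ i‖ ≤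
      ‖x‖ ^ (f.natDegree - 1) := by
    apply padic_sum_le _ _ (by positivity)
    intro i hi
    rw [norm_mul, norm_pow]
    have h3 : ‖(algebraMap ℤ (PadicAlgCl p)) (f.coeff i)‖ ≤ 1 := by
      have := padic_int_le (p := p) (f.coeff i)
      rwa [← eq_intCast (algebraMap ℤ (PadicAlgCl p))] at this
    calc _ ≤ 1 * ‖x‖ ^ i := mul_le_mul_of_nonneg_right h3 (by positivity)
      _ ≤ ‖x‖ ^ (f.natDegree - 1) := by
        rw [one_mul]
        exact pow_le_pow_right₀ hcon.le (by have := Finset.mem_range.1 hi; omega)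
  have h3 : ‖x‖ ^ f.natDegree ≤ ‖x‖ ^ (f.natDegree - 1) := by
    rw [← norm_pow, h1, norm_neg]
    exact h2
  have h4 : ‖x‖ ^ (f.natDegree - 1) < ‖x‖ ^ f.natDegree :=
    pow_lt_pow_right₀ hcon (by omega)
  linarith

lemma padic_coeff_le (s : Multiset (PadicAlgCl p)) (hs : ∀ b ∈ s, ‖b‖ ≤ 1) (l : ℕ) :
    ‖((s.map (fun b => X - C b)).prod).coeff l‖ ≤ 1 := by
  induction s using Multiset.induction_on generalizing l with
  | empty =>
    rw [Multiset.map_zero, Multiset.prod_zero, coeff_one]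
    split_ifs <;> simp
  | cons b s ih =>
    rw [Multiset.map_cons, Multiset.prod_cons, sub_mul, coeff_sub, coeff_C_mul]
    have ih' := ih fun c hc => hs c (Multiset.mem_cons_of_mem hc)
    have h2 : ‖b * ((s.map (fun b => X - C b)).prod).coeff l‖ ≤ 1 := by
      rw [norm_mul]
      exact mul_le_one₀ (hs b (Multiset.mem_cons_self b s)) (norm_nonneg _) (ih' l)
    have h3 : ‖(X * (s.map (fun b => X - C b)).prod).coeff l‖ ≤ 1 := by
      cases l with
      | zero => rw [mul_coeff_zero, coeff_X_zero, zero_mul, norm_zero]; exact zero_le_one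
      | succ l => rw [coeff_X_mul]; exact ih' l
    rw [sub_eq_add_neg]
    refine (padic_add_le _ _).trans (max_le h3 ?_)
    rwa [norm_neg]

end Padic

/-- A rational number which is integral at all primes is an integer. -/
lemma den_eq_one {c : ℚ} (h : ∀ (l : ℕ) [Fact l.Prime], ‖(c : ℚ_[l])‖ ≤ 1) : c.den = 1 := by
  by_contra hne
  obtain ⟨l, hl, hdvd⟩ := Nat.exists_prime_and_dvd hne
  have : Fact l.Prime := ⟨hl⟩
  have h1 := h l
  have h2 : (c : ℚ_[l]) * (c.den : ℚ_[l]) = (c.num : ℚ_[l]) := by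
    exact_mod_cast congrArg (fun x : ℚ => (x : ℚ_[l])) (Rat.mul_den_eq_num c)
  have h3 : ‖(c.den : ℚ_[l])‖ < 1 := by
    have := (Padic.norm_intCast_lt_one_iff (p := l) (k := (c.den : ℤ))).2 (by exact_mod_cast hdvd)
    simpa using this
  have h4 : ‖(c.num : ℚ_[l])‖ < 1 := by
    rw [← h2, norm_mul]
    calc _ ≤ 1 * ‖(c.den : ℚ_[l])‖ := mul_le_mul_of_nonneg_right h1 (norm_nonneg _)
      _ < 1 := by rw [one_mul]; exact h3
  have h5 := (Padic.norm_intCast_lt_one_iff (p := l) (k := c.num)).1 h4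
  have h6 : l ∣ c.num.natAbs := Int.natCast_dvd.1 h5
  have h7 := Nat.dvd_gcd h6 hdvd
  rw [c.reduced] at h7
  exact hl.one_lt.ne' (Nat.dvd_one.1 h7)

/-- An algebraic number all of whose conjugates in all the `l`-adic fields have norm at most one is
an algebraic integer. -/
theorem isIntegral_of_padic {K : Type*} [Field K] [CharZero K] {x : K} (hx : IsAlgebraic ℚ x)
    (h : ∀ (l : ℕ) [Fact l.Prime] (y : PadicAlgCl l), aeval y (minpoly ℚ x) = 0 → ‖y‖ ≤ 1) :
    IsIntegral ℤ x := by
  have hxi : IsIntegral ℚ x := hx.isIntegral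
  set f := minpoly ℚ x with hf
  have hmon : f.Monic := minpoly.monic hxi
  have hden : ∀ n, (f.coeff n).den = 1 := by
    intro n
    apply den_eq_one
    intro l _
    have hs : (f.map (algebraMap ℚ (PadicAlgCl l))).Splits := IsAlgClosed.splits _
    have h1 := hs.eq_prod_roots_of_monic (hmon.map _)
    have h2 := padic_coeff_le (f.map (algebraMap ℚ (PadicAlgCl l))).roots (fun b hb => by
      apply h l b
      have h3 := (mem_roots'.1 hb).2
      rwa [IsRoot.def, eval_map_algebraMap] at h3) n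
    rw [← h1, coeff_map] at h2
    have h4 : (algebraMap ℚ (PadicAlgCl l)) (f.coeff n) = (((f.coeff n : ℚ) : ℚ_[l]) : PadicAlgCl l) := by
      rw [eq_ratCast]
      exact (map_ratCast (algebraMap ℚ_[l] (PadicAlgCl l)) (f.coeff n)).symm
    rw [h4, PadicAlgCl.norm_extends] at h2
    exact h2
  have hlift : f ∈ lifts (Int.castRingHom ℚ) := by
    rw [lifts_iff_coeff_lifts]
    intro n
    refine ⟨(f.coeff n).num, ?_⟩
    rw [eq_intCast]
    exact (Rat.den_eq_one_iff _).1 (hden n)
  obtain ⟨g, hg1, hg2, hg3⟩ := lifts_and_degree_eq_and_monic hlift hmon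
  refine ⟨g, hg3, ?_⟩
  have h5 : aeval x f = 0 := minpoly.aeval ℚ x
  rw [← hg1, aeval_def, eval₂_map] at h5
  rw [← h5]
  congr 1
  exact RingHom.ext_int _ _

/-- **Kronecker's theorem.** -/
theorem root_of_unity {K : Type*} [Field K] [CharZero K] {x : K} (hx : IsAlgebraic ℚ x)
    (hx0 : x ≠ 0)
    (h : ∀ (l : ℕ) [Fact l.Prime] (y : PadicAlgCl l), aeval y (minpoly ℚ x) = 0 → ‖y‖ ≤ 1)
    (hC : ∀ y : ℂ, aeval y (minpoly ℚ x) = 0 → ‖y‖ ≤ 1) : ∃ n : ℕ, 0 < n ∧ x ^ n = 1 := by
  have hint := isIntegral_of_padic hx h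
  have hxi : IsIntegral ℚ x := hx.isIntegral
  let L := IntermediateField.adjoin ℚ {x}
  let _ : NumberField L := {
    to_charZero := inferInstance
    to_finiteDimensional := IntermediateField.adjoin.finiteDimensional hxi }
  let y : L := ⟨x, IntermediateField.mem_adjoin_simple_self ℚ x⟩
  have hy0 : y ≠ 0 := fun h => hx0 (congrArg Subtype.val h)
  have hyint : IsIntegral ℤ y := by
    have : IsIntegral ℤ ((algebraMap L K) y) := hint
    exact (isIntegral_algebraMap_iff (algebraMap L K).injective).1 this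
  obtain ⟨n, hn, hyn⟩ := NumberField.Embeddings.pow_eq_one_of_norm_le_one L ℂ hy0 hyint (by
    intro φ
    apply hC
    have h1 : aeval y (minpoly ℚ x) = 0 := by
      apply (algebraMap L K).injective
      rw [map_zero, ← aeval_algebraMap_apply]
      exact minpoly.aeval ℚ x
    have h2 := congrArg φ.toRatAlgHom h1
    rw [map_zero, ← aeval_algHom_apply] at h2
    exact h2)
  exact ⟨n, hn, congrArg Subtype.val hyn⟩

end Pool.Agent.R940
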