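import Pool.Agent.R940.Pig
import Pool.Agent.R940.Kron

/-!
# Multiplicative relations between Weil numbers with bounded slopes
-/

namespace Pool.Agent.R940

open Polynomial Finset IntermediateField

/-- The numbers `lam l` are Weil numbers of weights `deg l` for `q = p ^ e`, and `D` is a common
denominator of their slopes. -/
structure IsWeilFamily {K ι : Type*} [Field K] [CharZero K] (p : ℕ) [Fact p.Prime] (e D : ℕ)
    (lam : ι → K) (deg : ι → ℕ) : Prop where
  int : ∀ l, IsIntegral ℤ (lam l)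
  arch : ∀ l (y : ℂ), aeval y (minpoly ℚ (lam l)) = 0 → ‖y‖ ^ 2 = ((p : ℝ) ^ e) ^ deg l
  slope : ∀ l (y : PadicAlgCl p), aeval y (minpoly ℚ (lam l)) = 0 →
    ∃ m : ℤ, ‖y‖ ^ D = ((p : ℝ) ^ e) ^ (-m)

/-- The product of the `lam l ^ c l` is a root of unity times a power of `q` of the right weight. -/
def IsT {K ι : Type*} [Field K] [Fintype ι] (q : ℕ) (lam : ι → K) (deg c : ι → ℕ) : Prop :=
  Even (∑ l, deg l * c l) ∧
    ∃ s : ℕ, 0 < s ∧ (∏ l, lam l ^ c l) ^ (2 * s) = (q : K) ^ (s * ∑ l, deg l * c l)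

section

variable {K ι : Type*} [Field K] [CharZero K] {p : ℕ} [hp : Fact p.Prime] {e D : ℕ}
  {lam : ι → K} {deg : ι → ℕ}

/-- The field generated by the numbers. -/
abbrev EF (lam : ι → K) : IntermediateField ℚ K := adjoin ℚ (Set.range lam)

/-- The numbers, as elements of the field they generate. -/
def el (lam : ι → K) (l : ι) : EF lam := ⟨lam l, subset_adjoin ℚ _ ⟨l, rfl⟩⟩

lemma coe_el (l : ι) : (el lam l : K) = lam l := rfl

lemma isAlg_EF (h : IsWeilFamily p e D lam deg) : Algebra.IsAlgebraic ℚ (EF lam) := by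
  apply isAlgebraic_adjoin
  rintro _ ⟨l, rfl⟩
  exact (h.int l).tower_top

lemma minpoly_coe (x : EF lam) : minpoly ℚ (x : K) = minpoly ℚ x :=
  (minpoly.algebraMap_eq (algebraMap (EF lam) K).injective x)

lemma aeval_emb {A : Type*} [Field A] [Algebra ℚ A] (ψ : EF lam →ₐ[ℚ] A) (x : EF lam) :
    aeval (ψ x) (minpoly ℚ (x : K)) = 0 := by
  rw [minpoly_coe, aeval_algHom_apply, minpoly.aeval, map_zero]

lemma exists_emb (h : IsWeilFamily p e D lam deg) {A : Type*} [Field A] [Algebra ℚ A]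
    [IsAlgClosed A] (x : EF lam) {y : A} (hy : aeval y (minpoly ℚ x) = 0) :
    ∃ ψ : EF lam →ₐ[ℚ] A, ψ x = y := by
  have := isAlg_EF h
  have h1 := Algebra.IsAlgebraic.range_eval_eq_rootSet_minpoly A x (F := ℚ)
  have h2 : y ∈ (minpoly ℚ x).rootSet A := by
    rw [mem_rootSet]
    exact ⟨minpoly.ne_zero (Algebra.IsAlgebraic.isAlgebraic x).isIntegral, hy⟩
  rw [← h1] at h2
  exact h2

lemma el_int (h : IsWeilFamily p e D lam deg) (l : ι) : IsIntegral ℤ (el lam l) := by
  have : IsIntegral ℤ ((algebraMap (EF lam) K) (el lam l)) := h.int l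
  exact (isIntegral_algebraMap_iff (algebraMap (EF lam) K).injective).1 this

lemma pe_pos (he : 0 < e) : 1 < (p : ℝ) ^ e :=
  one_lt_pow₀ (by exact_mod_cast hp.out.one_lt) he.ne'

lemma el_ne_zero (he : 0 < e) (h : IsWeilFamily p e D lam deg) (l : ι) : el lam l ≠ 0 := by
  have := isAlg_EF h
  intro h0
  let φ : EF lam →ₐ[ℚ] ℂ := IsAlgClosed.lift
  have h1 := h.arch l (φ (el lam l)) (aeval_emb φ (el lam l))
  rw [h0, map_zero, norm_zero] at h1
  have h2 : 0 < ((p : ℝ) ^ e) ^ deg l := pow_pos (zero_lt_one.trans (pe_pos he)) _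
  norm_num at h1
  exact h2.ne h1

/-- The complementary number is an algebraic integer. -/
lemma co_int (he : 0 < e) (h : IsWeilFamily p e D lam deg) (l : ι) :
    IsIntegral ℤ (((p : EF lam) ^ e) ^ deg l / el lam l) := by
  have := isAlg_EF h
  let φ : EF lam →ₐ[ℚ] ℂ := IsAlgClosed.lift
  have h1 := h.arch l (φ (el lam l)) (aeval_emb φ (el lam l))
  have h0 : φ (el lam l) ≠ 0 := (map_ne_zero φ).2 (el_ne_zero he h l)
  have h2 : φ (((p : EF lam) ^ e) ^ deg l / el lam l) = (starRingEnd ℂ) (φ (el lam l)) := by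
    rw [map_div₀, map_pow, map_pow, map_natCast, div_eq_iff h0, mul_comm, Complex.mul_conj,
      Complex.normSq_eq_norm_sq, h1]
    push_cast
    rfl
  have h3 : IsIntegral ℤ ((starRingEnd ℂ) (φ (el lam l))) :=
    ((el_int h l).map (φ.restrictScalars ℤ)).map (Complex.conjAe.toAlgHom.restrictScalars ℤ)
  rw [← h2] at h3
  exact (isIntegral_algHom_iff (φ.restrictScalars ℤ) φ.injective).1 h3

lemma norm_natCast_p (n : ℕ) : ‖((p : PadicAlgCl p) ^ e) ^ n‖ = (((p : ℝ) ^ e) ^ n)⁻¹ := by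
  have h : ((p : ℚ_[p]) : PadicAlgCl p) = (p : PadicAlgCl p) :=
    map_natCast (algebraMap ℚ_[p] (PadicAlgCl p)) p
  rw [norm_pow, norm_pow, ← h, PadicAlgCl.norm_extends, Padic.norm_p, inv_pow, inv_pow]

/-- The slopes, multiplied by `D`. -/
noncomputable def mm (h : IsWeilFamily p e D lam deg) (ψ : EF lam →ₐ[ℚ] PadicAlgCl p) (l : ι) : ℤ :=
  (h.slope l (ψ (el lam l)) (aeval_emb ψ (el lam l))).choose

lemma mm_spec (h : IsWeilFamily p e D lam deg) (ψ : EF lam →ₐ[ℚ] PadicAlgCl p) (l : ι) :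
    ‖ψ (el lam l)‖ ^ D = ((p : ℝ) ^ e) ^ (-(mm h ψ l)) :=
  (h.slope l (ψ (el lam l)) (aeval_emb ψ (el lam l))).choose_spec

lemma mm_nonneg (he : 0 < e) (h : IsWeilFamily p e D lam deg) (ψ : EF lam →ₐ[ℚ] PadicAlgCl p)
    (l : ι) : 0 ≤ mm h ψ l := by
  have h1 : ‖ψ (el lam l)‖ ≤ 1 := padic_integral ((el_int h l).map (ψ.restrictScalars ℤ))
  have h2 : ‖ψ (el lam l)‖ ^ D ≤ 1 := pow_le_one₀ (norm_nonneg _) h1
  rw [mm_spec h, ← zpow_zero ((p : ℝ) ^ e), zpow_le_zpow_iff_right₀ (pe_pos he)] at h2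
  omega

lemma mm_le (he : 0 < e) (h : IsWeilFamily p e D lam deg) (ψ : EF lam →ₐ[ℚ] PadicAlgCl p)
    (l : ι) : mm h ψ l ≤ D * deg l := by
  have h0 : ψ (el lam l) ≠ 0 := (map_ne_zero ψ).2 (el_ne_zero he h l)
  have h1 : ‖ψ (((p : EF lam) ^ e) ^ deg l / el lam l)‖ ≤ 1 :=
    padic_integral ((co_int he h l).map (ψ.restrictScalars ℤ))
  rw [map_div₀, map_pow, map_pow, map_natCast, norm_div, norm_natCast_p,
    div_le_one (norm_pos_iff.2 h0)] at h1
  have h2 : ((((p : ℝ) ^ e) ^ deg l)⁻¹) ^ D ≤ ‖ψ (el lam l)‖ ^ D :=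
    pow_le_pow_left₀ (by positivity) h1 D
  have h3 : ((((p : ℝ) ^ e) ^ deg l)⁻¹) ^ D = ((p : ℝ) ^ e) ^ (-(D * deg l : ℤ)) := by
    rw [zpow_neg, inv_pow, ← pow_mul, mul_comm (deg l)]
    norm_cast
  rw [mm_spec h, h3, zpow_le_zpow_iff_right₀ (pe_pos he)] at h2
  omega

/-- The rows of the linear system. -/
noncomputable def row (h : IsWeilFamily p e D lam deg) (ψ : EF lam →ₐ[ℚ] PadicAlgCl p) (l : ι) :
    ℤ := 2 * mm h ψ l - D * deg l

lemma row_le (he : 0 < e) (h : IsWeilFamily p e D lam deg) (ψ : EF lam →ₐ[ℚ] PadicAlgCl p)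
    (l : ι) : |row h ψ l| ≤ (D * deg l : ℕ) := by
  have h1 := mm_nonneg he h ψ l
  have h2 := mm_le he h ψ l
  rw [abs_le, row]
  push_cast
  constructor <;> linarith

variable [Fintype ι]

lemma row_zero_of_isT (he : 0 < e) (h : IsWeilFamily p e D lam deg) {c : ι → ℕ}
    (hc : IsT (p ^ e) lam deg c) (ψ : EF lam →ₐ[ℚ] PadicAlgCl p) :
    ∑ l, row h ψ l * (c l : ℤ) = 0 := by
  obtain ⟨_, s, hs, h1⟩ := hc
  have h2 : (∏ l, el lam l ^ c l) ^ (2 * s) = ((p : EF lam) ^ e) ^ (s * ∑ l, deg l * c l) := by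
    apply (algebraMap (EF lam) K).injective
    rw [map_pow, map_prod, map_pow, map_pow, map_natCast]
    simp only [map_pow]
    rw [← Nat.cast_pow]
    exact h1
  have h3 : ((∏ l, ‖ψ (el lam l)‖ ^ c l) ^ (2 * s)) ^ D =
      ((((p : ℝ) ^ e) ^ (s * ∑ l, deg l * c l))⁻¹) ^ D := by
    have h4 := congrArg (fun x => ‖ψ x‖ ^ D) h2
    simp only [map_pow, map_prod, map_natCast] at h4
    rw [norm_natCast_p, norm_pow, norm_prod] at h4
    simp only [norm_pow] at h4
    exact h4
  have h4 : ((∏ l, ‖ψ (el lam l)‖ ^ c l) ^ (2 * s)) ^ D =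
      ((p : ℝ) ^ e) ^ (-(2 * s * ∑ l, mm h ψ l * c l)) := by
    have h5 : ∀ l, (‖ψ (el lam l)‖ ^ c l) ^ D = ((p : ℝ) ^ e) ^ (-(mm h ψ l * c l)) := by
      intro l
      rw [← pow_mul, mul_comm, pow_mul, mm_spec h, ← zpow_natCast, ← zpow_mul]
      congr 1
      ring
    rw [← pow_mul, mul_comm (2 * s) D, pow_mul, ← Finset.prod_pow, Finset.prod_congr rfl fun l _ => h5 l,
      ← zpow_natCast]
    have h6 : ∏ l, ((p : ℝ) ^ e) ^ (-(mm h ψ l * c l)) =
        ((p : ℝ) ^ e) ^ (∑ l, -(mm h ψ l * c l)) := by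
      induction (univ : Finset ι) using Finset.cons_induction with
      | empty => simp
      | cons a s ha ih =>
        rw [Finset.prod_cons, Finset.sum_cons, ih, zpow_add₀ (zero_lt_one.trans (pe_pos he)).ne']
    rw [h6, ← zpow_mul]
    congr 1
    rw [Finset.sum_neg_distrib]
    push_cast
    ring
  rw [h4] at h3
  have h7 : ((((p : ℝ) ^ e) ^ (s * ∑ l, deg l * c l))⁻¹) ^ D =
      ((p : ℝ) ^ e) ^ (-(D * (s * ∑ l, (deg l * c l : ℤ)))) := by
    rw [zpow_neg, inv_pow, ← pow_mul, mul_comm _ D, ← zpow_natCast]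
    push_cast
    rfl
  rw [h7] at h3
  have h8 := zpow_right_injective₀ (zero_lt_one.trans (pe_pos he)) (pe_pos he).ne' h3
  have hs' : (s : ℤ) ≠ 0 := by exact_mod_cast hs.ne'
  have h9 : ∑ l, row h ψ l * (c l : ℤ) =
      2 * ∑ l, mm h ψ l * c l - D * ∑ l, (deg l * c l : ℤ) := by
    rw [Finset.mul_sum, Finset.mul_sum, ← Finset.sum_sub_distrib]
    exact Finset.sum_congr rfl fun l _ => by rw [row]; ring
  rw [h9]
  apply mul_left_cancel₀ hs'
  linear_combination -h8

omit [Fintype ι] in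
/-- The absolute values of a product. -/
lemma prod_zpow {x : ℝ} (hx : 0 < x) (s : Finset ι) (f : ι → ℤ) :
    ∏ l ∈ s, x ^ f l = x ^ ∑ l ∈ s, f l := by
  induction s using Finset.cons_induction with
  | empty => simp
  | cons a s ha ih => rw [Finset.prod_cons, Finset.sum_cons, ih, zpow_add₀ hx.ne']

lemma isT_of_row_zero (he : 0 < e) (hD : 0 < D) (h : IsWeilFamily p e D lam deg) {c : ι → ℕ}
    (hpar : Even (∑ l, deg l * c l))
    (hrow : ∀ ψ : EF lam →ₐ[ℚ] PadicAlgCl p, ∑ l, row h ψ l * (c l : ℤ) = 0) :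
    IsT (p ^ e) lam deg c := by
  have halg := isAlg_EF h
  obtain ⟨r, hr⟩ := hpar
  have hq : ((p : EF lam) ^ e) ^ r ≠ 0 :=
    pow_ne_zero _ (pow_ne_zero _ (Nat.cast_ne_zero.2 hp.out.ne_zero))
  have hel : ∀ l, el lam l ≠ 0 := el_ne_zero he h
  set x : EF lam := (∏ l, el lam l ^ c l) / ((p : EF lam) ^ e) ^ r with hx
  have hx0 : x ≠ 0 := div_ne_zero (Finset.prod_ne_zero_iff.2 fun l _ => pow_ne_zero _ (hel l)) hq
  have key : ∃ n : ℕ, 0 < n ∧ x ^ n = 1 := by
    refine root_of_unity (Algebra.IsAlgebraic.isAlgebraic x) hx0 ?_ ?_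
    · intro l' hl' y hy
      obtain ⟨ψ, rfl⟩ := exists_emb h x hy
      by_cases hlp : l' = p
      · subst hlp
        have h1 : ‖ψ x‖ ^ D = 1 := by
          rw [hx, map_div₀, map_prod, map_pow, map_pow, map_natCast, norm_div, norm_natCast_p,
            norm_prod, div_pow, inv_pow, div_inv_eq_mul, ← Finset.prod_pow]
          have h5 : ∀ l, ‖ψ (el lam l ^ c l)‖ ^ D = ((l' : ℝ) ^ e) ^ (-(mm h ψ l * c l)) := by
            intro l
            rw [map_pow, norm_pow, ← pow_mul, mul_comm, pow_mul, mm_spec h, ← zpow_natCast,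
              ← zpow_mul]
            congr 1
            ring
          have h8 : (((l' : ℝ) ^ e) ^ r) ^ D = ((l' : ℝ) ^ e) ^ ((r : ℤ) * D) := by
            rw [← pow_mul]
            norm_cast
          rw [Finset.prod_congr rfl fun l _ => h5 l, prod_zpow (zero_lt_one.trans (pe_pos he)),
            h8, ← zpow_add₀ (zero_lt_one.trans (pe_pos he)).ne']
          have h6 : ∑ l, -(mm h ψ l * (c l : ℤ)) + (r : ℤ) * D = 0 := by
            have h7 := hrow ψ
            have h9 : ∑ l, row h ψ l * (c l : ℤ) =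
                2 * ∑ l, mm h ψ l * c l - D * ∑ l, (deg l * c l : ℤ) := by
              rw [Finset.mul_sum, Finset.mul_sum, ← Finset.sum_sub_distrib]
              exact Finset.sum_congr rfl fun l _ => by rw [row]; ring
            have h10 : ∑ l, (deg l * c l : ℤ) = r + r := by exact_mod_cast hr
            rw [h9, h10] at h7
            rw [Finset.sum_neg_distrib]
            have h11 : (2 : ℤ) * (-∑ l, mm h ψ l * (c l : ℤ) + (r : ℤ) * D) = 0 := by
              linear_combination -h7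
            exact (mul_eq_zero.1 h11).resolve_left two_ne_zero
          rw [h6, zpow_zero]
        exact ((pow_eq_one_iff_of_nonneg (norm_nonneg _) hD.ne').1 h1).le
      · have hpn : ‖(p : PadicAlgCl l')‖ = 1 := by
          have h1 : ((p : ℚ_[l']) : PadicAlgCl l') = (p : PadicAlgCl l') :=
            map_natCast (algebraMap ℚ_[l'] (PadicAlgCl l')) p
          rw [← h1, PadicAlgCl.norm_extends]
          have h2 : ¬ ‖(p : ℚ_[l'])‖ < 1 := by
            have h3 := (Padic.norm_intCast_lt_one_iff (p := l') (k := (p : ℤ)))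
            rw [Int.cast_natCast] at h3
            rw [h3]
            intro h4
            exact hlp ((Nat.prime_dvd_prime_iff_eq hl'.out hp.out).1 (by exact_mod_cast h4))
          have h5 := Padic.norm_int_le_one (p := l') (p : ℤ)
          rw [Int.cast_natCast] at h5
          exact le_antisymm h5 (not_lt.1 h2)
        have h1 : ∀ l, ‖ψ (el lam l)‖ = 1 := by
          intro l
          apply le_antisymm (padic_integral ((el_int h l).map (ψ.restrictScalars ℤ)))
          have h2 : ‖ψ (((p : EF lam) ^ e) ^ deg l / el lam l)‖ ≤ 1 :=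
            padic_integral ((co_int he h l).map (ψ.restrictScalars ℤ))
          rw [map_div₀, map_pow, map_pow, map_natCast, norm_div, norm_pow, norm_pow, hpn, one_pow,
            one_pow, div_le_one (norm_pos_iff.2 ((map_ne_zero ψ).2 (hel l)))] at h2
          exact h2
        rw [hx, map_div₀, map_prod, map_pow, map_pow, map_natCast, norm_div, norm_pow, norm_pow,
          hpn, one_pow, one_pow, div_one, norm_prod]
        refine (Finset.prod_le_one (fun l _ => norm_nonneg _) fun l _ => ?_)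
        rw [map_pow, norm_pow, h1, one_pow]
    · intro y hy
      obtain ⟨φ, rfl⟩ := exists_emb h x hy
      have h1 : ‖φ x‖ ^ 2 = 1 := by
        rw [hx, map_div₀, map_prod, map_pow, map_pow, map_natCast, norm_div, norm_prod, div_pow,
          ← Finset.prod_pow, norm_pow, norm_pow, Complex.norm_natCast, ← pow_mul _ r 2]
        have h5 : ∀ l, ‖φ (el lam l ^ c l)‖ ^ 2 = ((p : ℝ) ^ e) ^ (deg l * c l) := by
          intro l
          rw [map_pow, norm_pow, ← pow_mul, mul_comm, pow_mul,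
            h.arch l (φ (el lam l)) (aeval_emb φ (el lam l)), ← pow_mul]
        rw [Finset.prod_congr rfl fun l _ => h5 l, Finset.prod_pow_eq_pow_sum, hr, ← mul_two]
        exact div_self (pow_pos (zero_lt_one.trans (pe_pos he)) _).ne'
      exact ((pow_eq_one_iff_of_nonneg (norm_nonneg _) two_ne_zero).1 h1).le
  obtain ⟨n, hn, h1⟩ := key
  refine ⟨⟨r, hr⟩, n, hn, ?_⟩
  have h2 : (∏ l, el lam l ^ c l) ^ n = (((p : EF lam) ^ e) ^ r) ^ n := by
    rw [hx, div_pow, div_eq_one_iff_eq (pow_ne_zero _ hq)] at h1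
    exact h1
  have h3 : (∏ l, lam l ^ c l) ^ n = (((p : K) ^ e) ^ r) ^ n := by
    have h4 := congrArg (algebraMap (EF lam) K) h2
    rw [map_pow, map_prod, map_pow, map_pow, map_pow, map_natCast] at h4
    simp only [map_pow] at h4
    exact h4
  rw [mul_comm 2 n, pow_mul, h3, hr, Nat.cast_pow]
  ring

/-- **Decomposition of long relations.** -/
theorem exists_subT (he : 0 < e) (hD : 0 < D) (h : IsWeilFamily p e D lam deg) {b B : ℕ}
    (hb : Fintype.card ι ≤ b) (hB : ∀ l, D * deg l ≤ B) {c : ι → ℕ} (hc : IsT (p ^ e) lam deg c)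
    (hN : 2 * b * (2 * b * B + 1) ^ b < ∑ l, c l) :
    ∃ m : ι → ℕ, (∀ l, m l ≤ c l) ∧ 0 < ∑ l, m l ∧ ∑ l, m l < ∑ l, c l ∧
      IsT (p ^ e) lam deg m ∧ IsT (p ^ e) lam deg (c - m) := by
  classical
  -- a basis of the rows
  let rq : (EF lam →ₐ[ℚ] PadicAlgCl p) → ι → ℚ := fun ψ l => (row h ψ l : ℚ)
  obtain ⟨f, hf1, hf2, -⟩ := Submodule.exists_fun_fin_finrank_span_eq ℚ (Set.range rq)
  have hrb : Module.finrank ℚ (Submodule.span ℚ (Set.range rq)) ≤ b := by
    refine le_trans ?_ hb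
    rw [← Module.finrank_fintype_fun_eq_card (R := ℚ) (η := ι)]
    exact Submodule.finrank_le _
  choose g hg using hf1
  have hrow0 := row_zero_of_isT he h hc
  obtain ⟨m, hm1, hm2, hm3, hm4, hm5⟩ := exists_sub (fun k => row h (g k)) deg hb
    (B := B) (fun k l => (row_le he h (g k) l).trans (by exact_mod_cast hB l)) c
    (fun k => hrow0 (g k)) (lt_of_le_of_lt (Nat.mul_le_mul_left _
      (Nat.pow_le_pow_right (Nat.succ_pos _) hrb)) hN)
  have hall : ∀ ψ : EF lam →ₐ[ℚ] PadicAlgCl p, ∑ l, row h ψ l * (m l : ℤ) = 0 := by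
    intro ψ
    have h1 : rq ψ ∈ Submodule.span ℚ (Set.range f) := by
      rw [hf2]; exact Submodule.subset_span ⟨ψ, rfl⟩
    have h2 : ∀ v ∈ Submodule.span ℚ (Set.range f), ∑ l, v l * (m l : ℚ) = 0 := by
      intro v hv
      induction hv using Submodule.span_induction with
      | mem v hv =>
        obtain ⟨k, rfl⟩ := hv
        rw [← hg k]
        have := hm4 k
        simp only [rq]
        exact_mod_cast this
      | zero => simp
      | add u v _ _ hu hv =>
        simp only [Pi.add_apply, add_mul, Finset.sum_add_distrib, hu, hv, add_zero]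
      | smul t v _ hv =>
        simp only [Pi.smul_apply, smul_eq_mul, mul_assoc]
        rw [← Finset.mul_sum, hv, mul_zero]
    have h3 := h2 _ h1
    simp only [rq] at h3
    exact_mod_cast h3
  refine ⟨m, hm1, hm2, hm3, isT_of_row_zero he hD h hm5 hall, ?_⟩
  have hsub : ∀ l, ((c - m) l : ℤ) = c l - m l := fun l => by
    rw [Pi.sub_apply, Nat.cast_sub (hm1 l)]
  apply isT_of_row_zero he hD h
  · have h1 : ∑ l, deg l * (c - m) l + ∑ l, deg l * m l = ∑ l, deg l * c l := by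
      rw [← Finset.sum_add_distrib]
      exact Finset.sum_congr rfl fun l _ => by
        rw [← Nat.mul_add, Pi.sub_apply, Nat.sub_add_cancel (hm1 l)]
    have h2 := hc.1
    rw [← h1] at h2
    exact (Nat.even_add.1 h2).2 hm5
  · intro ψ
    simp only [hsub, mul_sub, Finset.sum_sub_distrib]
    rw [hrow0 ψ, hall ψ, sub_zero]

end

end Pool.Agent.R940
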