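import Pool.Agent.R940.HGen

/-!
# Bounded generation of the Hodge classes on the products with powers of varieties of CM type
-/

set_option linter.unusedVariables false
set_option linter.unusedSectionVars false

open CategoryTheory AlgebraicGeometry CategoryTheory.Limits TensorProduct

universe u v

namespace Pool.Agent.R940

open Pool.Agent.H914 Pool.Agent.H447 Pool.Agent.W534 Pool.Agent.Y163 VarClass Obj WeilCohomology
  Module
open Pool.Agent.Y121

variable {k : Type u} [Field k] {𝒱 : VarClass k} {ops : CycleOps 𝒱}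

section Alg

variable {W : WeilCohomology.{u, v} ops} {X Y Z : 𝒱.Obj}

/-- Elements of even degree are central. -/
lemma even_comm {i : ℕ} {a : W.H Y} (ha : a ∈ W.gr Y (2 * i)) (b : W.H Y) : a * b = b * a := by
  refine gr_induction (W.isInternal Y) (p := fun b => a * b = b * a) ?_ ?_ b
  · intro j b hb
    rw [W.comm ha hb, mul_assoc, pow_mul, neg_one_sq, one_pow, one_smul]
  · intro b c hb hc
    rw [mul_add, add_mul, hb, hc]

/-- The sum of the spaces of algebraic classes is closed under products. -/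
lemma iSup_mul {a b : W.H Y} (ha : a ∈ ⨆ j : ℕ, spanCycles W Y j)
    (hb : b ∈ ⨆ j : ℕ, spanCycles W Y j) : a * b ∈ ⨆ j : ℕ, spanCycles W Y j := by
  refine Submodule.iSup_induction _ (motive := fun a => a * b ∈ ⨆ j : ℕ, spanCycles W Y j) ha
    ?_ ?_ ?_
  · intro i a ha
    refine Submodule.iSup_induction _ (motive := fun b => a * b ∈ ⨆ j : ℕ, spanCycles W Y j) hb
      ?_ ?_ ?_
    · intro j b hb
      refine Submodule.mem_iSup_of_mem (i + j) ?_
      push_cast
      exact span_mul ha hb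
    · rw [mul_zero]; exact Submodule.zero_mem _
    · intro b c hb hc
      rw [mul_add]
      exact Submodule.add_mem _ hb hc
  · rw [zero_mul]; exact Submodule.zero_mem _
  · intro c d hc hd
    rw [add_mul]
    exact Submodule.add_mem _ hc hd

lemma spanCycles_gr {j : ℕ} {a : W.H Y} (ha : a ∈ spanCycles W Y j) : a ∈ W.gr Y (2 * j) := by
  induction ha using Submodule.span_induction with
  | mem x hx =>
    obtain ⟨r, hr, z, hz, rfl⟩ := hx
    have : r = j := by exact_mod_cast hr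
    subst this
    exact W.cl_mem hz
  | zero => exact Submodule.zero_mem _
  | add x y _ _ hx hy => exact Submodule.add_mem _ hx hy
  | smul c x _ hx => exact Submodule.smul_mem _ _ hx

/-- The homogeneous component of a sum of algebraic classes. -/
lemma mem_span_of_iSup {J : ℕ} {c : W.H Y} (hc : c ∈ ⨆ j : ℕ, spanCycles W Y j)
    (hJ : c ∈ W.gr Y (2 * J)) : c ∈ spanCycles W Y J := by
  have h1 : ∀ x ∈ ⨆ j : ℕ, spanCycles W Y j,
      Pool.Agent.H914.proj (W.isInternal Y) (2 * J) x ∈ spanCycles W Y J := by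
    intro x hx
    refine Submodule.iSup_induction _
      (motive := fun x => Pool.Agent.H914.proj (W.isInternal Y) (2 * J) x ∈ spanCycles W Y J)
      hx ?_ ?_ ?_
    · intro j x hx
      by_cases hj : j = J
      · subst hj
        rw [proj_same _ (spanCycles_gr hx)]
        exact hx
      · rw [proj_ne _ (spanCycles_gr hx) (show 2 * j ≠ 2 * J by omega)]
        exact Submodule.zero_mem _
    · rw [map_zero]; exact Submodule.zero_mem _
    · intro x y hx hy
      rw [map_add]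
      exact Submodule.add_mem _ hx hy
  have h2 := h1 c hc
  rwa [proj_same _ hJ] at h2

lemma exists_cycle (hrat : ∀ r : W.K, ∃ q : ℚ, (q : W.K) = r) {J : ℕ} {c : W.H Y}
    (hc : c ∈ spanCycles W Y J) : ∃ z : Y.Cycles, Y.IsCyc J z ∧ W.cl Y z = c := by
  induction hc using Submodule.span_induction with
  | mem x hx =>
    obtain ⟨r, hr, z, hz, rfl⟩ := hx
    have : r = J := by exact_mod_cast hr
    subst this
    exact ⟨z, hz, rfl⟩
  | zero => exact ⟨0, SmVar.IsCyc.zero _ _, map_zero _⟩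
  | add x y _ _ hx hy =>
    obtain ⟨z, hz, rfl⟩ := hx
    obtain ⟨w, hw, rfl⟩ := hy
    exact ⟨z + w, hz.add hw, map_add _ _ _⟩
  | smul c x _ hx =>
    obtain ⟨z, hz, rfl⟩ := hx
    obtain ⟨q, rfl⟩ := hrat c
    exact ⟨q • z, hz.smul q, W.cl_smul q z⟩

end Alg

section Main

variable {T : AH.HodgeTheory ops} {X Y Z : 𝒱.Obj} {L : Type} [Field L] [Algebra T.W.K L]
  {ι : Type} [Fintype ι] [DecidableEq ι]

/-- The version for the other form of Hodge theories. -/
def IsPulledH (T : AH.HodgeTheory ops) (Z X : 𝒱.Obj) (N n : ℕ)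
    (c : T.W.H (Z.prod (pw X n))) : Prop :=
  ∃ (m : ℕ) (e : Fin (m + 1) → Fin (n + 1)) (j : ℕ) (t : T.W.H (Z.prod (pw X m))), m + 1 ≤ N ∧
    Function.Injective e ∧ AH.IsHodge T (Z.prod (pw X m)) j t ∧ c = T.W.map (projZ Z X e) t

/-- The algebra generated by the Hodge classes pulled back from small powers. -/
noncomputable def GH (T : AH.HodgeTheory ops) (Z X : 𝒱.Obj) (N n : ℕ) :
    Subalgebra T.W.K (T.W.H (Z.prod (pw X n))) :=
  Algebra.adjoin T.W.K {c | IsPulledH T Z X N n c}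

lemma projZ_comp {m a n : ℕ} (e : Fin (a + 1) → Fin (n + 1)) (e' : Fin (m + 1) → Fin (a + 1)) :
    projZ Z X e ≫ projZ Z X e' = projZ Z X (e ∘ e') := by
  apply prod_hom_ext
  · rw [Category.assoc, projZ, projZ, projZ, Obj.lift_fst, Obj.lift_fst, Obj.lift_fst]
  · rw [Category.assoc, projZ, projZ, projZ, Obj.lift_snd, Obj.lift_snd, ← Category.assoc,
      Obj.lift_snd, Category.assoc, proj_comp]

lemma projZ_id (n : ℕ) : projZ Z X (id : Fin (n + 1) → Fin (n + 1)) = 𝟙 _ := by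
  have hid : proj X (id : Fin (n + 1) → Fin (n + 1)) = 𝟙 _ := by
    apply pw_hom_ext
    intro i
    rw [proj_eq, tup_pr, Category.id_comp]
    rfl
  apply prod_hom_ext
  · rw [projZ, Obj.lift_fst, Category.id_comp]
  · rw [projZ, Obj.lift_snd, hid, Category.id_comp, Category.comp_id]

lemma GH.map {N a n : ℕ} {e : Fin (a + 1) → Fin (n + 1)} (he : Function.Injective e)
    {x : T.W.H (Z.prod (pw X a))} (hx : x ∈ GH T Z X N a) :
    T.W.map (projZ Z X e) x ∈ GH T Z X N n := by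
  have h1 : (GH T Z X N a).map (T.W.map (projZ Z X e)) ≤ GH T Z X N n := by
    rw [GH, AlgHom.map_adjoin, Algebra.adjoin_le_iff]
    rintro _ ⟨c, ⟨m, e', j, t, hm, he', ht, rfl⟩, rfl⟩
    apply Algebra.subset_adjoin
    refine ⟨m, e ∘ e', j, t, hm, he.comp he', ht, ?_⟩
    rw [← T.W.map_comp, projZ_comp]
  exact h1 ⟨x, hx, rfl⟩

lemma mem_GH {N n : ℕ} (hN : n + 1 ≤ N) {j : ℕ} {c : T.W.H (Z.prod (pw X n))}
    (hc : AH.IsHodge T (Z.prod (pw X n)) j c) : c ∈ GH T Z X N n := by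
  apply Algebra.subset_adjoin
  refine ⟨n, id, j, c, hN, Function.injective_id, hc, ?_⟩
  rw [projZ_id, T.W.map_id]

variable (M : CMB T X L ι)

lemma csH_mon (σ : L →ₐ[T.W.K] ℂ) : ∀ (n : ℕ) (I : Fin (n + 1) → ι),
    csH σ (pw X n) (mon M.B n I) = mon (M.C σ) n I
  | 0, I => (M.C_b σ (I 0)).symm
  | n + 1, I => by
    have h1 : csH σ (pw X (n + 1)) (mon M.B (n + 1) I) =
        csH σ (X.prod (pw X n)) ((baseW T.W L).map (fst X (pw X n)) (M.B.b (I 0)) *
          (baseW T.W L).map (snd X (pw X n)) (mon M.B n (Fin.tail I))) := rfl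
    rw [h1, map_mul, csH_map, csH_map, csH_mon σ n, ← M.C_b]
    rfl

lemma csH_zm (σ : L →ₐ[T.W.K] ℂ) (n : ℕ) (z : (baseW T.W L).H Z) (I : Fin (n + 1) → ι) :
    csH σ _ (zm M.B n z I) = zm (M.C σ) n (csH σ Z z) I := by
  rw [zm, map_mul, csH_map, csH_map, csH_mon]
  rfl

variable (hpos : ∀ (Y : 𝒱.Obj) (p q : ℤ), p < 0 ∨ q < 0 → T.pq Y p q = ⊥)

include hpos in
/-- The types of nonzero classes are nonnegative and bounded. -/
lemma type_bound {p q : ℤ} {x : (baseW T.W ℂ).H Y} (hx : x ∈ T.pq Y p q) (h0 : x ≠ 0) :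
    0 ≤ p ∧ 0 ≤ q ∧ x ∈ (baseW T.W ℂ).gr Y (p + q).toNat ∧ p + q ≤ 2 * Y.dim := by
  have h1 : 0 ≤ p ∧ 0 ≤ q := by
    by_contra hcon
    have h2 : p < 0 ∨ q < 0 := by omega
    rw [hpos Y p q h2] at hx
    exact h0 ((Submodule.mem_bot _).1 hx)
  have h2 : x ∈ (baseW T.W ℂ).gr Y (p + q).toNat :=
    T.dec.le Y (by rw [Int.toNat_of_nonneg (by linarith [h1.1, h1.2])]) hx
  refine ⟨h1.1, h1.2, h2, ?_⟩
  by_contra hcon
  rw [(baseW T.W ℂ).gr_eq_bot Y _ (by omega)] at h2
  exact h0 ((Submodule.mem_bot _).1 h2)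

include hpos in
lemma deg_eq (σ : L →ₐ[T.W.K] ℂ) (l : ι) :
    M.p σ l + M.q σ l = M.B.deg l ∧ 0 ≤ M.p σ l ∧ 0 ≤ M.q σ l := by
  have h0 : (M.C σ).b l ≠ 0 := (M.C σ).b.ne_zero l
  obtain ⟨h1, h2, h3, h4⟩ := type_bound hpos (M.type σ l) h0
  have h5 : (M.C σ).b l ∈ (baseW T.W ℂ).gr X (M.B.deg l) := by
    rw [M.C_b]
    exact csH_gr σ (M.B.mem l)
  refine ⟨?_, h1, h2⟩
  have h6 : (M.p σ l + M.q σ l).toNat = M.B.deg l := by
    by_contra hne
    have h7 := ((baseW T.W ℂ).isInternal X).submodule_iSupIndep.pairwiseDisjoint hne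
    exact h0 ((Submodule.disjoint_def.1 h7) _ h3 h5)
  omega

include hpos in
/-- **The induction.** -/
theorem gen_key [FiniteDimensional T.W.K L] [IsGalois T.W.K L] {b B R N : ℕ}
    (hb : Fintype.card ι ≤ b) (hB : ∀ l, M.B.deg l ≤ B) (hR : 2 * Z.dim ≤ R)
    (hN : N = b * (2 * (b * B + R) + 1) ^ b) :
    ∀ (n : ℕ) (I : Fin (n + 1) → ι) (z : (baseW T.W L).H Z) (J : ℕ),
      zm M.B n z I ∈ HSub L T (Z.prod (pw X n)) J →
      zm M.B n z I ∈ SG L (Subalgebra.toSubmodule (GH T Z X N n)) := by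
  intro n
  induction n using Nat.strong_induction_on with
  | _ n ih =>
  intro I z J hz
  by_cases hz0 : z = 0
  · rw [hz0, zm, map_zero, zero_mul]
    exact Submodule.zero_mem _
  rcases Nat.lt_or_ge N (n + 1) with hlt | hge
  · -- the types of `z`
    have hty : ∀ σ : L →ₐ[T.W.K] ℂ,
        csH σ Z z ∈ T.pq Z (J - ∑ j, M.p σ (I j)) (J - ∑ j, M.q σ (I j)) := by
      intro σ
      have h1 := hz σ
      rw [csH_zm] at h1
      have h2 : ∑ I', zm (M.C σ) n ((Pi.single I (csH σ Z z) : (Fin (n + 1) → ι) →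
          (baseW T.W ℂ).H Z) I') I' ∈ T.pq (Z.prod (pw X n)) J J := by
        rw [Finset.sum_eq_single I]
        · rw [Pi.single_eq_same]; exact h1
        · intro I' _ hI'
          rw [Pi.single_eq_of_ne hI', zm, map_zero, zero_mul]
        · intro h; exact absurd (Finset.mem_univ _) h
      have h3 := type_coord T (M.type σ) h2 I
      rw [Pi.single_eq_same] at h3
      exact h3
    have hz1 : ∀ σ : L →ₐ[T.W.K] ℂ, csH σ Z z ≠ 0 := fun σ h => hz0 (csH_inj σ (by
      rw [h, map_zero]))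
    have hrow : ∀ σ : L →ₐ[T.W.K] ℂ, |∑ l, (M.p σ l - M.q σ l) * (cnt I l : ℤ)| ≤ R := by
      intro σ
      obtain ⟨h1, h2, h3, h4⟩ := type_bound hpos (hty σ) (hz1 σ)
      have h5 : ∑ l, (M.p σ l - M.q σ l) * (cnt I l : ℤ) =
          ∑ j, M.p σ (I j) - ∑ j, M.q σ (I j) := by
        rw [← Finset.sum_sub_distrib, sum_cnt I (fun l => M.p σ l - M.q σ l)]
        exact Finset.sum_congr rfl fun l _ => by rw [nsmul_eq_mul, mul_comm]
      rw [h5, abs_le]
      have h6 : (2 * Z.dim : ℤ) ≤ R := by exact_mod_cast hR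
      constructor <;> linarith
    have hrowB : ∀ (σ : L →ₐ[T.W.K] ℂ) (l : ι), |M.p σ l - M.q σ l| ≤ B := by
      intro σ l
      obtain ⟨h1, h2, h3⟩ := deg_eq M hpos σ l
      have h4 : (M.B.deg l : ℤ) ≤ B := by exact_mod_cast hB l
      rw [abs_le]
      constructor <;> linarith
    obtain ⟨m, hm1, hm2, hm3, hm4⟩ := exists_sub_fam (fun (σ : L →ₐ[T.W.K] ℂ) l =>
      M.p σ l - M.q σ l) hb hrowB (cnt I) hrow (by rw [sum_cnt_one, ← hN]; exact hlt)
    obtain ⟨a, a', e, e', hperm, h1, h2⟩ := exists_subword I m hm1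
    have ha : ∑ l, m l = a := by rw [← h1, sum_cnt_one]
    have ha' : ∑ l, (cnt I - m) l = a' := by rw [← h2, sum_cnt_one]
    have hlen : a + a' = n + 1 := by
      have := hperm.length_eq
      simpa using this
    rw [sum_cnt_one] at hm3
    obtain ⟨a, rfl⟩ : ∃ r, a = r + 1 := ⟨a - 1, by omega⟩
    obtain ⟨a', rfl⟩ : ∃ r, a' = r + 1 := ⟨a' - 1, by omega⟩
    have hnd : (List.ofFn e ++ List.ofFn e').Nodup := hperm.nodup_iff.2 (List.nodup_finRange _)
    have hnd2 := List.nodup_append'.1 hnd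
    obtain ⟨ε, hε⟩ := mon_split M.B I e e' hperm
    -- the sums of the types
    have hbal : ∀ σ : L →ₐ[T.W.K] ℂ, ∑ j, M.p σ ((I ∘ e) j) = ∑ j, M.q σ ((I ∘ e) j) := by
      intro σ
      have h3 := hm4 σ
      have h5 : ∑ l, (M.p σ l - M.q σ l) * (m l : ℤ) =
          ∑ j, M.p σ ((I ∘ e) j) - ∑ j, M.q σ ((I ∘ e) j) := by
        rw [← Finset.sum_sub_distrib, sum_cnt (I ∘ e) (fun l => M.p σ l - M.q σ l), h1]
        exact Finset.sum_congr rfl fun l _ => by rw [nsmul_eq_mul, mul_comm]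
      rw [h5] at h3
      linarith
    have hdeg : ∀ σ : L →ₐ[T.W.K] ℂ, 2 * ∑ j, M.p σ ((I ∘ e) j) =
        ((∑ j, M.B.deg ((I ∘ e) j) : ℕ) : ℤ) := by
      intro σ
      have h3 := hbal σ
      have h4 : ∑ j, M.p σ ((I ∘ e) j) + ∑ j, M.q σ ((I ∘ e) j) =
          ((∑ j, M.B.deg ((I ∘ e) j) : ℕ) : ℤ) := by
        rw [← Finset.sum_add_distrib]
        push_cast
        exact Finset.sum_congr rfl fun j _ => (deg_eq M hpos σ _).1
      linarith
    have hKL : Algebra.IsAlgebraic T.W.K L := inferInstance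
    let σ₀ : L →ₐ[T.W.K] ℂ := IsAlgClosed.lift
    obtain ⟨J', hJ'⟩ : ∃ J', ∑ j, M.B.deg ((I ∘ e) j) = 2 * J' := by
      have h3 := hdeg σ₀
      exact ⟨(∑ j, M.p σ₀ ((I ∘ e) j)).toNat, by omega⟩
    have hpJ : ∀ σ : L →ₐ[T.W.K] ℂ, ∑ j, M.p σ ((I ∘ e) j) = J' ∧
        ∑ j, M.q σ ((I ∘ e) j) = J' := by
      intro σ
      have h3 := hdeg σ
      have h4 := hbal σ
      rw [hJ'] at h3
      push_cast at h3
      constructor <;> linarith
    have hsplit : ∀ (f : ι → ℤ), ∑ j, f (I j) = ∑ j, f ((I ∘ e) j) + ∑ j, f ((I ∘ e') j) := by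
      intro f
      rw [sum_cnt I f, sum_cnt (I ∘ e) f, sum_cnt (I ∘ e') f, h1, h2, ← Finset.sum_add_distrib]
      refine Finset.sum_congr rfl fun l _ => ?_
      rw [← add_smul, Pi.sub_apply, Nat.add_sub_cancel' (hm1 l)]
    -- the first factor
    have hA : zm M.B a (1 : (baseW T.W L).H Z) (I ∘ e) ∈ HSub L T (Z.prod (pw X a)) J' := by
      intro σ
      rw [csH_zm, map_one, zm, map_one, one_mul]
      have h3 := T.dec.map (snd Z (pw X a)) (mon_type T (M.type σ) a (I ∘ e))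
      rw [(hpJ σ).1, (hpJ σ).2] at h3
      exact h3
    -- the second factor
    have hJJ : ∀ σ : L →ₐ[T.W.K] ℂ, J' ≤ J := by
      intro σ
      obtain ⟨h3, h4, h5, h6⟩ := type_bound hpos (hty σ) (hz1 σ)
      have h7 := hsplit (M.p σ)
      have h8 : 0 ≤ ∑ j, M.p σ ((I ∘ e') j) :=
        Finset.sum_nonneg fun j _ => (deg_eq M hpos σ _).2.1
      rw [(hpJ σ).1] at h7
      omega
    have hA' : zm M.B a' z (I ∘ e') ∈ HSub L T (Z.prod (pw X a')) (J - J') := by
      intro σ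
      rw [csH_zm]
      have h3 := T.dec.mul (T.dec.map (fst Z (pw X a')) (hty σ))
        (T.dec.map (snd Z (pw X a')) (mon_type T (M.type σ) a' (I ∘ e')))
      have h4 := hsplit (M.p σ)
      have h5 := hsplit (M.q σ)
      rw [(hpJ σ).1] at h4
      rw [(hpJ σ).2] at h5
      have h6 := hJJ σ
      have e1 : (J : ℤ) - ∑ j, M.p σ (I j) + ∑ j, M.p σ ((I ∘ e') j) = ((J - J' : ℕ) : ℤ) := by
        rw [h4]; push_cast [Nat.cast_sub h6]; ring
      have e2 : (J : ℤ) - ∑ j, M.q σ (I j) + ∑ j, M.q σ ((I ∘ e') j) = ((J - J' : ℕ) : ℤ) := by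
        rw [h5]; push_cast [Nat.cast_sub h6]; ring
      rw [e1, e2] at h3
      exact h3
    -- the product
    have hprod : zm M.B n z I = ε • ((baseW T.W L).map (projZ Z X e) (zm M.B a 1 (I ∘ e)) *
        (baseW T.W L).map (projZ Z X e') (zm M.B a' z (I ∘ e'))) := by
      have hmap : ∀ {r : ℕ} (g : Fin (r + 1) → Fin (n + 1)) (y : (baseW T.W L).H Z)
          (K : Fin (r + 1) → ι), (baseW T.W L).map (projZ Z X g) (zm M.B r y K) =
          (baseW T.W L).map (fst Z (pw X n)) y * (baseW T.W L).map (snd Z (pw X n))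
            ((baseW T.W L).map (proj X g) (mon M.B r K)) := by
        intro r g y K
        rw [zm, map_mul, ← (baseW T.W L).map_comp, ← (baseW T.W L).map_comp, projZ, Obj.lift_fst,
          Obj.lift_snd, ← (baseW T.W L).map_comp]
      have heven : (baseW T.W L).map (snd Z (pw X n)) ((baseW T.W L).map (proj X e)
          (mon M.B a (I ∘ e))) ∈ (baseW T.W L).gr (Z.prod (pw X n)) (2 * J') := by
        rw [← hJ']
        exact (baseW T.W L).map_mem _ ((baseW T.W L).map_mem _ (mon_gr M.B a (I ∘ e)))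
      rw [hmap, hmap, map_one, one_mul, even_comm heven, zm, hε, ← proj_eq, ← proj_eq, map_smul,
        mul_smul_comm, map_mul, mul_assoc]
      congr 1
      congr 1
      exact even_comm heven _
    rw [hprod]
    refine Submodule.smul_mem _ _ (SG_mul ?_ ?_)
    · exact SG_map (projZ Z X e) (fun c hc => GH.map (List.nodup_ofFn.1 hnd2.1) hc)
        (ih a (by omega) (I ∘ e) 1 J' hA)
    · exact SG_map (projZ Z X e') (fun c hc => GH.map (List.nodup_ofFn.1 hnd2.2.1) hc)
        (ih a' (by omega) (I ∘ e') z (J - J') hA')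
  · have h1 := hodge_descent hz
    have h2 : Submodule.span (baseW T.W L).K
        (AH.em T.W L '' {c | AH.IsHodge T (Z.prod (pw X n)) J c}) ≤
        SG L (Subalgebra.toSubmodule (GH T Z X N n)) := by
      rw [Submodule.span_le]
      rintro _ ⟨c, hc, rfl⟩
      exact em_SG (mem_GH hge hc)
    exact h2 h1

include hpos in
/-- **Bounded generation of the Hodge classes.** -/
theorem hodge_generated [FiniteDimensional T.W.K L] [IsGalois T.W.K L] {b B R N : ℕ}
    (hb : Fintype.card ι ≤ b) (hB : ∀ l, M.B.deg l ≤ B) (hR : 2 * Z.dim ≤ R)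
    (hN : N = b * (2 * (b * B + R) + 1) ^ b) {n J : ℕ} {c : T.W.H (Z.prod (pw X n))}
    (hc : AH.IsHodge T (Z.prod (pw X n)) J c) : c ∈ GH T Z X N n := by
  obtain ⟨z, hz⟩ := exists_coord (Z := Z) M.B n (AH.em T.W L c)
  have h1 : ∀ I, zm M.B n (z I) I ∈ HSub L T (Z.prod (pw X n)) J := by
    intro I σ
    have h2 := em_HSub (L := L) hc σ
    rw [hz, map_sum] at h2
    simp only [csH_zm] at h2
    have h3 := type_coord T (M.type σ) h2 I
    rw [csH_zm]
    have h4 := T.dec.mul (T.dec.map (fst Z (pw X n)) h3)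
      (T.dec.map (snd Z (pw X n)) (mon_type T (M.type σ) n I))
    rw [sub_add_cancel, sub_add_cancel] at h4
    exact h4
  have h2 : AH.em T.W L c ∈ SG L (Subalgebra.toSubmodule (GH T Z X N n)) := by
    rw [hz]
    exact Submodule.sum_mem _ fun I _ => gen_key M hpos hb hB hR hN n I (z I) J (h1 I)
  exact mem_of_SG h2

end Main

end Pool.Agent.R940
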