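import Pool.Agent.R940.HTyp

/-!
# Galois descent for Hodge classes, and the eigenbasis of a Hodge structure of CM type
-/

set_option linter.unusedVariables false
set_option linter.unusedSectionVars false

open CategoryTheory AlgebraicGeometry CategoryTheory.Limits TensorProduct

universe u v

namespace Pool.Agent.R940

open Pool.Agent.H914 Pool.Agent.H447 Pool.Agent.W534 Pool.Agent.Y163 VarClass Obj WeilCohomology
  Module
open Pool.Agent.Y121

variable {k : Type u} [Field k] {𝒱 : VarClass k} {ops : CycleOps 𝒱}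

variable {T : AH.HodgeTheory ops} {X Y Y' Z : 𝒱.Obj} {L : Type} [Field L] [Algebra T.W.K L]

/-- The map on the cohomology induced by an embedding of the coefficients. -/
noncomputable def csH (σ : L →ₐ[T.W.K] ℂ) (Y : 𝒱.Obj) :
    (baseW T.W L).H Y →+* (baseW T.W ℂ).H Y :=
  (cs (T.W.H Y) σ).toRingHom

lemma csH_smul (σ : L →ₐ[T.W.K] ℂ) (c : (baseW T.W L).K) (x : (baseW T.W L).H Y) :
    csH σ Y (c • x) = (show (baseW T.W ℂ).K from σ c) • csH σ Y x :=
  cs_smul σ c x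

lemma csH_map (σ : L →ₐ[T.W.K] ℂ) (f : Y ⟶ Y') (x : (baseW T.W L).H Y') :
    csH σ Y ((baseW T.W L).map f x) = (baseW T.W ℂ).map f (csH σ Y' x) :=
  cs_map σ (T.W.map f) x

lemma csH_em (σ : L →ₐ[T.W.K] ℂ) (c : T.W.H Y) :
    csH σ Y (AH.em T.W L c) = AH.em T.W ℂ c := by
  have h : cs (T.W.H Y) σ ((1 : L) ⊗ₜ[T.W.K] c) = (1 : ℂ) ⊗ₜ[T.W.K] c := by
    rw [cs_tmul, map_one]
  exact h

lemma csH_gr (σ : L →ₐ[T.W.K] ℂ) {i : ℕ} {x : (baseW T.W L).H Y}
    (hx : x ∈ (baseW T.W L).gr Y i) : csH σ Y x ∈ (baseW T.W ℂ).gr Y i :=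
  cs_mem (σ := σ) (p := T.W.gr Y i) hx

lemma csH_inj (σ : L →ₐ[T.W.K] ℂ) : Function.Injective (csH σ Y) :=
  cs_injective (A := T.W.H Y) σ

variable (L)

/-- The classes all of whose conjugates are of type `(J, J)`. -/
noncomputable def HSub (T : AH.HodgeTheory ops) [Algebra T.W.K L] (Y : 𝒱.Obj) (J : ℕ) :
    Submodule (baseW T.W L).K ((baseW T.W L).H Y) where
  carrier := {x | ∀ σ : L →ₐ[T.W.K] ℂ, csH σ Y x ∈ T.pq Y J J}
  zero_mem' := fun σ => by rw [map_zero]; exact Submodule.zero_mem _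
  add_mem' := fun {x y} hx hy σ => by rw [map_add]; exact Submodule.add_mem _ (hx σ) (hy σ)
  smul_mem' := fun c x hx σ => by rw [csH_smul]; exact Submodule.smul_mem _ _ (hx σ)

variable {L}

lemma mem_HSub {J : ℕ} {x : (baseW T.W L).H Y} :
    x ∈ HSub L T Y J ↔ ∀ σ : L →ₐ[T.W.K] ℂ, csH σ Y x ∈ T.pq Y J J := Iff.rfl

lemma em_HSub {J : ℕ} {c : T.W.H Y} (hc : AH.IsHodge T Y J c) : AH.em T.W L c ∈ HSub L T Y J := by
  intro σ
  rw [csH_em]
  exact hc.2

/-- **Descent for the Hodge classes.** -/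
theorem hodge_descent [FiniteDimensional T.W.K L] [IsGalois T.W.K L] {J : ℕ}
    {x : (baseW T.W L).H Y} (hx : x ∈ HSub L T Y J) :
    x ∈ Submodule.span (baseW T.W L).K (AH.em T.W L '' {c | AH.IsHodge T Y J c}) := by
  have hKL : Algebra.IsAlgebraic T.W.K L := inferInstance
  let σ₀ : L →ₐ[T.W.K] ℂ := IsAlgClosed.lift
  obtain ⟨x', hx'⟩ : ∃ x' : L ⊗[T.W.K] T.W.H Y, x' = x := ⟨x, rfl⟩
  have key : ∀ c : L, ∃ a : T.W.H Y, AH.IsHodge T Y J a ∧
      (1 : L) ⊗ₜ[T.W.K] a = ∑ τ : L ≃ₐ[T.W.K] L, gal (T.W.H Y) τ (c • x') := by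
    intro c
    obtain ⟨a, ha⟩ := exists_of_invariant (K := T.W.K) (L := L) (V := T.W.H Y)
      (x := ∑ τ : L ≃ₐ[T.W.K] L, gal (T.W.H Y) τ (c • x')) (by
        intro ρ
        rw [map_sum]
        simp only [gal_gal]
        exact Fintype.sum_equiv (Equiv.mulLeft ρ) _ _ fun τ => rfl)
    have hgal : ∀ (τ : L ≃ₐ[T.W.K] L) (y : L ⊗[T.W.K] T.W.H Y),
        gal (T.W.H Y) τ y = cs (T.W.H Y) (τ : L →ₐ[T.W.K] L) y := by
      intro τ y
      refine cs_ind (P := fun y => gal (T.W.H Y) τ y = cs (T.W.H Y) (τ : L →ₐ[T.W.K] L) y)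
        ?_ ?_ ?_ y
      · rw [map_zero, map_zero]
      · intro x y hx hy; rw [map_add, map_add, hx, hy]
      · intro l a; rw [gal_tmul, cs_tmul]; rfl
    have htype : AH.em T.W ℂ a ∈ T.pq Y J J := by
      have h1 : AH.em T.W ℂ a = cs (T.W.H Y) σ₀ ((1 : L) ⊗ₜ[T.W.K] a) := by
        rw [cs_tmul, map_one]; rfl
      rw [h1, ha, map_sum]
      have h2 : ∀ τ : L ≃ₐ[T.W.K] L, (show (baseW T.W ℂ).H Y from cs (T.W.H Y) σ₀
          (gal (T.W.H Y) τ (c • x'))) ∈ T.pq Y J J := by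
        intro τ
        rw [hgal, cs_comp, hx']
        exact Submodule.smul_mem (HSub L T Y J) c hx (σ₀.comp (τ : L →ₐ[T.W.K] L))
      exact Submodule.sum_mem _ fun τ _ => h2 τ
    refine ⟨a, ⟨?_, htype⟩, ha⟩
    have h3 : AH.em T.W ℂ a ∈ (baseW T.W ℂ).gr Y (2 * J) :=
      T.dec.le Y (by push_cast; ring) htype
    exact mem_of_baseChange (K := T.W.K) (L := ℂ) (G := T.W.gr Y (2 * J)) h3
  have h1 := mem_span_traces (K := T.W.K) (L := L) (V := T.W.H Y) x'
  have h2 : Submodule.span L (Set.range fun c : L =>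
      ∑ τ : L ≃ₐ[T.W.K] L, gal (T.W.H Y) τ (c • x')) ≤
      Submodule.span L ((fun a : T.W.H Y => ((1 : L) ⊗ₜ[T.W.K] a : L ⊗[T.W.K] T.W.H Y)) ''
        {c | AH.IsHodge T Y J c}) := by
    rw [Submodule.span_le]
    rintro _ ⟨c, rfl⟩
    obtain ⟨a, ha, h⟩ := key c
    beta_reduce
    rw [← h]
    exact Submodule.subset_span ⟨a, ha, rfl⟩
  have h3 := h2 h1
  rw [hx'] at h3
  exact h3

/-! ### Extension of a subspace -/

variable (L) in
/-- The extension of a subspace of the rational cohomology. -/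
noncomputable def SG (G : Submodule T.W.K (T.W.H Y)) :
    Submodule (baseW T.W L).K ((baseW T.W L).H Y) :=
  (G.baseChange L : Submodule L (L ⊗[T.W.K] T.W.H Y))

lemma SG_ind {G : Submodule T.W.K (T.W.H Y)} {P : (baseW T.W L).H Y → Prop} (h0 : P 0)
    (hadd : ∀ x y, P x → P y → P (x + y)) (hs : ∀ (c : (baseW T.W L).K) x, P x → P (c • x))
    (h : ∀ a ∈ G, P (AH.em T.W L a)) {x : (baseW T.W L).H Y} (hx : x ∈ SG L G) : P x := by
  have h1 : x ∈ Submodule.span L ((G.map (TensorProduct.mk T.W.K L (T.W.H Y) 1) :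
      Submodule T.W.K (L ⊗[T.W.K] T.W.H Y)) : Set (L ⊗[T.W.K] T.W.H Y)) := by
    rw [← Submodule.baseChange_eq_span]
    exact hx
  clear hx
  induction h1 using Submodule.span_induction with
  | mem x hx =>
    obtain ⟨a, ha, rfl⟩ := hx
    exact h a ha
  | zero => exact h0
  | add x y _ _ hx hy => exact hadd _ _ hx hy
  | smul c x _ hx => exact hs c x hx

lemma em_SG {G : Submodule T.W.K (T.W.H Y)} {a : T.W.H Y} (ha : a ∈ G) :
    AH.em T.W L a ∈ SG L G :=
  Submodule.tmul_mem_baseChange_of_mem (p := G) (1 : L) ha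

lemma mem_of_SG {G : Submodule T.W.K (T.W.H Y)} {a : T.W.H Y} (ha : AH.em T.W L a ∈ SG L G) :
    a ∈ G :=
  mem_of_baseChange (K := T.W.K) (L := L) (G := G) ha

lemma em_mul (a b : T.W.H Y) : AH.em T.W L a * AH.em T.W L b = AH.em T.W L (a * b) := by
  have h : ((1 : L) ⊗ₜ[T.W.K] a) * ((1 : L) ⊗ₜ[T.W.K] b) = (1 : L) ⊗ₜ[T.W.K] (a * b) := by
    rw [Algebra.TensorProduct.tmul_mul_tmul, one_mul]
  exact h

lemma em_map (f : Y ⟶ Y') (a : T.W.H Y') :
    (baseW T.W L).map f (AH.em T.W L a) = AH.em T.W L (T.W.map f a) := by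
  have h : Algebra.TensorProduct.map (AlgHom.id L L) (T.W.map f) ((1 : L) ⊗ₜ[T.W.K] a) =
      (1 : L) ⊗ₜ[T.W.K] (T.W.map f a) := by
    rw [Algebra.TensorProduct.map_tmul]; rfl
  exact h

lemma SG_mul {G : Subalgebra T.W.K (T.W.H Y)} {x y : (baseW T.W L).H Y}
    (hx : x ∈ SG L (Subalgebra.toSubmodule G)) (hy : y ∈ SG L (Subalgebra.toSubmodule G)) :
    x * y ∈ SG L (Subalgebra.toSubmodule G) := by
  refine SG_ind (P := fun x => x * y ∈ SG L (Subalgebra.toSubmodule G)) ?_ ?_ ?_ ?_ hx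
  · rw [zero_mul]; exact Submodule.zero_mem _
  · intro a b ha hb; rw [add_mul]; exact Submodule.add_mem _ ha hb
  · intro c a ha; rw [smul_mul_assoc]; exact Submodule.smul_mem _ _ ha
  · intro a ha
    refine SG_ind (P := fun y => AH.em T.W L a * y ∈ SG L (Subalgebra.toSubmodule G)) ?_ ?_ ?_ ?_ hy
    · rw [mul_zero]; exact Submodule.zero_mem _
    · intro b c hb hc; rw [mul_add]; exact Submodule.add_mem _ hb hc
    · intro c b hb; rw [mul_smul_comm]; exact Submodule.smul_mem _ _ hb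
    · intro b hb
      rw [em_mul]
      exact em_SG (Subalgebra.mul_mem _ ha hb)

lemma SG_map {G : Submodule T.W.K (T.W.H Y)} {G' : Submodule T.W.K (T.W.H Y')} (f : Y ⟶ Y')
    (hf : ∀ a ∈ G', T.W.map f a ∈ G) {x : (baseW T.W L).H Y'} (hx : x ∈ SG L G') :
    (baseW T.W L).map f x ∈ SG L G := by
  refine SG_ind (P := fun x => (baseW T.W L).map f x ∈ SG L G) ?_ ?_ ?_ ?_ hx
  · rw [map_zero]; exact Submodule.zero_mem _
  · intro a b ha hb; rw [map_add]; exact Submodule.add_mem _ ha hb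
  · intro c a ha; rw [map_smul]; exact Submodule.smul_mem _ _ ha
  · intro a ha
    rw [em_map]
    exact em_SG (hf a ha)

/-! ### The eigenbasis -/

/-- A basis of the cohomology with coefficients in `L` all of whose conjugates are homogeneous. -/
structure CMB (T : AH.HodgeTheory ops) (X : 𝒱.Obj) (L : Type) [Field L] [Algebra T.W.K L]
    (ι : Type) where
  /-- the basis -/
  B : HBasis (baseW T.W L) X ι
  /-- the conjugate bases -/
  C : (L →ₐ[T.W.K] ℂ) → HBasis (baseW T.W ℂ) X ι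
  C_b : ∀ σ l, (C σ).b l = csH σ X (B.b l)
  /-- the types -/
  p : (L →ₐ[T.W.K] ℂ) → ι → ℤ
  /-- the types -/
  q : (L →ₐ[T.W.K] ℂ) → ι → ℤ
  type : ∀ σ l, (C σ).b l ∈ T.pq X (p σ l) (q σ l)

/-- The existence of the eigenbasis. -/
theorem exists_cmb {f : T.W.H X →ₗ[T.W.K] T.W.H X} (hs : Squarefree (LinearMap.charpoly f))
    (hgr : ∀ i, ∀ x ∈ T.W.gr X i, f x ∈ T.W.gr X i)
    (hpq : ∀ (p q : ℤ), ∀ x : (baseW T.W ℂ).H X, x ∈ T.pq X p q →
      (show (baseW T.W ℂ).H X from f.baseChange ℂ (show ℂ ⊗[T.W.K] T.W.H X from x)) ∈ T.pq X p q)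
    (hL : ((LinearMap.charpoly f).map (algebraMap T.W.K L)).Splits) :
    Nonempty (CMB T X L (Fin (finrank T.W.K (T.W.H X)))) := by
  classical
  obtain ⟨v, μ, hμ, hv⟩ := exists_eigbasis (K := T.W.K) (L := L) (f := f) hs hL
  -- degrees
  have hgrL : ∀ i, ∀ x ∈ (T.W.gr X i).baseChange L, f.baseChange L x ∈ (T.W.gr X i).baseChange L := by
    intro i x hx
    rw [Submodule.baseChange_eq_span] at hx
    induction hx using Submodule.span_induction with
    | mem x hx =>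
      obtain ⟨a, ha, rfl⟩ := hx
      rw [TensorProduct.mk_apply, LinearMap.baseChange_tmul]
      exact Submodule.tmul_mem_baseChange_of_mem _ (hgr i a ha)
    | zero => rw [map_zero]; exact Submodule.zero_mem _
    | add x y _ _ hx hy => rw [map_add]; exact Submodule.add_mem _ hx hy
    | smul c x _ hx => rw [map_smul]; exact Submodule.smul_mem _ _ hx
  have hInt : DirectSum.IsInternal (fun i => (T.W.gr X i).baseChange L) :=
    (baseW T.W L).isInternal X
  have hdeg := fun l => eig_homog (g := f.baseChange L) hInt.submodule_iSupIndep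
    hInt.submodule_iSup_eq_top hgrL v hμ hv l
  choose deg hdeg using hdeg
  let B : HBasis (baseW T.W L) X (Fin (finrank T.W.K (T.W.H X))) := ⟨v, deg, hdeg⟩
  -- the conjugates
  have hli : ∀ σ : L →ₐ[T.W.K] ℂ, LinearIndependent ℂ (fun l => cs (T.W.H X) σ (v l)) := by
    intro σ
    refine Module.End.eigenvectors_linearIndependent' (f.baseChange ℂ) (fun l => σ (μ l))
      (σ.injective.comp hμ) _ (fun l => ⟨?_, ?_⟩)
    · rw [Module.End.mem_eigenspace_iff, ← cs_baseChange, hv, cs_smul]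
    · intro h
      exact v.ne_zero l (cs_injective (A := T.W.H X) σ (by rw [h, map_zero]))
  let w : ∀ σ : L →ₐ[T.W.K] ℂ, Basis (Fin (finrank T.W.K (T.W.H X))) ℂ (ℂ ⊗[T.W.K] T.W.H X) :=
    fun σ => basisOfLinearIndependentOfCardEqFinrank' _ (hli σ)
      (by rw [Fintype.card_fin, finrank_baseChange])
  have hw : ∀ σ l, w σ l = cs (T.W.H X) σ (v l) := by
    intro σ l
    rw [coe_basisOfLinearIndependentOfCardEqFinrank']
  have hwe : ∀ σ l, f.baseChange ℂ (w σ l) = σ (μ l) • w σ l := by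
    intro σ l
    rw [hw, ← cs_baseChange, hv, cs_smul]
  have htype : ∀ (σ : L →ₐ[T.W.K] ℂ) l, ∃ r : ℤ × ℤ,
      (show (baseW T.W ℂ).H X from w σ l) ∈ T.pq X r.1 r.2 := by
    intro σ l
    exact eig_homog (F := ℂ) (V := ℂ ⊗[T.W.K] T.W.H X) (g := f.baseChange ℂ)
      (A := fun r : ℤ × ℤ => T.pq X r.1 r.2) (T.dec.indep X)
      (pq_top T X) (fun r x hx => hpq r.1 r.2 x hx) (w σ) (μ := fun l => σ (μ l))
      (σ.injective.comp hμ) (hwe σ) l
  choose r hr using htype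
  refine ⟨⟨B, fun σ => ⟨w σ, deg, fun l => ?_⟩, fun σ l => hw σ l, fun σ l => (r σ l).1,
    fun σ l => (r σ l).2, hr⟩⟩
  exact (congrArg (· ∈ (baseW T.W ℂ).gr X (deg l)) (hw σ l)).mpr (csH_gr σ (hdeg l))

end Pool.Agent.R940
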