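import Pool.Agent.H447R3.SpDefs
import Pool.Agent.H914R2.DDefs
import Pool.Agent.Y163.Defs

/-!
# Numerical and homological equivalence on powers: definitions
-/

open CategoryTheory AlgebraicGeometry

universe u v

namespace Pool.Agent.R940

open Pool.Agent.H914 Pool.Agent.H914.VarClass Pool.Agent.H914.VarClass.Obj
  Pool.Agent.H914.WeilCohomology
open Pool.Agent.Y163 (pw sq)
open Pool.Agent.W534 (numRank)

variable {k : Type u} [Field k] {𝒱 : VarClass k} {ops : CycleOps 𝒱}

/-- The dimension of the subspace of the cohomology of `Y` spanned by the classes of the algebraic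
cycles of codimension `j`. -/
noncomputable def algRank (W : WeilCohomology.{u, v} ops) (Y : 𝒱.Obj) (j : ℕ) : ℕ :=
  Module.finrank W.K (spanCycles W Y j)

/-- The sum of the Betti numbers. -/
noncomputable def betti (W : WeilCohomology.{u, v} ops) (X : 𝒱.Obj) : ℕ :=
  Module.finrank W.K (W.H X)

/-- The numbers `h n` are at least `(m + 2) * r n`, up to the relative error
`(m + 1) * a * b ^ (2 * (m + 1) * a + 2) * log (n + 2) / n`, for all `m`. -/
def ManyTimes (b a : ℕ) (h r : ℕ → ℕ) : Prop :=
  ∀ m n : ℕ, 0 < n →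
    (m + 2) * (1 - (m + 1) * a * (b : ℝ) ^ (2 * (m + 1) * a + 2) * Real.log (n + 2) / n) * r n ≤ h n

/-- The ratio of `h n` and `r n` is at least `log (n + 2) / (32 * a * (1 + log (b + 1)))`. -/
def LogTimes (b a : ℕ) (h r : ℕ → ℕ) : Prop :=
  ∀ n : ℕ, Real.log (n + 2) / (32 * a * (1 + Real.log (b + 1))) * r n ≤ h n

end Pool.Agent.R940
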