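import Pool.Agent.R940.KBase
import Pool.Agent.R940.HFin
import Pool.Agent.H447R3.SpDefs
import Pool.Agent.Y121.AH.HR

/-!
# The effective index law for Hodge classes
-/

set_option linter.unusedVariables false
set_option linter.unusedSectionVars false

open CategoryTheory AlgebraicGeometry CategoryTheory.Limits TensorProduct

universe u v

namespace Pool.Agent.R940

open Pool.Agent.H914 Pool.Agent.H447 Pool.Agent.W534 Pool.Agent.Y163 VarClass Obj WeilCohomology
  Module
open Pool.Agent.Y121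

variable {k : Type u} [Field k] {𝒱 : VarClass k} {ops : CycleOps 𝒱}

/-- The sign conjecture in terms of the parity operator. -/
lemma par_of_sign {W : WeilCohomology.{u, v} ops} {X : 𝒱.Obj} (h : SignStd W X) :
    par (W.isInternal X) ∈ KOp W X X 0 := by
  obtain ⟨P, hP, hE⟩ := h
  have h1 : par (W.isInternal X) = (2 : W.K) • W.corr (W.cl _ P) - 1 := by
    apply LinearMap.ext
    intro x
    refine gr_induction (W.isInternal X) (p := fun x => par (W.isInternal X) x =
      ((2 : W.K) • W.corr (W.cl _ P) - 1) x) ?_ ?_ x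
    · intro i a ha
      have h2 : par (W.isInternal X) a = ((-1 : W.K) ^ i) • a := scal_apply _ _ ha
      rw [h2, LinearMap.sub_apply, LinearMap.smul_apply, hE i a ha, Module.End.one_apply]
      by_cases hi : Even i
      · rw [if_pos hi, hi.neg_one_pow, one_smul, two_smul, add_sub_cancel_right]
      · rw [if_neg hi, (Nat.not_even_iff_odd.1 hi).neg_one_pow, smul_zero, zero_sub, neg_one_smul]
    · intro a b ha hb
      rw [map_add, map_add, ha, hb]
  rw [h1]
  exact Submodule.sub_mem _ (Submodule.smul_mem _ _ (KOp.gen (p := X.dim) (by ring) hP))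
    (KAlg W X).one_mem

variable {T : AH.HodgeTheory ops} {X Y Z U : 𝒱.Obj}

/-- The Hodge classes in the middle degree of the squares of the powers are stable. -/
lemma stable_hodge : Stable T.W X
    (fun n => AH.hodgeSub T (sq X n) ((n + 1) * X.dim)) := by
  intro κ n φ hφ t ht
  induction hφ using Submodule.span_induction with
  | mem f hf =>
    obtain ⟨p, hp, z, hz, rfl⟩ := hf
    rw [corr_apply]
    have h1 : AH.IsHodge T ((sq X κ).prod (sq X n)) (p + (κ + 1) * X.dim)
        (T.W.cl _ z * T.W.map (fst (sq X κ) (sq X n)) t) :=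
      (AH.IsHodge.cl hz).mul (AH.IsHodge.map _ ht)
    refine AH.IsHodge.push (snd (sq X κ) (sq X n)) ?_ h1
    rw [dim_prod]
    have h2 : (p : ℤ) = (sq X κ).dim + ((n : ℤ) - κ) * X.dim := hp
    rw [dim_sq] at h2
    rw [dim_sq, dim_sq]
    zify
    push_cast at h2
    rw [h2]
    ring
  | zero => rw [LinearMap.zero_apply]; exact Submodule.zero_mem _
  | add x y _ _ hx hy => rw [LinearMap.add_apply]; exact Submodule.add_mem _ hx hy
  | smul c x _ hx => rw [LinearMap.smul_apply]; exact Submodule.smul_mem _ _ hx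

lemma span_le_hodge (j : ℕ) : spanCycles T.W Y j ≤ AH.hodgeSub T Y j := by
  refine Submodule.span_le.2 ?_
  rintro _ ⟨r, hr, z, hz, rfl⟩
  have : r = j := by exact_mod_cast hr
  subst this
  exact AH.IsHodge.cl hz

lemma numRank_le_hodge (n : ℕ) : numRank ops (sq X n) ((n + 1) * X.dim) ≤
    finrank T.W.K (AH.hodgeSub T (sq X n) ((n + 1) * X.dim)) := by
  rw [numRank_sq (W := T.W)]
  exact (kRank_le _ _).trans (Submodule.finrank_mono (span_le_hodge _))

/-- Equality of the ranks implies that the Hodge classes are algebraic. -/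
lemma hodge_of_eq {n : ℕ} (h : finrank T.W.K (AH.hodgeSub T (sq X n) ((n + 1) * X.dim)) ≤
    numRank ops (sq X n) ((n + 1) * X.dim)) {c : T.W.H (sq X n)}
    (hc : AH.IsHodge T (sq X n) ((n + 1) * X.dim) c) :
    c ∈ spanCycles T.W (sq X n) (((n + 1) * X.dim : ℕ) : ℤ) := by
  have h1 : spanCycles T.W (sq X n) (((n + 1) * X.dim : ℕ) : ℤ) =
      AH.hodgeSub T (sq X n) ((n + 1) * X.dim) := by
    refine Submodule.eq_of_le_of_finrank_le (span_le_hodge _) (h.trans ?_)
    rw [numRank_sq (W := T.W)]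
    exact kRank_le _ _
  rw [h1]
  exact hc

/-- The Hodge conjecture in the middle degree of `U × U` implies the Hodge conjecture for `U`. -/
lemma hodge_factor {E : U.Cycles} (hE : U.IsCyc 1 E) (hE2 : T.W.tr U (T.W.cl U E ^ U.dim) ≠ 0)
    (h : ∀ c, AH.IsHodge T (U.prod U) U.dim c → c ∈ spanCycles T.W (U.prod U) U.dim) {j : ℕ}
    (hj : j ≤ U.dim) {c : T.W.H U} (hc : AH.IsHodge T U j c) : c ∈ spanCycles T.W U j := by
  obtain ⟨l, hl⟩ := Nat.exists_eq_add_of_le hj
  have hEl : ∀ m : ℕ, AH.IsHodge T U m (T.W.cl U E ^ m) := by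
    intro m
    rw [← cl_divPow_fund]
    exact AH.IsHodge.cl (divPow_fund_mem hE m)
  -- recovering the first factor
  have hrec : T.W.corr (T.W.map (swap U U) (T.W.map (fst U U) c *
      T.W.map (snd U U) (T.W.cl U E ^ l))) (T.W.cl U E ^ j) =
      T.W.tr U (T.W.cl U E ^ U.dim) • c := by
    rw [corr_swap_tmul hc.1 (pow_mem_gr hE l), LinearMap.smulRight_apply, LinearMap.comp_apply,
      LinearMap.mulLeft_apply, ← pow_add, show l + j = U.dim by omega]
  have h2 : AH.IsHodge T (U.prod U) U.dim (T.W.map (fst U U) c *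
      T.W.map (snd U U) (T.W.cl U E ^ l)) := by
    have := (AH.IsHodge.map (fst U U) hc).mul (AH.IsHodge.map (snd U U) (hEl l))
    rwa [← hl] at this
  have h4 := h _ h2
  have h5 : T.W.corr (T.W.map (swap U U) (T.W.map (fst U U) c *
      T.W.map (snd U U) (T.W.cl U E ^ l))) ∈ KOp T.W U U 0 := by
    rw [mem_KOp_iff]
    exact ⟨_, by rw [add_zero]; exact map_span _ h4, rfl⟩
  have h6 : T.W.cl U E ^ j ∈ (spanS T.W).T U j := by
    rw [← cl_divPow_fund]
    exact mem_span_cl (divPow_fund_mem hE j)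
  have h7 := (spanS T.W).stable h5 (j' := j) (by ring) h6
  rw [hrec] at h7
  have h8 := Submodule.smul_mem _ (T.W.tr U (T.W.cl U E ^ U.dim))⁻¹ h7
  rwa [smul_smul, inv_mul_cancel₀ hE2, one_smul] at h8

lemma exists_pol (T : AH.HodgeTheory ops) (X : 𝒱.Obj) [Nontrivial (T.W.H X)] :
    ∃ E : X.Cycles, X.IsCyc 1 E ∧ T.W.tr X (T.W.cl X E ^ X.dim) ≠ 0 := by
  obtain ⟨D, hD⟩ := T.dec.polar X
  refine ⟨D, hD.1, ?_⟩
  obtain ⟨r, hr, h1⟩ := hD.2.2 0 (by omega) 1 (T.W.one_mem X) (by
      have := T.dec.cyc (X := X) (j := 0) X.V.fundCycle_mem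
      rw [T.W.cl_fund] at this
      exact this) (by
      rw [mul_one, ← cl_divPow_fund]
      have := T.W.cl_mem (divPow_fund_mem (ops := ops) hD.1 (X.dim - 2 * 0 + 1))
      rw [T.W.gr_eq_bot X _ (by omega)] at this
      exact (Submodule.mem_bot _).1 this) one_ne_zero
  intro h2
  rw [mul_one, mul_one, mul_zero, Nat.sub_zero, h2, mul_zero] at h1
  exact hr.ne' (by exact_mod_cast h1.symm)

end Pool.Agent.R940
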