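import Pool.Agent.R940.DGeo
import Pool.Agent.R940.HIdx
import Pool.Agent.R940.DDefs

/-!
# The effective law for homological and numerical equivalence
-/

set_option linter.unusedVariables false
set_option linter.unusedSectionVars false

open CategoryTheory AlgebraicGeometry CategoryTheory.Limits TensorProduct

universe u v

namespace Pool.Agent.R940

open Pool.Agent.H914 Pool.Agent.H447 Pool.Agent.W534 Pool.Agent.Y163 VarClass Obj WeilCohomology
  Module

variable {k : Type u} [Field k] {𝒱 : VarClass k} {ops : CycleOps 𝒱}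
  {W : WeilCohomology.{u, v} ops} {X Y Z U V A B : 𝒱.Obj}

/-- A numerically trivial class which is not zero gives a nonzero element of the radical. -/
lemma exists_rad (hU : par (W.isInternal U) ∈ KOp W U U 0) {E : U.Cycles} (hE : U.IsCyc 1 E)
    (hE2 : W.tr U (W.cl U E ^ U.dim) ≠ 0) (h : ¬ HomEqNum W U) :
    ∃ ν ∈ rad (KAlg W U), ν ≠ 0 := by
  unfold HomEqNum at h
  push Not at h
  obtain ⟨j, hj, z, hz, hnum, hz0⟩ := h
  obtain ⟨l, hl⟩ := Nat.exists_eq_add_of_le hj
  have horth : ∀ g ∈ spanCycles W U l, W.tr U (W.cl U z * g) = 0 := by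
    intro g hg
    induction hg using Submodule.span_induction with
    | mem x hx =>
      obtain ⟨r, hr, w, hw, rfl⟩ := hx
      obtain rfl : r = l := by exact_mod_cast hr
      rw [tr_mul_cl hz hw hl.symm, hnum w (by rwa [show U.dim - j = r by omega]), Rat.cast_zero]
    | zero => rw [mul_zero, map_zero]
    | add x y _ _ hx hy => rw [mul_add, map_add, hx, hy, add_zero]
    | smul a x _ hx => rw [mul_smul_comm, map_smul, hx, smul_zero]
  have hb : W.map (snd U U) (W.cl U E ^ l) ∈ spanCycles W (U.prod U) l :=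
    map_span _ (by rw [← cl_divPow_fund]; exact mem_span_cl (divPow_fund_mem hE l))
  have he : W.map (fst U U) (W.cl U z) * W.map (snd U U) (W.cl U E ^ l) ∈
      spanCycles W (U.prod U) U.dim := by
    have := (spanS W).cl_mul (ops.pull_mem (fst U U) hz) hb
    rw [W.cl_pull, ← hl] at this
    exact this
  refine ⟨_, mem_rad_of_num hU he fun w hw => ?_, fun h0 => hz0 ?_⟩
  · rw [mul_assoc, W.even_comm (W.map_mem _ (W.cl_mem hz)), ← W.tr_push,
      ← W.even_comm (W.cl_mem hz)]
    apply horth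
    have h2 := (spanS W).cl_mul (ops.pull_mem (snd U U) (divPow_fund_mem (ops := ops) hE l)) hw
    rw [W.cl_pull, cl_divPow_fund] at h2
    exact (spanS W).push (fst U U) h2 (by rw [dim_prod]; omega)
  · have h3 := corr_inj h0
    have h2 : W.corr (W.map (swap U U) (W.map (fst U U) (W.cl U z) *
        W.map (snd U U) (W.cl U E ^ l))) (W.cl U E ^ j) =
        W.tr U (W.cl U E ^ U.dim) • W.cl U z := by
      rw [corr_swap_tmul (W.cl_mem hz) (pow_mem_gr hE l), LinearMap.smulRight_apply,
        LinearMap.comp_apply, LinearMap.mulLeft_apply, ← pow_add, show l + j = U.dim by omega]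
    rw [h3, map_zero, corr_zero, LinearMap.zero_apply] at h2
    exact (smul_eq_zero.1 h2.symm).resolve_left hE2

/-- The extension of the coefficients. -/
lemma homEqNum_base (L : Type v) [Field L] [Algebra W.K L] (h : HomEqNum (baseW W L) U) :
    HomEqNum W U := by
  intro j hj z hz hnum
  have h1 := h j hj z hz hnum
  have h2 : (1 : L) ⊗ₜ[W.K] W.cl U z = 0 := h1
  have h3 : Function.Injective (TensorProduct.mk W.K L (W.H U) 1) :=
    Module.Flat.tensorProduct_mk_injective _ _ _
  exact h3 (by rw [TensorProduct.mk_apply, h2, map_zero])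

/-- The span of the algebraic classes after an extension of the coefficients. -/
noncomputable def spanL (W : WeilCohomology.{u, v} ops) (U : 𝒱.Obj) (L : Type v) [Field L]
    [Algebra W.K L] (q : ℤ) : Submodule L (L ⊗[W.K] W.H U) :=
  spanCycles (baseW W L) U q

lemma spanL_eq (L : Type v) [Field L] [Algebra W.K L] (q : ℤ) :
    spanL W U L q = (spanCycles W U q).baseChange L := by
  have h0 : spanL W U L q = Submodule.span L {c : L ⊗[W.K] W.H U | ∃ p : ℕ, (p : ℤ) = q ∧
    ∃ z, U.IsCyc p z ∧ (1 : L) ⊗ₜ[W.K] W.cl U z = c} := rfl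
  rw [h0]
  apply le_antisymm
  · rw [Submodule.span_le]
    rintro _ ⟨p, hp, z, hz, rfl⟩
    exact Submodule.tmul_mem_baseChange_of_mem (1 : L)
      (Submodule.subset_span ⟨p, hp, z, hz, rfl⟩ : W.cl U z ∈ spanCycles W U q)
  · rw [spanCycles, Submodule.baseChange_span, Submodule.span_le]
    rintro _ ⟨_, ⟨p, hp, z, hz, rfl⟩, rfl⟩
    exact Submodule.subset_span ⟨p, hp, z, hz, rfl⟩

lemma algRank_baseW (L : Type v) [Field L] [Algebra W.K L] (j : ℕ) :
    algRank (baseW W L) U j = algRank W U j := by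
  have h1 : finrank L (spanL W U L (j : ℤ)) = finrank W.K (spanCycles W U (j : ℤ)) := by
    rw [spanL_eq, finrank_base]
  exact h1

/-- An elementary estimate. -/
lemma err_le {b a t n : ℝ} {x L : ℝ} (hb : 1 ≤ b) (ha : 1 ≤ a) (ht : 0 ≤ t) (hn : 1 ≤ n)
    (hx0 : 0 < x) (hx8 : x ^ 8 = n + 2) (hL0 : 0 < L) (hlog : L ≤ 8 * x)
    (hb2 : 256 * b ^ 2 ≤ x ^ 2) (hta2 : t * a ≤ L) {P : ℝ} (hP0 : 0 ≤ P) (hP : P ≤ x ^ 4) :
    t * a * (P * b ^ 2) * L / n ≤ 3 / 4 := by
  have hnpos : 0 < n := by linarith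
  rw [div_le_iff₀ hnpos]
  have h1 : P * b ^ 2 ≤ x ^ 4 * (x ^ 2 / 256) :=
    mul_le_mul hP (by linarith) (by positivity) (by positivity)
  have h2 : t * a * (P * b ^ 2) ≤ 8 * x * (x ^ 4 * (x ^ 2 / 256)) :=
    mul_le_mul (hta2.trans hlog) h1 (by positivity) (by positivity)
  have h3 : t * a * (P * b ^ 2) * L ≤ 8 * x * (x ^ 4 * (x ^ 2 / 256)) * (8 * x) :=
    mul_le_mul h2 hlog hL0.le (by positivity)
  have h4 : 8 * x * (x ^ 4 * (x ^ 2 / 256)) * (8 * x) = x ^ 8 / 4 := by ring
  rw [h4, hx8] at h3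
  linarith

/-- The estimate of the square of `b`. -/
lemma b_le {b a y : ℝ} (hb : 1 ≤ b) (ha : 1 ≤ a) (hy : 0 < y)
    (h : 32 * a * (1 + Real.log (b + 1)) < Real.log y) : (256 * b ^ 2) ^ 4 ≤ y := by
  have hlb0 : 0 ≤ Real.log (b + 1) := Real.log_nonneg (by linarith)
  rw [← Real.log_le_log_iff (by positivity) hy, Real.log_pow,
    Real.log_mul (by norm_num) (by positivity), Real.log_pow]
  have e1 : Real.log 256 = 8 * Real.log 2 := by
    rw [show (256 : ℝ) = 2 ^ 8 by norm_num, Real.log_pow]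
    norm_num
  have e2 : Real.log b ≤ Real.log (b + 1) := Real.log_le_log (by linarith) (by linarith)
  have e3 := Real.log_two_lt_d9
  have e4 : 32 * (1 + Real.log (b + 1)) ≤ 32 * a * (1 + Real.log (b + 1)) := by nlinarith
  rw [e1]
  push_cast
  linarith

/-- The estimate of the power. -/
lemma pow_le_x {b y x : ℝ} {N : ℕ} (hb : 1 ≤ b) (hy : 0 < y) (hx0 : 0 < x) (hx8 : x ^ 8 = y)
    (h : N * Real.log (b + 1) ≤ Real.log y / 2) : b ^ N ≤ x ^ 4 := by
  have e1 : b ^ N ≤ (b + 1) ^ N := pow_le_pow_left₀ (by linarith) (by linarith) _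
  refine e1.trans ?_
  rw [← Real.log_le_log_iff (by positivity) (by positivity), Real.log_pow, Real.log_pow]
  have h1 : Real.log y = 8 * Real.log x := by rw [← hx8, Real.log_pow]; norm_num
  rw [h1] at h
  push_cast
  linarith

/-- The logarithmic growth. -/
lemma log_of_many {b a : ℕ} (hb : 0 < b) (ha : 0 < a) {h r : ℕ → ℕ} (hr : ∀ n, r n ≤ h n)
    (H : ManyTimes b a h r) : LogTimes b a h r := by
  intro n
  have hrn : (r n : ℝ) ≤ h n := by exact_mod_cast hr n
  have hr0 : (0 : ℝ) ≤ r n := Nat.cast_nonneg _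
  have hb1 : (1 : ℝ) ≤ b := by exact_mod_cast hb
  have ha1 : (1 : ℝ) ≤ a := by exact_mod_cast ha
  have hlb : Real.log 2 ≤ Real.log (b + 1) := Real.log_le_log (by norm_num) (by linarith)
  have hl2 : (0.69 : ℝ) < Real.log 2 := lt_trans (by norm_num) Real.log_two_gt_d9
  have hlb0 : 0 < Real.log (b + 1) := by linarith
  have hn2 : (0 : ℝ) < n + 2 := by positivity
  have hL0 : 0 < Real.log (n + 2) := Real.log_pos (by
    have : (0 : ℝ) ≤ n := Nat.cast_nonneg _
    linarith)
  have hden : 0 < 32 * (a : ℝ) * (1 + Real.log (b + 1)) := by positivity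
  -- small values of `n`
  by_cases hsmall : Real.log (n + 2) ≤ 32 * a * (1 + Real.log (b + 1))
  · refine le_trans ?_ hrn
    have : Real.log (n + 2) / (32 * a * (1 + Real.log (b + 1))) ≤ 1 := (div_le_one hden).2 hsmall
    exact mul_le_of_le_one_left hr0 this
  push Not at hsmall
  -- the choice of `m`
  have h4 : 0 < 4 * (a : ℝ) * Real.log (b + 1) := by positivity
  have hab : (a : ℝ) * Real.log (b + 1) ≤ a * (1 + Real.log (b + 1)) :=
    mul_le_mul_of_nonneg_left (by linarith) (by linarith)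
  have hab1 : (1 : ℝ) ≤ a * (1 + Real.log (b + 1)) := by nlinarith
  obtain ⟨t, ht⟩ : ∃ t, t = ⌊Real.log (n + 2) / (4 * a * Real.log (b + 1))⌋₊ := ⟨_, rfl⟩
  have ht1 : 1 ≤ t := by
    rw [ht]
    apply Nat.le_floor
    rw [Nat.cast_one, le_div_iff₀ h4]
    linarith
  have htle : (t : ℝ) ≤ Real.log (n + 2) / (4 * a * Real.log (b + 1)) := by
    rw [ht]
    exact Nat.floor_le (by positivity)
  have htlt : Real.log (n + 2) / (4 * a * Real.log (b + 1)) < t + 1 := by
    rw [ht]
    exact Nat.lt_floor_add_one _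
  obtain ⟨m, hm⟩ := Nat.exists_eq_add_of_le' ht1
  have hn0 : 0 < n := by
    apply Nat.pos_of_ne_zero
    rintro rfl
    rw [Nat.cast_zero, zero_add] at hsmall
    have h6 := Real.log_two_lt_d9
    linarith
  have hn1 : (1 : ℝ) ≤ n := by exact_mod_cast hn0
  have h5 := H m n hn0
  have htm : ((m : ℝ) + 1) = t := by rw [hm]; push_cast; ring
  rw [show (m : ℝ) + 2 = t + 1 by rw [← htm]; ring, htm] at h5
  have hexp : 2 * (m + 1) * a + 2 = 2 * (t * a) + 2 := by rw [hm]; ring
  rw [hexp, pow_add] at h5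
  -- the error term
  have hta : (t : ℝ) * a * Real.log (b + 1) ≤ Real.log (n + 2) / 4 := by
    have := mul_le_mul_of_nonneg_right htle h4.le
    rw [div_mul_cancel₀ _ h4.ne'] at this
    linarith
  have hta0 : (0 : ℝ) ≤ (t : ℝ) * a := by positivity
  have hta2 : (t : ℝ) * a ≤ Real.log (n + 2) := by
    have : (t : ℝ) * a * 0.69 ≤ (t : ℝ) * a * Real.log (b + 1) :=
      mul_le_mul_of_nonneg_left (by linarith) hta0
    linarith
  have hlog : Real.log (n + 2) ≤ 8 * (n + 2 : ℝ) ^ ((1 : ℝ) / 8) := by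
    have := Real.log_le_rpow_div hn2.le (show (0 : ℝ) < 1 / 8 by norm_num)
    linarith
  have hx0 : 0 < (n + 2 : ℝ) ^ ((1 : ℝ) / 8) := by positivity
  have hx8 : ((n + 2 : ℝ) ^ ((1 : ℝ) / 8)) ^ 8 = n + 2 := by
    rw [← Real.rpow_natCast, ← Real.rpow_mul hn2.le]
    norm_num
  have hbig := b_le hb1 ha1 hn2 hsmall
  have hb2 : 256 * (b : ℝ) ^ 2 ≤ ((n + 2 : ℝ) ^ ((1 : ℝ) / 8)) ^ 2 := by
    refine le_of_pow_le_pow_left₀ (n := 4) (by norm_num) (by positivity) ?_
    rw [← pow_mul ((n + 2 : ℝ) ^ ((1 : ℝ) / 8)), show 2 * 4 = 8 by norm_num, hx8]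
    exact hbig
  have hP := pow_le_x (N := 2 * (t * a)) hb1 hn2 hx0 hx8 (by push_cast; linarith)
  have herr := err_le hb1 ha1 (Nat.cast_nonneg t) hn1 hx0 hx8 hL0 hlog hb2 hta2
    (P := (b : ℝ) ^ (2 * (t * a))) (by positivity) hP
  refine le_trans ?_ h5
  apply mul_le_mul_of_nonneg_right _ hr0
  have h7 : Real.log (n + 2) / (32 * a * (1 + Real.log (b + 1))) ≤ (t + 1) * (1 / 4) := by
    have e1 : Real.log (n + 2) / (32 * a * (1 + Real.log (b + 1))) ≤
        Real.log (n + 2) / (16 * a * Real.log (b + 1)) := by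
      apply div_le_div_of_nonneg_left hL0.le (by positivity)
      nlinarith
    have e2 : Real.log (n + 2) / (16 * a * Real.log (b + 1)) =
        Real.log (n + 2) / (4 * a * Real.log (b + 1)) * (1 / 4) := by
      rw [div_mul_div_comm, mul_one]
      congr 1
      ring
    rw [e2] at e1
    refine e1.trans ?_
    exact mul_le_mul_of_nonneg_right htlt.le (by norm_num)
  refine h7.trans ?_
  exact mul_le_mul_of_nonneg_left (by linarith) (by positivity)

/-- **The effective law.** -/
theorem d_law (hX : SignStd W X) {D : X.Cycles} (hD : X.IsCyc 1 D) (hbig : Big ops X D) :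
    (∀ n, 0 < numRank ops (sq X n) ((n + 1) * X.dim) ∧
      numRank ops (sq X n) ((n + 1) * X.dim) ≤ algRank W (sq X n) ((n + 1) * X.dim) ∧
      algRank W (sq X n) ((n + 1) * X.dim) ≤
        (n + 2) ^ (betti W X ^ 2) * numRank ops (sq X n) ((n + 1) * X.dim)) ∧
    ∀ κ, HomEqNum W (pw X κ) ∨
      (ManyTimes (betti W X) (κ + 1) (fun n => algRank W (sq X n) ((n + 1) * X.dim))
        (fun n => numRank ops (sq X n) ((n + 1) * X.dim)) ∧
      LogTimes (betti W X) (κ + 1) (fun n => algRank W (sq X n) ((n + 1) * X.dim))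
        (fun n => numRank ops (sq X n) ((n + 1) * X.dim))) := by
  have hpar := par_of_sign hX
  have htr : W.tr X (W.cl X D ^ X.dim) ≠ 0 := hbig.tr hD
  have hH : 0 < finrank W.K (W.H X) := by
    have : Nontrivial (W.H X) := by
      by_contra hcon
      rw [not_nontrivial_iff_subsingleton] at hcon
      apply htr
      rw [Subsingleton.elim (W.cl X D ^ X.dim) 0, map_zero]
    exact finrank_pos
  have hle : ∀ n, numRank ops (sq X n) ((n + 1) * X.dim) ≤
      algRank W (sq X n) ((n + 1) * X.dim) := by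
    intro n
    rw [numRank_sq (W := W)]
    exact kRank_le _ _
  refine ⟨fun n => ?_, fun κ => ?_⟩
  · have h1 := growth_any hpar n
    have h2 : algRank W (sq X n) ((n + 1) * X.dim) ≤ (betti W X ^ 2) ^ (n + 1) := by
      refine (Submodule.finrank_le _).trans (le_of_eq ?_)
      have e := kappa W (pw X n) (pw X n)
      rw [Y163.sq, ← e.finrank_eq, Module.finrank_tensorProduct, finrank_pw, betti]
      ring
    refine ⟨?_, hle n, ?_⟩
    · apply Nat.pos_of_ne_zero
      intro h0
      rw [h0, zero_mul] at h1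
      have h2 : 0 < (finrank W.K (W.H X) ^ 2) ^ (n + 1) := by positivity
      omega
    · refine h2.trans ?_
      rw [mul_comm]
      exact h1
  · by_cases hD' : HomEqNum W (pw X κ)
    · exact Or.inl hD'
    right
    set L := AlgebraicClosure W.K with hL
    have hcl : IsAlgClosed (baseW W L).K := inferInstanceAs (IsAlgClosed (AlgebraicClosure W.K))
    have hpar' := par_mem_base (W := W) (X := X) L hpar
    have htr' : (baseW W L).tr X ((baseW W L).cl X D ^ X.dim) ≠ 0 := hbig.tr hD
    obtain ⟨E, hE, hE2⟩ := exists_big hD htr' κ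
    obtain ⟨ν, hν, hν0⟩ := exists_rad (W := baseW W L) (par_pw_mem hpar' κ) hE hE2
      (fun h => hD' (homEqNum_base L h))
    have hmany : ManyTimes (betti W X) (κ + 1)
        (fun n => algRank W (sq X n) ((n + 1) * X.dim))
        (fun n => numRank ops (sq X n) ((n + 1) * X.dim)) := by
      intro m n hn
      have h1 := d_eff (W := baseW W L) hpar' (by rw [finrank_baseW]; exact hH) hν hν0 m hn
      rw [← numRank_sq (W := baseW W L), finrank_baseW] at h1
      have h2 : finrank (baseW W L).K (algT (baseW W L) X n) =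
          algRank W (sq X n) ((n + 1) * X.dim) := algRank_baseW L _
      rw [h2] at h1
      refine le_trans (le_of_eq ?_) h1
      rw [betti]
      push_cast
      rw [show 2 * (m + 1) * (κ + 1) + 2 = 2 * ((m + 1) * (κ + 1)) + 2 by ring]
    exact ⟨hmany, log_of_many hH (Nat.succ_pos κ) hle hmany⟩

end Pool.Agent.R940
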