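import Pool.Agent.R940.Pig

/-!
# Decomposition of long solutions of linear inequalities with bounded coefficients
-/

namespace Pool.Agent.R940

open Finset

section

variable {ι : Type*} [Fintype ι] (c : ι → ℕ)

lemma part_bound' {N : ℕ} (hN : 0 < N) (a : ι → ℤ) {B R : ℕ} (hB : ∀ l, |a l| ≤ B)
    (ha : |∑ l, a l * c l| ≤ R) {t : ℕ} (ht : t ≤ N) :
    |∑ l, a l * (part c N t l : ℤ)| ≤ Fintype.card ι * B + R := by
  have h1 : (N : ℤ) * ∑ l, a l * (part c N t l : ℤ) =
      t * ∑ l, a l * c l - ∑ l, a l * ((t * c l % N : ℕ) : ℤ) := by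
    have h2 : ∀ l, (N : ℤ) * (a l * (part c N t l : ℤ)) =
        t * (a l * c l) - a l * ((t * c l % N : ℕ) : ℤ) := by
      intro l
      have h3 : (N : ℤ) * (part c N t l : ℤ) + ((t * c l % N : ℕ) : ℤ) = t * c l := by
        exact_mod_cast part_eq c N t l
      linear_combination (a l) * h3
    rw [Finset.mul_sum, Finset.sum_congr rfl fun l _ => h2 l, Finset.sum_sub_distrib,
      ← Finset.mul_sum]
  have h2 : |∑ l, a l * ((t * c l % N : ℕ) : ℤ)| ≤ N * (Fintype.card ι * B) := by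
    calc |∑ l, a l * ((t * c l % N : ℕ) : ℤ)| ≤ ∑ l, |a l * ((t * c l % N : ℕ) : ℤ)| :=
          Finset.abs_sum_le_sum_abs _ _
      _ ≤ ∑ _l : ι, (B : ℤ) * N := by
          apply Finset.sum_le_sum
          intro l _
          rw [abs_mul, Nat.abs_cast]
          have h3 : ((t * c l % N : ℕ) : ℤ) ≤ N := by
            exact_mod_cast (Nat.mod_lt _ hN).le
          exact mul_le_mul (hB l) h3 (Int.natCast_nonneg _) (Int.natCast_nonneg _)
      _ = N * (Fintype.card ι * B) := by
          rw [Finset.sum_const, Finset.card_univ, nsmul_eq_mul]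
          ring
  have h4 : |(t : ℤ) * ∑ l, a l * c l| ≤ N * R := by
    rw [abs_mul, Nat.abs_cast]
    exact mul_le_mul (by exact_mod_cast ht) ha (abs_nonneg _) (Int.natCast_nonneg _)
  have h3 : (N : ℤ) * |∑ l, a l * (part c N t l : ℤ)| ≤ N * (Fintype.card ι * B + R) := by
    rw [← Nat.abs_cast N, ← abs_mul, h1, Nat.abs_cast]
    refine (abs_sub _ _).trans ?_
    rw [mul_add]
    linarith
  exact le_of_mul_le_mul_left h3 (by exact_mod_cast hN)

end

/-- **Decomposition of long approximate solutions.** -/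
theorem exists_sub' {ι : Type*} [Fintype ι] {r : ℕ} (a : Fin r → ι → ℤ) {b B R : ℕ}
    (hb : Fintype.card ι ≤ b) (hB : ∀ k l, |a k l| ≤ B) (c : ι → ℕ)
    (ha : ∀ k, |∑ l, a k l * c l| ≤ R)
    (hN : b * (2 * (b * B + R) + 1) ^ r < ∑ l, c l) :
    ∃ m : ι → ℕ, (∀ l, m l ≤ c l) ∧ 0 < ∑ l, m l ∧ ∑ l, m l < ∑ l, c l ∧
      (∀ k, ∑ l, a k l * (m l : ℤ) = 0) := by
  set N := ∑ l, c l with hNdef
  have hN0 : 0 < N := by omega
  have hb0 : 0 < Fintype.card ι := by
    rw [Fintype.card_pos_iff]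
    by_contra h
    rw [not_nonempty_iff] at h
    rw [hNdef, Finset.univ_eq_empty, Finset.sum_empty] at hN0
    omega
  set J := (2 * (b * B + R) + 1) ^ r with hJ
  have hJN : J * b < N := by rw [mul_comm]; exact hN
  let f : ℕ → Fin r → ℤ := fun t k => ∑ l, a k l * (part c N t l : ℤ)
  have hf : ∀ t ≤ N, ∀ k, |f t k| ≤ ((b * B + R : ℕ) : ℤ) := by
    intro t ht k
    refine (part_bound' c hN0 (a k) (hB k) (ha k) ht).trans ?_
    push_cast
    have : (Fintype.card ι : ℤ) ≤ b := by exact_mod_cast hb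
    have h2 : (0 : ℤ) ≤ B := Int.natCast_nonneg _
    nlinarith
  have hjN : ∀ j : Fin (J + 1), (j : ℕ) * b < N := fun j =>
    lt_of_le_of_lt (Nat.mul_le_mul_right _ (Nat.lt_succ_iff.1 j.2)) hJN
  let g : Fin (J + 1) → (Fin r → Fin (2 * (b * B + R) + 1)) := fun j =>
    fun k => ⟨(f (j * b) k + ((b * B + R : ℕ) : ℤ)).toNat, by
      have h1 := abs_le.1 (hf (j * b) (hjN j).le k)
      rw [Int.toNat_lt (by linarith [h1.1])]
      have h2 := h1.2
      push_cast at h2 ⊢
      linarith⟩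
  have hcard : Fintype.card (Fin r → Fin (2 * (b * B + R) + 1)) <
      Fintype.card (Fin (J + 1)) := by
    rw [Fintype.card_fun, Fintype.card_fin, Fintype.card_fin, Fintype.card_fin]
    omega
  obtain ⟨i, j, hne, hij⟩ := Fintype.exists_ne_map_eq_of_card_lt g hcard
  wlog hlt : i < j generalizing i j
  · exact this j i hne.symm hij.symm (lt_of_le_of_ne (not_lt.1 hlt) hne.symm)
  have hfk : ∀ k, f (i * b) k = f (j * b) k := by
    intro k
    have h1 := congrArg (fun x : (Fin r → Fin (2 * (b * B + R) + 1)) => (x k).val) hij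
    simp only [g] at h1
    have h2 := abs_le.1 (hf (i * b) (hjN i).le k)
    have h3 := abs_le.1 (hf (j * b) (hjN j).le k)
    have h4 : f (i * b) k + ((b * B + R : ℕ) : ℤ) = f (j * b) k + ((b * B + R : ℕ) : ℤ) := by
      rw [← Int.toNat_of_nonneg (show 0 ≤ f (i * b) k + ((b * B + R : ℕ) : ℤ) by linarith [h2.1]),
        ← Int.toNat_of_nonneg (show 0 ≤ f (j * b) k + ((b * B + R : ℕ) : ℤ) by linarith [h3.1]), h1]
    linarith
  have hmono : ∀ l, part c N (i * b) l ≤ part c N (j * b) l := fun l =>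
    part_mono c (Nat.mul_le_mul_right _ hlt.le) l
  refine ⟨fun l => part c N (j * b) l - part c N (i * b) l, ?_, ?_, ?_, ?_⟩
  · intro l
    exact (Nat.sub_le _ _).trans (part_le c (hjN j).le l)
  · have h1 : ∑ l, part c N (i * b) l ≤ i * b := part_sum_le c hNdef.symm hN0 _
    have h2 := part_sum_ge c hNdef.symm hN0 (j * b)
    have h3 : (i : ℕ) * b + b ≤ j * b := by
      have h4 : (i : ℕ) + 1 ≤ j := hlt
      calc (i : ℕ) * b + b = (i + 1) * b := by ring
        _ ≤ j * b := Nat.mul_le_mul_right _ h4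
    rw [Finset.sum_tsub_distrib _ fun l _ => hmono l]
    omega
  · have h2 : ∑ l, part c N (j * b) l ≤ j * b := part_sum_le c hNdef.symm hN0 _
    calc ∑ l, (part c N (j * b) l - part c N (i * b) l) ≤ ∑ l, part c N (j * b) l :=
          Finset.sum_le_sum fun l _ => Nat.sub_le _ _
      _ ≤ j * b := h2
      _ < N := hjN j
  · intro k
    have h1 := hfk k
    simp only [f] at h1
    have h2 : ∀ l, a k l * ((part c N (j * b) l - part c N (i * b) l : ℕ) : ℤ) =
        a k l * (part c N (j * b) l : ℤ) - a k l * (part c N (i * b) l : ℤ) := by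
      intro l
      rw [Nat.cast_sub (hmono l)]
      ring
    rw [Finset.sum_congr rfl fun l _ => h2 l, Finset.sum_sub_distrib, h1, sub_self]

/-- The same for finitely many equations, in terms of the dimension of the space of the equations. -/
theorem exists_sub_fam {ι κ : Type*} [Fintype ι] (a : κ → ι → ℤ) {b B R : ℕ}
    (hb : Fintype.card ι ≤ b) (hB : ∀ k l, |a k l| ≤ B) (c : ι → ℕ)
    (ha : ∀ k, |∑ l, a k l * c l| ≤ R)
    (hN : b * (2 * (b * B + R) + 1) ^ b < ∑ l, c l) :
    ∃ m : ι → ℕ, (∀ l, m l ≤ c l) ∧ 0 < ∑ l, m l ∧ ∑ l, m l < ∑ l, c l ∧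
      (∀ k, ∑ l, a k l * (m l : ℤ) = 0) := by
  classical
  let rq : κ → ι → ℚ := fun k l => (a k l : ℚ)
  obtain ⟨f, hf1, hf2, -⟩ := Submodule.exists_fun_fin_finrank_span_eq ℚ (Set.range rq)
  have hrb : Module.finrank ℚ (Submodule.span ℚ (Set.range rq)) ≤ b := by
    refine le_trans ?_ hb
    rw [← Module.finrank_fintype_fun_eq_card (R := ℚ) (η := ι)]
    exact Submodule.finrank_le _
  choose g hg using hf1
  obtain ⟨m, hm1, hm2, hm3, hm4⟩ := exists_sub' (fun k => a (g k)) hb
    (fun k l => hB (g k) l) c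
    (fun k => ha (g k)) (lt_of_le_of_lt (Nat.mul_le_mul_left _
      (Nat.pow_le_pow_right (Nat.succ_pos _) hrb)) hN)
  refine ⟨m, hm1, hm2, hm3, fun k => ?_⟩
  have h1 : rq k ∈ Submodule.span ℚ (Set.range f) := by
    rw [hf2]; exact Submodule.subset_span ⟨k, rfl⟩
  have h2 : ∀ v ∈ Submodule.span ℚ (Set.range f), ∑ l, v l * (m l : ℚ) = 0 := by
    intro v hv
    induction hv using Submodule.span_induction with
    | mem v hv =>
      obtain ⟨k, rfl⟩ := hv
      rw [← hg k]
      have := hm4 k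
      simp only [rq]
      exact_mod_cast this
    | zero => simp
    | add u v _ _ hu hv =>
      simp only [Pi.add_apply, add_mul, Finset.sum_add_distrib, hu, hv, add_zero]
    | smul t v _ hv =>
      simp only [Pi.smul_apply, smul_eq_mul, mul_assoc]
      rw [← Finset.mul_sum, hv, mul_zero]
  have h3 := h2 _ h1
  simp only [rq] at h3
  exact_mod_cast h3

end Pool.Agent.R940
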