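import Pool.Agent.R940.Main
import Pool.Agent.R940.GDefs

/-!
# Bounded generation of the Tate classes
-/

set_option linter.unusedVariables false
set_option linter.unusedSectionVars false

open CategoryTheory AlgebraicGeometry CategoryTheory.Limits

universe u v

namespace Pool.Agent.R940

open Pool.Agent.H914 Pool.Agent.H447 Pool.Agent.W534 Pool.Agent.Y163 VarClass Obj WeilCohomology
  Module Polynomial

variable {k : Type u} [Field k] {𝒱 : VarClass k} {ops : CycleOps 𝒱}
  {W : WeilCohomology.{u, v} ops} {X Y Z U S : 𝒱.Obj} {p : ℕ} [hp : Fact p.Prime]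
  {Φ : FrobSystem W p} {σ : W.K →+* ℂ}

variable {ι : Type v} [Fintype ι] [DecidableEq ι] {B : HBasis W X ι} {lam : ι → W.K}

lemma coord_eq (X : 𝒱.Obj) : ∀ (n : ℕ) (i : Fin (n + 1)), coord X n i = pr X n i
  | 0, _ => rfl
  | n + 1, i => by
    refine Fin.cases rfl (fun j => ?_) i
    change snd X (pw X n) ≫ coord X n j = snd X (pw X n) ≫ pr X n j
    rw [coord_eq X n j]

lemma tuple_eq {X Z : 𝒱.Obj} : ∀ (n : ℕ) (f : Fin (n + 1) → (Z ⟶ X)), tuple n f = tup n f
  | 0, _ => rfl
  | n + 1, f => by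
    change Obj.lift (f 0) (tuple n (fun j => f j.succ)) = Obj.lift (f 0) (tup n (fun j => f j.succ))
    rw [tuple_eq n]

lemma proj_eq {m n : ℕ} (e : Fin (m + 1) → Fin (n + 1)) :
    proj X e = tup m (fun i => pr X n (e i)) := by
  rw [proj, tuple_eq]
  congr 1
  funext i
  exact coord_eq X n (e i)

lemma proj_comp {m a n : ℕ} (e : Fin (a + 1) → Fin (n + 1)) (e' : Fin (m + 1) → Fin (a + 1)) :
    proj X e ≫ proj X e' = proj X (e ∘ e') := by
  apply pw_hom_ext
  intro i
  rw [Category.assoc, proj_eq, proj_eq, proj_eq, tup_pr, tup_pr, tup_pr]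
  rfl

/-- The algebra generated by the classes which are pulled back from small powers. -/
noncomputable def GAlg (Φ : FrobSystem W p) (X : 𝒱.Obj) (N n : ℕ) :
    Subalgebra W.K (W.H (pw X n)) :=
  Algebra.adjoin W.K {c | IsPulled Φ X N n c}

lemma GAlg.map {N a n : ℕ} {e : Fin (a + 1) → Fin (n + 1)} (he : Function.Injective e)
    {x : W.H (pw X a)} (hx : x ∈ GAlg Φ X N a) : W.map (proj X e) x ∈ GAlg Φ X N n := by
  have h1 : (GAlg Φ X N a).map (W.map (proj X e)) ≤ GAlg Φ X N n := by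
    rw [GAlg, AlgHom.map_adjoin, Algebra.adjoin_le_iff]
    rintro _ ⟨c, ⟨m, e', s, j, t, hm, he', hs, ht, rfl⟩, rfl⟩
    apply Algebra.subset_adjoin
    refine ⟨m, e ∘ e', s, j, t, hm, he.comp he', hs, ht, ?_⟩
    rw [← W.map_comp, proj_comp]
  exact h1 ⟨x, hx, rfl⟩

/-- **Bounded generation.** -/
theorem generated (hB : IsEig Φ B lam) {D : ℕ} (hD : 0 < D)
    (hF : IsWeilFamily p (Φ.e X) D lam B.deg) {b M : ℕ} (hb : Fintype.card ι ≤ b)
    (hM : ∀ l, D * B.deg l ≤ M) {n s j : ℕ} (hs : 0 < s) {c : W.H (pw X n)}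
    (hc : c ∈ genTate Φ (pw X n) s j) :
    c ∈ GAlg Φ X (2 * b * (2 * b * M + 1) ^ b) n := by
  set N := 2 * b * (2 * b * M + 1) ^ b with hN
  have key : ∀ (n : ℕ) (I : Fin (n + 1) → ι), IsT (p ^ Φ.e X) lam B.deg (cnt I) →
      mon B n I ∈ GAlg Φ X N n := by
    intro n
    induction n using Nat.strong_induction_on with
    | _ n ih =>
      intro I hI
      rcases Nat.lt_or_ge N (n + 1) with hlt | hge
      · obtain ⟨m, hm1, hm2, hm3, hm4, hm5⟩ := exists_subT (Φ.e_pos X) hD hF hb hM hI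
          (by rw [sum_cnt_one]; exact hlt)
        obtain ⟨a, a', e, e', hperm, h1, h2⟩ := exists_subword I m hm1
        have ha : ∑ l, m l = a := by rw [← h1, sum_cnt_one]
        have ha' : ∑ l, (cnt I - m) l = a' := by rw [← h2, sum_cnt_one]
        have hlen : a + a' = n + 1 := by
          have := hperm.length_eq
          simpa using this
        rw [sum_cnt_one] at hm3
        obtain ⟨a, rfl⟩ : ∃ r, a = r + 1 := ⟨a - 1, by omega⟩
        obtain ⟨a', rfl⟩ : ∃ r, a' = r + 1 := ⟨a' - 1, by omega⟩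
        have hnd : (List.ofFn e ++ List.ofFn e').Nodup := hperm.nodup_iff.2 (List.nodup_finRange _)
        have hnd2 := List.nodup_append'.1 hnd
        obtain ⟨ε, hε⟩ := mon_split B I e e' hperm
        rw [← h1] at hm4
        rw [← h2] at hm5
        rw [hε, ← proj_eq, ← proj_eq]
        exact Subalgebra.smul_mem _ (Subalgebra.mul_mem _
          (GAlg.map (List.nodup_ofFn.1 hnd2.1) (ih a (by omega) (I ∘ e) hm4))
          (GAlg.map (List.nodup_ofFn.1 hnd2.2.1) (ih a' (by omega) (I ∘ e') hm5))) _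
      · obtain ⟨J, hJ⟩ := hI.1
        have hJ' : ∑ j, B.deg (I j) = 2 * J := by rw [sum_cnt_nat, hJ]; ring
        obtain ⟨s, hs, h1⟩ := mon_genTate Φ hB hI hJ'
        apply Algebra.subset_adjoin
        refine ⟨n, id, s, J, _, hge, Function.injective_id, hs, h1, ?_⟩
        have hid : proj X (id : Fin (n + 1) → Fin (n + 1)) = 𝟙 _ := by
          apply pw_hom_ext
          intro i
          rw [proj_eq, tup_pr, Category.id_comp]
          rfl
        rw [hid, W.map_id]
  obtain ⟨bs, hbs⟩ := exists_monBasis B n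
  rw [← bs.sum_repr c]
  refine Subalgebra.sum_mem _ fun I _ => ?_
  by_cases h0 : bs.repr c I = 0
  · rw [h0, zero_smul]; exact Subalgebra.zero_mem _
  · obtain ⟨h1, h2⟩ := isT_of_repr Φ hB hbs hs hc h0
    rw [hbs]
    exact Subalgebra.smul_mem _ (key n I h2) _

/-- **Bounded generation of the Tate classes on the powers, with explicit bound.** -/
theorem bounded_generation [IsAlgClosed W.K] (hRH : ∀ Z, RiemannHyp Φ σ Z)
    (hint : HasIntegralPolys Φ σ X) {E : X.Cycles} (hE : X.IsCyc 1 E) (hbig : Big ops X E) :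
    IsSlopeDenominator Φ σ X (Φ.e X * (finrank W.K (W.H X)).factorial) ∧
    ∀ D, IsSlopeDenominator Φ σ X D →
      (∀ n s j, 0 < s → ∀ c ∈ genTate Φ (pw X n) s j, c ∈ Algebra.adjoin W.K
        {c | IsPulled Φ X (powerBound (finrank W.K (W.H X)) D) n c}) ∧
      ((∀ j, j ≤ (pw X (powerBound (finrank W.K (W.H X)) D - 1)).dim →
          PoleFormula Φ σ (pw X (powerBound (finrank W.K (W.H X)) D - 1)) j) →
        ∀ n j, j ≤ (pw X n).dim → PoleFormula Φ σ (pw X n) j) := by
  classical
  refine ⟨slopeDenominator (hRH X) hint, fun D hD => ⟨?_, all_powers hRH hint hE (hbig.tr hE) hD⟩⟩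
  intro n s j hs c hc
  obtain ⟨ι, hfin, B, lam, hB⟩ := exists_ebasis Φ X
  have hft : Fintype ι := Fintype.ofFinite ι
  set b := finrank W.K (W.H X) with hb
  have hcard : Fintype.card ι = b := (Module.finrank_eq_card_basis B.b).symm
  have hdim := dim_lt hE (hbig.tr (W := W) hE)
  rw [← hb] at hdim
  have h1 := generated (b := b) (M := 2 * D * b) hB hD.1 (weilFamily hB (hRH X) hint hD) hcard.le
    (fun l => by
      calc D * B.deg l ≤ D * (2 * b) := Nat.mul_le_mul_left _ ((deg_le B l).trans (by omega))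
        _ = 2 * D * b := by ring) hs hc
  have h2 : powerBound b D = 2 * b * (2 * b * (2 * D * b) + 1) ^ b := by
    rw [powerBound]
    congr 2
    ring
  rw [h2]
  exact h1

end Pool.Agent.R940
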