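import Pool.Agent.R940.HDefs

/-!
# Multiplicative classes of cohomology classes: definitions
-/

open CategoryTheory AlgebraicGeometry

universe u

namespace Pool.Agent.R940

open Pool.Agent.H914 Pool.Agent.H914.VarClass Pool.Agent.H914.VarClass.Obj
  Pool.Agent.H914.WeilCohomology Pool.Agent.Y121.AHS
open Pool.Agent.Y163 (pw)

variable {k : Type u} [Field k] {𝒱 : VarClass k} {ops : CycleOps 𝒱}

/-- A property `P X j c` of the classes `c` of degree `2 j` on the varieties `X` which is preserved by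
linear combinations, products and pull-backs. Examples are the property to be the class of an
algebraic cycle, to be motivated (André), or to be absolutely Hodge (Deligne). -/
structure ClassFam (T : HodgeTheory ops) where
  P : ∀ X : 𝒱.Obj, ℕ → T.W.H X → Prop
  gr : ∀ {X : 𝒱.Obj} {j : ℕ} {c : T.W.H X}, P X j c → OfDeg T (2 * j) c
  zero : ∀ {X : 𝒱.Obj} {j : ℕ}, P X j 0
  one : ∀ {X : 𝒱.Obj}, P X 0 1
  add : ∀ {X : 𝒱.Obj} {j : ℕ} {a b : T.W.H X}, P X j a → P X j b → P X j (a + b)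
  smul : ∀ {X : 𝒱.Obj} {j : ℕ} (r : T.W.K) {a : T.W.H X}, P X j a → P X j (r • a)
  mul : ∀ {X : 𝒱.Obj} {i j : ℕ} {a b : T.W.H X}, P X i a → P X j b → P X (i + j) (a * b)
  map : ∀ {X Y : 𝒱.Obj} (f : X ⟶ Y) {j : ℕ} {a : T.W.H Y}, P Y j a → P X j (T.W.map f a)

/-- All Hodge classes on `Y` have the property `Q`. -/
def HodgeIn {T : HodgeTheory ops} (Q : ClassFam T) (Y : 𝒱.Obj) : Prop :=
  ∀ (j : ℕ) (c : T.W.H Y), IsHodge T Y j c → Q.P Y j c

end Pool.Agent.R940
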