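import Pool.Agent.R940.GDefs
import Pool.Agent.W534.TateDefs

/-!
# Tate classes on the products of a variety with powers: definitions
-/

open CategoryTheory AlgebraicGeometry

universe u v

namespace Pool.Agent.R940

open Pool.Agent.H914 Pool.Agent.H914.VarClass Pool.Agent.H914.VarClass.Obj
  Pool.Agent.H914.WeilCohomology
open Pool.Agent.Y163 (pw)
open Pool.Agent.W534 (FrobSystem genTate IsTate)

variable {k : Type u} [Field k] {𝒱 : VarClass k} {ops : CycleOps 𝒱}

/-- The projection `Z × X ^ (n + 1) → Z × X ^ (m + 1)` to the factor `Z` and the factors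
`e 0, ..., e m`. -/
noncomputable def prZ (Z X : 𝒱.Obj) {m n : ℕ} (e : Fin (m + 1) → Fin (n + 1)) :
    Z.prod (pw X n) ⟶ Z.prod (pw X m) :=
  Obj.lift (fst Z (pw X n)) (snd Z (pw X n) ≫ proj X e)

/-- The class `c` on `Z × X ^ (n + 1)` is the pull-back, under the projection to `Z` and to
different factors `e 0, ..., e m`, at most `N` in number, of a class `t` on `Z × X ^ (m + 1)` with
the property `P`. -/
def IsPulledFrom (W : WeilCohomology.{u, v} ops) (Z X : 𝒱.Obj) (P : ∀ Y : 𝒱.Obj, W.H Y → Prop)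
    (N n : ℕ) (c : W.H (Z.prod (pw X n))) : Prop :=
  ∃ (m : ℕ) (e : Fin (m + 1) → Fin (n + 1)) (t : W.H (Z.prod (pw X m))), m + 1 ≤ N ∧
    Function.Injective e ∧ P _ t ∧ c = W.map (prZ Z X e) t

/-- The class `t` on `Y` is a generalised Tate class. -/
def IsGenClass {W : WeilCohomology.{u, v} ops} {p : ℕ} (Φ : FrobSystem W p) (Y : 𝒱.Obj)
    (t : W.H Y) : Prop :=
  ∃ s j : ℕ, 0 < s ∧ t ∈ genTate Φ Y s j

/-- The class `t` on `Y` is a Tate class. -/
def IsTateCls {W : WeilCohomology.{u, v} ops} {p : ℕ} (Φ : FrobSystem W p) (Y : 𝒱.Obj)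
    (t : W.H Y) : Prop :=
  ∃ j : ℕ, IsTate Φ Y j t

/-- The Frobenius endomorphism of the cohomology of `X` is semisimple. -/
def FrobIsSemisimple {W : WeilCohomology.{u, v} ops} {p : ℕ} (Φ : FrobSystem W p) (X : 𝒱.Obj) :
    Prop :=
  Module.End.IsSemisimple (W.map (Φ.Fr X)).toLinearMap

/-- The number of factors `N = 2 b (4 D b ^ 2 + 4 D e + 1) ^ b`. -/
def mixedBound (b D e : ℕ) : ℕ := 2 * b * (4 * D * b ^ 2 + 4 * D * e + 1) ^ b

end Pool.Agent.R940
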