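import Pool.Agent.R940.TDefs
import Pool.Agent.R940.ZDefs

/-!
# Varieties with potentially abelian Galois representations and Hodge-Tate weights: definitions
-/

open CategoryTheory AlgebraicGeometry

universe u v w

namespace Pool.Agent.R940

open Pool.Agent.H914 Pool.Agent.H914.VarClass Pool.Agent.H914.VarClass.Obj
  Pool.Agent.H914.WeilCohomology

variable {k : Type u} [Field k] {𝒱 : VarClass k} {ops : CycleOps 𝒱}
  {W : WeilCohomology.{u, v} ops} {Γ : Type w} [Group Γ]

/-- The functions `ψ` and `φ` agree on a subgroup of finite index. -/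
def AgreeFin {K : Type v} (ψ φ : Γ → K) : Prop :=
  ∃ Δ : Subgroup Γ, Δ.FiniteIndex ∧ ∀ g ∈ Δ, ψ g = φ g

/-- The class `y` on `Y` is an eigenvector of a subgroup `Δ` of finite index, and `g ∈ Δ` acts by
`ψ g`. -/
def IsEigen (G : GaloisSystem W Γ) (Y : 𝒱.Obj) (ψ : Γ → W.K) (y : W.H Y) : Prop :=
  ∃ Δ : Subgroup Γ, Δ.FiniteIndex ∧ ∀ g ∈ Δ, G.act Y g y = ψ g • y

/-- The character `ψ` of a subgroup of finite index occurs in `H^i(Y)`. -/
def Occurs (G : GaloisSystem W Γ) (Y : 𝒱.Obj) (i : ℕ) (ψ : Γ → W.K) : Prop :=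
  ∃ y ∈ W.gr Y i, y ≠ 0 ∧ IsEigen G Y ψ y

/-- The cohomology of `X` is spanned by homogeneous eigenvectors of subgroups of finite index (the
representation of the Galois group is potentially abelian and semisimple). -/
def IsPotAbelian (G : GaloisSystem W Γ) (X : 𝒱.Obj) : Prop :=
  Submodule.span W.K {x : W.H X | ∃ i ψ, x ∈ W.gr X i ∧ IsEigen G X ψ x} = ⊤

/-- The Hodge-Tate weights of the characters which occur in the cohomology. The index set `S`
consists of the pairs of an embedding of the algebraic closure of the field of definition into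
`ℂ_ℓ` and an embedding of the coefficients into `ℂ_ℓ`; the number `wt s ψ` is the weight of the
character `ψ` (of a subgroup of finite index) with respect to `s`, normalised such that the
weights which occur in `H^i(Y)` are between `0` and `i`. -/
structure HodgeTate (G : GaloisSystem W Γ) where
  /-- the index set -/
  S : Type
  nonempty : Nonempty S
  /-- the weights -/
  wt : S → (Γ → W.K) → ℤ
  /-- the weights depend only on the restriction to subgroups of finite index -/
  agree : ∀ (s : S) (ψ φ : Γ → W.K), AgreeFin ψ φ → wt s ψ = wt s φ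
  /-- the weights are additive -/
  mul : ∀ (s : S) {Y Y' : 𝒱.Obj} {i i' : ℕ} {ψ φ : Γ → W.K}, Occurs G Y i ψ → Occurs G Y' i' φ →
    wt s (ψ * φ) = wt s ψ + wt s φ
  /-- the weights which occur in `H^i` are between `0` and `i` -/
  bound : ∀ (s : S) {Y : 𝒱.Obj} {i : ℕ} {ψ : Γ → W.K}, Occurs G Y i ψ → 0 ≤ wt s ψ ∧ wt s ψ ≤ i
  /-- the weights of the Tate twists -/
  twist : ∀ (s : S) (j : ℕ), wt s (fun g => (G.χ g : W.K) ^ j) = j
  /-- a character with the weights of a Tate twist agrees with it on a subgroup of finite index -/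
  tate : ∀ {Y : 𝒱.Obj} {j : ℕ} {ψ : Γ → W.K}, Occurs G Y (2 * j) ψ → (∀ s, wt s ψ = j) →
    AgreeFin ψ (fun g => (G.χ g : W.K) ^ j)

/-- The class `c` on `Y` is a Tate class, of some codimension. -/
def IsGalTate (G : GaloisSystem W Γ) (Y : 𝒱.Obj) (c : W.H Y) : Prop := ∃ j, c ∈ tateSub G Y j

/-- The number `N = b (4 b ^ 2 + 4 e + 1) ^ b`. -/
def galBound (b e : ℕ) : ℕ := b * (4 * b ^ 2 + 4 * e + 1) ^ b

end Pool.Agent.R940
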