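import Pool.Agent.R940.CMGal
import Pool.Agent.R940.HFin

/-!
# Tate classes on the products with the powers of a variety of CM type: the theorem
-/

set_option linter.unusedVariables false
set_option linter.unusedSectionVars false

open CategoryTheory AlgebraicGeometry CategoryTheory.Limits TensorProduct

universe u v w

namespace Pool.Agent.R940

open Pool.Agent.H914 Pool.Agent.H447 Pool.Agent.W534 Pool.Agent.Y163 VarClass Obj WeilCohomology
  Module

variable {k : Type u} [Field k] {𝒱 : VarClass k} {ops : CycleOps 𝒱}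
  {W : WeilCohomology.{u, v} ops} {X Y Y' Z : 𝒱.Obj} {Γ : Type w} [Group Γ]
  {G : GaloisSystem W Γ}

/-- A homogeneous basis of eigenvectors. -/
lemma exists_eigenbasis (hX : IsPotAbelian G X) : ∃ (ι : Type v) (_ : Finite ι)
    (B : HBasis W X ι) (ψ : ι → Γ → W.K), ∀ l, IsEigen G X (ψ l) (B.b l) := by
  have hs : (⊤ : Submodule W.K (W.H X)) ≤
      Submodule.span W.K {x : W.H X | ∃ i ψ, x ∈ W.gr X i ∧ IsEigen G X ψ x} := by
    rw [IsPotAbelian] at hX
    rw [hX]
  have h1 : ∀ l, (Basis.ofSpan hs) l ∈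
      {x : W.H X | ∃ i ψ, x ∈ W.gr X i ∧ IsEigen G X ψ x} := fun l =>
    Basis.ofSpan_subset hs ⟨l, rfl⟩
  choose deg ψ h2 h3 using h1
  exact ⟨_, Module.Finite.finite_basis (Basis.ofSpan hs), ⟨Basis.ofSpan hs, deg, h2⟩, ψ, h3⟩

/-- **Bounded generation of the Tate classes.** -/
theorem gal_generated (HT : HodgeTate G) (hX : IsPotAbelian G X) {D : X.Cycles}
    (hD : X.IsCyc 1 D) (hbig : Big ops X D) (n J : ℕ) {c : W.H (Z.prod (pw X n))}
    (hc : c ∈ tateSub G (Z.prod (pw X n)) J) :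
    c ∈ GT G Z X (galBound (finrank W.K (W.H X)) Z.dim) n := by
  classical
  obtain ⟨ι, hι, B, ψ, hB⟩ := exists_eigenbasis hX
  have hfin : Fintype ι := Fintype.ofFinite ι
  have hdim := dim_lt hD (hbig.tr (W := W) hD)
  obtain ⟨z, hz, hz'⟩ := exists_coord_gr B hc.1
  have hc2 : IsEigen G (Z.prod (pw X n)) (fun g => (G.χ g : W.K) ^ J)
      (∑ I, zm B n (z I) I) := by
    rw [← hz]
    exact hc.2
  rw [hz]
  refine Subalgebra.sum_mem _ fun I _ => ?_
  rcases hz' I with h0 | ⟨w, hw, hwz⟩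
  · rw [h0, zm_zero']
    exact Subalgebra.zero_mem _
  · obtain ⟨φ, hφ, hag⟩ := coord_eigen hB hc2 I
    exact gkey HT hB (b := finrank W.K (W.H X)) (Bd := 2 * finrank W.K (W.H X))
      (R := 2 * Z.dim) (by rw [finrank_eq_card_basis B.b]) (fun l => (deg_le B l).trans (by
        omega)) le_rfl (by rw [galBound]; congr 2; ring) n I (z I) w J φ hwz hφ hw hag

lemma tate_map (f : Y ⟶ Y') {j : ℕ} {c : W.H Y'} (hc : c ∈ tateSub G Y' j) :
    W.map f c ∈ tateSub G Y j :=
  tate_iff.2 ⟨W.map_mem f hc.1, (tate_iff.1 hc).2.map f⟩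

lemma span_pull (f : Y ⟶ Y') {j : ℕ} {c : W.H Y'} (hc : c ∈ spanCycles W Y' (j : ℕ)) :
    W.map f c ∈ spanCycles W Y (j : ℕ) := by
  rw [spanCycles] at hc
  induction hc using Submodule.span_induction with
  | mem x hx =>
    obtain ⟨p, hp, z, hz, rfl⟩ := hx
    refine Submodule.subset_span ⟨p, hp, ops.pull f z, ops.pull_mem _ hz, ?_⟩
    rw [W.cl_pull]
  | zero => rw [map_zero]; exact Submodule.zero_mem _
  | add x y _ _ hx hy => rw [map_add]; exact Submodule.add_mem _ hx hy
  | smul r x _ hx => rw [map_smul]; exact Submodule.smul_mem _ _ hx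

/-- The Tate conjecture in all codimensions. -/
lemma TateConj.all (h : TateConj G Y) (j : ℕ) : tateSub G Y j ≤ spanCycles W Y (j : ℕ) := by
  rcases Nat.lt_or_ge Y.dim j with hj | hj
  · intro c hc
    have h1 := hc.1
    rw [W.gr_eq_bot Y _ (by omega)] at h1
    rw [(Submodule.mem_bot _).1 h1]
    exact Submodule.zero_mem _
  · exact h j hj

/-- **The reduction of the Tate conjecture.** -/
theorem gal_red (HT : HodgeTate G) (hX : IsPotAbelian G X) {D : X.Cycles}
    (hD : X.IsCyc 1 D) (hbig : Big ops X D)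
    (hH : TateConj G (Z.prod (pw X (galBound (finrank W.K (W.H X)) Z.dim - 1)))) (n : ℕ) :
    TateConj G (Z.prod (pw X n)) := by
  intro J _ c hc
  have hdim := dim_lt hD (hbig.tr (W := W) hD)
  have hN : 1 ≤ galBound (finrank W.K (W.H X)) Z.dim :=
    Nat.mul_pos (by omega) (Nat.pow_pos (by omega))
  set N := galBound (finrank W.K (W.H X)) Z.dim with hNd
  have h1 := gal_generated HT hX hD hbig n J hc
  have h2 : c ∈ ⨆ j : ℕ, spanCycles W (Z.prod (pw X n)) j := by
    refine Algebra.adjoin_induction (p := fun c _ => c ∈ ⨆ j : ℕ, spanCycles W (Z.prod (pw X n)) j)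
      ?_ ?_ ?_ ?_ h1
    · rintro _ ⟨m, e, t, hm, he, ⟨i, ht⟩, rfl⟩
      obtain ⟨r, g, hrg⟩ : ∃ (r : Fin (m + 1) → Fin (N - 1 + 1)) (g : Fin (N - 1 + 1) →
          Fin (m + 1)), g ∘ r = id := by
        have hle : m + 1 ≤ N - 1 + 1 := by omega
        refine ⟨Fin.castLE hle, fun i => if h : i.1 < m + 1 then ⟨i.1, h⟩ else 0, ?_⟩
        funext i
        have h4 : ((Fin.castLE hle i : Fin (N - 1 + 1)) : ℕ) < m + 1 := i.2
        exact (dif_pos h4).trans (Fin.ext rfl)
      have h3 := hH.all i (tate_map (projZ Z X r) ht)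
      have h4 : W.map (prZ Z X e) t = W.map (projZ Z X e) (W.map (projZ Z X g)
          (W.map (projZ Z X r) t)) := by
        rw [← W.map_comp (projZ Z X g), projZ_comp, hrg, projZ_id, W.map_id, prZ_eq]
      rw [h4]
      refine Submodule.mem_iSup_of_mem i ?_
      exact span_pull _ (span_pull _ h3)
    · intro r
      rw [Algebra.algebraMap_eq_smul_one, ← W.cl_fund]
      exact Submodule.smul_mem _ _ (Submodule.mem_iSup_of_mem 0 (Submodule.subset_span
        ⟨0, by simp, _, SmVar.fundCycle_mem _, rfl⟩))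
    · intro x y _ _ hx hy
      exact Submodule.add_mem _ hx hy
    · intro x y _ _ hx hy
      exact iSup_mul hx hy
  exact mem_span_of_iSup h2 hc.1

end Pool.Agent.R940
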