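import Pool.Agent.Y129.TDefs
import Pool.Agent.R940.DDefs

/-!
# Galois systems and Tate classes: definitions
-/

open CategoryTheory AlgebraicGeometry

universe u v w

namespace Pool.Agent.R940

open Pool.Agent.H914 Pool.Agent.H914.VarClass Pool.Agent.H914.VarClass.Obj
  Pool.Agent.H914.WeilCohomology
open Pool.Agent.TH125.Gal (IsGaloisAct)
open Pool.Agent.Y129 (tateClasses)

variable {k : Type u} [Field k] {𝒱 : VarClass k} {ops : CycleOps 𝒱}

/-- The action of the Galois group `Γ` of a field of definition on the Weil cohomology of all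
varieties of the class: `χ` is the action on the Tate twists, the action on the cohomology of each
variety has the formal properties of a Galois action (`IsGaloisAct`: it respects the grading, the
orientation up to the twist, and the classes of cycles up to the twist, each of which is fixed up to
the twist by a subgroup of finite index), and each morphism is respected by a subgroup of finite
index. -/
structure GaloisSystem (W : WeilCohomology.{u, v} ops) (Γ : Type w) [Group Γ] where
  /-- the action on the Tate twists -/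
  χ : Γ →* W.Kˣ
  /-- the action on the cohomology of `Y` -/
  act : ∀ Y : 𝒱.Obj, Γ →* (W.H Y ≃ₐ[W.K] W.H Y)
  gal : ∀ Y : 𝒱.Obj, IsGaloisAct χ (W.gr Y) Y.dim (W.tr Y) (algClasses W Y) (act Y)
  map : ∀ {X Y : 𝒱.Obj} (f : X ⟶ Y), ∃ Δ : Subgroup Γ, Δ.FiniteIndex ∧
    ∀ g ∈ Δ, ∀ a, act X g (W.map f a) = W.map f (act Y g a)

variable {W : WeilCohomology.{u, v} ops} {Γ : Type w} [Group Γ]

/-- The space of the Tate classes of codimension `j` on `Y`: the classes `c` of degree `2 * j` such that
`g c = χ g ^ j • c` for all `g` in a subgroup of finite index. -/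
def tateSub (G : GaloisSystem W Γ) (Y : 𝒱.Obj) (j : ℕ) : Submodule W.K (W.H Y) :=
  tateClasses G.χ (W.gr Y) (G.act Y) j

/-- The dimension of the space of the Tate classes of codimension `j` on `Y`. -/
noncomputable def tateRank (G : GaloisSystem W Γ) (Y : 𝒱.Obj) (j : ℕ) : ℕ :=
  Module.finrank W.K (tateSub G Y j)

/-- The Tate conjecture for `Y`, in all codimensions and over all finite extensions of the field of
definition: the Tate classes are linear combinations of classes of algebraic cycles. -/
def TateConj (G : GaloisSystem W Γ) (Y : 𝒱.Obj) : Prop :=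
  ∀ j ≤ Y.dim, tateSub G Y j ≤ spanCycles W Y (j : ℕ)

/-- The Tate conjecture for `Y`, and numerical equivalence agrees with homological equivalence. -/
def StrongTate (G : GaloisSystem W Γ) (Y : 𝒱.Obj) : Prop :=
  TateConj G Y ∧ HomEqNum W Y

/-- The rank of the group of the cycles of codimension `(n + 1) d` on `X ^ (2 n + 2)` modulo
numerical equivalence, `d = dim X`. -/
noncomputable def rhoRank (ops : CycleOps 𝒱) (X : 𝒱.Obj) (n : ℕ) : ℕ :=
  Pool.Agent.W534.numRank ops (Pool.Agent.Y163.sq X n) ((n + 1) * X.dim)

/-- The rank of the group of the cycles of codimension `(n + 1) d + i` on `Z × X ^ (2 n + 2)` modulo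
numerical equivalence. -/
noncomputable def cycRankOn (ops : CycleOps 𝒱) (Z X : 𝒱.Obj) (i n : ℕ) : ℕ :=
  Pool.Agent.W534.numRank ops (Z.prod (Pool.Agent.Y163.sq X n)) ((n + 1) * X.dim + i)

/-- The dimension of the space of the Tate classes of codimension `(n + 1) d + i` on
`Z × X ^ (2 n + 2)`. -/
noncomputable def tateRankOn (G : GaloisSystem W Γ) (Z X : 𝒱.Obj) (i n : ℕ) : ℕ :=
  tateRank G (Z.prod (Pool.Agent.Y163.sq X n)) ((n + 1) * X.dim + i)

/-- The error term `(κ + 1) b ^ (2 κ + 4) log (n + 2) / n`. -/
noncomputable def excessError (b κ n : ℕ) : ℝ :=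
  (κ + 1) * (b : ℝ) ^ (2 * κ + 4) * Real.log (n + 2) / n

/-- The Tate classes exceed the cycles modulo numerical equivalence on all `Z × X ^ (2 n + 2)`. -/
def HasTateExcess (G : GaloisSystem W Γ) (Z X : 𝒱.Obj) (κ i : ℕ) : Prop :=
  ∀ n : ℕ, 0 < n → (cycRankOn ops Z X i n : ℝ) +
    (1 - excessError (betti W X) κ n) * rhoRank ops X n ≤ tateRankOn G Z X i n

end Pool.Agent.R940
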