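import Pool.Agent.R940.GExc
import Pool.Agent.R940.TDefs

/-!
# The excess law for Tate classes
-/

set_option linter.unusedVariables false
set_option linter.unusedSectionVars false

open CategoryTheory AlgebraicGeometry CategoryTheory.Limits TensorProduct

universe u v w

namespace Pool.Agent.R940

open Pool.Agent.H914 Pool.Agent.H447 Pool.Agent.W534 Pool.Agent.Y163 VarClass Obj WeilCohomology
  Module

variable {k : Type u} [Field k] {𝒱 : VarClass k} {ops : CycleOps 𝒱}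
  {W : WeilCohomology.{u, v} ops} {X Y Z : 𝒱.Obj} {Γ : Type w} [Group Γ]

lemma mem_tateSub {G : GaloisSystem W Γ} {j : ℕ} {c : W.H Y} : c ∈ tateSub G Y j ↔
    c ∈ W.gr Y (2 * j) ∧ ∃ Δ : Subgroup Γ, Δ.FiniteIndex ∧
      ∀ g ∈ Δ, G.act Y g c = (G.χ g : W.K) ^ j • c := Iff.rfl

/-- The push-forward of a Tate class. -/
lemma act_push (G : GaloisSystem W Γ) (f : X ⟶ Y) {p q : ℕ} (hpq : p + Y.dim = q + X.dim)
    {g : Γ} (hf : ∀ a, G.act X g⁻¹ (W.map f a) = W.map f (G.act Y g⁻¹ a)) {c : W.H X}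
    (hc : G.act X g c = (G.χ g : W.K) ^ p • c) :
    G.act Y g (W.push f c) = (G.χ g : W.K) ^ q • W.push f c := by
  have hinv : ∀ (V : 𝒱.Obj) (a : W.H V), G.act V g (G.act V g⁻¹ a) = a := by
    intro V a
    have h1 : (G.act V g * G.act V g⁻¹) a = a := by
      rw [← map_mul, mul_inv_cancel, map_one]
      rfl
    exact h1
  apply W.tr_ext
  intro y
  have hx0 : (G.χ g : W.K) ≠ 0 := Units.ne_zero _
  have h1 := (G.gal Y).tr_act g (W.push f c * G.act Y g⁻¹ y)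
  rw [map_mul, hinv, W.tr_push, ← hf] at h1
  have h2 := (G.gal X).tr_act g (c * G.act X g⁻¹ (W.map f y))
  rw [map_mul, hinv, hc, smul_mul_assoc, map_smul, ← W.tr_push] at h2
  rw [h1, smul_mul_assoc, map_smul, smul_eq_mul]
  apply mul_left_cancel₀ (pow_ne_zero X.dim hx0)
  have h3 : (G.χ g : W.K) ^ X.dim * ((G.χ g : W.K) ^ Y.dim *
      W.tr X (c * G.act X g⁻¹ (W.map f y))) =
      (G.χ g : W.K) ^ Y.dim * ((G.χ g : W.K) ^ X.dim *
      W.tr X (c * G.act X g⁻¹ (W.map f y))) := by ring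
  rw [h3, ← h2, smul_eq_mul, ← mul_assoc, ← mul_assoc, ← pow_add, ← pow_add,
    show Y.dim + p = X.dim + q by omega]

/-- The system of the Tate classes. -/
noncomputable def tateFam (G : GaloisSystem W Γ) : SFam W where
  T Y j := tateSub G Y j
  cl_mul := by
    rintro Y p q z c hz ⟨h1, Δ, hΔ, h2⟩
    obtain ⟨Δ', hΔ', h3⟩ := (G.gal Y).cl_fix q (W.cl Y z) ⟨z, hz, rfl⟩
    refine ⟨?_, Δ ⊓ Δ', inferInstance, fun g hg => ?_⟩
    · have := W.mul_mem (W.cl_mem hz) h1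
      rwa [show 2 * q + 2 * p = 2 * (q + p) by ring] at this
    · rw [map_mul, h2 g hg.1, h3 g hg.2, smul_mul_smul_comm, pow_add]
  map := by
    rintro X Y f p c ⟨h1, Δ, hΔ, h2⟩
    obtain ⟨Δ', hΔ', h3⟩ := G.map f
    refine ⟨W.map_mem f h1, Δ ⊓ Δ', inferInstance, fun g hg => ?_⟩
    rw [h3 g hg.2, h2 g hg.1, map_smul]
  push := by
    rintro X Y f p q c ⟨h1, Δ, hΔ, h2⟩ hpq
    obtain ⟨Δ', hΔ', h3⟩ := G.map f
    refine ⟨?_, Δ ⊓ Δ', inferInstance, fun g hg => ?_⟩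
    · have := W.push_mem f h1
      rwa [show ((2 * p : ℕ) : ℤ) + 2 * ((Y.dim : ℤ) - X.dim) = ((2 * q : ℕ) : ℤ) by
        push_cast; omega, grZ_natCast] at this
    · exact act_push G f hpq (h3 g⁻¹ (inv_mem hg.2)) (h2 g hg.1)
  push_zero := by
    rintro X Y f p c ⟨h1, Δ, hΔ, h2⟩ hp
    have := W.push_mem f h1
    rw [grZ_of_neg (by push_cast; omega)] at this
    exact (Submodule.mem_bot _).1 this

lemma span_le_tate (G : GaloisSystem W Γ) (Y : 𝒱.Obj) (j : ℕ) :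
    spanCycles W Y (j : ℕ) ≤ (tateFam G).T Y j := by
  rw [spanCycles, Submodule.span_le]
  rintro _ ⟨p, hp, z, hz, rfl⟩
  obtain rfl : p = j := by exact_mod_cast hp
  exact ⟨W.cl_mem hz, (G.gal Y).cl_fix p (W.cl Y z) ⟨z, hz, rfl⟩⟩

/-- The size of the system. -/
lemma finrank_le_growth (hX : SignStd W X) (n : ℕ) (P : Submodule W.K (W.H (Z.prod (Y163.sq X n)))) :
    finrank W.K P ≤ betti W Z * ((n + 2) ^ (betti W X ^ 2) *
      numRank ops (Y163.sq X n) ((n + 1) * X.dim)) := by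
  have h1 := growth_any (W := W) (par_of_sign hX) n
  have e1 := kappa W Z (Pool.Agent.Y163.sq X n)
  have e2 := kappa W (pw X n) (pw X n)
  have h2 : finrank W.K (W.H (Z.prod (Pool.Agent.Y163.sq X n))) =
      betti W Z * (betti W X ^ 2) ^ (n + 1) := by
    rw [← e1.finrank_eq, Module.finrank_tensorProduct, Y163.sq, ← e2.finrank_eq,
      Module.finrank_tensorProduct, finrank_pw, betti, betti]
    ring
  refine (Submodule.finrank_le _).trans ?_
  rw [h2]
  apply Nat.mul_le_mul_left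
  rw [mul_comm ((n + 2) ^ _)]
  exact h1

/-- **The excess law for Tate classes.** -/
theorem tate_excess (hX : SignStd W X) (hZ : SignStd W Z) {D : X.Cycles} (hD : X.IsCyc 1 D)
    (hbig : Big ops X D) (G : GaloisSystem W Γ) :
    (∀ n, 0 < numRank ops (Y163.sq X n) ((n + 1) * X.dim)) ∧
    (∀ i n, i ≤ Z.dim →
      numRank ops (Z.prod (Y163.sq X n)) ((n + 1) * X.dim + i) ≤
        tateRank G (Z.prod (Y163.sq X n)) ((n + 1) * X.dim + i) ∧
      numRank ops (Z.prod (Y163.sq X n)) ((n + 1) * X.dim + i) ≤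
        betti W Z * numRank ops (Y163.sq X n) ((n + 1) * X.dim) ∧
      tateRank G (Z.prod (Y163.sq X n)) ((n + 1) * X.dim + i) ≤
        betti W Z * ((n + 2) ^ (betti W X ^ 2) *
          numRank ops (Y163.sq X n) ((n + 1) * X.dim))) ∧
    ∀ κ, (TateConj G (Z.prod (pw X κ)) ∧ HomEqNum W (Z.prod (pw X κ))) ∨
      ∃ i, i ≤ Z.dim ∧ ∀ n : ℕ, 0 < n →
        numRank ops (Z.prod (Y163.sq X n)) ((n + 1) * X.dim + i) +
          (1 - (κ + 1) * (betti W X : ℝ) ^ (2 * κ + 4) * Real.log (n + 2) / n) *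
            numRank ops (Y163.sq X n) ((n + 1) * X.dim) ≤
          tateRank G (Z.prod (Y163.sq X n)) ((n + 1) * X.dim + i) := by
  obtain ⟨h1, h2, h3⟩ := sfam_excess hX hZ hD hbig (tateFam G) (span_le_tate G)
  exact ⟨h1, fun i n hi => ⟨(h2 i n hi).1, (h2 i n hi).2, finrank_le_growth hX n _⟩, h3⟩

/-- The excess law in terms of the named quantities. -/
theorem tate_excess_stm (hX : SignStd W X) (hZ : SignStd W Z) {D : X.Cycles} (hD : X.IsCyc 1 D)
    (hbig : Big ops X D) (G : GaloisSystem W Γ) :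
    (∀ n, 0 < rhoRank ops X n) ∧
    (∀ i n, i ≤ Z.dim →
      cycRankOn ops Z X i n ≤ tateRankOn G Z X i n ∧
      cycRankOn ops Z X i n ≤ betti W Z * rhoRank ops X n ∧
      tateRankOn G Z X i n ≤ betti W Z * ((n + 2) ^ (betti W X ^ 2) * rhoRank ops X n)) ∧
    ∀ κ, StrongTate G (Z.prod (pw X κ)) ∨ ∃ i, i ≤ Z.dim ∧ HasTateExcess G Z X κ i :=
  tate_excess hX hZ hD hbig G

end Pool.Agent.R940
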