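import Pool.Agent.R940.ZMode

/-!
# Bounded generation of the Tate classes on products with powers
-/

set_option linter.unusedVariables false
set_option linter.unusedSectionVars false

open CategoryTheory AlgebraicGeometry CategoryTheory.Limits

universe u v

namespace Pool.Agent.R940

open Pool.Agent.H914 Pool.Agent.H447 Pool.Agent.W534 Pool.Agent.Y163 VarClass Obj WeilCohomology
  Module Polynomial

variable {k : Type u} [Field k] {𝒱 : VarClass k} {ops : CycleOps 𝒱}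
  {W : WeilCohomology.{u, v} ops} {X Y Z U S : 𝒱.Obj} {p : ℕ}

section Rel

variable {ι : Type v} [Fintype ι]

/-- The relation for the words which give (generalised) Tate classes: `μ` is an eigenvalue of the
Frobenius endomorphism of `Z` over the field with `p ^ (e₂ t)` elements, in degree `w`, and `c` the
numbers of occurrences of the letters. -/
def TZ {K : Type v} [Field K] (p e₁ e₂ : ℕ) (lam : ι → K) (deg : ι → ℕ) (μ : K) (t w : ℕ)
    (c : ι → ℕ) : Prop :=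
  Even (w + ∑ l, deg l * c l) ∧ ∃ s : ℕ, 0 < s ∧
    (μ ^ e₁ * (∏ l, lam l ^ c l) ^ (e₂ * t)) ^ (2 * s) =
      (p : K) ^ (s * (e₁ * e₂ * t) * (w + ∑ l, deg l * c l))

variable {K : Type v} [Field K] [CharZero K] [hp : Fact p.Prime] {e₁ e₂ D : ℕ} {lam : ι → K}
  {deg : ι → ℕ}

omit hp in
lemma TZ_one {m : ι → ℕ} (h : IsT (p ^ e₁) lam deg m) : TZ p e₁ e₂ lam deg (1 : K) 1 0 m := by
  obtain ⟨h1, s, hs, h2⟩ := h
  refine ⟨by rwa [zero_add], s, hs, ?_⟩
  rw [one_pow, one_mul, mul_one, zero_add, ← pow_mul, mul_comm e₂, pow_mul, h2, Nat.cast_pow,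
    ← pow_mul, ← pow_mul]
  congr 1
  ring

lemma TZ_sub (h0 : ∀ l, lam l ≠ 0) {μ : K} {t w : ℕ} {c m : ι → ℕ} (hm : ∀ l, m l ≤ c l)
    (h : IsT (p ^ e₁) lam deg m) (hc : TZ p e₁ e₂ lam deg μ t w c) :
    TZ p e₁ e₂ lam deg μ t w (c - m) := by
  obtain ⟨h1, s, hs, h2⟩ := h
  obtain ⟨h3, r, hr, h4⟩ := hc
  have hdeg : ∑ l, deg l * (c - m) l + ∑ l, deg l * m l = ∑ l, deg l * c l := by
    rw [← Finset.sum_add_distrib]
    exact Finset.sum_congr rfl fun l _ => by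
      rw [← Nat.mul_add, Pi.sub_apply, Nat.sub_add_cancel (hm l)]
  have hprod : (∏ l, lam l ^ (c - m) l) * ∏ l, lam l ^ m l = ∏ l, lam l ^ c l := by
    rw [← Finset.prod_mul_distrib]
    exact Finset.prod_congr rfl fun l _ => by
      rw [← pow_add, Pi.sub_apply, Nat.sub_add_cancel (hm l)]
  have hp0 : (p : K) ≠ 0 := Nat.cast_ne_zero.2 hp.out.ne_zero
  refine ⟨?_, s * r, Nat.mul_pos hs hr, ?_⟩
  · rw [← hdeg, ← add_assoc] at h3
    exact (Nat.even_add.1 h3).2 h1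
  · have hm0 : (∏ l, lam l ^ m l) ≠ 0 := Finset.prod_ne_zero_iff.2 fun l _ => pow_ne_zero _ (h0 l)
    have e1 : (∏ l, lam l ^ m l) ^ (e₂ * t * (2 * (s * r))) =
        (p : K) ^ (s * r * (e₁ * e₂ * t) * ∑ l, deg l * m l) := by
      rw [show e₂ * t * (2 * (s * r)) = 2 * s * (r * e₂ * t) by ring, pow_mul, h2, Nat.cast_pow,
        ← pow_mul, ← pow_mul]
      congr 1
      ring
    have e2 : (μ ^ e₁ * (∏ l, lam l ^ c l) ^ (e₂ * t)) ^ (2 * (s * r)) =
        (p : K) ^ (s * r * (e₁ * e₂ * t) * (w + ∑ l, deg l * c l)) := by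
      rw [show 2 * (s * r) = 2 * r * s by ring, pow_mul, h4, ← pow_mul]
      congr 1
      ring
    rw [← hprod, ← hdeg, mul_pow (∏ l, lam l ^ (c - m) l), ← mul_assoc, mul_pow _ _ (2 * (s * r)),
      ← pow_mul _ _ (2 * (s * r)), e1] at e2
    apply mul_right_cancel₀ (pow_ne_zero (s * r * (e₁ * e₂ * t) * ∑ l, deg l * m l) hp0)
    rw [e2, ← pow_add]
    congr 1
    ring

end Rel

variable [hp : Fact p.Prime] {Φ : FrobSystem W p} {σ : W.K →+* ℂ}
  {ι : Type v} [Fintype ι] [DecidableEq ι] {B : HBasis W X ι} {lam : ι → W.K}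

/-- The elements of the basis are (generalised) eigenvectors. -/
def IsEgB (Φ : FrobSystem W p) (g : Bool) (B : HBasis W X ι) (lam : ι → W.K) : Prop :=
  ∀ i, B.b i ∈ Eg g (frob Φ X 1) (lam i)

lemma IsEgB.isEig {g : Bool} (h : IsEgB Φ g B lam) : IsEig Φ B lam := fun i => Eg_le _ _ _ (h i)

lemma zm_eq (B : HBasis W X ι) (n : ℕ) (z : W.H Z) (I : Fin (n + 1) → ι) : zm B n z I =
    W.map (fst Z (pw X n)) z *
      (List.ofFn fun i => W.map (snd Z (pw X n)) (W.map (pr X n i) (B.b (I i)))).prod := by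
  rw [zm, mon_eq, map_list_prod, List.map_ofFn]
  rfl

/-- The products are (generalised) eigenvectors. -/
lemma zm_E {g : Bool} (hB : IsEgB Φ g B lam) {n A α β : ℕ}
    (h1 : ∀ (t : ℕ) (z : W.H Z), frob Φ (Z.prod (pw X n)) (A * t) (W.map (fst Z (pw X n)) z) =
      W.map (fst Z (pw X n)) (frob Φ Z (α * t) z))
    (h2 : ∀ (i : Fin (n + 1)) (t : ℕ) (y : W.H X),
      frob Φ (Z.prod (pw X n)) (A * t) (W.map (snd Z (pw X n)) (W.map (pr X n i) y)) =
        W.map (snd Z (pw X n)) (W.map (pr X n i) (frob Φ X (β * t) y)))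
    {t : ℕ} {μ : W.K} {z : W.H Z} (hz : z ∈ Eg g (frob Φ Z t) μ) (r : ℕ) (I : Fin (n + 1) → ι) :
    zm B n z I ∈ Eg g (frob Φ (Z.prod (pw X n)) (A * (t * r)))
      (μ ^ (α * r) * (∏ j, lam (I j)) ^ (β * (t * r))) := by
  rw [zm_eq]
  refine Eg_bilin (β := LinearMap.mul W.K (W.H (Z.prod (pw X n))))
    (fun a b => (frob_mul' Φ (A * (t * r)) a b).symm) ?_ ?_
  · refine Eg_semi (f := frob Φ Z (α * (t * r))) (θ := (W.map (fst Z (pw X n))).toLinearMap)
      (fun x => h1 (t * r) x) ?_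
    have h3 := Eg_pow hz (α * r)
    rwa [← frob_mul_eq, show t * (α * r) = α * (t * r) by ring] at h3
  · rw [← Finset.prod_pow]
    apply ofFn_E Φ _ (fun j => lam (I j) ^ (β * (t * r)))
    intro i
    refine Eg_semi (f := frob Φ X (β * (t * r)))
      (θ := (W.map (snd Z (pw X n))).toLinearMap ∘ₗ (W.map (pr X n i)).toLinearMap)
      (fun x => h2 i (t * r) x) ?_
    have h3 := Eg_pow (hB (I i)) (β * (t * r))
    rwa [← frob_mul_eq, one_mul] at h3

lemma zm_gr (B : HBasis W X ι) (n : ℕ) {w : ℕ} {z : W.H Z} (hz : z ∈ W.gr Z w)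
    (I : Fin (n + 1) → ι) : zm B n z I ∈ W.gr (Z.prod (pw X n)) (w + ∑ l, B.deg l * cnt I l) := by
  rw [← sum_cnt_nat]
  exact W.mul_mem (W.map_mem _ hz) (W.map_mem _ (mon_gr B n I))

/-- The words which satisfy the relation give (generalised) Tate classes. -/
lemma zm_tS {g : Bool} (hB : IsEgB Φ g B lam) {n t w : ℕ} (ht : 0 < t) {μ : W.K} {z : W.H Z}
    (hz : z ∈ Eg g (frob Φ Z t) μ) (hzw : z ∈ W.gr Z w) {I : Fin (n + 1) → ι}
    (h : TZ p (Φ.e X) (Φ.e Z) lam B.deg μ t w (cnt I)) :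
    ∃ s j, 0 < s ∧ zm B n z I ∈ tS Φ g (Z.prod (pw X n)) s j := by
  obtain ⟨A, α, β, hA, hα, hβ, hAα, hAβ, h1, h2⟩ := frob_prZ Φ Z X n
  obtain ⟨⟨J, hJ⟩, s, hs, h3⟩ := h
  have heX := Φ.e_pos X
  have heZ := Φ.e_pos Z
  refine ⟨A * (t * (2 * s * Φ.e X * Φ.e Z)), J, by positivity, ?_, ?_⟩
  · have h4 := zm_E hB h1 h2 hz (2 * s * Φ.e X * Φ.e Z) I
    have h5 : μ ^ (α * (2 * s * Φ.e X * Φ.e Z)) *
        (∏ j, lam (I j)) ^ (β * (t * (2 * s * Φ.e X * Φ.e Z))) =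
        (card Φ (Z.prod (pw X n)) (A * (t * (2 * s * Φ.e X * Φ.e Z))) : W.K) ^ J := by
      rw [prod_cnt]
      have e1 : μ ^ (α * (2 * s * Φ.e X * Φ.e Z)) *
          (∏ l, lam l ^ cnt I l) ^ (β * (t * (2 * s * Φ.e X * Φ.e Z))) =
          ((μ ^ Φ.e X * (∏ l, lam l ^ cnt I l) ^ (Φ.e Z * t)) ^ (2 * s)) ^ (α * Φ.e Z) := by
        rw [← pow_mul, mul_pow, ← pow_mul, ← pow_mul]
        congr 2
        · ring
        · calc β * (t * (2 * s * Φ.e X * Φ.e Z)) = (β * Φ.e X) * (t * (2 * s * Φ.e Z)) := by ring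
            _ = (α * Φ.e Z) * (t * (2 * s * Φ.e Z)) := by rw [← hAβ, hAα]
            _ = _ := by ring
      rw [e1, h3, hJ, card, Nat.cast_pow, ← pow_mul, ← pow_mul]
      congr 1
      calc s * (Φ.e X * Φ.e Z * t) * (J + J) * (α * Φ.e Z)
          = (α * Φ.e Z) * (t * (2 * s * Φ.e X * Φ.e Z)) * J := by ring
        _ = _ := by rw [← hAα]; ring
    rw [← h5]
    exact h4
  · rw [show 2 * J = J + J by ring, ← hJ]
    exact zm_gr B n hzw I

/-- The relation from an equation between eigenvalues. -/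
lemma TZ_of_eq {n A α β : ℕ} (hAα : A * Φ.e (Z.prod (pw X n)) = α * Φ.e Z)
    (hAβ : A * Φ.e (Z.prod (pw X n)) = β * Φ.e X) (hA : 0 < A) {t w r J : ℕ} (ht : 0 < t)
    (hr : 0 < r) {μ : W.K} {I : Fin (n + 1) → ι} (hJ : w + ∑ l, B.deg l * cnt I l = 2 * J)
    (h : μ ^ (α * r) * (∏ j, lam (I j)) ^ (β * (t * r)) =
      (card Φ (Z.prod (pw X n)) (A * (t * r)) : W.K) ^ J) :
    TZ p (Φ.e X) (Φ.e Z) lam B.deg μ t w (cnt I) := by
  have hC : 0 < A * Φ.e (Z.prod (pw X n)) := Nat.mul_pos hA (Φ.e_pos _)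
  refine ⟨⟨J, by rw [hJ]; ring⟩, A * Φ.e (Z.prod (pw X n)) * r, Nat.mul_pos hC hr, ?_⟩
  rw [prod_cnt] at h
  have e1 : (μ ^ Φ.e X * (∏ l, lam l ^ cnt I l) ^ (Φ.e Z * t)) ^
      (2 * (A * Φ.e (Z.prod (pw X n)) * r)) =
      (μ ^ (α * r) * (∏ l, lam l ^ cnt I l) ^ (β * (t * r))) ^ (2 * Φ.e X * Φ.e Z) := by
    rw [mul_pow, mul_pow, ← pow_mul, ← pow_mul, ← pow_mul, ← pow_mul]
    congr 2
    · rw [hAα]; ring
    · rw [hAβ]; ring
  rw [e1, h, hJ, card, Nat.cast_pow, ← pow_mul, ← pow_mul]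
  congr 1
  ring

/-- The pull-backs of (generalised) Tate classes. -/
def IsPulledG (Φ : FrobSystem W p) (g : Bool) (Z X : 𝒱.Obj) (N n : ℕ)
    (c : W.H (Z.prod (pw X n))) : Prop :=
  ∃ (m : ℕ) (e : Fin (m + 1) → Fin (n + 1)) (s j : ℕ) (t : W.H (Z.prod (pw X m))), m + 1 ≤ N ∧
    Function.Injective e ∧ 0 < s ∧ t ∈ tS Φ g (Z.prod (pw X m)) s j ∧ c = W.map (projZ Z X e) t

/-- The algebra generated by the pull-backs from small powers. -/
noncomputable def GZ (Φ : FrobSystem W p) (g : Bool) (Z X : 𝒱.Obj) (N n : ℕ) :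
    Subalgebra W.K (W.H (Z.prod (pw X n))) :=
  Algebra.adjoin W.K {c | IsPulledG Φ g Z X N n c}

lemma GZ.map {g : Bool} {N a n : ℕ} {e : Fin (a + 1) → Fin (n + 1)} (he : Function.Injective e)
    {x : W.H (Z.prod (pw X a))} (hx : x ∈ GZ Φ g Z X N a) :
    W.map (projZ Z X e) x ∈ GZ Φ g Z X N n := by
  have h1 : (GZ Φ g Z X N a).map (W.map (projZ Z X e)) ≤ GZ Φ g Z X N n := by
    rw [GZ, AlgHom.map_adjoin, Algebra.adjoin_le_iff]
    rintro _ ⟨c, ⟨m, e', s, j, t, hm, he', hs, ht, rfl⟩, rfl⟩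
    apply Algebra.subset_adjoin
    refine ⟨m, e ∘ e', s, j, t, hm, he.comp he', hs, ht, ?_⟩
    rw [← W.map_comp, projZ_comp]
  exact h1 ⟨x, hx, rfl⟩

/-- The product of a class on `Z` and a monomial is a product of pull-backs. -/
lemma zm_split (B : HBasis W X ι) {n a b : ℕ} (z : W.H Z) (I : Fin (n + 1) → ι)
    (e : Fin (a + 1) → Fin (n + 1)) (e' : Fin (b + 1) → Fin (n + 1))
    (h : (List.ofFn e ++ List.ofFn e').Perm (List.finRange (n + 1))) {J : ℕ}
    (hJ : ∑ j, B.deg ((I ∘ e) j) = 2 * J) :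
    ∃ ε : W.K, zm B n z I = ε • (W.map (projZ Z X e) (zm B a (1 : W.H Z) (I ∘ e)) *
      W.map (projZ Z X e') (zm B b z (I ∘ e'))) := by
  obtain ⟨ε, hε⟩ := mon_split B I e e' h
  refine ⟨ε, ?_⟩
  have e1 : ∀ {m : ℕ} (e : Fin (m + 1) → Fin (n + 1)) (x : W.H (pw X m)),
      W.map (projZ Z X e) (W.map (snd Z (pw X m)) x) =
        W.map (snd Z (pw X n)) (W.map (tup m (fun i => pr X n (e i))) x) := by
    intro m e x
    rw [← W.map_comp, ← W.map_comp, projZ, Obj.lift_snd, proj_eq]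
  have e2 : ∀ {m : ℕ} (e : Fin (m + 1) → Fin (n + 1)) (x : W.H Z),
      W.map (projZ Z X e) (W.map (fst Z (pw X m)) x) = W.map (fst Z (pw X n)) x := by
    intro m e x
    rw [← W.map_comp, projZ, Obj.lift_fst]
  rw [zm, hε, zm, zm, map_smul, mul_smul_comm, map_mul (W.map (snd Z (pw X n))), map_one, one_mul,
    map_mul (W.map (projZ Z X e')), e1, e1, e2]
  congr 1
  have h3 : W.map (snd Z (pw X n)) (W.map (tup a (fun i => pr X n (e i))) (mon B a (I ∘ e))) ∈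
      W.gr (Z.prod (pw X n)) (2 * J) := by
    rw [← hJ]
    exact W.map_mem _ (W.map_mem _ (mon_gr B a _))
  rw [← mul_assoc, ← mul_assoc, even_comm h3]

/-- **The key step.** -/
theorem zkey {g : Bool} (hB : IsEgB Φ g B lam) {D : ℕ} (hD : 0 < D)
    (hF : IsWeilFamily p (Φ.e X) D lam B.deg) {b M R : ℕ} (hb : Fintype.card ι ≤ b)
    (hM : ∀ l, D * B.deg l ≤ M) (hR : D * (2 * Z.dim) ≤ R) :
    ∀ (n : ℕ) (z : W.H Z) (w t : ℕ) (μ : W.K), 0 < t → z ∈ W.gr Z w → z ∈ Eg g (frob Φ Z t) μ →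
      IsIntegral ℤ μ → IsIntegral ℤ (((p : W.K) ^ (Φ.e Z * t)) ^ w / μ) →
      ∀ I : Fin (n + 1) → ι, TZ p (Φ.e X) (Φ.e Z) lam B.deg μ t w (cnt I) →
        zm B n z I ∈ GZ Φ g Z X (2 * (b * (2 * (b * M + R) + 1) ^ b)) n := by
  set N := 2 * (b * (2 * (b * M + R) + 1) ^ b) with hN
  have hl0 : ∀ l, lam l ≠ 0 := by
    intro l h0
    exact el_ne_zero (Φ.e_pos X) hF l (Subtype.ext h0)
  intro n
  induction n using Nat.strong_induction_on with
  | _ n ih =>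
    intro z w t μ ht hzw hz hμ hμ' I hI
    by_cases hz0 : z = 0
    · rw [hz0, zm, map_zero, zero_mul]
      exact Subalgebra.zero_mem _
    have hw : w ≤ 2 * Z.dim := by
      by_contra hcon
      rw [W.gr_eq_bot Z _ (not_le.1 hcon)] at hzw
      exact hz0 ((Submodule.mem_bot _).1 hzw)
    rcases Nat.lt_or_ge N (n + 1) with hlt | hge
    · obtain ⟨hev, s, hs, hrel⟩ := hI
      have heX := Φ.e_pos X
      have heZ := Φ.e_pos Z
      obtain ⟨m, hm1, hm2, hm3, hm4⟩ := exists_subZ (R := R) (Φ.e_pos X) hD hF hb hM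
        (c := cnt I) (ν := μ ^ (Φ.e X * (2 * s))) (T := s * (Φ.e Z * t)) (w := w) (by positivity)
        (hμ.pow _) (by
          have h1 := hμ'.pow (Φ.e X * (2 * s))
          rw [div_pow, ← pow_mul, ← pow_mul] at h1
          rw [← pow_mul]
          rw [show Φ.e X * (2 * (s * (Φ.e Z * t)) * w) = Φ.e Z * t * w * (Φ.e X * (2 * s)) by ring]
          rwa [show Φ.e Z * t * (w * (Φ.e X * (2 * s))) = Φ.e Z * t * w * (Φ.e X * (2 * s)) by
            ring] at h1) (by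
          rw [mul_pow, ← pow_mul, ← pow_mul] at hrel
          rw [show 2 * (s * (Φ.e Z * t)) = Φ.e Z * t * (2 * s) by ring, hrel, ← pow_mul]
          congr 1
          ring) ((Nat.mul_le_mul_left D hw).trans hR) (by rw [sum_cnt_one]; exact hlt)
      obtain ⟨a, a', e, e', hperm, h1, h2⟩ := exists_subword I m hm1
      have ha : ∑ l, m l = a := by rw [← h1, sum_cnt_one]
      have ha' : ∑ l, (cnt I - m) l = a' := by rw [← h2, sum_cnt_one]
      have hlen : a + a' = n + 1 := by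
        have := hperm.length_eq
        simpa using this
      rw [sum_cnt_one] at hm3
      obtain ⟨a, rfl⟩ : ∃ r, a = r + 1 := ⟨a - 1, by omega⟩
      obtain ⟨a', rfl⟩ : ∃ r, a' = r + 1 := ⟨a' - 1, by omega⟩
      have hnd : (List.ofFn e ++ List.ofFn e').Nodup := hperm.nodup_iff.2 (List.nodup_finRange _)
      have hnd2 := List.nodup_append'.1 hnd
      have hI' : TZ p (Φ.e X) (Φ.e Z) lam B.deg μ t w (cnt (I ∘ e')) := by
        rw [h2]
        exact TZ_sub hl0 hm1 hm4 ⟨hev, s, hs, hrel⟩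
      rw [← h1] at hm4
      obtain ⟨J₁, hJ₁⟩ := hm4.1
      obtain ⟨ε, hε⟩ := zm_split B z I e e' hperm (J := J₁) (by rw [sum_cnt_nat, hJ₁]; ring)
      have h1gr : (1 : W.H Z) ∈ W.gr Z 0 := W.one_mem Z
      have h1E : (1 : W.H Z) ∈ Eg g (frob Φ Z 1) 1 := by
        have := ofFn_E Φ (g := g) (s := 1) (Z := Z) (m := 0) (fun _ => 1) (fun _ => 1)
          (fun i => i.elim0)
        rwa [List.ofFn_zero, List.prod_nil, Fin.prod_univ_zero] at this
      rw [hε]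
      refine Subalgebra.smul_mem _ (Subalgebra.mul_mem _
        (GZ.map (List.nodup_ofFn.1 hnd2.1) (ih a (by omega) 1 0 1 1 one_pos h1gr h1E
          isIntegral_one ?_ (I ∘ e) (TZ_one hm4)))
        (GZ.map (List.nodup_ofFn.1 hnd2.2.1) (ih a' (by omega) z w t μ ht hzw hz hμ hμ'
          (I ∘ e') hI'))) _
      rw [pow_zero, div_one]
      exact isIntegral_one
    · obtain ⟨s, j, hs, h1⟩ := zm_tS hB ht hz hzw hI
      apply Algebra.subset_adjoin
      refine ⟨n, id, s, j, _, hge, Function.injective_id, hs, h1, ?_⟩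
      rw [projZ_id, W.map_id]

end Pool.Agent.R940
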