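import Pool.Agent.R940.CMDefs
import Pool.Agent.R940.TExc
import Pool.Agent.R940.ZGen
import Pool.Agent.R940.HPig
import Pool.Agent.R940.HMain

/-!
# Tate classes on the products with the powers of a variety of CM type
-/

set_option linter.unusedVariables false
set_option linter.unusedSectionVars false

open CategoryTheory AlgebraicGeometry CategoryTheory.Limits TensorProduct

universe u v w

namespace Pool.Agent.R940

open Pool.Agent.H914 Pool.Agent.H447 Pool.Agent.W534 Pool.Agent.Y163 VarClass Obj WeilCohomology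
  Module

variable {k : Type u} [Field k] {𝒱 : VarClass k} {ops : CycleOps 𝒱}
  {W : WeilCohomology.{u, v} ops} {X Y Y' Z : 𝒱.Obj} {Γ : Type w} [Group Γ]
  {G : GaloisSystem W Γ}

section Agree

variable {K : Type v} [Field K] {ψ φ θ ψ' φ' : Γ → K}

lemma AgreeFin.refl (ψ : Γ → K) : AgreeFin ψ ψ := ⟨⊤, inferInstance, fun g _ => rfl⟩

lemma AgreeFin.symm (h : AgreeFin ψ φ) : AgreeFin φ ψ := by
  obtain ⟨Δ, hΔ, h1⟩ := h
  exact ⟨Δ, hΔ, fun g hg => (h1 g hg).symm⟩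

lemma AgreeFin.trans (h : AgreeFin ψ φ) (h' : AgreeFin φ θ) : AgreeFin ψ θ := by
  obtain ⟨Δ, hΔ, h1⟩ := h
  obtain ⟨Δ', hΔ', h2⟩ := h'
  exact ⟨Δ ⊓ Δ', inferInstance, fun g hg => (h1 g hg.1).trans (h2 g hg.2)⟩

lemma AgreeFin.mul (h : AgreeFin ψ φ) (h' : AgreeFin ψ' φ') : AgreeFin (ψ * ψ') (φ * φ') := by
  obtain ⟨Δ, hΔ, h1⟩ := h
  obtain ⟨Δ', hΔ', h2⟩ := h'
  refine ⟨Δ ⊓ Δ', inferInstance, fun g hg => ?_⟩
  rw [Pi.mul_apply, Pi.mul_apply, h1 g hg.1, h2 g hg.2]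

lemma AgreeFin.cancel (h : AgreeFin (ψ * ψ') (φ * φ')) (h' : AgreeFin ψ φ)
    (h0 : ∀ g, φ g ≠ 0) : AgreeFin ψ' φ' := by
  obtain ⟨Δ, hΔ, h1⟩ := h
  obtain ⟨Δ', hΔ', h2⟩ := h'
  refine ⟨Δ ⊓ Δ', inferInstance, fun g hg => ?_⟩
  have h3 := h1 g hg.1
  rw [Pi.mul_apply, Pi.mul_apply, h2 g hg.2] at h3
  exact mul_left_cancel₀ (h0 g) h3

end Agree

section Eigen

lemma IsEigen.map {ψ : Γ → W.K} {y : W.H Y'} (h : IsEigen G Y' ψ y) (f : Y ⟶ Y') :
    IsEigen G Y ψ (W.map f y) := by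
  obtain ⟨Δ, hΔ, h1⟩ := h
  obtain ⟨Δ', hΔ', h2⟩ := G.map f
  refine ⟨Δ ⊓ Δ', inferInstance, fun g hg => ?_⟩
  rw [h2 g hg.2, h1 g hg.1, map_smul]

lemma IsEigen.mul {ψ φ : Γ → W.K} {y y' : W.H Y} (h : IsEigen G Y ψ y) (h' : IsEigen G Y φ y') :
    IsEigen G Y (ψ * φ) (y * y') := by
  obtain ⟨Δ, hΔ, h1⟩ := h
  obtain ⟨Δ', hΔ', h2⟩ := h'
  refine ⟨Δ ⊓ Δ', inferInstance, fun g hg => ?_⟩
  rw [map_mul, h1 g hg.1, h2 g hg.2, smul_mul_smul_comm, Pi.mul_apply]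

lemma IsEigen.agree {ψ φ : Γ → W.K} {y : W.H Y} (h : IsEigen G Y ψ y) (h' : AgreeFin ψ φ) :
    IsEigen G Y φ y := by
  obtain ⟨Δ, hΔ, h1⟩ := h
  obtain ⟨Δ', hΔ', h2⟩ := h'
  refine ⟨Δ ⊓ Δ', inferInstance, fun g hg => ?_⟩
  rw [h1 g hg.1, h2 g hg.2]

lemma IsEigen.one : IsEigen G Y (1 : Γ → W.K) (1 : W.H Y) :=
  ⟨⊤, inferInstance, fun g _ => by rw [map_one, Pi.one_apply, one_smul]⟩

lemma tate_iff {j : ℕ} {c : W.H Y} : c ∈ tateSub G Y j ↔
    c ∈ W.gr Y (2 * j) ∧ IsEigen G Y (fun g => (G.χ g : W.K) ^ j) c := Iff.rfl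

end Eigen

variable {ι : Type v} [Fintype ι] [DecidableEq ι] {B : HBasis W X ι} {ψ : ι → Γ → W.K}

section Mon

/-- The monomials are eigenvectors. -/
lemma mon_eigen (hB : ∀ l, IsEigen G X (ψ l) (B.b l)) : ∀ (n : ℕ) (I : Fin (n + 1) → ι),
    IsEigen G (pw X n) (∏ j, ψ (I j)) (mon B n I)
  | 0, I => by
    rw [Fin.prod_univ_one]
    exact hB (I 0)
  | n + 1, I => by
    rw [Fin.prod_univ_succ]
    exact IsEigen.mul ((hB (I 0)).map (fst X (pw X n)))
      ((mon_eigen hB n (Fin.tail I)).map (snd X (pw X n)))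

lemma zm_eigen (hB : ∀ l, IsEigen G X (ψ l) (B.b l)) (n : ℕ) {φ : Γ → W.K} {z : W.H Z}
    (hz : IsEigen G Z φ z) (I : Fin (n + 1) → ι) :
    IsEigen G (Z.prod (pw X n)) (φ * ∏ j, ψ (I j)) (zm B n z I) :=
  IsEigen.mul (hz.map _) ((mon_eigen hB n I).map _)

lemma zm_zero' (B : HBasis W X ι) (n : ℕ) (I : Fin (n + 1) → ι) : zm B n (0 : W.H Z) I = 0 := by
  rw [zm, map_zero, zero_mul]

/-- The coordinates are unique. -/
lemma zm_unique (B : HBasis W X ι) {n : ℕ} {z z' : (Fin (n + 1) → ι) → W.H Z}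
    (h : ∑ I, zm B n (z I) I = ∑ I, zm B n (z' I) I) : z = z' := by
  classical
  let ζ := Module.Free.chooseBasis W.K (W.H Z)
  obtain ⟨β, hβ⟩ := exists_prodBasis B n ζ
  funext I
  apply ζ.repr.injective
  ext m
  rw [← repr_prod B hβ z m I, ← repr_prod B hβ z' m I, h]

lemma zm_ne_zero (B : HBasis W X ι) {n : ℕ} {z : W.H Z} (hz : z ≠ 0) (I : Fin (n + 1) → ι) :
    zm B n z I ≠ 0 := by
  intro h
  have h1 : (Pi.single I z : (Fin (n + 1) → ι) → W.H Z) = fun _ => 0 := by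
    apply zm_unique B
    rw [Finset.sum_eq_single I]
    · rw [Pi.single_eq_same, h]
      symm
      exact Finset.sum_eq_zero fun J _ => zm_zero' B n J
    · intro J _ hJ
      rw [Pi.single_eq_of_ne hJ, zm_zero']
    · intro h; exact absurd (Finset.mem_univ _) h
  apply hz
  have h2 := congrFun h1 I
  rwa [Pi.single_eq_same] at h2

lemma mon_ne_zero (B : HBasis W X ι) (n : ℕ) (I : Fin (n + 1) → ι) : mon B n I ≠ 0 := by
  obtain ⟨b, hb⟩ := exists_monBasis B n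
  rw [← hb]
  exact b.ne_zero I

/-- Homogeneous coordinates. -/
lemma exists_coord_gr (B : HBasis W X ι) {n d : ℕ} {y : W.H (Z.prod (pw X n))}
    (hy : y ∈ W.gr (Z.prod (pw X n)) d) :
    ∃ z : (Fin (n + 1) → ι) → W.H Z, y = ∑ I, zm B n (z I) I ∧
      ∀ I, z I = 0 ∨ ∃ w, w + ∑ l, B.deg l * cnt I l = d ∧ z I ∈ W.gr Z w := by
  classical
  obtain ⟨z, hz⟩ := exists_coord B n y
  let z' : (Fin (n + 1) → ι) → W.H Z := fun I =>
    if ∑ l, B.deg l * cnt I l ≤ d then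
      H914.proj (W.isInternal Z) (d - ∑ l, B.deg l * cnt I l) (z I) else 0
  have key : ∀ (I : Fin (n + 1) → ι) (x : W.H Z),
      H914.proj (W.isInternal (Z.prod (pw X n))) d (zm B n x I) =
        zm B n (if ∑ l, B.deg l * cnt I l ≤ d then
          H914.proj (W.isInternal Z) (d - ∑ l, B.deg l * cnt I l) x else 0) I := by
    intro I x
    refine gr_induction (W.isInternal Z) (p := fun x =>
      H914.proj (W.isInternal (Z.prod (pw X n))) d (zm B n x I) =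
        zm B n (if ∑ l, B.deg l * cnt I l ≤ d then
          H914.proj (W.isInternal Z) (d - ∑ l, B.deg l * cnt I l) x else 0) I) ?_ ?_ x
    · intro i a ha
      have h1 := zm_gr B n ha I
      by_cases hi : i + ∑ l, B.deg l * cnt I l = d
      · rw [if_pos (by omega), ← hi, proj_same _ h1, Nat.add_sub_cancel, proj_same _ ha]
      · rw [proj_ne _ h1 hi]
        split_ifs with h2
        · rw [proj_ne _ ha (by omega), zm_zero']
        · rw [zm_zero']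
    · intro a b ha hb
      rw [zm_add, map_add, ha, hb, ← zm_add]
      congr 1
      split_ifs
      · rw [map_add]
      · rw [add_zero]
  refine ⟨z', ?_, fun I => ?_⟩
  · rw [← proj_same (W.isInternal (Z.prod (pw X n))) hy, hz, map_sum]
    exact Finset.sum_congr rfl fun I _ => key I (z I)
  · by_cases h : ∑ l, B.deg l * cnt I l ≤ d
    · right
      refine ⟨d - ∑ l, B.deg l * cnt I l, by omega, ?_⟩
      have h1 : z' I = H914.proj (W.isInternal Z) (d - ∑ l, B.deg l * cnt I l) (z I) := if_pos h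
      rw [h1]
      exact proj_mem _ _ _
    · left
      exact if_neg h

/-- The coordinates of a Tate class are eigenvectors. -/
lemma coord_eigen (hB : ∀ l, IsEigen G X (ψ l) (B.b l)) {n J : ℕ}
    {z : (Fin (n + 1) → ι) → W.H Z}
    (hy : IsEigen G (Z.prod (pw X n)) (fun g => (G.χ g : W.K) ^ J) (∑ I, zm B n (z I) I))
    (I : Fin (n + 1) → ι) : ∃ φ : Γ → W.K, IsEigen G Z φ (z I) ∧
      AgreeFin (φ * ∏ j, ψ (I j)) (fun g => (G.χ g : W.K) ^ J) := by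
  classical
  obtain ⟨Δ, hΔ, h1⟩ := hy
  obtain ⟨Δ₁, hΔ₁, h2⟩ := G.map (fst Z (pw X n))
  obtain ⟨Δ₂, hΔ₂, h3⟩ := G.map (snd Z (pw X n))
  choose D hD h4 using fun I : Fin (n + 1) → ι => mon_eigen (G := G) hB n I
  have hfin : (⨅ I, D I).FiniteIndex := Subgroup.finiteIndex_iInf hD
  have hne : ∀ (J : Fin (n + 1) → ι), ∀ g ∈ D J, (∏ j, ψ (J j)) g ≠ 0 := by
    intro J g hg h0
    have h5 := h4 J g hg
    rw [h0, zero_smul] at h5
    exact mon_ne_zero B n J ((G.act (pw X n) g).injective (by rw [h5, map_zero]))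
  have key : ∀ g ∈ Δ ⊓ Δ₁ ⊓ Δ₂ ⊓ ⨅ I, D I, ∀ I, (∏ j, ψ (I j)) g • G.act Z g (z I) =
      (G.χ g : W.K) ^ J • z I := by
    intro g hg
    have h5 : ∑ I, zm B n ((∏ j, ψ (I j)) g • G.act Z g (z I)) I =
        ∑ I, zm B n ((G.χ g : W.K) ^ J • z I) I := by
      have h6 := h1 g hg.1.1.1
      rw [map_sum, Finset.smul_sum] at h6
      calc _ = ∑ I, G.act (Z.prod (pw X n)) g (zm B n (z I) I) := by
            refine Finset.sum_congr rfl fun I _ => ?_
            rw [zm, zm, map_mul (G.act (Z.prod (pw X n)) g), h2 g hg.1.1.2, h3 g hg.1.2,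
              h4 I g ((Subgroup.mem_iInf.1 hg.2) I), map_smul, map_smul, smul_mul_assoc,
              mul_smul_comm]
        _ = _ := h6
        _ = _ := Finset.sum_congr rfl fun I _ => (zm_smul _ _ _ _ _).symm
    exact congrFun (zm_unique B h5)
  refine ⟨fun g => (G.χ g : W.K) ^ J * ((∏ j, ψ (I j)) g)⁻¹, ⟨Δ ⊓ Δ₁ ⊓ Δ₂ ⊓ ⨅ I, D I,
    inferInstance, fun g hg => ?_⟩, ⟨D I, hD I, fun g hg => ?_⟩⟩
  · have h5 := hne I g ((Subgroup.mem_iInf.1 hg.2) I)
    have h6 := key g hg I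
    beta_reduce
    rw [mul_comm, mul_smul, ← h6, smul_smul, inv_mul_cancel₀ h5, one_smul]
  · rw [Pi.mul_apply, mul_assoc, inv_mul_cancel₀ (hne I g hg), mul_one]

end Mon

section Weights

variable (HT : HodgeTate G)

lemma occurs_b (hB : ∀ l, IsEigen G X (ψ l) (B.b l)) (l : ι) : Occurs G X (B.deg l) (ψ l) :=
  ⟨B.b l, B.mem l, B.b.ne_zero l, hB l⟩

lemma occurs_mon (hB : ∀ l, IsEigen G X (ψ l) (B.b l)) (n : ℕ) (I : Fin (n + 1) → ι) :
    Occurs G (pw X n) (∑ j, B.deg (I j)) (∏ j, ψ (I j)) :=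
  ⟨mon B n I, mon_gr B n I, mon_ne_zero B n I, mon_eigen hB n I⟩

lemma wt_mon (hB : ∀ l, IsEigen G X (ψ l) (B.b l)) (s : HT.S) : ∀ (n : ℕ) (I : Fin (n + 1) → ι),
    HT.wt s (∏ j, ψ (I j)) = ∑ j, HT.wt s (ψ (I j))
  | 0, I => by rw [Fin.prod_univ_one, Fin.sum_univ_one]
  | n + 1, I => by
    rw [Fin.prod_univ_succ, Fin.sum_univ_succ]
    have h1 := HT.mul s (occurs_b hB (I 0)) (occurs_mon hB n (Fin.tail I))
    rw [wt_mon hB s n (Fin.tail I)] at h1
    exact h1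

/-- The algebra generated by the Tate classes pulled back from small powers. -/
noncomputable def GT (G : GaloisSystem W Γ) (Z X : 𝒱.Obj) (N n : ℕ) :
    Subalgebra W.K (W.H (Z.prod (pw X n))) :=
  Algebra.adjoin W.K {c | IsPulledFrom W Z X (IsGalTate G) N n c}

lemma GT.map {N a n : ℕ} {e : Fin (a + 1) → Fin (n + 1)} (he : Function.Injective e)
    {x : W.H (Z.prod (pw X a))} (hx : x ∈ GT G Z X N a) :
    W.map (projZ Z X e) x ∈ GT G Z X N n := by
  have h1 : (GT G Z X N a).map (W.map (projZ Z X e)) ≤ GT G Z X N n := by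
    rw [GT, AlgHom.map_adjoin, Algebra.adjoin_le_iff]
    rintro _ ⟨c, ⟨m, e', t, hm, he', ht, rfl⟩, rfl⟩
    apply Algebra.subset_adjoin
    refine ⟨m, e ∘ e', t, hm, he.comp he', ht, ?_⟩
    rw [prZ_eq, prZ_eq, ← W.map_comp, projZ_comp]
  exact h1 ⟨x, hx, rfl⟩

lemma mem_GT {N n : ℕ} (hN : n + 1 ≤ N) {j : ℕ} {c : W.H (Z.prod (pw X n))}
    (hc : c ∈ tateSub G (Z.prod (pw X n)) j) : c ∈ GT G Z X N n := by
  apply Algebra.subset_adjoin
  refine ⟨n, id, c, hN, Function.injective_id, ⟨j, hc⟩, ?_⟩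
  rw [prZ_eq, projZ_id, W.map_id]

include HT in
/-- **The key step.** -/
theorem gkey (hB : ∀ l, IsEigen G X (ψ l) (B.b l)) {b Bd R N : ℕ}
    (hb : Fintype.card ι ≤ b) (hBd : ∀ l, B.deg l ≤ Bd) (hR : 2 * Z.dim ≤ R)
    (hN : N = b * (2 * (b * Bd + R) + 1) ^ b) :
    ∀ (n : ℕ) (I : Fin (n + 1) → ι) (z : W.H Z) (w J : ℕ) (φ : Γ → W.K), z ∈ W.gr Z w →
      IsEigen G Z φ z → w + ∑ l, B.deg l * cnt I l = 2 * J →
      AgreeFin (φ * ∏ j, ψ (I j)) (fun g => (G.χ g : W.K) ^ J) → zm B n z I ∈ GT G Z X N n := by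
  intro n
  induction n using Nat.strong_induction_on with
  | _ n ih =>
  intro I z w J φ hz hφ hw hag
  by_cases hz0 : z = 0
  · rw [hz0, zm_zero']
    exact Subalgebra.zero_mem _
  have hocc : Occurs G Z w φ := ⟨z, hz, hz0, hφ⟩
  rcases Nat.lt_or_ge N (n + 1) with hlt | hge
  · -- the weights
    have hsum : ∀ s : HT.S, HT.wt s φ + ∑ j, HT.wt s (ψ (I j)) = J := by
      intro s
      rw [← wt_mon HT hB s n I, ← HT.mul s hocc (occurs_mon hB n I), HT.agree s _ _ hag,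
        HT.twist]
    have hwdim : w ≤ 2 * Z.dim := by
      by_contra hcon
      rw [W.gr_eq_bot Z _ (by omega)] at hz
      exact hz0 ((Submodule.mem_bot _).1 hz)
    have hdegI : ∀ {r : ℕ} (K : Fin (r + 1) → ι), ((∑ j, B.deg (K j) : ℕ) : ℤ) =
        ∑ j, (B.deg (K j) : ℤ) := fun K => by push_cast; rfl
    have hrow : ∀ s : HT.S, |∑ l, (2 * HT.wt s (ψ l) - B.deg l) * (cnt I l : ℤ)| ≤ R := by
      intro s
      obtain ⟨h1, h2⟩ := HT.bound s hocc
      have h5 : ∑ l, (2 * HT.wt s (ψ l) - B.deg l) * (cnt I l : ℤ) =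
          2 * ∑ j, HT.wt s (ψ (I j)) - ∑ j, (B.deg (I j) : ℤ) := by
        rw [Finset.mul_sum, ← Finset.sum_sub_distrib, sum_cnt I (fun l =>
          2 * HT.wt s (ψ l) - (B.deg l : ℤ))]
        exact Finset.sum_congr rfl fun l _ => by rw [nsmul_eq_mul, mul_comm]
      have h6 := hsum s
      have h7 : (w : ℤ) + ∑ j, (B.deg (I j) : ℤ) = 2 * J := by
        rw [← sum_cnt_nat] at hw
        exact_mod_cast hw
      have h8 : (w : ℤ) ≤ R := by exact_mod_cast hwdim.trans hR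
      rw [h5, abs_le]
      constructor <;> linarith
    have hrowB : ∀ (s : HT.S) (l : ι), |2 * HT.wt s (ψ l) - (B.deg l : ℤ)| ≤ Bd := by
      intro s l
      obtain ⟨h1, h2⟩ := HT.bound s (occurs_b hB l)
      have h4 : (B.deg l : ℤ) ≤ Bd := by exact_mod_cast hBd l
      rw [abs_le]
      constructor <;> linarith
    obtain ⟨m, hm1, hm2, hm3, hm4⟩ := exists_sub_fam (fun (s : HT.S) l =>
      2 * HT.wt s (ψ l) - (B.deg l : ℤ)) hb hrowB (cnt I) hrow
      (by rw [sum_cnt_one, ← hN]; exact hlt)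
    obtain ⟨a, a', e, e', hperm, h1, h2⟩ := exists_subword I m hm1
    have ha : ∑ l, m l = a := by rw [← h1, sum_cnt_one]
    have ha' : ∑ l, (cnt I - m) l = a' := by rw [← h2, sum_cnt_one]
    have hlen : a + a' = n + 1 := by
      have := hperm.length_eq
      simpa using this
    rw [sum_cnt_one] at hm3
    obtain ⟨a, rfl⟩ : ∃ r, a = r + 1 := ⟨a - 1, by omega⟩
    obtain ⟨a', rfl⟩ : ∃ r, a' = r + 1 := ⟨a' - 1, by omega⟩
    have hnd : (List.ofFn e ++ List.ofFn e').Nodup := hperm.nodup_iff.2 (List.nodup_finRange _)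
    have hnd2 := List.nodup_append'.1 hnd
    -- the weights of the first factor
    have hbal : ∀ s : HT.S, 2 * ∑ j, HT.wt s (ψ ((I ∘ e) j)) =
        ∑ j, (B.deg ((I ∘ e) j) : ℤ) := by
      intro s
      have h3 := hm4 s
      have h5 : ∑ l, (2 * HT.wt s (ψ l) - (B.deg l : ℤ)) * (m l : ℤ) =
          2 * ∑ j, HT.wt s (ψ ((I ∘ e) j)) - ∑ j, (B.deg ((I ∘ e) j) : ℤ) := by
        rw [Finset.mul_sum, ← Finset.sum_sub_distrib, sum_cnt (I ∘ e) (fun l =>
          2 * HT.wt s (ψ l) - (B.deg l : ℤ)), h1]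
        exact Finset.sum_congr rfl fun l _ => by rw [nsmul_eq_mul, mul_comm]
      linarith
    obtain ⟨s₀⟩ := HT.nonempty
    obtain ⟨J', hJ'⟩ : ∃ J', ∑ j, B.deg ((I ∘ e) j) = 2 * J' := by
      have h3 := hbal s₀
      refine ⟨(∑ j, HT.wt s₀ (ψ ((I ∘ e) j))).toNat, ?_⟩
      have h4 : 0 ≤ ∑ j, HT.wt s₀ (ψ ((I ∘ e) j)) :=
        Finset.sum_nonneg fun j _ => (HT.bound s₀ (occurs_b hB _)).1
      have h5 : ((∑ j, B.deg ((I ∘ e) j) : ℕ) : ℤ) = ∑ j, (B.deg ((I ∘ e) j) : ℤ) := by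
        push_cast; rfl
      omega
    have hwtJ : ∀ s : HT.S, ∑ j, HT.wt s (ψ ((I ∘ e) j)) = J' := by
      intro s
      have h3 := hbal s
      have h5 : ((∑ j, B.deg ((I ∘ e) j) : ℕ) : ℤ) = ∑ j, (B.deg ((I ∘ e) j) : ℤ) := by
        push_cast; rfl
      rw [← h5, hJ'] at h3
      push_cast at h3
      linarith
    have hsplit : ∀ (f : ι → ℤ), ∑ j, f (I j) = ∑ j, f ((I ∘ e) j) + ∑ j, f ((I ∘ e') j) := by
      intro f
      rw [sum_cnt I f, sum_cnt (I ∘ e) f, sum_cnt (I ∘ e') f, h1, h2, ← Finset.sum_add_distrib]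
      refine Finset.sum_congr rfl fun l _ => ?_
      rw [← add_smul, Pi.sub_apply, Nat.add_sub_cancel' (hm1 l)]
    have hsplitP : ∏ j, ψ (I j) = (∏ j, ψ ((I ∘ e) j)) * ∏ j, ψ ((I ∘ e') j) := by
      rw [prod_cnt I ψ, prod_cnt (I ∘ e) ψ, prod_cnt (I ∘ e') ψ, h1, h2,
        ← Finset.prod_mul_distrib]
      refine Finset.prod_congr rfl fun l _ => ?_
      rw [← pow_add, Pi.sub_apply, Nat.add_sub_cancel' (hm1 l)]
    have hA : AgreeFin (∏ j, ψ ((I ∘ e) j)) (fun g => (G.χ g : W.K) ^ J') := by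
      refine HT.tate (Y := pw X a) (j := J') ?_ fun s => ?_
      · rw [← hJ']
        exact occurs_mon hB a (I ∘ e)
      · rw [wt_mon HT hB s a (I ∘ e)]
        exact hwtJ s
    -- the second factor
    have hJJ : J' ≤ J := by
      have h3 := hsum s₀
      have h4 := hsplit (fun l => HT.wt s₀ (ψ l))
      have h5 := hwtJ s₀
      have h6 : 0 ≤ ∑ j, HT.wt s₀ (ψ ((I ∘ e') j)) :=
        Finset.sum_nonneg fun j _ => (HT.bound s₀ (occurs_b hB _)).1
      have h7 := (HT.bound s₀ hocc).1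
      simp only [Function.comp_apply] at h4 h5 h6
      omega
    have hdeg2 : w + ∑ l, B.deg l * cnt (I ∘ e') l = 2 * (J - J') := by
      have h3 := hsplit (fun l => (B.deg l : ℤ))
      rw [← sum_cnt_nat] at hw ⊢
      have h4 : (w : ℤ) + ∑ j, (B.deg (I j) : ℤ) = 2 * J := by exact_mod_cast hw
      have h5 : (∑ j, (B.deg ((I ∘ e) j) : ℤ)) = 2 * J' := by exact_mod_cast hJ'
      zify [hJJ]
      simp only [Function.comp_apply] at h3 h5 ⊢
      linarith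
    have hA' : AgreeFin (φ * ∏ j, ψ ((I ∘ e') j)) (fun g => (G.χ g : W.K) ^ (J - J')) := by
      have h3 : AgreeFin ((∏ j, ψ ((I ∘ e) j)) * (φ * ∏ j, ψ ((I ∘ e') j)))
          ((fun g => (G.χ g : W.K) ^ J') * (fun g => (G.χ g : W.K) ^ (J - J'))) := by
        have h4 : (∏ j, ψ ((I ∘ e) j)) * (φ * ∏ j, ψ ((I ∘ e') j)) = φ * ∏ j, ψ (I j) := by
          rw [hsplitP]; ring
        have h5 : ((fun g => (G.χ g : W.K) ^ J') * (fun g => (G.χ g : W.K) ^ (J - J')) :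
            Γ → W.K) = fun g => (G.χ g : W.K) ^ J := by
          funext g
          rw [Pi.mul_apply, ← pow_add, Nat.add_sub_cancel' hJJ]
        rw [h4, h5]
        exact hag
      exact h3.cancel hA fun g => pow_ne_zero _ (Units.ne_zero _)
    obtain ⟨ε, hε⟩ := zm_split B z I e e' hperm hJ'
    rw [hε]
    refine Subalgebra.smul_mem _ (Subalgebra.mul_mem _ ?_ ?_) _
    · refine GT.map (List.nodup_ofFn.1 hnd2.1) (ih a (by omega) (I ∘ e) 1 0 J' 1
        (W.one_mem Z) IsEigen.one ?_ ?_)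
      · rw [← sum_cnt_nat, zero_add]
        exact hJ'
      · rw [one_mul]
        exact hA
    · exact GT.map (List.nodup_ofFn.1 hnd2.2.1) (ih a' (by omega) (I ∘ e') z w (J - J') φ hz hφ
        hdeg2 hA')
  · refine mem_GT hge (j := J) (tate_iff.2 ⟨?_, (zm_eigen hB n hφ I).agree hag⟩)
    rw [← hw]
    exact zm_gr B n hz I

end Weights

end Pool.Agent.R940
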