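import Pool.Agent.R940.YLaw
import Pool.Agent.R940.DFin

/-!
# The excess law for homological and numerical equivalence on products with powers
-/

set_option linter.unusedVariables false
set_option linter.unusedSectionVars false

open CategoryTheory AlgebraicGeometry CategoryTheory.Limits TensorProduct

universe u v

namespace Pool.Agent.R940

open Pool.Agent.H914 Pool.Agent.H447 Pool.Agent.W534 Pool.Agent.Y163 VarClass Obj WeilCohomology
  Module

variable {k : Type u} [Field k] {𝒱 : VarClass k} {ops : CycleOps 𝒱}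
  {W : WeilCohomology.{u, v} ops} {X Y Z Z' U S : 𝒱.Obj}

/-- A numerically trivial class is orthogonal to the span of the algebraic classes. -/
lemma orth_of_num {j l : ℕ} (hl : U.dim = j + l) {z : U.Cycles} (hz : U.IsCyc j z)
    (hnum : ∀ w, U.IsCyc (U.dim - j) w → U.V.degCycle (ops.mul z w) = 0) :
    ∀ g ∈ spanCycles W U l, W.tr U (W.cl U z * g) = 0 := by
  intro g hg
  induction hg using Submodule.span_induction with
  | mem x hx =>
    obtain ⟨r, hr, w, hw, rfl⟩ := hx
    obtain rfl : r = l := by exact_mod_cast hr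
    rw [tr_mul_cl hz hw hl.symm, hnum w (by rwa [show U.dim - j = r by omega]), Rat.cast_zero]
  | zero => rw [mul_zero, map_zero]
  | add x y _ _ hx hy => rw [mul_add, map_add, hx, hy, add_zero]
  | smul a x _ hx => rw [mul_smul_comm, map_smul, hx, smul_zero]

/-- A numerically trivial class of `Y` gives one on `U × Y`. -/
lemma exists_perp_prod {E : U.Cycles} (hE : U.IsCyc 1 E)
    (hE2 : W.tr U (W.cl U E ^ U.dim) ≠ 0) {m j : ℕ} (hm : m ≤ U.dim) (hj : j ≤ Y.dim)
    (h : (perpS (spanS W)).T Y j ≠ ⊥) : (perpS (spanS W)).T (U.prod Y) (m + j) ≠ ⊥ := by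
  obtain ⟨m', hm'⟩ := Nat.exists_eq_add_of_le hm
  obtain ⟨c, hc, hc0⟩ := (Submodule.ne_bot_iff _).1 h
  have hrec : W.push (snd U Y) (W.map (fst U Y) (W.cl U E ^ m') *
      (W.map (fst U Y) (W.cl U E ^ m) * W.map (snd U Y) c)) =
      W.tr U (W.cl U E ^ U.dim) • c := by
    rw [← mul_assoc, ← map_mul, ← pow_add, push_snd, show m' + m = U.dim by omega]
  refine (Submodule.ne_bot_iff _).2
    ⟨W.map (fst U Y) (W.cl U E ^ m) * W.map (snd U Y) c, ?_, fun h0 => ?_⟩
  · have h1 := (perpS (spanS W)).cl_mul (ops.pull_mem (fst U Y)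
      (divPow_fund_mem (ops := ops) hE m)) ((perpS (spanS W)).map (snd U Y) hc)
    rwa [W.cl_pull, cl_divPow_fund] at h1
  · rw [h0, mul_zero, map_zero] at hrec
    exact hc0 ((smul_eq_zero.1 hrec.symm).resolve_left hE2)

lemma perp_ne_iso (e : X ≅ Y) {j : ℕ} (h : (perpS (spanS W)).T Y j ≠ ⊥) :
    (perpS (spanS W)).T X j ≠ ⊥ := by
  obtain ⟨c, hc, hc0⟩ := (Submodule.ne_bot_iff _).1 h
  refine (Submodule.ne_bot_iff _).2 ⟨W.map e.hom c, (perpS (spanS W)).map e.hom hc,
    fun h0 => hc0 ?_⟩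
  have h1 : W.map e.inv (W.map e.hom c) = c := by
    rw [← W.map_comp, e.inv_hom_id, W.map_id]
  rw [← h1, h0, map_zero]

/-- A failure of the conjecture for `Z × X ^ (κ + 1)` shows up near the middle dimension of
`Z × X ^ (2 κ + 2)`. -/
theorem exists_perp_sq {D : X.Cycles} (hD : X.IsCyc 1 D) (htr : W.tr X (W.cl X D ^ X.dim) ≠ 0)
    {κ : ℕ} (h : ¬ HomEqNum W (Z.prod (pw X κ))) :
    ∃ i, i ≤ Z.dim ∧
      (perpS (spanS W)).T (Z.prod (Pool.Agent.Y163.sq X κ)) ((κ + 1) * X.dim + i) ≠ ⊥ := by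
  unfold HomEqNum at h
  push Not at h
  obtain ⟨j, hj, z, hz, hnum, hz0⟩ := h
  obtain ⟨l, hl⟩ := Nat.exists_eq_add_of_le hj
  have hne : (perpS (spanS W)).T (Z.prod (pw X κ)) j ≠ ⊥ := by
    refine (Submodule.ne_bot_iff _).2 ⟨W.cl _ z, ⟨mem_span_cl hz, fun l' hl' a ha => ?_⟩, hz0⟩
    obtain rfl : l' = l := by omega
    exact orth_of_num hl hz hnum a ha
  obtain ⟨E', hE', hE2⟩ := exists_big hD htr κ
  have hdU : (pw X κ).dim = (κ + 1) * X.dim := by rw [dim_pw]
  have hj' : j ≤ Z.dim + (pw X κ).dim := by rw [dim_prod] at hj; exact hj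
  have e : Z.prod (Pool.Agent.Y163.sq X κ) ≅ (pw X κ).prod (Z.prod (pw X κ)) :=
    (assocIso Z (pw X κ) (pw X κ)).symm ≪≫
      prodIso (swapIso Z (pw X κ)) (Iso.refl _) ≪≫
      assocIso (pw X κ) Z (pw X κ)
  have hgo : ∀ i m, i ≤ Z.dim → m ≤ (pw X κ).dim → m + j = (κ + 1) * X.dim + i →
      (perpS (spanS W)).T (Z.prod (Pool.Agent.Y163.sq X κ)) ((κ + 1) * X.dim + i) ≠ ⊥ := by
    intro i m hi hm hmj
    have h1 := exists_perp_prod hE' hE2 hm hj hne
    rw [hmj] at h1
    exact perp_ne_iso e h1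
  by_cases hjd : j ≤ (pw X κ).dim
  · exact ⟨0, Nat.zero_le _, hgo 0 ((pw X κ).dim - j) (Nat.zero_le _) (by omega) (by omega)⟩
  · exact ⟨j - (pw X κ).dim, by omega,
      hgo (j - (pw X κ).dim) 0 (by omega) (Nat.zero_le _) (by omega)⟩

/-- **The excess law for homological and numerical equivalence.** -/
theorem d_excess (hX : SignStd W X) (hZ : SignStd W Z) {D : X.Cycles} (hD : X.IsCyc 1 D)
    (hbig : Big ops X D) :
    (∀ n, 0 < numRank ops (Y163.sq X n) ((n + 1) * X.dim)) ∧
    (∀ i n, i ≤ Z.dim →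
      numRank ops (Z.prod (Y163.sq X n)) ((n + 1) * X.dim + i) ≤
        algRank W (Z.prod (Y163.sq X n)) ((n + 1) * X.dim + i) ∧
      numRank ops (Z.prod (Y163.sq X n)) ((n + 1) * X.dim + i) ≤
        betti W Z * numRank ops (Y163.sq X n) ((n + 1) * X.dim)) ∧
    ∀ κ, HomEqNum W (Z.prod (pw X κ)) ∨
      ∃ i, i ≤ Z.dim ∧ ∀ n : ℕ, 0 < n →
        numRank ops (Z.prod (Y163.sq X n)) ((n + 1) * X.dim + i) +
          (1 - (κ + 1) * (betti W X : ℝ) ^ (2 * κ + 4) * Real.log (n + 2) / n) *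
            numRank ops (Y163.sq X n) ((n + 1) * X.dim) ≤
          algRank W (Z.prod (Y163.sq X n)) ((n + 1) * X.dim + i) := by
  set L := AlgebraicClosure W.K with hL
  have hcl : IsAlgClosed (baseW W L).K := inferInstanceAs (IsAlgClosed (AlgebraicClosure W.K))
  have hparX := par_mem_base (W := W) (X := X) L (par_of_sign hX)
  have hparZ := par_mem_base (W := W) (X := Z) L (par_of_sign hZ)
  have htr : (baseW W L).tr X ((baseW W L).cl X D ^ X.dim) ≠ 0 := hbig.tr hD
  have hH : 0 < finrank (baseW W L).K ((baseW W L).H X) := by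
    have : Nontrivial ((baseW W L).H X) := by
      by_contra hcon
      rw [not_nontrivial_iff_subsingleton] at hcon
      apply htr
      rw [Subsingleton.elim ((baseW W L).cl X D ^ X.dim) 0, map_zero]
    exact finrank_pos
  have hdim : ∀ n i, i ≤ Z.dim → (n + 1) * X.dim + i + ((n + 1) * X.dim + (Z.dim - i)) =
      (Z.prod (Pool.Agent.Y163.sq X n)).dim := by
    intro n i h
    rw [dim_prod, dim_sq]
    omega
  have hr : ∀ i n, i ≤ Z.dim →
      numRank ops (Z.prod (Pool.Agent.Y163.sq X n)) ((n + 1) * X.dim + i) =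
      kRank (baseW W L) (Z.prod (Pool.Agent.Y163.sq X n)) ((n + 1) * X.dim + i)
        ((n + 1) * X.dim + (Z.dim - i)) := by
    intro i n hi
    have h1 := hdim n i hi
    rw [numRank_eq (W := baseW W L) (by omega)]
    congr 1
    omega
  refine ⟨fun n => ?_, fun i n hi => ⟨?_, ?_⟩, fun κ => ?_⟩
  · rw [numRank_sq (W := baseW W L)]
    have h1 := mrank_growth (W := baseW W L) hparX n
    apply Nat.pos_of_ne_zero
    intro h0
    rw [h0, zero_mul] at h1
    have h2 : 0 < (finrank (baseW W L).K ((baseW W L).H X) ^ 2) ^ (n + 1) := by positivity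
    omega
  · rw [hr i n hi, ← algRank_baseW L]
    exact kRank_le _ _
  · rw [hr i n hi, numRank_sq (W := baseW W L), betti, ← finrank_baseW (W := W) L]
    exact kRank_prod_le hparZ hparX n (i := i) (by omega) rfl
  · by_cases hD' : HomEqNum W (Z.prod (pw X κ))
    · exact Or.inl hD'
    right
    obtain ⟨i, hi, hne⟩ := exists_perp_sq (W := baseW W L) hD htr (Z := Z) (κ := κ)
      (fun h => hD' (homEqNum_base L h))
    refine ⟨i, hi, fun n hn => ?_⟩
    have h1 := growth_of_ne hparX hH (perpS (spanS (baseW W L))) hne hn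
    have h2 := kRank_add_le (F := spanS (baseW W L)) (fun Y j => le_rfl) (hdim n i hi)
    rw [← numRank_sq (W := baseW W L), finrank_baseW] at h1
    rw [← hr i n hi] at h2
    have h3 : finrank (baseW W L).K ((spanS (baseW W L)).T
        (Z.prod (Pool.Agent.Y163.sq X n)) ((n + 1) * X.dim + i)) =
        algRank W (Z.prod (Pool.Agent.Y163.sq X n)) ((n + 1) * X.dim + i) := algRank_baseW L _
    rw [h3] at h2
    have h4 : (numRank ops (Z.prod (Pool.Agent.Y163.sq X n)) ((n + 1) * X.dim + i) : ℝ) +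
        finrank (baseW W L).K ((perpS (spanS (baseW W L))).T
          (Z.prod (Pool.Agent.Y163.sq X n)) ((n + 1) * X.dim + i)) ≤
        algRank W (Z.prod (Pool.Agent.Y163.sq X n)) ((n + 1) * X.dim + i) := by
      exact_mod_cast h2
    rw [betti]
    linarith

end Pool.Agent.R940
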