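import Pool.Agent.R940.Wrd

/-!
# Bounded generation of the Tate classes on the powers of a variety
-/

set_option linter.unusedVariables false
set_option linter.unusedSectionVars false

open CategoryTheory AlgebraicGeometry CategoryTheory.Limits

universe u v

namespace Pool.Agent.R940

open Pool.Agent.H914 Pool.Agent.H447 Pool.Agent.W534 Pool.Agent.Y163 VarClass Obj WeilCohomology
  Module

section Comb

variable {ι : Type*} [Fintype ι] [DecidableEq ι]

/-- The numbers of occurrences of the letters. -/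
def cnt {n : ℕ} (I : Fin n → ι) (l : ι) : ℕ := (Finset.univ.filter fun j => I j = l).card

lemma sum_cnt {M : Type*} [AddCommMonoid M] {n : ℕ} (I : Fin n → ι) (f : ι → M) :
    ∑ j, f (I j) = ∑ l, cnt I l • f l := by
  rw [← Finset.sum_fiberwise Finset.univ I]
  refine Finset.sum_congr rfl fun l _ => ?_
  rw [cnt, ← Finset.sum_const]
  exact Finset.sum_congr rfl fun j hj => by rw [(Finset.mem_filter.1 hj).2]

lemma prod_cnt {M : Type*} [CommMonoid M] {n : ℕ} (I : Fin n → ι) (f : ι → M) :
    ∏ j, f (I j) = ∏ l, f l ^ cnt I l := by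
  rw [← Finset.prod_fiberwise Finset.univ I]
  refine Finset.prod_congr rfl fun l _ => ?_
  rw [cnt, ← Finset.prod_const]
  exact Finset.prod_congr rfl fun j hj => by rw [(Finset.mem_filter.1 hj).2]

lemma sum_cnt_nat {n : ℕ} (I : Fin n → ι) (d : ι → ℕ) :
    ∑ j, d (I j) = ∑ l, d l * cnt I l := by
  rw [sum_cnt]
  exact Finset.sum_congr rfl fun l _ => by rw [smul_eq_mul, mul_comm]

lemma sum_cnt_one {n : ℕ} (I : Fin n → ι) : ∑ l, cnt I l = n := by
  have h := sum_cnt I (fun _ => 1)
  simp only [smul_eq_mul, mul_one, Finset.sum_const, Finset.card_univ, Fintype.card_fin] at h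
  exact h.symm

/-- A subword. -/
lemma exists_subword {n : ℕ} (I : Fin n → ι) (m : ι → ℕ) (hm : ∀ l, m l ≤ cnt I l) :
    ∃ (a b : ℕ) (e : Fin a → Fin n) (e' : Fin b → Fin n),
      (List.ofFn e ++ List.ofFn e').Perm (List.finRange n) ∧
      cnt (I ∘ e) = m ∧ cnt (I ∘ e') = cnt I - m := by
  obtain ⟨S, hS⟩ := exists_finset I m hm
  let e := S.orderEmbOfFin rfl
  let e' := Sᶜ.orderEmbOfFin rfl
  have hperm : (List.ofFn e ++ List.ofFn e').Perm (List.finRange n) := by
    have hdisj : List.Disjoint (List.ofFn e) (List.ofFn e') := by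
      intro x hx hx'
      obtain ⟨i, rfl⟩ := (List.mem_ofFn' _ _).1 hx
      obtain ⟨j, hj⟩ := (List.mem_ofFn' _ _).1 hx'
      have h1 : e i ∈ S := Finset.orderEmbOfFin_mem _ _ _
      have h2 : e' j ∈ Sᶜ := Finset.orderEmbOfFin_mem _ _ _
      rw [Finset.mem_compl] at h2
      exact h2 (hj ▸ h1)
    refine (List.perm_ext_iff_of_nodup ?_ (List.nodup_finRange n)).2 ?_
    · exact List.nodup_append'.2 ⟨List.nodup_ofFn.2 e.injective, List.nodup_ofFn.2 e'.injective,
        hdisj⟩
    · intro x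
      simp only [List.mem_append, List.mem_ofFn', List.mem_finRange, iff_true]
      by_cases hx : x ∈ S
      · left
        have := Finset.range_orderEmbOfFin S rfl
        rw [this]
        exact hx
      · right
        have := Finset.range_orderEmbOfFin Sᶜ rfl
        rw [this, Finset.mem_coe, Finset.mem_compl]
        exact hx
  have key : ∀ l, cnt (I ∘ e) l = m l := by
    intro l
    have h1 := hS (fun l' => if l' = l then (1 : ℕ) else 0)
    have h2 : ∑ l', m l' • (if l' = l then (1 : ℕ) else 0) = m l := by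
      rw [Finset.sum_eq_single l]
      · simp
      · intro l' _ h; simp [h]
      · intro h; exact absurd (Finset.mem_univ l) h
    rw [h2] at h1
    rw [← h1, cnt, Finset.card_filter]
    have h3 : ∑ j ∈ S, (if I j = l then 1 else 0) = ∑ i : Fin S.card, (if I (e i) = l then 1 else 0) := by
      have h4 : S = Finset.univ.map e.toEmbedding := by
        ext x
        simp only [Finset.mem_map, Finset.mem_univ, true_and]
        constructor
        · intro hx
          have h5 : x ∈ Set.range e := by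
            rw [Finset.range_orderEmbOfFin S rfl]; exact hx
          exact h5
        · rintro ⟨i, rfl⟩
          exact Finset.orderEmbOfFin_mem _ _ _
      conv_lhs => rw [h4]
      rw [Finset.sum_map]
      rfl
    exact h3.symm
  refine ⟨S.card, Sᶜ.card, e, e', hperm, funext key, ?_⟩
  funext l
  -- the total count
  have h1 : cnt (I ∘ e) l + cnt (I ∘ e') l = cnt I l := by
    have hc : ∀ {r : ℕ} (g : Fin r → Fin n), cnt (I ∘ g) l =
        ((List.ofFn g).map (fun j => if I j = l then 1 else 0)).sum := by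
      intro r g
      rw [List.map_ofFn, List.sum_ofFn, cnt, Finset.card_filter]
      rfl
    have h2 : cnt I l = ((List.finRange n).map (fun j => if I j = l then 1 else 0)).sum := by
      have := hc (id : Fin n → Fin n)
      rw [Function.comp_id] at this
      rw [this, List.ofFn_id]
    rw [hc, hc, h2, ← List.sum_append, ← List.map_append]
    exact (hperm.map _).sum_eq
  rw [Pi.sub_apply, ← key l]
  omega

end Comb

variable {k : Type u} [Field k] {𝒱 : VarClass k} {ops : CycleOps 𝒱}
  {W : WeilCohomology.{u, v} ops} {X Y Z U S : 𝒱.Obj} {p : ℕ} (Φ : FrobSystem W p)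

/-- Products of algebraic classes. -/
lemma span_mul {i j : ℤ} {a b : W.H Z} (ha : a ∈ spanCycles W Z i) (hb : b ∈ spanCycles W Z j) :
    a * b ∈ spanCycles W Z (i + j) := by
  induction ha using Submodule.span_induction with
  | mem x hx =>
    obtain ⟨r, rfl, z, hz, rfl⟩ := hx
    induction hb using Submodule.span_induction with
    | mem y hy =>
      obtain ⟨s, rfl, w, hw, rfl⟩ := hy
      rw [← W.cl_mul]
      exact Submodule.subset_span ⟨r + s, by push_cast; rfl, _, ops.mul_mem hz hw, rfl⟩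
    | zero => rw [mul_zero]; exact Submodule.zero_mem _
    | add x y _ _ hx hy => rw [mul_add]; exact Submodule.add_mem _ hx hy
    | smul c x _ hx => rw [mul_smul_comm]; exact Submodule.smul_mem _ _ hx
  | zero => rw [zero_mul]; exact Submodule.zero_mem _
  | add x y _ _ hx hy => rw [add_mul]; exact Submodule.add_mem _ hx hy
  | smul c x _ hx => rw [smul_mul_assoc]; exact Submodule.smul_mem _ _ hx

variable {ι : Type v} [Fintype ι] [DecidableEq ι] {B : HBasis W X ι} {lam : ι → W.K}

/-- The monomial is a product of pull-backs of shorter monomials. -/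
lemma mon_split (B : HBasis W X ι) {n a b : ℕ} (I : Fin (n + 1) → ι) (e : Fin (a + 1) → Fin (n + 1))
    (e' : Fin (b + 1) → Fin (n + 1))
    (h : (List.ofFn e ++ List.ofFn e').Perm (List.finRange (n + 1))) :
    ∃ ε : W.K, mon B n I = ε • (W.map (tup a (fun i => pr X n (e i))) (mon B a (I ∘ e)) *
      W.map (tup b (fun i => pr X n (e' i))) (mon B b (I ∘ e'))) := by
  let f : Fin (n + 1) → W.H (pw X n) := fun i => W.map (pr X n i) (B.b (I i))
  have h1 : ∀ (a : ℕ) (e : Fin (a + 1) → Fin (n + 1)),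
      W.map (tup a (fun i => pr X n (e i))) (mon B a (I ∘ e)) = ((List.ofFn e).map f).prod := by
    intro a e
    rw [mon_eq, map_list_prod, List.map_ofFn, List.map_ofFn]
    congr 2
    funext i
    rw [Function.comp_apply, Function.comp_apply, Function.comp_apply, ← W.map_comp, tup_pr]
  have h2 : mon B n I = ((List.finRange (n + 1)).map f).prod := by
    rw [mon_eq, ← List.ofFn_id, List.map_ofFn]
    rfl
  obtain ⟨ε, _, hε⟩ := prod_perm (W := W) ((h.map f).symm) (by
    intro x hx
    obtain ⟨i, _, rfl⟩ := List.mem_map.1 hx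
    exact ⟨_, W.map_mem _ (B.mem _)⟩)
  refine ⟨ε, ?_⟩
  rw [h1, h1, h2, hε, List.map_append, List.prod_append]

/-- The monomials of the words which satisfy the relation are generalised Tate classes. -/
lemma mon_genTate (hB : IsEig Φ B lam) {n : ℕ} {I : Fin (n + 1) → ι}
    (hI : IsT (p ^ Φ.e X) lam B.deg (cnt I)) {J : ℕ} (hJ : ∑ j, B.deg (I j) = 2 * J) :
    ∃ s, 0 < s ∧ mon B n I ∈ genTate Φ (pw X n) s J := by
  obtain ⟨S, S', hS, hS', hSS, h⟩ := frob_pr Φ X n
  obtain ⟨_, s, hs, h1⟩ := hI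
  refine ⟨S * (2 * s), by positivity, ?_, ?_⟩
  · have h2 := mon_gen Φ hB h I (2 * s)
    have h3 : (∏ j, lam (I j)) ^ (S' * (2 * s)) = (card Φ (pw X n) (S * (2 * s)) : W.K) ^ J := by
      rw [prod_cnt, mul_comm S', pow_mul, h1, ← sum_cnt_nat, hJ, card, ← Nat.cast_pow,
        ← Nat.cast_pow, ← Nat.cast_pow, ← pow_mul, ← pow_mul, ← pow_mul]
      congr 2
      calc Φ.e X * (s * (2 * J) * S') = (S' * Φ.e X) * (2 * s * J) := by ring
        _ = Φ.e (pw X n) * (S * (2 * s)) * J := by rw [← hSS]; ring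
    rw [← h3]
    exact h2
  · rw [← hJ]
    exact mon_gr B n I

/-- The words which occur in generalised Tate classes. -/
lemma isT_of_repr (hB : IsEig Φ B lam) {n : ℕ} {b : Basis (Fin (n + 1) → ι) W.K (W.H (pw X n))}
    (hb : ∀ I, b I = mon B n I) {s J : ℕ} {c : W.H (pw X n)}
    (hs : 0 < s) (hc : c ∈ genTate Φ (pw X n) s J) {I : Fin (n + 1) → ι} (hI : b.repr c I ≠ 0) :
    ∑ j, B.deg (I j) = 2 * J ∧ IsT (p ^ Φ.e X) lam B.deg (cnt I) := by
  obtain ⟨S, S', hS, hS', hSS, h⟩ := frob_pr Φ X n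
  have h1 := genTate_mono' Φ s S J hc
  have h2 : ∑ j, B.deg (I j) = 2 * J := by
    by_contra hne
    apply hI
    refine repr_zero (W.isInternal (pw X n)).submodule_iSupIndep b
      (fun I => ∑ j, B.deg (I j)) (fun I => ?_) hc.2 hne
    rw [hb]
    exact mon_gr B n I
  have h3 : (∏ j, lam (I j)) ^ (S' * s) = (card Φ (pw X n) (S * s) : W.K) ^ J := by
    by_contra hne
    apply hI
    refine repr_zero (Module.End.independent_maxGenEigenspace (frob Φ (pw X n) (S * s))) b
      (fun I => (∏ j, lam (I j)) ^ (S' * s)) (fun I => ?_) h1.1 hne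
    rw [hb]
    exact mon_gen Φ hB h I s
  refine ⟨h2, ⟨J, by rw [← sum_cnt_nat, h2]; ring⟩, S' * s, Nat.mul_pos hS' hs, ?_⟩
  rw [← prod_cnt, mul_comm 2, pow_mul, h3, ← sum_cnt_nat, h2, card, ← Nat.cast_pow,
    ← Nat.cast_pow, ← Nat.cast_pow, ← pow_mul, ← pow_mul, ← pow_mul]
  congr 2
  calc Φ.e (pw X n) * (S * s) * (J * 2) = (S * Φ.e (pw X n)) * (s * J * 2) := by ring
    _ = Φ.e X * (S' * s * (2 * J)) := by rw [hSS]; ring

/-- **Bounded generation of the Tate classes on powers.** -/
theorem bounded [hp : Fact p.Prime] (hB : IsEig Φ B lam) {D : ℕ} (hD : 0 < D)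
    (hF : IsWeilFamily p (Φ.e X) D lam B.deg) {b M : ℕ} (hb : Fintype.card ι ≤ b)
    (hM : ∀ l, D * B.deg l ≤ M)
    (hT : ∀ m, m + 1 ≤ 2 * b * (2 * b * M + 1) ^ b → ∀ j, SemisimpleTateIn Φ (pw X m) j) :
    ∀ n j, SemisimpleTateIn Φ (pw X n) j := by
  have key : ∀ (n : ℕ) (I : Fin (n + 1) → ι), IsT (p ^ Φ.e X) lam B.deg (cnt I) →
      ∀ J : ℕ, ∑ j, B.deg (I j) = 2 * J → mon B n I ∈ spanCycles W (pw X n) J := by
    intro n
    induction n using Nat.strong_induction_on with
    | _ n ih =>
      intro I hI J hJ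
      rcases Nat.lt_or_ge (2 * b * (2 * b * M + 1) ^ b) (n + 1) with hlt | hge
      · obtain ⟨m, hm1, hm2, hm3, hm4, hm5⟩ := exists_subT (Φ.e_pos X) hD hF hb hM hI
          (by rw [sum_cnt_one]; exact hlt)
        obtain ⟨a, a', e, e', hperm, h1, h2⟩ := exists_subword I m hm1
        have ha : ∑ l, m l = a := by rw [← h1, sum_cnt_one]
        have ha' : ∑ l, (cnt I - m) l = a' := by rw [← h2, sum_cnt_one]
        have hlen : a + a' = n + 1 := by
          have := hperm.length_eq
          simpa using this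
        rw [sum_cnt_one] at hm3
        obtain ⟨a, rfl⟩ : ∃ r, a = r + 1 := ⟨a - 1, by omega⟩
        obtain ⟨a', rfl⟩ : ∃ r, a' = r + 1 := ⟨a' - 1, by omega⟩
        obtain ⟨ε, hε⟩ := mon_split B I e e' hperm
        rw [← h1] at hm4
        rw [← h2] at hm5
        obtain ⟨J₁, hJ₁⟩ := hm4.1
        obtain ⟨J₂, hJ₂⟩ := hm5.1
        have hJ₁' : ∑ j, B.deg ((I ∘ e) j) = 2 * J₁ := by rw [sum_cnt_nat, hJ₁]; ring
        have hJ₂' : ∑ j, B.deg ((I ∘ e') j) = 2 * J₂ := by rw [sum_cnt_nat, hJ₂]; ring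
        have hJJ : J₁ + J₂ = J := by
          have h3 : ∑ j, B.deg (I j) = ∑ j, B.deg ((I ∘ e) j) + ∑ j, B.deg ((I ∘ e') j) := by
            rw [sum_cnt_nat, sum_cnt_nat, sum_cnt_nat, h1, h2, ← Finset.sum_add_distrib]
            refine Finset.sum_congr rfl fun l _ => ?_
            rw [← Nat.mul_add, Pi.sub_apply, Nat.add_sub_cancel' (hm1 l)]
          omega
        have h3 := map_span (tup a (fun i => pr X n (e i))) (ih a (by omega) (I ∘ e) hm4 J₁ hJ₁')
        have h4 := map_span (tup a' (fun i => pr X n (e' i)))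
          (ih a' (by omega) (I ∘ e') hm5 J₂ hJ₂')
        rw [hε, ← hJJ]
        push_cast
        exact Submodule.smul_mem _ _ (span_mul h3 h4)
      · obtain ⟨s, hs, h1⟩ := mon_genTate Φ hB hI hJ
        exact hT n hge J s hs h1
  intro n J s hs c hc
  obtain ⟨bs, hbs⟩ := exists_monBasis B n
  rw [← bs.sum_repr c]
  refine Submodule.sum_mem _ fun I _ => ?_
  by_cases h0 : bs.repr c I = 0
  · rw [h0, zero_smul]; exact Submodule.zero_mem _
  · obtain ⟨h1, h2⟩ := isT_of_repr Φ hB hbs hs hc h0
    rw [hbs]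
    exact Submodule.smul_mem _ _ (key n I h2 J h1)

end Pool.Agent.R940
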