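import Pool.Agent.Y163.TateC
import Pool.Agent.H914R2.WBase2

/-!
# The effective index law over arbitrary coefficient fields
-/

set_option linter.unusedVariables false
set_option linter.unusedSectionVars false

open CategoryTheory AlgebraicGeometry CategoryTheory.Limits TensorProduct

universe u v

namespace Pool.Agent.R940

open Pool.Agent.H914 Pool.Agent.H447 Pool.Agent.W534 Pool.Agent.Y163 VarClass Obj WeilCohomology
  Module

variable {k : Type u} [Field k] {𝒱 : VarClass k} {ops : CycleOps 𝒱}

section Base

variable {W : WeilCohomology.{u, v} ops} {X Y Z : 𝒱.Obj} (L : Type v) [Field L] [Algebra W.K L]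

lemma par_base : par ((baseW W L).isInternal X) =
    ((par (W.isInternal X)).baseChange L : L ⊗[W.K] W.H X →ₗ[L] L ⊗[W.K] W.H X) := by
  apply LinearMap.ext
  intro x
  refine gr_induction ((baseW W L).isInternal X) (p := fun x => par ((baseW W L).isInternal X) x =
    (par (W.isInternal X)).baseChange L x) ?_ ?_ x
  · intro i a ha
    have ha1 : a ∈ (W.gr X i).baseChange L := ha
    rw [Submodule.baseChange_eq_span] at ha1
    have h0 : par ((baseW W L).isInternal X) a = ((-1 : (baseW W L).K) ^ i) • a :=
      scal_apply ((baseW W L).isInternal X) _ ha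
    rw [h0]
    clear h0 ha
    change ((-1 : L) ^ i) • (show L ⊗[W.K] W.H X from a) =
      (par (W.isInternal X)).baseChange L (show L ⊗[W.K] W.H X from a)
    change (show L ⊗[W.K] W.H X from a) ∈ _ at ha1
    generalize (show L ⊗[W.K] W.H X from a) = y at ha1 ⊢
    induction ha1 using Submodule.span_induction with
    | mem x hx =>
      obtain ⟨c, hc, rfl⟩ := hx
      have h1 : par (W.isInternal X) c = ((-1 : W.K) ^ i) • c := scal_apply _ _ hc
      rw [TensorProduct.mk_apply, LinearMap.baseChange_tmul, h1, TensorProduct.tmul_smul,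
        ← algebraMap_smul L ((-1 : W.K) ^ i), map_pow, map_neg, map_one]
    | zero => rw [smul_zero, map_zero]
    | add x y hx' hy' hx hy =>
      rw [smul_add, map_add, hx, hy]
    | smul c x hx' hx =>
      rw [smul_comm, hx, map_smul]
  · intro a b ha hb
    rw [map_add, ha, hb]
    exact (map_add ((par (W.isInternal X)).baseChange L) a b).symm

lemma par_mem_base (hX : par (W.isInternal X) ∈ KOp W X X 0) :
    par ((baseW W L).isInternal X) ∈ KOp (baseW W L) X X 0 := by
  rw [par_base]
  exact KOp.base hX

/-- The extension of coefficients of stable families. -/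
lemma stable_base {T : ∀ n, Submodule W.K (W.H (sq X n))} (hT : Stable W X T) :
    Stable (baseW W L) X (fun n => (T n).baseChange L) := by
  intro κ n φ hφ t ht
  induction hφ using Submodule.span_induction with
  | mem f hf =>
    obtain ⟨p, hp, z, hz, rfl⟩ := hf
    have h1 : (baseW W L).corr ((baseW W L).cl _ z) = (W.corr (W.cl _ z)).baseChange L :=
      corrOp_base (L := L) (W.map (fst (sq X κ) (sq X n)))
        (W.push (snd (sq X κ) (sq X n))) (W.cl _ z)
    have h2 : W.corr (W.cl _ z) ∈ KOp W (sq X κ) (sq X n) (((n : ℤ) - κ) * X.dim) :=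
      KOp.gen hp hz
    rw [h1]
    have h3 : ((T κ).baseChange L).map ((W.corr (W.cl _ z)).baseChange L) ≤
        (T n).baseChange L := by
      rw [Submodule.baseChange_eq_span, Submodule.map_span, Submodule.span_le]
      rintro _ ⟨_, ⟨c, hc, rfl⟩, rfl⟩
      have h4 : (W.corr (W.cl _ z)).baseChange L ((1 : L) ⊗ₜ[W.K] c) =
          (1 : L) ⊗ₜ[W.K] (W.corr (W.cl _ z) c) := LinearMap.baseChange_tmul _ _ _
      have h5 : (W.corr (W.cl _ z)).baseChange L ((1 : L) ⊗ₜ[W.K] c) ∈ (T n).baseChange L := by
        rw [h4]
        exact Submodule.tmul_mem_baseChange_of_mem _ (hT κ n _ h2 c hc)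
      exact h5
    exact h3 ⟨t, ht, rfl⟩
  | zero => rw [LinearMap.zero_apply]; exact Submodule.zero_mem _
  | add x y _ _ hx hy => rw [LinearMap.add_apply]; exact Submodule.add_mem _ hx hy
  | smul c x _ hx => rw [LinearMap.smul_apply]; exact Submodule.smul_mem _ _ hx

lemma finrank_base {K : Type*} [Field K] {V : Type*} [AddCommGroup V] [Module K V]
    (L : Type*) [Field L] [Algebra K L] (G : Submodule K V) :
    Module.finrank L (G.baseChange L) = Module.finrank K G := by
  have h1 : Function.Injective (G.subtype.baseChange L) :=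
    Module.Flat.lTensor_preserves_injective_linearMap (M := L) G.subtype
      (Submodule.injective_subtype G)
  have h2 : G.baseChange L = LinearMap.range (G.subtype.baseChange L) := rfl
  rw [h2, LinearMap.finrank_range_of_inj h1, Module.finrank_baseChange]

lemma finrank_baseW : finrank (baseW W L).K ((baseW W L).H X) = finrank W.K (W.H X) := by
  have h : finrank L (L ⊗[W.K] W.H X) = finrank W.K (W.H X) := Module.finrank_baseChange
  exact h

end Base

variable {W : WeilCohomology.{u, v} ops} {X Y Z : 𝒱.Obj}

/-- The effective index law. -/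
theorem index_eff_any (hX : par (W.isInternal X) ∈ KOp W X X 0)
    (hH : 0 < finrank W.K (W.H X)) (T : ∀ n, Submodule W.K (W.H (sq X n))) (hT : Stable W X T)
    {κ : ℕ} (hfail : numRank ops (sq X κ) ((κ + 1) * X.dim) < finrank W.K (T κ)) {M : ℕ}
    (hM : 0 < M) :
    (2 - 2 * (κ + 1) * (finrank W.K (W.H X) : ℝ) ^ (2 * κ + 4) * Real.log (M + 2) / M) *
      numRank ops (sq X M) ((M + 1) * X.dim) ≤ finrank W.K (T M) := by
  set L := AlgebraicClosure W.K with hL
  have hcl : IsAlgClosed (baseW W L).K := inferInstanceAs (IsAlgClosed (AlgebraicClosure W.K))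
  have h := index_eff (W := baseW W L) (par_mem_base L hX) (by rw [finrank_baseW]; exact hH)
    (fun n => (T n).baseChange L) (stable_base L hT) (κ := κ)
    (by
      rw [← numRank_sq (W := baseW W L)]
      refine lt_of_lt_of_le hfail (le_of_eq ?_)
      exact (finrank_base L (T κ)).symm) hM
  rw [← numRank_sq (W := baseW W L), finrank_baseW] at h
  refine h.trans (le_of_eq ?_)
  exact congrArg Nat.cast (finrank_base L (T M))

/-- The growth of the ranks. -/
theorem growth_any (hX : par (W.isInternal X) ∈ KOp W X X 0) (n : ℕ) :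
    (finrank W.K (W.H X) ^ 2) ^ (n + 1) ≤
      numRank ops (sq X n) ((n + 1) * X.dim) * (n + 2) ^ (finrank W.K (W.H X) ^ 2) := by
  set L := AlgebraicClosure W.K with hL
  have hcl : IsAlgClosed (baseW W L).K := inferInstanceAs (IsAlgClosed (AlgebraicClosure W.K))
  have h := mrank_growth (W := baseW W L) (par_mem_base L hX) n
  rw [← numRank_sq (W := baseW W L), finrank_baseW] at h
  exact h

end Pool.Agent.R940
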