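import Pool.Agent.R940.DLen
import Pool.Agent.R940.KBase
import Pool.Agent.R940.Gen

/-!
# The radical is a tensor ideal, and products of numerically trivial classes
-/

set_option linter.unusedVariables false
set_option linter.unusedSectionVars false

open CategoryTheory AlgebraicGeometry CategoryTheory.Limits TensorProduct

universe u v

namespace Pool.Agent.R940

open Pool.Agent.H914 Pool.Agent.H447 Pool.Agent.W534 Pool.Agent.Y163 VarClass Obj WeilCohomology
  Module

variable {k : Type u} [Field k] {𝒱 : VarClass k} {ops : CycleOps 𝒱}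
  {W : WeilCohomology.{u, v} ops} {X Y Z U V A B : 𝒱.Obj}

/-- A numerically trivial class gives an element of the radical. -/
lemma mem_rad_of_num (hpar : par (W.isInternal U) ∈ KOp W U U 0) {c : W.H (U.prod U)}
    (hc : c ∈ spanCycles W (U.prod U) U.dim)
    (h : ∀ d ∈ spanCycles W (U.prod U) U.dim, W.tr (U.prod U) (c * d) = 0) :
    W.corr c ∈ rad (KAlg W U) := by
  refine ⟨mem_KOp_iff.2 ⟨c, by rw [add_zero]; exact hc, rfl⟩, fun y hy => ?_⟩
  have hy' : y ∘ₗ par (W.isInternal U) ∈ KOp W U U 0 := KOp.cast (KOp.comp hy hpar) (by ring)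
  obtain ⟨γ, hγ, hγ2⟩ := mem_KOp_iff.1 hy'
  rw [add_zero] at hγ
  have h1 := h _ (map_span (swap U U) hγ)
  rw [tr_mul_eq_trace' (p := U.dim) (span_gr hc), map_swap_swap', hγ2] at h1
  have h2 : par (W.isInternal U) ∘ₗ W.corr c ∘ₗ y ∘ₗ par (W.isInternal U) =
      par (W.isInternal U) ∘ₗ ((W.corr c ∘ₗ y) ∘ₗ par (W.isInternal U)) := rfl
  have h3 : par (W.isInternal U) ∘ₗ par (W.isInternal U) = LinearMap.id := par_mul_self
  rw [h2, LinearMap.trace_comp_comm', LinearMap.comp_assoc, h3, LinearMap.comp_id] at h1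
  exact h1

/-- The converse. -/
lemma num_of_mem_rad (hpar : par (W.isInternal U) ∈ KOp W U U 0) {c : W.H (U.prod U)}
    (hc : c ∈ spanCycles W (U.prod U) U.dim) (h : W.corr c ∈ rad (KAlg W U)) :
    ∀ d ∈ spanCycles W (U.prod U) U.dim, W.tr (U.prod U) (c * d) = 0 := by
  intro d hd
  rw [tr_mul_eq_trace' (p := U.dim) (span_gr hc)]
  have h0 : W.corr (W.map (swap U U) d) ∈ KOp W U U 0 :=
    mem_KOp_iff.2 ⟨_, by rw [add_zero]; exact map_span _ hd, rfl⟩
  have h1 := h.2 (W.corr (W.map (swap U U) d) ∘ₗ par (W.isInternal U))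
    (mem_KAlg.2 (KOp.cast (KOp.comp h0 hpar) (by ring)))
  rw [LinearMap.trace_comp_comm']
  exact h1

/-- The radical is a tensor ideal. -/
lemma extOp_rad (hU : par (W.isInternal U) ∈ KOp W U U 0)
    (hV : par (W.isInternal V) ∈ KOp W V V 0) {f : Module.End W.K (W.H U)}
    (hf : f ∈ rad (KAlg W U)) :
    extOp W f (1 : Module.End W.K (W.H V)) ∈ rad (KAlg W (U.prod V)) := by
  obtain ⟨c, hc, rfl⟩ := mem_KOp_iff.1 (mem_KAlg.1 hf.1)
  obtain ⟨δ, hδ, hδ2⟩ := mem_KOp_iff.1 (mem_KAlg.1 (KAlg W V).one_mem)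
  rw [add_zero] at hc hδ
  have hcorr : W.corr (W.map (q1 U V) c * W.map (q2 U V) δ) =
      extOp W (W.corr c) (1 : Module.End W.K (W.H V)) := by
    apply ext_kunneth_lin
    intro a b
    rw [corr_ext _ (span_gr hδ), extOp_tmul, hδ2]
  rw [← hcorr]
  apply mem_rad_of_num (par_prod_mem hU hV)
  · have := span_mul (map_span (q1 U V) hc) (map_span (q2 U V) hδ)
    rwa [← Nat.cast_add, ← dim_prod] at this
  · intro d hd
    have hq : W.map (q1 U V) c ∈ W.gr ((U.prod V).prod (U.prod V)) (2 * U.dim) :=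
      W.map_mem _ (span_gr hc)
    rw [mul_assoc, W.even_comm hq, ← W.tr_push, ← W.even_comm (span_gr hc)]
    apply num_of_mem_rad hU hc hf
    have h1 := span_mul (map_span (q2 U V) hδ) hd
    rw [← Nat.cast_add] at h1
    exact (spanS W).push (q1 U V) h1 (by simp only [dim_prod]; ring)

lemma extOp_rad' (hU : par (W.isInternal U) ∈ KOp W U U 0)
    (hV : par (W.isInternal V) ∈ KOp W V V 0) {f : Module.End W.K (W.H V)}
    (hf : f ∈ rad (KAlg W V)) :
    extOp W (1 : Module.End W.K (W.H U)) f ∈ rad (KAlg W (U.prod V)) := by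
  obtain ⟨c, hc, rfl⟩ := mem_KOp_iff.1 (mem_KAlg.1 hf.1)
  obtain ⟨δ, hδ, hδ2⟩ := mem_KOp_iff.1 (mem_KAlg.1 (KAlg W U).one_mem)
  rw [add_zero] at hc hδ
  have hcorr : W.corr (W.map (q1 U V) δ * W.map (q2 U V) c) =
      extOp W (1 : Module.End W.K (W.H U)) (W.corr c) := by
    apply ext_kunneth_lin
    intro a b
    rw [corr_ext _ (span_gr hc), extOp_tmul, hδ2]
  rw [← hcorr]
  apply mem_rad_of_num (par_prod_mem hU hV)
  · have := span_mul (map_span (q1 U V) hδ) (map_span (q2 U V) hc)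
    rwa [← Nat.cast_add, ← dim_prod] at this
  · intro d hd
    have hq : W.map (q2 U V) c ∈ W.gr ((U.prod V).prod (U.prod V)) (2 * V.dim) :=
      W.map_mem _ (span_gr hc)
    rw [← W.even_comm hq, mul_assoc, W.even_comm hq, ← W.tr_push,
      ← W.even_comm (span_gr hc)]
    apply num_of_mem_rad hV hc hf
    have h1 := span_mul (map_span (q1 U V) hδ) hd
    rw [← Nat.cast_add] at h1
    exact (spanS W).push (q2 U V) h1 (by simp only [dim_prod]; ring)

lemma extOp_ne {f : Module.End W.K (W.H U)} {g : Module.End W.K (W.H V)} (hf : f ≠ 0)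
    (hg : g ≠ 0) : extOp W f g ≠ 0 := by
  intro h
  have h1 := finrank_range_extOp f g
  rw [h, LinearMap.range_zero, finrank_bot] at h1
  have h2 : ∀ {S : 𝒱.Obj} {e : Module.End W.K (W.H S)}, e ≠ 0 →
      finrank W.K (LinearMap.range e) ≠ 0 := by
    intro S e he h0
    rw [Submodule.finrank_eq_zero, LinearMap.range_eq_bot] at h0
    exact he h0
  exact mul_ne_zero (h2 hf) (h2 hg) h1.symm

/-- Transport of operators along an isomorphism. -/
noncomputable def tw (θ : A ≅ B) (f : Module.End W.K (W.H A)) : Module.End W.K (W.H B) :=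
  (W.map θ.inv).toLinearMap ∘ₗ f ∘ₗ (W.map θ.hom).toLinearMap

lemma tw_cancel (θ : A ≅ B) (a : W.H A) : W.map θ.hom (W.map θ.inv a) = a := by
  rw [← W.map_comp, θ.hom_inv_id, W.map_id]

lemma tw_cancel' (θ : A ≅ B) (a : W.H B) : W.map θ.inv (W.map θ.hom a) = a := by
  rw [← W.map_comp, θ.inv_hom_id, W.map_id]

lemma tw_mul (θ : A ≅ B) (f g : Module.End W.K (W.H A)) : tw θ (f * g) = tw θ f * tw θ g := by
  apply LinearMap.ext
  intro x
  change W.map θ.inv (f (g (W.map θ.hom x))) =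
    W.map θ.inv (f (W.map θ.hom (W.map θ.inv (g (W.map θ.hom x)))))
  rw [tw_cancel]

lemma tw_one (θ : A ≅ B) : tw θ (1 : Module.End W.K (W.H A)) = 1 := by
  apply LinearMap.ext
  intro x
  exact tw_cancel' θ x

lemma tw_symm (θ : A ≅ B) (f : Module.End W.K (W.H A)) : tw θ.symm (tw θ f) = f := by
  apply LinearMap.ext
  intro x
  change W.map θ.hom (W.map θ.inv (f (W.map θ.hom (W.map θ.inv x)))) = f x
  rw [tw_cancel, tw_cancel]

lemma tw_ne {θ : A ≅ B} {f : Module.End W.K (W.H A)} (hf : f ≠ 0) : tw θ f ≠ 0 := by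
  intro h
  apply hf
  rw [← tw_symm θ f, h]
  apply LinearMap.ext
  intro x
  change W.map θ.hom (0 : W.H B) = 0
  rw [map_zero]

lemma tw_mem (θ : A ≅ B) {f : Module.End W.K (W.H A)} (hf : f ∈ KAlg W A) :
    tw θ f ∈ KAlg W B :=
  mem_KAlg.2 (KOp.cast (KOp.comp (map_mem_KOp θ.inv) (KOp.comp (mem_KAlg.1 hf)
    (map_mem_KOp θ.hom))) (by ring))

lemma tw_trace (θ : A ≅ B) (f : Module.End W.K (W.H A)) :
    LinearMap.trace W.K _ (tw θ f) = LinearMap.trace W.K _ f := by
  rw [tw, LinearMap.trace_comp_comm']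
  congr 1
  apply LinearMap.ext
  intro x
  change f (W.map θ.hom (W.map θ.inv x)) = f x
  rw [tw_cancel]

lemma tw_rad (θ : A ≅ B) {f : Module.End W.K (W.H A)} (hf : f ∈ rad (KAlg W A)) :
    tw θ f ∈ rad (KAlg W B) := by
  refine ⟨tw_mem θ hf.1, fun y hy => ?_⟩
  have h1 : tw θ f * y = tw θ (f * tw θ.symm y) := by
    rw [tw_mul]
    congr 1
    exact (tw_symm θ.symm y).symm
  rw [h1, tw_trace]
  exact hf.2 _ (tw_mem θ.symm hy)

/-- Chains of elements of the radical. -/
lemma exists_chain (hX : par (W.isInternal X) ∈ KOp W X X 0) {κ₀ : ℕ}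
    {ν : Module.End W.K (W.H (pw X κ₀))} (hν : ν ∈ rad (KAlg W (pw X κ₀))) (hν0 : ν ≠ 0) :
    ∀ m : ℕ, ∃ κ, κ + 1 = (m + 1) * (κ₀ + 1) ∧ ∃ l : List (Module.End W.K (W.H (pw X κ))),
      (∀ x ∈ l, x ∈ rad (KAlg W (pw X κ))) ∧ l.length = m + 1 ∧ l.prod ≠ 0 := by
  intro m
  induction m with
  | zero =>
    refine ⟨κ₀, by ring, [ν], ?_, by simp, by simpa using hν0⟩
    intro x hx
    rw [List.mem_singleton] at hx
    rw [hx]
    exact hν
  | succ m ih =>
    obtain ⟨κ, hκ, l, hl, hlen, h0⟩ := ih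
    refine ⟨κ₀ + 1 + κ, by rw [add_assoc, hκ]; ring, tw (pwIso X κ₀ κ) (extOp W ν 1) ::
      l.map (fun f => tw (pwIso X κ₀ κ) (extOp W 1 f)), ?_, by simp [hlen], ?_⟩
    · intro x hx
      rcases List.mem_cons.1 hx with rfl | hx
      · exact tw_rad _ (extOp_rad (par_pw_mem hX κ₀) (par_pw_mem hX κ) hν)
      · obtain ⟨f, hf, rfl⟩ := List.mem_map.1 hx
        exact tw_rad _ (extOp_rad' (par_pw_mem hX κ₀) (par_pw_mem hX κ) (hl f hf))
    · have h1 : ∀ l' : List (Module.End W.K (W.H (pw X κ))),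
          (l'.map (fun f => tw (pwIso X κ₀ κ)
            (extOp W (1 : Module.End W.K (W.H (pw X κ₀))) f))).prod =
            tw (pwIso X κ₀ κ) (extOp W (1 : Module.End W.K (W.H (pw X κ₀))) l'.prod) := by
        intro l'
        induction l' with
        | nil =>
          rw [List.map_nil, List.prod_nil, List.prod_nil, extOp_one, tw_one]
        | cons a l' ih =>
          rw [List.map_cons, List.prod_cons, ih, List.prod_cons, ← tw_mul, extOp_mul, one_mul]
      rw [List.prod_cons, h1, ← tw_mul, extOp_mul, mul_one, one_mul]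
      exact tw_ne (extOp_ne hν0 h0)

/-- The algebraic classes in the middle degrees of the squares. -/
noncomputable def algT (W : WeilCohomology.{u, v} ops) (X : 𝒱.Obj) (n : ℕ) :
    Submodule W.K (W.H (sq X n)) := spanCycles W (sq X n) (((n + 1) * X.dim : ℕ) : ℤ)

lemma algT_stable : Stable W X (algT W X) := (spanS W).stable_sq X

/-- A lower bound for the sum of the multiplicities. -/
lemma sum_ge (hX : par (W.isInternal X) ∈ KOp W X X 0) (κ : ℕ)
    {l : List (Module.End W.K (W.H (pw X κ)))} (hl : ∀ x ∈ l, x ∈ rad (KAlg W (pw X κ)))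
    (h0 : l.prod ≠ 0) (w : Wed (KAlg W (sq X κ))) :
    l.length + 1 ≤ ∑ c, finrank W.K (LinearMap.range (w.e (w.rep c))) *
      finrank W.K ((algT W X κ).map (w.e (w.rep c))) := by
  obtain ⟨δ, hδ, hδ2⟩ := mem_KOp_iff.1 (mem_KAlg.1 (KAlg W (pw X κ)).one_mem)
  rw [add_zero] at hδ
  have hδT : δ ∈ algT W X κ := by
    rw [algT, ← dim_pw]
    exact hδ
  have hprod : ∀ l' : List (Module.End W.K (W.H (pw X κ))),
      (l'.map (fun f => extOp W (1 : Module.End W.K (W.H (pw X κ))) f)).prod =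
        extOp W (1 : Module.End W.K (W.H (pw X κ))) l'.prod := by
    intro l'
    induction l' with
    | nil => rw [List.map_nil, List.prod_nil, List.prod_nil, extOp_one]
    | cons a l' ih => rw [List.map_cons, List.prod_cons, ih, List.prod_cons, extOp_mul, one_mul]
  have hstab : ∀ f ∈ KAlg W (sq X κ), ∀ t ∈ algT W X κ, f t ∈ algT W X κ := fun f hf t ht =>
    algT_stable κ κ f (KOp.cast (mem_KAlg.1 hf) (by ring)) t ht
  have hlB : l.prod ∈ KAlg W (pw X κ) := Subalgebra.list_prod_mem _ fun x hx => (hl x hx).1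
  have h1 := length_le w (l.map (fun f => extOp W (1 : Module.End W.K (W.H (pw X κ))) f))
    (by
      intro x hx
      obtain ⟨f, hf, rfl⟩ := List.mem_map.1 hx
      exact extOp_rad' (par_pw_mem hX κ) (par_pw_mem hX κ) (hl f hf)) (algT W X κ) hstab δ hδT
    (by
      intro h
      apply h0
      have h2 := corr_extOp (f := (1 : Module.End W.K (W.H (pw X κ)))) (h := l.prod)
        (by rw [adj_one]; exact fun i a ha => ha) (deg0_of_mem (mem_KAlg.1 hlB)) δ
      have h3 : extOp W (1 : Module.End W.K (W.H (pw X κ))) l.prod δ = 0 := by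
        rw [← hprod]
        exact h
      rw [h3, corr_zero, hδ2, adj_one] at h2
      exact h2.symm)
  have hlen : (l.map (fun f => extOp W (1 : Module.End W.K (W.H (pw X κ))) f)).length =
      l.length := List.length_map _
  refine (le_of_eq_of_le (congrArg (· + 1) hlen.symm) h1).trans (Finset.sum_le_sum fun c _ => ?_)
  refine Nat.le_mul_of_pos_left _ (Nat.pos_of_ne_zero fun h => ?_)
  rw [Submodule.finrank_eq_zero, LinearMap.range_eq_bot] at h
  exact w.e_ne _ h

/-- **The effective law for the radical.** -/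
theorem d_eff [IsAlgClosed W.K] (hX : par (W.isInternal X) ∈ KOp W X X 0)
    (hH : 0 < finrank W.K (W.H X)) {κ₀ : ℕ} {ν : Module.End W.K (W.H (pw X κ₀))}
    (hν : ν ∈ rad (KAlg W (pw X κ₀))) (hν0 : ν ≠ 0) (m : ℕ) {M : ℕ} (hM : 0 < M) :
    ((m + 2 : ℕ) : ℝ) * (1 - ((m + 1) * (κ₀ + 1)) *
      (finrank W.K (W.H X) : ℝ) ^ (2 * ((m + 1) * (κ₀ + 1)) + 2) * Real.log (M + 2) / M) *
      mrank W X M ≤ finrank W.K (algT W X M) := by
  obtain ⟨κ, hκ, l, hl, hlen, h0⟩ := exists_chain hX hν hν0 m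
  have h1 := sum_ge hX κ hl h0 (Classical.choice (exists_wed _))
  have hb : mrank W X 0 ≤ finrank W.K (W.H X) ^ 2 := by
    have h2 := kRank_le (W := W) (Z := sq X 0) ((0 + 1) * X.dim) ((0 + 1) * X.dim)
    refine h2.trans ?_
    refine (Submodule.finrank_le _).trans (le_of_eq ?_)
    have e := kappa W X X
    change finrank W.K (W.H (X.prod X)) = _
    rw [← e.finrank_eq, Module.finrank_tensorProduct, pow_two]
  have h3 := eff_law_gen (pow_pos hH 2) hb (mrank_sq_le hX) (mrank_growth hX)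
    (level hX (algT W X) algT_stable κ) (S := m + 2) (by
      have h4 : m + 2 ≤ l.length + 1 := by omega
      exact h4.trans h1) hM
  have e1 : ((κ : ℝ) + 1) = (m + 1) * (κ₀ + 1) := by exact_mod_cast hκ
  have e2 : ((finrank W.K (W.H X) ^ 2 : ℕ) : ℝ) ^ (κ + 1) =
      (finrank W.K (W.H X) : ℝ) ^ (2 * ((m + 1) * (κ₀ + 1))) := by
    rw [hκ]
    push_cast
    rw [← pow_mul]
  rw [e1, e2] at h3
  refine le_trans (le_of_eq ?_) h3
  push_cast
  ring

end Pool.Agent.R940
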