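import Pool.Agent.Y163.DuoB
import Pool.Agent.Y163.Eff

/-!
# Lengths of modules and the effective limit law
-/

namespace Pool.Agent.R940

open Module Pool.Agent.Y163 Finset

section Alg

variable {K : Type*} [Field K] [CharZero K] {V : Type*} [AddCommGroup V] [Module K V]
  [Module.Finite K V] {B : Subalgebra K (End K V)}

/-- The space `rad B * T`. -/
def radT (B : Subalgebra K (End K V)) (T : Submodule K V) : Submodule K V :=
  Submodule.span K {x | ∃ f ∈ rad B, ∃ t ∈ T, f t = x}

omit [CharZero K] [Module.Finite K V] in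
lemma radT_stable {T : Submodule K V} : ∀ f ∈ B, ∀ t ∈ radT B T, f t ∈ radT B T := by
  intro f hf t ht
  induction ht using Submodule.span_induction with
  | mem x hx =>
    obtain ⟨g, hg, s, hs, rfl⟩ := hx
    exact Submodule.subset_span ⟨f * g, rad_mul_left hg hf, s, hs, rfl⟩
  | zero => rw [map_zero]; exact Submodule.zero_mem _
  | add x y _ _ hx hy => rw [map_add]; exact Submodule.add_mem _ hx hy
  | smul c x _ hx => rw [map_smul]; exact Submodule.smul_mem _ _ hx

omit [CharZero K] [Module.Finite K V] in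
lemma radT_le {T : Submodule K V} (hT : ∀ f ∈ B, ∀ t ∈ T, f t ∈ T) : radT B T ≤ T := by
  rw [radT, Submodule.span_le]
  rintro _ ⟨f, hf, t, ht, rfl⟩
  exact hT f hf.1 t ht

omit [CharZero K] [Module.Finite K V] in
lemma prod_mem_B {l : List (End K V)} (hl : ∀ x ∈ l, x ∈ rad B) : l.prod ∈ B :=
  Subalgebra.list_prod_mem _ fun x hx => (hl x hx).1

/-- Nakayama's lemma. -/
lemma le_of_le_sup {T T' : Submodule K V} (hT' : ∀ f ∈ B, ∀ t ∈ T', f t ∈ T')
    (h : T ≤ T' ⊔ radT B T) : T ≤ T' := by
  obtain ⟨N, hN⟩ := exists_nilp B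
  have key : ∀ n : ℕ, T ≤ T' ⊔ Submodule.span K {x | ∃ l : List (End K V),
      (∀ x ∈ l, x ∈ rad B) ∧ l.length = n ∧ ∃ t ∈ T, l.prod t = x} := by
    intro n
    induction n with
    | zero =>
      intro t ht
      exact Submodule.mem_sup_right (Submodule.subset_span ⟨[], by simp, rfl, t, ht, by simp⟩)
    | succ n ih =>
      refine ih.trans (sup_le le_sup_left ?_)
      rw [Submodule.span_le]
      rintro _ ⟨l, hl, hlen, t, ht, rfl⟩
      obtain ⟨t', ht', r, hr, rfl⟩ := Submodule.mem_sup.1 (h ht)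
      rw [map_add]
      refine Submodule.add_mem _ (Submodule.mem_sup_left (hT' _ (prod_mem_B hl) _ ht'))
        (Submodule.mem_sup_right ?_)
      clear ht
      induction hr using Submodule.span_induction with
      | mem x hx =>
        obtain ⟨f, hf, s, hs, rfl⟩ := hx
        refine Submodule.subset_span ⟨l ++ [f], ?_, by simp [hlen], s, hs, ?_⟩
        · intro x hx
          rcases List.mem_append.1 hx with hx | hx
          · exact hl x hx
          · rw [List.mem_singleton] at hx
            rw [hx]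
            exact hf
        · rw [List.prod_append, List.prod_singleton]
          rfl
      | zero => rw [map_zero]; exact Submodule.zero_mem _
      | add x y _ _ hx hy => rw [map_add]; exact Submodule.add_mem _ hx hy
      | smul c x _ hx => rw [map_smul]; exact Submodule.smul_mem _ _ hx
  refine (key N).trans (sup_le le_rfl ?_)
  rw [Submodule.span_le]
  rintro _ ⟨l, hl, hlen, t, ht, rfl⟩
  rw [hN l hl hlen]
  exact Submodule.zero_mem _

/-- The sum of the multiplicities is strictly monotone. -/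
lemma sum_lt (w : Wed B) {T T' : Submodule K V} (hT : ∀ f ∈ B, ∀ t ∈ T, f t ∈ T)
    (hT' : ∀ f ∈ B, ∀ t ∈ T', f t ∈ T') (hlt : T' < T) :
    ∑ c, finrank K (T'.map (w.e (w.rep c))) < ∑ c, finrank K (T.map (w.e (w.rep c))) := by
  have hle : ∀ c ∈ (univ : Finset w.C), finrank K (T'.map (w.e (w.rep c))) ≤
      finrank K (T.map (w.e (w.rep c))) := fun c _ =>
    Submodule.finrank_mono (Submodule.map_mono hlt.le)
  by_contra hcon
  have heq := (Finset.sum_eq_sum_iff_of_le hle).1 (le_antisymm (Finset.sum_le_sum hle)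
    (not_lt.1 hcon))
  have heq' : ∀ c, T'.map (w.e (w.rep c)) = T.map (w.e (w.rep c)) := fun c =>
    Submodule.eq_of_le_of_finrank_eq (Submodule.map_mono hlt.le) (heq c (mem_univ c))
  apply hlt.not_ge
  apply le_of_le_sup hT'
  intro t ht
  have h3 : t = ∑ i, w.e i t := by
    have := congrArg (fun f => f t) w.e_sum
    simp only [LinearMap.sum_apply, Module.End.one_apply] at this
    exact this.symm
  rw [h3]
  refine Submodule.sum_mem _ fun i _ => ?_
  obtain ⟨u, hu, v, hv, heu, hue, hev, hve, huv, hvu⟩ :=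
    w.conn i (w.rep (w.κ i)) (w.κ_rep _).symm
  have h4 : w.e i t = u (v t) - (u * v - w.e i) t := by
    rw [LinearMap.sub_apply, Module.End.mul_apply]
    abel
  rw [h4]
  refine Submodule.sub_mem _ (Submodule.mem_sup_left ?_) (Submodule.mem_sup_right
    (Submodule.subset_span ⟨_, huv, t, ht, rfl⟩))
  apply hT' u hu
  have h5 : v t ∈ T.map (w.e (w.rep (w.κ i))) :=
    ⟨v t, hT v hv t ht, by rw [← Module.End.mul_apply, hev]⟩
  rw [← heq'] at h5
  obtain ⟨x, hx, h6⟩ := h5
  rw [← h6]
  exact hT' _ (w.e_mem _) x hx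

/-- A lower bound for the length. -/
theorem length_le (w : Wed B) : ∀ (l : List (End K V)), (∀ x ∈ l, x ∈ rad B) →
    ∀ T : Submodule K V, (∀ f ∈ B, ∀ t ∈ T, f t ∈ T) → ∀ t ∈ T, l.prod t ≠ 0 →
      l.length + 1 ≤ ∑ c, finrank K (T.map (w.e (w.rep c))) := by
  intro l
  induction l using List.reverseRecOn with
  | nil =>
    intro _ T hT t ht h0
    have h0' : t ≠ 0 := h0
    have h1 := sum_lt w (T' := ⊥) hT (fun f _ t ht => by
      rw [(Submodule.mem_bot _).1 ht, map_zero]; exact Submodule.zero_mem _)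
      (bot_lt_iff_ne_bot.2 fun h => h0' ((Submodule.mem_bot _).1 (h ▸ ht)))
    simp only [List.length_nil]
    omega
  | append_singleton l f ih =>
    intro hl T hT t ht h0
    have hf : f ∈ rad B := hl f (by simp)
    have h1 := ih (fun x hx => hl x (by simp [hx])) (radT B T) radT_stable (f t)
      (Submodule.subset_span ⟨f, hf, t, ht, rfl⟩) (by
        rw [List.prod_append, List.prod_singleton] at h0
        exact h0)
    have hne : T ≠ ⊥ := by
      rintro rfl
      rw [(Submodule.mem_bot _).1 ht, map_zero] at h0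
      exact h0 rfl
    have hlt : radT B T < T := by
      refine lt_of_le_of_ne (radT_le hT) fun h => hne ?_
      have h2 := le_of_le_sup (B := B) (T := T) (T' := ⊥) (fun f _ t ht => by
        rw [(Submodule.mem_bot _).1 ht, map_zero]; exact Submodule.zero_mem _)
        (by rw [h]; exact le_sup_right)
      exact (Submodule.eq_bot_iff T).2 fun x hx => (Submodule.mem_bot K).1 (h2 hx)
    have h2 := sum_lt w hT radT_stable hlt
    rw [List.length_append, List.length_singleton]
    omega

end Alg

section Law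

variable {α z : ℕ → ℕ} {b e : ℕ}

/-- **The effective limit law**, for arbitrary lower bounds of the limit. -/
theorem eff_law_gen (hb : 0 < b) (h0 : α 0 ≤ b)
    (h2 : ∀ n, α (n + 1) ^ 2 ≤ α n * α (n + 2)) (h3 : ∀ n, b ^ (n + 1) ≤ α n * (n + 2) ^ e)
    {κ : ℕ} (l : Level α z b κ) {S : ℕ} (hS : S ≤ ∑ c, l.s c * l.t c) {M : ℕ} (hM : 0 < M) :
    S * (1 - (κ + 1) * b ^ (κ + 1) * e * Real.log (M + 2) / M) * α M ≤ z M := by
  have hpos : ∀ n, 0 < α n := by
    intro n
    apply Nat.pos_of_ne_zero
    intro h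
    have := h3 n
    rw [h, zero_mul] at this
    exact absurd (pow_pos hb (n + 1)) (by omega)
  have hposR : ∀ n, (0 : ℝ) < α n := fun n => by exact_mod_cast hpos n
  have heta := eta_le hb h0 h2 h3 κ hM
  set η : ℝ := (b : ℝ) ^ (κ + 1) - (α (M + (κ + 1)) : ℝ) / α M with hη
  have e1 : ∀ c, (0 : ℝ) ≤ l.s c * α M - l.N M c := by
    intro c
    have := l.N_le M c
    have h4 : (l.N M c : ℝ) ≤ l.s c * α M := by exact_mod_cast this
    linarith
  have hN : ∀ c, ((l.s c : ℝ) - η) * α M ≤ l.N M c := by
    intro c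
    have e2 : (l.s c : ℝ) * α M - l.N M c ≤ ∑ c, (l.m c : ℝ) * (l.s c * α M - l.N M c) := by
      calc (l.s c : ℝ) * α M - l.N M c ≤ l.m c * (l.s c * α M - l.N M c) := by
            have h5 : (1 : ℝ) ≤ l.m c := by exact_mod_cast l.m_pos c
            nlinarith [e1 c]
        _ ≤ ∑ c, (l.m c : ℝ) * (l.s c * α M - l.N M c) :=
            Finset.single_le_sum (f := fun c => (l.m c : ℝ) * (l.s c * α M - l.N M c))
              (fun c _ => mul_nonneg (Nat.cast_nonneg _) (e1 c)) (Finset.mem_univ c)
    have e3 : ∑ c, (l.m c : ℝ) * (l.s c * α M - l.N M c) =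
        (∑ c, (l.m c : ℝ) * l.s c) * α M - ∑ c, (l.m c : ℝ) * l.N M c := by
      rw [Finset.sum_mul, ← Finset.sum_sub_distrib]
      apply Finset.sum_congr rfl
      intro c _
      ring
    have e4 : (∑ c, (l.m c : ℝ) * l.s c) ≤ (b : ℝ) ^ (κ + 1) := by exact_mod_cast l.sum_ms
    have e5 : (α (M + (κ + 1)) : ℝ) ≤ ∑ c, (l.m c : ℝ) * l.N M c := by
      have := l.le_sum M
      rw [show κ + M + 1 = M + (κ + 1) by ring] at this
      exact_mod_cast this
    have e6 : η * α M = (b : ℝ) ^ (κ + 1) * α M - α (M + (κ + 1)) := by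
      simp only [hη]
      have := (hposR M).ne'
      field_simp
    have e7 : (∑ c, (l.m c : ℝ) * l.s c) * α M ≤ (b : ℝ) ^ (κ + 1) * α M :=
      mul_le_mul_of_nonneg_right e4 (hposR M).le
    have e8 : ((l.s c : ℝ) - η) * α M = l.s c * α M - η * α M := by ring
    rw [e8, e6]
    linarith
  have hz0 : (0 : ℝ) ≤ z M := Nat.cast_nonneg _
  rcases le_or_gt 1 η with h1 | h1
  · refine le_trans ?_ hz0
    apply mul_nonpos_of_nonpos_of_nonneg _ (hposR M).le
    apply mul_nonpos_of_nonneg_of_nonpos (Nat.cast_nonneg _)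
    linarith
  · have hterm : ∀ c, (1 - η) * α M * ((l.s c * l.t c : ℕ) : ℝ) ≤ (l.N M c * l.t c : ℕ) := by
      intro c
      push_cast
      have ht : (0 : ℝ) ≤ l.t c := Nat.cast_nonneg _
      have hs : (1 - η) * α M * l.s c ≤ l.N M c := by
        rcases Nat.eq_zero_or_pos (l.s c) with h | h
        · rw [h, Nat.cast_zero, mul_zero]
          exact Nat.cast_nonneg _
        · refine le_trans ?_ (hN c)
          have h5 : (1 : ℝ) ≤ l.s c := by exact_mod_cast h
          have h6 := hposR M
          have h7 : (1 - η) * l.s c ≤ l.s c - η ∨ η < 0 := by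
            rcases lt_or_ge η 0 with h8 | h8
            · exact Or.inr h8
            · left; nlinarith
          rcases h7 with h7 | h7
          · calc (1 - η) * α M * l.s c = ((1 - η) * l.s c) * α M := by ring
              _ ≤ _ := mul_le_mul_of_nonneg_right h7 h6.le
          · -- `η` is nonnegative
            exfalso
            have h9 := hN c
            have h10 := e1 c
            nlinarith
      calc (1 - η) * α M * (l.s c * l.t c) = ((1 - η) * α M * l.s c) * l.t c := by ring
        _ ≤ _ := mul_le_mul_of_nonneg_right hs ht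
    have h5 : (∑ c, (l.N M c : ℝ) * l.t c) ≤ z M := by exact_mod_cast l.sum_le M
    have h6 : (1 - η) * α M * (∑ c, ((l.s c * l.t c : ℕ) : ℝ)) ≤ z M := by
      rw [Finset.mul_sum]
      refine le_trans (Finset.sum_le_sum fun c _ => hterm c) ?_
      push_cast
      exact h5
    have h7 : (S : ℝ) ≤ ∑ c, ((l.s c * l.t c : ℕ) : ℝ) := by exact_mod_cast hS
    have h8 : 0 ≤ (1 - η) * α M := mul_nonneg (by linarith) (hposR M).le
    have h9 : (1 - η) * α M * S ≤ z M := (mul_le_mul_of_nonneg_left h7 h8).trans h6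
    refine le_trans ?_ h9
    have h10 : (S : ℝ) * (1 - (κ + 1) * b ^ (κ + 1) * e * Real.log (M + 2) / M) ≤
        S * (1 - η) := mul_le_mul_of_nonneg_left (by linarith) (Nat.cast_nonneg _)
    calc S * (1 - (κ + 1) * b ^ (κ + 1) * e * Real.log (M + 2) / M) * α M
        ≤ S * (1 - η) * α M := mul_le_mul_of_nonneg_right h10 (hposR M).le
      _ = (1 - η) * α M * S := by ring

end Law

end Pool.Agent.R940
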