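import Pool.Agent.R940.DExc

/-!
# The excess law for arbitrary systems of classes and arbitrary coefficient fields
-/

set_option linter.unusedVariables false
set_option linter.unusedSectionVars false

open CategoryTheory AlgebraicGeometry CategoryTheory.Limits TensorProduct

universe u v

namespace Pool.Agent.R940

open Pool.Agent.H914 Pool.Agent.H447 Pool.Agent.W534 Pool.Agent.Y163 VarClass Obj WeilCohomology
  Module

variable {k : Type u} [Field k] {𝒱 : VarClass k} {ops : CycleOps 𝒱}
  {W : WeilCohomology.{u, v} ops} {X Y Z Z' U S : 𝒱.Obj}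

lemma base_maps {K : Type*} [Field K] {A B : Type*} [AddCommGroup A] [Module K A]
    [AddCommGroup B] [Module K B] (L : Type*) [Field L] [Algebra K L] {P : Submodule K A}
    {Q : Submodule K B} (f : A →ₗ[K] B) (h : ∀ a ∈ P, f a ∈ Q) {x : L ⊗[K] A}
    (hx : x ∈ P.baseChange L) : f.baseChange L x ∈ Q.baseChange L := by
  rw [Submodule.baseChange_eq_span] at hx
  induction hx using Submodule.span_induction with
  | mem x hx =>
    obtain ⟨a, ha, rfl⟩ := hx
    have h1 : f.baseChange L ((TensorProduct.mk K L A 1) a) = (1 : L) ⊗ₜ[K] f a := by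
      rw [TensorProduct.mk_apply, LinearMap.baseChange_tmul]
    rw [h1]
    exact Submodule.tmul_mem_baseChange_of_mem _ (h a ha)
  | zero => rw [map_zero]; exact Submodule.zero_mem _
  | add x y _ _ hx hy => rw [map_add]; exact Submodule.add_mem _ hx hy
  | smul c x _ hx => rw [map_smul]; exact Submodule.smul_mem _ _ hx

lemma base_zero {K : Type*} [Field K] {A B : Type*} [AddCommGroup A] [Module K A]
    [AddCommGroup B] [Module K B] (L : Type*) [Field L] [Algebra K L] {P : Submodule K A}
    (f : A →ₗ[K] B) (h : ∀ a ∈ P, f a = 0) {x : L ⊗[K] A}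
    (hx : x ∈ P.baseChange L) : f.baseChange L x = 0 := by
  have h1 := base_maps L (P := P) (Q := ⊥) f (fun a ha => (Submodule.mem_bot _).2 (h a ha)) hx
  rwa [Submodule.baseChange_bot, Submodule.mem_bot] at h1

/-- The extension of the coefficients of a subspace of the cohomology. -/
noncomputable def bsub (L : Type v) [Field L] [Algebra W.K L] {Y : 𝒱.Obj}
    (P : Submodule W.K (W.H Y)) : Submodule (baseW W L).K ((baseW W L).H Y) := P.baseChange L

lemma finrank_bsub (L : Type v) [Field L] [Algebra W.K L] (P : Submodule W.K (W.H Y)) :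
    finrank (baseW W L).K (bsub L P) = finrank W.K P := finrank_base L P

lemma mulLeft_base (L : Type v) [Field L] [Algebra W.K L] (c : W.H Y)
    (x : (baseW W L).H Y) : (show (baseW W L).H Y from (1 : L) ⊗ₜ[W.K] c) * x =
      (LinearMap.mulLeft W.K c).baseChange L x := by
  change (show L ⊗[W.K] W.H Y from (1 : L) ⊗ₜ[W.K] c) * (show L ⊗[W.K] W.H Y from x) =
    (LinearMap.mulLeft W.K c).baseChange L (show L ⊗[W.K] W.H Y from x)
  generalize (show L ⊗[W.K] W.H Y from x) = y
  induction y using TensorProduct.induction_on with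
  | zero => rw [mul_zero, map_zero]
  | tmul a b =>
    rw [Algebra.TensorProduct.tmul_mul_tmul, one_mul, LinearMap.baseChange_tmul,
      LinearMap.mulLeft_apply]
  | add a b ha hb => rw [mul_add, ha, hb, map_add]

/-- The extension of the coefficients of a system of subspaces. -/
noncomputable def baseF (F : SFam W) (L : Type v) [Field L] [Algebra W.K L] :
    SFam (baseW W L) where
  T Y j := bsub L (F.T Y j)
  cl_mul := by
    intro X p q z c hz hc
    have h1 : (baseW W L).cl X z * c = (LinearMap.mulLeft W.K (W.cl X z)).baseChange L c :=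
      mulLeft_base L (W.cl X z) c
    rw [h1]
    exact base_maps L _ (fun a ha => F.cl_mul hz ha) hc
  map := by
    intro X Y f p c hc
    exact base_maps L (W.map f).toLinearMap (fun a ha => F.map f ha) hc
  push := by
    intro X Y f p q c hc hpq
    exact base_maps L (W.push f) (fun a ha => F.push f ha hpq) hc
  push_zero := by
    intro X Y f p c hc hp
    exact base_zero L (W.push f) (fun a ha => F.push_zero f ha hp) hc

lemma baseF_T (F : SFam W) (L : Type v) [Field L] [Algebra W.K L] (Y : 𝒱.Obj) (j : ℕ) :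
    (baseF F L).T Y j = bsub L (F.T Y j) := rfl

lemma baseF_le {F : SFam W} (hF : ∀ Y j, spanCycles W Y (j : ℕ) ≤ F.T Y j) (L : Type v)
    [Field L] [Algebra W.K L] (Y : 𝒱.Obj) (j : ℕ) :
    spanCycles (baseW W L) Y (j : ℕ) ≤ (baseF F L).T Y j := by
  rw [spanCycles, Submodule.span_le]
  rintro _ ⟨p, hp, z, hz, rfl⟩
  obtain rfl : p = j := by exact_mod_cast hp
  have h1 : W.cl Y z ∈ F.T Y p := hF Y p (mem_span_cl hz)
  exact Submodule.tmul_mem_baseChange_of_mem (1 : L) h1

/-- If the system has no classes orthogonal to the algebraic ones then it is the system of the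
algebraic classes, and homological and numerical equivalence agree. -/
lemma perp_tate {F : SFam W} (hF : ∀ Y j, spanCycles W Y (j : ℕ) ≤ F.T Y j) {j l : ℕ}
    (hjl : j + l = Y.dim) (h1 : (perpS F).T Y j = ⊥) (h2 : (perpS F).T Y l = ⊥) :
    F.T Y j ≤ spanCycles W Y (j : ℕ) ∧ ∀ z, Y.IsCyc j z →
      (∀ w, Y.IsCyc (Y.dim - j) w → Y.V.degCycle (ops.mul z w) = 0) → W.cl Y z = 0 := by
  constructor
  · have h3 := le_kRank hF hjl h1 h2
    have h4 : spanCycles W Y (j : ℕ) = F.T Y j :=
      Submodule.eq_of_le_of_finrank_le (hF Y j) (h3.trans (kRank_le _ _))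
    rw [h4]
  · intro z hz hnum
    have h3 : W.cl Y z ∈ (perpS F).T Y j := by
      refine ⟨hF Y j (mem_span_cl hz), fun l' hl' a ha => ?_⟩
      obtain rfl : l' = l := by omega
      exact orth_of_num hjl.symm hz hnum a ha
    rw [h1] at h3
    exact (Submodule.mem_bot _).1 h3

/-- A class of the system on `Y` orthogonal to the algebraic classes gives one on `U × Y`. -/
lemma perp_prod_gen {F : SFam W} {E : U.Cycles} (hE : U.IsCyc 1 E)
    (hE2 : W.tr U (W.cl U E ^ U.dim) ≠ 0) {m j : ℕ} (hm : m ≤ U.dim)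
    (h : (perpS F).T Y j ≠ ⊥) : (perpS F).T (U.prod Y) (m + j) ≠ ⊥ := by
  obtain ⟨m', hm'⟩ := Nat.exists_eq_add_of_le hm
  obtain ⟨c, hc, hc0⟩ := (Submodule.ne_bot_iff _).1 h
  have hrec : W.push (snd U Y) (W.map (fst U Y) (W.cl U E ^ m') *
      (W.map (fst U Y) (W.cl U E ^ m) * W.map (snd U Y) c)) =
      W.tr U (W.cl U E ^ U.dim) • c := by
    rw [← mul_assoc, ← map_mul, ← pow_add, push_snd, show m' + m = U.dim by omega]
  refine (Submodule.ne_bot_iff _).2
    ⟨W.map (fst U Y) (W.cl U E ^ m) * W.map (snd U Y) c, ?_, fun h0 => ?_⟩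
  · have h1 := (perpS F).cl_mul (ops.pull_mem (fst U Y)
      (divPow_fund_mem (ops := ops) hE m)) ((perpS F).map (snd U Y) hc)
    rwa [W.cl_pull, cl_divPow_fund] at h1
  · rw [h0, mul_zero, map_zero] at hrec
    exact hc0 ((smul_eq_zero.1 hrec.symm).resolve_left hE2)

lemma perp_iso_gen {F : SFam W} (e : X ≅ Y) {j : ℕ} (h : (perpS F).T Y j ≠ ⊥) :
    (perpS F).T X j ≠ ⊥ := by
  obtain ⟨c, hc, hc0⟩ := (Submodule.ne_bot_iff _).1 h
  refine (Submodule.ne_bot_iff _).2 ⟨W.map e.hom c, (perpS F).map e.hom hc,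
    fun h0 => hc0 ?_⟩
  have h1 : W.map e.inv (W.map e.hom c) = c := by
    rw [← W.map_comp, e.inv_hom_id, W.map_id]
  rw [← h1, h0, map_zero]

/-- A class orthogonal to the algebraic classes on `Z × X ^ (κ + 1)` gives one near the middle
dimension of `Z × X ^ (2 κ + 2)`. -/
theorem perp_sq_gen {F : SFam W} {D : X.Cycles} (hD : X.IsCyc 1 D)
    (htr : W.tr X (W.cl X D ^ X.dim) ≠ 0) {κ j : ℕ} (hj : j ≤ (Z.prod (pw X κ)).dim)
    (hne : (perpS F).T (Z.prod (pw X κ)) j ≠ ⊥) :
    ∃ i, i ≤ Z.dim ∧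
      (perpS F).T (Z.prod (Pool.Agent.Y163.sq X κ)) ((κ + 1) * X.dim + i) ≠ ⊥ := by
  obtain ⟨E', hE', hE2⟩ := exists_big hD htr κ
  have hdU : (pw X κ).dim = (κ + 1) * X.dim := by rw [dim_pw]
  have hj' : j ≤ Z.dim + (pw X κ).dim := by rw [dim_prod] at hj; exact hj
  have e : Z.prod (Pool.Agent.Y163.sq X κ) ≅ (pw X κ).prod (Z.prod (pw X κ)) :=
    (assocIso Z (pw X κ) (pw X κ)).symm ≪≫
      prodIso (swapIso Z (pw X κ)) (Iso.refl _) ≪≫
      assocIso (pw X κ) Z (pw X κ)
  have hgo : ∀ i m, i ≤ Z.dim → m ≤ (pw X κ).dim → m + j = (κ + 1) * X.dim + i →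
      (perpS F).T (Z.prod (Pool.Agent.Y163.sq X κ)) ((κ + 1) * X.dim + i) ≠ ⊥ := by
    intro i m hi hm hmj
    have h1 := perp_prod_gen hE' hE2 hm hne
    rw [hmj] at h1
    exact perp_iso_gen e h1
  by_cases hjd : j ≤ (pw X κ).dim
  · exact ⟨0, Nat.zero_le _, hgo 0 ((pw X κ).dim - j) (Nat.zero_le _) (by omega) (by omega)⟩
  · exact ⟨j - (pw X κ).dim, by omega,
      hgo (j - (pw X κ).dim) 0 (by omega) (Nat.zero_le _) (by omega)⟩

lemma bsub_ne {P : Submodule W.K (W.H Y)} (L : Type v) [Field L] [Algebra W.K L] (h : P ≠ ⊥) :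
    bsub L P ≠ ⊥ := by
  intro h0
  apply h
  have h1 := finrank_bsub L P
  rw [h0, finrank_bot] at h1
  exact Submodule.finrank_eq_zero.1 h1.symm

/-- The extension of the coefficients maps classes orthogonal to the algebraic ones to such
classes. -/
lemma perp_base_le {F : SFam W} (L : Type v) [Field L] [Algebra W.K L] {j : ℕ} :
    bsub L ((perpS F).T Y j) ≤ (perpS (baseF F L)).T Y j := by
  intro x hx
  refine ⟨?_, fun l hl a ha => ?_⟩
  · exact Submodule.baseChange_mono L (p := (perpS F).T Y j) (q := F.T Y j)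
      (fun t ht => ht.1) hx
  · have key : ∀ w, Y.IsCyc l w → (baseW W L).tr Y (x * (baseW W L).cl Y w) = 0 := by
      intro w hw
      have h2 : ∀ y : L ⊗[W.K] W.H Y, y ∈ ((perpS F).T Y j).baseChange L →
          formBase L (W.tr Y) (y * ((1 : L) ⊗ₜ[W.K] W.cl Y w)) = 0 := by
        intro y hy
        rw [Submodule.baseChange_eq_span] at hy
        induction hy using Submodule.span_induction with
        | mem y hy =>
          obtain ⟨c, hc, rfl⟩ := hy
          have h4 : W.tr Y (c * W.cl Y w) = 0 := hc.2 l hl _ (mem_span_cl hw)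
          rw [TensorProduct.mk_apply, Algebra.TensorProduct.tmul_mul_tmul, formBase_tmul, h4,
            map_zero, mul_zero]
        | zero => rw [zero_mul, map_zero]
        | add a b _ _ ha hb => rw [add_mul, map_add, ha, hb, add_zero]
        | smul c a _ ha => rw [smul_mul_assoc, map_smul, ha, smul_zero]
      exact h2 x hx
    induction ha using Submodule.span_induction with
    | mem a ha =>
      obtain ⟨r, hr, w, hw, rfl⟩ := ha
      obtain rfl : r = l := by exact_mod_cast hr
      exact key w hw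
    | zero => rw [mul_zero, map_zero]
    | add a b _ _ ha hb => rw [mul_add, map_add, ha, hb, add_zero]
    | smul c a _ ha => rw [mul_smul_comm, map_smul, ha, smul_zero]

lemma perp_base_ne {F : SFam W} (L : Type v) [Field L] [Algebra W.K L] {j : ℕ}
    (h : (perpS F).T Y j ≠ ⊥) : (perpS (baseF F L)).T Y j ≠ ⊥ := by
  intro h0
  apply bsub_ne L h
  rw [eq_bot_iff, ← h0]
  exact perp_base_le L

/-- **The excess law for a system of classes.** -/
theorem sfam_excess (hX : SignStd W X) (hZ : SignStd W Z) {D : X.Cycles} (hD : X.IsCyc 1 D)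
    (hbig : Big ops X D) (F : SFam W) (hF : ∀ Y j, spanCycles W Y (j : ℕ) ≤ F.T Y j) :
    (∀ n, 0 < numRank ops (Y163.sq X n) ((n + 1) * X.dim)) ∧
    (∀ i n, i ≤ Z.dim →
      numRank ops (Z.prod (Y163.sq X n)) ((n + 1) * X.dim + i) ≤
        finrank W.K (F.T (Z.prod (Y163.sq X n)) ((n + 1) * X.dim + i)) ∧
      numRank ops (Z.prod (Y163.sq X n)) ((n + 1) * X.dim + i) ≤
        betti W Z * numRank ops (Y163.sq X n) ((n + 1) * X.dim)) ∧
    ∀ κ, ((∀ j, j ≤ (Z.prod (pw X κ)).dim →
          F.T (Z.prod (pw X κ)) j ≤ spanCycles W (Z.prod (pw X κ)) (j : ℕ)) ∧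
        HomEqNum W (Z.prod (pw X κ))) ∨
      ∃ i, i ≤ Z.dim ∧ ∀ n : ℕ, 0 < n →
        numRank ops (Z.prod (Y163.sq X n)) ((n + 1) * X.dim + i) +
          (1 - (κ + 1) * (betti W X : ℝ) ^ (2 * κ + 4) * Real.log (n + 2) / n) *
            numRank ops (Y163.sq X n) ((n + 1) * X.dim) ≤
          finrank W.K (F.T (Z.prod (Y163.sq X n)) ((n + 1) * X.dim + i)) := by
  set L := AlgebraicClosure W.K with hL
  have hcl : IsAlgClosed (baseW W L).K := inferInstanceAs (IsAlgClosed (AlgebraicClosure W.K))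
  have hparX := par_mem_base (W := W) (X := X) L (par_of_sign hX)
  have hparZ := par_mem_base (W := W) (X := Z) L (par_of_sign hZ)
  have htr : W.tr X (W.cl X D ^ X.dim) ≠ 0 := hbig.tr hD
  have hH : 0 < finrank (baseW W L).K ((baseW W L).H X) := by
    rw [finrank_baseW]
    have : Nontrivial (W.H X) := by
      by_contra hcon
      rw [not_nontrivial_iff_subsingleton] at hcon
      apply htr
      rw [Subsingleton.elim (W.cl X D ^ X.dim) 0, map_zero]
    exact finrank_pos
  have hdim : ∀ n i, i ≤ Z.dim → (n + 1) * X.dim + i + ((n + 1) * X.dim + (Z.dim - i)) =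
      (Z.prod (Pool.Agent.Y163.sq X n)).dim := by
    intro n i h
    rw [dim_prod, dim_sq]
    omega
  have hr : ∀ i n, i ≤ Z.dim →
      numRank ops (Z.prod (Pool.Agent.Y163.sq X n)) ((n + 1) * X.dim + i) =
      kRank (baseW W L) (Z.prod (Pool.Agent.Y163.sq X n)) ((n + 1) * X.dim + i)
        ((n + 1) * X.dim + (Z.dim - i)) := by
    intro i n hi
    have h1 := hdim n i hi
    rw [numRank_eq (W := baseW W L) (by omega)]
    congr 1
    omega
  have hFL := fun Y j => baseF_le hF L Y j
  refine ⟨fun n => ?_, fun i n hi => ⟨?_, ?_⟩, fun κ => ?_⟩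
  · rw [numRank_sq (W := baseW W L)]
    have h1 := mrank_growth (W := baseW W L) hparX n
    apply Nat.pos_of_ne_zero
    intro h0
    rw [h0, zero_mul] at h1
    have h2 : 0 < (finrank (baseW W L).K ((baseW W L).H X) ^ 2) ^ (n + 1) := by positivity
    omega
  · have h2 := kRank_add_le (F := baseF F L) hFL (hdim n i hi)
    rw [← hr i n hi, baseF_T, finrank_bsub] at h2
    exact le_trans (Nat.le_add_right _ _) h2
  · rw [hr i n hi, numRank_sq (W := baseW W L), betti, ← finrank_baseW (W := W) L]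
    exact kRank_prod_le hparZ hparX n (i := i) (by omega) rfl
  · by_cases hall : ∀ j, j ≤ (Z.prod (pw X κ)).dim → (perpS F).T (Z.prod (pw X κ)) j = ⊥
    · left
      constructor
      · intro j hj
        obtain ⟨l, hl⟩ := Nat.exists_eq_add_of_le hj
        exact (perp_tate hF hl.symm (hall j hj) (hall l (by omega))).1
      · intro j hj z hz hnum
        obtain ⟨l, hl⟩ := Nat.exists_eq_add_of_le hj
        exact (perp_tate hF hl.symm (hall j hj) (hall l (by omega))).2 z hz hnum
    right
    push Not at hall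
    obtain ⟨j, hj, hne⟩ := hall
    obtain ⟨i, hi, hne'⟩ := perp_sq_gen hD htr (Z := Z) (κ := κ) hj hne
    refine ⟨i, hi, fun n hn => ?_⟩
    have h1 := growth_of_ne hparX hH (perpS (baseF F L)) (perp_base_ne L hne') hn
    have h2 := kRank_add_le (F := baseF F L) hFL (hdim n i hi)
    rw [← numRank_sq (W := baseW W L), finrank_baseW] at h1
    rw [← hr i n hi, baseF_T, finrank_bsub] at h2
    have h4 : (numRank ops (Z.prod (Pool.Agent.Y163.sq X n)) ((n + 1) * X.dim + i) : ℝ) +
        finrank (baseW W L).K ((perpS (baseF F L)).T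
          (Z.prod (Pool.Agent.Y163.sq X n)) ((n + 1) * X.dim + i)) ≤
        finrank W.K (F.T (Z.prod (Pool.Agent.Y163.sq X n)) ((n + 1) * X.dim + i)) := by
      exact_mod_cast h2
    rw [betti]
    linarith

end Pool.Agent.R940
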