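import Mathlib

/-!
# Eigenvectors of operators with squarefree characteristic polynomial, and extension of scalars
-/

open TensorProduct Polynomial

namespace Pool.Agent.R940

open Module

section Homog

variable {F V α : Type*} [Field F] [AddCommGroup V] [Module F V]

/-- Eigenvectors belonging to simple eigenvalues are homogeneous. -/
theorem eig_homog {g : Module.End F V} {A : α → Submodule F V} (hind : iSupIndep A)
    (htop : ⨆ i, A i = ⊤) (hg : ∀ i, ∀ x ∈ A i, g x ∈ A i) {ι : Type*} (v : Basis ι F V)
    {μ : ι → F} (hμ : Function.Injective μ) (hv : ∀ l, g (v l) = μ l • v l) (l : ι) :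
    ∃ i, v l ∈ A i := by
  classical
  have hInt : DirectSum.IsInternal A :=
    (DirectSum.isInternal_submodule_iff_iSupIndep_and_iSup_eq_top A).2 ⟨hind, htop⟩
  let e := LinearEquiv.ofBijective (DirectSum.coeLinearMap A) hInt
  let π : α → V →ₗ[F] V := fun i =>
    (A i).subtype ∘ₗ DirectSum.component F α (fun i => A i) i ∘ₗ e.symm.toLinearMap
  have hπ : ∀ i x, π i x = ((e.symm x) i : V) := fun i x => rfl
  have hes : ∀ j (x : V) (hx : x ∈ A j), e.symm x = DirectSum.lof F α (fun i => A i) j ⟨x, hx⟩ := by
    intro j x hx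
    rw [LinearEquiv.symm_apply_eq]
    change x = DirectSum.coeLinearMap A _
    rw [DirectSum.coeLinearMap_lof]
  have hmem : ∀ i x, π i x ∈ A i := fun i x => ((e.symm x) i).2
  have hsame : ∀ j x, x ∈ A j → π j x = x := by
    intro j x hx
    rw [hπ, hes j x hx, DirectSum.lof_eq_of, DirectSum.of_eq_same]
  have hne : ∀ i j x, x ∈ A j → i ≠ j → π i x = 0 := by
    intro i j x hx hij
    rw [hπ, hes j x hx, DirectSum.lof_eq_of, DirectSum.of_eq_of_ne _ _ _ hij]
    rfl
  have hcomm : ∀ i x, π i (g x) = g (π i x) := by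
    intro i x
    have hx : x ∈ ⨆ i, A i := htop ▸ Submodule.mem_top
    induction hx using Submodule.iSup_induction' with
    | mem j x hx =>
      by_cases hij : i = j
      · subst hij
        rw [hsame i x hx, hsame i _ (hg i x hx)]
      · rw [hne i j x hx hij, hne i j _ (hg j x hx) hij, map_zero]
    | zero => rw [map_zero, map_zero, map_zero]
    | add x y _ _ hx hy => rw [map_add, map_add, map_add, map_add, hx, hy]
  have hex : ∃ i, π i (v l) ≠ 0 := by
    by_contra hcon
    push Not at hcon
    have h0 : e.symm (v l) = 0 := by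
      ext i
      have := hcon i
      rw [hπ] at this
      rw [this]
      rfl
    exact v.ne_zero l ((LinearEquiv.map_eq_zero_iff e.symm).1 h0)
  obtain ⟨i, hi⟩ := hex
  refine ⟨i, ?_⟩
  have h1 : g (π i (v l)) = μ l • π i (v l) := by rw [← hcomm, hv, map_smul]
  have h2 : ∀ m, m ≠ l → v.repr (π i (v l)) m = 0 := by
    intro m hm
    have h3 : ∀ x : V, v.repr (g x) m = μ m * v.repr x m := by
      intro x
      have h4 : (Finsupp.lapply m ∘ₗ v.repr.toLinearMap ∘ₗ g : V →ₗ[F] F) =
          μ m • (Finsupp.lapply m ∘ₗ v.repr.toLinearMap) := by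
        apply v.ext
        intro j
        simp only [LinearMap.comp_apply, LinearEquiv.coe_coe, Finsupp.lapply_apply,
          LinearMap.smul_apply, hv, map_smul, v.repr_self, smul_eq_mul]
        by_cases hj : j = m
        · subst hj; rfl
        · rw [Finsupp.single_eq_of_ne (Ne.symm hj), mul_zero, mul_zero]
      exact LinearMap.congr_fun h4 x
    have h5 := h3 (π i (v l))
    rw [h1, map_smul, Finsupp.smul_apply, smul_eq_mul] at h5
    have h6 : (μ l - μ m) * v.repr (π i (v l)) m = 0 := by rw [sub_mul, h5, sub_self]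
    exact (mul_eq_zero.1 h6).resolve_left (sub_ne_zero.2 fun h => hm (hμ h).symm)
  have h3 : π i (v l) = v.repr (π i (v l)) l • v l := by
    apply v.repr.injective
    ext m
    rw [map_smul, Finsupp.smul_apply, v.repr_self, smul_eq_mul]
    by_cases hm : m = l
    · subst hm; rw [Finsupp.single_eq_same, mul_one]
    · rw [h2 m hm, Finsupp.single_eq_of_ne hm, mul_zero]
  have h4 : v.repr (π i (v l)) l ≠ 0 := by
    intro h
    rw [h, zero_smul] at h3
    exact hi h3
  have h5 : v l = (v.repr (π i (v l)) l)⁻¹ • π i (v l) := by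
    conv_rhs => rw [h3, map_smul]
    simp only [Finsupp.smul_apply, v.repr_self, Finsupp.single_eq_same, smul_eq_mul, mul_one,
      smul_smul]
    rw [inv_mul_cancel₀ h4, one_smul]
  rw [h5]
  exact Submodule.smul_mem _ _ (hmem i _)

end Homog

section Basis

variable {K L V : Type*} [Field K] [CharZero K] [Field L] [Algebra K L] [AddCommGroup V]
  [Module K V] [Module.Finite K V]

/-- The eigenbasis over a splitting field. -/
theorem exists_eigbasis {f : Module.End K V} (hs : Squarefree f.charpoly)
    (hL : (f.charpoly.map (algebraMap K L)).Splits) :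
    ∃ (v : Basis (Fin (finrank K V)) L (L ⊗[K] V)) (μ : Fin (finrank K V) → L),
      Function.Injective μ ∧ ∀ l, f.baseChange L (v l) = μ l • v l := by
  classical
  have : CharZero L := charZero_of_injective_algebraMap (algebraMap K L).injective
  set g : Module.End L (L ⊗[K] V) := f.baseChange L with hg
  have hcp : g.charpoly = f.charpoly.map (algebraMap K L) := LinearMap.charpoly_baseChange f L
  have hsep : g.charpoly.Separable := by
    rw [hcp]
    exact (PerfectField.separable_iff_squarefree.2 hs).map
  have hnd : g.charpoly.roots.Nodup := nodup_roots hsep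
  have hcard : g.charpoly.roots.card = finrank K V := by
    rw [← hcp] at hL
    rw [← hL.natDegree_eq_card_roots, LinearMap.charpoly_natDegree, finrank_baseChange]
  set S := g.charpoly.roots.toFinset with hS
  have hScard : Fintype.card S = finrank K V := by
    rw [Fintype.card_coe, hS, Multiset.toFinset_card_of_nodup hnd, hcard]
  have e : Fin (finrank K V) ≃ S := (Fintype.equivFinOfCardEq hScard).symm
  have hev : ∀ μ : S, ∃ w, Module.End.HasEigenvector g (μ : L) w := by
    intro μ
    have h1 : g.charpoly.IsRoot (μ : L) :=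
      (mem_roots'.1 (Multiset.mem_toFinset.1 μ.2)).2
    exact (((Module.End.hasEigenvalue_iff_isRoot_charpoly g _).2 h1)).exists_hasEigenvector
  choose w hw using hev
  have hli : LinearIndependent L (fun l => w (e l)) :=
    Module.End.eigenvectors_linearIndependent' g (fun l => (e l : L))
      (Subtype.coe_injective.comp e.injective) _ (fun l => hw (e l))
  let v : Basis (Fin (finrank K V)) L (L ⊗[K] V) :=
    basisOfLinearIndependentOfCardEqFinrank' _ hli (by rw [Fintype.card_fin, finrank_baseChange])
  refine ⟨v, fun l => (e l : L), Subtype.coe_injective.comp e.injective, fun l => ?_⟩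
  have hvl : v l = w (e l) := by
    rw [coe_basisOfLinearIndependentOfCardEqFinrank']
  rw [hvl]
  exact (hw (e l)).apply_eq_smul

end Basis

section Change

variable {K L M A B : Type*} [Field K] [Field L] [Algebra K L] [Field M] [Algebra K M]
  [Ring A] [Algebra K A] [Ring B] [Algebra K B]

/-- The map on the extensions of an algebra induced by an embedding of the fields of coefficients. -/
noncomputable def cs (A : Type*) [Ring A] [Algebra K A] (σ : L →ₐ[K] M) :
    L ⊗[K] A →ₐ[K] M ⊗[K] A :=
  Algebra.TensorProduct.map σ (AlgHom.id K A)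

lemma cs_tmul (σ : L →ₐ[K] M) (l : L) (a : A) : cs A σ (l ⊗ₜ[K] a) = σ l ⊗ₜ[K] a := by
  rw [cs, Algebra.TensorProduct.map_tmul]
  rfl

lemma cs_ind {P : L ⊗[K] A → Prop} (h0 : P 0) (hadd : ∀ x y, P x → P y → P (x + y))
    (h : ∀ (l : L) (a : A), P (l ⊗ₜ a)) (x : L ⊗[K] A) : P x := by
  induction x using TensorProduct.induction_on with
  | zero => exact h0
  | add x y hx hy => exact hadd _ _ hx hy
  | tmul l a => exact h l a

lemma cs_smul (σ : L →ₐ[K] M) (c : L) (x : L ⊗[K] A) : cs A σ (c • x) = σ c • cs A σ x := by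
  refine cs_ind (P := fun x => cs A σ (c • x) = σ c • cs A σ x) ?_ ?_ ?_ x
  · rw [smul_zero, map_zero, smul_zero]
  · intro x y hx hy; rw [smul_add, map_add, hx, hy, map_add, smul_add]
  · intro l a
    rw [TensorProduct.smul_tmul', cs_tmul, cs_tmul, TensorProduct.smul_tmul', smul_eq_mul,
      smul_eq_mul, map_mul]

lemma cs_baseChange (σ : L →ₐ[K] M) (f : A →ₗ[K] A) (x : L ⊗[K] A) :
    cs A σ (f.baseChange L x) = f.baseChange M (cs A σ x) := by
  refine cs_ind (P := fun x => cs A σ (f.baseChange L x) = f.baseChange M (cs A σ x)) ?_ ?_ ?_ x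
  · rw [map_zero, map_zero, map_zero]
  · intro x y hx hy; rw [map_add, map_add, hx, hy, map_add, map_add]
  · intro l a
    rw [LinearMap.baseChange_tmul, cs_tmul, cs_tmul, LinearMap.baseChange_tmul]

lemma cs_map (σ : L →ₐ[K] M) (f : A →ₐ[K] B) (x : L ⊗[K] A) :
    cs B σ (Algebra.TensorProduct.map (AlgHom.id L L) f x) =
      Algebra.TensorProduct.map (AlgHom.id M M) f (cs A σ x) := by
  refine cs_ind (P := fun x => cs B σ (Algebra.TensorProduct.map (AlgHom.id L L) f x) =
      Algebra.TensorProduct.map (AlgHom.id M M) f (cs A σ x)) ?_ ?_ ?_ x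
  · rw [map_zero, map_zero, map_zero, map_zero]
  · intro x y hx hy; rw [map_add, map_add, hx, hy, map_add, map_add]
  · intro l a
    rw [Algebra.TensorProduct.map_tmul, cs_tmul, cs_tmul, Algebra.TensorProduct.map_tmul]
    rfl

lemma cs_mem {σ : L →ₐ[K] M} {p : Submodule K A} {x : L ⊗[K] A} (hx : x ∈ p.baseChange L) :
    cs A σ x ∈ p.baseChange M := by
  rw [Submodule.baseChange_eq_span] at hx
  induction hx using Submodule.span_induction with
  | mem x hx =>
    obtain ⟨a, ha, rfl⟩ := hx
    rw [TensorProduct.mk_apply, cs_tmul]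
    exact Submodule.tmul_mem_baseChange_of_mem _ ha
  | zero => rw [map_zero]; exact Submodule.zero_mem _
  | add x y _ _ hx hy => rw [map_add]; exact Submodule.add_mem _ hx hy
  | smul c x _ hx => rw [cs_smul]; exact Submodule.smul_mem _ _ hx

lemma cs_injective (σ : L →ₐ[K] M) : Function.Injective (cs A σ) := by
  have h := Module.Flat.rTensor_preserves_injective_linearMap (M := A) σ.toLinearMap σ.injective
  have h2 : ∀ x, cs A σ x = σ.toLinearMap.rTensor A x := by
    intro x
    refine cs_ind (P := fun x => cs A σ x = σ.toLinearMap.rTensor A x) ?_ ?_ ?_ x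
    · rw [map_zero, map_zero]
    · intro x y hx hy; rw [map_add, map_add, hx, hy]
    · intro l a; rw [cs_tmul, LinearMap.rTensor_tmul]; rfl
  intro x y hxy
  rw [h2, h2] at hxy
  exact h hxy

lemma cs_comp (σ : L →ₐ[K] M) (τ : L →ₐ[K] L) (x : L ⊗[K] A) :
    cs A σ (cs A τ x) = cs A (σ.comp τ) x := by
  refine cs_ind (P := fun x => cs A σ (cs A τ x) = cs A (σ.comp τ) x) ?_ ?_ ?_ x
  · rw [map_zero, map_zero, map_zero]
  · intro x y hx hy; rw [map_add, map_add, hx, hy, map_add]
  · intro l a; rw [cs_tmul, cs_tmul, cs_tmul]; rfl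

end Change

section Descent

variable {K L V : Type*} [Field K] [Field L] [Algebra K L] [AddCommGroup V] [Module K V]

/-- Membership in a subspace can be tested after extension of scalars. -/
lemma mem_of_baseChange {G : Submodule K V} {c : V}
    (h : (1 : L) ⊗ₜ[K] c ∈ G.baseChange L) : c ∈ G := by
  by_contra hc
  obtain ⟨φ, h1, h2⟩ := Submodule.exists_le_ker_of_notMem hc
  have h3 : ∀ x ∈ G.baseChange L, φ.baseChange L x = 0 := by
    intro x hx
    rw [Submodule.baseChange_eq_span] at hx
    induction hx using Submodule.span_induction with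
    | mem x hx =>
      obtain ⟨a, ha, rfl⟩ := hx
      rw [TensorProduct.mk_apply, LinearMap.baseChange_tmul, show φ a = 0 from h2 ha,
        TensorProduct.tmul_zero]
    | zero => rw [map_zero]
    | add x y _ _ hx hy => rw [map_add, hx, hy, add_zero]
    | smul c x _ hx => rw [map_smul, hx, smul_zero]
  have h4 := h3 _ h
  rw [LinearMap.baseChange_tmul] at h4
  have h5 := congrArg (TensorProduct.rid K L) h4
  rw [TensorProduct.rid_tmul, map_zero, Algebra.smul_def, mul_one] at h5
  exact h1 ((map_eq_zero (algebraMap K L)).1 h5)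

variable [FiniteDimensional K L] [IsGalois K L]

/-- The semilinear action of the Galois group. -/
noncomputable def gal (V : Type*) [AddCommGroup V] [Module K V] (τ : L ≃ₐ[K] L) :
    L ⊗[K] V →ₗ[K] L ⊗[K] V :=
  TensorProduct.map τ.toLinearMap LinearMap.id

omit [FiniteDimensional K L] [IsGalois K L] in
lemma gal_tmul (τ : L ≃ₐ[K] L) (l : L) (a : V) : gal V τ (l ⊗ₜ[K] a) = τ l ⊗ₜ[K] a := by
  rw [gal, TensorProduct.map_tmul]
  rfl

omit [FiniteDimensional K L] [IsGalois K L] in
lemma gal_smul (τ : L ≃ₐ[K] L) (c : L) (a : L ⊗[K] V) : gal V τ (c • a) = τ c • gal V τ a := by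
  induction a using TensorProduct.induction_on with
  | zero => rw [smul_zero, map_zero, smul_zero]
  | add x y hx hy => rw [smul_add, map_add, hx, hy, map_add, smul_add]
  | tmul l b =>
    rw [TensorProduct.smul_tmul', gal_tmul, gal_tmul, TensorProduct.smul_tmul', smul_eq_mul,
      smul_eq_mul, map_mul]

omit [FiniteDimensional K L] [IsGalois K L] in
lemma gal_gal (τ τ' : L ≃ₐ[K] L) (a : L ⊗[K] V) : gal V τ (gal V τ' a) = gal V (τ * τ') a := by
  induction a using TensorProduct.induction_on with
  | zero => rw [map_zero, map_zero, map_zero]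
  | add x y hx hy => rw [map_add, map_add, hx, hy, map_add]
  | tmul l b => rw [gal_tmul, gal_tmul, gal_tmul]; rfl

/-- The invariants of the Galois group. -/
lemma exists_of_invariant {x : L ⊗[K] V} (hx : ∀ τ : L ≃ₐ[K] L, gal V τ x = x) :
    ∃ a : V, (1 : L) ⊗ₜ[K] a = x := by
  classical
  let b := Module.Free.chooseBasis K V
  let bL := Algebra.TensorProduct.basis L b
  have h1 : ∀ (τ : L ≃ₐ[K] L) (y : L ⊗[K] V) i, bL.repr (gal V τ y) i = τ (bL.repr y i) := by
    intro τ y i
    induction y using TensorProduct.induction_on with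
    | zero => rw [map_zero, map_zero, Finsupp.zero_apply, map_zero]
    | add x y hx hy => rw [map_add, map_add, Finsupp.add_apply, hx, hy, map_add, Finsupp.add_apply,
        map_add]
    | tmul l a =>
      rw [gal_tmul, Algebra.TensorProduct.basis_repr_tmul, Algebra.TensorProduct.basis_repr_tmul,
        Finsupp.smul_apply, Finsupp.smul_apply, Finsupp.mapRange_apply, smul_eq_mul, smul_eq_mul,
        map_mul, AlgEquiv.commutes]
  have h2 : ∀ i, ∃ r : K, algebraMap K L r = bL.repr x i := by
    intro i
    have h3 := (IsGalois.mem_bot_iff_fixed (F := K) (bL.repr x i)).2 fun τ => by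
      rw [← h1, hx]
    exact IntermediateField.mem_bot.1 h3
  choose r hr using h2
  refine ⟨∑ i ∈ (bL.repr x).support, r i • b i, ?_⟩
  rw [TensorProduct.tmul_sum]
  conv_rhs => rw [← bL.linearCombination_repr x, Finsupp.linearCombination_apply, Finsupp.sum]
  refine Finset.sum_congr rfl fun i _ => ?_
  rw [← hr i, Algebra.TensorProduct.basis_apply, TensorProduct.smul_tmul', smul_eq_mul, mul_one,
    TensorProduct.tmul_smul, TensorProduct.smul_tmul', Algebra.smul_def, mul_one]

omit [IsGalois K L] in
/-- **Galois descent**: every vector is a combination of the traces of its multiples. -/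
lemma mem_span_traces (m : L ⊗[K] V) :
    m ∈ Submodule.span L (Set.range fun c : L => ∑ τ : L ≃ₐ[K] L, gal V τ (c • m)) := by
  classical
  by_contra hc
  obtain ⟨φ, h1, h2⟩ := Submodule.exists_le_ker_of_notMem hc
  have h3 : ∀ c : L, ∑ τ : L ≃ₐ[K] L, φ (gal V τ m) • ((τ : L →* L) c) = 0 := by
    intro c
    have h4 : φ (∑ τ : L ≃ₐ[K] L, gal V τ (c • m)) = 0 :=
      h2 (Submodule.subset_span ⟨c, rfl⟩)
    rw [map_sum] at h4
    rw [← h4]
    refine Finset.sum_congr rfl fun τ _ => ?_
    rw [gal_smul, map_smul, smul_eq_mul, smul_eq_mul, mul_comm]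
    rfl
  have h5 : LinearIndependent L (fun τ : L ≃ₐ[K] L => (((τ : L →* L) : L → L))) := by
    have h6 := linearIndependent_monoidHom L L
    refine h6.comp (fun τ : L ≃ₐ[K] L => ((τ : L →* L))) ?_
    intro τ τ' h
    ext x
    exact DFunLike.congr_fun h x
  have h7 := Fintype.linearIndependent_iff.1 h5 (fun τ => φ (gal V τ m)) (by
    ext c
    rw [Finset.sum_apply]
    exact h3 c) 1
  have h8 : gal V (1 : L ≃ₐ[K] L) m = m := by
    have : gal (L := L) V (1 : L ≃ₐ[K] L) = LinearMap.id := by
      ext
      rfl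
    rw [this]
    rfl
  rw [h8] at h7
  exact h1 h7

end Descent

end Pool.Agent.R940
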