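import Pool.Agent.R940.HFin
import Pool.Agent.R940.ADefs
import Pool.Agent.Y133.Half.PredSys
import Pool.Agent.Y121.AH.Abs
import Pool.Agent.Y121.AHS.Conv
import Pool.Agent.R914.UN.MotMain

/-!
# Bounded generation on the products with the powers of a variety of CM type: other classes of cycles
-/

set_option linter.unusedVariables false
set_option linter.unusedSectionVars false

open CategoryTheory AlgebraicGeometry CategoryTheory.Limits TensorProduct

universe u v

namespace Pool.Agent.R940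

open Pool.Agent.H914 Pool.Agent.H447 Pool.Agent.W534 Pool.Agent.Y163 VarClass Obj WeilCohomology
  Module
open Pool.Agent.Y121 Pool.Agent.Y121.AHS
open Pool.Agent.Y133.Half (ClassPred)

variable {k : Type u} [Field k] {𝒱 : VarClass k} {ops : CycleOps 𝒱}
variable {T : HodgeTheory ops} {X Z : 𝒱.Obj}

namespace ClassFam

variable (Q : ClassFam T)

/-- The space of the classes. -/
noncomputable def sp (Z : 𝒱.Obj) : Submodule T.W.K (T.W.H Z) :=
  Submodule.span T.W.K {c | ∃ j, Q.P Z j c}

variable {Q}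

lemma sp_of {j : ℕ} {c : T.W.H Z} (hc : Q.P Z j c) : c ∈ Q.sp Z := Submodule.subset_span ⟨j, hc⟩

lemma sp_ind {q : T.W.H Z → Prop} (h : ∀ j x, Q.P Z j x → q x) (h0 : q 0)
    (hadd : ∀ a b, q a → q b → q (a + b)) {x : T.W.H Z} (hx : x ∈ Q.sp Z) : q x := by
  have key : ∀ z, z ∈ Q.sp Z → (q z ∧ ∀ c : T.W.K, q (c • z)) := by
    intro z hz
    induction hz using Submodule.span_induction with
    | mem x hx => obtain ⟨j, hj⟩ := hx; exact ⟨h j x hj, fun c => h j _ (Q.smul c hj)⟩
    | zero => exact ⟨h0, fun c => by rw [smul_zero]; exact h0⟩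
    | add x y _ _ hx hy =>
      exact ⟨hadd x y hx.1 hy.1, fun c => by rw [smul_add]; exact hadd _ _ (hx.2 c) (hy.2 c)⟩
    | smul c x _ hx => exact ⟨hx.2 c, fun d => by rw [smul_smul]; exact hx.2 _⟩
  exact (key x hx).1

lemma sp_proj {x : T.W.H X} (hx : x ∈ Q.sp X) (j : ℕ) :
    Q.P X j (H914.proj (T.W.isInternal X) (2 * j) x) := by
  refine sp_ind (q := fun x => Q.P X j (H914.proj (T.W.isInternal X) (2 * j) x))
    ?_ ?_ ?_ hx
  · intro i x hx
    by_cases h : i = j
    · subst h
      rw [proj_same _ (Q.gr hx)]; exact hx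
    · rw [proj_ne _ (Q.gr hx) (by omega)]; exact Q.zero
  · rw [map_zero]; exact Q.zero
  · intro x y hx hy
    rw [map_add]; exact Q.add hx hy

lemma sp_mul {Y : 𝒱.Obj} {a b : T.W.H Y}
    (ha : a ∈ Q.sp Y) (hb : b ∈ Q.sp Y) : a * b ∈ Q.sp Y := by
  refine sp_ind (q := fun a => a * b ∈ Q.sp Y) ?_ ?_ ?_ ha
  · intro i a ha
    refine sp_ind (q := fun b => a * b ∈ Q.sp Y) ?_ ?_ ?_ hb
    · intro j b hb
      exact sp_of (Q.mul ha hb)
    · rw [mul_zero]; exact Submodule.zero_mem _
    · intro x y hx hy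
      rw [mul_add]; exact Submodule.add_mem _ hx hy
  · rw [zero_mul]; exact Submodule.zero_mem _
  · intro x y hx hy
    rw [add_mul]; exact Submodule.add_mem _ hx hy

/-- From the starting files' notion. -/
def ofPred (Q : ClassPred T.W) : ClassFam T where
  P := Q.P
  gr := Q.gr
  zero := Q.zero
  one := by
    intro X
    rw [← T.W.cl_fund]
    exact Q.cl (SmVar.fundCycle_mem _)
  add := Q.add
  smul := Q.smul
  mul := Q.mul
  map := Q.map

/-- The absolutely Hodge classes. -/
noncomputable def absolute (D : Conjugates T) : ClassFam T := ofPred (AH.absPred (toD D))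

lemma absolute_iff (D : Conjugates T) {Y : 𝒱.Obj} {j : ℕ} {c : T.W.H Y} :
    (absolute D).P Y j c ↔ IsAbsHodge D Y j c := Iff.rfl

/-- The motivated classes. -/
noncomputable def motivated (T : HodgeTheory ops) : ClassFam T := ofPred (R914.UN.motPred T.W)

lemma motivated_iff {Y : 𝒱.Obj} {j : ℕ} {c : T.W.H Y} :
    (motivated T).P Y j c ↔ R914.UN.IsMotivated T.W Y j c := Iff.rfl

end ClassFam

/-- **The reduction, for any class of cycles.** -/
theorem hodge_red_fam (hpos : NonnegTypes T) (hX : IsCM T X) (Q : ClassFam T)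
    (hH : HodgeIn Q (Z.prod (pw X (hodgeBound (finrank T.W.K (T.W.H X)) Z.dim - 1)))) (n : ℕ) :
    HodgeIn Q (Z.prod (pw X n)) := by
  intro j c hc
  rcases subsingleton_or_nontrivial (T.W.H X) with hs | hn
  · have := subsing_prod (Z := Z) hs n
    rw [Subsingleton.elim c 0]
    exact Q.zero
  have hN : 1 ≤ hodgeBound (finrank T.W.K (T.W.H X)) Z.dim := by
    have h1 : 0 < finrank T.W.K (T.W.H X) := finrank_pos
    exact Nat.mul_pos h1 (Nat.pow_pos (by omega))
  set N := hodgeBound (finrank T.W.K (T.W.H X)) Z.dim with hNd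
  have h1 := hodge_gen hpos hX n hc
  have h2 : c ∈ Q.sp (Z.prod (pw X n)) := by
    refine Algebra.adjoin_induction (p := fun c _ => c ∈ Q.sp (Z.prod (pw X n)))
      ?_ ?_ ?_ ?_ h1
    · rintro _ ⟨m, e, i, t, hm, he, ht, rfl⟩
      obtain ⟨r, g, hrg⟩ : ∃ (r : Fin (m + 1) → Fin (N - 1 + 1)) (g : Fin (N - 1 + 1) →
          Fin (m + 1)), g ∘ r = id := by
        have hle : m + 1 ≤ N - 1 + 1 := by omega
        refine ⟨Fin.castLE hle, fun i => if h : i.1 < m + 1 then ⟨i.1, h⟩ else 0, ?_⟩
        funext i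
        have h4 : ((Fin.castLE hle i : Fin (N - 1 + 1)) : ℕ) < m + 1 := i.2
        exact (dif_pos h4).trans (Fin.ext rfl)
      have ht1 : IsHodge T (Z.prod (pw X (N - 1))) i (T.W.map (projZ Z X r) t) :=
        isHodge_map _ ht
      have h5 := Q.map (projZ Z X e) (Q.map (projZ Z X g) (hH i _ ht1))
      rw [← T.W.map_comp (projZ Z X g), projZ_comp, hrg, projZ_id, T.W.map_id] at h5
      exact ClassFam.sp_of h5
    · intro r
      rw [Algebra.algebraMap_eq_smul_one]
      exact Submodule.smul_mem _ _ (ClassFam.sp_of Q.one)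
    · intro x y _ _ hx hy
      exact Submodule.add_mem _ hx hy
    · intro x y _ _ hx hy
      exact ClassFam.sp_mul hx hy
  have h3 := ClassFam.sp_proj h2 j
  rwa [proj_same _ hc.1] at h3

end Pool.Agent.R940
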