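import Pool.Agent.R940.HEig
import Pool.Agent.R940.HPig
import Pool.Agent.R940.BGen
import Pool.Agent.R940.HDefs
import Pool.Agent.Y121.AHS.Conv

/-!
# Types of the monomials
-/

set_option linter.unusedVariables false
set_option linter.unusedSectionVars false

open CategoryTheory AlgebraicGeometry CategoryTheory.Limits TensorProduct

universe u v

namespace Pool.Agent.R940

open Pool.Agent.H914 Pool.Agent.H447 Pool.Agent.W534 Pool.Agent.Y163 VarClass Obj WeilCohomology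
  Module
open Pool.Agent.Y121

variable {k : Type u} [Field k] {𝒱 : VarClass k} {ops : CycleOps 𝒱}

section Coord

variable {W : WeilCohomology.{u, v} ops} {X Z : 𝒱.Obj} {ι : Type v} [Fintype ι] [DecidableEq ι]

/-- The product of a class on `Z` with a monomial. -/
noncomputable def zm (B : HBasis W X ι) (n : ℕ) (z : W.H Z) (I : Fin (n + 1) → ι) :
    W.H (Z.prod (pw X n)) :=
  W.map (fst Z (pw X n)) z * W.map (snd Z (pw X n)) (mon B n I)

lemma zm_add (B : HBasis W X ι) (n : ℕ) (z z' : W.H Z) (I : Fin (n + 1) → ι) :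
    zm B n (z + z') I = zm B n z I + zm B n z' I := by
  rw [zm, map_add, add_mul]; rfl

lemma zm_smul (B : HBasis W X ι) (n : ℕ) (c : W.K) (z : W.H Z) (I : Fin (n + 1) → ι) :
    zm B n (c • z) I = c • zm B n z I := by
  rw [zm, map_smul, smul_mul_assoc]; rfl

lemma zm_sum (B : HBasis W X ι) (n : ℕ) {κ : Type*} (s : Finset κ) (z : κ → W.H Z)
    (I : Fin (n + 1) → ι) : zm B n (∑ m ∈ s, z m) I = ∑ m ∈ s, zm B n (z m) I := by
  rw [zm, map_sum, Finset.sum_mul]; rfl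

lemma exists_prodBasis (B : HBasis W X ι) (n : ℕ) {κ : Type*} (ζ : Basis κ W.K (W.H Z)) :
    ∃ β : Basis (κ × (Fin (n + 1) → ι)) W.K (W.H (Z.prod (pw X n))),
      ∀ m I, β (m, I) = zm B n (ζ m) I := by
  obtain ⟨b, hb⟩ := exists_monBasis B n
  refine ⟨(ζ.tensorProduct b).map (kappa W Z (pw X n)), fun m I => ?_⟩
  rw [Basis.map_apply, Basis.tensorProduct_apply, kappa_tmul, hb]
  rfl

lemma repr_prod (B : HBasis W X ι) {n : ℕ} {κ : Type*} [Finite κ] {ζ : Basis κ W.K (W.H Z)}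
    {β : Basis (κ × (Fin (n + 1) → ι)) W.K (W.H (Z.prod (pw X n)))}
    (hβ : ∀ m I, β (m, I) = zm B n (ζ m) I) (z : (Fin (n + 1) → ι) → W.H Z) (m : κ)
    (I : Fin (n + 1) → ι) : β.repr (∑ I, zm B n (z I) I) (m, I) = ζ.repr (z I) m := by
  classical
  cases nonempty_fintype κ
  have h1 : ∑ I, zm B n (z I) I = ∑ J, ∑ m, ζ.repr (z J) m • β (m, J) := by
    refine Finset.sum_congr rfl fun J _ => ?_
    conv_lhs => rw [← ζ.sum_repr (z J), zm_sum]
    exact Finset.sum_congr rfl fun m _ => by rw [zm_smul, hβ]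
  rw [h1, map_sum, Finsupp.finsetSum_apply, Finset.sum_eq_single I]
  · rw [map_sum, Finsupp.finsetSum_apply, Finset.sum_eq_single m]
    · rw [map_smul, Finsupp.smul_apply, β.repr_self, Finsupp.single_eq_same, smul_eq_mul, mul_one]
    · intro m' _ hm'
      rw [map_smul, Finsupp.smul_apply, β.repr_self, Finsupp.single_eq_of_ne, smul_zero]
      intro h
      exact hm' (Prod.ext_iff.1 h).1.symm
    · intro h; exact absurd (Finset.mem_univ _) h
  · intro J _ hJ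
    rw [map_sum, Finsupp.finsetSum_apply]
    refine Finset.sum_eq_zero fun m' _ => ?_
    rw [map_smul, Finsupp.smul_apply, β.repr_self, Finsupp.single_eq_of_ne, smul_zero]
    intro h
    exact hJ (Prod.ext_iff.1 h).2.symm
  · intro h; exact absurd (Finset.mem_univ _) h

lemma exists_coord (B : HBasis W X ι) (n : ℕ) (y : W.H (Z.prod (pw X n))) :
    ∃ z : (Fin (n + 1) → ι) → W.H Z, y = ∑ I, zm B n (z I) I := by
  classical
  let ζ := Module.Free.chooseBasis W.K (W.H Z)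
  obtain ⟨β, hβ⟩ := exists_prodBasis B n ζ
  refine ⟨fun I => ∑ m, β.repr y (m, I) • ζ m, ?_⟩
  conv_lhs => rw [← β.sum_repr y]
  rw [Fintype.sum_prod_type, Finset.sum_comm]
  refine Finset.sum_congr rfl fun I _ => ?_
  rw [zm_sum]
  exact Finset.sum_congr rfl fun m _ => by rw [zm_smul, hβ]

end Coord

section Hodge

variable (T : AH.HodgeTheory ops) {X Z : 𝒱.Obj} {ι : Type} [Fintype ι] [DecidableEq ι]

lemma pq_top (Y : 𝒱.Obj) : ⨆ r : ℤ × ℤ, T.pq Y r.1 r.2 = ⊤ := by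
  rw [eq_top_iff]
  intro x _
  refine cs_ind (K := T.W.K) (L := ℂ) (A := T.W.H Y)
    (P := fun x => (show (baseW T.W ℂ).H Y from x) ∈ ⨆ r : ℤ × ℤ, T.pq Y r.1 r.2)
    (Submodule.zero_mem _) (fun _ _ => Submodule.add_mem _) ?_ x
  intro l a
  have h1 : ∀ a : T.W.H Y, AH.em T.W ℂ a ∈ ⨆ r : ℤ × ℤ, T.pq Y r.1 r.2 := by
    intro a
    refine gr_induction (T.W.isInternal Y)
      (p := fun a => AH.em T.W ℂ a ∈ ⨆ r : ℤ × ℤ, T.pq Y r.1 r.2) ?_ ?_ a
    · intro i a ha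
      have h2 := T.dec.span ha
      refine (iSup_le ?_ : (⨆ r : {r : ℤ × ℤ // r.1 + r.2 = i}, T.pq Y r.1.1 r.1.2) ≤ _) h2
      intro r
      exact le_iSup (fun r : ℤ × ℤ => T.pq Y r.1 r.2) r.1
    · intro a b ha hb
      have h3 : AH.em T.W ℂ (a + b) = AH.em T.W ℂ a + AH.em T.W ℂ b := TensorProduct.tmul_add _ _ _
      rw [h3]
      exact Submodule.add_mem _ ha hb
  have h2 : (l ⊗ₜ[T.W.K] a : ℂ ⊗[T.W.K] T.W.H Y) = l • ((1 : ℂ) ⊗ₜ[T.W.K] a) := by
    rw [TensorProduct.smul_tmul', smul_eq_mul, mul_one]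
  have h3 := Submodule.smul_mem (⨆ r : ℤ × ℤ, T.pq Y r.1 r.2) (show (baseW T.W ℂ).K from l) (h1 a)
  rw [h2]
  exact h3

/-- The types of the monomials. -/
lemma mon_type {B : HBasis (baseW T.W ℂ) X ι} {a b : ι → ℤ}
    (hB : ∀ l, B.b l ∈ T.pq X (a l) (b l)) : ∀ (n : ℕ) (I : Fin (n + 1) → ι),
    mon B n I ∈ T.pq (pw X n) (∑ j, a (I j)) (∑ j, b (I j))
  | 0, I => by
    rw [Fin.sum_univ_one, Fin.sum_univ_one]
    exact hB (I 0)
  | n + 1, I => by
    have h1 := mon_type hB n (Fin.tail I)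
    have h2 := T.dec.mul (T.dec.map (fst X (pw X n)) (hB (I 0)))
      (T.dec.map (snd X (pw X n)) h1)
    have e1 : ∑ j, a (I j) = a (I 0) + ∑ j, a (Fin.tail I j) := Fin.sum_univ_succ _
    have e2 : ∑ j, b (I j) = b (I 0) + ∑ j, b (Fin.tail I j) := Fin.sum_univ_succ _
    rw [e1, e2]
    exact h2

/-- The types of the coordinates of a class. -/
lemma type_coord {B : HBasis (baseW T.W ℂ) X ι} {a b : ι → ℤ}
    (hB : ∀ l, B.b l ∈ T.pq X (a l) (b l)) {n : ℕ} {z : (Fin (n + 1) → ι) → (baseW T.W ℂ).H Z}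
    {p q : ℤ} (h : ∑ I, zm B n (z I) I ∈ T.pq (Z.prod (pw X n)) p q) (I : Fin (n + 1) → ι) :
    z I ∈ T.pq Z (p - ∑ j, a (I j)) (q - ∑ j, b (I j)) := by
  classical
  have hInt : DirectSum.IsInternal (fun r : ℤ × ℤ => T.pq Z r.1 r.2) :=
    (DirectSum.isInternal_submodule_iff_iSupIndep_and_iSup_eq_top _).2 ⟨T.dec.indep Z, pq_top T Z⟩
  let ζ := hInt.collectedBasis (fun r => Module.Free.chooseBasis (baseW T.W ℂ).K (T.pq Z r.1 r.2))
  have hfin := Module.Finite.finite_basis ζ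
  have hζ : ∀ m, ζ m ∈ T.pq Z m.1.1 m.1.2 := fun m => hInt.collectedBasis_mem _ m
  obtain ⟨β, hβ⟩ := exists_prodBasis B n ζ
  have key : ∀ m, ζ.repr (z I) m = 0 ∨ (m.1.1 = p - ∑ j, a (I j) ∧ m.1.2 = q - ∑ j, b (I j)) := by
    intro m
    by_cases hm : (m.1.1 + ∑ j, a (I j), m.1.2 + ∑ j, b (I j)) = (p, q)
    · right
      rw [Prod.ext_iff] at hm
      constructor
      · linarith [hm.1]
      · linarith [hm.2]
    · left
      rw [← repr_prod B hβ z m I]
      refine repr_zero (T.dec.indep (Z.prod (pw X n))) β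
        (fun r => (r.1.1.1 + ∑ j, a (r.2 j), r.1.1.2 + ∑ j, b (r.2 j))) ?_ (a₀ := (p, q)) h hm
      rintro ⟨m, J⟩
      rw [hβ]
      exact T.dec.mul (T.dec.map (fst Z (pw X n)) (hζ m))
        (T.dec.map (snd Z (pw X n)) (mon_type T hB n J))
  cases nonempty_fintype ((i : ℤ × ℤ) × Module.Free.ChooseBasisIndex (baseW T.W ℂ).K
    (T.pq Z i.1 i.2))
  rw [← ζ.sum_repr (z I)]
  refine Submodule.sum_mem _ fun m _ => ?_
  rcases key m with h1 | ⟨h1, h2⟩
  · rw [h1, zero_smul]; exact Submodule.zero_mem _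
  · refine Submodule.smul_mem _ _ ?_
    rw [← h1, ← h2]
    exact hζ m

end Hodge

end Pool.Agent.R940
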