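import Pool.Agent.R940.DLen

/-!
# Modules over an algebra modulo a nilpotent ideal
-/

set_option linter.unusedVariables false
set_option linter.unusedSectionVars false

namespace Pool.Agent.R940

open Module Pool.Agent.Y163 Finset

section Alg

variable {K : Type*} [Field K] [CharZero K] {V : Type*} [AddCommGroup V] [Module K V]
  [Module.Finite K V] {T : Type*} [AddCommGroup T] [Module K T]

/-- The operators on `T` which are lifts of elements of the radical. -/
def lrad (B : Subalgebra K (End K V)) (R : Subalgebra K (End K V × End K T)) :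
    Submodule K (End K T) where
  carrier := {F | ∃ f ∈ rad B, (f, F) ∈ R}
  zero_mem' := ⟨0, Submodule.zero_mem _, R.zero_mem⟩
  add_mem' := by
    rintro F G ⟨f, hf, hF⟩ ⟨g, hg, hG⟩
    exact ⟨f + g, Submodule.add_mem _ hf hg, R.add_mem hF hG⟩
  smul_mem' := by
    rintro c F ⟨f, hf, hF⟩
    exact ⟨c • f, Submodule.smul_mem _ _ hf, R.smul_mem hF c⟩

lemma mem_lrad {B : Subalgebra K (End K V)} {R : Subalgebra K (End K V × End K T)}
    {F : End K T} : F ∈ lrad B R ↔ ∃ f ∈ rad B, (f, F) ∈ R := Iff.rfl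

/-- The space spanned by the images of the operators which lift elements of the radical. -/
def lradT (B : Subalgebra K (End K V)) (R : Subalgebra K (End K V × End K T)) : Submodule K T :=
  Submodule.span K {x | ∃ F ∈ lrad B R, ∃ t, F t = x}

lemma lradT_mem {B : Subalgebra K (End K V)} {R : Subalgebra K (End K V × End K T)}
    {F : End K T} (hF : F ∈ lrad B R) (t : T) : F t ∈ lradT B R :=
  Submodule.subset_span ⟨F, hF, t, rfl⟩

variable {B : Subalgebra K (End K V)} {R : Subalgebra K (End K V × End K T)}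

lemma lrad_left (hR : ∀ p ∈ R, p.1 ∈ B) {p : End K V × End K T} (hp : p ∈ R) {F : End K T}
    (hF : F ∈ lrad B R) : p.2 * F ∈ lrad B R := by
  obtain ⟨f, hf, hF⟩ := hF
  exact ⟨p.1 * f, rad_mul_left hf (hR _ hp), R.mul_mem hp hF⟩

lemma lradT_stable (hR : ∀ p ∈ R, p.1 ∈ B) {p : End K V × End K T} (hp : p ∈ R) {x : T}
    (hx : x ∈ lradT B R) : p.2 x ∈ lradT B R := by
  induction hx using Submodule.span_induction with
  | mem x hx =>
    obtain ⟨F, hF, t, rfl⟩ := hx
    exact lradT_mem (lrad_left hR hp hF) t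
  | zero => rw [map_zero]; exact Submodule.zero_mem _
  | add x y _ _ hx hy => rw [map_add]; exact Submodule.add_mem _ hx hy
  | smul c x _ hx => rw [map_smul]; exact Submodule.smul_mem _ _ hx

/-- Nakayama's lemma. -/
lemma lradT_ne_top {N : ℕ} (hnil : ∀ l : List (End K T), (∀ F ∈ l, F ∈ lrad B R) →
    l.length = N → l.prod = 0) {t : T} (ht : t ≠ 0) : lradT B R ≠ ⊤ := by
  intro htop
  have key : ∀ n : ℕ, ∀ x : T, x ∈ Submodule.span K {y | ∃ l : List (End K T),
      (∀ F ∈ l, F ∈ lrad B R) ∧ l.length = n ∧ ∃ s, l.prod s = y} := by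
    intro n
    induction n with
    | zero => exact fun x => Submodule.subset_span ⟨[], by simp, rfl, x, by simp⟩
    | succ n ih =>
      intro x
      have hx : x ∈ lradT B R := htop ▸ Submodule.mem_top
      induction hx using Submodule.span_induction with
      | mem x hx =>
        obtain ⟨F, hF, s, rfl⟩ := hx
        have h1 := ih s
        induction h1 using Submodule.span_induction with
        | mem y hy =>
          obtain ⟨l, hl, hlen, s', rfl⟩ := hy
          refine Submodule.subset_span ⟨F :: l, ?_, by simp [hlen], s', ?_⟩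
          · intro G hG
            rcases List.mem_cons.1 hG with rfl | hG
            · exact hF
            · exact hl G hG
          · rw [List.prod_cons]
            rfl
        | zero => rw [map_zero]; exact Submodule.zero_mem _
        | add x y _ _ hx hy => rw [map_add]; exact Submodule.add_mem _ hx hy
        | smul c x _ hx => rw [map_smul]; exact Submodule.smul_mem _ _ hx
      | zero => exact Submodule.zero_mem _
      | add x y _ _ hx hy => exact Submodule.add_mem _ hx hy
      | smul c x _ hx => exact Submodule.smul_mem _ _ hx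
  apply ht
  have h1 := key N t
  have h2 : Submodule.span K {y | ∃ l : List (End K T),
      (∀ F ∈ l, F ∈ lrad B R) ∧ l.length = N ∧ ∃ s, l.prod s = y} ≤ ⊥ := by
    rw [Submodule.span_le]
    rintro _ ⟨l, hl, hlen, s, rfl⟩
    rw [hnil l hl hlen]
    simp
  exact (Submodule.mem_bot _).1 (h2 h1)

/-- If `T` is not zero then some primitive idempotent acts nontrivially modulo the radical. -/
theorem exists_good (w : Wed B) (hsurj : ∀ f ∈ B, ∃ F, (f, F) ∈ R) (hR : ∀ p ∈ R, p.1 ∈ B)
    {N : ℕ} (hnil : ∀ l : List (End K T), (∀ F ∈ l, F ∈ lrad B R) → l.length = N → l.prod = 0)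
    {t : T} (ht : t ≠ 0) : ∃ c, ∃ F, (w.e (w.rep c), F) ∈ R ∧ ∃ s, F s ∉ lradT B R := by
  by_contra hcon
  push Not at hcon
  apply lradT_ne_top hnil ht
  rw [Submodule.eq_top_iff']
  intro x
  choose E hE using fun i => hsurj (w.e i) (w.e_mem i)
  have hi : ∀ i, E i x ∈ lradT B R := by
    intro i
    obtain ⟨u, hu, v, hv, heu, hue, hev, hve, huv, hvu⟩ :=
      w.conn i (w.rep (w.κ i)) (w.κ_rep _).symm
    obtain ⟨U, hU⟩ := hsurj u hu
    obtain ⟨Y, hY⟩ := hsurj v hv
    obtain ⟨Er, hEr⟩ := hsurj _ (w.e_mem (w.rep (w.κ i)))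
    have h1 : U * (Er * Y) - E i ∈ lrad B R := by
      refine ⟨u * (w.e (w.rep (w.κ i)) * v) - w.e i, ?_,
        R.sub_mem (R.mul_mem hU (R.mul_mem hEr hY)) (hE i)⟩
      rw [hev]
      exact huv
    have h2 : (U * (Er * Y)) x ∈ lradT B R := by
      rw [Module.End.mul_apply, Module.End.mul_apply]
      exact lradT_stable hR hU (hcon _ _ hEr _)
    have h3 : E i x = (U * (Er * Y)) x - (U * (Er * Y) - E i) x := by
      rw [LinearMap.sub_apply, sub_sub_cancel]
    rw [h3]
    exact Submodule.sub_mem _ h2 (lradT_mem h1 x)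
  have h4 : 1 - ∑ i, E i ∈ lrad B R := by
    refine ⟨0, Submodule.zero_mem _, ?_⟩
    have h5 : ((0 : End K V), (1 : End K T) - ∑ i, E i) =
        (1 : End K V × End K T) - ∑ i, (w.e i, E i) := by
      apply Prod.ext
      · rw [Prod.fst_sub, Prod.fst_sum, w.e_sum]
        simp
      · rw [Prod.snd_sub, Prod.snd_sum]
        simp
    rw [h5]
    exact R.sub_mem R.one_mem (Subalgebra.sum_mem _ fun i _ => hE i)
  have h6 : x = (1 - ∑ i, E i) x + ∑ i, E i x := by
    rw [LinearMap.sub_apply, LinearMap.sum_apply, Module.End.one_apply, sub_add_cancel]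
  rw [h6]
  exact Submodule.add_mem _ (lradT_mem h4 x) (Submodule.sum_mem _ fun i _ => hi i)

variable {V₂ : Type*} [AddCommGroup V₂] [Module K V₂] [Module.Finite K V₂]
  {T₂ : Type*} [AddCommGroup T₂] [Module K T₂] {B₂ : Subalgebra K (End K V₂)}
  {P : Submodule K (V →ₗ[K] V₂)} {Q : Submodule K (V₂ →ₗ[K] V)}

/-- A lower bound for the dimension of `T₂`. -/
theorem mu_le_finrank [Module.Finite K T₂] (D : Duo B B₂ P Q) (w : Wed B)
    (hR : ∀ p ∈ R, p.1 ∈ B) (c : w.C)
    {RP : Submodule K ((V →ₗ[K] V₂) × (T →ₗ[K] T₂))}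
    {RQ : Submodule K ((V₂ →ₗ[K] V) × (T₂ →ₗ[K] T))}
    (hRP : ∀ x ∈ P, ∃ X, (x, X) ∈ RP) (hRQ : ∀ y ∈ Q, ∃ Y, (y, Y) ∈ RQ)
    (hcomp : ∀ p ∈ RP, ∀ q ∈ RQ, (q.1 ∘ₗ p.1, q.2 ∘ₗ p.2) ∈ R)
    {F : End K T} (hF : (w.e (w.rep c), F) ∈ R) {s : T} (hs : F s ∉ lradT B R) :
    mu P Q 1 (w.e (w.rep c)) ≤ finrank K T₂ := by
  classical
  obtain ⟨X, Y, hX, hY, -, hXe, heY, -, -, hdiag⟩ :=
    exists_dual_ops D w.prims B₂.one_mem (mul_one 1)
  choose X' hX' using fun a => hRP _ (hX c a)
  choose Y' hY' using fun a => hRQ _ (hY c a)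
  have h1 : ∀ a b, Y' b ∘ₗ X' a - (if a = b then F else 0) ∈ lrad B R := by
    intro a b
    refine ⟨_, hdiag c a b, ?_⟩
    by_cases hab : a = b
    · rw [if_pos hab, if_pos hab]
      exact R.sub_mem (hcomp _ (hX' a) _ (hY' b)) hF
    · rw [if_neg hab, if_neg hab, sub_zero, sub_zero]
      exact hcomp _ (hX' a) _ (hY' b)
  have h2 : F * F - F ∈ lrad B R := by
    refine ⟨0, Submodule.zero_mem _, ?_⟩
    have h3 := R.sub_mem (R.mul_mem hF hF) hF
    have h4 : ((w.e (w.rep c), F) * (w.e (w.rep c), F) - (w.e (w.rep c), F) :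
        End K V × End K T) = (0, F * F - F) := by
      apply Prod.ext
      · rw [Prod.fst_sub, Prod.fst_mul, w.e_mul, if_pos rfl, sub_self]
      · rfl
    rwa [h4] at h3
  have hli : LinearIndependent K (fun a => X' a (F s)) := by
    rw [Fintype.linearIndependent_iff]
    intro g hg b
    by_contra hb
    apply hs
    have h5 := congrArg (Y' b) hg
    rw [map_sum, map_zero] at h5
    have h6 : ∀ a, Y' b (g a • X' a (F s)) =
        g a • (Y' b ∘ₗ X' a - (if a = b then F else 0)) (F s) +
          if a = b then g b • F (F s) else 0 := by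
      intro a
      rw [map_smul, LinearMap.sub_apply, smul_sub, LinearMap.comp_apply]
      by_cases hab : a = b
      · rw [if_pos hab, if_pos hab, hab, sub_add_cancel]
      · rw [if_neg hab, if_neg hab, LinearMap.zero_apply, smul_zero, sub_zero, add_zero]
    simp only [h6] at h5
    rw [Finset.sum_add_distrib, Finset.sum_ite_eq' Finset.univ b, if_pos (Finset.mem_univ b)]
      at h5
    have h7 : g b • F (F s) ∈ lradT B R := by
      rw [eq_neg_of_add_eq_zero_right h5]
      exact Submodule.neg_mem _ (Submodule.sum_mem _ fun a _ =>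
        Submodule.smul_mem _ _ (lradT_mem (h1 a b) _))
    have h8 : F (F s) ∈ lradT B R := by
      have := Submodule.smul_mem _ (g b)⁻¹ h7
      rwa [inv_smul_smul₀ hb] at this
    have h9 : F s = F (F s) - (F * F - F) s := by
      rw [LinearMap.sub_apply, Module.End.mul_apply, sub_sub_cancel]
    rw [h9]
    exact Submodule.sub_mem _ h8 (lradT_mem h2 s)
  have h10 := hli.fintype_card_le_finrank
  rwa [Fintype.card_fin] at h10

end Alg

end Pool.Agent.R940
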