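import Pool.Agent.R940.NLaw

/-!
# The growth law for theories on which correspondences act
-/

set_option linter.unusedVariables false
set_option linter.unusedSectionVars false

open CategoryTheory AlgebraicGeometry CategoryTheory.Limits TensorProduct

universe u v w

namespace Pool.Agent.R940

open Pool.Agent.H914 Pool.Agent.H447 Pool.Agent.W534 Pool.Agent.Y163 VarClass Obj WeilCohomology
  Module

variable {k : Type u} [Field k] {𝒱 : VarClass k} {ops : CycleOps 𝒱}
  {W : WeilCohomology.{u, v} ops} {X Y Y' Y'' Z U S : 𝒱.Obj} {𝒯 : CorrTheory.{u, w} ops}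

/-- **The growth law.** -/
theorem growth_law (hX : SignStd W X) {D : X.Cycles} (hD : X.IsCyc 1 D) (hbig : Big ops X D)
    (hnil : NilPowers 𝒯 X) {κ : ℕ} {j e : ℤ} {x : 𝒯.T (pw X κ) j} (hx : x ≠ 0)
    (he : j - (κ + 1) * X.dim ≤ e) (he' : e ≤ j) :
    GrowsAt 𝒯 X ((κ + 1) * betti W X ^ (2 * κ + 4)) e := by
  intro n hn hfin
  set L := AlgebraicClosure W.K with hL
  have hcl : IsAlgClosed (baseW W L).K := inferInstanceAs (IsAlgClosed (AlgebraicClosure W.K))
  have hparX := par_mem_base (W := W) (X := X) L (par_of_sign hX)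
  have htr : (baseW W L).tr X ((baseW W L).cl X D ^ X.dim) ≠ 0 := hbig.tr hD
  have hH : 0 < finrank (baseW W L).K ((baseW W L).H X) := by
    have : Nontrivial ((baseW W L).H X) := by
      by_contra hcon
      rw [not_nontrivial_iff_subsingleton] at hcon
      apply htr
      rw [Subsingleton.elim ((baseW W L).cl X D ^ X.dim) 0, map_zero]
    exact finrank_pos
  obtain ⟨E, hE, hE2⟩ := exists_big (W := baseW W L) hD htr κ
  obtain ⟨m, hm⟩ : ∃ m : ℕ, (m : ℤ) = e - j + (κ + 1) * X.dim :=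
    ⟨(e - j + (κ + 1) * X.dim).toNat, Int.toNat_of_nonneg (by linarith)⟩
  have hmU : m ≤ (pw X κ).dim := by
    rw [dim_pw]
    have : (m : ℤ) ≤ ((κ + 1) * X.dim : ℕ) := by push_cast; linarith
    exact_mod_cast this
  obtain ⟨y, hy⟩ := exists_ne_sq (W := baseW W L) (par_pw_mem hparX κ) hE hE2
    (hnil κ j).1 hx hmU
  have h1 := theory_growth (W := baseW W L) (𝒯 := 𝒯) (κ := κ) (n := n) (j := j + m)
    (j' := (n + 1) * X.dim + e) hparX hH (by rw [hm]; ring) (hnil κ (j + m)).2 hy hn hfin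
  rw [← numRank_sq (W := baseW W L), finrank_baseW] at h1
  rw [rhoN, betti]
  push_cast
  exact h1

/-- The dichotomy. -/
theorem growth_dichotomy (hX : SignStd W X) {D : X.Cycles} (hD : X.IsCyc 1 D)
    (hbig : Big ops X D) (hnil : NilPowers 𝒯 X) {i : ℕ} (hi : SupportedTo 𝒯 i) (κ : ℕ) :
    VanishesOn 𝒯 (pw X κ) ∨
      ∃ e : ℕ, e ≤ i ∧ GrowsAt 𝒯 X ((κ + 1) * betti W X ^ (2 * κ + 4)) e := by
  by_cases h : VanishesOn 𝒯 (pw X κ)
  · exact Or.inl h
  right
  unfold VanishesOn at h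
  push Not at h
  obtain ⟨j, x, hx⟩ := h
  have h1 : ¬ (j < 0 ∨ ((pw X κ).dim : ℤ) + i < j) := fun h => hx (hi _ j x h)
  rw [dim_pw] at h1
  push Not at h1
  push_cast at h1
  refine ⟨(j - (κ + 1) * X.dim).toNat, ?_, growth_law hX hD hbig hnil hx ?_ ?_⟩
  · have : (((j - (κ + 1) * X.dim).toNat : ℕ) : ℤ) ≤ i := by
      rcases le_or_gt 0 (j - (κ + 1) * X.dim) with h2 | h2
      · rw [Int.toNat_of_nonneg h2]; linarith
      · rw [Int.toNat_of_nonpos h2.le]; exact_mod_cast Nat.zero_le i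
    exact_mod_cast this
  · exact Int.self_le_toNat _
  · rcases le_or_gt 0 (j - (κ + 1) * X.dim) with h2 | h2
    · rw [Int.toNat_of_nonneg h2]
      have : (0 : ℤ) ≤ (κ + 1) * X.dim := by positivity
      linarith
    · rw [Int.toNat_of_nonpos h2.le]
      exact_mod_cast h1.1

end Pool.Agent.R940
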