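import Pool.Agent.R940.WAlt
import Pool.Agent.R940.CMGal
import Pool.Agent.Y129.Law

/-!
# Semisimplicity of the Galois action and Tate classes orthogonal to the algebraic classes
-/

set_option linter.unusedVariables false
set_option linter.unusedSectionVars false

open CategoryTheory AlgebraicGeometry CategoryTheory.Limits TensorProduct

universe u v w

namespace Pool.Agent.R940

open Pool.Agent.H914 Pool.Agent.H447 Pool.Agent.W534 Pool.Agent.Y163 VarClass Obj WeilCohomology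
  Module

variable {k : Type u} [Field k] {𝒱 : VarClass k} {ops : CycleOps 𝒱}
  {W : WeilCohomology.{u, v} ops} {X Y : 𝒱.Obj} {Γ : Type w} [Group Γ]
  {G : GaloisSystem W Γ}

/-- The exterior product of classes on the factors. -/
noncomputable def vmul (W : WeilCohomology.{u, v} ops) (X : 𝒱.Obj) (n : ℕ) :
    MultilinearMap W.K (fun _ : Fin (n + 1) => W.H X) (W.H (pw X n)) :=
  (MultilinearMap.mkPiAlgebraFin W.K (n + 1) (W.H (pw X n))).compLinearMap
    fun j => (W.map (pr X n j)).toLinearMap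

lemma vmul_apply (n : ℕ) (x : Fin (n + 1) → W.H X) :
    vmul W X n x = (List.ofFn fun j => W.map (pr X n j) (x j)).prod := by
  rw [vmul, MultilinearMap.compLinearMap_apply, MultilinearMap.mkPiAlgebraFin_apply]
  rfl

/-- The alternating sum of the exterior products. -/
noncomputable def vA (W : WeilCohomology.{u, v} ops) (X : 𝒱.Obj) (n : ℕ) :
    W.H X [⋀^Fin (n + 1)]→ₗ[W.K] W.H (pw X n) := (vmul W X n).alternatization

lemma vA_apply (n : ℕ) (x : Fin (n + 1) → W.H X) :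
    vA W X n x = ∑ σ : Equiv.Perm (Fin (n + 1)), Equiv.Perm.sign σ •
      (List.ofFn fun j => W.map (pr X n j) (x (σ j))).prod := by
  rw [vA, MultilinearMap.alternatization_apply]
  refine Finset.sum_congr rfl fun σ _ => ?_
  rw [MultilinearMap.domDomCongr_apply, vmul_apply]

lemma vA_gr {n i : ℕ} {x : Fin (n + 1) → W.H X} (hx : ∀ j, x j ∈ W.gr X i) :
    vA W X n x ∈ W.gr (pw X n) (i * (n + 1)) := by
  rw [vA_apply]
  refine Submodule.sum_mem _ fun σ _ => ?_
  have h1 : (List.ofFn fun j => W.map (pr X n j) (x (σ j))).prod ∈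
      W.gr (pw X n) (∑ j : Fin (n + 1), i) :=
    ofFn_gr _ _ fun j => W.map_mem _ (hx _)
  rw [Finset.sum_const, Finset.card_univ, Fintype.card_fin, smul_eq_mul, mul_comm] at h1
  rcases Int.units_eq_one_or (Equiv.Perm.sign σ) with h | h
  · rw [h, one_smul]; exact h1
  · rw [h, Units.neg_smul, one_smul]; exact Submodule.neg_mem _ h1

/-- The action on the exterior products. -/
lemma vA_act (G : GaloisSystem W Γ) (X : 𝒱.Obj) (n : ℕ) : ∃ Δ : Subgroup Γ, Δ.FiniteIndex ∧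
    ∀ g ∈ Δ, ∀ x : Fin (n + 1) → W.H X,
      G.act (pw X n) g (vA W X n x) = vA W X n fun j => G.act X g (x j) := by
  choose D hD h1 using fun j : Fin (n + 1) => G.map (pr X n j)
  refine ⟨⨅ j, D j, Subgroup.finiteIndex_iInf hD, fun g hg x => ?_⟩
  rw [vA_apply, vA_apply, map_sum]
  refine Finset.sum_congr rfl fun σ _ => ?_
  rw [map_zsmul_unit]
  congr 1
  rw [map_list_prod, List.map_ofFn]
  congr 2
  funext j
  exact h1 j g ((Subgroup.mem_iInf.1 hg) j) _

/-- A homogeneous basis which contains given elements. -/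
lemma exists_hbasis_of {n i : ℕ} {V' : Submodule W.K (W.H X)} (hV : V' ≤ W.gr X i)
    (e : Basis (Fin (n + 1)) W.K V') : ∃ (ι : Type v) (_ : Finite ι) (B : HBasis W X ι)
      (I₀ : Fin (n + 1) → ι), Function.Injective I₀ ∧ ∀ j, B.b (I₀ j) = (e j : W.H X) := by
  have hli : LinearIndependent W.K (fun j => (e j : W.H X)) :=
    e.linearIndependent.map' V'.subtype (Submodule.ker_subtype _)
  have hs : LinearIndepOn W.K id (Set.range fun j => (e j : W.H X)) := hli.linearIndepOn_id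
  have hst : (Set.range fun j => (e j : W.H X)) ⊆ {x | ∃ d, x ∈ W.gr X d} := by
    rintro _ ⟨j, rfl⟩
    exact ⟨i, hV (e j).2⟩
  have ht : (⊤ : Submodule W.K (W.H X)) ≤ Submodule.span W.K {x | ∃ d, x ∈ W.gr X d} := by
    rw [← (W.isInternal X).submodule_iSup_eq_top, iSup_le_iff]
    exact fun d x hx => Submodule.subset_span ⟨d, hx⟩
  let b := Basis.extendLe hs hst ht
  have h1 : ∀ l, ∃ d, b l ∈ W.gr X d := fun l => Basis.extendLe_subset hs hst ht ⟨l, rfl⟩
  choose deg hdeg using h1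
  have h2 : ∀ j, ∃ l, b l = (e j : W.H X) := fun j =>
    Basis.subset_extendLe hs hst ht ⟨j, rfl⟩
  choose I₀ hI₀ using h2
  refine ⟨_, Module.Finite.finite_basis b, ⟨b, deg, hdeg⟩, I₀, fun j j' h => ?_, hI₀⟩
  apply hli.injective
  change (e j : W.H X) = (e j' : W.H X)
  rw [← hI₀ j, ← hI₀ j', h]

lemma kprod_ne_zero {U V : 𝒱.Obj} {y : W.H U} {x : W.H V} (hy : y ≠ 0) (hx : x ≠ 0) :
    W.map (fst U V) y * W.map (snd U V) x ≠ 0 := by
  rw [← kappa_tmul]
  intro h
  have h1 : y ⊗ₜ[W.K] x = 0 := by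
    apply (kappa W U V).injective
    rw [h, map_zero]
  obtain ⟨f, hf⟩ : ∃ f : Module.Dual W.K (W.H U), f y ≠ 0 := by
    by_contra hcon
    push Not at hcon
    exact hy ((Module.forall_dual_apply_eq_zero_iff W.K y).1 hcon)
  obtain ⟨f', hf'⟩ : ∃ f : Module.Dual W.K (W.H V), f x ≠ 0 := by
    by_contra hcon
    push Not at hcon
    exact hx ((Module.forall_dual_apply_eq_zero_iff W.K x).1 hcon)
  have h2 := congrArg (TensorProduct.lid W.K W.K ∘ TensorProduct.map f f') h1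
  rw [Function.comp_apply, TensorProduct.map_tmul, TensorProduct.lid_tmul, Function.comp_apply,
    map_zero, map_zero, smul_eq_mul] at h2
  exact mul_ne_zero hf hf' h2

lemma vA_ne_zero {n i : ℕ} {V' : Submodule W.K (W.H X)} (hV : V' ≤ W.gr X i)
    (e : Basis (Fin (n + 1)) W.K V') : vA W X n (fun j => (e j : W.H X)) ≠ 0 := by
  classical
  obtain ⟨ι, hι, B, I₀, hI, hB⟩ := exists_hbasis_of hV e
  obtain ⟨b, hb⟩ := exists_monBasis B n
  intro h0
  have h1 : ∀ σ : Equiv.Perm (Fin (n + 1)),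
      (List.ofFn fun j => W.map (pr X n j) ((e (σ j) : V') : W.H X)).prod = b (I₀ ∘ σ) := by
    intro σ
    rw [hb, mon_eq]
    congr 2
    funext j
    rw [Function.comp_apply, hB]
  rw [vA_apply] at h0
  have h2 := congrArg (fun x => b.repr x I₀) h0
  simp only [h1] at h2
  rw [map_zero, map_sum, Finsupp.finsetSum_apply, Finset.sum_eq_single 1] at h2
  · rw [Equiv.Perm.sign_one, one_smul, Equiv.Perm.coe_one, Function.comp_id, Basis.repr_self,
      Finsupp.single_eq_same] at h2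
    exact one_ne_zero h2
  · intro σ _ hσ
    have h3 : I₀ ∘ σ ≠ I₀ := by
      intro h
      apply hσ
      ext j
      rw [hI (congrFun h j)]
      rfl
    rcases Int.units_eq_one_or (Equiv.Perm.sign σ) with h | h
    · rw [h, one_smul, Basis.repr_self, Finsupp.single_eq_of_ne' h3]
    · rw [h, Units.neg_smul, one_smul, map_neg, Basis.repr_self, Finsupp.neg_apply,
        Finsupp.single_eq_of_ne' h3, neg_zero]
  · intro h; exact absurd (Finset.mem_univ _) h

/-- `H^i(X)` is a semisimple representation. -/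
def SemiIn (G : GaloisSystem W Γ) (X : 𝒱.Obj) (i : ℕ) : Prop :=
  ∀ V' : Submodule W.K (W.H X), V' ≤ W.gr X i → (∀ g, ∀ x ∈ V', G.act X g x ∈ V') →
    ∃ C : Submodule W.K (W.H X), C ≤ W.gr X i ∧ V' ⊓ C = ⊥ ∧ V' ⊔ C = W.gr X i ∧
      ∀ g, ∀ x ∈ C, G.act X g x ∈ C

/-- The characters which occur in the cohomology of `X ^ (n + 1)` occur, up to duality and twist, in
the cohomology of `Y`. -/
def CharsIn (G : GaloisSystem W Γ) (X Y : 𝒱.Obj) (n : ℕ) : Prop :=
  ∀ (d : ℕ) (ψ : Γ → W.K), Occurs G (pw X n) d ψ → ∃ (j J : ℕ) (φ : Γ → W.K), Occurs G Y j φ ∧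
    j + d = 2 * J ∧ AgreeFin (φ * ψ) fun g => (G.χ g : W.K) ^ J

/-- **A subrepresentation without complement gives Tate classes orthogonal to the algebraic
classes.** -/
theorem split_or_perp {n i : ℕ} (hY : CharsIn G X Y n) {V' : Submodule W.K (W.H X)}
    (hV : V' ≤ W.gr X i) (hs : ∀ g, ∀ x ∈ V', G.act X g x ∈ V')
    (e : Basis (Fin (n + 1)) W.K V') :
    (∃ J, (perpS (tateFam G)).T (Y.prod (pw X n)) J ≠ ⊥) ∨
      ∃ C : Submodule W.K (W.H X), C ≤ W.gr X i ∧ V' ⊓ C = ⊥ ∧ V' ⊔ C = W.gr X i ∧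
        ∀ g, ∀ x ∈ C, G.act X g x ∈ C := by
  classical
  set ℓ := vA W X n (fun j => (e j : W.H X)) with hℓ
  have hℓ0 : ℓ ≠ 0 := vA_ne_zero hV e
  have hℓg : ℓ ∈ W.gr (pw X n) (i * (n + 1)) := vA_gr fun j => hV (e j).2
  obtain ⟨Δ₀, hΔ₀, hact⟩ := vA_act G X n
  have hℓe : IsEigen G (pw X n) (fun g => e.det fun j => ⟨G.act X g (e j), hs g _ (e j).2⟩) ℓ := by
    refine ⟨Δ₀, hΔ₀, fun g hg => ?_⟩
    rw [hℓ, hact g hg]
    exact alt_scalar (vA W X n) e fun j => ⟨G.act X g (e j), hs g _ (e j).2⟩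
  obtain ⟨j, J, φ, ⟨y, hyg, hy0, hye⟩, hjJ, hag⟩ := hY _ _ ⟨ℓ, hℓg, hℓ0, hℓe⟩
  set c := W.map (fst Y (pw X n)) y * W.map (snd Y (pw X n)) ℓ with hc
  have hc0 : c ≠ 0 := kprod_ne_zero hy0 hℓ0
  have hcT : c ∈ tateSub G (Y.prod (pw X n)) J := by
    refine tate_iff.2 ⟨?_, (IsEigen.mul (hye.map _) (hℓe.map _)).agree hag⟩
    rw [← hjJ]
    exact W.mul_mem (W.map_mem _ hyg) (W.map_mem _ hℓg)
  by_cases hperp : ∀ l : ℕ, J + l = (Y.prod (pw X n)).dim →
      ∀ a ∈ spanCycles W (Y.prod (pw X n)) l, W.tr _ (c * a) = 0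
  · left
    exact ⟨J, (Submodule.ne_bot_iff _).2 ⟨c, ⟨hcT, hperp⟩, hc0⟩⟩
  right
  push Not at hperp
  obtain ⟨l, hl, a, ha, hca⟩ := hperp
  obtain ⟨z, hz, hcz⟩ : ∃ z, (Y.prod (pw X n)).IsCyc l z ∧
      W.tr _ (c * W.cl (Y.prod (pw X n)) z) ≠ 0 := by
    by_contra hcon
    push Not at hcon
    apply hca
    rw [spanCycles] at ha
    induction ha using Submodule.span_induction with
    | mem x hx =>
      obtain ⟨r, hr, z, hz, rfl⟩ := hx
      obtain rfl : r = l := by exact_mod_cast hr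
      exact hcon z hz
    | zero => rw [mul_zero, map_zero]
    | add x x' _ _ hx hx' =>
      rw [mul_add, map_add]
      by_cases h1 : W.tr _ (c * x) = 0
      · by_cases h2 : W.tr _ (c * x') = 0
        · rw [h1, h2, add_zero]
        · exact absurd (hx' h2) h2
      · exact absurd (hx h1) h1
    | smul r x _ hx =>
      rw [mul_smul_comm, map_smul]
      by_cases h1 : W.tr _ (c * x) = 0
      · rw [h1, smul_zero]
      · exact absurd (hx h1) h1
  set T := W.cl (Y.prod (pw X n)) z with hT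
  -- the alternating form
  let f : W.H (pw X n) →ₗ[W.K] W.K := W.tr (Y.prod (pw X n)) ∘ₗ
    LinearMap.mulRight W.K T ∘ₗ LinearMap.mulLeft W.K (W.map (fst Y (pw X n)) y) ∘ₗ
      (W.map (snd Y (pw X n))).toLinearMap
  have hf : ∀ x, f x = W.tr (Y.prod (pw X n)) (W.map (fst Y (pw X n)) y *
      W.map (snd Y (pw X n)) x * T) := fun x => rfl
  let F : W.H X [⋀^Fin (n + 1)]→ₗ[W.K] W.K := f.compAlternatingMap (vA W X n)
  have hF : ∀ x, F x = f (vA W X n x) := fun x => rfl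
  have hFe : F (fun j => (e j : W.H X)) ≠ 0 := by
    rw [hF, hf]
    exact hcz
  obtain ⟨h1, h2⟩ := alt_compl F e hFe (E := W.gr X i) hV
  -- the action
  obtain ⟨Δ₁, hΔ₁, hm1⟩ := G.map (fst Y (pw X n))
  obtain ⟨Δ₂, hΔ₂, hm2⟩ := G.map (snd Y (pw X n))
  obtain ⟨Δ₃, hΔ₃, hy'⟩ := hye
  obtain ⟨Δ₄, hΔ₄, hT'⟩ := (G.gal (Y.prod (pw X n))).cl_fix l T ⟨z, hz, rfl⟩
  have hact2 : ∀ g ∈ Δ₁ ⊓ Δ₂ ⊓ Δ₃ ⊓ Δ₄, ∀ x, f x = 0 → f (G.act (pw X n) g x) = 0 := by
    intro g hg x hx
    have hφ : φ g ≠ 0 := by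
      intro h0
      have h3 := hy' g hg.1.2
      rw [h0, zero_smul] at h3
      exact hy0 ((G.act Y g).injective (by rw [h3, map_zero]))
    have h3 : G.act _ g (W.map (fst Y (pw X n)) y * W.map (snd Y (pw X n)) x * T) =
        (φ g * (G.χ g : W.K) ^ l) • (W.map (fst Y (pw X n)) y *
          W.map (snd Y (pw X n)) (G.act (pw X n) g x) * T) := by
      rw [map_mul, map_mul, hm1 g hg.1.1.1, hm2 g hg.1.1.2, hy' g hg.1.2, hT' g hg.2, map_smul,
        smul_mul_assoc, smul_mul_smul_comm]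
    have h4 := (G.gal (Y.prod (pw X n))).tr_act g (W.map (fst Y (pw X n)) y *
      W.map (snd Y (pw X n)) x * T)
    rw [h3, map_smul, ← hf, ← hf, hx, mul_zero, smul_eq_mul] at h4
    exact (mul_eq_zero.1 h4).resolve_left (mul_ne_zero hφ (pow_ne_zero _ (Units.ne_zero _)))
  have hinv : ∀ (V : 𝒱.Obj) (g : Γ) (a : W.H V), G.act V g (G.act V g⁻¹ a) = a := by
    intro V g a
    have h1 : (G.act V g * G.act V g⁻¹) a = a := by
      rw [← map_mul, mul_inv_cancel, map_one]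
      rfl
    exact h1
  have h3 : ∀ g ∈ Δ₀ ⊓ (Δ₁ ⊓ Δ₂ ⊓ Δ₃ ⊓ Δ₄), ∀ x ∈ annihE F V' (W.gr X i),
      G.act X g x ∈ annihE F V' (W.gr X i) := by
    rintro g hg x ⟨hx1, hx2⟩
    refine ⟨(G.gal X).gr_mem g i x hx1, fun w => ?_⟩
    have h4 := hx2 fun j => ⟨G.act X g⁻¹ (w j), hs _ _ (w j).2⟩
    have h5 : (Matrix.vecCons (G.act X g x) fun j => (w j : W.H X)) =
        fun j => G.act X g ((Matrix.vecCons x fun j => G.act X g⁻¹ (w j)) j) := by
      funext j
      refine Fin.cases ?_ (fun j => ?_) j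
      · rfl
      · rw [Matrix.cons_val_succ, Matrix.cons_val_succ, hinv]
    rw [hF, h5, ← hact g hg.1]
    exact hact2 g hg.2 _ h4
  obtain ⟨C', hC1, hC2, hC3, hC4⟩ := avg_compl (fun g => (G.act X g).toLinearMap)
    (fun g h x => by
      have h6 : G.act X (g * h) = G.act X g * G.act X h := map_mul _ _ _
      change G.act X (g * h) x = G.act X g (G.act X h x)
      rw [h6]; rfl)
    (fun x => by
      have h6 : G.act X 1 = 1 := map_one _
      change G.act X 1 x = x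
      rw [h6]; rfl)
    hV (fun g x hx => (G.gal X).gr_mem g i x hx) hs _ inferInstance
    (show annihE F V' (W.gr X i) ≤ W.gr X i from fun x hx => hx.1) h1 h2 h3
  exact ⟨C', hC1, hC2, hC3, hC4⟩

/-- Semisimplicity, or Tate classes orthogonal to the algebraic classes. -/
theorem semi_or_perp (hY : ∀ n, n < betti W X → CharsIn G X Y n) : (∀ i, SemiIn G X i) ∨
    ∃ n, n < betti W X ∧ ∃ J, (perpS (tateFam G)).T (Y.prod (pw X n)) J ≠ ⊥ := by
  by_contra hcon
  push Not at hcon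
  obtain ⟨⟨i, hi⟩, hcon⟩ := hcon
  apply hi
  intro V' hV hs
  rcases Nat.eq_zero_or_pos (finrank W.K V') with h0 | h0
  · have h1 : V' = ⊥ := Submodule.finrank_eq_zero.1 h0
    refine ⟨W.gr X i, le_rfl, ?_, ?_, fun g x hx => (G.gal X).gr_mem g i x hx⟩
    · rw [h1, bot_inf_eq]
    · rw [h1, bot_sup_eq]
  · obtain ⟨n, hn⟩ : ∃ n, finrank W.K V' = n + 1 := ⟨finrank W.K V' - 1, by omega⟩
    have hnb : n < betti W X := by
      have := Submodule.finrank_le V'
      rw [betti]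
      omega
    rcases split_or_perp (hY n hnb) hV hs (Module.finBasisOfFinrankEq W.K V' hn) with ⟨J, hJ⟩ | h
    · exact absurd (hcon n hnb J) hJ
    · exact h

/-- A class orthogonal to the algebraic classes contradicts the strong Tate conjecture. -/
lemma not_strong {U : 𝒱.Obj} {J : ℕ} (h : (perpS (tateFam G)).T U J ≠ ⊥) : ¬ StrongTate G U := by
  rintro ⟨h1, h2⟩
  obtain ⟨c, ⟨hcT, hc⟩, hc0⟩ := (Submodule.ne_bot_iff _).1 h
  apply hc0
  have hJ : J ≤ U.dim := by
    by_contra hcon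
    apply hc0
    have h3 := (tate_iff.1 hcT).1
    rw [W.gr_eq_bot U _ (by omega)] at h3
    exact (Submodule.mem_bot _).1 h3
  obtain ⟨l, hl⟩ := Nat.exists_eq_add_of_le hJ
  have h3 : c ∈ spanCycles W U (J : ℕ) := h1 J hJ hcT
  refine HomEqNumIn.span hl.symm (h2 J hJ) h3 fun w hw => ?_
  rw [W.even_comm (W.cl_mem hw)]
  exact hc l hl.symm _ (mem_span_cl hw)

end Pool.Agent.R940
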