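import Pool.Agent.R940.VDefs
import Pool.Agent.R940.TExc
import Pool.Agent.R940.WSs
import Pool.Agent.R940.CMFin

/-!
# The excess law and semisimplicity for the systems with short definitions
-/

set_option linter.unusedVariables false
set_option linter.unusedSectionVars false

open CategoryTheory AlgebraicGeometry CategoryTheory.Limits TensorProduct

universe u v w

namespace Pool.Agent.R940

open Pool.Agent.H914 Pool.Agent.H447 Pool.Agent.W534 Pool.Agent.Y163 VarClass Obj WeilCohomology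
  Module

section Alg

variable {K : Type*} [Field K] {A : Type*} [Ring A] [Algebra K A] {Γ : Type*} [Group Γ]

/-- The character as a homomorphism to the units. -/
def Chr.hom (χ : Chr K Γ) : Γ →* Kˣ :=
  MonoidHom.toHomUnits { toFun := χ.val, map_one' := χ.one, map_mul' := χ.mul }

lemma Chr.hom_apply (χ : Chr K Γ) (g : Γ) : (χ.hom g : K) = χ.val g := rfl

/-- The action as a homomorphism. -/
def AAct.hom (ρ : AAct K A Γ) : Γ →* (A ≃ₐ[K] A) :=
  MonoidHom.mk' ρ.aut fun g h => AlgEquiv.ext fun a => ρ.mul g h a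

end Alg

variable {k : Type u} [Field k] {𝒱 : VarClass k} {ops : CycleOps 𝒱}
  {W : WeilCohomology.{u, v} ops} {X Y Z : 𝒱.Obj} {Γ : Type w} [Group Γ]

/-- The Galois system in the sense of the file `TDefs`. -/
def GSys.old (G : GSys W Γ) : GaloisSystem W Γ where
  χ := G.χ.hom
  act Y := (G.act Y).hom
  gal Y :=
    { gr_mem := fun g i a ha => (G.gal Y).gr_mem g i a ha
      tr_act := fun g a => (G.gal Y).tr_act g a
      cl_act := by
        rintro g j _ ⟨z, hz, rfl⟩
        obtain ⟨z', hz', h⟩ := (G.gal Y).cl_act g j z hz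
        exact ⟨W.cl Y z', ⟨z', hz', rfl⟩, h⟩
      cl_fix := by
        rintro j _ ⟨z, hz, rfl⟩
        exact (G.gal Y).cl_fix j z hz }
  map f := G.map f

variable {G : GSys W Γ}

lemma isTateCl_iff {j : ℕ} {c : W.H Y} :
    IsTateCl G.χ (G.act Y) (W.gr Y) j c ↔ c ∈ tateSub G.old Y j := Iff.rfl

lemma tateNo_eq (Y : 𝒱.Obj) (j : ℕ) : tateNo G Y j = tateRank G.old Y j := by
  have h : Submodule.span W.K {c | IsTateCl G.χ (G.act Y) (W.gr Y) j c} = tateSub G.old Y j :=
    le_antisymm (Submodule.span_le.2 fun c hc => hc) fun c hc => Submodule.subset_span hc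
  rw [tateNo, tateDim, h]
  rfl

lemma strongTateG_iff : StrongTateG G Y ↔ StrongTate G.old Y :=
  ⟨fun h => ⟨fun j _ c hc => h.1 j c hc, h.2⟩, fun h => ⟨fun j c hc => h.1.all j hc, h.2⟩⟩

/-- The excess law in terms of `ExcessG`. -/
theorem strong_or_excess (hX : SignStd W X) (hY : SignStd W Y) {D : X.Cycles} (hD : X.IsCyc 1 D)
    (hbig : Big ops X D) (κ : ℕ) :
    StrongTateG G (Y.prod (pw X κ)) ∨ ExcessG G Y X ((κ + 1) * betti W X ^ (2 * κ + 4)) := by
  rcases (tate_excess hX hY hD hbig G.old).2.2 κ with h | ⟨i, hi, h⟩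
  · exact Or.inl (strongTateG_iff.2 h)
  · refine Or.inr ⟨i, hi, fun n hn => ?_⟩
    rw [tateNo_eq]
    have := h n hn
    rw [cycNo, rhoNo]
    push_cast
    exact this

lemma ExcessG.mono {C C' : ℕ} (h : ExcessG G Y X C) (hC : C ≤ C') : ExcessG G Y X C' := by
  obtain ⟨i, hi, h⟩ := h
  refine ⟨i, hi, fun n hn => le_trans ?_ (h n hn)⟩
  have h1 : (C : ℝ) ≤ C' := by exact_mod_cast hC
  have h4 : 0 ≤ Real.log ((n : ℝ) + 2) := Real.log_nonneg (by
    have : (0 : ℝ) ≤ n := Nat.cast_nonneg n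
    linarith)
  have h5 : (C : ℝ) * Real.log (n + 2) / n ≤ C' * Real.log (n + 2) / n :=
    div_le_div_of_nonneg_right (mul_le_mul_of_nonneg_right h1 h4) (Nat.cast_nonneg n)
  have h6 : (0 : ℝ) ≤ rhoNo ops X n := Nat.cast_nonneg _
  nlinarith [mul_le_mul_of_nonneg_right h5 h6]

/-- A stable subspace without stable complement leads to an excess of Tate classes. -/
theorem splits_or_excess (hX : SignStd W X) (hY : SignStd W Y) {D : X.Cycles} (hD : X.IsCyc 1 D)
    (hbig : Big ops X D) {κ : ℕ} (h : DualsIn G (pw X κ) Y) :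
    SplitsG G X (κ + 1) ∨ ¬ StrongTateG G (Y.prod (pw X κ)) ∧
      ExcessG G Y X ((κ + 1) * betti W X ^ (2 * κ + 4)) := by
  by_cases hS : StrongTateG G (Y.prod (pw X κ))
  · left
    intro i V hV hs hr
    rcases split_or_perp (G := G.old) (X := X) (Y := Y) h hV hs
      (Module.finBasisOfFinrankEq W.K V hr) with ⟨J, hJ⟩ | ⟨C, h1, h2, h3, h4⟩
    · exact absurd (strongTateG_iff.1 hS) (not_strong hJ)
    · exact ⟨C, h1, h2, h3, h4⟩
  · exact Or.inr ⟨hS, (strong_or_excess hX hY hD hbig κ).resolve_left hS⟩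

lemma const_le {b κ : ℕ} (h : κ < b) : (κ + 1) * b ^ (2 * κ + 4) ≤ b ^ (2 * b + 3) := by
  calc (κ + 1) * b ^ (2 * κ + 4) ≤ b * b ^ (2 * b + 2) :=
        Nat.mul_le_mul h (Nat.pow_le_pow_right (by omega) (by omega))
    _ = b ^ (2 * b + 3) := by ring

/-- **Semisimplicity, or an excess of Tate classes on all products with powers.** -/
theorem semisimple_or_excess (hX : SignStd W X) (hY : SignStd W Y) {D : X.Cycles}
    (hD : X.IsCyc 1 D) (hbig : Big ops X D) (h : ∀ κ, κ < betti W X → DualsIn G (pw X κ) Y) :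
    SemisimpleG G X ∨ ExcessG G Y X (betti W X ^ (2 * betti W X + 3)) := by
  by_cases hcon : SemisimpleG G X
  · exact Or.inl hcon
  right
  simp only [SemisimpleG, IsSemisimpleOn] at hcon
  push Not at hcon
  obtain ⟨i, V, hV, hs, hn⟩ := hcon
  rcases Nat.eq_zero_or_pos (finrank W.K V) with h0 | h0
  · exfalso
    have h1 : V = ⊥ := Submodule.finrank_eq_zero.1 h0
    refine hn ⟨W.gr X i, le_rfl, ?_, ?_, fun g x hx => (G.gal X).gr_mem g i x hx⟩
    · rw [h1, bot_inf_eq]
    · rw [h1, bot_sup_eq]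
  obtain ⟨κ, hκ⟩ : ∃ κ, finrank W.K V = κ + 1 := ⟨finrank W.K V - 1, by omega⟩
  have hκb : κ < betti W X := by
    have := Submodule.finrank_le V
    rw [betti]
    omega
  rcases splits_or_excess hX hY hD hbig (h κ hκb) with h1 | ⟨_, h1⟩
  · exact absurd (h1 i V hV hs hκ) hn
  · exact h1.mono (const_le hκb)

end Pool.Agent.R940
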