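import Pool.Agent.R940.NChDefs
import Pool.Agent.R940.NFin
import Pool.Agent.R940.VConv

/-!
# The numerically trivial classes in the Chow groups
-/

set_option linter.unusedVariables false
set_option linter.unusedSectionVars false

open CategoryTheory AlgebraicGeometry CategoryTheory.Limits TensorProduct

universe u v w w'

namespace Pool.Agent.R940

open Pool.Agent.H914 Pool.Agent.H447 Pool.Agent.W534 Pool.Agent.Y163 VarClass Obj WeilCohomology
  Module

variable {k : Type u} [Field k] {𝒱 : VarClass k} {ops : CycleOps 𝒱}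
  {W : WeilCohomology.{u, v} ops} {X Y Y' Y'' Z U S : 𝒱.Obj} {C : ChowGrp.{u, w} ops}

/-- The class of a cycle as a linear map. -/
noncomputable def clsHom (C : ChowGrp.{u, w} ops) (Y : 𝒱.Obj) (p : ℕ) :
    cycSub Y p →ₗ[ℚ] C.T Y p :=
  AddMonoidHom.toRatLinearMap (AddMonoidHom.mk' (fun z => C.cls Y p (z : Y.Cycles))
    fun z z' => C.cls_add z.2 z'.2)

lemma clsHom_apply {p : ℕ} (z : cycSub Y p) : clsHom C Y p z = C.cls Y p (z : Y.Cycles) := rfl

lemma CorrTheory.act_zero {𝒯 : CorrTheory.{u, w} ops} {j j' : ℤ} {z : (Y.prod Y').Cycles}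
    (h : CorrDeg (j' - j) z) : 𝒯.act j j' z 0 = 0 := by
  have h1 := 𝒯.act_add h 0 0
  rw [add_zero] at h1
  exact left_eq_add.1 h1

/-- The numerically trivial classes. -/
noncomputable def numSub (C : ChowGrp.{u, w} ops) (W : WeilCohomology.{u, v} ops) (Y : 𝒱.Obj)
    (j : ℤ) : Submodule ℚ (C.T Y j) where
  carrier := {x | x = 0 ∨ ∃ (p : ℕ) (z : Y.Cycles), (p : ℤ) = j ∧ Y.IsCyc p z ∧
    C.cls Y j z = x ∧ W.cl Y z ∈ (perpS (spanS W)).T Y p}
  zero_mem' := Or.inl rfl
  add_mem' := by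
    rintro x y (rfl | ⟨p, z, hp, hz, rfl, h1⟩) hy
    · rwa [zero_add]
    · rcases hy with rfl | ⟨q, w, hq, hw, rfl, h2⟩
      · rw [add_zero]
        exact Or.inr ⟨p, z, hp, hz, rfl, h1⟩
      · subst hp
        obtain rfl : q = p := by exact_mod_cast hq
        refine Or.inr ⟨q, z + w, rfl, SmVar.IsCyc.add hz hw, C.cls_add hz hw, ?_⟩
        rw [map_add]
        exact Submodule.add_mem _ h1 h2
  smul_mem' := by
    rintro c x (rfl | ⟨p, z, hp, hz, rfl, h1⟩)
    · exact Or.inl (smul_zero c)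
    · subst hp
      refine Or.inr ⟨p, c • z, rfl, SmVar.IsCyc.smul c hz,
        (clsHom C Y p).map_smul c ⟨z, hz⟩, ?_⟩
      rw [W.cl_smul]
      exact Submodule.smul_mem _ _ h1

lemma mem_numSub {j : ℤ} {x : C.T Y j} : x ∈ numSub C W Y j ↔ x = 0 ∨
    ∃ (p : ℕ) (z : Y.Cycles), (p : ℤ) = j ∧ Y.IsCyc p z ∧
      C.cls Y j z = x ∧ W.cl Y z ∈ (perpS (spanS W)).T Y p := Iff.rfl

/-- Correspondences respect the numerically trivial classes. -/
lemma act_numSub {j j' : ℤ} {z : (Y.prod Y').Cycles} (hz : CorrDeg (j' - j) z) {x : C.T Y j}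
    (hx : x ∈ numSub C W Y j) : C.act j j' z x ∈ numSub C W Y' j' := by
  rcases hx with rfl | ⟨p, y, hp, hy, rfl, h1⟩
  · rw [CorrTheory.act_zero hz]
    exact Submodule.zero_mem _
  by_cases hj' : j' < 0
  · exact Or.inl (C.supp _ (Or.inl hj'))
  subst hp
  obtain ⟨p', rfl⟩ := Int.eq_ofNat_of_zero_le (not_lt.1 hj')
  obtain ⟨q, hq, hzq⟩ := hz
  refine Or.inr ⟨p', ops.push (snd Y Y') (ops.mul z (ops.pull (fst Y Y') y)), rfl, ?_,
    (C.act_cls ⟨q, hq, hzq⟩ hy).symm, ?_⟩
  · refine ops.push_mem _ (ops.mul_mem hzq (ops.pull_mem _ hy)) ?_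
    rw [dim_prod]
    omega
  · rw [W.cl_push]
    refine (perpS (spanS W)).push (snd Y Y') (p := q + p) (q := p') ?_ (by rw [dim_prod]; omega)
    rw [W.cl_mul, W.cl_pull]
    exact (perpS (spanS W)).cl_mul hzq ((perpS (spanS W)).map (fst Y Y') h1)

open Classical in
/-- The action on the numerically trivial classes. -/
noncomputable def numAct (C : ChowGrp.{u, w} ops) (W : WeilCohomology.{u, v} ops)
    {Y Y' : 𝒱.Obj} (j j' : ℤ) (z : (Y.prod Y').Cycles) (x : numSub C W Y j) :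
    numSub C W Y' j' :=
  if h : CorrDeg (j' - j) z then ⟨C.act j j' z x, act_numSub h x.2⟩ else 0

lemma numAct_coe {j j' : ℤ} {z : (Y.prod Y').Cycles} (h : CorrDeg (j' - j) z)
    (x : numSub C W Y j) : (numAct C W j j' z x : C.T Y' j') = C.act j j' z x := by
  rw [numAct, dif_pos h]

lemma diag_deg (Y : 𝒱.Obj) (j : ℤ) : CorrDeg (j - j) (ops.push (diag Y) Y.V.fundCycle) :=
  ⟨Y.dim, by ring, ops.push_mem _ Y.V.fundCycle_mem (by simp only [dim_prod]; ring)⟩

lemma compCyc_deg {j j' j'' : ℤ} {z : (Y.prod Y').Cycles} {w : (Y'.prod Y'').Cycles}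
    (hz : CorrDeg (j' - j) z) (hw : CorrDeg (j'' - j') w) (h0 : 0 ≤ (Y.dim : ℤ) + (j'' - j)) :
    CorrDeg (j'' - j) (compCyc ops z w) := by
  obtain ⟨p, hp, hz⟩ := hz
  obtain ⟨q, hq, hw⟩ := hw
  exact ⟨((Y.dim : ℤ) + (j'' - j)).toNat, Int.toNat_of_nonneg h0, compCyc_mem hz hw (by omega)⟩

/-- The theory of the numerically trivial classes. -/
noncomputable def numTheory (C : ChowGrp.{u, w} ops) (W : WeilCohomology.{u, v} ops) :
    CorrTheory.{u, w} ops where
  T Y j := numSub C W Y j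
  act := fun {Y Y'} j j' z x => numAct C W j j' z x
  act_add := by
    intro Y Y' j j' z hz x y
    apply Subtype.ext
    rw [Submodule.coe_add, numAct_coe hz, numAct_coe hz, numAct_coe hz, Submodule.coe_add]
    exact C.act_add hz _ _
  add_act := by
    intro Y Y' j j' z w hz hw x
    apply Subtype.ext
    have hzw : CorrDeg (j' - j) (z + w) := by
      obtain ⟨p, hp, hz⟩ := hz
      obtain ⟨q, hq, hw⟩ := hw
      obtain rfl : q = p := by omega
      exact ⟨q, hq, SmVar.IsCyc.add hz hw⟩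
    rw [Submodule.coe_add, numAct_coe hz, numAct_coe hw, numAct_coe hzw]
    exact C.add_act hz hw _
  comp_act := by
    intro Y Y' Y'' j j' j'' z w hz hw h0 x
    apply Subtype.ext
    rw [numAct_coe (compCyc_deg hz hw h0), numAct_coe hw, numAct_coe hz]
    exact C.comp_act hz hw h0 _
  one_act := by
    intro Y j x
    apply Subtype.ext
    rw [numAct_coe (diag_deg Y j)]
    exact C.one_act _

lemma foldr_numAct {j : ℤ} (x : numSub C W Y j) : ∀ l : List (Y.prod Y).Cycles,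
    (∀ z ∈ l, IsNumZero ops (Y.prod Y) Y.dim z) →
      ((l.foldr (numAct C W j j) x : numSub C W Y j) : C.T Y j) =
        l.foldr (C.act j j) (x : C.T Y j)
  | [], _ => rfl
  | z :: l, hl => by
    have hz : CorrDeg (j - j) z := ⟨Y.dim, by ring, (hl z List.mem_cons_self).1⟩
    rw [List.foldr_cons, List.foldr_cons, numAct_coe hz,
      foldr_numAct x l fun y hy => hl y (List.mem_cons_of_mem _ hy)]

lemma numTheory_nil {j : ℤ} (h : NilOn C.toCorrTheory Y j) : NilOn (numTheory C W) Y j := by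
  obtain ⟨N, hN⟩ := h
  refine ⟨N, fun l hlen hl x => ?_⟩
  have h1 : (l.foldr (numAct C W j j) x : numSub C W Y j) = 0 := by
    apply Subtype.ext
    rw [foldr_numAct x l hl, hN l hlen hl]
    rfl
  exact h1

end Pool.Agent.R940
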