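import Pool.Agent.R940.NCh

/-!
# The cycle class map and the numbers of Tate classes
-/

set_option linter.unusedVariables false
set_option linter.unusedSectionVars false

open CategoryTheory AlgebraicGeometry CategoryTheory.Limits TensorProduct

universe u v w w'

namespace Pool.Agent.R940

open Pool.Agent.H914 Pool.Agent.H447 Pool.Agent.W534 Pool.Agent.Y163 VarClass Obj WeilCohomology
  Module

variable {k : Type u} [Field k] {𝒱 : VarClass k} {ops : CycleOps 𝒱}
  {W : WeilCohomology.{u, v} ops} {X Y Y' Y'' Z U S : 𝒱.Obj} {C : ChowGrp.{u, w} ops}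

/-- The intersection numbers as a linear map. -/
noncomputable def interHom (W : WeilCohomology.{u, v} ops) {Y : 𝒱.Obj} {p : ℕ}
    (hp : p ≤ Y.dim) :
    cycSub Y p →ₗ[ℚ] ({w : Y.Cycles // Y.IsCyc (Y.dim - p) w} → ℚ) :=
  AddMonoidHom.toRatLinearMap (AddMonoidHom.mk' (fun z => interNumbers ops Y p ⟨z, z.2⟩)
    fun z z' => by
      funext w
      have h1 : ∀ z : cycSub Y p, ((interNumbers ops Y p ⟨z, z.2⟩ w : ℚ) : W.K) =
          W.tr Y (W.cl Y z * W.cl Y w) := fun z =>
        (tr_mul_cl z.2 w.2 (by omega)).symm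
      have h2 : ((interNumbers ops Y p ⟨(z + z' : cycSub Y p), (z + z').2⟩ w : ℚ) : W.K) =
          ((interNumbers ops Y p ⟨z, z.2⟩ w + interNumbers ops Y p ⟨z', z'.2⟩ w : ℚ) : W.K) := by
        rw [h1, Rat.cast_add, h1, h1, Submodule.coe_add, map_add, add_mul, map_add]
      exact_mod_cast h2)

lemma interHom_apply {p : ℕ} (hp : p ≤ Y.dim) (z : cycSub Y p) :
    interHom W hp z = interNumbers ops Y p ⟨z, z.2⟩ := rfl

lemma clsHom_surj (C : ChowGrp.{u, w} ops) (Y : 𝒱.Obj) (p : ℕ) :
    Function.Surjective (clsHom C Y p) := by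
  intro x
  obtain ⟨z, hz, rfl⟩ := C.cls_surj x
  exact ⟨⟨z, hz⟩, rfl⟩

lemma inter_of_cl {p : ℕ} (hp : p ≤ Y.dim) (z : cycSub Y p)
    (h : W.cl Y (z : Y.Cycles) ∈ (perpS (spanS W)).T Y p) : interHom W hp z = 0 := by
  funext w
  have h1 : W.tr Y (W.cl Y (z : Y.Cycles) * W.cl Y w) = 0 :=
    h.2 (Y.dim - p) (by omega) _ (mem_span_cl w.2)
  rw [tr_mul_cl z.2 w.2 (by omega)] at h1
  exact_mod_cast h1

/-- The dimension of the group of cycles. -/
theorem finrank_num_add (hC : FinerThan C W) {p : ℕ} (hp : p ≤ Y.dim)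
    [Module.Finite ℚ (C.T Y p)] :
    finrank ℚ (numSub C W Y p) + numRank ops Y p ≤ finrank ℚ (C.T Y p) := by
  have hker : LinearMap.ker (clsHom C Y p) ≤ LinearMap.ker (interHom W hp) := by
    intro z hz
    rw [LinearMap.mem_ker] at hz ⊢
    apply inter_of_cl
    rw [hC Y p z z.2 hz]
    exact Submodule.zero_mem _
  let ν : C.T Y p →ₗ[ℚ] ({w : Y.Cycles // Y.IsCyc (Y.dim - p) w} → ℚ) :=
    ((LinearMap.ker (clsHom C Y p)).liftQ (interHom W hp) hker) ∘ₗ
      ((clsHom C Y p).quotKerEquivOfSurjective (clsHom_surj C Y p)).symm.toLinearMap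
  have hν : ∀ z, ν (clsHom C Y p z) = interHom W hp z := by
    intro z
    have h1 : ((clsHom C Y p).quotKerEquivOfSurjective (clsHom_surj C Y p)).symm
        (clsHom C Y p z) = (LinearMap.ker (clsHom C Y p)).mkQ z := by
      rw [LinearEquiv.symm_apply_eq]
      rfl
    change ((LinearMap.ker (clsHom C Y p)).liftQ (interHom W hp) hker)
      (((clsHom C Y p).quotKerEquivOfSurjective (clsHom_surj C Y p)).symm
        (clsHom C Y p z)) = _
    rw [h1]
    rfl
  have h2 : numSub C W Y p ≤ LinearMap.ker ν := by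
    rintro x (rfl | ⟨q, z, hq, hz, rfl, h1⟩)
    · exact Submodule.zero_mem _
    · obtain rfl : q = p := by exact_mod_cast hq
      rw [LinearMap.mem_ker]
      exact (hν ⟨z, hz⟩).trans (inter_of_cl hp ⟨z, hz⟩ h1)
  have h3 : numRank ops Y p ≤ finrank ℚ (LinearMap.range ν) := by
    rw [numRank]
    apply Submodule.finrank_mono
    rw [Submodule.span_le]
    rintro _ ⟨z, rfl⟩
    exact ⟨_, hν ⟨z.1, z.2⟩⟩
  have h4 := LinearMap.finrank_range_add_finrank_ker ν
  have h5 := Submodule.finrank_mono h2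
  omega

/-- Numerically trivial cycles. -/
lemma mem_numSub_of_inter {p : ℕ} (hp : p ≤ Y.dim) (z : cycSub Y p)
    (h : interHom W hp z = 0) : clsHom C Y p z ∈ numSub C W Y p := by
  refine Or.inr ⟨p, z, rfl, z.2, rfl, mem_span_cl z.2, fun l hl a ha => ?_⟩
  refine orth_of_num (l := l) hl.symm z.2 (fun w hw => ?_) a ha
  exact congrFun h ⟨w, hw⟩

/-- If there are no numerically trivial classes then the cycle class map is injective. -/
theorem clInjective_of_num (hvan : ∀ (p : ℕ) (x : C.T Y p), x ∈ numSub C W Y p → x = 0) (p : ℕ) :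
    ClInjective C W Y p := by
  intro r z hz hlin
  rcases Nat.lt_or_ge Y.dim p with hlt | hp
  · cases r with
    | zero => exact linearIndependent_empty_type
    | succ r =>
      exact absurd (C.supp (C.cls Y p (z 0)) (Or.inr (by exact_mod_cast hlt)))
        (hlin.ne_zero 0)
  have h1 : LinearIndependent ℚ fun i => interNumbers ops Y p ⟨z i, hz i⟩ := by
    rw [Fintype.linearIndependent_iff] at hlin ⊢
    intro c hc
    apply hlin c
    have h2 : interHom W hp (∑ i, c i • (⟨z i, hz i⟩ : cycSub Y p)) = 0 := by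
      rw [map_sum, ← hc]
      exact Finset.sum_congr rfl fun i _ => map_smul _ _ _
    have h3 := hvan p _ (mem_numSub_of_inter (C := C) hp _ h2)
    rw [map_sum] at h3
    rw [← h3]
    exact Finset.sum_congr rfl fun i _ => (map_smul (clsHom C Y p) (c i) ⟨z i, hz i⟩).symm
  rw [Fintype.linearIndependent_iff]
  intro c hc
  have h4 := lin_ext (K := W.K) h1 (c := c) (by
    intro w
    have h5 : W.tr Y ((∑ i, c i • W.cl Y (z i)) * W.cl Y w) = 0 := by
      rw [hc, zero_mul, map_zero]
    rw [Finset.sum_mul, map_sum] at h5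
    rw [← h5]
    refine Finset.sum_congr rfl fun i _ => ?_
    rw [smul_mul_assoc, map_smul, smul_eq_mul, tr_mul_cl (hz i) w.2 (by omega)]
    rfl)
  intro i
  rw [h4]
  rfl

end Pool.Agent.R940
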