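import Pool.Agent.R940.DDefs
import Pool.Agent.R940.ZDefs

/-!
# Actions on algebras, Tate classes and semisimplicity: definitions
-/

open CategoryTheory AlgebraicGeometry

universe u v w

namespace Pool.Agent.R940

section Alg

variable {K : Type*} [Field K] {A : Type*} [Ring A] [Algebra K A] {B : Type*} [Ring B]
  [Algebra K B] {Γ : Type*} [Group Γ]

/-- Characters of the group `Γ`. -/
structure Chr (K : Type*) [Field K] (Γ : Type*) [Group Γ] where
  /-- the values -/
  val : Γ → K
  one : val 1 = 1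
  mul : ∀ g h, val (g * h) = val g * val h

/-- Actions of the group `Γ` on the algebra `A` by automorphisms. -/
structure AAct (K : Type*) [Field K] (A : Type*) [Ring A] [Algebra K A] (Γ : Type*)
    [Group Γ] where
  /-- the automorphism given by `g` -/
  aut : Γ → (A ≃ₐ[K] A)
  mul : ∀ g h a, aut (g * h) a = aut g (aut h a)

/-- The formal properties of the action `ρ` of a Galois group `Γ` on the cohomology algebra `A` of a
variety of dimension `n`: it respects the subspaces `gr i`, an element `g` multiplies the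
orientation `tr` by `χ g ^ n` (`χ` is a character of `Γ`, the action on the Tate twists), and maps
the class `cl z` of a cycle `z` of codimension `j` to the product of `χ g ^ j` with the class
of such a cycle, which is `z` itself for all `g` in a subgroup of finite index. -/
structure IsGalAct (χ : Chr K Γ) (ρ : AAct K A Γ) (gr : ℕ → Submodule K A) (n : ℕ)
    (tr : A →ₗ[K] K) {C : Type*} (IsCyc : ℕ → C → Prop) (cl : C → A) : Prop where
  gr_mem : ∀ g i a, a ∈ gr i → ρ.aut g a ∈ gr i
  tr_act : ∀ g a, tr (ρ.aut g a) = χ.val g ^ n * tr a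
  cl_act : ∀ g j z, IsCyc j z → ∃ z', IsCyc j z' ∧ ρ.aut g (cl z) = χ.val g ^ j • cl z'
  cl_fix : ∀ j z, IsCyc j z → ∃ Δ : Subgroup Γ, Δ.FiniteIndex ∧
    ∀ g ∈ Δ, ρ.aut g (cl z) = χ.val g ^ j • cl z

/-- The homomorphism `f` is respected by a subgroup of finite index. -/
def PotEquivar (ρ : AAct K A Γ) (ρ' : AAct K B Γ) (f : B →ₐ[K] A) : Prop :=
  ∃ Δ : Subgroup Γ, Δ.FiniteIndex ∧ ∀ g ∈ Δ, ∀ b, ρ.aut g (f b) = f (ρ'.aut g b)

/-- The element `a` is an eigenvector of a subgroup `Δ` of finite index, and `g ∈ Δ` acts by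
`ψ g`. -/
def PotEig (ρ : AAct K A Γ) (ψ : Γ → K) (a : A) : Prop :=
  ∃ Δ : Subgroup Γ, Δ.FiniteIndex ∧ ∀ g ∈ Δ, ρ.aut g a = ψ g • a

/-- The Tate classes of codimension `j`: the elements `c` of `gr (2 j)` such that
`g c = χ g ^ j • c` for all `g` in a subgroup of finite index. -/
def IsTateCl (χ : Chr K Γ) (ρ : AAct K A Γ) (gr : ℕ → Submodule K A) (j : ℕ) (c : A) : Prop :=
  c ∈ gr (2 * j) ∧ PotEig ρ (fun g => χ.val g ^ j) c

/-- The dimension of the space of the Tate classes of codimension `j`. -/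
noncomputable def tateDim (χ : Chr K Γ) (ρ : AAct K A Γ) (gr : ℕ → Submodule K A) (j : ℕ) : ℕ :=
  Module.finrank K (Submodule.span K {c | IsTateCl χ ρ gr j c})

/-- All Tate classes of codimension `j` belong to the subspace `alg j`. -/
def AllTateIn (χ : Chr K Γ) (ρ : AAct K A Γ) (gr : ℕ → Submodule K A) (alg : ℕ → Submodule K A) :
    Prop := ∀ j c, IsTateCl χ ρ gr j c → c ∈ alg j

/-- The functions `ψ` and `φ` agree on a subgroup of finite index. -/
def PotAgree (ψ φ : Γ → K) : Prop := ∃ Δ : Subgroup Γ, Δ.FiniteIndex ∧ ∀ g ∈ Δ, ψ g = φ g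

/-- The character `ψ` of a subgroup of finite index occurs in `gr i`. -/
def ChrOccurs (ρ : AAct K A Γ) (gr : ℕ → Submodule K A) (i : ℕ) (ψ : Γ → K) : Prop :=
  ∃ a ∈ gr i, a ≠ 0 ∧ PotEig ρ ψ a

/-- For each character `ψ` (of a subgroup of finite index) which occurs in the representation `ρ`,
in degree `d`, the dual of `ψ` occurs in the representation `ρ'`, up to a Tate twist and the passage
to a subgroup of finite index: there is a character `φ` which occurs in `ρ'`, in degree `j`, such
that `j + d = 2 J` and `φ ψ = χ ^ J` on a subgroup of finite index. -/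
def DualsOccur (χ : Chr K Γ) (ρ : AAct K A Γ) (gr : ℕ → Submodule K A) (ρ' : AAct K B Γ)
    (gr' : ℕ → Submodule K B) : Prop :=
  ∀ (d : ℕ) (ψ : Γ → K), ChrOccurs ρ gr d ψ → ∃ (j J : ℕ) (φ : Γ → K), ChrOccurs ρ' gr' j φ ∧
    j + d = 2 * J ∧ PotAgree (fun g => φ g * ψ g) fun g => χ.val g ^ J

/-- The subspace `V` is stable under the group. -/
def IsStab (ρ : AAct K A Γ) (V : Submodule K A) : Prop := ∀ g, ∀ a ∈ V, ρ.aut g a ∈ V

/-- `V` has a stable complement in `E`. -/
def HasStabCompl (ρ : AAct K A Γ) (E V : Submodule K A) : Prop :=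
  ∃ C : Submodule K A, C ≤ E ∧ V ⊓ C = ⊥ ∧ V ⊔ C = E ∧ IsStab ρ C

/-- Each stable subspace of `E` of dimension `r` has a stable complement in `E`. -/
def SplitsInDim (ρ : AAct K A Γ) (E : Submodule K A) (r : ℕ) : Prop :=
  ∀ V ≤ E, IsStab ρ V → Module.finrank K V = r → HasStabCompl ρ E V

/-- The representation of the group on the subspace `E` is semisimple: each stable subspace of `E`
has a stable complement in `E`. -/
def IsSemisimpleOn (ρ : AAct K A Γ) (E : Submodule K A) : Prop :=
  ∀ V ≤ E, IsStab ρ V → HasStabCompl ρ E V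

end Alg

open Pool.Agent.H914 Pool.Agent.H914.VarClass Pool.Agent.H914.VarClass.Obj
  Pool.Agent.H914.WeilCohomology
open Pool.Agent.Y163 (pw sq)
open Pool.Agent.W534 (numRank)

variable {k : Type u} [Field k] {𝒱 : VarClass k} {ops : CycleOps 𝒱}

/-- The action of the Galois group `Γ` of a field of definition on the Weil cohomology of all
varieties of the class; `χ` is the action on the cohomology class of a point of a curve. Each
pull-back is respected by a subgroup of finite index. -/
structure GSys (W : WeilCohomology.{u, v} ops) (Γ : Type w) [Group Γ] where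
  /-- the character -/
  χ : Chr W.K Γ
  /-- the action on the cohomology of `Y` -/
  act : ∀ Y : 𝒱.Obj, AAct W.K (W.H Y) Γ
  gal : ∀ Y : 𝒱.Obj, IsGalAct χ (act Y) (W.gr Y) Y.dim (W.tr Y) Y.IsCyc fun z => W.cl Y z
  map : ∀ {X Y : 𝒱.Obj} (f : X ⟶ Y), PotEquivar (act X) (act Y) (W.map f)

variable {W : WeilCohomology.{u, v} ops} {Γ : Type w} [Group Γ]

/-- The dimension of the space of the Tate classes of codimension `j` on `Y`. -/
noncomputable def tateNo (G : GSys W Γ) (Y : 𝒱.Obj) (j : ℕ) : ℕ :=
  tateDim G.χ (G.act Y) (W.gr Y) j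

/-- The Tate conjecture for `Y`, in all codimensions and over all finite extensions of the field of
definition, and numerical equivalence agrees with homological equivalence. -/
def StrongTateG (G : GSys W Γ) (Y : 𝒱.Obj) : Prop :=
  AllTateIn G.χ (G.act Y) (W.gr Y) (fun j => spanCycles W Y (j : ℕ)) ∧ HomEqNum W Y

/-- The duals of the characters which occur in the cohomology of `X` occur in the cohomology of
`Y`, up to Tate twists. -/
def DualsIn (G : GSys W Γ) (X Y : 𝒱.Obj) : Prop :=
  DualsOccur G.χ (G.act X) (W.gr X) (G.act Y) (W.gr Y)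

/-- Each Galois stable subspace of dimension `r` of `H^i(X)` has a stable complement, for
all `i`. -/
def SplitsG (G : GSys W Γ) (X : 𝒱.Obj) (r : ℕ) : Prop :=
  ∀ i, SplitsInDim (G.act X) (W.gr X i) r

/-- All `H^i(X)` are semisimple representations. -/
def SemisimpleG (G : GSys W Γ) (X : 𝒱.Obj) : Prop :=
  ∀ i, IsSemisimpleOn (G.act X) (W.gr X i)

/-- The rank of the group of the cycles of codimension `(n + 1) d` on `X ^ (2 n + 2)` modulo
numerical equivalence, `d = dim X`. -/
noncomputable def rhoNo (ops : CycleOps 𝒱) (X : 𝒱.Obj) (n : ℕ) : ℕ :=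
  numRank ops (sq X n) ((n + 1) * X.dim)

/-- The rank of the group of the cycles of codimension `(n + 1) d + e` on `Y × X ^ (2 n + 2)` modulo
numerical equivalence. -/
noncomputable def cycNo (ops : CycleOps 𝒱) (Y X : 𝒱.Obj) (e n : ℕ) : ℕ :=
  numRank ops (Y.prod (sq X n)) ((n + 1) * X.dim + e)

/-- With the error term `C log (n + 2) / n`, the Tate classes of codimension `(n + 1) d + e` on
`Y × X ^ (2 n + 2)` exceed the cycles modulo numerical equivalence, for all `n ≥ 1`. -/
def ExceedsG (G : GSys W Γ) (Y X : 𝒱.Obj) (C e : ℕ) : Prop :=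
  ∀ n : ℕ, 0 < n → (cycNo ops Y X e n : ℝ) + (1 - C * Real.log (n + 2) / n) * rhoNo ops X n ≤
    tateNo G (Y.prod (sq X n)) ((n + 1) * X.dim + e)

/-- In one of the `dim Y + 1` codimensions, the Tate classes exceed the cycles. -/
def ExcessG (G : GSys W Γ) (Y X : 𝒱.Obj) (C : ℕ) : Prop :=
  ∃ e, e ≤ Y.dim ∧ ExceedsG G Y X C e

end Pool.Agent.R940
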