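import Pool.Agent.R940.NDefs
import Pool.Agent.R940.VDefs

/-!
# Chow groups and the cycle class map: definitions
-/

open CategoryTheory AlgebraicGeometry

universe u v w w'

namespace Pool.Agent.R940

open Pool.Agent.H914 Pool.Agent.H914.VarClass Pool.Agent.H914.VarClass.Obj
  Pool.Agent.H914.WeilCohomology
open Pool.Agent.Y163 (pw sq)
open Pool.Agent.W534 (numRank)

variable {k : Type u} [Field k] {𝒱 : VarClass k} {ops : CycleOps 𝒱}

/-- Groups of cycles modulo an adequate equivalence relation, with rational coefficients, for example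
the Chow groups: `T Y j` consists of the classes `cls Y j z` of the cycles `z` of codimension `j`, and
the correspondences act by the usual formula `w ↦ pr_* (z · pr^* w)`. -/
structure ChowGrp (ops : CycleOps 𝒱) extends CorrTheory.{u, w} ops where
  /-- the class of a cycle -/
  cls : ∀ (Y : 𝒱.Obj) (j : ℤ), Y.Cycles → T Y j
  cls_add : ∀ {Y : 𝒱.Obj} {p : ℕ} {z z' : Y.Cycles}, Y.IsCyc p z → Y.IsCyc p z' →
    cls Y p (z + z') = cls Y p z + cls Y p z'
  cls_surj : ∀ {Y : 𝒱.Obj} {p : ℕ} (x : T Y p), ∃ z, Y.IsCyc p z ∧ cls Y p z = x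
  supp : ∀ {Y : 𝒱.Obj} {j : ℤ} (x : T Y j), j < 0 ∨ (Y.dim : ℤ) < j → x = 0
  act_cls : ∀ {Y Y' : 𝒱.Obj} {p p' : ℕ} {z : (Y.prod Y').Cycles} {w : Y.Cycles},
    CorrDeg ((p' : ℤ) - p) z → Y.IsCyc p w → act p p' z (cls Y p w) =
      cls Y' p' (ops.push (snd Y Y') (ops.mul z (ops.pull (fst Y Y') w)))

/-- The equivalence relation is finer than the homological equivalence for `W`: the cycle class
map factors through the groups `C`. -/
def FinerThan (C : ChowGrp.{u, w} ops) (W : WeilCohomology.{u, v} ops) : Prop :=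
  ∀ (Y : 𝒱.Obj) (p : ℕ) (z : Y.Cycles), Y.IsCyc p z → C.cls Y p z = 0 → W.cl Y z = 0

/-- The cycle class map `C^p(Y) ⊗ K → H^{2p}(Y)` is injective, `K` the coefficient field of `W`: the
cohomology classes of cycles whose classes in `C^p(Y)` are linearly independent over `ℚ` are linearly
independent over `K`. -/
def ClInjective (C : ChowGrp.{u, w} ops) (W : WeilCohomology.{u, v} ops) (Y : 𝒱.Obj)
    (p : ℕ) : Prop :=
  ∀ (r : ℕ) (z : Fin r → Y.Cycles), (∀ i, Y.IsCyc p (z i)) →
    LinearIndependent ℚ (fun i => C.cls Y p (z i)) →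
      LinearIndependent W.K (fun i => W.cl Y (z i))

variable {W : WeilCohomology.{u, v} ops} {Γ : Type w'} [Group Γ]

/-- The cycle class maps from `C^p(Y) ⊗ K` to the spaces of the Tate classes are isomorphisms for
all `p`, and numerical and homological equivalence agree for the cycles on `Y`. -/
def ClBijective (C : ChowGrp.{u, w} ops) (G : GSys W Γ) (Y : 𝒱.Obj) : Prop :=
  (∀ p, ClInjective C W Y p) ∧ StrongTateG G Y

/-- For all `n ≥ 1`: the space `C^((n + 1) d)(X ^ (2 n + 2))` is of infinite dimension, or its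
dimension plus the dimension of the space of the Tate classes of codimension `(n + 1) d` on
`X ^ (2 n + 2)` is at least `(3 - B log (n + 2) / n) ρ n`. -/
def BothExceed (C : ChowGrp.{u, w} ops) (G : GSys W Γ) (X : 𝒱.Obj) (B : ℕ) : Prop :=
  ∀ n : ℕ, 0 < n → Module.Finite ℚ (C.T (sq X n) ((n + 1) * X.dim)) →
    (3 - B * Real.log (n + 2) / n) * rhoN ops X n ≤
      Module.finrank ℚ (C.T (sq X n) ((n + 1) * X.dim)) +
        tateNo G (sq X n) ((n + 1) * X.dim)

end Pool.Agent.R940
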