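import Pool.Agent.R940.NChA

/-!
# Bijectivity of the cycle class map, or an excess on both sides
-/

set_option linter.unusedVariables false
set_option linter.unusedSectionVars false

open CategoryTheory AlgebraicGeometry CategoryTheory.Limits TensorProduct

universe u v w w'

namespace Pool.Agent.R940

open Pool.Agent.H914 Pool.Agent.H447 Pool.Agent.W534 Pool.Agent.Y163 VarClass Obj WeilCohomology
  Module

variable {k : Type u} [Field k] {𝒱 : VarClass k} {ops : CycleOps 𝒱}
  {W : WeilCohomology.{u, v} ops} {X Y Y' Y'' Z U S : 𝒱.Obj} {C : ChowGrp.{u, w} ops}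
  {Γ : Type w'} [Group Γ] {G : GSys W Γ}

lemma numRank_le_tate (n : ℕ) :
    rhoN ops X n ≤ tateNo G (Pool.Agent.Y163.sq X n) ((n + 1) * X.dim) := by
  rw [rhoN, numRank_sq (W := W), tateNo_eq]
  exact (kRank_le _ _).trans (Submodule.finrank_mono (span_le_tate G.old _ _))

/-- If the strong Tate conjecture fails on a power then there are nearly twice as many Tate classes
as cycles modulo numerical equivalence. -/
theorem tate_twice (hX : SignStd W X) {D : X.Cycles} (hD : X.IsCyc 1 D) (hbig : Big ops X D)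
    {κ : ℕ} (h : ¬ StrongTateG G (pw X κ)) {n : ℕ} (hn : 0 < n) :
    (2 - 2 * (κ + 1) * (betti W X : ℝ) ^ (2 * κ + 4) * Real.log (n + 2) / n) * rhoN ops X n ≤
      tateNo G (Pool.Agent.Y163.sq X n) ((n + 1) * X.dim) := by
  have hF := span_le_tate G.old
  have htr : W.tr X (W.cl X D ^ X.dim) ≠ 0 := hbig.tr hD
  have hH : 0 < finrank W.K (W.H X) := by
    have : Nontrivial (W.H X) := by
      by_contra hcon
      rw [not_nontrivial_iff_subsingleton] at hcon
      apply htr
      rw [Subsingleton.elim (W.cl X D ^ X.dim) 0, map_zero]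
    exact finrank_pos
  by_cases hall : ∀ j, j ≤ (pw X κ).dim → (perpS (tateFam G.old)).T (pw X κ) j = ⊥
  · exfalso
    apply h
    rw [strongTateG_iff]
    constructor
    · intro j hj
      obtain ⟨l, hl⟩ := Nat.exists_eq_add_of_le hj
      exact (perp_tate hF hl.symm (hall j hj) (hall l (by omega))).1
    · intro j hj z hz hnum
      obtain ⟨l, hl⟩ := Nat.exists_eq_add_of_le hj
      exact (perp_tate hF hl.symm (hall j hj) (hall l (by omega))).2 z hz hnum
  push Not at hall
  obtain ⟨j, hj, hne⟩ := hall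
  obtain ⟨E, hE, hE2⟩ := exists_big hD htr κ
  obtain ⟨m, hm⟩ := Nat.exists_eq_add_of_le hj
  have h1 := perp_prod_gen (U := pw X κ) (m := m) hE hE2 (by omega) hne
  have h2 : m + j = (κ + 1) * X.dim := by rw [← dim_pw]; omega
  rw [h2] at h1
  have h3 := kRank_add_le (F := tateFam G.old) hF (Y := Pool.Agent.Y163.sq X κ)
    (j := (κ + 1) * X.dim) (l := (κ + 1) * X.dim) (by rw [dim_sq]; ring)
  have h4 : 0 < finrank W.K ((perpS (tateFam G.old)).T (Pool.Agent.Y163.sq X κ)
      ((κ + 1) * X.dim)) := by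
    apply Nat.pos_of_ne_zero
    intro h0
    exact h1 (Submodule.finrank_eq_zero.1 h0)
  have h5 := index_eff_any (W := W) (par_of_sign hX) hH
    (fun n => (tateFam G.old).T (Pool.Agent.Y163.sq X n) ((n + 1) * X.dim))
    ((tateFam G.old).stable_sq X) (κ := κ)
    (by rw [numRank_sq (W := W)]; exact lt_of_lt_of_le (Nat.lt_add_of_pos_right h4) h3) hn
  rw [tateNo_eq, rhoN, betti]
  exact h5

/-- The group of cycles is at least as large as the group modulo numerical equivalence. -/
lemma rho_le_chow (hC : FinerThan C W) {n : ℕ}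
    [Module.Finite ℚ (C.T (Pool.Agent.Y163.sq X n) ((n + 1) * X.dim))] :
    finrank ℚ (numSub C W (Pool.Agent.Y163.sq X n) ((n + 1) * X.dim)) + rhoN ops X n ≤
      finrank ℚ (C.T (Pool.Agent.Y163.sq X n) ((n + 1) * X.dim)) := by
  have key : ∀ i : ℤ, i = (((n + 1) * X.dim : ℕ) : ℤ) →
      Module.Finite ℚ (C.T (Pool.Agent.Y163.sq X n) i) →
      finrank ℚ (numSub C W (Pool.Agent.Y163.sq X n) i) + rhoN ops X n ≤
      finrank ℚ (C.T (Pool.Agent.Y163.sq X n) i) := by
    rintro i rfl hfin
    exact finrank_num_add hC (by rw [dim_sq]; nlinarith [Nat.zero_le ((n + 1) * X.dim)])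
  exact key _ (by push_cast; ring) inferInstance

/-- **Bijectivity of the cycle class map, or an excess on both sides.** -/
theorem bijective_or_excess (hC : FinerThan C W) (hX : SignStd W X) {D : X.Cycles}
    (hD : X.IsCyc 1 D) (hbig : Big ops X D) (hnil : NilPowers C.toCorrTheory X) (κ : ℕ) :
    ClBijective C G (pw X κ) ∨
      BothExceed C G X (2 * (κ + 1) * betti W X ^ (2 * κ + 4)) := by
  have hlog : ∀ n : ℕ, 0 ≤ Real.log ((n : ℝ) + 2) / n := fun n =>
    div_nonneg (Real.log_nonneg (by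
      have : (0 : ℝ) ≤ n := Nat.cast_nonneg n
      linarith)) (Nat.cast_nonneg n)
  by_cases hT : StrongTateG G (pw X κ)
  · by_cases hvan : ∀ (p : ℕ) (x : C.T (pw X κ) p), x ∈ numSub C W (pw X κ) p → x = 0
    · exact Or.inl ⟨fun p => clInjective_of_num hvan p, hT⟩
    right
    push Not at hvan
    obtain ⟨p, x, hx, hx0⟩ := hvan
    have hp : (p : ℤ) ≤ (pw X κ).dim := by
      by_contra hcon
      exact hx0 (C.supp x (Or.inr (not_le.1 hcon)))
    rw [dim_pw] at hp
    push_cast at hp
    have hnil' : NilPowers (numTheory C W) X := fun κ j =>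
      ⟨numTheory_nil (hnil κ j).1, numTheory_nil (hnil κ j).2⟩
    have hne : (⟨x, hx⟩ : numSub C W (pw X κ) p) ≠ 0 := fun h => hx0 (congrArg Subtype.val h)
    have hgr := growth_law (𝒯 := numTheory C W) hX hD hbig hnil' (κ := κ) (j := p) (e := 0)
      (x := ⟨x, hx⟩) hne (by linarith) (Int.natCast_nonneg p)
    intro n hn hfin
    have h1 : Module.Finite ℚ ((numTheory C W).T (Pool.Agent.Y163.sq X n)
        ((n + 1) * X.dim + 0)) → (1 - ((κ + 1) * betti W X ^ (2 * κ + 4) : ℕ) *
          Real.log (n + 2) / n) * rhoN ops X n ≤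
        finrank ℚ ((numTheory C W).T (Pool.Agent.Y163.sq X n) ((n + 1) * X.dim + 0)) :=
      hgr n hn
    rw [add_zero] at h1
    have hfin' : Module.Finite ℚ ((numTheory C W).T (Pool.Agent.Y163.sq X n)
        ((n + 1) * X.dim)) :=
      inferInstanceAs (Module.Finite ℚ (numSub C W (Pool.Agent.Y163.sq X n) ((n + 1) * X.dim)))
    have h2 := h1 hfin'
    have h3 := rho_le_chow (X := X) (n := n) hC
    have h4 := numRank_le_tate (G := G) (X := X) n
    have h5 : (finrank ℚ ((numTheory C W).T (Pool.Agent.Y163.sq X n) ((n + 1) * X.dim)) : ℝ) +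
        rhoN ops X n ≤ finrank ℚ (C.T (Pool.Agent.Y163.sq X n) ((n + 1) * X.dim)) := by
      exact_mod_cast h3
    have h6 : (rhoN ops X n : ℝ) ≤
        tateNo G (Pool.Agent.Y163.sq X n) ((n + 1) * X.dim) := by exact_mod_cast h4
    have h7 : (0 : ℝ) ≤ (κ + 1) * (betti W X : ℝ) ^ (2 * κ + 4) * (Real.log (n + 2) / n) *
        rhoN ops X n := mul_nonneg (mul_nonneg (by positivity) (hlog n)) (Nat.cast_nonneg _)
    push_cast at h2 ⊢
    rw [mul_div_assoc] at h2 ⊢
    nlinarith
  · right
    intro n hn hfin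
    have h2 := tate_twice hX hD hbig hT hn
    have h3 := rho_le_chow (X := X) (n := n) hC
    have h5 : (rhoN ops X n : ℝ) ≤
        finrank ℚ (C.T (Pool.Agent.Y163.sq X n) ((n + 1) * X.dim)) := by
      exact_mod_cast le_trans (Nat.le_add_left _ _) h3
    push_cast
    rw [mul_div_assoc] at h2 ⊢
    nlinarith

end Pool.Agent.R940
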