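import Pool.Agent.R940.DDefs
import Pool.Agent.R940.ZDefs
import Pool.Agent.H914R2.CorrDefs

/-!
# Theories on which correspondences act: definitions
-/

open CategoryTheory AlgebraicGeometry

universe u v w

namespace Pool.Agent.R940

open Pool.Agent.H914 Pool.Agent.H914.VarClass Pool.Agent.H914.VarClass.Obj
  Pool.Agent.H914.WeilCohomology
open Pool.Agent.Y163 (pw sq)
open Pool.Agent.W534 (numRank)

variable {k : Type u} [Field k] {𝒱 : VarClass k} {ops : CycleOps 𝒱}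

/-- The cycle `z` on `Y × Y'` is a correspondence of degree `r` from `Y` to `Y'`: its codimension is
`dim Y + r`. -/
def CorrDeg {Y Y' : 𝒱.Obj} (r : ℤ) (z : (Y.prod Y').Cycles) : Prop :=
  ∃ p : ℕ, (p : ℤ) = Y.dim + r ∧ (Y.prod Y').IsCyc p z

/-- A theory `T` which assigns rational vector spaces `T Y j` (`j ∈ ℤ`) to the varieties `Y`, on which
the correspondences act: a correspondence `z` of degree `j' - j` from `Y` to `Y'` gives an additive
map `act j j' z : T Y j → T Y' j'`, which depends additively on `z`; the actions are compatible with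
the composition of correspondences; and the diagonal acts as the identity. -/
structure CorrTheory (ops : CycleOps 𝒱) where
  /-- the spaces -/
  T : 𝒱.Obj → ℤ → Type w
  [grp : ∀ Y j, AddCommGroup (T Y j)]
  [mod : ∀ Y j, Module ℚ (T Y j)]
  /-- the action of the cycles on `Y × Y'` -/
  act : ∀ {Y Y' : 𝒱.Obj} (j j' : ℤ), (Y.prod Y').Cycles → T Y j → T Y' j'
  act_add : ∀ {Y Y' : 𝒱.Obj} {j j' : ℤ} {z : (Y.prod Y').Cycles}, CorrDeg (j' - j) z →
    ∀ x y, act j j' z (x + y) = act j j' z x + act j j' z y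
  add_act : ∀ {Y Y' : 𝒱.Obj} {j j' : ℤ} {z w : (Y.prod Y').Cycles}, CorrDeg (j' - j) z →
    CorrDeg (j' - j) w → ∀ x, act j j' (z + w) x = act j j' z x + act j j' w x
  comp_act : ∀ {Y Y' Y'' : 𝒱.Obj} {j j' j'' : ℤ} {z : (Y.prod Y').Cycles}
    {w : (Y'.prod Y'').Cycles}, CorrDeg (j' - j) z → CorrDeg (j'' - j') w →
    0 ≤ (Y.dim : ℤ) + (j'' - j) →
    ∀ x, act j j'' (compCyc ops z w) x = act j' j'' w (act j j' z x)
  one_act : ∀ {Y : 𝒱.Obj} {j : ℤ} (x : T Y j), act j j (ops.push (diag Y) Y.V.fundCycle) x = x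

attribute [instance] CorrTheory.grp CorrTheory.mod

/-- The cycle `z` of codimension `p` on `Y` is numerically trivial. -/
def IsNumZero (ops : CycleOps 𝒱) (Y : 𝒱.Obj) (p : ℕ) (z : Y.Cycles) : Prop :=
  Y.IsCyc p z ∧ ∀ w, Y.IsCyc (Y.dim - p) w → Y.V.degCycle (ops.mul z w) = 0

/-- The numerically trivial correspondences from `Y` to `Y` of degree zero act nilpotently on
`T Y j`: there is an `N` such that the composition of any `N` of them acts as zero. -/
def NilOn (𝒯 : CorrTheory.{u, w} ops) (Y : 𝒱.Obj) (j : ℤ) : Prop :=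
  ∃ N : ℕ, ∀ l : List (Y.prod Y).Cycles, l.length = N →
    (∀ z ∈ l, IsNumZero ops (Y.prod Y) Y.dim z) → ∀ x, l.foldr (𝒯.act j j) x = (0 : 𝒯.T Y j)

/-- The numerically trivial correspondences from the powers `X ^ (κ + 1)` and `X ^ (2 κ + 2)` to
themselves act nilpotently. -/
def NilPowers (𝒯 : CorrTheory.{u, w} ops) (X : 𝒱.Obj) : Prop :=
  ∀ κ j, NilOn 𝒯 (pw X κ) j ∧ NilOn 𝒯 (sq X κ) j

/-- The theory vanishes on `Y`. -/
def VanishesOn (𝒯 : CorrTheory.{u, w} ops) (Y : 𝒱.Obj) : Prop := ∀ (j : ℤ) (x : 𝒯.T Y j), x = 0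

/-- The spaces `T Y j` vanish unless `0 ≤ j ≤ dim Y + i`. -/
def SupportedTo (𝒯 : CorrTheory.{u, w} ops) (i : ℕ) : Prop :=
  ∀ (Y : 𝒱.Obj) (j : ℤ) (x : 𝒯.T Y j), j < 0 ∨ (Y.dim : ℤ) + i < j → x = 0

/-- The rank of the group of the cycles of codimension `(n + 1) d` on `X ^ (2 n + 2)` modulo
numerical equivalence, `d = dim X`. -/
noncomputable def rhoN (ops : CycleOps 𝒱) (X : 𝒱.Obj) (n : ℕ) : ℕ :=
  numRank ops (sq X n) ((n + 1) * X.dim)

/-- For all `n ≥ 1` the space `T (X ^ (2 n + 2)) ((n + 1) d + e)` is of infinite dimension or of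
dimension at least `(1 - C log (n + 2) / n) ρ n`. -/
def GrowsAt (𝒯 : CorrTheory.{u, w} ops) (X : 𝒱.Obj) (C : ℕ) (e : ℤ) : Prop :=
  ∀ n : ℕ, 0 < n → Module.Finite ℚ (𝒯.T (sq X n) ((n + 1) * X.dim + e)) →
    (1 - C * Real.log (n + 2) / n) * rhoN ops X n ≤
      Module.finrank ℚ (𝒯.T (sq X n) ((n + 1) * X.dim + e))

end Pool.Agent.R940
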