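import Pool.Agent.R940.NAlg
import Pool.Agent.R940.NDefs
import Pool.Agent.R940.GExc

/-!
# Lifts of algebraic operators to operators on a theory
-/

set_option linter.unusedVariables false
set_option linter.unusedSectionVars false

open CategoryTheory AlgebraicGeometry CategoryTheory.Limits TensorProduct

universe u v w

namespace Pool.Agent.R940

open Pool.Agent.H914 Pool.Agent.H447 Pool.Agent.W534 Pool.Agent.Y163 VarClass Obj WeilCohomology
  Module

variable {k : Type u} [Field k] {𝒱 : VarClass k} {ops : CycleOps 𝒱}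
  {W : WeilCohomology.{u, v} ops} {X Y Y' Y'' Z U S : 𝒱.Obj} {𝒯 : CorrTheory.{u, w} ops}

/-- The cycles of codimension `p`. -/
def cycSub (Y : 𝒱.Obj) (p : ℕ) : Submodule ℚ Y.Cycles where
  carrier := {z | Y.IsCyc p z}
  zero_mem' := SmVar.IsCyc.zero _ _
  add_mem' := fun h1 h2 => SmVar.IsCyc.add h1 h2
  smul_mem' := fun q z h => SmVar.IsCyc.smul q h

/-- The action of a correspondence as a linear map. -/
noncomputable def actLin (𝒯 : CorrTheory.{u, w} ops) {j j' : ℤ} {p : ℕ}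
    (hp : (p : ℤ) = Y.dim + (j' - j)) (z : cycSub (Y.prod Y') p) : 𝒯.T Y j →ₗ[ℚ] 𝒯.T Y' j' :=
  AddMonoidHom.toRatLinearMap (AddMonoidHom.mk' (𝒯.act j j' (z : (Y.prod Y').Cycles))
    (𝒯.act_add ⟨p, hp, z.2⟩))

lemma actLin_apply {j j' : ℤ} {p : ℕ} (hp : (p : ℤ) = Y.dim + (j' - j))
    (z : cycSub (Y.prod Y') p) (x : 𝒯.T Y j) : actLin 𝒯 hp z x = 𝒯.act j j' z x := rfl

/-- The action of the correspondences. -/
noncomputable def actHom (𝒯 : CorrTheory.{u, w} ops) {j j' : ℤ} {p : ℕ}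
    (hp : (p : ℤ) = Y.dim + (j' - j)) :
    cycSub (Y.prod Y') p →ₗ[ℚ] (𝒯.T Y j →ₗ[ℚ] 𝒯.T Y' j') :=
  AddMonoidHom.toRatLinearMap (AddMonoidHom.mk' (actLin 𝒯 hp) fun z w =>
    LinearMap.ext fun x => 𝒯.add_act ⟨p, hp, z.2⟩ ⟨p, hp, w.2⟩ x)

lemma actHom_apply {j j' : ℤ} {p : ℕ} (hp : (p : ℤ) = Y.dim + (j' - j))
    (z : cycSub (Y.prod Y') p) (x : 𝒯.T Y j) : actHom 𝒯 hp z x = 𝒯.act j j' z x := rfl

/-- The extension of the coefficients. -/
abbrev TK (W : WeilCohomology.{u, v} ops) (𝒯 : CorrTheory.{u, w} ops) (Y : 𝒱.Obj) (j : ℤ) :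
    Type (max v w) := W.K ⊗[ℚ] 𝒯.T Y j

/-- The pair of operators given by a correspondence. -/
noncomputable def opPair (W : WeilCohomology.{u, v} ops) (𝒯 : CorrTheory.{u, w} ops) {j j' : ℤ}
    {p : ℕ} (hp : (p : ℤ) = Y.dim + (j' - j)) (z : cycSub (Y.prod Y') p) :
    (W.H Y →ₗ[W.K] W.H Y') × (TK W 𝒯 Y j →ₗ[W.K] TK W 𝒯 Y' j') :=
  (W.corr (W.cl _ (z : (Y.prod Y').Cycles)), (actHom 𝒯 hp z).baseChange W.K)

/-- The pairs of an algebraic operator on the cohomology and the corresponding operator on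
the theory. -/
noncomputable def liftR (W : WeilCohomology.{u, v} ops) (𝒯 : CorrTheory.{u, w} ops)
    (Y Y' : 𝒱.Obj) (j j' : ℤ) :
    Submodule W.K ((W.H Y →ₗ[W.K] W.H Y') × (TK W 𝒯 Y j →ₗ[W.K] TK W 𝒯 Y' j')) :=
  Submodule.span W.K {x | ∃ (p : ℕ) (hp : (p : ℤ) = Y.dim + (j' - j))
    (z : cycSub (Y.prod Y') p), opPair W 𝒯 hp z = x}

lemma opPair_mem {j j' : ℤ} {p : ℕ} (hp : (p : ℤ) = Y.dim + (j' - j))
    (z : cycSub (Y.prod Y') p) : opPair W 𝒯 hp z ∈ liftR W 𝒯 Y Y' j j' :=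
  Submodule.subset_span ⟨p, hp, z, rfl⟩

/-- Algebraic operators have lifts. -/
lemma exists_lift {j j' : ℤ} {d : ℤ} (hd : d = j' - j) {f : W.H Y →ₗ[W.K] W.H Y'}
    (hf : f ∈ KOp W Y Y' d) : ∃ F, (f, F) ∈ liftR W 𝒯 Y Y' j j' := by
  induction hf using Submodule.span_induction with
  | mem f hf =>
    obtain ⟨p, hp, z, hz, rfl⟩ := hf
    exact ⟨_, opPair_mem (p := p) (by rw [hp, hd]) ⟨z, hz⟩⟩
  | zero => exact ⟨0, Submodule.zero_mem _⟩
  | add f g _ _ hf hg =>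
    obtain ⟨F, hF⟩ := hf
    obtain ⟨G, hG⟩ := hg
    exact ⟨F + G, Submodule.add_mem _ hF hG⟩
  | smul c f _ hf =>
    obtain ⟨F, hF⟩ := hf
    exact ⟨c • F, Submodule.smul_mem _ c hF⟩

lemma fst_mem {j j' : ℤ} {x} (hx : x ∈ liftR W 𝒯 Y Y' j j') : x.1 ∈ KOp W Y Y' (j' - j) := by
  induction hx using Submodule.span_induction with
  | mem x hx =>
    obtain ⟨p, hp, z, rfl⟩ := hx
    exact KOp.gen hp z.2
  | zero => exact Submodule.zero_mem _
  | add x y _ _ hx hy => exact Submodule.add_mem _ hx hy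
  | smul c x _ hx => exact Submodule.smul_mem _ _ hx

/-- Composition. -/
lemma comp_mem {j j' j'' : ℤ} (h0 : 0 ≤ (Y.dim : ℤ) + (j'' - j)) {x} {y}
    (hx : x ∈ liftR W 𝒯 Y Y' j j') (hy : y ∈ liftR W 𝒯 Y' Y'' j' j'') :
    (y.1 ∘ₗ x.1, y.2 ∘ₗ x.2) ∈ liftR W 𝒯 Y Y'' j j'' := by
  induction hx using Submodule.span_induction with
  | mem x hx =>
    obtain ⟨p, hp, z, rfl⟩ := hx
    induction hy using Submodule.span_induction with
    | mem y hy =>
      obtain ⟨q, hq, w, rfl⟩ := hy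
      have hr : (((Y.dim : ℤ) + (j'' - j)).toNat : ℤ) = Y.dim + (j'' - j) := Int.toNat_of_nonneg h0
      have hmem : (Y.prod Y'').IsCyc ((Y.dim : ℤ) + (j'' - j)).toNat
          (compCyc ops (z : (Y.prod Y').Cycles) (w : (Y'.prod Y'').Cycles)) :=
        compCyc_mem z.2 w.2 (by omega)
      have h1 : ((opPair W 𝒯 hq w).1 ∘ₗ (opPair W 𝒯 hp z).1,
          (opPair W 𝒯 hq w).2 ∘ₗ (opPair W 𝒯 hp z).2) = opPair W 𝒯 hr ⟨_, hmem⟩ := by
        apply Prod.ext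
        · exact (corr_compCyc W w.2).symm
        · change (actHom 𝒯 hq w).baseChange W.K ∘ₗ (actHom 𝒯 hp z).baseChange W.K =
            (actHom 𝒯 hr ⟨_, hmem⟩).baseChange W.K
          rw [← LinearMap.baseChange_comp]
          congr 1
          apply LinearMap.ext
          intro t
          exact (𝒯.comp_act ⟨p, hp, z.2⟩ ⟨q, hq, w.2⟩ h0 t).symm
      rw [h1]
      exact opPair_mem hr _
    | zero =>
      have : ((0 : (W.H Y' →ₗ[W.K] W.H Y'') × (TK W 𝒯 Y' j' →ₗ[W.K] TK W 𝒯 Y'' j'')).1 ∘ₗ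
          (opPair W 𝒯 hp z).1, (0 : (W.H Y' →ₗ[W.K] W.H Y'') ×
          (TK W 𝒯 Y' j' →ₗ[W.K] TK W 𝒯 Y'' j'')).2 ∘ₗ (opPair W 𝒯 hp z).2) = 0 := by
        rw [Prod.fst_zero, Prod.snd_zero, LinearMap.zero_comp, LinearMap.zero_comp]; rfl
      rw [this]; exact Submodule.zero_mem _
    | add y y' _ _ hy hy' =>
      rw [Prod.fst_add, Prod.snd_add, LinearMap.add_comp, LinearMap.add_comp]
      exact Submodule.add_mem _ hy hy'
    | smul c y _ hy =>
      rw [Prod.smul_fst, Prod.smul_snd, LinearMap.smul_comp, LinearMap.smul_comp]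
      exact Submodule.smul_mem _ c hy
  | zero =>
    rw [Prod.fst_zero, Prod.snd_zero, LinearMap.comp_zero, LinearMap.comp_zero]
    exact Submodule.zero_mem _
  | add x x' _ _ hx hx' =>
    rw [Prod.fst_add, Prod.snd_add, LinearMap.comp_add, LinearMap.comp_add]
    exact Submodule.add_mem _ hx hx'
  | smul c x _ hx =>
    rw [Prod.smul_fst, Prod.smul_snd, LinearMap.comp_smul, LinearMap.comp_smul]
    exact Submodule.smul_mem _ c hx

/-- The identity. -/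
lemma one_mem_lift {j : ℤ} : (LinearMap.id, LinearMap.id) ∈ liftR W 𝒯 Y Y j j := by
  have hz : (Y.prod Y).IsCyc Y.dim (ops.push (diag Y) Y.V.fundCycle) :=
    ops.push_mem _ Y.V.fundCycle_mem (by simp only [dim_prod]; ring)
  have hp : (Y.dim : ℤ) = Y.dim + (j - j) := by ring
  have h1 : opPair W 𝒯 hp ⟨_, hz⟩ = (LinearMap.id, LinearMap.id) := by
    apply Prod.ext
    · apply LinearMap.ext
      intro a
      change W.corr (W.cl _ (ops.push (diag Y) Y.V.fundCycle)) a = a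
      rw [W.cl_push, W.cl_fund, corr_apply, ← W.push_mul, one_mul, ← W.push_comp, ← W.map_comp]
      have e1 : diag Y ≫ snd Y Y = 𝟙 Y := Obj.lift_snd _ _
      have e2 : diag Y ≫ fst Y Y = 𝟙 Y := Obj.lift_fst _ _
      rw [e1, e2, W.push_id, W.map_id]
    · change (actHom 𝒯 hp ⟨_, hz⟩).baseChange W.K = LinearMap.id
      have h2 : actHom 𝒯 hp ⟨_, hz⟩ = LinearMap.id := LinearMap.ext fun x => 𝒯.one_act x
      rw [h2, LinearMap.baseChange_id]
  rw [← h1]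
  exact opPair_mem hp _

/-- The algebra of the lifts of the algebraic operators of degree zero. -/
noncomputable def liftAlg (W : WeilCohomology.{u, v} ops) (𝒯 : CorrTheory.{u, w} ops)
    (Y : 𝒱.Obj) (j : ℤ) :
    Subalgebra W.K (End W.K (W.H Y) × End W.K (TK W 𝒯 Y j)) :=
  Submodule.toSubalgebra (liftR W 𝒯 Y Y j j) one_mem_lift fun x y hx hy =>
    comp_mem (by omega) hy hx

lemma mem_liftAlg {j : ℤ} {x} : x ∈ liftAlg W 𝒯 Y j ↔ x ∈ liftR W 𝒯 Y Y j j := Iff.rfl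

end Pool.Agent.R940
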