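import Pool.Agent.R940.NLift

/-!
# The growth of theories on which correspondences act
-/

set_option linter.unusedVariables false
set_option linter.unusedSectionVars false

open CategoryTheory AlgebraicGeometry CategoryTheory.Limits TensorProduct

universe u v w

namespace Pool.Agent.R940

open Pool.Agent.H914 Pool.Agent.H447 Pool.Agent.W534 Pool.Agent.Y163 VarClass Obj WeilCohomology
  Module

variable {k : Type u} [Field k] {𝒱 : VarClass k} {ops : CycleOps 𝒱}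
  {W : WeilCohomology.{u, v} ops} {X Y Y' Y'' Z U S : 𝒱.Obj} {𝒯 : CorrTheory.{u, w} ops}

/-- The compositions of `n` numerically trivial correspondences. -/
def nilProd (W : WeilCohomology.{u, v} ops) (𝒯 : CorrTheory.{u, w} ops) (Y : 𝒱.Obj) (j : ℤ)
    (n : ℕ) : Set (End W.K (TK W 𝒯 Y j)) :=
  {F | ∃ zs : List (Y.prod Y).Cycles, zs.length = n ∧
    (∀ z ∈ zs, IsNumZero ops (Y.prod Y) Y.dim z) ∧ ∃ φ : 𝒯.T Y j →ₗ[ℚ] 𝒯.T Y j,
      (∀ x, φ x = zs.foldr (𝒯.act j j) x) ∧ F = φ.baseChange W.K}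

lemma mul_mem_nilProd {j : ℤ} (hp : (Y.dim : ℤ) = Y.dim + (j - j)) {n : ℕ}
    {F G : End W.K (TK W 𝒯 Y j)}
    (hF : F ∈ Submodule.span W.K {F | ∃ z : cycSub (Y.prod Y) Y.dim,
      IsNumZero ops (Y.prod Y) Y.dim z ∧ (actHom 𝒯 hp z).baseChange W.K = F})
    (hG : G ∈ Submodule.span W.K (nilProd W 𝒯 Y j n)) :
    F * G ∈ Submodule.span W.K (nilProd W 𝒯 Y j (n + 1)) := by
  induction hF using Submodule.span_induction with
  | mem F hF =>
    obtain ⟨z, hz, rfl⟩ := hF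
    induction hG using Submodule.span_induction with
    | mem G hG =>
      obtain ⟨zs, hlen, hzs, φ, hφ, rfl⟩ := hG
      refine Submodule.subset_span ⟨(z : (Y.prod Y).Cycles) :: zs, by simp [hlen], ?_,
        actHom 𝒯 hp z ∘ₗ φ, ?_, ?_⟩
      · intro y hy
        rcases List.mem_cons.1 hy with rfl | hy
        · exact hz
        · exact hzs y hy
      · intro x
        rw [LinearMap.comp_apply, actHom_apply, hφ, List.foldr_cons]
      · rw [LinearMap.baseChange_comp]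
        rfl
    | zero => rw [mul_zero]; exact Submodule.zero_mem _
    | add x y _ _ hx hy => rw [mul_add]; exact Submodule.add_mem _ hx hy
    | smul c x _ hx => rw [mul_smul_comm]; exact Submodule.smul_mem _ _ hx
  | zero => rw [zero_mul]; exact Submodule.zero_mem _
  | add x y _ _ hx hy => rw [add_mul]; exact Submodule.add_mem _ hx hy
  | smul c x _ hx => rw [smul_mul_assoc]; exact Submodule.smul_mem _ _ hx

lemma prod_mem_nilProd (hpar : par (W.isInternal Y) ∈ KOp W Y Y 0) {j : ℤ} :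
    ∀ l : List (End W.K (TK W 𝒯 Y j)), (∀ F ∈ l, F ∈ lrad (KAlg W Y) (liftAlg W 𝒯 Y j)) →
      l.prod ∈ Submodule.span W.K (nilProd W 𝒯 Y j l.length) := by
  have hp : (Y.dim : ℤ) = Y.dim + (j - j) := by ring
  intro l
  induction l with
  | nil =>
    intro _
    refine Submodule.subset_span ⟨[], rfl, by simp, LinearMap.id, fun x => rfl, ?_⟩
    rw [LinearMap.baseChange_id]
    rfl
  | cons F l ih =>
    intro hl
    have h1 := ih fun G hG => hl G (List.mem_cons_of_mem _ hG)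
    obtain ⟨f, hf, hfF⟩ := hl F List.mem_cons_self
    rw [List.prod_cons, List.length_cons]
    exact mul_mem_nilProd hp (lift_rad hpar hp (x := (f, F)) hfF hf) h1

/-- The lifts of the radical are nilpotent. -/
lemma lrad_nil (hpar : par (W.isInternal Y) ∈ KOp W Y Y 0) {j : ℤ} (hnil : NilOn 𝒯 Y j) :
    ∃ N : ℕ, ∀ l : List (End W.K (TK W 𝒯 Y j)),
      (∀ F ∈ l, F ∈ lrad (KAlg W Y) (liftAlg W 𝒯 Y j)) → l.length = N → l.prod = 0 := by
  obtain ⟨N, hN⟩ := hnil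
  refine ⟨N, fun l hl hlen => ?_⟩
  have h1 := prod_mem_nilProd hpar l hl
  rw [hlen] at h1
  have h2 : Submodule.span W.K (nilProd W 𝒯 Y j N) ≤ ⊥ := by
    rw [Submodule.span_le]
    rintro F ⟨zs, hlen, hzs, φ, hφ, rfl⟩
    have h3 : φ = 0 := LinearMap.ext fun x => by rw [hφ, hN zs hlen hzs x]; rfl
    rw [h3, LinearMap.baseChange_zero]
    rfl
  exact (Submodule.mem_bot _).1 (h2 h1)

lemma one_tmul_ne {K T : Type*} [Field K] [Algebra ℚ K] [AddCommGroup T] [Module ℚ T] {x : T}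
    (hx : x ≠ 0) : (1 : K) ⊗ₜ[ℚ] x ≠ 0 := by
  obtain ⟨f, hf⟩ : ∃ f : Module.Dual ℚ T, f x ≠ 0 := by
    by_contra hcon
    push Not at hcon
    exact hx ((Module.forall_dual_apply_eq_zero_iff ℚ x).1 hcon)
  intro h0
  have h1 := congrArg (fun t => TensorProduct.rid ℚ K (f.lTensor K t)) h0
  simp only [LinearMap.lTensor_tmul, TensorProduct.rid_tmul, map_zero] at h1
  rw [Algebra.smul_def, mul_one] at h1
  exact hf ((map_eq_zero (algebraMap ℚ K)).1 h1)

/-- **The growth of a theory.** -/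
theorem theory_growth [IsAlgClosed W.K] (hX : par (W.isInternal X) ∈ KOp W X X 0)
    (hH : 0 < finrank W.K (W.H X)) {κ n : ℕ} {j j' : ℤ} (hj : j' = j + ((n : ℤ) - κ) * X.dim)
    (hnil : NilOn 𝒯 (Pool.Agent.Y163.sq X κ) j) {x : 𝒯.T (Pool.Agent.Y163.sq X κ) j}
    (hx : x ≠ 0) (hn : 0 < n) (hfin : Module.Finite ℚ (𝒯.T (Pool.Agent.Y163.sq X n) j')) :
    (1 - (κ + 1) * (finrank W.K (W.H X) : ℝ) ^ (2 * κ + 4) * Real.log (n + 2) / n) *
      mrank W X n ≤ finrank ℚ (𝒯.T (Pool.Agent.Y163.sq X n) j') := by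
  classical
  have hbot : Stable W X (fun n => (⊥ : Submodule W.K (W.H (Pool.Agent.Y163.sq X n)))) := by
    intro κ n φ hφ t ht
    rw [(Submodule.mem_bot _).1 ht, map_zero]
    exact Submodule.zero_mem _
  let L := level hX _ hbot κ
  let w : Wed (KAlg W (Pool.Agent.Y163.sq X κ)) := Classical.choice (exists_wed _)
  have hpar : par (W.isInternal (Pool.Agent.Y163.sq X κ)) ∈
      KOp W (Pool.Agent.Y163.sq X κ) (Pool.Agent.Y163.sq X κ) 0 :=
    par_prod_mem (par_pw_mem hX κ) (par_pw_mem hX κ)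
  have hR : ∀ p ∈ liftAlg W 𝒯 (Pool.Agent.Y163.sq X κ) j,
      p.1 ∈ KAlg W (Pool.Agent.Y163.sq X κ) := fun p hp =>
    mem_KAlg.2 (KOp.cast (fst_mem hp) (by ring))
  obtain ⟨N, hN⟩ := lrad_nil (W := W) hpar hnil
  obtain ⟨c, F, hF, s, hs⟩ := exists_good (R := liftAlg W 𝒯 (Pool.Agent.Y163.sq X κ) j) w
    (fun f hf => exists_lift (by ring) (mem_KAlg.1 hf)) hR hN (t := (1 : W.K) ⊗ₜ[ℚ] x)
    (one_tmul_ne hx)
  have hfinK : Module.Finite W.K (TK W 𝒯 (Pool.Agent.Y163.sq X n) j') :=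
    Module.Finite.base_change ℚ W.K _
  have hd1 : ((n : ℤ) - κ) * X.dim = j' - j := by rw [hj]; ring
  have hd2 : -(((n : ℤ) - κ) * X.dim) = j - j' := by rw [hj]; ring
  have h1 := mu_le_finrank (T := TK W 𝒯 (Pool.Agent.Y163.sq X κ) j)
    (T₂ := TK W 𝒯 (Pool.Agent.Y163.sq X n) j')
    (duo W (Pool.Agent.Y163.sq X κ) (Pool.Agent.Y163.sq X n) (((n : ℤ) - κ) * X.dim)) w hR c
    (RP := liftR W 𝒯 _ _ j j') (RQ := liftR W 𝒯 _ _ j' j)
    (fun x hx => exists_lift hd1 hx) (fun y hy => exists_lift hd2 hy)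
    (fun p hp q hq => comp_mem (by omega) hp hq) hF hs
  have h2 : L.N n c ≤ finrank ℚ (𝒯.T (Pool.Agent.Y163.sq X n) j') := by
    refine le_trans h1 (le_of_eq ?_)
    exact Module.finrank_baseChange
  have h5 : 1 ≤ L.s c := by
    have h6 : (finrank W.K (LinearMap.range (w.e (w.rep c))) : W.K) ≠ 0 :=
      rank_idem_ne (w.e_ne _)
    exact Nat.pos_of_ne_zero fun h0 => h6 (by exact_mod_cast h0)
  have h7 := level_N_ge (pow_pos hH 2) mrank_zero_le (mrank_sq_le hX) (mrank_growth hX) L hn c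
  have h8 : (L.N n c : ℝ) ≤ finrank ℚ (𝒯.T (Pool.Agent.Y163.sq X n) j') := by
    exact_mod_cast h2
  refine le_trans ?_ (h7.trans h8)
  apply mul_le_mul_of_nonneg_right _ (Nat.cast_nonneg _)
  have h9 : (1 : ℝ) ≤ L.s c := by exact_mod_cast h5
  have h10 : (κ + 1 : ℝ) * ((finrank W.K (W.H X) ^ 2 : ℕ) : ℝ) ^ (κ + 1) *
      ((finrank W.K (W.H X) ^ 2 : ℕ) : ℝ) =
      (κ + 1) * (finrank W.K (W.H X) : ℝ) ^ (2 * κ + 4) := by
    push_cast
    ring
  rw [h10]
  linarith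

/-! ### From the powers to the squares of the powers -/

lemma mulLeft_pow_mem {D : U.Cycles} (hD : U.IsCyc 1 D) :
    ∀ m : ℕ, (LinearMap.mulLeft W.K (W.cl U D)) ^ m ∈ KOp W U U m
  | 0 => by
    rw [pow_zero]
    exact KOp.cast (KOp.id U) (by simp)
  | m + 1 => by
    rw [pow_succ]
    exact KOp.cast (KOp.comp (mulLeft_pow_mem hD m) (kop_L hD)) (by push_cast; ring)

lemma mulLeft_pow_apply (a x : W.H U) : ∀ m : ℕ, ((LinearMap.mulLeft W.K a) ^ m) x = a ^ m * x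
  | 0 => by simp
  | m + 1 => by
    rw [pow_succ, Module.End.mul_apply, mulLeft_pow_apply a _ m, LinearMap.mulLeft_apply,
      ← mul_assoc, pow_succ]

lemma cl_pow_gr {D : U.Cycles} (hD : U.IsCyc 1 D) :
    ∀ m : ℕ, W.cl U D ^ m ∈ W.gr U (2 * m)
  | 0 => by rw [pow_zero]; exact W.one_mem U
  | m + 1 => by
    rw [pow_succ]
    exact W.mul_mem (cl_pow_gr hD m) (W.cl_mem hD)

/-- An algebraic operator `H(U) → H(U × U)` of degree `m` with a left inverse, up to a nonzero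
multiple. -/
lemma exists_retract {E : U.Cycles} (hE : U.IsCyc 1 E) {m m' : ℕ} (hm : m + m' = U.dim) :
    ∃ f ∈ KOp W U (U.prod U) m, ∃ g ∈ KOp W (U.prod U) U (-(m : ℤ)),
      g ∘ₗ f = W.tr U (W.cl U E ^ U.dim) • LinearMap.id := by
  have hE' : (U.prod U).IsCyc 1 (ops.pull (fst U U) E) := ops.pull_mem _ hE
  obtain ⟨ψ, hψ, hadj⟩ := KOp.exists_adjoint (map_mem_KOp (W := W) (snd U U))
  set M : Module.End W.K (W.H (U.prod U)) :=
    LinearMap.mulLeft W.K (W.cl _ (ops.pull (fst U U) E)) with hM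
  refine ⟨(M ^ m) ∘ₗ (W.map (snd U U)).toLinearMap,
    KOp.cast (KOp.comp (mulLeft_pow_mem hE' m) (map_mem_KOp _)) (by ring), ψ ∘ₗ (M ^ m'),
    KOp.cast (KOp.comp hψ (mulLeft_pow_mem hE' m')) (by rw [dim_prod]; push_cast; omega), ?_⟩
  apply LinearMap.ext
  intro c
  have h1 : (ψ ∘ₗ (M ^ m')) (((M ^ m) ∘ₗ (W.map (snd U U)).toLinearMap) c) =
      ψ (W.map (fst U U) (W.cl U E ^ U.dim) * W.map (snd U U) c) := by
    rw [LinearMap.comp_apply, LinearMap.comp_apply, hM, mulLeft_pow_apply, mulLeft_pow_apply,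
      ← mul_assoc, ← pow_add, show m' + m = U.dim by omega, W.cl_pull, ← map_pow]
    rfl
  rw [LinearMap.comp_apply, h1, LinearMap.smul_apply, LinearMap.id_apply]
  rw [← sub_eq_zero]
  apply nondeg_right
  intro a
  have h2 := hadj a (W.map (fst U U) (W.cl U E ^ U.dim) * W.map (snd U U) c)
  have hev : W.map (fst U U) (W.cl U E ^ U.dim) ∈ W.gr (U.prod U) (2 * U.dim) :=
    W.map_mem _ (cl_pow_gr hE _)
  have h3 : (W.map (snd U U)).toLinearMap a = W.map (snd U U) a := rfl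
  rw [h3, ← mul_assoc, ← W.even_comm hev (W.map (snd U U) a), mul_assoc, ← map_mul,
    W.tr_prod] at h2
  rw [mul_sub, map_sub, ← h2, mul_smul_comm, map_smul, smul_eq_mul, sub_self]

/-- **The passage from the powers of `X` to the even powers.** -/
theorem exists_ne_sq (hpar : par (W.isInternal U) ∈ KOp W U U 0) {E : U.Cycles}
    (hE : U.IsCyc 1 E) (hE2 : W.tr U (W.cl U E ^ U.dim) ≠ 0) {j : ℤ} (hnil : NilOn 𝒯 U j)
    {x : 𝒯.T U j} (hx : x ≠ 0) {m : ℕ} (hm : m ≤ U.dim) :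
    ∃ y : 𝒯.T (U.prod U) (j + m), y ≠ 0 := by
  by_contra hcon
  push Not at hcon
  obtain ⟨m', hm'⟩ := Nat.exists_eq_add_of_le hm
  obtain ⟨f, hf, g, hg, hgf⟩ := exists_retract (W := W) hE hm'.symm
  obtain ⟨F, hF⟩ := exists_lift (𝒯 := 𝒯) (j := j) (j' := j + m) (by ring) hf
  obtain ⟨G, hG⟩ := exists_lift (𝒯 := 𝒯) (j := j + m) (j' := j) (by ring) hg
  set δ : W.K := W.tr U (W.cl U E ^ U.dim) with hδ
  obtain ⟨N, hN⟩ := lrad_nil (W := W) hpar hnil
  have hF0 : F = 0 := by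
    apply LinearMap.ext
    intro t
    rw [LinearMap.zero_apply]
    generalize F t = s
    induction s using TensorProduct.induction_on with
    | zero => rfl
    | tmul a y => rw [hcon y, TensorProduct.tmul_zero]
    | add s t hs ht => rw [hs, ht, add_zero]
  have h1 : (g ∘ₗ f, G ∘ₗ F) ∈ liftR W 𝒯 U U j j := comp_mem (by omega) hF hG
  rw [hF0, LinearMap.comp_zero, hgf] at h1
  have h2 : (δ • LinearMap.id, δ • LinearMap.id) ∈ liftR W 𝒯 U U j j :=
    Submodule.smul_mem _ δ one_mem_lift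
  have h3 := (liftR W 𝒯 U U j j).add_mem h2 ((liftR W 𝒯 U U j j).smul_mem (-1) h1)
  have h4 : δ • (1 : End W.K (TK W 𝒯 U j)) ∈ lrad (KAlg W U) (liftAlg W 𝒯 U j) := by
    refine ⟨0, Submodule.zero_mem _, ?_⟩
    have h5 : ((δ • LinearMap.id : W.H U →ₗ[W.K] W.H U), (δ • LinearMap.id :
        TK W 𝒯 U j →ₗ[W.K] TK W 𝒯 U j)) + (-1 : W.K) • (δ • LinearMap.id, 0) =
        (0, δ • LinearMap.id) := by
      rw [Prod.smul_mk, Prod.mk_add_mk, smul_zero, add_zero, smul_smul, ← add_smul,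
        neg_one_mul, add_neg_cancel, zero_smul]
    rw [h5] at h3
    exact h3
  have h5 : (1 : End W.K (TK W 𝒯 U j)) ∈ lrad (KAlg W U) (liftAlg W 𝒯 U j) := by
    have := Submodule.smul_mem _ δ⁻¹ h4
    rwa [inv_smul_smul₀ hE2] at this
  have h6 := hN (List.replicate N 1) (fun F hF => by rw [List.eq_of_mem_replicate hF]; exact h5)
    (List.length_replicate)
  rw [List.prod_replicate, one_pow] at h6
  apply one_tmul_ne (K := W.K) hx
  have h7 := congrArg (fun φ : End W.K (TK W 𝒯 U j) => φ ((1 : W.K) ⊗ₜ[ℚ] x)) h6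
  exact h7

end Pool.Agent.R940
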