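import Pool.Agent.R940.NGeo

/-!
# Lifts of numerically trivial operators
-/

set_option linter.unusedVariables false
set_option linter.unusedSectionVars false

open CategoryTheory AlgebraicGeometry CategoryTheory.Limits TensorProduct

universe u v w

namespace Pool.Agent.R940

open Pool.Agent.H914 Pool.Agent.H447 Pool.Agent.W534 Pool.Agent.Y163 VarClass Obj WeilCohomology
  Module

variable {k : Type u} [Field k] {𝒱 : VarClass k} {ops : CycleOps 𝒱}
  {W : WeilCohomology.{u, v} ops} {X Y Y' Y'' Z U S : 𝒱.Obj} {𝒯 : CorrTheory.{u, w} ops}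

lemma rat_smul_eq {K M : Type*} [Field K] [CharZero K] [AddCommGroup M] [Module K M] [Module ℚ M]
    (q : ℚ) (m : M) : q • m = (q : K) • m := by
  have h := map_rat_smul (AddMonoidHom.id M) q m
  have : IsScalarTower ℚ K M := inferInstance
  rw [← algebraMap_smul K q m]
  rfl

lemma opPair_add {j j' : ℤ} {p : ℕ} (hp : (p : ℤ) = Y.dim + (j' - j))
    (z w : cycSub (Y.prod Y') p) :
    opPair W 𝒯 hp (z + w) = opPair W 𝒯 hp z + opPair W 𝒯 hp w := by
  apply Prod.ext
  · change W.corr (W.cl _ ((z : (Y.prod Y').Cycles) + (w : (Y.prod Y').Cycles))) = _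
    rw [map_add, corr_add]
    rfl
  · change (actHom 𝒯 hp (z + w)).baseChange W.K = _
    rw [map_add, LinearMap.baseChange_add]
    rfl

lemma opPair_smul {j j' : ℤ} {p : ℕ} (hp : (p : ℤ) = Y.dim + (j' - j)) (q : ℚ)
    (z : cycSub (Y.prod Y') p) : opPair W 𝒯 hp (q • z) = (q : W.K) • opPair W 𝒯 hp z := by
  apply Prod.ext
  · change W.corr (W.cl _ (q • (z : (Y.prod Y').Cycles))) = _
    rw [W.cl_smul, corr_smul]
    rfl
  · change (actHom 𝒯 hp (q • z)).baseChange W.K = (q : W.K) • (actHom 𝒯 hp z).baseChange W.K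
    rw [map_smul, LinearMap.baseChange_smul]
    apply LinearMap.ext
    intro t
    rw [LinearMap.smul_apply, LinearMap.smul_apply]
    exact rat_smul_eq q _

/-- The multiples of the pairs of operators given by a correspondence. -/
noncomputable def opScal (W : WeilCohomology.{u, v} ops) (𝒯 : CorrTheory.{u, w} ops) {j j' : ℤ}
    {p : ℕ} (hp : (p : ℤ) = Y.dim + (j' - j)) (a : W.K) : cycSub (Y.prod Y') p →+
    (W.H Y →ₗ[W.K] W.H Y') × (TK W 𝒯 Y j →ₗ[W.K] TK W 𝒯 Y' j') :=
  AddMonoidHom.mk' (fun z : cycSub (Y.prod Y') p => a • opPair W 𝒯 hp z) fun z w => by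
    rw [opPair_add, smul_add]

/-- The pairs of operators given by combinations of correspondences. -/
noncomputable def opT (W : WeilCohomology.{u, v} ops) (𝒯 : CorrTheory.{u, w} ops) {j j' : ℤ}
    {p : ℕ} (hp : (p : ℤ) = Y.dim + (j' - j)) : W.K ⊗[ℚ] cycSub (Y.prod Y') p →+
    (W.H Y →ₗ[W.K] W.H Y') × (TK W 𝒯 Y j →ₗ[W.K] TK W 𝒯 Y' j') :=
  TensorProduct.liftAddHom
    { toFun := fun a => opScal (Y' := Y') W 𝒯 hp a
      map_zero' := AddMonoidHom.ext fun z => zero_smul W.K (opPair W 𝒯 hp z)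
      map_add' := fun a b => AddMonoidHom.ext fun z => add_smul a b (opPair W 𝒯 hp z) }
    (by
      intro r a z
      change (r • a) • opPair W 𝒯 hp z = a • opPair W 𝒯 hp (r • z)
      rw [opPair_smul, smul_smul, Rat.smul_def, mul_comm])

lemma opT_tmul {j j' : ℤ} {p : ℕ} (hp : (p : ℤ) = Y.dim + (j' - j)) (a : W.K)
    (z : cycSub (Y.prod Y') p) : opT W 𝒯 hp (a ⊗ₜ z) = a • opPair W 𝒯 hp z := rfl

lemma opT_smul {j j' : ℤ} {p : ℕ} (hp : (p : ℤ) = Y.dim + (j' - j)) (c : W.K)
    (t : W.K ⊗[ℚ] cycSub (Y.prod Y') p) : opT W 𝒯 hp (c • t) = c • opT W 𝒯 hp t := by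
  induction t using TensorProduct.induction_on with
  | zero => rw [smul_zero, map_zero, smul_zero]
  | tmul a z => rw [TensorProduct.smul_tmul', opT_tmul, opT_tmul, smul_eq_mul, mul_smul]
  | add s t hs ht => rw [smul_add, map_add, map_add, smul_add, hs, ht]

lemma exists_opT {j j' : ℤ} {p : ℕ} (hp : (p : ℤ) = Y.dim + (j' - j)) {x}
    (hx : x ∈ liftR W 𝒯 Y Y' j j') : ∃ t, opT W 𝒯 hp t = x := by
  induction hx using Submodule.span_induction with
  | mem x hx =>
    obtain ⟨q, hq, z, rfl⟩ := hx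
    obtain rfl : q = p := by omega
    exact ⟨1 ⊗ₜ z, by rw [opT_tmul, one_smul]⟩
  | zero => exact ⟨0, map_zero _⟩
  | add x y _ _ hx hy =>
    obtain ⟨t, ht⟩ := hx
    obtain ⟨s, hs⟩ := hy
    exact ⟨t + s, by rw [map_add, ht, hs]⟩
  | smul c x _ hx =>
    obtain ⟨t, ht⟩ := hx
    exact ⟨c • t, by rw [opT_smul, ht]⟩

/-- The lifts of the radical are combinations of numerically trivial correspondences. -/
theorem lift_rad (hpar : par (W.isInternal Y) ∈ KOp W Y Y 0) {j : ℤ}
    (hp : (Y.dim : ℤ) = Y.dim + (j - j)) {x} (hx : x ∈ liftR W 𝒯 Y Y j j)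
    (hrad : x.1 ∈ rad (KAlg W Y)) :
    x.2 ∈ Submodule.span W.K {F | ∃ z : cycSub (Y.prod Y) Y.dim,
      IsNumZero ops (Y.prod Y) Y.dim z ∧ (actHom 𝒯 hp z).baseChange W.K = F} := by
  classical
  obtain ⟨t, rfl⟩ := exists_opT hp hx
  let b := Basis.ofVectorSpace ℚ W.K
  obtain ⟨c, rfl⟩ := TensorProduct.eq_repr_basis_left b t
  have h1 : opT W 𝒯 hp (c.sum fun i z => b i ⊗ₜ z) =
      ∑ i ∈ c.support, b i • opPair W 𝒯 hp (c i) := by
    rw [Finsupp.sum, map_sum]
    exact Finset.sum_congr rfl fun i _ => opT_tmul hp _ _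
  rw [h1] at hrad ⊢
  set γ : W.H (Y.prod Y) := ∑ i ∈ c.support, b i • W.cl _ ((c i : (Y.prod Y).Cycles)) with hγ
  have h2 : (∑ i ∈ c.support, b i • opPair W 𝒯 hp (c i)).1 = W.corr γ := by
    rw [Prod.fst_sum, hγ]
    have h3 : ∀ s : Finset _, W.corr (∑ i ∈ s, b i • W.cl _ ((c i : (Y.prod Y).Cycles))) =
        ∑ i ∈ s, b i • W.corr (W.cl _ ((c i : (Y.prod Y).Cycles))) := by
      intro s
      induction s using Finset.induction_on with
      | empty => rw [Finset.sum_empty, Finset.sum_empty, corr_zero]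
      | insert a s ha ih => rw [Finset.sum_insert ha, Finset.sum_insert ha, corr_add, corr_smul, ih]
    rw [h3]
    rfl
  rw [h2] at hrad
  have hγs : γ ∈ spanCycles W (Y.prod Y) (Y.dim : ℕ) :=
    Submodule.sum_mem _ fun i _ => Submodule.smul_mem _ _ (mem_span_cl (c i).2)
  have h4 := num_of_mem_rad hpar hγs hrad
  have hnum : ∀ i, IsNumZero ops (Y.prod Y) Y.dim (c i : (Y.prod Y).Cycles) := by
    intro i
    refine ⟨(c i).2, fun w hw => ?_⟩
    have hw' : (Y.prod Y).IsCyc Y.dim w := by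
      have : (Y.prod Y).dim - Y.dim = Y.dim := by rw [dim_prod]; omega
      rwa [this] at hw
    have h5 := h4 _ (mem_span_cl hw')
    rw [hγ, Finset.sum_mul, map_sum] at h5
    have h6 : ∀ i, W.tr (Y.prod Y) (b i • W.cl _ ((c i : (Y.prod Y).Cycles)) * W.cl _ w) =
        ((Y.prod Y).V.degCycle (ops.mul (c i : (Y.prod Y).Cycles) w)) • b i := by
      intro i
      rw [smul_mul_assoc, map_smul, tr_mul_cl (c i).2 hw' (by rw [dim_prod]), Rat.smul_def,
        smul_eq_mul, mul_comm]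
    simp only [h6] at h5
    have h7 := (linearIndependent_iff'.1 b.linearIndependent) c.support _ h5
    by_cases hi : i ∈ c.support
    · exact h7 i hi
    · have h8 : c i = 0 := Finsupp.notMem_support_iff.1 hi
      rw [h8]
      have h9 := tr_mul_cl (W := W) (SmVar.IsCyc.zero (Y.prod Y).V Y.dim) hw'
        (by rw [dim_prod])
      rw [map_zero, zero_mul, map_zero] at h9
      exact_mod_cast h9.symm
  rw [Prod.snd_sum]
  exact Submodule.sum_mem _ fun i _ => Submodule.smul_mem _ _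
    (Submodule.subset_span ⟨c i, hnum i, rfl⟩)

end Pool.Agent.R940
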