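import Mathlib

/-!
# Decomposition of long solutions of linear equations with bounded coefficients
-/

namespace Pool.Agent.R940

open Finset

/-- The proportional part of a vector. -/
def part {ι : Type*} (c : ι → ℕ) (N t : ℕ) (l : ι) : ℕ := t * c l / N

section

variable {ι : Type*} [Fintype ι] (c : ι → ℕ)

lemma part_mono {N t t' : ℕ} (h : t ≤ t') (l : ι) : part c N t l ≤ part c N t' l :=
  Nat.div_le_div_right (Nat.mul_le_mul_right _ h)

lemma part_le {N t : ℕ} (h : t ≤ N) (l : ι) : part c N t l ≤ c l := by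
  rcases Nat.eq_zero_or_pos N with rfl | hN
  · simp [part]
  · exact Nat.div_le_of_le_mul (Nat.mul_le_mul_right _ h)

lemma part_eq (N t : ℕ) (l : ι) : N * part c N t l + t * c l % N = t * c l :=
  Nat.div_add_mod _ _

lemma part_bound {N : ℕ} (hN : 0 < N) (a : ι → ℤ) {B : ℕ} (hB : ∀ l, |a l| ≤ B)
    (ha : ∑ l, a l * c l = 0) (t : ℕ) :
    |∑ l, a l * (part c N t l : ℤ)| ≤ Fintype.card ι * B := by
  have h1 : (N : ℤ) * ∑ l, a l * (part c N t l : ℤ) = - ∑ l, a l * ((t * c l % N : ℕ) : ℤ) := by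
    have h2 : ∀ l, (N : ℤ) * (a l * (part c N t l : ℤ)) =
        t * (a l * c l) - a l * ((t * c l % N : ℕ) : ℤ) := by
      intro l
      have h3 : (N : ℤ) * (part c N t l : ℤ) + ((t * c l % N : ℕ) : ℤ) = t * c l := by
        exact_mod_cast part_eq c N t l
      linear_combination (a l) * h3
    rw [Finset.mul_sum, Finset.sum_congr rfl fun l _ => h2 l, Finset.sum_sub_distrib,
      ← Finset.mul_sum, ha, mul_zero, zero_sub]
  have h2 : |∑ l, a l * ((t * c l % N : ℕ) : ℤ)| ≤ N * (Fintype.card ι * B) := by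
    calc |∑ l, a l * ((t * c l % N : ℕ) : ℤ)| ≤ ∑ l, |a l * ((t * c l % N : ℕ) : ℤ)| :=
          Finset.abs_sum_le_sum_abs _ _
      _ ≤ ∑ _l : ι, (B : ℤ) * N := by
          apply Finset.sum_le_sum
          intro l _
          rw [abs_mul, Nat.abs_cast]
          have h3 : ((t * c l % N : ℕ) : ℤ) ≤ N := by
            exact_mod_cast (Nat.mod_lt _ hN).le
          exact mul_le_mul (hB l) h3 (Int.natCast_nonneg _) (Int.natCast_nonneg _)
      _ = N * (Fintype.card ι * B) := by
          rw [Finset.sum_const, Finset.card_univ, nsmul_eq_mul]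
          ring
  have h3 : (N : ℤ) * |∑ l, a l * (part c N t l : ℤ)| ≤ N * (Fintype.card ι * B) := by
    rw [← Nat.abs_cast N, ← abs_mul, h1, abs_neg, Nat.abs_cast]
    exact h2
  exact le_of_mul_le_mul_left h3 (by exact_mod_cast hN)

lemma part_sum_le {N : ℕ} (hN : ∑ l, c l = N) (hN0 : 0 < N) (t : ℕ) :
    ∑ l, part c N t l ≤ t := by
  have h1 : N * ∑ l, part c N t l ≤ N * t := by
    rw [Finset.mul_sum]
    calc ∑ l, N * part c N t l ≤ ∑ l, t * c l :=
          Finset.sum_le_sum fun l _ => by have := part_eq c N t l; omega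
      _ = N * t := by rw [← Finset.mul_sum, hN, mul_comm]
  exact le_of_mul_le_mul_left h1 hN0

lemma part_sum_ge {N : ℕ} (hN : ∑ l, c l = N) (hN0 : 0 < N) (t : ℕ) :
    t < ∑ l, part c N t l + Fintype.card ι ∨ (t = 0 ∧ Fintype.card ι = 0) := by
  rcases Nat.eq_zero_or_pos (Fintype.card ι) with h0 | h0
  · exfalso
    have : IsEmpty ι := Fintype.card_eq_zero_iff.1 h0
    rw [Finset.univ_eq_empty, Finset.sum_empty] at hN
    omega
  left
  have h1 : N * t < N * (∑ l, part c N t l + Fintype.card ι) := by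
    calc N * t = ∑ l, t * c l := by rw [← Finset.mul_sum, hN, mul_comm]
      _ = ∑ l, (N * part c N t l + t * c l % N) :=
          Finset.sum_congr rfl fun l _ => (part_eq c N t l).symm
      _ < ∑ l, (N * part c N t l + N) := by
          have : Nonempty ι := Fintype.card_pos_iff.1 h0
          exact Finset.sum_lt_sum_of_nonempty Finset.univ_nonempty
            fun l _ => Nat.add_lt_add_left (Nat.mod_lt _ hN0) _
      _ = N * (∑ l, part c N t l + Fintype.card ι) := by
          rw [Finset.sum_add_distrib, ← Finset.mul_sum, Finset.sum_const, Finset.card_univ,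
            smul_eq_mul]
          ring
  exact lt_of_mul_lt_mul_left h1 (Nat.zero_le _)

end

/-- **Decomposition of long solutions.** -/
theorem exists_sub {ι : Type*} [Fintype ι] {r : ℕ} (a : Fin r → ι → ℤ) (d : ι → ℕ) {b B : ℕ}
    (hb : Fintype.card ι ≤ b) (hB : ∀ k l, |a k l| ≤ B) (c : ι → ℕ)
    (ha : ∀ k, ∑ l, a k l * c l = 0)
    (hN : 2 * b * (2 * b * B + 1) ^ r < ∑ l, c l) :
    ∃ m : ι → ℕ, (∀ l, m l ≤ c l) ∧ 0 < ∑ l, m l ∧ ∑ l, m l < ∑ l, c l ∧
      (∀ k, ∑ l, a k l * (m l : ℤ) = 0) ∧ Even (∑ l, d l * m l) := by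
  set N := ∑ l, c l with hNdef
  have hN0 : 0 < N := by omega
  have hb0 : 0 < Fintype.card ι := by
    rw [Fintype.card_pos_iff]
    by_contra h
    rw [not_nonempty_iff] at h
    rw [hNdef, Finset.univ_eq_empty, Finset.sum_empty] at hN0
    omega
  set J := 2 * (2 * b * B + 1) ^ r with hJ
  let f : ℕ → Fin r → ℤ := fun t k => ∑ l, a k l * (part c N t l : ℤ)
  have hf : ∀ t k, |f t k| ≤ b * B := by
    intro t k
    refine (part_bound c hN0 (a k) (hB k) (ha k) t).trans ?_
    exact mul_le_mul_of_nonneg_right (by exact_mod_cast hb) (by positivity)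
  let g : Fin (J + 1) → (Fin r → Fin (2 * b * B + 1)) × Fin 2 := fun j =>
    (fun k => ⟨(f (j * b) k + b * B).toNat, by
      have h1 := abs_le.1 (hf (j * b) k)
      rw [Int.toNat_lt (by linarith [h1.1])]
      push_cast
      linarith [h1.2]⟩,
      ⟨(∑ l, d l * part c N (j * b) l) % 2, Nat.mod_lt _ (by norm_num)⟩)
  have hcard : Fintype.card ((Fin r → Fin (2 * b * B + 1)) × Fin 2) <
      Fintype.card (Fin (J + 1)) := by
    rw [Fintype.card_prod, Fintype.card_fun, Fintype.card_fin, Fintype.card_fin, Fintype.card_fin,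
      Fintype.card_fin]
    omega
  obtain ⟨i, j, hne, hij⟩ := Fintype.exists_ne_map_eq_of_card_lt g hcard
  wlog hlt : i < j generalizing i j
  · exact this j i hne.symm hij.symm (lt_of_le_of_ne (not_lt.1 hlt) hne.symm)
  have hfk : ∀ k, f (i * b) k = f (j * b) k := by
    intro k
    have h1 := congrArg (fun x : (Fin r → Fin (2 * b * B + 1)) × Fin 2 => (x.1 k).val) hij
    simp only [g] at h1
    have h2 := abs_le.1 (hf (i * b) k)
    have h3 := abs_le.1 (hf (j * b) k)
    have h4 : f (i * b) k + b * B = f (j * b) k + b * B := by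
      rw [← Int.toNat_of_nonneg (show 0 ≤ f (i * b) k + b * B by linarith [h2.1]),
        ← Int.toNat_of_nonneg (show 0 ≤ f (j * b) k + b * B by linarith [h3.1]), h1]
    linarith
  have hpar : (∑ l, d l * part c N (i * b) l) % 2 = (∑ l, d l * part c N (j * b) l) % 2 := by
    have h1 := congrArg (fun x : (Fin r → Fin (2 * b * B + 1)) × Fin 2 => x.2.val) hij
    exact h1
  have hmono : ∀ l, part c N (i * b) l ≤ part c N (j * b) l := fun l =>
    part_mono c (Nat.mul_le_mul_right _ hlt.le) l
  have hjb : (j : ℕ) * b < N := by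
    have h1 : (j : ℕ) ≤ J := Nat.lt_succ_iff.1 j.2
    calc (j : ℕ) * b ≤ J * b := Nat.mul_le_mul_right _ h1
      _ = 2 * b * (2 * b * B + 1) ^ r := by rw [hJ]; ring
      _ < N := hN
  refine ⟨fun l => part c N (j * b) l - part c N (i * b) l, ?_, ?_, ?_, ?_, ?_⟩
  · intro l
    exact (Nat.sub_le _ _).trans (part_le c hjb.le l)
  · have h1 : ∑ l, part c N (i * b) l ≤ i * b := part_sum_le c hNdef.symm hN0 _
    have h2 := part_sum_ge c hNdef.symm hN0 (j * b)
    have h3 : (i : ℕ) * b + b ≤ j * b := by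
      have h4 : (i : ℕ) + 1 ≤ j := hlt
      calc (i : ℕ) * b + b = (i + 1) * b := by ring
        _ ≤ j * b := Nat.mul_le_mul_right _ h4
    rw [Finset.sum_tsub_distrib _ fun l _ => hmono l]
    omega
  · have h2 : ∑ l, part c N (j * b) l ≤ j * b := part_sum_le c hNdef.symm hN0 _
    calc ∑ l, (part c N (j * b) l - part c N (i * b) l) ≤ ∑ l, part c N (j * b) l :=
          Finset.sum_le_sum fun l _ => Nat.sub_le _ _
      _ ≤ j * b := h2
      _ < N := hjb
  · intro k
    have h1 := hfk k
    simp only [f] at h1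
    have h2 : ∀ l, a k l * ((part c N (j * b) l - part c N (i * b) l : ℕ) : ℤ) =
        a k l * (part c N (j * b) l : ℤ) - a k l * (part c N (i * b) l : ℤ) := by
      intro l
      rw [Nat.cast_sub (hmono l)]
      ring
    rw [Finset.sum_congr rfl fun l _ => h2 l, Finset.sum_sub_distrib, h1, sub_self]
  · have h1 : ∑ l, d l * (part c N (j * b) l - part c N (i * b) l) =
        ∑ l, d l * part c N (j * b) l - ∑ l, d l * part c N (i * b) l := by
      rw [← Finset.sum_tsub_distrib _ fun l _ => Nat.mul_le_mul_left _ (hmono l)]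
      exact Finset.sum_congr rfl fun l _ => Nat.mul_sub _ _ _
    have h2 : ∑ l, d l * part c N (i * b) l ≤ ∑ l, d l * part c N (j * b) l :=
      Finset.sum_le_sum fun l _ => Nat.mul_le_mul_left _ (hmono l)
    rw [h1, Nat.even_iff]
    omega

/-- Choice of a subset of the positions of a word. -/
theorem exists_finset {ι : Type*} [Fintype ι] [DecidableEq ι] {n : ℕ} (w : Fin n → ι)
    (m : ι → ℕ) (hm : ∀ l, m l ≤ (univ.filter fun j => w j = l).card) :
    ∃ S : Finset (Fin n), ∀ {M : Type} [AddCommMonoid M] (f : ι → M),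
      ∑ j ∈ S, f (w j) = ∑ l, m l • f l := by
  choose T hT1 hT2 using fun l => Finset.exists_subset_card_eq (hm l)
  have hdisj : Set.PairwiseDisjoint (↑(univ : Finset ι)) T := by
    intro l _ l' _ hne
    rw [Function.onFun, Finset.disjoint_left]
    intro j hj hj'
    have h1 := (Finset.mem_filter.1 (hT1 l hj)).2
    have h2 := (Finset.mem_filter.1 (hT1 l' hj')).2
    exact hne (h1.symm.trans h2)
  refine ⟨univ.biUnion T, fun {M} _ f => ?_⟩
  rw [Finset.sum_biUnion hdisj]
  refine Finset.sum_congr rfl fun l _ => ?_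
  rw [← hT2 l, ← Finset.sum_const]
  exact Finset.sum_congr rfl fun j hj => by rw [(Finset.mem_filter.1 (hT1 l hj)).2]

end Pool.Agent.R940
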