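import Mathlib.LinearAlgebra.Matrix.ToLin
import Mathlib.LinearAlgebra.FiniteDimensional.Basic
import Mathlib.LinearAlgebra.FiniteDimensional.Lemmas
import Mathlib.Algebra.Field.Basic
import Mathlib.Tactic

/-!
# Kernels of powers of tensor products of operators
-/

set_option linter.unusedVariables false
set_option linter.unusedSectionVars false

namespace Pool.Agent.R940.Rt

open Module

universe v w

variable {K : Type v} [Field K] {W : Type w} [AddCommGroup W] [Module K W]
  [FiniteDimensional K W]

/-- The dimension of the kernel of `(U - μ)^j`. -/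
noncomputable def kap (U : End K W) (μ : K) (j : ℕ) : ℕ :=
  finrank K (LinearMap.ker ((U - algebraMap K (End K W) μ) ^ j))

section subadd

variable {X Y X' : Type*} [AddCommGroup X] [Module K X] [FiniteDimensional K X]
  [AddCommGroup Y] [Module K Y] [FiniteDimensional K Y] [AddCommGroup X'] [Module K X']
  [FiniteDimensional K X']

lemma comm_pow {f : End K X} {g : End K Y} {π : X →ₗ[K] Y} (h : π ∘ₗ f = g ∘ₗ π) (j : ℕ) :
    π ∘ₗ (f ^ j) = (g ^ j) ∘ₗ π := by
  induction j with
  | zero => rfl
  | succ j ih =>
    rw [pow_succ, pow_succ, Module.End.mul_eq_comp, ← LinearMap.comp_assoc, ih,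
      LinearMap.comp_assoc, h, ← LinearMap.comp_assoc, ← Module.End.mul_eq_comp]

/-- Kernels are subadditive in exact sequences. -/
lemma ker_le {f : End K X} {g : End K Y} {f' : End K X'} {π : X →ₗ[K] Y} {i : X' →ₗ[K] X}
    (hπ : π ∘ₗ f = g ∘ₗ π) (hi : f ∘ₗ i = i ∘ₗ f') (hker : LinearMap.ker π ≤ LinearMap.range i)
    (hinj : Function.Injective i) :
    finrank K (LinearMap.ker f) ≤ finrank K (LinearMap.ker f') + finrank K (LinearMap.ker g) := by
  let p : LinearMap.ker f →ₗ[K] LinearMap.ker g :=
    { toFun := fun x => ⟨π x, by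
        rw [LinearMap.mem_ker]
        have h1 := congrArg (fun F => F (x : X)) hπ
        have h2 : π (f x) = g (π x) := h1
        rw [← h2, LinearMap.mem_ker.1 x.2, map_zero]⟩
      map_add' := fun x y => Subtype.ext (map_add π _ _)
      map_smul' := fun c x => Subtype.ext (map_smul π c _) }
  have h1 := LinearMap.finrank_range_add_finrank_ker p
  have h2 : finrank K (LinearMap.range p) ≤ finrank K (LinearMap.ker g) :=
    Submodule.finrank_le _
  have h3 : finrank K (LinearMap.ker p) ≤ finrank K (LinearMap.ker f') := by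
    have h4 : ∀ x : LinearMap.ker p, ∃ y : LinearMap.ker f', i y = ((x : LinearMap.ker f) : X) := by
      intro x
      have h5 : π ((x : LinearMap.ker f) : X) = 0 :=
        congrArg Subtype.val (LinearMap.mem_ker.1 x.2)
      obtain ⟨y, hy⟩ := hker (LinearMap.mem_ker.2 h5)
      refine ⟨⟨y, ?_⟩, hy⟩
      rw [LinearMap.mem_ker]
      apply hinj
      have h6 : f (i y) = i (f' y) := congrArg (fun F => F y) hi
      rw [← h6, hy, map_zero]
      exact LinearMap.mem_ker.1 (x : LinearMap.ker f).2
    choose s hs using h4
    let q : LinearMap.ker p →ₗ[K] LinearMap.ker f' :=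
      { toFun := s
        map_add' := fun x y => by
          apply Subtype.ext
          apply hinj
          refine (hs (x + y)).trans ?_
          refine Eq.trans ?_ (map_add i (s x : X') (s y : X')).symm
          rw [hs x, hs y]
          rfl
        map_smul' := fun c x => by
          apply Subtype.ext
          apply hinj
          refine (hs (c • x)).trans ?_
          refine Eq.trans ?_ (map_smul i c (s x : X')).symm
          rw [hs x]
          rfl }
    refine LinearMap.finrank_le_finrank_of_injective (f := q) ?_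
    intro x y hxy
    apply Subtype.ext
    apply Subtype.ext
    rw [← hs x, ← hs y]
    exact congrArg (fun z : LinearMap.ker f' => i z) hxy
  omega

/-- Kernels are subadditive in exact sequences. -/
lemma kap_le {f : End K X} {g : End K Y} {f' : End K X'} {π : X →ₗ[K] Y} {i : X' →ₗ[K] X}
    (hπ : π ∘ₗ f = g ∘ₗ π) (hi : f ∘ₗ i = i ∘ₗ f') (hker : LinearMap.ker π ≤ LinearMap.range i)
    (hinj : Function.Injective i) (μ : K) (j : ℕ) : kap f μ j ≤ kap f' μ j + kap g μ j := by
  have h1 : π ∘ₗ (f - algebraMap K (End K X) μ) = (g - algebraMap K (End K Y) μ) ∘ₗ π := by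
    apply LinearMap.ext
    intro x
    have h2 : π (f x) = g (π x) := congrArg (fun F => F x) hπ
    simp only [LinearMap.comp_apply, LinearMap.sub_apply, map_sub, h2,
      Module.algebraMap_end_apply, map_smul]
  have h3 : i ∘ₗ (f' - algebraMap K (End K X') μ) = (f - algebraMap K (End K X) μ) ∘ₗ i := by
    apply LinearMap.ext
    intro x
    have h2 : f (i x) = i (f' x) := congrArg (fun F => F x) hi
    simp only [LinearMap.comp_apply, LinearMap.sub_apply, map_sub, h2,
      Module.algebraMap_end_apply, map_smul]
  exact ker_le (comm_pow h1 j) (comm_pow h3 j).symm hker hinj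

/-- Isomorphic operators. -/
lemma kap_congr {f : End K X} {g : End K Y} (e : X ≃ₗ[K] Y) (h : ∀ x, e (f x) = g (e x)) (μ : K)
    (j : ℕ) : kap f μ j = kap g μ j := by
  have h1 : e.toLinearMap ∘ₗ (f - algebraMap K (End K X) μ) =
      (g - algebraMap K (End K Y) μ) ∘ₗ e.toLinearMap := by
    apply LinearMap.ext
    intro x
    simp only [LinearMap.comp_apply, LinearMap.sub_apply, map_sub, LinearEquiv.coe_coe, h,
      Module.algebraMap_end_apply, map_smul]
  have h2 := comm_pow h1 j
  refine LinearEquiv.finrank_eq (e.submoduleMap _ |>.trans (LinearEquiv.ofEq _ _ ?_))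
  ext y
  constructor
  · rintro ⟨x, hx, rfl⟩
    have h3 : e (((f - algebraMap K (End K X) μ) ^ j) x) =
        ((g - algebraMap K (End K Y) μ) ^ j) (e x) := congrArg (fun F => F x) h2
    rw [LinearMap.mem_ker]
    refine Eq.trans h3.symm ?_
    rw [LinearMap.mem_ker.1 hx, map_zero]
  · intro hy
    refine ⟨e.symm y, ?_, e.apply_symm_apply y⟩
    have h3 : e (((f - algebraMap K (End K X) μ) ^ j) (e.symm y)) =
        ((g - algebraMap K (End K Y) μ) ^ j) (e (e.symm y)) := congrArg (fun F => F (e.symm y)) h2
    rw [SetLike.mem_coe, LinearMap.mem_ker]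
    apply e.injective
    rw [h3, map_zero, e.apply_symm_apply]
    exact LinearMap.mem_ker.1 hy

end subadd

/-- The tensor product of a matrix and an operator. -/
def tens {b : ℕ} (T : Matrix (Fin b) (Fin b) K) (U : End K W) : End K (Fin b → W) where
  toFun w i := ∑ j, T i j • U (w j)
  map_add' w w' := by
    funext i
    simp only [Pi.add_apply, map_add, smul_add, Finset.sum_add_distrib]
  map_smul' c w := by
    funext i
    simp only [Pi.smul_apply, map_smul, RingHom.id_apply, Finset.smul_sum]
    exact Finset.sum_congr rfl fun j _ => smul_comm _ _ _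

lemma kap_smul (U : End K W) {c : K} (hc : c ≠ 0) (μ : K) (j : ℕ) :
    kap (c • U) μ j = kap U (μ / c) j := by
  have h1 : c • U - algebraMap K (End K W) μ = c • (U - algebraMap K (End K W) (μ / c)) := by
    apply LinearMap.ext
    intro x
    simp only [LinearMap.sub_apply, LinearMap.smul_apply, Module.algebraMap_end_apply, smul_sub,
      smul_smul]
    rw [mul_div_cancel₀ _ hc]
  have h2 : LinearMap.ker ((c • U - algebraMap K (End K W) μ) ^ j) =
      LinearMap.ker ((U - algebraMap K (End K W) (μ / c)) ^ j) := by
    rw [h1, smul_pow]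
    exact LinearMap.ker_smul _ _ (pow_ne_zero j hc)
  rw [kap, kap, h2]

/-- The last coordinate of an upper triangular matrix. -/
lemma kap_upper {b : ℕ} {T : Matrix (Fin (b + 1)) (Fin (b + 1)) K}
    (hT : ∀ i j, j < i → T i j = 0) (U : End K W) (μ : K) (j : ℕ) :
    kap (tens T U) μ j ≤ kap (tens (T.submatrix Fin.castSucc Fin.castSucc) U) μ j +
      kap (T (Fin.last b) (Fin.last b) • U) μ j := by
  let i : (Fin b → W) →ₗ[K] (Fin (b + 1) → W) :=
    { toFun := fun w => Fin.snoc (α := fun _ => W) w 0
      map_add' := fun w w' => by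
        funext k
        refine Fin.lastCases ?_ (fun k => ?_) k
        · simp
        · simp
      map_smul' := fun c w => by
        funext k
        refine Fin.lastCases ?_ (fun k => ?_) k
        · simp
        · simp }
  refine kap_le (π := LinearMap.proj (Fin.last b)) (i := i) ?_ ?_ ?_ ?_ μ j
  · apply LinearMap.ext
    intro w
    change ∑ k, T (Fin.last b) k • U (w k) = T (Fin.last b) (Fin.last b) • U (w (Fin.last b))
    rw [Finset.sum_eq_single (Fin.last b)]
    · intro k _ hk
      rw [hT _ _ (lt_of_le_of_ne (Fin.le_last k) hk), zero_smul]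
    · intro h
      exact absurd (Finset.mem_univ _) h
  · apply LinearMap.ext
    intro w
    funext k
    have h1 : ∀ k, (tens T U (i w)) k = ∑ l : Fin b, T k l.castSucc • U (w l) := by
      intro k
      change ∑ l, T k l • U (Fin.snoc (α := fun _ => W) w 0 l) = _
      rw [Fin.sum_univ_castSucc]
      simp
    refine Fin.lastCases ?_ (fun k => ?_) k
    · refine Eq.trans (h1 _) ?_
      have h2 : i (tens (T.submatrix Fin.castSucc Fin.castSucc) U w) (Fin.last b) = 0 := by
        change Fin.snoc (α := fun _ => W) _ 0 (Fin.last b) = 0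
        simp
      refine Eq.trans ?_ h2.symm
      exact Finset.sum_eq_zero fun l _ => by
        rw [hT _ _ (Fin.castSucc_lt_last l), zero_smul]
    · refine Eq.trans (h1 _) ?_
      change _ = Fin.snoc (α := fun _ => W) (tens (T.submatrix Fin.castSucc Fin.castSucc) U w) 0
        k.castSucc
      rw [Fin.snoc_castSucc]
      rfl
  · intro w hw
    refine ⟨fun k => w k.castSucc, ?_⟩
    funext k
    refine Fin.lastCases ?_ (fun k => ?_) k
    · change Fin.snoc (α := fun _ => W) (fun k : Fin b => w k.castSucc) (0 : W) (Fin.last b) =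
        w (Fin.last b)
      rw [Fin.snoc_last]
      exact (LinearMap.mem_ker.1 hw).symm
    · change Fin.snoc (α := fun _ => W) (fun k : Fin b => w k.castSucc) (0 : W) k.castSucc =
        w k.castSucc
      rw [Fin.snoc_castSucc]
  · intro w w' h
    funext k
    have h1 := congrFun h k.castSucc
    change Fin.snoc (α := fun _ => W) w 0 k.castSucc = Fin.snoc (α := fun _ => W) w' 0 k.castSucc
      at h1
    rwa [Fin.snoc_castSucc, Fin.snoc_castSucc] at h1

/-- The last coordinate of a lower triangular matrix. -/
lemma kap_lower {b : ℕ} {T : Matrix (Fin (b + 1)) (Fin (b + 1)) K}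
    (hT : ∀ i j, i < j → T i j = 0) (U : End K W) (μ : K) (j : ℕ) :
    kap (tens T U) μ j ≤ kap (tens (T.submatrix Fin.castSucc Fin.castSucc) U) μ j +
      kap (T (Fin.last b) (Fin.last b) • U) μ j := by
  let π : (Fin (b + 1) → W) →ₗ[K] (Fin b → W) :=
    { toFun := fun w k => w k.castSucc
      map_add' := fun _ _ => rfl
      map_smul' := fun _ _ => rfl }
  have h := kap_le (π := π) (i := LinearMap.single K (fun _ : Fin (b + 1) => W) (Fin.last b))
    (f := tens T U) (g := tens (T.submatrix Fin.castSucc Fin.castSucc) U)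
    (f' := T (Fin.last b) (Fin.last b) • U) ?_ ?_ ?_ ?_ μ j
  · omega
  · apply LinearMap.ext
    intro w
    funext k
    change ∑ l, T k.castSucc l • U (w l) = ∑ l : Fin b, T k.castSucc l.castSucc • U (w l.castSucc)
    rw [Fin.sum_univ_castSucc, hT _ _ (Fin.castSucc_lt_last k), zero_smul, add_zero]
  · apply LinearMap.ext
    intro w
    funext k
    change ∑ l, T k l • U (Pi.single (M := fun _ => W) (Fin.last b) w l) =
      Pi.single (M := fun _ => W) (Fin.last b) (T (Fin.last b) (Fin.last b) • U w) k
    rw [Finset.sum_eq_single (Fin.last b)]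
    · rw [Pi.single_eq_same]
      refine Fin.lastCases ?_ (fun k => ?_) k
      · rw [Pi.single_eq_same]
      · rw [Pi.single_eq_of_ne (Fin.castSucc_lt_last k).ne, hT _ _ (Fin.castSucc_lt_last k),
          zero_smul]
    · intro l _ hl
      rw [Pi.single_eq_of_ne hl, map_zero, smul_zero]
    · intro h
      exact absurd (Finset.mem_univ _) h
  · intro w hw
    refine ⟨w (Fin.last b), ?_⟩
    funext k
    change Pi.single (M := fun _ => W) (Fin.last b) (w (Fin.last b)) k = w k
    refine Fin.lastCases ?_ (fun k => ?_) k
    · rw [Pi.single_eq_same]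
    · rw [Pi.single_eq_of_ne (Fin.castSucc_lt_last k).ne]
      exact (congrFun (LinearMap.mem_ker.1 hw) k).symm
  · exact Pi.single_injective (M := fun _ => W) (Fin.last b)

end Pool.Agent.R940.Rt
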