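import Pool.Agent.R940.RtA

/-!
# Triangular matrices with a Jordan block
-/

set_option linter.unusedVariables false
set_option linter.unusedSectionVars false

namespace Pool.Agent.R940.Rt

open Module

universe v w

variable {K : Type v} [Field K] {W : Type w} [AddCommGroup W] [Module K W]
  [FiniteDimensional K W]

lemma kap_zero (U : End K W) (μ : K) : kap U μ 0 = 0 := by
  rw [kap, pow_zero]
  have : LinearMap.ker (1 : End K W) = ⊥ := LinearMap.ker_id
  rw [this, finrank_bot]

/-- Two factors linked by a nilpotent operator. -/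
lemma kap_block [CharZero K] {p q : Fin 2} (hpq : ∀ i, i = p ∨ i = q) {f : End K (Fin 2 → W)}
    {A U : End K W} (hU : Function.Injective U) (hAU : Commute A U) {c : K} (hc : c ≠ 0)
    (h1 : ∀ w, f w p = A (w p) + c • U (w q)) (h2 : ∀ w, f w q = A (w q)) (μ : K) (k : ℕ) :
    kap f μ (k + 1) ≤ kap A μ (k + 2) + kap A μ k := by
  set D : End K W := A - algebraMap K (End K W) μ with hD
  have hDU : ∀ (n : ℕ) (x : W), (D ^ n) (U x) = U ((D ^ n) x) := by
    intro n x
    have h3 : Commute D U := hAU.sub_left (Algebra.commutes μ U)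
    exact congrArg (fun F : End K W => F x) (h3.pow_left n).eq
  have hD1 : ∀ (n : ℕ) (x : W), D (U ((D ^ n) x)) = U ((D ^ (n + 1)) x) := by
    intro n x
    have := hDU 1 ((D ^ n) x)
    rw [pow_one] at this
    rw [this, pow_succ', Module.End.mul_apply]
  have e1 : ∀ w, (f - algebraMap K (End K (Fin 2 → W)) μ) w p = D (w p) + c • U (w q) := by
    intro w
    rw [LinearMap.sub_apply, Pi.sub_apply, h1, Module.algebraMap_end_apply, hD,
      LinearMap.sub_apply, Module.algebraMap_end_apply, Pi.smul_apply]
    abel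
  have e2 : ∀ w, (f - algebraMap K (End K (Fin 2 → W)) μ) w q = D (w q) := by
    intro w
    rw [LinearMap.sub_apply, Pi.sub_apply, h2, Module.algebraMap_end_apply, hD,
      LinearMap.sub_apply, Module.algebraMap_end_apply, Pi.smul_apply]
  have e3 : ∀ (n : ℕ) w, ((f - algebraMap K (End K (Fin 2 → W)) μ) ^ n) w q =
      (D ^ n) (w q) := by
    intro n
    induction n with
    | zero => intro w; rfl
    | succ n ih =>
      intro w
      rw [pow_succ', pow_succ', Module.End.mul_apply, Module.End.mul_apply, e2, ih]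
  have e4 : ∀ (n : ℕ) w, ((f - algebraMap K (End K (Fin 2 → W)) μ) ^ (n + 1)) w p =
      (D ^ (n + 1)) (w p) + (((n : K) + 1) * c) • U ((D ^ n) (w q)) := by
    intro n
    induction n with
    | zero =>
      intro w
      rw [zero_add, pow_one, pow_one, e1, Nat.cast_zero, zero_add, one_mul]
      rfl
    | succ n ih =>
      intro w
      rw [pow_succ', Module.End.mul_apply, e1, ih, e3, map_add, map_smul,
        pow_succ' D (n + 1), Module.End.mul_apply]
      rw [hD1, add_assoc, ← add_smul]
      congr 2
      push_cast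
      ring
  let g : LinearMap.ker ((f - algebraMap K (End K (Fin 2 → W)) μ) ^ (k + 1)) →ₗ[K]
      LinearMap.ker (D ^ (k + 2)) :=
    { toFun := fun w => ⟨(w : Fin 2 → W) p, by
        have h6 := LinearMap.mem_ker.1 w.2
        have h7 := congrFun h6 p
        have h8 := congrFun h6 q
        rw [e4] at h7
        rw [e3] at h8
        rw [LinearMap.mem_ker, show k + 2 = (k + 1) + 1 from rfl, pow_succ', Module.End.mul_apply]
        have h9 : (D ^ (k + 1)) ((w : Fin 2 → W) p) =
            -((((k : K) + 1) * c) • U ((D ^ k) ((w : Fin 2 → W) q))) :=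
          eq_neg_of_add_eq_zero_left h7
        rw [h9, map_neg, map_smul]
        rw [hD1, h8]
        simp⟩
      map_add' := fun _ _ => rfl
      map_smul' := fun _ _ => rfl }
  have h11 := LinearMap.finrank_range_add_finrank_ker g
  have h12 : finrank K (LinearMap.range g) ≤ finrank K (LinearMap.ker (D ^ (k + 2))) :=
    Submodule.finrank_le _
  have h13 : finrank K (LinearMap.ker g) ≤ finrank K (LinearMap.ker (D ^ k)) := by
    let r : LinearMap.ker g →ₗ[K] LinearMap.ker (D ^ k) :=
      { toFun := fun w => ⟨((w : LinearMap.ker ((f - algebraMap K (End K (Fin 2 → W)) μ) ^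
            (k + 1))) : Fin 2 → W) q, by
          have h6 := LinearMap.mem_ker.1 (w : LinearMap.ker
            ((f - algebraMap K (End K (Fin 2 → W)) μ) ^ (k + 1))).2
          have h7 := congrFun h6 p
          rw [e4] at h7
          have h8 : ((w : LinearMap.ker ((f - algebraMap K (End K (Fin 2 → W)) μ) ^
            (k + 1))) : Fin 2 → W) p = 0 := congrArg Subtype.val (LinearMap.mem_ker.1 w.2)
          rw [h8, map_zero, zero_add] at h7
          have h9 : ((k : K) + 1) * c ≠ 0 := mul_ne_zero (by exact_mod_cast Nat.succ_ne_zero k) hc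
          have h10 := (smul_eq_zero.1 h7).resolve_left h9
          rw [LinearMap.mem_ker]
          apply hU
          rw [h10, map_zero]⟩
        map_add' := fun _ _ => rfl
        map_smul' := fun _ _ => rfl }
    refine LinearMap.finrank_le_finrank_of_injective (f := r) ?_
    intro x y hxy
    apply Subtype.ext
    apply Subtype.ext
    funext i
    rcases hpq i with rfl | rfl
    · have h8 : ∀ w : LinearMap.ker g, ((w : LinearMap.ker
          ((f - algebraMap K (End K (Fin 2 → W)) μ) ^ (k + 1))) : Fin 2 → W) i = 0 :=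
        fun w => congrArg Subtype.val (LinearMap.mem_ker.1 w.2)
      rw [h8, h8]
    · exact congrArg Subtype.val hxy
  change finrank K _ ≤ _
  rw [← h11]
  exact Nat.add_le_add h12 h13

/-- Upper or lower triangular with a Jordan block at the first two places. -/
def Tri {b : ℕ} (M : Matrix (Fin (b + 2)) (Fin (b + 2)) K) : Prop :=
  M 0 0 = M 1 1 ∧ (((∀ i j, j < i → M i j = 0) ∧ M 0 1 ≠ 0) ∨
    ((∀ i j, i < j → M i j = 0) ∧ M 1 0 ≠ 0))

lemma Tri.sub {b : ℕ} {M : Matrix (Fin (b + 1 + 2)) (Fin (b + 1 + 2)) K} (h : Tri M) :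
    Tri (b := b) (M.submatrix Fin.castSucc Fin.castSucc) := by
  obtain ⟨h1, h2 | h2⟩ := h
  · exact ⟨h1, Or.inl ⟨fun i j hij => h2.1 _ _ (Fin.castSucc_lt_castSucc_iff.2 hij), h2.2⟩⟩
  · exact ⟨h1, Or.inr ⟨fun i j hij => h2.1 _ _ (Fin.castSucc_lt_castSucc_iff.2 hij), h2.2⟩⟩

/-- The contribution of a place. -/
noncomputable def term (U : End K W) (μ : K) (k : ℕ) {b : ℕ}
    (M : Matrix (Fin (b + 2)) (Fin (b + 2)) K) (i : Fin (b + 2)) : ℚ :=
  if i.val < 2 then ((kap (M i i • U) μ (k + 2) : ℚ) + (kap (M i i • U) μ k : ℚ)) / 2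
  else (kap (M i i • U) μ (k + 1) : ℚ)

lemma kap_tri [CharZero K] {U : End K W} (hU : Function.Injective U) (μ : K) (k : ℕ) : ∀ {b : ℕ}
    {M : Matrix (Fin (b + 2)) (Fin (b + 2)) K}, Tri M →
    (kap (tens M U) μ (k + 1) : ℚ) ≤ ∑ i, term U μ k M i := by
  intro b
  induction b with
  | zero =>
    intro M hM
    have h3 : (kap (tens M U) μ (k + 1) : ℚ) ≤ (kap (M 0 0 • U) μ (k + 2) : ℚ) +
        (kap (M 0 0 • U) μ k : ℚ) := by
      rw [← Nat.cast_add]
      apply Nat.cast_le.2
      have hc : Commute (M 0 0 • U) U := (Commute.refl U).smul_left _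
      obtain ⟨h1, h2 | h2⟩ := hM
      · refine kap_block (p := 0) (q := 1) (by intro i; fin_cases i <;> simp) hU hc h2.2 ?_ ?_ μ k
        · intro w
          change ∑ j, M 0 j • U (w j) = _
          rw [Fin.sum_univ_two]
          rfl
        · intro w
          change ∑ j, M 1 j • U (w j) = _
          rw [Fin.sum_univ_two, h2.1 1 0 (by decide), zero_smul, zero_add, ← h1]
          rfl
      · refine kap_block (p := 1) (q := 0) (by intro i; fin_cases i <;> simp) hU hc h2.2 ?_ ?_ μ k
        · intro w
          change ∑ j, M 1 j • U (w j) = _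
          rw [Fin.sum_univ_two, add_comm, ← h1]
          rfl
        · intro w
          change ∑ j, M 0 j • U (w j) = _
          rw [Fin.sum_univ_two, h2.1 0 1 (by decide), zero_smul, add_zero]
          rfl
    have h4 : ∑ i, term U μ k M i = (kap (M 0 0 • U) μ (k + 2) : ℚ) +
        (kap (M 0 0 • U) μ k : ℚ) := by
      have h5 : ∑ i, term U μ k M i = term U μ k M 0 + term U μ k M 1 := Fin.sum_univ_two _
      rw [h5, term, term, if_pos (by decide), if_pos (by decide), ← hM.1]
      ring
    rw [h4]
    exact h3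
  | succ b ih =>
    intro M hM
    have h3 : kap (tens M U) μ (k + 1) ≤
        kap (tens (M.submatrix Fin.castSucc Fin.castSucc) U) μ (k + 1) +
        kap (M (Fin.last _) (Fin.last _) • U) μ (k + 1) := by
      obtain ⟨h1, h2 | h2⟩ := hM
      · exact kap_upper h2.1 U μ (k + 1)
      · exact kap_lower h2.1 U μ (k + 1)
    have h4 := ih hM.sub
    have h5 : ∑ i, term U μ k M i = ∑ i : Fin (b + 2), term U μ k M i.castSucc +
        term U μ k M (Fin.last _) := Fin.sum_univ_castSucc _
    rw [h5]
    have h6 : term U μ k M (Fin.last _) = (kap (M (Fin.last _) (Fin.last _) • U) μ (k + 1) : ℚ) := by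
      rw [term, if_neg]
      simp
    have h7 : ∀ i : Fin (b + 2), term U μ k M i.castSucc =
        term U μ k (M.submatrix Fin.castSucc Fin.castSucc) i := by
      intro i
      rfl
    rw [h6, Finset.sum_congr rfl fun i _ => h7 i]
    calc (kap (tens M U) μ (k + 1) : ℚ) ≤
        ((kap (tens (M.submatrix Fin.castSucc Fin.castSucc) U) μ (k + 1) +
        kap (M (Fin.last _) (Fin.last _) • U) μ (k + 1) : ℕ) : ℚ) := Nat.cast_le.2 h3
      _ ≤ _ := by
        rw [Nat.cast_add]
        exact add_le_add h4 le_rfl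

/-- The tensor product is injective. -/
lemma tens_inj {b : ℕ} {M M' : Matrix (Fin b) (Fin b) K} (h : M' * M = 1) {U : End K W}
    (hU : Function.Injective U) : Function.Injective (tens M U) := by
  intro w w' hw
  funext i
  apply hU
  have h1 : ∀ w : Fin b → W, ∑ k, M' i k • (tens M U w) k = U (w i) := by
    intro w
    change ∑ k, M' i k • ∑ j, M k j • U (w j) = U (w i)
    simp only [Finset.smul_sum, smul_smul]
    rw [Finset.sum_comm]
    simp only [← Finset.sum_smul]
    have h2 : ∀ j, ∑ k, M' i k * M k j = (1 : Matrix (Fin b) (Fin b) K) i j := by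
      intro j
      rw [← h]
      rfl
    simp only [h2, Matrix.one_apply, ite_smul, one_smul, zero_smul, Finset.sum_ite_eq,
      Finset.mem_univ, if_true]
  rw [← h1 w, ← h1 w', hw]

end Pool.Agent.R940.Rt
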