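import Pool.Agent.R940.RtB
import Mathlib.Data.Nat.Choose.Central

/-!
# Tensor products of triangular matrices
-/

set_option linter.unusedVariables false
set_option linter.unusedSectionVars false

namespace Pool.Agent.R940.Rt

open scoped Classical in
/-- The weighted number of words with a given product. -/
noncomputable def wsum {K : Type*} [Field K] {N c : ℕ} (d : Fin N → Fin c → K) (μ : K)
    (f : (Fin N → Fin c) → ℚ) : ℚ :=
  ∑ z : Fin N → Fin c, if ∏ i, d i (z i) = μ then f z else 0

open Module

universe v w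

variable {K : Type v} [Field K]

section numbers

/-- The number of subsets of a set with `m` elements whose cardinality lies in a window. -/
def P (j m : ℕ) : ℕ :=
  ∑ i ∈ Finset.range (m + 1), if m < 2 * i + j ∧ 2 * i ≤ m + j then m.choose i else 0

lemma P_zero_right (j : ℕ) : P j 0 = if j = 0 then 0 else 1 := by
  rw [P, Finset.sum_range_one]
  rcases Nat.eq_zero_or_pos j with h | h
  · rw [if_neg (by omega), if_pos h]
  · rw [if_pos (by omega), if_neg (by omega), Nat.choose_self]

lemma P_succ (k m : ℕ) : P (k + 1) (m + 1) = P (k + 2) m + P k m := by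
  have h1 : P (k + 1) (m + 1) =
      ∑ i ∈ Finset.range (m + 1), (if m < 2 * i + k ∧ 2 * i ≤ m + k + 2 then m.choose i else 0) +
      ∑ i ∈ Finset.range (m + 1), (if m < 2 * i + k + 2 ∧ 2 * i ≤ m + k then m.choose i else 0) := by
    have h2 : P (k + 1) (m + 1) = ∑ i ∈ Finset.range (m + 2),
        (if m < 2 * i + k ∧ 2 * i ≤ m + k + 2 then (m + 1).choose i else 0) := by
      rw [P]
      refine Finset.sum_congr rfl fun i _ => ?_
      by_cases h : m < 2 * i + k ∧ 2 * i ≤ m + k + 2
      · rw [if_pos h, if_pos (by omega)]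
      · rw [if_neg h, if_neg (by omega)]
    rw [h2, Finset.sum_range_succ']
    have h3 : ∑ i ∈ Finset.range (m + 1),
        (if m < 2 * (i + 1) + k ∧ 2 * (i + 1) ≤ m + k + 2 then (m + 1).choose (i + 1) else 0) =
        ∑ i ∈ Finset.range (m + 1),
        (if m < 2 * i + k + 2 ∧ 2 * i ≤ m + k then m.choose i else 0) +
        ∑ i ∈ Finset.range (m + 1),
        (if m < 2 * (i + 1) + k ∧ 2 * (i + 1) ≤ m + k + 2 then m.choose (i + 1) else 0) := by
      rw [← Finset.sum_add_distrib]
      refine Finset.sum_congr rfl fun i _ => ?_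
      by_cases h : m < 2 * (i + 1) + k ∧ 2 * (i + 1) ≤ m + k + 2
      · rw [if_pos h, if_pos (by omega), if_pos h, Nat.choose_succ_succ]
      · rw [if_neg h, if_neg (by omega), if_neg h]
    have h4 : ∑ i ∈ Finset.range (m + 1),
        (if m < 2 * (i + 1) + k ∧ 2 * (i + 1) ≤ m + k + 2 then m.choose (i + 1) else 0) +
        (if m < 2 * 0 + k ∧ 2 * 0 ≤ m + k + 2 then (m + 1).choose 0 else 0) =
        ∑ i ∈ Finset.range (m + 1),
        (if m < 2 * i + k ∧ 2 * i ≤ m + k + 2 then m.choose i else 0) := by
      have h5 := Finset.sum_range_succ'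
        (fun i => if m < 2 * i + k ∧ 2 * i ≤ m + k + 2 then m.choose i else 0) (m + 1)
      have h6 := Finset.sum_range_succ
        (fun i => if m < 2 * i + k ∧ 2 * i ≤ m + k + 2 then m.choose i else 0) (m + 1)
      rw [h5] at h6
      have h7 : (if m < 2 * (m + 1) + k ∧ 2 * (m + 1) ≤ m + k + 2 then m.choose (m + 1) else 0) =
          0 := by
        rw [Nat.choose_succ_self]
        split_ifs <;> rfl
      rw [h7, add_zero] at h6
      rw [Nat.choose_zero_right] at h6 ⊢
      exact h6
    rw [h3, add_assoc, h4, add_comm]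
  rw [h1, P, P, ← Finset.sum_add_distrib, ← Finset.sum_add_distrib]
  refine Finset.sum_congr rfl fun i _ => ?_
  split_ifs <;> omega

lemma P_one (m : ℕ) : P 1 m = m.choose ((m + 1) / 2) := by
  rw [P, Finset.sum_eq_single ((m + 1) / 2)]
  · rw [if_pos (by omega)]
  · intro i _ hi
    rw [if_neg (by omega)]
  · intro h
    exact absurd (Finset.mem_range.2 (by omega)) h

lemma cb_le (t : ℕ) : t.centralBinom ^ 2 * (2 * t + 1) ≤ 16 ^ t := by
  induction t with
  | zero => simp
  | succ t ih =>
    have h1 := Nat.succ_mul_centralBinom_succ t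
    have h2 : (t + 1) ^ 2 * ((t + 1).centralBinom ^ 2 * (2 * (t + 1) + 1)) =
        4 * (2 * t + 1) * (2 * t + 3) * (t.centralBinom ^ 2 * (2 * t + 1)) := by
      have h3 : ((t + 1) * (t + 1).centralBinom) ^ 2 = (2 * (2 * t + 1) * t.centralBinom) ^ 2 := by
        rw [h1]
      calc (t + 1) ^ 2 * ((t + 1).centralBinom ^ 2 * (2 * (t + 1) + 1)) =
          ((t + 1) * (t + 1).centralBinom) ^ 2 * (2 * t + 3) := by ring
        _ = (2 * (2 * t + 1) * t.centralBinom) ^ 2 * (2 * t + 3) := by rw [h3]
        _ = _ := by ring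
    have h3 : (t + 1) ^ 2 * ((t + 1).centralBinom ^ 2 * (2 * (t + 1) + 1)) ≤
        (t + 1) ^ 2 * 16 ^ (t + 1) := by
      rw [h2]
      calc 4 * (2 * t + 1) * (2 * t + 3) * (t.centralBinom ^ 2 * (2 * t + 1)) ≤
          4 * (2 * t + 1) * (2 * t + 3) * 16 ^ t := Nat.mul_le_mul_left _ ih
        _ ≤ (16 * (t + 1) ^ 2) * 16 ^ t := by
          apply Nat.mul_le_mul_right
          nlinarith
        _ = _ := by ring
    exact Nat.le_of_mul_le_mul_left h3 (by positivity)

lemma P_sq (m : ℕ) : P 1 m ^ 2 * m ≤ 4 ^ m := by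
  rw [P_one]
  rcases Nat.even_or_odd' m with ⟨t, rfl | rfl⟩
  · have h1 : (2 * t + 1) / 2 = t := by omega
    rw [h1]
    have h2 := cb_le t
    rw [Nat.centralBinom] at h2
    have h3 : (16 : ℕ) ^ t = 4 ^ (2 * t) := by
      rw [pow_mul]
      norm_num
    rw [← h3]
    refine le_trans ?_ h2
    exact Nat.mul_le_mul_left _ (by omega)
  · have h1 : (2 * t + 1 + 1) / 2 = t + 1 := by omega
    rw [h1]
    have h2 := cb_le (t + 1)
    have h3 : (t + 1).centralBinom = 2 * (2 * t + 1).choose (t + 1) := by
      have h4 : (2 * t + 1).choose t = (2 * t + 1).choose (t + 1) :=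
        Nat.choose_symm_of_eq_add (show 2 * t + 1 = t + (t + 1) by ring)
      rw [Nat.centralBinom, show 2 * (t + 1) = 2 * t + 1 + 1 by ring, Nat.choose_succ_succ, h4]
      exact (two_mul _).symm
    rw [h3] at h2
    have h4 : (16 : ℕ) ^ (t + 1) = 4 * 4 ^ (2 * t + 1) := by
      rw [pow_succ, pow_succ 4 (2 * t), pow_mul]
      norm_num
      ring
    rw [h4] at h2
    have h5 : 4 * ((2 * t + 1).choose (t + 1) ^ 2 * (2 * t + 1)) ≤ 4 * 4 ^ (2 * t + 1) := by
      refine le_trans ?_ h2
      nlinarith [Nat.zero_le ((2 * t + 1).choose (t + 1) ^ 2)]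
    exact Nat.le_of_mul_le_mul_left h5 (by norm_num)

lemma P_le (m : ℕ) : P 1 m ≤ 2 ^ m := by
  rw [P_one]
  exact Nat.choose_le_two_pow _ _

/-- The mean number of blocks. -/
noncomputable def Q (j m : ℕ) : ℚ := (P j m : ℚ) / 2 ^ m

lemma Q_nonneg (j m : ℕ) : 0 ≤ Q j m := by
  rw [Q]
  positivity

lemma Q_succ (k m : ℕ) : Q (k + 1) (m + 1) = (Q (k + 2) m + Q k m) / 2 := by
  rw [Q, Q, Q, P_succ, pow_succ]
  push_cast
  field_simp

lemma Q_one_le (m : ℕ) : Q 1 m ≤ 1 := by
  rw [Q, div_le_one (by positivity)]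
  exact_mod_cast P_le m

lemma Q_sq (m : ℕ) : Q 1 m ^ 2 * m ≤ 1 := by
  have h1 : ((P 1 m ^ 2 * m : ℕ) : ℚ) ≤ ((4 ^ m : ℕ) : ℚ) := Nat.cast_le.2 (P_sq m)
  push_cast at h1
  have h2 : ((2 : ℚ) ^ m) ^ 2 = 4 ^ m := by
    rw [← pow_mul, mul_comm, pow_mul]
    norm_num
  have h3 : Q 1 m ^ 2 * m = ((P 1 m : ℚ) ^ 2 * m) / 4 ^ m := by
    rw [Q, div_pow, h2]
    ring
  rw [h3, div_le_one (by positivity)]
  exact h1

end numbers

section words

variable {N c : ℕ}

/-- The tensor product of matrices. -/
def tp (M : Fin N → Matrix (Fin c) (Fin c) K) : Matrix (Fin N → Fin c) (Fin N → Fin c) K :=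
  fun z z' => ∏ i, M i (z i) (z' i)

lemma tp_mul (M M' : Fin N → Matrix (Fin c) (Fin c) K) :
    tp M * tp M' = tp (fun i => M i * M' i) := by
  funext z z''
  rw [Matrix.mul_apply]
  simp only [tp, Matrix.mul_apply]
  rw [Finset.prod_univ_sum, Fintype.piFinset_univ]
  exact Finset.sum_congr rfl fun z' _ => Finset.prod_mul_distrib.symm

lemma tp_one : tp (fun _ : Fin N => (1 : Matrix (Fin c) (Fin c) K)) = 1 := by
  funext z z'
  simp only [tp, Matrix.one_apply]
  rw [Finset.prod_ite_zero]
  by_cases h : z = z'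
  · rw [if_pos h, if_pos (fun i _ => congrFun h i), Finset.prod_const_one]
  · rw [if_neg h, if_neg (fun h' => h (funext fun i => h' i (Finset.mem_univ i)))]

/-- The operator of the tensor product. -/
noncomputable def op (M : Fin N → Matrix (Fin c) (Fin c) K) : End K ((Fin N → Fin c) → K) :=
  Matrix.toLin' (tp M)

lemma op_apply (M : Fin N → Matrix (Fin c) (Fin c) K) (x : (Fin N → Fin c) → K)
    (z : Fin N → Fin c) : op M x z = ∑ z', (∏ i, M i (z i) (z' i)) * x z' := by
  rw [op, Matrix.toLin'_apply]
  rfl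

lemma op_inj (M : Fin N → Matrix (Fin c) (Fin c) K) (h : ∀ i, ∃ M', M' * M i = 1) :
    Function.Injective (op M) := by
  choose M' hM' using h
  have h1 : tp M' * tp M = 1 := by
    rw [tp_mul]
    have : (fun i => M' i * M i) = fun _ => 1 := funext hM'
    rw [this, tp_one]
  intro x y hxy
  have h3 : ∀ x, Matrix.toLin' (tp M') (Matrix.toLin' (tp M) x) = x := by
    intro x
    rw [← Matrix.toLin'_mul_apply, h1, Matrix.toLin'_one]
    rfl
  have h4 := congrArg (Matrix.toLin' (tp M')) hxy
  rw [op] at h4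
  rwa [h3, h3] at h4

/-- The first letter of a word. -/
def consE : ((Fin (N + 1) → Fin c) → K) ≃ₗ[K] (Fin c → ((Fin N → Fin c) → K)) where
  toFun x i z := x (Fin.cons (α := fun _ => Fin c) i z)
  map_add' _ _ := rfl
  map_smul' _ _ := rfl
  invFun y z := y (z 0) (fun i => z i.succ)
  left_inv x := by
    funext z
    exact congrArg x (Fin.cons_self_tail z)
  right_inv y := by
    funext i z
    rfl

lemma sum_cons {A : Type*} [AddCommMonoid A] (f : (Fin (N + 1) → Fin c) → A) :
    ∑ z, f z = ∑ i : Fin c, ∑ z : Fin N → Fin c, f (Fin.cons (α := fun _ => Fin c) i z) := by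
  rw [← Fintype.sum_prod_type' (f := fun i z => f (Fin.cons (α := fun _ => Fin c) i z))]
  exact (Equiv.sum_comp (Fin.consEquiv (fun _ => Fin c)) f).symm

lemma kap_op_succ (M : Fin (N + 1) → Matrix (Fin c) (Fin c) K) (μ : K) (j : ℕ) :
    kap (op M) μ j = kap (tens (M 0) (op fun i => M i.succ)) μ j := by
  refine kap_congr consE ?_ μ j
  intro x
  funext i z
  change op M x (Fin.cons (α := fun _ => Fin c) i z) =
    (∑ j, M 0 i j • op (fun i => M i.succ) (consE x j)) z
  rw [op_apply, sum_cons, Finset.sum_apply]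
  refine Finset.sum_congr rfl fun j _ => ?_
  rw [Pi.smul_apply, op_apply, smul_eq_mul, Finset.mul_sum]
  refine Finset.sum_congr rfl fun z' _ => ?_
  rw [Fin.prod_univ_succ, Fin.cons_zero, Fin.cons_zero, mul_assoc]
  rfl

/-- The number of letters among the first two. -/
def marks {b : ℕ} (z : Fin N → Fin (b + 2)) : ℕ := ∑ i, if (z i).val < 2 then 1 else 0

lemma marks_cons {b : ℕ} (i : Fin (b + 2)) (z : Fin N → Fin (b + 2)) :
    marks (Fin.cons (α := fun _ => Fin (b + 2)) i z) = (if i.val < 2 then 1 else 0) + marks z := by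
  rw [marks, Fin.sum_univ_succ]
  rfl

/-- **Kernels on tensor products of triangular matrices with a Jordan block.** -/
theorem kap_op [CharZero K] {b : ℕ} : ∀ {N : ℕ} (M : Fin N → Matrix (Fin (b + 2)) (Fin (b + 2)) K),
    (∀ i, Tri (M i)) → (∀ i l, M i l l ≠ 0) → (∀ i, ∃ M', M' * M i = 1) → ∀ (μ : K) (j : ℕ),
    (kap (op M) μ j : ℚ) ≤
      wsum (fun i l => M i l l) μ (fun z => Q j (marks z)) := by
  classical
  intro N
  induction N with
  | zero =>
    intro M _ _ _ μ j
    rw [wsum, Fintype.sum_unique, Fin.prod_univ_zero]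
    rcases Nat.eq_zero_or_pos j with rfl | hj
    · rw [kap_zero, Nat.cast_zero]
      split_ifs
      · exact Q_nonneg _ _
      · exact le_rfl
    · have h0 : ∀ z : Fin 0 → Fin (b + 2), marks z = 0 := fun _ => rfl
      rw [h0]
      by_cases h : 1 = μ
      · rw [if_pos h, Q, P_zero_right, if_neg hj.ne', pow_zero, Nat.cast_one, div_one]
        have h1 : kap (op M) μ j ≤ 1 := by
          refine le_trans (Submodule.finrank_le _) ?_
          rw [Module.finrank_fintype_fun_eq_card]
          simp
        exact_mod_cast h1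
      · rw [if_neg h]
        have h1 : kap (op M) μ j = 0 := by
          rw [kap]
          have h2 : op M - algebraMap K (End K ((Fin 0 → Fin (b + 2)) → K)) μ =
              algebraMap K (End K ((Fin 0 → Fin (b + 2)) → K)) (1 - μ) := by
            apply LinearMap.ext
            intro x
            funext z
            rw [LinearMap.sub_apply, Pi.sub_apply, op_apply, Module.algebraMap_end_apply,
              Module.algebraMap_end_apply, Fintype.sum_unique, Fin.prod_univ_zero, one_mul,
              Pi.smul_apply, Pi.smul_apply, sub_smul, one_smul]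
            congr 2
            exact Subsingleton.elim _ _
          rw [h2, ← map_pow]
          have h3 : LinearMap.ker (algebraMap K (End K ((Fin 0 → Fin (b + 2)) → K))
              ((1 - μ) ^ j)) = ⊥ := by
            rw [LinearMap.ker_eq_bot']
            intro x hx
            rw [Module.algebraMap_end_apply] at hx
            exact (smul_eq_zero.1 hx).resolve_left (pow_ne_zero j (sub_ne_zero.2 h))
          rw [h3, finrank_bot]
        rw [h1, Nat.cast_zero]
  | succ N ih =>
    intro M hM hd hinv μ j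
    rw [wsum]
    rcases Nat.eq_zero_or_pos j with rfl | hj
    · rw [kap_zero, Nat.cast_zero]
      refine Finset.sum_nonneg fun z _ => ?_
      split_ifs
      · exact Q_nonneg _ _
      · exact le_rfl
    · obtain ⟨k, rfl⟩ : ∃ k, j = k + 1 := ⟨j - 1, by omega⟩
      rw [kap_op_succ, sum_cons]
      have hU : Function.Injective (op fun i => M i.succ) := op_inj _ fun i => hinv i.succ
      refine le_trans (kap_tri hU μ k (hM 0)) (Finset.sum_le_sum fun i _ => ?_)
      have hk : ∀ j', (kap (M 0 i i • op fun i => M i.succ) μ j' : ℚ) ≤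
          ∑ z : Fin N → Fin (b + 2), if M 0 i i * ∏ l, M l.succ (z l) (z l) = μ then
            Q j' (marks z) else 0 := by
        intro j'
        rw [kap_smul _ (hd 0 i)]
        refine le_trans (ih (fun i => M i.succ) (fun i => hM i.succ) (fun i l => hd i.succ l)
          (fun i => hinv i.succ) _ j') (le_of_eq ?_)
        rw [wsum]
        refine Finset.sum_congr rfl fun z _ => ?_
        by_cases h : ∏ l, M l.succ (z l) (z l) = μ / M 0 i i
        · rw [if_pos h, if_pos]
          rw [h, mul_div_cancel₀ _ (hd 0 i)]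
        · rw [if_neg h, if_neg]
          intro h'
          apply h
          rw [← h', mul_div_cancel_left₀ _ (hd 0 i)]
      have hprod : ∀ z : Fin N → Fin (b + 2),
          (∏ l, M l (Fin.cons (α := fun _ => Fin (b + 2)) i z l)
            (Fin.cons (α := fun _ => Fin (b + 2)) i z l)) =
          M 0 i i * ∏ l, M l.succ (z l) (z l) := by
        intro z
        rw [Fin.prod_univ_succ]
        rfl
      simp only [hprod, marks_cons]
      rw [term]
      by_cases hi : i.val < 2
      · simp only [if_pos hi]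
        have h1 := hk (k + 2)
        have h2 := hk k
        have h3 : ∑ z : Fin N → Fin (b + 2), (if M 0 i i * ∏ l, M l.succ (z l) (z l) = μ then
            Q (k + 1) (1 + marks z) else 0) =
            (∑ z : Fin N → Fin (b + 2), (if M 0 i i * ∏ l, M l.succ (z l) (z l) = μ then
              Q (k + 2) (marks z) else 0) +
            ∑ z : Fin N → Fin (b + 2), (if M 0 i i * ∏ l, M l.succ (z l) (z l) = μ then
              Q k (marks z) else 0)) / 2 := by
          rw [← Finset.sum_add_distrib, Finset.sum_div]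
          refine Finset.sum_congr rfl fun z _ => ?_
          split_ifs
          · rw [add_comm 1, Q_succ]
          · simp
        rw [h3]
        linarith
      · simp only [if_neg hi, zero_add]
        exact hk (k + 1)

end words

end Pool.Agent.R940.Rt
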