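import Pool.Agent.R940.RtC
import Mathlib.Analysis.SpecialFunctions.Log.Basic
import Mathlib.Analysis.SpecialFunctions.Pow.Real
import Mathlib.Algebra.Order.Chebyshev

/-!
# Counting words
-/

set_option linter.unusedVariables false
set_option linter.unusedSectionVars false

namespace Pool.Agent.R940.Rt

open Module

universe v w

variable {K : Type v} [Field K]

section tail

/-- Few words have few marks. -/
lemma card_tail {b N : ℕ} (s : ℝ) :
    ((Finset.univ.filter fun z : Fin N → Fin (b + 2) => (marks z : ℝ) < s).card : ℝ) ≤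
      Real.exp s * ((b : ℝ) + 1) ^ N := by
  have h1 : ∀ z : Fin N → Fin (b + 2), (marks z : ℝ) < s →
      (1 : ℝ) ≤ Real.exp s * (1 / 2 : ℝ) ^ marks z := by
    intro z hz
    have h2 : Real.exp (-1) ≤ 1 / 2 := by
      rw [Real.exp_neg, one_div]
      apply inv_anti₀ (by norm_num)
      have := Real.add_one_le_exp 1
      linarith
    have h3 : Real.exp (-(marks z : ℝ)) ≤ (1 / 2 : ℝ) ^ marks z := by
      have h4 : Real.exp (-(marks z : ℝ)) = Real.exp (-1) ^ marks z := by
        rw [← Real.exp_nat_mul]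
        congr 1
        ring
      rw [h4]
      exact pow_le_pow_left₀ (Real.exp_pos _).le h2 _
    calc (1 : ℝ) ≤ Real.exp (s - marks z) := Real.one_le_exp (by linarith)
      _ = Real.exp s * Real.exp (-(marks z : ℝ)) := by rw [sub_eq_add_neg, Real.exp_add]
      _ ≤ _ := mul_le_mul_of_nonneg_left h3 (Real.exp_pos _).le
  have h5 : ∑ z : Fin N → Fin (b + 2), (1 / 2 : ℝ) ^ marks z = ((b : ℝ) + 1) ^ N := by
    have h6 : ∀ z : Fin N → Fin (b + 2), (1 / 2 : ℝ) ^ marks z =
        ∏ i, (1 / 2 : ℝ) ^ (if (z i).val < 2 then 1 else 0) := by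
      intro z
      rw [marks, Finset.prod_pow_eq_pow_sum]
    rw [Finset.sum_congr rfl fun z _ => h6 z]
    have h7 := (Finset.prod_univ_sum (ι := Fin N) (fun _ => (Finset.univ : Finset (Fin (b + 2))))
      (fun _ l => (1 / 2 : ℝ) ^ (if l.val < 2 then 1 else 0)))
    rw [Fintype.piFinset_univ] at h7
    rw [← h7]
    have h8 : ∑ l : Fin (b + 2), (1 / 2 : ℝ) ^ (if l.val < 2 then 1 else 0) = (b : ℝ) + 1 := by
      rw [Fin.sum_univ_succ, Fin.sum_univ_succ]
      have h9 : ∀ i : Fin b, (1 / 2 : ℝ) ^ (if i.succ.succ.val < 2 then 1 else 0) = 1 := by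
        intro i
        rw [if_neg (by rw [Fin.val_succ, Fin.val_succ]; omega), pow_zero]
      rw [Finset.sum_congr rfl fun i _ => h9 i]
      simp
      ring
    rw [h8, Finset.prod_const, Finset.card_univ, Fintype.card_fin]
  calc ((Finset.univ.filter fun z : Fin N → Fin (b + 2) => (marks z : ℝ) < s).card : ℝ) =
      ∑ z ∈ Finset.univ.filter fun z : Fin N → Fin (b + 2) => (marks z : ℝ) < s, (1 : ℝ) := by
        rw [Finset.sum_const, nsmul_eq_mul, mul_one]
    _ ≤ ∑ z ∈ Finset.univ.filter fun z : Fin N → Fin (b + 2) => (marks z : ℝ) < s,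
        Real.exp s * (1 / 2 : ℝ) ^ marks z :=
        Finset.sum_le_sum fun z hz => h1 z (Finset.mem_filter.1 hz).2
    _ ≤ ∑ z : Fin N → Fin (b + 2), Real.exp s * (1 / 2 : ℝ) ^ marks z :=
        Finset.sum_le_sum_of_subset_of_nonneg (Finset.filter_subset _ _)
          fun z _ _ => by positivity
    _ = _ := by rw [← Finset.mul_sum, h5]

end tail

section pairs

open scoped Classical in
/-- The number of pairs of words of length `n` in the letters `l` with the same product. -/
noncomputable def pairs {c : ℕ} (l : Fin c → K) (n : ℕ) : ℕ :=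
  (Finset.univ.filter fun p : (Fin n → Fin c) × (Fin n → Fin c) =>
    ∏ i, l (p.1 i) = ∏ i, l (p.2 i)).card

/-- The numbers of occurrences. -/
def occ {c n : ℕ} (u : Fin n → Fin c) : Fin c → Fin (n + 1) := fun j =>
  ⟨(Finset.univ.filter fun i => u i = j).card, by
    have := Finset.card_filter_le (Finset.univ : Finset (Fin n)) (fun i => u i = j)
    rw [Finset.card_univ, Fintype.card_fin] at this
    omega⟩

lemma prod_occ {c n : ℕ} (l : Fin c → K) (u : Fin n → Fin c) :
    ∏ i, l (u i) = ∏ j, l j ^ (occ u j).val := by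
  rw [← Finset.prod_fiberwise Finset.univ u (fun i => l (u i))]
  refine Finset.prod_congr rfl fun j _ => ?_
  have h1 : ∏ i ∈ Finset.univ.filter (fun i => u i = j), l (u i) =
      ∏ i ∈ Finset.univ.filter (fun i => u i = j), l j :=
    Finset.prod_congr rfl fun i hi => by rw [(Finset.mem_filter.1 hi).2]
  rw [h1, Finset.prod_const]
  rfl

/-- **There are many pairs.** -/
lemma pairs_ge {c : ℕ} (l : Fin c → K) (n : ℕ) :
    ((c : ℝ) ^ n) ^ 2 ≤ ((n : ℝ) + 1) ^ c * (pairs l n : ℝ) := by
  classical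
  have h1 : ∀ κ : Fin c → Fin (n + 1), ((Finset.univ.filter fun u : Fin n → Fin c =>
      occ u = κ).card : ℝ) = ∑ u : Fin n → Fin c, if occ u = κ then (1 : ℝ) else 0 := by
    intro κ
    rw [Finset.sum_ite, Finset.sum_const_zero, add_zero, Finset.sum_const, nsmul_eq_mul, mul_one]
  have h2 : ∑ κ : Fin c → Fin (n + 1), ∑ u : Fin n → Fin c, (if occ u = κ then (1 : ℝ) else 0) =
      (c : ℝ) ^ n := by
    rw [Finset.sum_comm]
    have h3 : ∀ u : Fin n → Fin c, ∑ κ : Fin c → Fin (n + 1),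
        (if occ u = κ then (1 : ℝ) else 0) = 1 := by
      intro u
      rw [Finset.sum_ite_eq, if_pos (Finset.mem_univ _)]
    rw [Finset.sum_congr rfl fun u _ => h3 u, Finset.sum_const, Finset.card_univ]
    simp
  have h4 := sq_sum_le_card_mul_sum_sq (s := (Finset.univ : Finset (Fin c → Fin (n + 1))))
    (f := fun κ => ∑ u : Fin n → Fin c, (if occ u = κ then (1 : ℝ) else 0))
  rw [h2] at h4
  refine le_trans h4 ?_
  have h5 : ((Finset.univ : Finset (Fin c → Fin (n + 1))).card : ℝ) = ((n : ℝ) + 1) ^ c := by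
    rw [Finset.card_univ]
    simp
  rw [h5]
  refine mul_le_mul_of_nonneg_left ?_ (by positivity)
  have h6 : ∑ κ : Fin c → Fin (n + 1),
      (∑ u : Fin n → Fin c, (if occ u = κ then (1 : ℝ) else 0)) ^ 2 =
      ∑ p : (Fin n → Fin c) × (Fin n → Fin c), if occ p.1 = occ p.2 then (1 : ℝ) else 0 := by
    have h7 : ∀ κ : Fin c → Fin (n + 1),
        (∑ u : Fin n → Fin c, (if occ u = κ then (1 : ℝ) else 0)) ^ 2 =
        ∑ p : (Fin n → Fin c) × (Fin n → Fin c),
          (if occ p.1 = κ then (1 : ℝ) else 0) * (if occ p.2 = κ then (1 : ℝ) else 0) := by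
      intro κ
      rw [sq, Finset.sum_mul_sum, Fintype.sum_prod_type]
    rw [Finset.sum_congr rfl fun κ _ => h7 κ, Finset.sum_comm]
    refine Finset.sum_congr rfl fun p _ => ?_
    have h8 : ∀ κ : Fin c → Fin (n + 1),
        (if occ p.1 = κ then (1 : ℝ) else 0) * (if occ p.2 = κ then (1 : ℝ) else 0) =
        if occ p.1 = κ then (if occ p.2 = κ then (1 : ℝ) else 0) else 0 := by
      intro κ
      split_ifs <;> simp
    rw [Finset.sum_congr rfl fun κ _ => h8 κ, Finset.sum_ite_eq, if_pos (Finset.mem_univ _)]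
    by_cases h : occ p.1 = occ p.2
    · rw [if_pos h, if_pos h.symm]
    · rw [if_neg h, if_neg (fun h' => h h'.symm)]
  rw [h6, Finset.sum_ite, Finset.sum_const_zero, add_zero, Finset.sum_const, nsmul_eq_mul,
    mul_one, pairs]
  apply Nat.cast_le.2
  refine Finset.card_le_card ?_
  intro p hp
  rw [Finset.mem_filter] at hp ⊢
  refine ⟨Finset.mem_univ _, ?_⟩
  rw [prod_occ, prod_occ, hp.2]

end pairs

section estimate

lemma exp_bound {b : ℕ} (n : ℕ) :
    ((b : ℝ) + 1) ^ (n + n) ≤
      ((((b + 2 : ℕ) : ℝ)) ^ n) ^ 2 * Real.exp (-(2 * (n / ((b + 2 : ℕ) : ℝ)))) := by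
  set c : ℝ := ((b + 2 : ℕ) : ℝ) with hc
  have hc0 : 0 < c := by
    rw [hc]
    positivity
  have h1 : (b : ℝ) + 1 = c * (1 - 1 / c) := by
    rw [mul_sub, mul_one, mul_one_div_cancel hc0.ne', hc]
    push_cast
    ring
  have h2 : 1 - 1 / c ≤ Real.exp (-(1 / c)) := by
    have := Real.add_one_le_exp (-(1 / c))
    linarith
  have h3 : 0 ≤ 1 - 1 / c := by
    have : (1 : ℝ) / c ≤ 1 := by
      rw [div_le_one hc0, hc]
      push_cast
      linarith [(Nat.cast_nonneg b : (0 : ℝ) ≤ b)]
    linarith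
  rw [h1, mul_pow, ← pow_mul, show n * 2 = n + n by ring]
  refine mul_le_mul_of_nonneg_left ?_ (by positivity)
  calc (1 - 1 / c) ^ (n + n) ≤ Real.exp (-(1 / c)) ^ (n + n) := pow_le_pow_left₀ h3 h2 _
    _ = _ := by
      rw [← Real.exp_nat_mul]
      congr 1
      push_cast
      ring

lemma poly_bound {c : ℕ} (hc : 0 < c) {n : ℕ} (hn : 4 * (c : ℝ) ^ 2 ≤ Real.sqrt n) :
    Real.sqrt n * (((n : ℝ) + 1) ^ c * Real.exp (-(n / (c : ℝ)))) ≤ 1 := by
  have hc1 : (1 : ℝ) ≤ c := by exact_mod_cast hc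
  have hs : 0 < Real.sqrt n := lt_of_lt_of_le (by positivity) hn
  have hn0 : (0 : ℝ) < n := Real.sqrt_pos.1 hs
  have hsq : Real.sqrt n * Real.sqrt n = n := Real.mul_self_sqrt hn0.le
  set r := Real.sqrt n with hr
  have h1 : ((n : ℝ) + 1) ≤ Real.exp (2 * r) := by
    have h2 : r + 1 ≤ Real.exp r := Real.add_one_le_exp r
    have h3 : Real.exp (2 * r) = Real.exp r * Real.exp r := by
      rw [← Real.exp_add]
      congr 1
      ring
    rw [h3]
    have h4 : (r + 1) * (r + 1) ≤ Real.exp r * Real.exp r :=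
      mul_le_mul h2 h2 (by positivity) (Real.exp_pos _).le
    nlinarith
  have h5 : r ≤ Real.exp r := by
    have := Real.add_one_le_exp r
    linarith
  have h6 : ((n : ℝ) + 1) ^ c ≤ Real.exp (c * (2 * r)) := by
    rw [Real.exp_nat_mul]
    exact pow_le_pow_left₀ (by positivity) h1 _
  calc r * (((n : ℝ) + 1) ^ c * Real.exp (-(n / (c : ℝ)))) ≤
      Real.exp r * (Real.exp (c * (2 * r)) * Real.exp (-(n / (c : ℝ)))) := by
        refine mul_le_mul h5 ?_ (by positivity) (Real.exp_pos _).le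
        exact mul_le_mul_of_nonneg_right h6 (Real.exp_pos _).le
    _ = Real.exp (r + (c * (2 * r) + -(n / (c : ℝ)))) := by
        rw [Real.exp_add, Real.exp_add]
    _ ≤ 1 := by
        rw [Real.exp_le_one_iff]
        have h7 : (r + c * (2 * r)) * c ≤ n := by
          have h8 : (r + c * (2 * r)) * c = r * (c + 2 * (c : ℝ) ^ 2) := by ring
          have h9 : (c : ℝ) + 2 * (c : ℝ) ^ 2 ≤ r := by nlinarith
          rw [h8]
          nlinarith
        have h10 : r + c * (2 * r) ≤ n / (c : ℝ) := by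
          rw [le_div_iff₀ (by positivity)]
          exact h7
        linarith

end estimate

end Pool.Agent.R940.Rt
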