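import Pool.Agent.R940.RtD

/-!
# The square root law for kernels
-/

set_option linter.unusedVariables false
set_option linter.unusedSectionVars false

namespace Pool.Agent.R940.Rt

open Module

universe v w

variable {K : Type v} [Field K]

open scoped Classical in
/-- The number of words with a given product. -/
noncomputable def wcard {N c : ℕ} (d : Fin N → Fin c → K) (μ : K) : ℕ :=
  (Finset.univ.filter fun z : Fin N → Fin c => ∏ i, d i (z i) = μ).card

lemma wsum_le_wcard {N b : ℕ} (d : Fin N → Fin (b + 2) → K) (μ : K) :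
    wsum d μ (fun z => Q 1 (marks z)) ≤ (wcard d μ : ℚ) := by
  classical
  rw [wsum, wcard]
  have h1 : ((Finset.univ.filter fun z : Fin N → Fin (b + 2) => ∏ i, d i (z i) = μ).card : ℚ) =
      ∑ z : Fin N → Fin (b + 2), if ∏ i, d i (z i) = μ then (1 : ℚ) else 0 := by
    rw [Finset.sum_ite, Finset.sum_const_zero, add_zero, Finset.sum_const, nsmul_eq_mul, mul_one]
  refine le_trans ?_ (le_of_eq h1.symm)
  refine Finset.sum_le_sum fun z _ => ?_
  split_ifs
  · exact Q_one_le _
  · exact le_rfl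

/-- **The estimate.** -/
lemma wsum_bound {n b : ℕ} (d : Fin (n + n) → Fin (b + 2) → K) (μ : K)
    (hA : ((((b + 2 : ℕ) : ℝ)) ^ n) ^ 2 ≤ ((n : ℝ) + 1) ^ (b + 2) * (wcard d μ : ℝ)) :
    Real.sqrt n * ((wsum d μ (fun z => Q 1 (marks z)) : ℚ) : ℝ) <
      4 * (((b + 2 : ℕ) : ℝ)) ^ 2 * (wcard d μ : ℝ) := by
  classical
  set c : ℝ := ((b + 2 : ℕ) : ℝ) with hc
  have hc2 : 2 ≤ c := by
    rw [hc]
    push_cast
    linarith [(Nat.cast_nonneg b : (0 : ℝ) ≤ b)]
  have hA1 : (0 : ℝ) < (wcard d μ : ℝ) := by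
    have h1 : (0 : ℝ) < (c ^ n) ^ 2 := by positivity
    have h2 := lt_of_lt_of_le h1 hA
    exact pos_of_mul_pos_right h2 (by positivity)
  have hA0 : (0 : ℝ) ≤ (wcard d μ : ℝ) := hA1.le
  by_cases hn : Real.sqrt n < 4 * c ^ 2
  · have h1 : ((wsum d μ (fun z => Q 1 (marks z)) : ℚ) : ℝ) ≤ (wcard d μ : ℝ) := by
      exact_mod_cast wsum_le_wcard d μ
    calc Real.sqrt n * ((wsum d μ (fun z => Q 1 (marks z)) : ℚ) : ℝ) ≤
        Real.sqrt n * (wcard d μ : ℝ) := mul_le_mul_of_nonneg_left h1 (Real.sqrt_nonneg _)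
      _ < _ := mul_lt_mul_of_pos_right hn hA1
  · rw [not_lt] at hn
    have hs : 0 < Real.sqrt n := lt_of_lt_of_le (by positivity) hn
    have hn0 : (0 : ℝ) < n := Real.sqrt_pos.1 hs
    have hsq : Real.sqrt n * Real.sqrt n = n := Real.mul_self_sqrt hn0.le
    -- every term is at most the tail indicator plus `√c / √n`
    have h1 : ∀ z : Fin (n + n) → Fin (b + 2), ((Q 1 (marks z) : ℚ) : ℝ) ≤
        (if (marks z : ℝ) < n / c then 1 else 0) + c / Real.sqrt n := by
      intro z
      have hpos : 0 ≤ c / Real.sqrt n := by positivity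
      by_cases h : (marks z : ℝ) < n / c
      · rw [if_pos h]
        have : ((Q 1 (marks z) : ℚ) : ℝ) ≤ 1 := by exact_mod_cast Q_one_le (marks z)
        linarith
      · rw [if_neg h, zero_add]
        rw [not_lt] at h
        have h2 : ((Q 1 (marks z) : ℚ) : ℝ) ^ 2 * (marks z : ℝ) ≤ 1 := by
          exact_mod_cast Q_sq (marks z)
        have h3 : (0 : ℝ) ≤ ((Q 1 (marks z) : ℚ) : ℝ) := by exact_mod_cast Q_nonneg 1 (marks z)
        have h4 : ((Q 1 (marks z) : ℚ) : ℝ) ^ 2 * (n / c) ≤ 1 :=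
          le_trans (mul_le_mul_of_nonneg_left h (by positivity)) h2
        have h5 : (((Q 1 (marks z) : ℚ) : ℝ) * Real.sqrt n) ^ 2 ≤ c ^ 2 := by
          have h6 : ((Q 1 (marks z) : ℚ) : ℝ) ^ 2 * n ≤ c := by
            have h7 : ((Q 1 (marks z) : ℚ) : ℝ) ^ 2 * n =
                (((Q 1 (marks z) : ℚ) : ℝ) ^ 2 * (n / c)) * c := by
              field_simp
            rw [h7]
            nlinarith
          rw [mul_pow, sq (Real.sqrt n), hsq]
          nlinarith
        have h8 : ((Q 1 (marks z) : ℚ) : ℝ) * Real.sqrt n ≤ c :=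
          (pow_le_pow_iff_left₀ (by positivity) (by linarith) two_ne_zero).1 h5
        rw [le_div_iff₀ hs]
        exact h8
    have h2 : ((wsum d μ (fun z => Q 1 (marks z)) : ℚ) : ℝ) ≤
        ((Finset.univ.filter fun z : Fin (n + n) → Fin (b + 2) => (marks z : ℝ) < n / c).card : ℝ) +
        c / Real.sqrt n * (wcard d μ : ℝ) := by
      rw [wsum, wcard]
      push_cast
      have h3 : ∀ z : Fin (n + n) → Fin (b + 2),
          ((if ∏ i, d i (z i) = μ then Q 1 (marks z) else 0 : ℚ) : ℝ) ≤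
          (if (marks z : ℝ) < n / c then (1 : ℝ) else 0) +
            c / Real.sqrt n * (if ∏ i, d i (z i) = μ then (1 : ℝ) else 0) := by
        intro z
        have hpos : 0 ≤ c / Real.sqrt n := by positivity
        by_cases h : ∏ i, d i (z i) = μ
        · rw [if_pos h, if_pos h, mul_one]
          exact h1 z
        · rw [if_neg h, if_neg h, mul_zero, add_zero, Rat.cast_zero]
          split_ifs <;> norm_num
      refine le_trans (Finset.sum_le_sum fun z _ => h3 z) (le_of_eq ?_)
      rw [Finset.sum_add_distrib, ← Finset.mul_sum]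
      congr 1
      · rw [Finset.sum_ite, Finset.sum_const_zero, add_zero, Finset.sum_const, nsmul_eq_mul,
          mul_one]
      · rw [Finset.sum_ite, Finset.sum_const_zero, add_zero, Finset.sum_const, nsmul_eq_mul,
          mul_one]
    have h3 := card_tail (b := b) (N := n + n) (n / c)
    have h4 := exp_bound (b := b) n
    rw [← hc] at h4
    have h5 : ((Finset.univ.filter fun z : Fin (n + n) → Fin (b + 2) =>
        (marks z : ℝ) < n / c).card : ℝ) ≤ (c ^ n) ^ 2 * Real.exp (-(n / c)) := by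
      refine le_trans h3 ?_
      calc Real.exp (n / c) * ((b : ℝ) + 1) ^ (n + n) ≤
          Real.exp (n / c) * ((c ^ n) ^ 2 * Real.exp (-(2 * (n / c)))) :=
            mul_le_mul_of_nonneg_left h4 (Real.exp_pos _).le
        _ = (c ^ n) ^ 2 * (Real.exp (n / c) * Real.exp (-(2 * (n / c)))) := by ring
        _ = (c ^ n) ^ 2 * Real.exp (-(n / c)) := by
            rw [← Real.exp_add]
            congr 2
            ring
    have h6 := poly_bound (c := b + 2) (by omega) hn
    rw [← hc] at h6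
    have h7 : Real.sqrt n * ((c ^ n) ^ 2 * Real.exp (-(n / c))) ≤ (wcard d μ : ℝ) := by
      calc Real.sqrt n * ((c ^ n) ^ 2 * Real.exp (-(n / c))) ≤
          Real.sqrt n * ((((n : ℝ) + 1) ^ (b + 2) * (wcard d μ : ℝ)) * Real.exp (-(n / c))) := by
            refine mul_le_mul_of_nonneg_left ?_ hs.le
            exact mul_le_mul_of_nonneg_right hA (Real.exp_pos _).le
        _ = (Real.sqrt n * (((n : ℝ) + 1) ^ (b + 2) * Real.exp (-(n / c)))) * (wcard d μ : ℝ) := by
            ring
        _ ≤ 1 * (wcard d μ : ℝ) := mul_le_mul_of_nonneg_right h6 hA0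
        _ = _ := one_mul _
    calc Real.sqrt n * ((wsum d μ (fun z => Q 1 (marks z)) : ℚ) : ℝ) ≤
        Real.sqrt n * ((c ^ n) ^ 2 * Real.exp (-(n / c)) + c / Real.sqrt n * (wcard d μ : ℝ)) :=
          mul_le_mul_of_nonneg_left (le_trans h2 (add_le_add h5 le_rfl)) hs.le
      _ = Real.sqrt n * ((c ^ n) ^ 2 * Real.exp (-(n / c))) + c * (wcard d μ : ℝ) := by
          field_simp
      _ ≤ (wcard d μ : ℝ) + c * (wcard d μ : ℝ) := add_le_add h7 le_rfl
      _ = (1 + c) * (wcard d μ : ℝ) := by ring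
      _ < _ := mul_lt_mul_of_pos_right (by nlinarith) hA1

end Pool.Agent.R940.Rt
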