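import Pool.Agent.R940.RtE
import Mathlib.LinearAlgebra.Eigenspace.Triangularizable
import Mathlib.LinearAlgebra.Eigenspace.Semisimple
import Mathlib.LinearAlgebra.Dual.Lemmas
import Mathlib.LinearAlgebra.Matrix.Charpoly.Basic

/-!
# Triangular bases which start with a Jordan block
-/

set_option linter.unusedVariables false
set_option linter.unusedSectionVars false

namespace Pool.Agent.R940.Rt

open Module

universe v w

variable {K : Type v} [Field K]

/-- An eigenvector for an operator which is not semisimple, and a vector above it. -/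
lemma exists_jordan [IsAlgClosed K] {V : Type w} [AddCommGroup V] [Module K V]
    [FiniteDimensional K V] {T : End K V} (hT : ¬ T.IsSemisimple) :
    ∃ (l : K) (v0 v1 : V), v0 ≠ 0 ∧ T v0 = l • v0 ∧ T v1 = l • v1 + v0 := by
  have h1 : ¬ Squarefree (minpoly K T) := fun h =>
    hT (Module.End.isSemisimple_of_squarefree_aeval_eq_zero h (minpoly.aeval K T))
  rw [Squarefree] at h1
  push Not at h1
  obtain ⟨x, ⟨y, hy⟩, hx⟩ := h1
  have hp : minpoly K T ≠ 0 := minpoly.ne_zero (Algebra.IsIntegral.isIntegral T)
  have hx0 : x ≠ 0 := by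
    rintro rfl
    rw [zero_mul, zero_mul] at hy
    exact hp hy
  obtain ⟨l, hl⟩ := IsAlgClosed.exists_root x (fun h => hx (Polynomial.isUnit_iff_degree_eq_zero.2 h))
  obtain ⟨z, hz⟩ := Polynomial.dvd_iff_isRoot.2 hl
  set X1 : Polynomial K := Polynomial.X - Polynomial.C l with hX1
  have h2 : minpoly K T = X1 * (X1 * (z * z * y)) := by
    rw [hy, hz]
    ring
  have h3 : Polynomial.aeval T (X1 * (z * z * y)) ≠ 0 := by
    intro h
    have h4 := minpoly.dvd K T h
    have h5 : X1 * (z * z * y) ≠ 0 := by
      intro h6
      rw [h6, mul_zero] at h2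
      exact hp h2
    have h6 := Polynomial.degree_le_of_dvd h4 h5
    rw [h2, Polynomial.degree_mul, hX1, Polynomial.degree_X_sub_C, ← hX1] at h6
    rw [Polynomial.degree_eq_natDegree h5] at h6
    have h7 : 1 + (X1 * (z * z * y)).natDegree ≤ (X1 * (z * z * y)).natDegree := by
      exact_mod_cast h6
    omega
  have h4 : ∃ v, Polynomial.aeval T (X1 * (z * z * y)) v ≠ 0 := by
    by_contra h
    push Not at h
    exact h3 (LinearMap.ext h)
  obtain ⟨v, hv⟩ := h4
  have h5 : ∀ (p : Polynomial K) (u : V), Polynomial.aeval T (X1 * p) u =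
      T (Polynomial.aeval T p u) - l • Polynomial.aeval T p u := by
    intro p u
    rw [map_mul, Module.End.mul_apply, hX1, map_sub, Polynomial.aeval_X, Polynomial.aeval_C,
      LinearMap.sub_apply, Module.algebraMap_end_apply]
  refine ⟨l, Polynomial.aeval T (X1 * (z * z * y)) v, Polynomial.aeval T (z * z * y) v, hv, ?_, ?_⟩
  · have h6 := h5 (X1 * (z * z * y)) v
    rw [← h2, minpoly.aeval, LinearMap.zero_apply] at h6
    exact sub_eq_zero.1 h6.symm
  · rw [h5]
    abel

/-- **Triangular bases.** -/
lemma exists_flag [IsAlgClosed K] : ∀ (m : ℕ) {V : Type w} [AddCommGroup V] [Module K V]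
    [FiniteDimensional K V] (T : End K V) (l : K) (v0 v1 : V), v0 ≠ 0 → T v0 = l • v0 →
    T v1 = l • v1 + v0 → finrank K V = m + 2 →
    ∃ e : Basis (Fin (m + 2)) K V, e 0 = v0 ∧ e 1 = v1 ∧
      ∀ j, T (e j) ∈ Submodule.span K (e '' Set.Iic j) := by
  intro m
  induction m with
  | zero =>
    intro V _ _ _ T l v0 v1 h0 hT0 hT1 hV
    have hli : LinearIndependent K ![v0, v1] := by
      rw [LinearIndependent.pair_iff]
      intro s t hst
      have h1 : (T - l • 1) (s • v0 + t • v1) = t • v0 := by
        simp only [LinearMap.sub_apply, map_add, map_smul, hT0, hT1, LinearMap.smul_apply,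
          Module.End.one_apply]
        rw [sub_self, smul_zero, zero_add]
        congr 1
        abel
      rw [hst, map_zero] at h1
      have ht : t = 0 := (smul_eq_zero.1 h1.symm).resolve_right h0
      subst ht
      rw [zero_smul, add_zero] at hst
      exact ⟨(smul_eq_zero.1 hst).resolve_right h0, rfl⟩
    have hcard : Fintype.card (Fin 2) = finrank K V := by rw [hV, Fintype.card_fin]
    refine ⟨basisOfLinearIndependentOfCardEqFinrank hli hcard, ?_, ?_, ?_⟩
    · rw [coe_basisOfLinearIndependentOfCardEqFinrank]
      rfl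
    · rw [coe_basisOfLinearIndependentOfCardEqFinrank]
      rfl
    · intro j
      have hj : j = 0 ∨ j = 1 := by
        fin_cases j
        · exact Or.inl rfl
        · exact Or.inr rfl
      rcases hj with rfl | rfl
      · rw [coe_basisOfLinearIndependentOfCardEqFinrank]
        change T v0 ∈ _
        rw [hT0]
        exact Submodule.smul_mem _ _ (Submodule.subset_span ⟨0, Set.mem_Iic.2 le_rfl, rfl⟩)
      · rw [coe_basisOfLinearIndependentOfCardEqFinrank]
        change T v1 ∈ _
        rw [hT1]
        exact Submodule.add_mem _ (Submodule.smul_mem _ _ (Submodule.subset_span ⟨1, Set.mem_Iic.2 le_rfl, rfl⟩))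
          (Submodule.subset_span ⟨0, Set.mem_Iic.2 (by decide), rfl⟩)
  | succ m ih =>
    intro V _ _ _ T l v0 v1 h0 hT0 hT1 hV
    -- the functionals which vanish on the block
    set S : Submodule K V := Submodule.span K {v0, v1} with hS
    have hS0 : v0 ∈ S := Submodule.subset_span (by simp)
    have hS1 : v1 ∈ S := Submodule.subset_span (by simp)
    have hTS : ∀ x ∈ S, T x ∈ S := by
      intro x hx
      have h1 : S ≤ S.comap T := by
        rw [hS, Submodule.span_le]
        rintro x (rfl | hx)
        · change T _ ∈ S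
          rw [hT0]
          exact Submodule.smul_mem _ _ hS0
        · rw [Set.mem_singleton_iff] at hx
          subst hx
          change T _ ∈ S
          rw [hT1]
          exact Submodule.add_mem _ (Submodule.smul_mem _ _ hS1) hS0
      exact h1 hx
    have hSr : finrank K S ≤ 2 := by
      classical
      have h1 := finrank_span_finset_le_card (R := K) ({v0, v1} : Finset V)
      rw [Finset.coe_pair] at h1
      exact h1.trans Finset.card_le_two
    have hann : finrank K S.dualAnnihilator ≠ 0 := by
      have h1 := Subspace.finrank_add_finrank_dualAnnihilator_eq S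
      omega
    let D : End K S.dualAnnihilator := (T.dualMap).restrict (fun φ hφ => by
      rw [Submodule.mem_dualAnnihilator] at hφ ⊢
      intro w hw
      exact hφ (T w) (hTS w hw))
    have : Nontrivial S.dualAnnihilator := Module.nontrivial_of_finrank_pos
      (Nat.pos_of_ne_zero hann)
    obtain ⟨ν, hν⟩ := Module.End.exists_eigenvalue (K := K) (V := ↥S.dualAnnihilator) D
    obtain ⟨φ, hφ⟩ := hν.exists_hasEigenvector
    have hφ0 : (φ : Module.Dual K V) ≠ 0 := fun h => hφ.2 (Subtype.ext h)
    have hφT : ∀ x, (φ : Module.Dual K V) (T x) = ν * (φ : Module.Dual K V) x := by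
      intro x
      have h1 := congrArg (fun ψ : S.dualAnnihilator => (ψ : Module.Dual K V) x) hφ.apply_eq_smul
      exact h1
    have hφS : ∀ x ∈ S, (φ : Module.Dual K V) x = 0 := (Submodule.mem_dualAnnihilator _).1 φ.2
    set H : Submodule K V := LinearMap.ker (φ : Module.Dual K V) with hH
    have hHT : ∀ x ∈ H, T x ∈ H := by
      intro x hx
      rw [hH, LinearMap.mem_ker] at hx ⊢
      rw [hφT, hx, mul_zero]
    have hHr : finrank K H = m + 2 := by
      have h1 : finrank K H + 1 = finrank K V :=
        Module.Dual.finrank_ker_add_one_of_ne_zero hφ0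
      omega
    obtain ⟨e', he0, he1, he⟩ := ih (T.restrict hHT) l ⟨v0, hφS v0 hS0⟩ ⟨v1, hφS v1 hS1⟩
      (fun h => h0 (congrArg Subtype.val h)) (Subtype.ext hT0) (Subtype.ext hT1) hHr
    obtain ⟨w, hw⟩ : ∃ w, (φ : Module.Dual K V) w ≠ 0 := by
      by_contra h
      push Not at h
      exact hφ0 (LinearMap.ext h)
    have hspan : Submodule.span K (Set.range fun i => (e' i : V)) ≤ H := by
      rw [Submodule.span_le]
      rintro _ ⟨i, rfl⟩
      exact (e' i).2
    have hli : LinearIndependent K (Fin.snoc (fun i => (e' i : V)) w : Fin (m + 2 + 1) → V) := by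
      rw [linearIndependent_finSnoc]
      refine ⟨?_, fun h => hw (LinearMap.mem_ker.1 (hspan h))⟩
      exact e'.linearIndependent.map' H.subtype (Submodule.ker_subtype H)
    have hcard : Fintype.card (Fin (m + 2 + 1)) = finrank K V := by
      rw [hV, Fintype.card_fin]
    let e : Basis (Fin (m + 2 + 1)) K V := basisOfLinearIndependentOfCardEqFinrank hli hcard
    have hec : ⇑e = (Fin.snoc (fun i => (e' i : V)) w : Fin (m + 2 + 1) → V) :=
      coe_basisOfLinearIndependentOfCardEqFinrank hli hcard
    have hecast : ∀ i : Fin (m + 2), e i.castSucc = (e' i : V) := by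
      intro i
      rw [hec, Fin.snoc_castSucc]
    refine ⟨e, ?_, ?_, ?_⟩
    · have h1 := hecast 0
      rw [he0] at h1
      exact h1
    · have h1 := hecast 1
      rw [he1] at h1
      exact h1
    · intro j
      refine Fin.lastCases ?_ (fun j => ?_) j
      · have h1 : e '' Set.Iic (Fin.last (m + 2)) = Set.range e := by
          rw [← Set.image_univ]
          congr 1
          ext i
          simp [Fin.le_last]
        rw [h1, e.span_eq]
        exact Submodule.mem_top
      · rw [hecast]
        have h1 := he j
        have h2 : H.subtype ((T.restrict hHT) (e' j)) ∈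
            Submodule.map H.subtype (Submodule.span K (e' '' Set.Iic j)) :=
          Submodule.mem_map_of_mem h1
        rw [Submodule.map_span] at h2
        refine Submodule.span_mono ?_ h2
        rintro _ ⟨_, ⟨i, hi, rfl⟩, rfl⟩
        exact ⟨i.castSucc, Fin.castSucc_le_castSucc_iff.2 hi, hecast i⟩

end Pool.Agent.R940.Rt
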