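import Pool.Agent.R940.RtF

/-!
# Generalised eigenspaces of tensor products of triangular matrices
-/

set_option linter.unusedVariables false
set_option linter.unusedSectionVars false

namespace Pool.Agent.R940.Rt

open Module

universe v w

variable {K : Type v} [Field K]

lemma P_le_two_pow (j m : ℕ) : P j m ≤ 2 ^ m := by
  rw [P, ← Nat.sum_range_choose]
  refine Finset.sum_le_sum fun i _ => ?_
  split_ifs
  · exact le_rfl
  · exact Nat.zero_le _

lemma Q_le_one (j m : ℕ) : Q j m ≤ 1 := by
  rw [Q, div_le_one (by positivity)]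
  exact_mod_cast P_le_two_pow j m

lemma wsum_le {N b : ℕ} (d : Fin N → Fin (b + 2) → K) (μ : K) (j : ℕ) :
    wsum d μ (fun z => Q j (marks z)) ≤ (wcard d μ : ℚ) := by
  classical
  rw [wsum, wcard]
  have h1 : ((Finset.univ.filter fun z : Fin N → Fin (b + 2) => ∏ i, d i (z i) = μ).card : ℚ) =
      ∑ z : Fin N → Fin (b + 2), if ∏ i, d i (z i) = μ then (1 : ℚ) else 0 := by
    rw [Finset.sum_ite, Finset.sum_const_zero, add_zero, Finset.sum_const, nsmul_eq_mul, mul_one]
  refine le_trans ?_ (le_of_eq h1.symm)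
  refine Finset.sum_le_sum fun z _ => ?_
  split_ifs
  · exact Q_le_one _ _
  · exact le_rfl

lemma kap_le_wcard [CharZero K] {b N : ℕ} (M : Fin N → Matrix (Fin (b + 2)) (Fin (b + 2)) K)
    (hM : ∀ i, Tri (M i)) (hd : ∀ i l, M i l l ≠ 0) (hi : ∀ i, ∃ M', M' * M i = 1) (μ : K)
    (j : ℕ) : kap (op M) μ j ≤ wcard (fun i l => M i l l) μ := by
  have h1 := le_trans (kap_op M hM hd hi μ j) (wsum_le _ μ j)
  exact_mod_cast h1

lemma finrank_max {V : Type w} [AddCommGroup V] [Module K V] [FiniteDimensional K V]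
    (f : End K V) (μ : K) : finrank K (f.maxGenEigenspace μ) = kap f μ (finrank K V) := by
  rw [Module.End.maxGenEigenspace_eq_genEigenspace_finrank, Module.End.genEigenspace_nat, kap,
    Algebra.algebraMap_eq_smul_one]

lemma finrank_sup_le {V : Type w} [AddCommGroup V] [Module K V] [FiniteDimensional K V]
    {ι : Type*} (S : Finset ι) (U : ι → Submodule K V) :
    finrank K (S.sup U : Submodule K V) ≤ ∑ i ∈ S, finrank K (U i) := by
  classical
  induction S using Finset.induction_on with
  | empty =>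
    rw [Finset.sup_empty, finrank_bot]
    exact Nat.zero_le _
  | insert i S hi ih =>
    rw [Finset.sup_insert, Finset.sum_insert hi]
    exact le_trans (Submodule.finrank_add_le_finrank_add_finrank _ _) (Nat.add_le_add_left ih _)

/-- Upper bounds for the dimensions of the generalised eigenspaces with the right sum are equalities. -/
lemma pole_eq [IsAlgClosed K] {V : Type w} [AddCommGroup V] [Module K V] [FiniteDimensional K V]
    (f : End K V) (w : K → ℕ) (S : Finset K) (hS : ∀ μ, μ ∉ S → w μ = 0)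
    (hw : ∀ μ, finrank K (f.maxGenEigenspace μ) ≤ w μ) (hsum : ∑ μ ∈ S, w μ ≤ finrank K V)
    (μ : K) : finrank K (f.maxGenEigenspace μ) = w μ := by
  classical
  have h1 : (S.sup fun μ => f.maxGenEigenspace μ) = (⊤ : Submodule K V) := by
    rw [eq_top_iff, ← Module.End.iSup_maxGenEigenspace_eq_top f]
    refine iSup_le fun ν => ?_
    by_cases h : ν ∈ S
    · exact Finset.le_sup (f := fun μ => f.maxGenEigenspace μ) h
    · have h2 : finrank K (f.maxGenEigenspace ν) = 0 :=
        Nat.le_zero.1 (le_trans (hw ν) (le_of_eq (hS ν h)))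
      rw [Submodule.finrank_eq_zero.1 h2]
      exact bot_le
  have h2 := finrank_sup_le S (fun μ => f.maxGenEigenspace μ)
  rw [h1, finrank_top] at h2
  have h3 : ∑ μ ∈ S, finrank K (f.maxGenEigenspace μ) = ∑ μ ∈ S, w μ :=
    le_antisymm (Finset.sum_le_sum fun μ _ => hw μ) (le_trans hsum h2)
  by_cases h : μ ∈ S
  · exact (Finset.sum_eq_sum_iff_of_le fun μ _ => hw μ).1 h3 μ h
  · have h4 := hw μ
    rw [hS μ h] at h4 ⊢
    exact Nat.le_zero.1 h4

/-- **The dimension of the generalised eigenspace is the number of words.** -/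
lemma wcard_eq [IsAlgClosed K] [CharZero K] {b N : ℕ}
    (M : Fin N → Matrix (Fin (b + 2)) (Fin (b + 2)) K)
    (hM : ∀ i, Tri (M i)) (hd : ∀ i l, M i l l ≠ 0) (hi : ∀ i, ∃ M', M' * M i = 1)
    {V : Type w} [AddCommGroup V] [Module K V] [FiniteDimensional K V] (f : End K V)
    (hf : ∀ μ j, kap f μ j = kap (op M) μ j) (hV : finrank K V = (b + 2) ^ N) (μ : K) :
    finrank K (f.maxGenEigenspace μ) = wcard (fun i l => M i l l) μ := by
  classical
  refine pole_eq f (fun μ => wcard (fun i l => M i l l) μ)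
    (Finset.univ.image fun z : Fin N → Fin (b + 2) => ∏ i, M i (z i) (z i)) ?_ ?_ ?_ μ
  · intro ν hν
    rw [wcard, Finset.card_eq_zero, Finset.filter_eq_empty_iff]
    intro z _ hz
    exact hν (Finset.mem_image.2 ⟨z, Finset.mem_univ _, hz⟩)
  · intro ν
    rw [finrank_max, hf]
    exact kap_le_wcard M hM hd hi ν _
  · rw [hV]
    have h1 := Finset.card_eq_sum_card_image (fun z : Fin N → Fin (b + 2) => ∏ i, M i (z i) (z i))
      Finset.univ
    rw [Finset.card_univ] at h1
    have h2 : Fintype.card (Fin N → Fin (b + 2)) = (b + 2) ^ N := by simp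
    rw [h2] at h1
    rw [h1]
    refine le_of_eq (Finset.sum_congr rfl fun ν _ => ?_)
    rw [wcard]

end Pool.Agent.R940.Rt
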