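import Pool.Agent.R940.RtG
import Pool.Agent.R937.JC.B
import Mathlib.LinearAlgebra.TensorProduct.Basis

/-!
# Frobenius on the powers of a variety
-/

set_option linter.unusedVariables false
set_option linter.unusedSectionVars false

open CategoryTheory AlgebraicGeometry

universe u v

namespace Pool.Agent.R940.Rt

open Module Pool.Agent.H914 Pool.Agent.R937.JB VarClass Obj WeilCohomology

section words

variable {K : Type*} [Field K] {N c : ℕ}

lemma consE_op (M : Fin (N + 1) → Matrix (Fin c) (Fin c) K) (x : (Fin (N + 1) → Fin c) → K) :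
    consE (op M x) = tens (M 0) (op fun i => M i.succ) (consE x) := by
  funext i z
  change op M x (Fin.cons (α := fun _ => Fin c) i z) =
    (∑ j, M 0 i j • op (fun i => M i.succ) (consE x j)) z
  rw [op_apply, sum_cons, Finset.sum_apply]
  refine Finset.sum_congr rfl fun j _ => ?_
  rw [Pi.smul_apply, op_apply, smul_eq_mul, Finset.mul_sum]
  refine Finset.sum_congr rfl fun z' _ => ?_
  rw [Fin.prod_univ_succ, Fin.cons_zero, Fin.cons_zero, mul_assoc]
  rfl

end words

variable {k : Type u} [Field k] {𝒱 : VarClass k} {ops : CycleOps 𝒱}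
  {W : WeilCohomology.{u, v} ops} {q : ℕ} {F : Frobenius W q} {X Y Z : 𝒱.Obj}

/-- The product of `N + 1` copies of `X`. -/
noncomputable def pw (X : 𝒱.Obj) : ℕ → 𝒱.Obj
  | 0 => X
  | N + 1 => X.prod (pw X N)

lemma semisimple_pw (hX : FrobSemisimple F X) (N : ℕ) : FrobSemisimple F (pw X N) := by
  induction N with
  | zero => exact hX
  | succ N ih => exact semisimple_prod hX ih

/-- The Künneth formula in coordinates. -/
noncomputable def kun {c : ℕ} (e : Basis (Fin c) W.K (W.H X)) (Y : 𝒱.Obj) :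
    W.H (X.prod Y) ≃ₗ[W.K] (Fin c → W.H Y) :=
  ((kappa W X Y).symm.trans (TensorProduct.equivFinsuppOfBasisLeft e)).trans
    (Finsupp.linearEquivFunOnFinite W.K (W.H Y) (Fin c))

lemma kun_box {c : ℕ} (e : Basis (Fin c) W.K (W.H X)) (Y : 𝒱.Obj) (x : W.H X) (y : W.H Y)
    (i : Fin c) : kun e Y (W.map (fst X Y) x * W.map (snd X Y) y) i = e.repr x i • y := by
  rw [← kappa_tmul]
  simp only [kun, LinearEquiv.trans_apply, LinearEquiv.symm_apply_apply]
  simp

lemma kun_frob {c : ℕ} (e : Basis (Fin c) W.K (W.H X)) (Y : 𝒱.Obj) (z : W.H (X.prod Y)) :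
    kun e Y (frob F (X.prod Y) z) =
      tens (LinearMap.toMatrix e e (frob F X)) (frob F Y) (kun e Y z) := by
  have h : (kun e Y).toLinearMap ∘ₗ frob F (X.prod Y) =
      tens (LinearMap.toMatrix e e (frob F X)) (frob F Y) ∘ₗ (kun e Y).toLinearMap := by
    apply ext_kunneth_lin
    intro a b
    funext i
    have h1 : frob F (X.prod Y) (W.map (fst X Y) a * W.map (snd X Y) b) =
        W.map (fst X Y) (frob F X a) * W.map (snd X Y) (frob F Y b) := by
      rw [frob_mul, frob_map, frob_map]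
    change kun e Y (frob F (X.prod Y) (W.map (fst X Y) a * W.map (snd X Y) b)) i =
      ∑ j, LinearMap.toMatrix e e (frob F X) i j •
        frob F Y (kun e Y (W.map (fst X Y) a * W.map (snd X Y) b) j)
    rw [h1, kun_box]
    have h2 : e.repr (frob F X a) i =
        ∑ j, LinearMap.toMatrix e e (frob F X) i j * e.repr a j := by
      rw [← LinearMap.toMatrix_mulVec_repr e e (frob F X) a]
      rfl
    rw [h2, Finset.sum_smul]
    refine Finset.sum_congr rfl fun j _ => ?_
    rw [kun_box, map_smul, smul_smul]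
  exact congrArg (fun G => G z) h

lemma coord_succ {c N : ℕ} (e : Basis (Fin c) W.K (W.H X)) (Y : 𝒱.Obj)
    (E : W.H Y ≃ₗ[W.K] ((Fin N → Fin c) → W.K))
    (hE : ∀ x, E (frob F Y x) = op (fun _ => LinearMap.toMatrix e e (frob F X)) (E x)) :
    ∃ E : W.H (X.prod Y) ≃ₗ[W.K] ((Fin (N + 1) → Fin c) → W.K), ∀ x,
      E (frob F (X.prod Y) x) = op (fun _ => LinearMap.toMatrix e e (frob F X)) (E x) := by
  refine ⟨((kun e Y).trans (LinearEquiv.piCongrRight fun _ => E)).trans consE.symm, ?_⟩
  intro x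
  rw [LinearEquiv.trans_apply, LinearEquiv.trans_apply, LinearEquiv.trans_apply,
    LinearEquiv.trans_apply]
  apply consE.injective
  rw [consE_op, LinearEquiv.apply_symm_apply, LinearEquiv.apply_symm_apply, kun_frob]
  funext i
  change E (∑ j, LinearMap.toMatrix e e (frob F X) i j •
    frob F Y (kun e Y x j)) = ∑ j, LinearMap.toMatrix e e (frob F X) i j •
    op (fun _ => LinearMap.toMatrix e e (frob F X)) (E (kun e Y x j))
  rw [map_sum]
  refine Finset.sum_congr rfl fun j _ => ?_
  rw [map_smul, hE]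

/-- **Frobenius on the powers of a variety.** -/
lemma exists_coord {c : ℕ} (e : Basis (Fin c) W.K (W.H X)) (N : ℕ) :
    ∃ E : W.H (pw X N) ≃ₗ[W.K] ((Fin (N + 1) → Fin c) → W.K), ∀ x,
      E (frob F (pw X N) x) = op (fun _ => LinearMap.toMatrix e e (frob F X)) (E x) := by
  induction N with
  | zero =>
    refine ⟨e.equivFun.trans (LinearEquiv.funCongrLeft W.K W.K (Equiv.funUnique (Fin 1) (Fin c))),
      ?_⟩
    intro x
    funext z
    rw [op_apply]
    have h1 := Equiv.sum_comp (Equiv.funUnique (Fin 1) (Fin c)).symm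
      (fun z' : Fin 1 → Fin c =>
        (∏ i, LinearMap.toMatrix e e (frob F X) (z i) (z' i)) * e.repr x (z' 0))
    change e.repr (frob F X x) (z 0) = ∑ z' : Fin 1 → Fin c,
      (∏ i, LinearMap.toMatrix e e (frob F X) (z i) (z' i)) * e.repr x (z' 0)
    rw [← h1, ← LinearMap.toMatrix_mulVec_repr e e (frob F X) x]
    change ∑ j, LinearMap.toMatrix e e (frob F X) (z 0) j * e.repr x j = _
    refine Finset.sum_congr rfl fun j _ => ?_
    rw [Fin.prod_univ_one]
    rfl
  | succ N ih =>
    obtain ⟨E, hE⟩ := ih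
    exact coord_succ e (pw X N) E hE

lemma kap_pw {c : ℕ} (e : Basis (Fin c) W.K (W.H X)) (N : ℕ) (μ : W.K) (j : ℕ) :
    kap (frob F (pw X N)) μ j =
      kap (op fun _ : Fin (N + 1) => LinearMap.toMatrix e e (frob F X)) μ j := by
  obtain ⟨E, hE⟩ := exists_coord (F := F) e N
  exact kap_congr E hE μ j

lemma finrank_pw {c : ℕ} (e : Basis (Fin c) W.K (W.H X)) (F : Frobenius W q) (N : ℕ) :
    finrank W.K (W.H (pw X N)) = c ^ (N + 1) := by
  obtain ⟨E, _⟩ := exists_coord (F := F) e N
  rw [LinearEquiv.finrank_eq E, Module.finrank_fintype_fun_eq_card]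
  simp

end Pool.Agent.R940.Rt
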