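import Pool.Agent.R940.RtG
import Mathlib.LinearAlgebra.Matrix.Block
import Mathlib.LinearAlgebra.Matrix.Charpoly.Basic
import Mathlib.LinearAlgebra.Matrix.ToLinearEquiv

/-!
# Poincaré duality and the number of words
-/

set_option linter.unusedVariables false
set_option linter.unusedSectionVars false

namespace Pool.Agent.R940.Rt

open Module

variable {K : Type*} [Field K]

/-- **The eigenvalues come in pairs.** -/
lemma exists_dual_perm {c : ℕ} {A B G : Matrix (Fin c) (Fin c) K}
    (hA : ∀ i j, j < i → A i j = 0) (hBA : B * A = 1) (s : K) (hG : G.det ≠ 0)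
    (hAG : A.transpose * G * A = s • G) :
    ∃ σ : Fin c ≃ Fin c, ∀ i, A i i * A (σ i) (σ i) = s := by
  classical
  have hAt : A.IsUpperTriangular := fun i j hij => hA i j hij
  have hAB : A * B = 1 := mul_eq_one_comm.1 hBA
  have hBt : B.IsUpperTriangular := by
    let _ : Invertible A := ⟨B, hBA, hAB⟩
    have h1 := Matrix.blockTriangular_inv_of_blockTriangular (M := A) (b := id) hAt
    rw [Matrix.inv_eq_left_inv hBA] at h1
    exact h1
  have hdiag : ∀ i, B i i * A i i = 1 := by
    intro i
    have h1 : (B * A) i i = 1 := by rw [hBA, Matrix.one_apply_eq]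
    rw [Matrix.mul_apply, Finset.sum_eq_single i] at h1
    · exact h1
    · intro k _ hk
      rcases lt_or_gt_of_ne hk with h | h
      · have h2 : B i k = 0 := hBt h
        rw [h2, zero_mul]
      · rw [hA k i h, mul_zero]
    · intro h
      exact absurd (Finset.mem_univ i) h
  have hGu : IsUnit G.det := isUnit_iff_ne_zero.2 hG
  have h1 : A.transpose = (s • (G * B)) * G⁻¹ := by
    have h2 : A.transpose * G = s • (G * B) := by
      calc A.transpose * G = A.transpose * G * (A * B) := by rw [hAB, mul_one]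
        _ = (A.transpose * G * A) * B := by rw [Matrix.mul_assoc (A.transpose * G) A B]
        _ = s • (G * B) := by rw [hAG, Matrix.smul_mul]
    rw [← h2, Matrix.mul_assoc, Matrix.mul_nonsing_inv G hGu, mul_one]
  have h3 : A.charpoly = (s • B).charpoly := by
    rw [← Matrix.charpoly_transpose A, h1, Matrix.charpoly_mul_comm, Matrix.mul_smul,
      ← Matrix.mul_assoc, Matrix.nonsing_inv_mul G hGu, one_mul]
  have hsB : (s • B).IsUpperTriangular := by
    intro i j hij
    have h4 : B i j = 0 := hBt hij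
    rw [Matrix.smul_apply, h4, smul_zero]
  rw [Matrix.charpoly_of_isUpperTriangular A hAt,
    Matrix.charpoly_of_isUpperTriangular _ hsB] at h3
  have h4 : ∀ f : Fin c → K, (∏ i, (Polynomial.X - Polynomial.C (f i))).roots =
      Finset.univ.val.map f := by
    intro f
    have h5 := Polynomial.roots_multiset_prod_X_sub_C ((Finset.univ : Finset (Fin c)).val.map f)
    rw [Multiset.map_map] at h5
    exact h5
  have h5 := congrArg Polynomial.roots h3
  rw [h4, h4] at h5
  have h6 : ∀ (f : Fin c → K) (μ : K), Fintype.card { i // f i = μ } =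
      Multiset.count μ ((Finset.univ : Finset (Fin c)).val.map f) := by
    intro f μ
    rw [Multiset.count_map, Fintype.card_subtype, Finset.card_def, Finset.filter_val]
    congr 1
    exact Multiset.filter_congr fun i _ => eq_comm
  have h7 : ∀ μ : K, Nonempty ({ i // A i i = μ } ≃ { i // (s • B) i i = μ }) := by
    intro μ
    refine ⟨Fintype.equivOfCardEq ?_⟩
    rw [h6 (fun i => A i i), h6 (fun i => (s • B) i i), h5]
  let σ : Fin c ≃ Fin c := Equiv.ofFiberEquiv (f := fun i => A i i)
    (g := fun i => (s • B) i i) fun μ => (h7 μ).some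
  refine ⟨σ, fun i => ?_⟩
  have h8 : (s • B) (σ i) (σ i) = A i i := Equiv.ofFiberEquiv_map
    (f := fun i => A i i) (g := fun i => (s • B) i i) (fun μ => (h7 μ).some) i
  rw [← h8, Matrix.smul_apply, smul_eq_mul, mul_assoc, hdiag, mul_one]

/-- Pairs of words with the same product and words with a given product. -/
lemma pairs_le_wcard {N n c : ℕ} (h : N = n + n) (l : Fin c → K) (s : K) (σ : Fin c ≃ Fin c)
    (hσ : ∀ i, l i * l (σ i) = s) : pairs l n ≤ wcard (fun _ : Fin N => l) (s ^ n) := by
  classical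
  subst h
  rw [pairs, wcard]
  refine Finset.card_le_card_of_injOn
    (fun p : (Fin n → Fin c) × (Fin n → Fin c) => Fin.append p.1 fun i => σ (p.2 i)) ?_ ?_
  · intro p hp
    rw [Finset.mem_coe, Finset.mem_filter] at hp
    rw [Finset.mem_coe, Finset.mem_filter]
    refine ⟨Finset.mem_univ _, ?_⟩
    rw [Fin.prod_univ_add]
    simp only [Fin.append_left, Fin.append_right]
    rw [hp.2, ← Finset.prod_mul_distrib, Finset.prod_congr rfl fun i _ => hσ (p.2 i),
      Finset.prod_const, Finset.card_univ, Fintype.card_fin]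
  · intro p _ p' _ hpp
    apply Prod.ext
    · funext i
      have h1 := congrFun hpp (Fin.castAdd n i)
      simp only [Fin.append_left] at h1
      exact h1
    · funext i
      have h1 := congrFun hpp (Fin.natAdd n i)
      simp only [Fin.append_right] at h1
      exact σ.injective h1

lemma wsum_bound' {N n b : ℕ} (h : N = n + n) (d : Fin N → Fin (b + 2) → K) (μ : K)
    (hA : ((((b + 2 : ℕ) : ℝ)) ^ n) ^ 2 ≤ ((n : ℝ) + 1) ^ (b + 2) * (wcard d μ : ℝ)) :
    Real.sqrt n * ((wsum d μ (fun z => Q 1 (marks z)) : ℚ) : ℝ) <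
      4 * (((b + 2 : ℕ) : ℝ)) ^ 2 * (wcard d μ : ℝ) := by
  subst h
  exact wsum_bound d μ hA

/-- **The square root law for matrices.** -/
theorem matrix_law [CharZero K] {b N n : ℕ} (h : N = n + n)
    {A B G : Matrix (Fin (b + 2)) (Fin (b + 2)) K} (hA : ∀ i j, j < i → A i j = 0)
    (h01 : A 0 0 = A 1 1) (h01' : A 0 1 ≠ 0) (hBA : B * A = 1) (s : K) (hG : G.det ≠ 0)
    (hAG : A.transpose * G * A = s • G) :
    Real.sqrt n * (kap (op fun _ : Fin N => A) (s ^ n) 1 : ℝ) <
      4 * (((b + 2 : ℕ) : ℝ)) ^ 2 * (wcard (fun (_ : Fin N) l => A l l) (s ^ n) : ℝ) := by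
  obtain ⟨σ, hσ⟩ := exists_dual_perm hA hBA s hG hAG
  have hTri : ∀ i : Fin N, Tri ((fun _ : Fin N => A) i) := fun _ => ⟨h01, Or.inl ⟨hA, h01'⟩⟩
  have hd : ∀ (i : Fin N) l, (fun _ : Fin N => A) i l l ≠ 0 := by
    intro _ l
    have h1 : A.det ≠ 0 := by
      intro h0
      have h2 := congrArg Matrix.det hBA
      rw [Matrix.det_mul, h0, mul_zero, Matrix.det_one] at h2
      exact zero_ne_one h2
    have hAt : A.IsUpperTriangular := fun i j hij => hA i j hij
    rw [Matrix.det_of_isUpperTriangular hAt] at h1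
    exact Finset.prod_ne_zero_iff.1 h1 l (Finset.mem_univ l)
  have hb := kap_op (fun _ : Fin N => A) hTri hd (fun _ => ⟨B, hBA⟩) (s ^ n) 1
  have hb' : (kap (op fun _ : Fin N => A) (s ^ n) 1 : ℝ) ≤
      ((wsum (fun (_ : Fin N) l => A l l) (s ^ n) (fun z => Q 1 (marks z)) : ℚ) : ℝ) := by
    exact_mod_cast hb
  have h1 := pairs_ge (fun l => A l l) n
  have h2 := pairs_le_wcard h (fun l => A l l) s σ hσ
  refine lt_of_le_of_lt (mul_le_mul_of_nonneg_left hb' (Real.sqrt_nonneg _))
    (wsum_bound' h _ _ (le_trans h1 ?_))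
  refine mul_le_mul_of_nonneg_left ?_ (by positivity)
  exact_mod_cast h2

end Pool.Agent.R940.Rt
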