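import Pool.Agent.R940.RtH

/-!
# Tate classes and the order of the pole on the powers of a variety: definitions
-/

open CategoryTheory AlgebraicGeometry

universe u v

namespace Pool.Agent.R940.Rt

open Module Pool.Agent.H914 Pool.Agent.R937.JB VarClass Obj WeilCohomology

variable {k : Type u} [Field k] {𝒱 : VarClass k} {ops : CycleOps 𝒱}
  {W : WeilCohomology.{u, v} ops} {q : ℕ}

/-- The dimension of the eigenspace of Frobenius on the cohomology of the product `X ^ (2 n)` of
`2 n` copies of `X`, `n = m + 1`, for the eigenvalue `q ^ (n dim X)`: the dimension of the space of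
the Tate classes in the middle cohomology of `X ^ (2 n)`. -/
noncomputable def tateDim (F : Frobenius W q) (X : 𝒱.Obj) (m : ℕ) : ℕ :=
  finrank W.K ((frob F (pw X (2 * m + 1))).eigenspace ((q : W.K) ^ ((m + 1) * X.dim)))

/-- The dimension of the generalised eigenspace of Frobenius on the cohomology of `X ^ (2 n)`,
`n = m + 1`, for the eigenvalue `q ^ (n dim X)`: the order of the pole of the zeta function of
`X ^ (2 n)` at `s = n dim X`. -/
noncomputable def poleOrd (F : Frobenius W q) (X : 𝒱.Obj) (m : ℕ) : ℕ :=
  finrank W.K ((frob F (pw X (2 * m + 1))).maxGenEigenspace ((q : W.K) ^ ((m + 1) * X.dim)))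

/-- The dimension of the cohomology of `X`. -/
noncomputable def betti (F : Frobenius W q) (X : 𝒱.Obj) : ℕ := finrank W.K (W.H X)

end Pool.Agent.R940.Rt
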