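import Pool.Agent.R940.RtI
import Pool.Agent.R940.RtJ

/-!
# The square root law
-/

set_option linter.unusedVariables false
set_option linter.unusedSectionVars false

open CategoryTheory AlgebraicGeometry

universe u v w

namespace Pool.Agent.R940.Rt

open Module Pool.Agent.H914 Pool.Agent.R937.JB Pool.Agent.R937.JC VarClass Obj WeilCohomology

lemma li_pair {K V : Type*} [Field K] [AddCommGroup V] [Module K V] {T : End K V} {l : K}
    {v0 v1 : V} (h0 : v0 ≠ 0) (hT0 : T v0 = l • v0) (hT1 : T v1 = l • v1 + v0) :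
    LinearIndependent K ![v0, v1] := by
  rw [LinearIndependent.pair_iff]
  intro s t hst
  have h1 : (T - l • 1) (s • v0 + t • v1) = t • v0 := by
    simp only [LinearMap.sub_apply, map_add, map_smul, hT0, hT1, LinearMap.smul_apply,
      Module.End.one_apply]
    rw [sub_self, smul_zero, zero_add]
    congr 1
    abel
  rw [hst, map_zero] at h1
  have ht : t = 0 := (smul_eq_zero.1 h1.symm).resolve_right h0
  subst ht
  rw [zero_smul, add_zero] at hst
  exact ⟨(smul_eq_zero.1 hst).resolve_right h0, rfl⟩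

variable {k : Type u} [Field k] {𝒱 : VarClass k} {ops : CycleOps 𝒱}
  {W : WeilCohomology.{u, v} ops} {q : ℕ} {F : Frobenius W q} {X Y Z : 𝒱.Obj}

lemma frob_injective : Function.Injective (frob F X) := by
  rw [← LinearMap.ker_eq_bot, LinearMap.ker_eq_bot']
  intro a ha
  apply W.nondeg
  intro b
  have h1 := frob_pair (F := F) a b
  rw [ha, zero_mul, map_zero] at h1
  exact (mul_eq_zero.1 h1.symm).resolve_left (pow_ne_zero _ (q_ne F))

/-- The Gram matrix of the Poincaré pairing. -/
noncomputable def gram {c : ℕ} (e : Basis (Fin c) W.K (W.H X)) : Matrix (Fin c) (Fin c) W.K :=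
  fun i j => W.tr X (e i * e j)

lemma gram_det {c : ℕ} (e : Basis (Fin c) W.K (W.H X)) : (gram e).det ≠ 0 := by
  intro h
  obtain ⟨v, hv, hv'⟩ := Matrix.exists_vecMul_eq_zero_iff.2 h
  apply hv
  have h1 : ∑ i, v i • e i = 0 := by
    apply W.nondeg
    intro b
    have h2 : (LinearMap.mulLeft W.K (∑ i, v i • e i)).comp LinearMap.id =
        LinearMap.mulLeft W.K (∑ i, v i • e i) := rfl
    have h3 : (W.tr X) ∘ₗ LinearMap.mulLeft W.K (∑ i, v i • e i) = 0 := by
      apply e.ext
      intro j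
      have h4 := congrFun hv' j
      rw [LinearMap.comp_apply, LinearMap.mulLeft_apply, Finset.sum_mul, map_sum,
        LinearMap.zero_apply]
      refine Eq.trans (Finset.sum_congr rfl fun i _ => ?_) h4
      rw [smul_mul_assoc, map_smul, smul_eq_mul]
      rfl
    exact congrArg (fun G => G b) h3
  funext i
  have h5 := congrArg (fun x => e.repr x i) h1
  simp only [map_sum, map_smul, Basis.repr_self, map_zero, Finsupp.coe_zero, Pi.zero_apply] at h5
  rw [Finsupp.finsetSum_apply] at h5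
  simpa [Finsupp.single_apply] using h5

lemma gram_frob {c : ℕ} (e : Basis (Fin c) W.K (W.H X)) :
    (LinearMap.toMatrix e e (frob F X)).transpose * gram e *
      LinearMap.toMatrix e e (frob F X) = ((q : W.K) ^ X.dim) • gram e := by
  have h1 : ∀ i, frob F X (e i) = ∑ k, LinearMap.toMatrix e e (frob F X) k i • e k := by
    intro i
    simp only [LinearMap.toMatrix_apply]
    exact (e.sum_repr _).symm
  funext i j
  rw [Matrix.smul_apply, smul_eq_mul]
  change _ = (q : W.K) ^ X.dim * W.tr X (e i * e j)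
  rw [← frob_pair (F := F), h1 i, h1 j, Finset.sum_mul_sum, map_sum, Matrix.mul_apply]
  simp only [Matrix.mul_apply, Finset.sum_mul, map_sum]
  rw [Finset.sum_comm]
  refine Finset.sum_congr rfl fun a _ => Finset.sum_congr rfl fun b _ => ?_
  rw [Matrix.transpose_apply, smul_mul_smul_comm, map_smul, smul_eq_mul]
  change _ * W.tr X (e a * e b) * _ = _
  ring

/-- **The square root law.** -/
theorem sqrt_law [IsAlgClosed W.K] (hX : ¬ FrobSemisimple F X) (m : ℕ) :
    Real.sqrt ((m : ℝ) + 1) * (tateDim F X m : ℝ) <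
      4 * (betti F X : ℝ) ^ 2 * (poleOrd F X m : ℝ) := by
  obtain ⟨l, v0, v1, h0, hT0, hT1⟩ := exists_jordan hX
  have hfr : 2 ≤ finrank W.K (W.H X) := by
    have h1 := (li_pair h0 hT0 hT1).fintype_card_le_finrank
    rwa [Fintype.card_fin] at h1
  obtain ⟨b, hb⟩ : ∃ b, finrank W.K (W.H X) = b + 2 := ⟨finrank W.K (W.H X) - 2, by omega⟩
  obtain ⟨e, he0, he1, hflag⟩ := exists_flag b (frob F X) l v0 v1 h0 hT0 hT1 hb
  set A := LinearMap.toMatrix e e (frob F X) with hAdef
  have hA : ∀ i j, j < i → A i j = 0 := by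
    intro i j hij
    rw [hAdef, LinearMap.toMatrix_apply]
    have h1 := (Basis.mem_span_image e).1 (hflag j)
    by_contra h
    exact absurd (Set.mem_Iic.1 (h1 (Finsupp.mem_support_iff.2 h))) (not_le.2 hij)
  have h00 : A 0 0 = l := by
    rw [hAdef, LinearMap.toMatrix_apply, he0, hT0, ← he0, map_smul, Basis.repr_self]
    simp
  have h11 : A 1 1 = l := by
    rw [hAdef, LinearMap.toMatrix_apply, he1, hT1, ← he0, ← he1, map_add, map_smul,
      Basis.repr_self, Basis.repr_self]
    simp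
  have h01 : A 0 1 = 1 := by
    rw [hAdef, LinearMap.toMatrix_apply, he1, hT1, ← he0, ← he1, map_add, map_smul,
      Basis.repr_self, Basis.repr_self]
    simp
  have hne : A 0 1 ≠ 0 := by
    rw [h01]
    exact one_ne_zero
  obtain ⟨B, hBA⟩ : ∃ B, B * A = 1 := by
    have hinj : Function.Injective (frob F X) := frob_injective
    refine ⟨LinearMap.toMatrix e e (LinearEquiv.ofInjectiveEndo (frob F X) hinj).symm.toLinearMap,
      ?_⟩
    rw [hAdef, ← LinearMap.toMatrix_comp e e e, ← LinearMap.toMatrix_id e]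
    congr 1
    apply LinearMap.ext
    intro x
    exact (LinearEquiv.ofInjectiveEndo (frob F X) hinj).symm_apply_apply x
  have hn : 2 * m + 1 + 1 = (m + 1) + (m + 1) := by omega
  have hs : (q : W.K) ^ ((m + 1) * X.dim) = ((q : W.K) ^ X.dim) ^ (m + 1) := by
    rw [← pow_mul, mul_comm]
  have hlaw := matrix_law hn hA (h00.trans h11.symm) hne hBA
    ((q : W.K) ^ X.dim) (gram_det e) (gram_frob e)
  have hTri : ∀ i : Fin (2 * m + 1 + 1), Tri ((fun _ : Fin (2 * m + 1 + 1) => A) i) :=
    fun _ => ⟨h00.trans h11.symm, Or.inl ⟨hA, hne⟩⟩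
  have hd : ∀ (i : Fin (2 * m + 1 + 1)) l, (fun _ : Fin (2 * m + 1 + 1) => A) i l l ≠ 0 := by
    intro _ l
    have h1 : A.det ≠ 0 := by
      intro h0
      have h2 := congrArg Matrix.det hBA
      rw [Matrix.det_mul, h0, mul_zero, Matrix.det_one] at h2
      exact zero_ne_one h2
    have hAt : A.IsUpperTriangular := fun i j hij => hA i j hij
    rw [Matrix.det_of_isUpperTriangular hAt] at h1
    exact Finset.prod_ne_zero_iff.1 h1 l (Finset.mem_univ l)
  have htate : tateDim F X m = kap (op fun _ : Fin (2 * m + 1 + 1) => A)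
      (((q : W.K) ^ X.dim) ^ (m + 1)) 1 := by
    rw [tateDim, Module.End.eigenspace_def, ← kap_pw e, kap, pow_one, hs,
      Algebra.algebraMap_eq_smul_one]
  have hpole : poleOrd F X m = wcard (fun (_ : Fin (2 * m + 1 + 1)) l => A l l)
      (((q : W.K) ^ X.dim) ^ (m + 1)) := by
    rw [poleOrd, hs]
    exact wcard_eq (fun _ : Fin (2 * m + 1 + 1) => A) hTri hd (fun _ => ⟨B, hBA⟩)
      (frob F (pw X (2 * m + 1))) (fun μ j => kap_pw e _ μ j) (finrank_pw e F _) _
  rw [htate, hpole, betti, hb]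
  have h1 : (((m + 1 : ℕ) : ℝ)) = (m : ℝ) + 1 := by push_cast; rfl
  rw [h1] at hlaw
  exact hlaw

/-- Semisimple operators. -/
theorem tate_eq_pole (hX : FrobSemisimple F X) (m : ℕ) : tateDim F X m = poleOrd F X m := by
  have h1 : (frob F (pw X (2 * m + 1))).IsSemisimple := semisimple_pw hX _
  rw [tateDim, poleOrd,
    (Module.End.isFinitelySemisimple_iff_isSemisimple.2 h1).maxGenEigenspace_eq_eigenspace]

/-- **One variety.** -/
theorem semisimple_iff [IsAlgClosed W.K] : FrobSemisimple F X ↔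
    ∃ m : ℕ, 4 * (betti F X : ℝ) ^ 2 * (poleOrd F X m : ℝ) ≤
      Real.sqrt ((m : ℝ) + 1) * (tateDim F X m : ℝ) := by
  constructor
  · intro hX
    refine ⟨16 * betti F X ^ 4, ?_⟩
    rw [tate_eq_pole hX]
    refine mul_le_mul_of_nonneg_right ?_ (Nat.cast_nonneg _)
    apply Real.le_sqrt_of_sq_le
    push_cast
    nlinarith
  · rintro ⟨m, hm⟩
    by_contra hX
    exact absurd (sqrt_law hX m) (not_lt.2 hm)

/-- **Complete varieties.** -/
theorem complete_law [IsAlgClosed W.K] (hF : IsPure F) {C : Type*} {dimC : C → ℕ}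
    (var : ∀ X : C, CompleteVariety.{u, v, w} F (dimC X))
    (hC : ∀ V : 𝒱.Obj, ∃ X : C, IsSmoothModel (var X) V) :
    (∀ (X : C) (i : ℕ), ((var X).coh.φ i).IsSemisimple) ↔ ∀ V : 𝒱.Obj,
      ∃ m : ℕ, 4 * (betti F V : ℝ) ^ 2 * (poleOrd F V m : ℝ) ≤
        Real.sqrt ((m : ℝ) + 1) * (tateDim F V m : ℝ) :=
  (complete_iff hF var hC).trans (forall_congr' fun _ => semisimple_iff)

end Pool.Agent.R940.Rt
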