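import Pool.Agent.R940.RtI
import Mathlib.LinearAlgebra.PiTensorProduct.Basis

/-!
# The square root law for similitudes
-/

set_option linter.unusedVariables false
set_option linter.unusedSectionVars false

open scoped TensorProduct

namespace Pool.Agent.R940.Rt

open Module

universe v w

variable {K : Type v} [Field K] {V : Type w} [AddCommGroup V] [Module K V]

/-- The operation of `φ` on the tensor product of `N` copies of `V`. -/
noncomputable def tpow (φ : End K V) (N : ℕ) : End K (⨂[K] _ : Fin N, V) :=
  PiTensorProduct.map fun _ => φ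

/-- The dimension of the eigenspace. -/
noncomputable def eigD (T : End K V) (μ : K) : ℕ := finrank K (T.eigenspace μ)

/-- The dimension of the generalised eigenspace. -/
noncomputable def genD (T : End K V) (μ : K) : ℕ := finrank K (T.maxGenEigenspace μ)

/-- The dimension of the eigenspace of `φ` on `V ^ (⊗ 2 n)` for the eigenvalue `s ^ n`. -/
noncomputable def eigDim (φ : End K V) (s : K) (n : ℕ) : ℕ := eigD (tpow φ (2 * n)) (s ^ n)

/-- The dimension of the generalised eigenspace of `φ` on `V ^ (⊗ 2 n)` for the eigenvalue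
`s ^ n`. -/
noncomputable def genDim (φ : End K V) (s : K) (n : ℕ) : ℕ := genD (tpow φ (2 * n)) (s ^ n)

lemma tpow_coord {c : ℕ} (e : Basis (Fin c) K V) (φ : End K V) (N : ℕ)
    (x : ⨂[K] _ : Fin N, V) :
    (Basis.piTensorProduct fun _ : Fin N => e).equivFun (tpow φ N x) =
      op (fun _ => LinearMap.toMatrix e e φ)
        ((Basis.piTensorProduct fun _ : Fin N => e).equivFun x) := by
  have h : (Basis.piTensorProduct fun _ : Fin N => e).equivFun.toLinearMap ∘ₗ tpow φ N =
      op (fun _ => LinearMap.toMatrix e e φ) ∘ₗ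
        (Basis.piTensorProduct fun _ : Fin N => e).equivFun.toLinearMap := by
    apply PiTensorProduct.ext
    apply MultilinearMap.ext
    intro y
    funext z
    change (Basis.piTensorProduct fun _ : Fin N => e).repr
        (PiTensorProduct.map (fun _ => φ) (PiTensorProduct.tprod K y)) z =
      op (fun _ => LinearMap.toMatrix e e φ)
        ((Basis.piTensorProduct fun _ : Fin N => e).equivFun (PiTensorProduct.tprod K y)) z
    rw [PiTensorProduct.map_tprod, Basis.piTensorProduct_repr_tprod_apply, op_apply]
    have h1 : ∀ i, e.repr (φ (y i)) (z i) =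
        ∑ j, LinearMap.toMatrix e e φ (z i) j * e.repr (y i) j := by
      intro i
      rw [← LinearMap.toMatrix_mulVec_repr e e φ (y i)]
      rfl
    rw [Finset.prod_congr rfl fun i _ => h1 i, Finset.prod_univ_sum, Fintype.piFinset_univ]
    refine Finset.sum_congr rfl fun z' _ => ?_
    rw [Finset.prod_mul_distrib]
    congr 1
    exact (Basis.piTensorProduct_repr_tprod_apply _ _ _).symm
  exact congrArg (fun G => G x) h

variable [FiniteDimensional K V]

lemma finite_tpow {c : ℕ} (e : Basis (Fin c) K V) (N : ℕ) :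
    FiniteDimensional K (⨂[K] _ : Fin N, V) :=
  Module.Finite.of_basis (Basis.piTensorProduct fun _ : Fin N => e)

lemma finrank_tpow {c : ℕ} (e : Basis (Fin c) K V) (N : ℕ) :
    finrank K (⨂[K] _ : Fin N, V) = c ^ N := by
  rw [Module.finrank_eq_card_basis (Basis.piTensorProduct fun _ : Fin N => e)]
  simp

lemma kap_tpow {c : ℕ} (e : Basis (Fin c) K V) (φ : End K V) (N : ℕ) (μ : K) (j : ℕ) :
    kap (tpow φ N) μ j = kap (op fun _ : Fin N => LinearMap.toMatrix e e φ) μ j := by
  have := finite_tpow e N
  exact kap_congr (Basis.piTensorProduct fun _ : Fin N => e).equivFun (tpow_coord e φ N) μ j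

/-- **The square root law for similitudes.** -/
theorem similitude_law [IsAlgClosed K] [CharZero K] {φ : End K V} {s : K} (hs : s ≠ 0)
    (B : V →ₗ[K] V →ₗ[K] K) (hB : ∀ x, (∀ y, B x y = 0) → x = 0)
    (hφ : ∀ x y, B (φ x) (φ y) = s * B x y) (hns : ¬ φ.IsSemisimple) (n : ℕ) :
    Real.sqrt n * (eigDim φ s n : ℝ) < 4 * (finrank K V : ℝ) ^ 2 * (genDim φ s n : ℝ) := by
  have hinj : Function.Injective φ := by
    rw [← LinearMap.ker_eq_bot, LinearMap.ker_eq_bot']
    intro x hx
    apply hB
    intro y
    have h1 := hφ x y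
    rw [hx, map_zero, LinearMap.zero_apply] at h1
    exact (mul_eq_zero.1 h1.symm).resolve_left hs
  obtain ⟨l, v0, v1, h0, hT0, hT1⟩ := exists_jordan hns
  have hfr : 2 ≤ finrank K V := by
    have hli : LinearIndependent K ![v0, v1] := by
      rw [LinearIndependent.pair_iff]
      intro a t hst
      have h1 : (φ - l • 1) (a • v0 + t • v1) = t • v0 := by
        simp only [LinearMap.sub_apply, map_add, map_smul, hT0, hT1, LinearMap.smul_apply,
          Module.End.one_apply]
        rw [sub_self, smul_zero, zero_add]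
        congr 1
        abel
      rw [hst, map_zero] at h1
      have ht : t = 0 := (smul_eq_zero.1 h1.symm).resolve_right h0
      subst ht
      rw [zero_smul, add_zero] at hst
      exact ⟨(smul_eq_zero.1 hst).resolve_right h0, rfl⟩
    have h1 := hli.fintype_card_le_finrank
    rwa [Fintype.card_fin] at h1
  obtain ⟨b, hb⟩ : ∃ b, finrank K V = b + 2 := ⟨finrank K V - 2, by omega⟩
  obtain ⟨e, he0, he1, hflag⟩ := exists_flag b φ l v0 v1 h0 hT0 hT1 hb
  set A := LinearMap.toMatrix e e φ with hAdef
  have hA : ∀ i j, j < i → A i j = 0 := by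
    intro i j hij
    rw [hAdef, LinearMap.toMatrix_apply]
    have h1 := (Basis.mem_span_image e).1 (hflag j)
    by_contra h
    exact absurd (Set.mem_Iic.1 (h1 (Finsupp.mem_support_iff.2 h))) (not_le.2 hij)
  have h00 : A 0 0 = l := by
    rw [hAdef, LinearMap.toMatrix_apply, he0, hT0, ← he0, map_smul, Basis.repr_self]
    simp
  have h11 : A 1 1 = l := by
    rw [hAdef, LinearMap.toMatrix_apply, he1, hT1, ← he0, ← he1, map_add, map_smul,
      Basis.repr_self, Basis.repr_self]
    simp
  have h01 : A 0 1 = 1 := by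
    rw [hAdef, LinearMap.toMatrix_apply, he1, hT1, ← he0, ← he1, map_add, map_smul,
      Basis.repr_self, Basis.repr_self]
    simp
  have hne : A 0 1 ≠ 0 := by
    rw [h01]
    exact one_ne_zero
  obtain ⟨B', hBA⟩ : ∃ B', B' * A = 1 := by
    refine ⟨LinearMap.toMatrix e e (LinearEquiv.ofInjectiveEndo φ hinj).symm.toLinearMap, ?_⟩
    rw [hAdef, ← LinearMap.toMatrix_comp e e e, ← LinearMap.toMatrix_id e]
    congr 1
    apply LinearMap.ext
    intro x
    exact (LinearEquiv.ofInjectiveEndo φ hinj).symm_apply_apply x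
  set G : Matrix (Fin (b + 2)) (Fin (b + 2)) K := fun i j => B (e i) (e j) with hGdef
  have hG : G.det ≠ 0 := by
    intro h
    obtain ⟨v, hv, hv'⟩ := Matrix.exists_vecMul_eq_zero_iff.2 h
    apply hv
    have h1 : ∑ i, v i • e i = 0 := by
      apply hB
      intro y
      have h3 : B (∑ i, v i • e i) = 0 := by
        apply e.ext
        intro j
        have h4 := congrFun hv' j
        rw [map_sum, LinearMap.sum_apply, LinearMap.zero_apply]
        refine Eq.trans (Finset.sum_congr rfl fun i _ => ?_) h4
        rw [map_smul, LinearMap.smul_apply, smul_eq_mul]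
      rw [h3, LinearMap.zero_apply]
    funext i
    have h5 := congrArg (fun x => e.repr x i) h1
    simp only [map_sum, map_smul, Basis.repr_self, map_zero, Finsupp.coe_zero, Pi.zero_apply]
      at h5
    rw [Finsupp.finsetSum_apply] at h5
    simpa [Finsupp.single_apply] using h5
  have hAG : A.transpose * G * A = s • G := by
    have h1 : ∀ i, φ (e i) = ∑ k, A k i • e k := by
      intro i
      simp only [hAdef, LinearMap.toMatrix_apply]
      exact (e.sum_repr _).symm
    funext i j
    rw [Matrix.smul_apply, smul_eq_mul]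
    change _ = s * B (e i) (e j)
    rw [← hφ, h1 i, h1 j, map_sum, Matrix.mul_apply]
    refine Finset.sum_congr rfl fun x _ => ?_
    rw [Matrix.mul_apply, Finset.sum_mul, map_sum, LinearMap.sum_apply]
    refine Finset.sum_congr rfl fun y _ => ?_
    rw [map_smul, map_smul, LinearMap.smul_apply, smul_eq_mul, smul_eq_mul,
      Matrix.transpose_apply]
    change _ * B (e y) (e x) * _ = _
    ring
  have hn : 2 * n = n + n := by omega
  have hlaw := matrix_law hn hA (h00.trans h11.symm) hne hBA s hG hAG
  have hTri : ∀ i : Fin (2 * n), Tri ((fun _ : Fin (2 * n) => A) i) :=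
    fun _ => ⟨h00.trans h11.symm, Or.inl ⟨hA, hne⟩⟩
  have hd : ∀ (i : Fin (2 * n)) l, (fun _ : Fin (2 * n) => A) i l l ≠ 0 := by
    intro _ l
    have h1 : A.det ≠ 0 := by
      intro h0
      have h2 := congrArg Matrix.det hBA
      rw [Matrix.det_mul, h0, mul_zero, Matrix.det_one] at h2
      exact zero_ne_one h2
    have hAt : A.IsUpperTriangular := fun i j hij => hA i j hij
    rw [Matrix.det_of_isUpperTriangular hAt] at h1
    exact Finset.prod_ne_zero_iff.1 h1 l (Finset.mem_univ l)
  have hfin := finite_tpow e (2 * n)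
  have htate : eigDim φ s n = kap (op fun _ : Fin (2 * n) => A) (s ^ n) 1 := by
    rw [eigDim, eigD, Module.End.eigenspace_def, ← kap_tpow e, kap, pow_one,
      Algebra.algebraMap_eq_smul_one]
  have hpole : genDim φ s n = wcard (fun (_ : Fin (2 * n)) l => A l l) (s ^ n) := by
    rw [genDim, genD]
    exact wcard_eq (fun _ : Fin (2 * n) => A) hTri hd (fun _ => ⟨B', hBA⟩)
      (tpow φ (2 * n)) (fun μ j => kap_tpow e φ _ μ j) (finrank_tpow e _) _
  rw [htate, hpole, hb]
  exact hlaw

/-- Eigenbases. -/
lemma exists_eigenbasis [IsAlgClosed K] {φ : End K V} (hφ : φ.IsSemisimple) :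
    ∃ (c : ℕ) (e : Basis (Fin c) K V) (l : Fin c → K), ∀ i, φ (e i) = l i • e i := by
  have hspan : (⊤ : Submodule K V) ≤ Submodule.span K {x | ∃ μ : K, φ x = μ • x} := by
    rw [← Module.End.iSup_maxGenEigenspace_eq_top φ]
    refine iSup_le fun μ => ?_
    rw [(Module.End.isFinitelySemisimple_iff_isSemisimple.2 hφ).maxGenEigenspace_eq_eigenspace]
    intro x hx
    exact Submodule.subset_span ⟨μ, Module.End.mem_eigenspace_iff.1 hx⟩
  let b := Basis.ofSpan hspan
  have hfin := Module.Finite.finite_basis b
  let _ := Fintype.ofFinite ((linearIndepOn_empty K id).extend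
    (Set.empty_subset {x : V | ∃ μ : K, φ x = μ • x}))
  have h1 : ∀ i, ∃ μ : K, φ (b i) = μ • b i := fun i =>
    Basis.ofSpan_subset hspan (Set.mem_range_self i)
  choose l hl using h1
  refine ⟨_, b.reindex (Fintype.equivFin _), fun i => l ((Fintype.equivFin _).symm i), ?_⟩
  intro i
  rw [Basis.reindex_apply]
  exact hl _

/-- Semisimple operators. -/
theorem eig_eq_gen [IsAlgClosed K] {φ : End K V} (hφ : φ.IsSemisimple) (s : K) (n : ℕ) :
    eigDim φ s n = genDim φ s n := by
  obtain ⟨c, e, l, hl⟩ := exists_eigenbasis hφ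
  have h0 : ∀ z : Fin (2 * n) → Fin c, tpow φ (2 * n)
      ((Basis.piTensorProduct fun _ : Fin (2 * n) => e) z) = (∏ i, l (z i)) •
      (Basis.piTensorProduct fun _ : Fin (2 * n) => e) z := by
    intro z
    rw [Basis.piTensorProduct_apply, tpow, PiTensorProduct.map_tprod]
    have h1 : (fun i => φ (e (z i))) = fun i => l (z i) • e (z i) := funext fun i => hl (z i)
    rw [h1]
    exact MultilinearMap.map_smul_univ (PiTensorProduct.tprod K) (fun i => l (z i))
      (fun i => e (z i))
  have h1 : ∀ (x : ⨂[K] _ : Fin (2 * n), V) (z : Fin (2 * n) → Fin c),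
      (Basis.piTensorProduct fun _ : Fin (2 * n) => e).repr (tpow φ (2 * n) x) z =
      (∏ i, l (z i)) * (Basis.piTensorProduct fun _ : Fin (2 * n) => e).repr x z := by
    intro x z
    have h2 : (Basis.piTensorProduct fun _ : Fin (2 * n) => e).coord z ∘ₗ tpow φ (2 * n) =
        (∏ i, l (z i)) • (Basis.piTensorProduct fun _ : Fin (2 * n) => e).coord z := by
      apply (Basis.piTensorProduct fun _ : Fin (2 * n) => e).ext
      intro z'
      rw [LinearMap.comp_apply, h0, LinearMap.smul_apply, map_smul, Basis.coord_apply,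
        Basis.repr_self, smul_eq_mul, smul_eq_mul]
      by_cases h : z' = z
      · rw [h]
      · rw [Finsupp.single_eq_of_ne (Ne.symm h), mul_zero, mul_zero]
    exact congrArg (fun G => G x) h2
  have h2 : ∀ (μ : K) (k : ℕ) (x : ⨂[K] _ : Fin (2 * n), V) (z : Fin (2 * n) → Fin c),
      (Basis.piTensorProduct fun _ : Fin (2 * n) => e).repr
        (((tpow φ (2 * n) - μ • 1) ^ k) x) z =
      ((∏ i, l (z i)) - μ) ^ k *
        (Basis.piTensorProduct fun _ : Fin (2 * n) => e).repr x z := by
    intro μ k
    induction k with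
    | zero =>
      intro x z
      rw [pow_zero, pow_zero, one_mul]
      rfl
    | succ k ih =>
      intro x z
      rw [pow_succ', Module.End.mul_apply, LinearMap.sub_apply, map_sub, Finsupp.sub_apply, h1,
        LinearMap.smul_apply, Module.End.one_apply, map_smul, Finsupp.smul_apply, ih, smul_eq_mul]
      ring
  have h3 : (tpow φ (2 * n)).maxGenEigenspace (s ^ n) = (tpow φ (2 * n)).eigenspace (s ^ n) := by
    apply le_antisymm
    · intro x hx
      obtain ⟨k, hk⟩ := Module.End.mem_maxGenEigenspace _ _ _ |>.1 hx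
      rw [Module.End.eigenspace_def, LinearMap.mem_ker]
      apply (Basis.piTensorProduct fun _ : Fin (2 * n) => e).repr.injective
      apply Finsupp.ext
      intro z
      have h4 := h2 (s ^ n) 1 x z
      have h5 := h2 (s ^ n) k x z
      rw [pow_one, pow_one] at h4
      rw [hk, map_zero, Finsupp.coe_zero, Pi.zero_apply] at h5
      rw [h4, map_zero, Finsupp.coe_zero, Pi.zero_apply]
      rcases mul_eq_zero.1 h5.symm with h6 | h6
      · rw [eq_zero_of_pow_eq_zero h6, zero_mul]
      · rw [h6, mul_zero]
    · exact Module.End.eigenspace_le_maxGenEigenspace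
  rw [eigDim, genDim, eigD, genD, h3]

end Pool.Agent.R940.Rt
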