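import Pool.Agent.R940.RtL
import Pool.Agent.R937.JB.A

/-!
# The square root law for stable subspaces of the cohomology
-/

open CategoryTheory AlgebraicGeometry

universe u v

namespace Pool.Agent.R940.Rt

open Module Pool.Agent.H914 Pool.Agent.R937.JB VarClass Obj WeilCohomology

section defs

variable {K V : Type*} [Field K] [AddCommGroup V] [Module K V]

/-- `U` is stable under `φ`. -/
def IsStable (φ : End K V) (U : Submodule K V) : Prop := ∀ x ∈ U, φ x ∈ U

/-- The operation of `φ` on a stable subspace. -/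
def restrictTo (φ : End K V) (U : Submodule K V) (hU : IsStable φ U) : End K U :=
  φ.restrict hU

/-- `B` is nondegenerate on `U`. -/
def NondegOn (B : V → V → K) (U : Submodule K V) : Prop :=
  ∀ x ∈ U, (∀ y ∈ U, B x y = 0) → x = 0

/-- The part of the generalised eigenspace in `U`. -/
noncomputable def genPart (φ : End K V) (μ : K) (U : Submodule K V) : Submodule K V :=
  φ.maxGenEigenspace μ ⊓ U

/-- The pairing `tr(x y)`. -/
def trPair {A : Type*} [Ring A] [Algebra K A] (tr : A →ₗ[K] K) : A → A → K :=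
  fun x y => tr (x * y)

end defs

variable {k : Type u} [Field k] {𝒱 : VarClass k} {ops : CycleOps 𝒱}
  {W : WeilCohomology.{u, v} ops} {q : ℕ} {F : Frobenius W q} {X : 𝒱.Obj}

/-- Frobenius on a stable subspace `U` of `H(X)`. -/
noncomputable def frobOn (F : Frobenius W q) (X : 𝒱.Obj) (U : Submodule W.K (W.H X))
    (hU : IsStable (frob F X) U) : Module.End W.K U :=
  restrictTo (frob F X) U hU

/-- The Poincaré pairing is nondegenerate on `U`. -/
def IsNondegenerate (W : WeilCohomology.{u, v} ops) (X : 𝒱.Obj) (U : Submodule W.K (W.H X)) :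
    Prop :=
  NondegOn (trPair (W.tr X)) U

/-- The Poincaré pairing on `U`. -/
noncomputable def pairOn (W : WeilCohomology.{u, v} ops) (X : 𝒱.Obj)
    (U : Submodule W.K (W.H X)) : U →ₗ[W.K] U →ₗ[W.K] W.K :=
  LinearMap.mk₂ W.K (fun x y => W.tr X ((x : W.H X) * (y : W.H X)))
    (fun x x' y => by rw [Submodule.coe_add, add_mul, map_add])
    (fun c x y => by rw [Submodule.coe_smul, smul_mul_assoc, map_smul])
    (fun x y y' => by rw [Submodule.coe_add, mul_add, map_add])
    (fun c x y => by rw [Submodule.coe_smul, mul_smul_comm, map_smul])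

/-- **The square root law for stable subspaces.** -/
theorem sub_law [IsAlgClosed W.K] {U : Submodule W.K (W.H X)} (hU : IsStable (frob F X) U)
    (hnd : IsNondegenerate W X U) (hns : ¬ (frobOn F X U hU).IsSemisimple) (n : ℕ) :
    Real.sqrt n * (eigDim (frobOn F X U hU) ((q : W.K) ^ X.dim) n : ℝ) <
      4 * (finrank W.K U : ℝ) ^ 2 * (genDim (frobOn F X U hU) ((q : W.K) ^ X.dim) n : ℝ) := by
  refine similitude_law (pow_ne_zero _ (q_ne F)) (pairOn W X U) ?_ ?_ hns n
  · intro x hx
    apply Subtype.ext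
    exact hnd x x.2 fun y hy => hx ⟨y, hy⟩
  · intro x y
    exact frob_pair (F := F) (x : W.H X) (y : W.H X)

/-- One stable subspace. -/
theorem sub_iff [IsAlgClosed W.K] {U : Submodule W.K (W.H X)} (hU : IsStable (frob F X) U)
    (hnd : IsNondegenerate W X U) : (frobOn F X U hU).IsSemisimple ↔ ∃ n : ℕ,
      4 * (finrank W.K U : ℝ) ^ 2 * (genDim (frobOn F X U hU) ((q : W.K) ^ X.dim) n : ℝ) ≤
        Real.sqrt n * (eigDim (frobOn F X U hU) ((q : W.K) ^ X.dim) n : ℝ) := by
  constructor
  · intro h
    refine ⟨16 * finrank W.K U ^ 4, ?_⟩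
    rw [eig_eq_gen h]
    refine mul_le_mul_of_nonneg_right ?_ (Nat.cast_nonneg _)
    apply Real.le_sqrt_of_sq_le
    push_cast
    nlinarith
  · rintro ⟨n, hn⟩
    by_contra h
    exact absurd (sub_law hU hnd h n) (not_lt.2 hn)

lemma gr_stable (i : ℕ) : IsStable (frob F X) (W.gr X i) := fun _ hx => frob_mem hx

lemma gr_nondegenerate : IsNondegenerate W X (W.gr X X.dim) := by
  intro x hx h
  apply W.nondeg
  intro b
  refine gr_induction (W.isInternal X) (p := fun b => W.tr X (x * b) = 0) ?_ ?_ b
  · intro i b hb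
    by_cases hi : i = X.dim
    · subst hi
      exact h b hb
    · exact W.tr_eq_zero (W.mul_mem hx hb) (by omega)
  · intro a b ha hb
    rw [mul_add, map_add, ha, hb, add_zero]

end Pool.Agent.R940.Rt
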