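import Pool.Agent.R940.RtM

/-!
# The generalised eigenspace of Frobenius for `q` on `H^2`
-/

open CategoryTheory AlgebraicGeometry

universe u v

namespace Pool.Agent.R940.Rt

open Module Pool.Agent.H914 Pool.Agent.R937.JB VarClass Obj WeilCohomology

section orth

variable {K V : Type*} [Field K] [AddCommGroup V] [Module K V]

/-- Generalised eigenspaces are orthogonal. -/
lemma orth_of_ne {φ : End K V} {s a b : K} (B : V → V → K)
    (hadd : ∀ x x' y, B (x + x') y = B x y + B x' y) (hadd' : ∀ x y y', B x (y + y') = B x y + B x y')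
    (hsm : ∀ (c : K) x y, B (c • x) y = c * B x y) (hsm' : ∀ (c : K) x y, B x (c • y) = c * B x y)
    (hφ : ∀ x y, B (φ x) (φ y) = s * B x y) (hab : a * b ≠ s) :
    ∀ (n k l : ℕ), k + l = n → ∀ x y, ((φ - a • 1) ^ k) x = 0 → ((φ - b • 1) ^ l) y = 0 →
      B x y = 0 := by
  intro n
  induction n with
  | zero =>
    intro k l hkl x y hx hy
    have hk : k = 0 := by omega
    subst hk
    rw [pow_zero, Module.End.one_apply] at hx
    rw [hx]
    have := hsm 0 0 y
    rwa [zero_smul, zero_mul] at this
  | succ n ih =>
    intro k l hkl x y hx hy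
    rcases Nat.eq_zero_or_pos k with rfl | hk
    · rw [pow_zero, Module.End.one_apply] at hx
      rw [hx]
      have := hsm 0 0 y
      rwa [zero_smul, zero_mul] at this
    rcases Nat.eq_zero_or_pos l with rfl | hl
    · rw [pow_zero, Module.End.one_apply] at hy
      rw [hy]
      have := hsm' 0 x 0
      rwa [zero_smul, zero_mul] at this
    obtain ⟨k, rfl⟩ : ∃ k', k = k' + 1 := ⟨k - 1, by omega⟩
    obtain ⟨l, rfl⟩ : ∃ l', l = l' + 1 := ⟨l - 1, by omega⟩
    have hx' : ((φ - a • 1) ^ k) ((φ - a • 1) x) = 0 := by
      rw [← Module.End.mul_apply, ← pow_succ]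
      exact hx
    have hy' : ((φ - b • 1) ^ l) ((φ - b • 1) y) = 0 := by
      rw [← Module.End.mul_apply, ← pow_succ]
      exact hy
    have h1 : B x ((φ - b • 1) y) = 0 := ih (k + 1) l (by omega) _ _ hx hy'
    have h2 : B ((φ - a • 1) x) y = 0 := ih k (l + 1) (by omega) _ _ hx' hy
    have hy'' : ((φ - b • 1) ^ (l + 1)) ((φ - b • 1) y) = 0 := by
      rw [pow_succ', Module.End.mul_apply, hy', map_zero]
    have h3 : B ((φ - a • 1) x) ((φ - b • 1) y) = 0 := ih k (l + 1) (by omega) _ _ hx' hy''
    have e1 : φ x = (φ - a • 1) x + a • x := by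
      rw [LinearMap.sub_apply, LinearMap.smul_apply, Module.End.one_apply, sub_add_cancel]
    have e2 : φ y = (φ - b • 1) y + b • y := by
      rw [LinearMap.sub_apply, LinearMap.smul_apply, Module.End.one_apply, sub_add_cancel]
    have h4 := hφ x y
    rw [e1, e2, hadd, hadd', hadd', h3, hsm', h2, hsm, h1, hsm, hsm', mul_zero, mul_zero,
      zero_add, zero_add, zero_add] at h4
    have h5 : (a * b - s) * B x y = 0 := by
      rw [sub_mul, ← h4]
      ring
    exact (mul_eq_zero.1 h5).resolve_left (sub_ne_zero.2 hab)

end orth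

variable {k : Type u} [Field k] {𝒱 : VarClass k} {ops : CycleOps 𝒱}
  {W : WeilCohomology.{u, v} ops} {q : ℕ} {F : Frobenius W q} {X : 𝒱.Obj}

/-- The generalised eigenspace of Frobenius on `H^2(X)` for the eigenvalue `q`. -/
noncomputable def tatePart (F : Frobenius W q) (X : 𝒱.Obj) : Submodule W.K (W.H X) :=
  genPart (frob F X) (q : W.K) (W.gr X 2)

lemma tatePart_stable : IsStable (frob F X) (tatePart F X) := by
  intro x hx
  exact ⟨Module.End.mapsTo_maxGenEigenspace_of_comm (Commute.refl _) _ hx.1, frob_mem hx.2⟩

lemma tatePart_nondegenerate [IsAlgClosed W.K] (hX : X.dim = 2) :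
    IsNondegenerate W X (tatePart F X) := by
  intro x hx h
  apply W.nondeg
  intro b
  refine gr_induction (W.isInternal X) (p := fun b => W.tr X (x * b) = 0) ?_ ?_ b
  · intro i b hb
    by_cases hi : i = 2
    · subst hi
      -- decompose into generalised eigenvectors
      have htop := Module.End.iSup_maxGenEigenspace_eq_top
        (frobOn F X (W.gr X 2) (gr_stable 2))
      have hmem : (⟨b, hb⟩ : W.gr X 2) ∈
          ⨆ μ, (frobOn F X (W.gr X 2) (gr_stable 2)).maxGenEigenspace μ := by
        rw [htop]
        exact Submodule.mem_top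
      have key : ∀ y : W.gr X 2, W.tr X (x * (y : W.H X)) = 0 := by
        intro y
        have hmem : y ∈ ⨆ μ, (frobOn F X (W.gr X 2) (gr_stable 2)).maxGenEigenspace μ := by
          rw [htop]
          exact Submodule.mem_top
        refine Submodule.iSup_induction _ (motive := fun y : W.gr X 2 =>
          W.tr X (x * (y : W.H X)) = 0) hmem ?_ ?_ ?_
        · intro μ y hy
          obtain ⟨k, hk⟩ := (Module.End.mem_maxGenEigenspace _ _ _).1 hy
          have hcoe : ∀ (k : ℕ) (y : W.gr X 2),
              ((((frobOn F X (W.gr X 2) (gr_stable 2)) - μ • 1) ^ k) y : W.H X) =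
              ((frob F X - μ • 1) ^ k) (y : W.H X) := by
            intro k
            induction k with
            | zero => intro y; rfl
            | succ k ih =>
              intro y
              rw [pow_succ, pow_succ, Module.End.mul_apply, Module.End.mul_apply, ih]
              rfl
          have hk' : ((frob F X - μ • 1) ^ k) (y : W.H X) = 0 := by
            rw [← hcoe, hk]
            rfl
          by_cases hμ : μ = (q : W.K)
          · subst hμ
            exact h y ⟨(Module.End.mem_maxGenEigenspace _ _ _).2 ⟨k, hk'⟩, y.2⟩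
          · obtain ⟨l, hl⟩ := (Module.End.mem_maxGenEigenspace _ _ _).1 hx.1
            refine orth_of_ne (φ := frob F X) (s := (q : W.K) ^ X.dim) (a := (q : W.K)) (b := μ)
              (fun x y => W.tr X (x * y)) ?_ ?_ ?_ ?_ ?_ ?_ (l + k) l k rfl x y hl hk'
            · intro x x' y
              rw [add_mul, map_add]
            · intro x y y'
              rw [mul_add, map_add]
            · intro c x y
              rw [smul_mul_assoc, map_smul, smul_eq_mul]
            · intro c x y
              rw [mul_smul_comm, map_smul, smul_eq_mul]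
            · intro x y
              exact frob_pair x y
            · rw [hX, sq]
              intro h6
              exact hμ (mul_left_cancel₀ (q_ne F) h6)
        · change W.tr X (x * ((0 : W.gr X 2) : W.H X)) = 0
          rw [Submodule.coe_zero, mul_zero, map_zero]
        · intro y y' hy hy'
          change W.tr X (x * ((y + y' : W.gr X 2) : W.H X)) = 0
          rw [Submodule.coe_add, mul_add, map_add, hy, hy', add_zero]
      exact key ⟨b, hb⟩
    · exact W.tr_eq_zero (W.mul_mem hx.2 hb) (by omega)
  · intro a b ha hb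
    rw [mul_add, map_add, ha, hb, add_zero]

/-- **Surfaces.** -/
theorem surface_iff [IsAlgClosed W.K] (hX : X.dim = 2) :
    (frobOn F X (W.gr X 2) (gr_stable 2)).IsSemisimple ↔ ∃ n : ℕ,
      4 * (finrank W.K (W.gr X 2) : ℝ) ^ 2 *
        (genDim (frobOn F X (W.gr X 2) (gr_stable 2)) ((q : W.K) ^ 2) n : ℝ) ≤
        Real.sqrt n * (eigDim (frobOn F X (W.gr X 2) (gr_stable 2)) ((q : W.K) ^ 2) n : ℝ) := by
  have hnd : IsNondegenerate W X (W.gr X 2) := by
    have h := gr_nondegenerate (W := W) (X := X)
    rwa [hX] at h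
  have h := sub_iff (F := F) (gr_stable 2) hnd
  rwa [hX] at h

/-- **The weak form for surfaces.** -/
theorem surface_weak_iff [IsAlgClosed W.K] (hX : X.dim = 2) :
    (frobOn F X (tatePart F X) tatePart_stable).IsSemisimple ↔ ∃ n : ℕ,
      4 * (finrank W.K (tatePart F X) : ℝ) ^ 2 *
        (genDim (frobOn F X (tatePart F X) tatePart_stable) ((q : W.K) ^ 2) n : ℝ) ≤
        Real.sqrt n *
          (eigDim (frobOn F X (tatePart F X) tatePart_stable) ((q : W.K) ^ 2) n : ℝ) := by
  have h := sub_iff (F := F) tatePart_stable (tatePart_nondegenerate hX)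
  rwa [hX] at h

end Pool.Agent.R940.Rt
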