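import Pool.Agent.R940.RtN

/-!
# Names for the inequalities
-/

open CategoryTheory AlgebraicGeometry

universe u v

namespace Pool.Agent.R940.Rt

open Module Pool.Agent.H914 Pool.Agent.R937.JB VarClass Obj WeilCohomology

section defs

variable {K V : Type*} [Field K] [AddCommGroup V] [Module K V]

/-- `√n t(n) < 4 b ^ 2 r(n)` for all `n`, where `b` is the dimension of `V`, and `t(n)`, `r(n)` the
dimensions of the eigenspace and of the generalised eigenspace of `φ` on the tensor power of `2 n`
copies of `V` for the eigenvalue `s ^ n`. -/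
def FewTensors (φ : End K V) (s : K) : Prop :=
  ∀ n : ℕ, Real.sqrt n * (eigDim φ s n : ℝ) < 4 * (finrank K V : ℝ) ^ 2 * (genDim φ s n : ℝ)

/-- `√n t(n) ≥ 4 b ^ 2 r(n)` for one `n`. -/
def ManyTensors (φ : End K V) (s : K) : Prop :=
  ∃ n : ℕ, 4 * (finrank K V : ℝ) ^ 2 * (genDim φ s n : ℝ) ≤ Real.sqrt n * (eigDim φ s n : ℝ)

/-- `t(n) = r(n)` for all `n`. -/
def AllTensors (φ : End K V) (s : K) : Prop :=
  ∀ n : ℕ, eigDim φ s n = genDim φ s n

/-- The square root law: few tensors if `φ` is not semisimple, all if it is semisimple. -/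
def TensorLaw (φ : End K V) (s : K) : Prop :=
  (¬ φ.IsSemisimple → FewTensors φ s) ∧ (φ.IsSemisimple → AllTensors φ s)

/-- `φ` is semisimple if and only if there are many tensors. -/
def SemisimpleIffMany (φ : End K V) (s : K) : Prop := φ.IsSemisimple ↔ ManyTensors φ s

end defs

variable {k : Type u} [Field k] {𝒱 : VarClass k} {ops : CycleOps 𝒱}
  {W : WeilCohomology.{u, v} ops} {q : ℕ} {F : Frobenius W q} {X : 𝒱.Obj}

/-- Frobenius on `H^2(X)`. -/
noncomputable def frobTwo (F : Frobenius W q) (X : 𝒱.Obj) : Module.End W.K (W.gr X 2) :=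
  frobOn F X (W.gr X 2) (gr_stable 2)

/-- Frobenius on the generalised eigenspace for `q` on `H^2(X)`. -/
noncomputable def frobTate (F : Frobenius W q) (X : 𝒱.Obj) : Module.End W.K (tatePart F X) :=
  frobOn F X (tatePart F X) tatePart_stable

/-- The law for a stable subspace `U` of `H(X)`. -/
def PartLaw (F : Frobenius W q) (X : 𝒱.Obj) (U : Submodule W.K (W.H X))
    (hU : IsStable (frob F X) U) : Prop :=
  TensorLaw (frobOn F X U hU) ((q : W.K) ^ X.dim)

/-- Frobenius is semisimple on `H^2(X)` if and only if there are many tensors. -/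
def TwoLaw (F : Frobenius W q) (X : 𝒱.Obj) : Prop :=
  SemisimpleIffMany (frobTwo F X) ((q : W.K) ^ 2)

/-- Frobenius is semisimple on the generalised eigenspace for `q` on `H^2(X)` if and only if there
are many tensors. -/
def TateLaw (F : Frobenius W q) (X : 𝒱.Obj) : Prop :=
  SemisimpleIffMany (frobTate F X) ((q : W.K) ^ 2)

end Pool.Agent.R940.Rt
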