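import Pool.Agent.R940.RtO

/-!
# Polarized endomorphisms
-/

open CategoryTheory AlgebraicGeometry

universe u v

namespace Pool.Agent.R940.Rt

open Module Pool.Agent.H914 Pool.Agent.R937.JB VarClass Obj WeilCohomology

variable {k : Type u} [Field k] {𝒱 : VarClass k} {ops : CycleOps 𝒱}
  {W : WeilCohomology.{u, v} ops} {X : 𝒱.Obj}

/-- The pull-back by an endomorphism `f` on `H(X)`. -/
noncomputable def pullEnd (W : WeilCohomology.{u, v} ops) {X : 𝒱.Obj} (f : X ⟶ X) :
    Module.End W.K (W.H X) := (W.map f).toLinearMap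

/-- `f` multiplies a class `h` of degree two (the class of an ample divisor) with nonzero top
self-intersection by `q`. -/
def IsPolarized (W : WeilCohomology.{u, v} ops) {X : 𝒱.Obj} (f : X ⟶ X) (q : ℕ) : Prop :=
  ∃ h ∈ W.gr X 2, W.map f h = (q : W.K) • h ∧ W.tr X (h ^ X.dim) ≠ 0

lemma pow_mem_gr {h : W.H X} (hh : h ∈ W.gr X 2) (m : ℕ) : h ^ m ∈ W.gr X (2 * m) := by
  induction m with
  | zero =>
    rw [pow_zero]
    exact W.one_mem X
  | succ m ih =>
    rw [pow_succ]
    exact W.mul_mem ih hh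

lemma top_eq_zero {c : W.H X} (hc : c ∈ W.gr X (2 * X.dim)) (h : W.tr X c = 0) : c = 0 := by
  apply W.nondeg
  intro b
  refine gr_induction (W.isInternal X) (p := fun b => W.tr X (c * b) = 0) ?_ ?_ b
  · intro i b hb
    by_cases hi : i = 0
    · subst hi
      rw [W.gr_zero] at hb
      obtain ⟨a, rfl⟩ := Submodule.mem_span_singleton.1 hb
      rw [mul_smul_comm, mul_one, map_smul, h, smul_zero]
    · exact W.tr_eq_zero (W.mul_mem hc hb) (by omega)
  · intro a b ha hb
    rw [mul_add, map_add, ha, hb, add_zero]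

lemma tr_pull {f : X ⟶ X} {q : ℕ} (hf : IsPolarized W f q) (a : W.H X) :
    W.tr X (W.map f a) = (q : W.K) ^ X.dim * W.tr X a := by
  obtain ⟨h, hh, hfh, htop⟩ := hf
  refine gr_induction (W.isInternal X)
    (p := fun a => W.tr X (W.map f a) = (q : W.K) ^ X.dim * W.tr X a) ?_ ?_ a
  · intro i a ha
    by_cases hi : i = 2 * X.dim
    · subst hi
      have h1 : a = (W.tr X a / W.tr X (h ^ X.dim)) • h ^ X.dim := by
        rw [← sub_eq_zero]
        apply top_eq_zero
        · exact Submodule.sub_mem _ ha (Submodule.smul_mem _ _ (pow_mem_gr hh _))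
        · rw [map_sub, map_smul, smul_eq_mul, div_mul_cancel₀ _ htop, sub_self]
      have h2 : W.map f (h ^ X.dim) = ((q : W.K) ^ X.dim) • h ^ X.dim := by
        rw [map_pow, hfh, smul_pow]
      rw [h1, map_smul, h2, map_smul, map_smul, map_smul, smul_eq_mul, smul_eq_mul, smul_eq_mul]
      ring
    · rw [W.tr_eq_zero (W.map_mem f ha) hi, W.tr_eq_zero ha hi, mul_zero]
  · intro a b ha hb
    rw [map_add, map_add, map_add, ha, hb, mul_add]

/-- **Polarized endomorphisms.** -/
theorem polarized_law [IsAlgClosed W.K] {f : X ⟶ X} {q : ℕ} (hq : 0 < q)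
    (hf : IsPolarized W f q) :
    TensorLaw (pullEnd W f) ((q : W.K) ^ X.dim) ∧
      SemisimpleIffMany (pullEnd W f) ((q : W.K) ^ X.dim) := by
  have hq0 : ((q : W.K) ^ X.dim) ≠ 0 := pow_ne_zero _ (by exact_mod_cast hq.ne')
  let B : W.H X →ₗ[W.K] W.H X →ₗ[W.K] W.K :=
    LinearMap.mk₂ W.K (fun x y => W.tr X (x * y))
      (fun x x' y => by rw [add_mul, map_add])
      (fun c x y => by rw [smul_mul_assoc, map_smul])
      (fun x y y' => by rw [mul_add, map_add])
      (fun c x y => by rw [mul_smul_comm, map_smul])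
  have hlaw : ¬ (pullEnd W f).IsSemisimple → FewTensors (pullEnd W f) ((q : W.K) ^ X.dim) := by
    intro hns n
    refine similitude_law hq0 B ?_ ?_ hns n
    · intro x hx
      exact W.nondeg x hx
    · intro x y
      change W.tr X (W.map f x * W.map f y) = (q : W.K) ^ X.dim * W.tr X (x * y)
      rw [← map_mul, tr_pull hf]
  refine ⟨⟨hlaw, fun h n => eig_eq_gen h _ n⟩, ?_⟩
  constructor
  · intro h
    refine ⟨16 * finrank W.K (W.H X) ^ 4, ?_⟩
    rw [eig_eq_gen h]
    refine mul_le_mul_of_nonneg_right ?_ (Nat.cast_nonneg _)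
    apply Real.le_sqrt_of_sq_le
    push_cast
    nlinarith
  · rintro ⟨n, hn⟩
    by_contra h
    exact absurd (hlaw h n) (not_lt.2 hn)

end Pool.Agent.R940.Rt
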