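import Pool.Agent.R940.SDefs
import Pool.Agent.R940.TExc
import Pool.Agent.R940.CMFin

/-!
# The theorems on Tate classes for the systems with short definitions
-/

set_option linter.unusedVariables false
set_option linter.unusedSectionVars false

open CategoryTheory AlgebraicGeometry CategoryTheory.Limits TensorProduct

universe u v w

namespace Pool.Agent.R940

open Pool.Agent.H914 Pool.Agent.H447 Pool.Agent.W534 Pool.Agent.Y163 VarClass Obj WeilCohomology
  Module

variable {k : Type u} [Field k] {𝒱 : VarClass k} {ops : CycleOps 𝒱}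
  {W : WeilCohomology.{u, v} ops} {X Y Z : 𝒱.Obj} {Γ : Type w} [Group Γ]

/-- The homomorphism given by an action. -/
def ActH.hom (ρ : ActH W Γ Y) : Γ →* (W.H Y ≃ₐ[W.K] W.H Y) :=
  MonoidHom.mk' ρ.aut fun g h => AlgEquiv.ext fun a => ρ.mul g h a

/-- The Galois system in the sense of the file `TDefs`. -/
def GalSys.old (G : GalSys W Γ) : GaloisSystem W Γ where
  χ := G.χ
  act Y := (G.act Y).hom
  gal Y :=
    { gr_mem := fun g i a ha => G.gr Y g i a ha
      tr_act := fun g a => G.tr Y g a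
      cl_act := by
        rintro g j _ ⟨z, hz, rfl⟩
        obtain ⟨z', hz', h⟩ := G.cl Y g j z hz
        exact ⟨W.cl Y z', ⟨z', hz', rfl⟩, h⟩
      cl_fix := by
        rintro j _ ⟨z, hz, rfl⟩
        exact G.fix Y j z hz }
  map f := G.map f

variable {G : GalSys W Γ}

lemma isTateS_iff {j : ℕ} {c : W.H Y} : IsTateS G Y j c ↔ c ∈ tateSub G.old Y j := Iff.rfl

lemma tateSp_eq (j : ℕ) : tateSp G Y j = tateSub G.old Y j := by
  apply le_antisymm
  · exact Submodule.span_le.2 fun c hc => hc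
  · exact fun c hc => Submodule.subset_span hc

lemma tateRk_eq (Y : 𝒱.Obj) (j : ℕ) : tateRk G Y j = tateRank G.old Y j := by
  rw [tateRk, tateSp_eq]
  rfl

lemma tateConjS_iff : TateConjS G Y ↔ TateConj G.old Y :=
  ⟨fun h j _ c hc => h j c hc, fun h j c hc => h.all j hc⟩

/-- The excess law for Tate classes. -/
theorem stm_excess (hX : SignStd W X) (hZ : SignStd W Z) {D : X.Cycles} (hD : X.IsCyc 1 D)
    (hbig : Big ops X D) (G : GalSys W Γ) :
    (∀ n, 0 < rhoRk ops X n) ∧
    (∀ i n, i ≤ Z.dim →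
      cycRkOn ops Z X i n ≤ tateRkOn G Z X i n ∧
      cycRkOn ops Z X i n ≤ betti W Z * rhoRk ops X n ∧
      tateRkOn G Z X i n ≤ betti W Z * ((n + 2) ^ (betti W X ^ 2) * rhoRk ops X n)) ∧
    ∀ κ, StrongTateS G (Z.prod (pw X κ)) ∨ ∃ i, i ≤ Z.dim ∧ TateExcess G Z X κ i := by
  obtain ⟨h1, h2, h3⟩ := tate_excess hX hZ hD hbig G.old
  refine ⟨h1, fun i n hi => ?_, fun κ => ?_⟩
  · rw [tateRkOn, tateRk_eq]
    exact h2 i n hi
  · rcases h3 κ with h | ⟨i, hi, h⟩
    · exact Or.inl ⟨tateConjS_iff.2 h.1, h.2⟩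
    · refine Or.inr ⟨i, hi, fun n hn => ?_⟩
      rw [tateRkOn, tateRk_eq]
      exact h n hn

/-- The Hodge-Tate weights in the sense of the file `CMDefs`. -/
def HodgeTateS.old (HT : HodgeTateS G) : HodgeTate G.old where
  S := HT.S
  nonempty := HT.nonempty
  wt := HT.wt
  agree := HT.agree
  mul := by
    intro s Y Y' i i' ψ φ h1 h2
    exact HT.add s Y Y' i i' ψ φ h1 h2
  bound := by
    intro s Y i ψ h
    exact HT.bound s Y i ψ h
  twist := HT.twist
  tate := by
    intro Y j ψ h h2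
    exact HT.tate Y j ψ h h2

lemma IsPotAbelianS.old (h : IsPotAbelianS G X) : IsPotAbelian G.old X :=
  Submodule.eq_top_iff'.2 fun x => h x

/-- Bounded generation of the Tate classes and the reduction of the Tate conjecture. -/
theorem stm_cm (HT : HodgeTateS G) (hX : IsPotAbelianS G X) {D : X.Cycles}
    (hD : X.IsCyc 1 D) (hbig : Big ops X D) (n : ℕ) :
    TateGenerated G Z X (cmBound (finrank W.K (W.H X)) Z.dim) n ∧
    (TateConjS G (Z.prod (pw X (cmBound (finrank W.K (W.H X)) Z.dim - 1))) →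
      TateConjS G (Z.prod (pw X n))) := by
  constructor
  · rintro c ⟨J, hc⟩
    exact gal_generated HT.old hX.old hD hbig n J hc
  · intro h
    exact tateConjS_iff.2 (gal_red HT.old hX.old hD hbig (tateConjS_iff.1 h) n)

end Pool.Agent.R940
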