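import Pool.Agent.R940.DDefs
import Pool.Agent.R940.ZDefs
import Pool.Agent.TH125.Gal.Pub
import Pool.Agent.Y129.TDefs

/-!
# Galois actions on the cohomology of all varieties, and Tate classes: definitions
-/

open CategoryTheory AlgebraicGeometry

universe u v w

namespace Pool.Agent.R940

open Pool.Agent.H914 Pool.Agent.H914.VarClass Pool.Agent.H914.VarClass.Obj
  Pool.Agent.H914.WeilCohomology
open Pool.Agent.Y163 (pw sq)
open Pool.Agent.W534 (numRank)

variable {k : Type u} [Field k] {𝒱 : VarClass k} {ops : CycleOps 𝒱}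

/-- Actions of the group `Γ` on the coefficients `K(-1)` (the dual of the Tate twist): characters. -/
def TwistChar (W : WeilCohomology.{u, v} ops) (Γ : Type w) [Group Γ] : Type (max v w) :=
  Γ →* W.Kˣ

/-- The value of the automorphism `f` at `a`. -/
def applyAut {W : WeilCohomology.{u, v} ops} {Y : 𝒱.Obj} (f : W.H Y ≃ₐ[W.K] W.H Y)
    (a : W.H Y) : W.H Y := f a

/-- The orientation: the degree of the part of `a` in the top cohomology. -/
def trOf {W : WeilCohomology.{u, v} ops} {Y : 𝒱.Obj} (a : W.H Y) : W.K := W.tr Y a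

/-- Actions of the group `Γ` on the cohomology of `Y` by automorphisms of the algebra. -/
structure ActH (W : WeilCohomology.{u, v} ops) (Γ : Type w) [Group Γ] (Y : 𝒱.Obj) where
  /-- the automorphism given by `g` -/
  aut : Γ → (W.H Y ≃ₐ[W.K] W.H Y)
  mul : ∀ (g h : Γ) (a : W.H Y),
    applyAut (aut (g * h)) a = applyAut (aut g) (applyAut (aut h) a)

variable {W : WeilCohomology.{u, v} ops} {Γ : Type w} [Group Γ]

/-- The value of the character at `g`. -/
def twistAt (χ : TwistChar W Γ) (g : Γ) : W.K :=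
  let f : Γ →* W.Kˣ := χ
  (f g : W.K)

/-- The action of `g` on the class `a`. -/
def actOn {Y : 𝒱.Obj} (ρ : ActH W Γ Y) (g : Γ) (a : W.H Y) : W.H Y := applyAut (ρ.aut g) a

/-- The action respects the grading. -/
def ActGr {Y : 𝒱.Obj} (ρ : ActH W Γ Y) : Prop :=
  ∀ (g : Γ) (i : ℕ) (a : W.H Y), a ∈ W.gr Y i → actOn ρ g a ∈ W.gr Y i

/-- The action respects the orientation (the degree of the top cohomology), up to the twist. -/
def ActTr {Y : 𝒱.Obj} (χ : TwistChar W Γ) (ρ : ActH W Γ Y) : Prop :=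
  ∀ (g : Γ) (a : W.H Y), trOf (actOn ρ g a) = twistAt χ g ^ Y.dim * trOf a

/-- The action maps classes of algebraic cycles of codimension `j` to such classes, up to the
twist. -/
def ActCl {Y : 𝒱.Obj} (χ : TwistChar W Γ) (ρ : ActH W Γ Y) : Prop :=
  ∀ (g : Γ) (j : ℕ) (z : Y.Cycles), Y.IsCyc j z → ∃ z' : Y.Cycles, Y.IsCyc j z' ∧
    actOn ρ g (W.cl Y z) = twistAt χ g ^ j • W.cl Y z'

/-- The class of each algebraic cycle is fixed by a subgroup of finite index, up to the twist. -/
def ActFix {Y : 𝒱.Obj} (χ : TwistChar W Γ) (ρ : ActH W Γ Y) : Prop :=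
  ∀ (j : ℕ) (z : Y.Cycles), Y.IsCyc j z → ∃ Δ : Subgroup Γ, Δ.FiniteIndex ∧
    ∀ g ∈ Δ, actOn ρ g (W.cl Y z) = twistAt χ g ^ j • W.cl Y z

/-- The pull-back under the morphism `f` is respected by a subgroup of finite index. -/
def ActMap {X Y : 𝒱.Obj} (f : X ⟶ Y) (ρ : ActH W Γ X) (ρ' : ActH W Γ Y) : Prop :=
  ∃ Δ : Subgroup Γ, Δ.FiniteIndex ∧
    ∀ g ∈ Δ, ∀ a, actOn ρ g (W.map f a) = W.map f (actOn ρ' g a)

/-- The action of the Galois group `Γ` of a field of definition on the Weil cohomology of all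
varieties of the class; `χ` is the action on the cohomology class of a point of a curve. -/
structure GalSys (W : WeilCohomology.{u, v} ops) (Γ : Type w) [Group Γ] where
  /-- the character -/
  χ : TwistChar W Γ
  /-- the action on the cohomology of `Y` -/
  act : ∀ Y : 𝒱.Obj, ActH W Γ Y
  gr : ∀ Y : 𝒱.Obj, ActGr (act Y)
  tr : ∀ Y : 𝒱.Obj, ActTr χ (act Y)
  cl : ∀ Y : 𝒱.Obj, ActCl χ (act Y)
  fix : ∀ Y : 𝒱.Obj, ActFix χ (act Y)
  map : ∀ {X Y : 𝒱.Obj} (f : X ⟶ Y), ActMap f (act X) (act Y)

/-- The class `y` on `Y` is an eigenvector of a subgroup `Δ` of finite index, and `g ∈ Δ` acts by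
`ψ g`. -/
def IsEigenS (G : GalSys W Γ) (Y : 𝒱.Obj) (ψ : Γ → W.K) (y : W.H Y) : Prop :=
  ∃ Δ : Subgroup Γ, Δ.FiniteIndex ∧ ∀ g ∈ Δ, actOn (G.act Y) g y = ψ g • y

/-- The Tate classes of codimension `j` on `Y` (over all finite extensions of the field of
definition): the classes `c` of degree `2 j` such that `g c = χ g ^ j • c` for all `g` in a subgroup
of finite index. -/
def IsTateS (G : GalSys W Γ) (Y : 𝒱.Obj) (j : ℕ) (c : W.H Y) : Prop :=
  c ∈ W.gr Y (2 * j) ∧ IsEigenS G Y (fun g => twistAt G.χ g ^ j) c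

/-- The Tate conjecture for `Y`, in all codimensions and over all finite extensions of the field of
definition: the Tate classes are linear combinations of classes of algebraic cycles. -/
def TateConjS (G : GalSys W Γ) (Y : 𝒱.Obj) : Prop :=
  ∀ (j : ℕ) (c : W.H Y), IsTateS G Y j c → c ∈ spanCycles W Y (j : ℕ)

/-! ### Ranks on the products with powers -/

/-- The space of the Tate classes of codimension `j` on `Y`. -/
noncomputable def tateSp (G : GalSys W Γ) (Y : 𝒱.Obj) (j : ℕ) : Submodule W.K (W.H Y) :=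
  Submodule.span W.K {c : W.H Y | IsTateS G Y j c}

/-- The dimension of the space of the Tate classes of codimension `j` on `Y`. -/
noncomputable def tateRk (G : GalSys W Γ) (Y : 𝒱.Obj) (j : ℕ) : ℕ :=
  Module.finrank W.K (tateSp G Y j)

/-- The Tate conjecture for `Y`, and numerical equivalence agrees with homological equivalence. -/
def StrongTateS (G : GalSys W Γ) (Y : 𝒱.Obj) : Prop := TateConjS G Y ∧ HomEqNum W Y

/-- The rank of the group of the cycles of codimension `(n + 1) d` on `X ^ (2 n + 2)` modulo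
numerical equivalence, `d = dim X`. -/
noncomputable def rhoRk (ops : CycleOps 𝒱) (X : 𝒱.Obj) (n : ℕ) : ℕ :=
  numRank ops (sq X n) ((n + 1) * X.dim)

/-- The rank of the group of the cycles of codimension `(n + 1) d + i` on `Z × X ^ (2 n + 2)` modulo
numerical equivalence. -/
noncomputable def cycRkOn (ops : CycleOps 𝒱) (Z X : 𝒱.Obj) (i n : ℕ) : ℕ :=
  numRank ops (Z.prod (sq X n)) ((n + 1) * X.dim + i)

/-- The dimension of the space of the Tate classes of codimension `(n + 1) d + i` on
`Z × X ^ (2 n + 2)`. -/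
noncomputable def tateRkOn (G : GalSys W Γ) (Z X : 𝒱.Obj) (i n : ℕ) : ℕ :=
  tateRk G (Z.prod (sq X n)) ((n + 1) * X.dim + i)

/-- The error term `(κ + 1) b ^ (2 κ + 4) log (n + 2) / n`. -/
noncomputable def excessErr (b κ n : ℕ) : ℝ :=
  (κ + 1) * (b : ℝ) ^ (2 * κ + 4) * Real.log (n + 2) / n

/-- The Tate classes exceed the cycles modulo numerical equivalence on all `Z × X ^ (2 n + 2)`:
`t i n ≥ r i n + (1 - (κ + 1) b ^ (2 κ + 4) log (n + 2) / n) ρ n` for all `n ≥ 1`. -/
def TateExcess (G : GalSys W Γ) (Z X : 𝒱.Obj) (κ i : ℕ) : Prop :=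
  ∀ n : ℕ, 0 < n → (cycRkOn ops Z X i n : ℝ) +
    (1 - excessErr (betti W X) κ n) * rhoRk ops X n ≤ tateRkOn G Z X i n

/-! ### Potentially abelian representations and Hodge-Tate weights -/

/-- The functions `ψ` and `φ` agree on a subgroup of finite index. -/
def AgreeF {K : Type v} (ψ φ : Γ → K) : Prop :=
  ∃ Δ : Subgroup Γ, Δ.FiniteIndex ∧ ∀ g ∈ Δ, ψ g = φ g

/-- The character `ψ` of a subgroup of finite index occurs in `H^i(Y)`. -/
def OccursS (G : GalSys W Γ) (Y : 𝒱.Obj) (i : ℕ) (ψ : Γ → W.K) : Prop :=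
  ∃ y ∈ W.gr Y i, y ≠ 0 ∧ IsEigenS G Y ψ y

/-- The homogeneous eigenvectors of subgroups of finite index. -/
def EigSet (G : GalSys W Γ) (X : 𝒱.Obj) : Set (W.H X) :=
  {x | ∃ i ψ, x ∈ W.gr X i ∧ IsEigenS G X ψ x}

/-- The cohomology of `X` is spanned by homogeneous eigenvectors of subgroups of finite index (the
representation of the Galois group is potentially abelian and semisimple). -/
def IsPotAbelianS (G : GalSys W Γ) (X : 𝒱.Obj) : Prop :=
  ∀ x : W.H X, x ∈ Submodule.span W.K (EigSet G X)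

/-- Additivity of the weights. -/
def WtAdd (G : GalSys W Γ) (wt : (Γ → W.K) → ℤ) : Prop :=
  ∀ (Y Y' : 𝒱.Obj) (i i' : ℕ) (ψ φ : Γ → W.K), OccursS G Y i ψ → OccursS G Y' i' φ →
    wt (fun g => ψ g * φ g) = wt ψ + wt φ

/-- The weights which occur in `H^i` are between `0` and `i`. -/
def WtBound (G : GalSys W Γ) (wt : (Γ → W.K) → ℤ) : Prop :=
  ∀ (Y : 𝒱.Obj) (i : ℕ) (ψ : Γ → W.K), OccursS G Y i ψ → 0 ≤ wt ψ ∧ wt ψ ≤ i

/-- The Hodge-Tate weights of the characters which occur in the cohomology. The index set `S`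
consists of the pairs of an embedding of the algebraic closure of the field of definition into
`ℂ_ℓ` and an embedding of the coefficients into `ℂ_ℓ`; the number `wt s ψ` is the weight of the
character `ψ` (of a subgroup of finite index) with respect to `s`, normalised such that the
weights which occur in `H^i(Y)` are between `0` and `i`. -/
structure HodgeTateS (G : GalSys W Γ) where
  /-- the index set -/
  S : Type
  nonempty : Nonempty S
  /-- the weights -/
  wt : S → (Γ → W.K) → ℤ
  /-- the weights depend only on the restriction to subgroups of finite index -/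
  agree : ∀ (s : S) (ψ φ : Γ → W.K), AgreeF ψ φ → wt s ψ = wt s φ
  /-- the weights are additive -/
  add : ∀ s : S, WtAdd G (wt s)
  /-- the weights which occur in `H^i` are between `0` and `i` -/
  bound : ∀ s : S, WtBound G (wt s)
  /-- the weights of the Tate twists -/
  twist : ∀ (s : S) (j : ℕ), wt s (fun g => twistAt G.χ g ^ j) = j
  /-- a character with the weights of a Tate twist agrees with it on a subgroup of finite index -/
  tate : ∀ (Y : 𝒱.Obj) (j : ℕ) (ψ : Γ → W.K), OccursS G Y (2 * j) ψ → (∀ s, wt s ψ = j) →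
    AgreeF ψ (fun g => twistAt G.χ g ^ j)

/-- The class `c` on `Y` is a Tate class, of some codimension. -/
def IsTateC (G : GalSys W Γ) (Y : 𝒱.Obj) (c : W.H Y) : Prop := ∃ j, IsTateS G Y j c

/-- All Tate classes on `Z × X ^ (n + 1)` belong to the algebra generated by the pull-backs of
Tate classes on the varieties `Z × X ^ (m + 1)` with `m + 1 ≤ N`. -/
def TateGenerated (G : GalSys W Γ) (Z X : 𝒱.Obj) (N n : ℕ) : Prop :=
  ∀ c : W.H (Z.prod (pw X n)), IsTateC G (Z.prod (pw X n)) c →
    c ∈ Algebra.adjoin W.K {c | IsPulledFrom W Z X (IsTateC G) N n c}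

/-- The number `N = b (4 b ^ 2 + 4 e + 1) ^ b`. -/
def cmBound (b e : ℕ) : ℕ := b * (4 * b ^ 2 + 4 * e + 1) ^ b

end Pool.Agent.R940
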