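import Pool.Agent.Y163.TateC
import Pool.Agent.R940.Tor

/-!
# Words in generalised eigenvectors of the Frobenius endomorphism
-/

set_option linter.unusedVariables false
set_option linter.unusedSectionVars false

open CategoryTheory AlgebraicGeometry CategoryTheory.Limits

universe u v

namespace Pool.Agent.R940

open Pool.Agent.H914 Pool.Agent.H447 Pool.Agent.W534 Pool.Agent.Y163 VarClass Obj WeilCohomology
  Module

section Lin

variable {K V V' : Type*} [Field K] [AddCommGroup V] [Module K V] [AddCommGroup V'] [Module K V']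

/-- The coordinates of an element of a member of an independent family, in an adapted basis. -/
lemma repr_zero {α κ : Type*} [Finite κ] {A : α → Submodule K V} (hA : iSupIndep A)
    (b : Basis κ K V) (a : κ → α) (hb : ∀ i, b i ∈ A (a i)) {x : V} {a₀ : α} (hx : x ∈ A a₀)
    {i : κ} (hi : a i ≠ a₀) : b.repr x i = 0 := by
  classical
  cases nonempty_fintype κ
  have h1 : x = ∑ j, b.repr x j • b j := (b.sum_repr x).symm
  have h2 : ∑ j, b.repr x j • b j = ∑ j ∈ Finset.univ.filter (fun j => a j = a₀), b.repr x j • b j +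
      ∑ j ∈ Finset.univ.filter (fun j => ¬ a j = a₀), b.repr x j • b j :=
    (Finset.sum_filter_add_sum_filter_not _ _ _).symm
  set y := ∑ j ∈ Finset.univ.filter (fun j => ¬ a j = a₀), b.repr x j • b j with hy
  have hy1 : y ∈ A a₀ := by
    have h3 : y = x - ∑ j ∈ Finset.univ.filter (fun j => a j = a₀), b.repr x j • b j := by
      rw [eq_sub_iff_add_eq, add_comm, ← h2, ← h1]
    rw [h3]
    refine Submodule.sub_mem _ hx (Submodule.sum_mem _ fun j hj => Submodule.smul_mem _ _ ?_)
    rw [← (Finset.mem_filter.1 hj).2]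
    exact hb j
  have hy2 : y ∈ ⨆ (c : α) (_ : c ≠ a₀), A c := by
    refine Submodule.sum_mem _ fun j hj => Submodule.smul_mem _ _ ?_
    exact Submodule.mem_iSup_of_mem (a j)
      (Submodule.mem_iSup_of_mem (Finset.mem_filter.1 hj).2 (hb j))
  have hy0 : y = 0 := by
    have := Submodule.disjoint_def.1 (hA a₀) y hy1 hy2
    exact this
  have h3 := congrArg (fun v => b.repr v i) hy0
  simp only [hy, map_sum, map_smul, map_zero, Finsupp.coe_finsetSum, Finset.sum_apply,
    Finsupp.smul_apply, Finsupp.coe_zero, Pi.zero_apply, smul_eq_mul, Basis.repr_self] at h3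
  rw [Finset.sum_eq_single i] at h3
  · rw [Finsupp.single_eq_same, mul_one] at h3
    exact h3
  · intro j _ hj
    rw [Finsupp.single_eq_of_ne (Ne.symm hj), mul_zero]
  · intro h4
    exact absurd (Finset.mem_filter.2 ⟨Finset.mem_univ i, hi⟩) h4

lemma gen_semi {f : Module.End K V} {g : Module.End K V'} {θ : V →ₗ[K] V'}
    (h : ∀ x, g (θ x) = θ (f x)) {μ : K} {x : V} (hx : x ∈ f.maxGenEigenspace μ) :
    θ x ∈ g.maxGenEigenspace μ := by
  rw [Module.End.mem_maxGenEigenspace] at hx ⊢
  obtain ⟨n, hn⟩ := hx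
  refine ⟨n, ?_⟩
  have key : ∀ (n : ℕ) (x : V), ((g - μ • 1) ^ n) (θ x) = θ (((f - μ • 1) ^ n) x) := by
    intro n
    induction n with
    | zero => intro x; rfl
    | succ n ih =>
      intro x
      have h1 : (g - μ • 1) (θ x) = θ ((f - μ • 1) x) := by
        simp only [LinearMap.sub_apply, LinearMap.smul_apply, Module.End.one_apply, map_sub,
          map_smul, h]
      rw [pow_succ, pow_succ, Module.End.mul_apply, Module.End.mul_apply, h1, ih]
  rw [key, hn, map_zero]

/-- The product of generalised eigenvectors. -/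
theorem gen_bilin {A B C : Type*} [AddCommGroup A] [Module K A] [AddCommGroup B] [Module K B]
    [AddCommGroup C] [Module K C] {f : Module.End K A} {g : Module.End K B} {h : Module.End K C}
    {β : A →ₗ[K] B →ₗ[K] C} (hβ : ∀ a b, β (f a) (g b) = h (β a b)) {l m : K} {a : A} {b : B}
    (ha : a ∈ f.maxGenEigenspace l) (hb : b ∈ g.maxGenEigenspace m) :
    β a b ∈ h.maxGenEigenspace (l * m) := by
  have key : ∀ (N i j : ℕ) (a : A) (b : B), i + j ≤ N → ((f - l • 1) ^ i) a = 0 →
      ((g - m • 1) ^ j) b = 0 → ((h - (l * m) • 1) ^ N) (β a b) = 0 := by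
    intro N
    induction N with
    | zero =>
      intro i j a b hij ha hb
      obtain rfl : i = 0 := by omega
      rw [pow_zero, Module.End.one_apply] at ha
      rw [ha, map_zero, LinearMap.zero_apply, map_zero]
    | succ N ih =>
      intro i j a b hij ha hb
      rcases Nat.eq_zero_or_pos i with hi | hi
      · subst hi
        rw [pow_zero, Module.End.one_apply] at ha
        rw [ha, map_zero, LinearMap.zero_apply, map_zero]
      rcases Nat.eq_zero_or_pos j with hj | hj
      · subst hj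
        rw [pow_zero, Module.End.one_apply] at hb
        rw [hb, map_zero, map_zero]
      obtain ⟨i', rfl⟩ : ∃ i', i = i' + 1 := ⟨i - 1, by omega⟩
      obtain ⟨j', rfl⟩ : ∃ j', j = j' + 1 := ⟨j - 1, by omega⟩
      have h1 : (h - (l * m) • 1) (β a b) =
          β ((f - l • 1) a) (g b) + l • β a ((g - m • 1) b) := by
        simp only [LinearMap.sub_apply, LinearMap.smul_apply, Module.End.one_apply, map_sub,
          map_smul, ← hβ]
        module
      have h2 : ((g - m • 1) ^ (j' + 1)) (g b) = 0 := by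
        have hc : Commute ((g - m • 1) ^ (j' + 1)) g :=
          (((Commute.refl g).sub_left ((Commute.one_left g).smul_left m))).pow_left _
        rw [← Module.End.mul_apply, hc.eq, Module.End.mul_apply, hb, map_zero]
      rw [pow_succ, Module.End.mul_apply, h1, map_add, map_smul,
        ih i' (j' + 1) _ _ (by omega) _ h2, ih (i' + 1) j' _ _ (by omega) ha _, smul_zero, add_zero]
      · rw [pow_succ, Module.End.mul_apply] at hb
        exact hb
      · rw [pow_succ, Module.End.mul_apply] at ha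
        exact ha
  rw [Module.End.mem_maxGenEigenspace] at ha hb ⊢
  obtain ⟨i, hi⟩ := ha
  obtain ⟨j, hj⟩ := hb
  exact ⟨i + j, key _ i j a b le_rfl hi hj⟩

/-- A basis of generalised eigenvectors. -/
lemma exists_gen_basis {K V : Type v} [Field K] [IsAlgClosed K] [AddCommGroup V] [Module K V]
    [FiniteDimensional K V] (f : Module.End K V) : ∃ (κ : Type v) (b : Basis κ K V) (μ : κ → K),
      ∀ i, b i ∈ f.maxGenEigenspace (μ i) := by
  classical
  have hint : DirectSum.IsInternal (fun μ => f.maxGenEigenspace μ) := by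
    apply DirectSum.isInternal_submodule_of_iSupIndep_of_iSup_eq_top
    · exact Module.End.independent_maxGenEigenspace _
    · exact Module.End.iSup_maxGenEigenspace_eq_top _
  let α : K → Type v := fun μ => Module.Free.ChooseBasisIndex K (f.maxGenEigenspace μ)
  refine ⟨Σ μ, α μ, hint.collectedBasis (fun μ => Module.Free.chooseBasis K _), Sigma.fst, ?_⟩
  intro i
  exact hint.collectedBasis_mem _ i

end Lin

variable {k : Type u} [Field k] {𝒱 : VarClass k} {ops : CycleOps 𝒱}
  {W : WeilCohomology.{u, v} ops} {X Y Z U S : 𝒱.Obj} {p : ℕ} (Φ : FrobSystem W p)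

/-- The element `b i` of the homogeneous basis is a generalised eigenvector for `lam i`. -/
def IsEig {ι : Type v} (B : HBasis W X ι) (lam : ι → W.K) : Prop :=
  ∀ i, B.b i ∈ (frob Φ X 1).maxGenEigenspace (lam i)

/-- There is a homogeneous basis of generalised eigenvectors. -/
theorem exists_ebasis [IsAlgClosed W.K] (X : 𝒱.Obj) : ∃ (ι : Type v) (_ : Finite ι)
    (B : HBasis W X ι) (lam : ι → W.K), IsEig Φ B lam := by
  classical
  choose α bs μ hμ using fun i => exists_gen_basis (frobOn Φ X 1 i)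
  let b := (W.isInternal X).collectedBasis bs
  refine ⟨Σ i, α i, Module.Finite.finite_basis b,
    ⟨b, Sigma.fst, fun i => (W.isInternal X).collectedBasis_mem bs i⟩, fun i => μ i.1 i.2, ?_⟩
  rintro ⟨i, a⟩
  change b ⟨i, a⟩ ∈ _
  have h1 : b ⟨i, a⟩ = ((bs i a : W.gr X i) : W.H X) := by
    rw [DirectSum.IsInternal.collectedBasis_coe]
  rw [h1]
  exact gen_semi (θ := (W.gr X i).subtype) (g := frob Φ X 1) (fun x => rfl) (hμ i a)

/-- Compatibility of the projections with the Frobenius endomorphisms. -/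
theorem frob_pr (X : 𝒱.Obj) (n : ℕ) : ∃ S S' : ℕ, 0 < S ∧ 0 < S' ∧
    S * Φ.e (pw X n) = S' * Φ.e X ∧ ∀ (i : Fin (n + 1)) (t : ℕ) (y : W.H X),
      frob Φ (pw X n) (S * t) (W.map (pr X n i) y) = W.map (pr X n i) (frob Φ X (S' * t) y) := by
  choose a b ha hb hab h using fun i => frob_comm Φ (pr X n i)
  have hS : 0 < ∏ i, a i := Finset.prod_pos fun i _ => ha i
  obtain ⟨c, hc⟩ : ∃ c : Fin (n + 1) → ℕ, ∀ i, ∏ j, a j = a i * c i := by
    refine ⟨fun i => ∏ j ∈ Finset.univ.erase i, a j, fun i => ?_⟩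
    rw [Finset.mul_prod_erase _ _ (Finset.mem_univ i)]
  have hbc : ∀ i, b i * c i * Φ.e X = (∏ j, a j) * Φ.e (pw X n) := by
    intro i
    rw [hc i, mul_assoc, mul_comm (c i), ← mul_assoc, ← hab i]
    ring
  have heq : ∀ i, b i * c i = b 0 * c 0 := fun i =>
    Nat.eq_of_mul_eq_mul_right (Φ.e_pos X) ((hbc i).trans (hbc 0).symm)
  refine ⟨∏ j, a j, b 0 * c 0, hS, ?_, (hbc 0).symm, ?_⟩
  · apply Nat.pos_of_ne_zero
    intro h0
    have h1 := hbc 0
    rw [h0, zero_mul] at h1
    exact (Nat.mul_pos hS (Φ.e_pos _)).ne h1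
  · intro i t y
    have h1 := h i (c i * t) y
    rw [← mul_assoc, ← hc i, ← mul_assoc, heq i] at h1
    exact h1

lemma frob_mul' (s : ℕ) (x y : W.H Z) : frob Φ Z s (x * y) = frob Φ Z s x * frob Φ Z s y :=
  map_mul (W.map (W534.iter (Φ.Fr Z) s)) x y

lemma frob_one' (s : ℕ) : frob Φ Z s (1 : W.H Z) = 1 :=
  map_one (W.map (W534.iter (Φ.Fr Z) s))

/-- Products of generalised eigenvectors. -/
lemma ofFn_gen {s : ℕ} : ∀ {m : ℕ} (g : Fin m → W.H Z) (μ : Fin m → W.K),
    (∀ i, g i ∈ (frob Φ Z s).maxGenEigenspace (μ i)) →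
    (List.ofFn g).prod ∈ (frob Φ Z s).maxGenEigenspace (∏ i, μ i)
  | 0, g, μ, _ => by
    rw [List.ofFn_zero, List.prod_nil, Fin.prod_univ_zero, Module.End.mem_maxGenEigenspace]
    refine ⟨1, ?_⟩
    rw [pow_one, LinearMap.sub_apply, LinearMap.smul_apply, Module.End.one_apply, one_smul,
      frob_one', sub_self]
  | m + 1, g, μ, h => by
    rw [List.ofFn_succ, List.prod_cons, Fin.prod_univ_succ]
    exact gen_bilin (β := LinearMap.mul W.K (W.H Z)) (fun a b => (frob_mul' Φ s a b).symm) (h 0)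
      (ofFn_gen (fun i => g i.succ) (fun i => μ i.succ) fun i => h i.succ)

lemma ofFn_gr : ∀ {m : ℕ} (g : Fin m → W.H Z) (d : Fin m → ℕ), (∀ i, g i ∈ W.gr Z (d i)) →
    (List.ofFn g).prod ∈ W.gr Z (∑ i, d i)
  | 0, g, d, _ => by
    rw [List.ofFn_zero, List.prod_nil, Fin.sum_univ_zero]
    exact W.one_mem Z
  | m + 1, g, d, h => by
    rw [List.ofFn_succ, List.prod_cons, Fin.sum_univ_succ]
    exact W.mul_mem (h 0) (ofFn_gr (fun i => g i.succ) (fun i => d i.succ) fun i => h i.succ)

variable {ι : Type v} {B : HBasis W X ι} {lam : ι → W.K}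

lemma mon_gr (B : HBasis W X ι) (n : ℕ) (I : Fin (n + 1) → ι) :
    mon B n I ∈ W.gr (pw X n) (∑ j, B.deg (I j)) := by
  rw [mon_eq]
  exact ofFn_gr _ _ fun i => W.map_mem _ (B.mem _)

lemma mon_gen (hB : IsEig Φ B lam) {n S S' : ℕ} (hS : ∀ (i : Fin (n + 1)) (t : ℕ) (y : W.H X),
      frob Φ (pw X n) (S * t) (W.map (pr X n i) y) = W.map (pr X n i) (frob Φ X (S' * t) y))
    (I : Fin (n + 1) → ι) (t : ℕ) :
    mon B n I ∈ (frob Φ (pw X n) (S * t)).maxGenEigenspace ((∏ j, lam (I j)) ^ (S' * t)) := by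
  rw [mon_eq, ← Finset.prod_pow]
  apply ofFn_gen Φ _ (fun j => lam (I j) ^ (S' * t))
  intro i
  refine gen_semi (f := frob Φ X (S' * t)) (θ := (W.map (pr X n i)).toLinearMap)
    (fun x => hS i t x) ?_
  have h1 := gen_mono (frob Φ X 1) (lam (I i)) (S' * t) (hB (I i))
  rwa [← frob_mul_eq, one_mul] at h1

end Pool.Agent.R940
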