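import Pool.Agent.Y163.Double
import Pool.Agent.Y163.Eff

/-!
# Systems of tensors closed under products and contractions
-/

set_option linter.unusedVariables false
set_option linter.unusedSectionVars false

namespace Pool.Agent.R940

open Module Pool.Agent.Y163 Matrix

universe v

/-- A system of spaces of tensors with `P` vector indices and `Q` covector indices, closed under
reindexing, tensor products and contractions. -/
structure TSys (K : Type v) [Field K] (ι : Type) [Fintype ι] [DecidableEq ι] where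
  /-- the tensors -/
  S : ∀ (P Q : Type) [Fintype P] [DecidableEq P] [Fintype Q] [DecidableEq Q],
    Submodule K ((P → ι) → (Q → ι) → K)
  reindex : ∀ {P Q P' Q' : Type} [Fintype P] [DecidableEq P] [Fintype Q] [DecidableEq Q]
    [Fintype P'] [DecidableEq P'] [Fintype Q'] [DecidableEq Q'] (e : P ≃ P') (f : Q ≃ Q')
    {x : (P → ι) → (Q → ι) → K}, x ∈ S P Q → (fun a b => x (a ∘ e) (b ∘ f)) ∈ S P' Q'
  one : ∀ {P : Type} [Fintype P] [DecidableEq P],
    (fun a b => if a = b then 1 else 0 : (P → ι) → (P → ι) → K) ∈ S P P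
  tensor : ∀ {P Q P' Q' : Type} [Fintype P] [DecidableEq P] [Fintype Q] [DecidableEq Q]
    [Fintype P'] [DecidableEq P'] [Fintype Q'] [DecidableEq Q']
    {x : (P → ι) → (Q → ι) → K} {y : (P' → ι) → (Q' → ι) → K}, x ∈ S P Q → y ∈ S P' Q' →
    (fun a b => x (a ∘ Sum.inl) (b ∘ Sum.inl) * y (a ∘ Sum.inr) (b ∘ Sum.inr)) ∈
      S (P ⊕ P') (Q ⊕ Q')
  contract : ∀ {P Q R : Type} [Fintype P] [DecidableEq P] [Fintype Q] [DecidableEq Q]
    [Fintype R] [DecidableEq R] {x : (P ⊕ R → ι) → (Q ⊕ R → ι) → K}, x ∈ S (P ⊕ R) (Q ⊕ R) →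
    (fun a b => ∑ c : R → ι, x (Sum.elim a c) (Sum.elim b c)) ∈ S P Q

variable {K : Type v} [Field K] {ι : Type} [Fintype ι] [DecidableEq ι] {A : TSys K ι}

section

variable {P Q P' Q' R P₁ Q₁ P₂ Q₂ : Type} [Fintype P] [DecidableEq P] [Fintype Q]
  [DecidableEq Q] [Fintype P'] [DecidableEq P'] [Fintype Q'] [DecidableEq Q'] [Fintype R]
  [DecidableEq R] [Fintype P₁] [DecidableEq P₁] [Fintype Q₁] [DecidableEq Q₁] [Fintype P₂]
  [DecidableEq P₂] [Fintype Q₂] [DecidableEq Q₂]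

lemma TSys.mem_of (e : P ≃ P') (f : Q ≃ Q') {x : (P → ι) → (Q → ι) → K} (hx : x ∈ A.S P Q)
    {y : (P' → ι) → (Q' → ι) → K} (h : ∀ a b, y a b = x (a ∘ e) (b ∘ f)) : y ∈ A.S P' Q' := by
  have h1 := A.reindex e f hx
  have h2 : y = fun a b => x (a ∘ e) (b ∘ f) := funext fun a => funext fun b => h a b
  rw [h2]
  exact h1

/-- Product and contraction. -/
lemma TSys.glue {x : (P₁ → ι) → (Q₁ → ι) → K} {y : (P₂ → ι) → (Q₂ → ι) → K}
    (hx : x ∈ A.S P₁ Q₁) (hy : y ∈ A.S P₂ Q₂) (e : P₁ ⊕ P₂ ≃ P ⊕ R) (f : Q₁ ⊕ Q₂ ≃ Q ⊕ R)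
    {z : (P → ι) → (Q → ι) → K}
    (h : ∀ a b, z a b = ∑ c : R → ι,
      x (fun i => Sum.elim a c (e (Sum.inl i))) (fun j => Sum.elim b c (f (Sum.inl j))) *
        y (fun i => Sum.elim a c (e (Sum.inr i))) (fun j => Sum.elim b c (f (Sum.inr j)))) :
    z ∈ A.S P Q := by
  have h1 := A.contract (A.reindex e f (A.tensor hx hy))
  have h2 : z = _ := funext fun a => funext fun b => h a b
  rw [h2]
  exact h1

end

/-- The index type of a mixed tensor product with `I` vector indices and `J` covector indices. -/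
structure Ob (ι : Type) where
  /-- the index type -/
  X : Type
  /-- vector indices -/
  I : Type
  /-- covector indices -/
  J : Type
  [fX : Fintype X]
  [dX : DecidableEq X]
  [fI : Fintype I]
  [dI : DecidableEq I]
  [fJ : Fintype J]
  [dJ : DecidableEq J]
  /-- the identification -/
  e : X ≃ (I → ι) × (J → ι)

attribute [instance] Ob.fX Ob.dX Ob.fI Ob.dI Ob.fJ Ob.dJ

/-- Tensor products. -/
@[simps I J] def Ob.tmul (M N : Ob ι) : Ob ι where
  X := M.X × N.X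
  I := M.I ⊕ N.I
  J := M.J ⊕ N.J
  e :=
    { toFun := fun x => (Sum.elim (M.e x.1).1 (N.e x.2).1, Sum.elim (M.e x.1).2 (N.e x.2).2)
      invFun := fun p => (M.e.symm (p.1 ∘ Sum.inl, p.2 ∘ Sum.inl),
        N.e.symm (p.1 ∘ Sum.inr, p.2 ∘ Sum.inr))
      left_inv := by
        rintro ⟨x, y⟩
        simp
      right_inv := by
        rintro ⟨p, q⟩
        simp [Sum.elim_comp_inl_inr] }

/-- Duals. -/
@[simps I J] def Ob.dual (M : Ob ι) : Ob ι where
  X := M.X
  I := M.J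
  J := M.I
  e := M.e.trans (Equiv.prodComm _ _)

/-- The tensor powers. -/
@[simps I J] def Ob.pow (ι : Type) [Fintype ι] [DecidableEq ι] (n : ℕ) : Ob ι where
  X := Fin n → ι
  I := Fin n
  J := Empty
  e := (Equiv.prodUnique _ _).symm

/-- The endomorphisms of the tensor powers. -/
def Ob.sq (ι : Type) [Fintype ι] [DecidableEq ι] (n : ℕ) : Ob ι :=
  (Ob.pow ι n).tmul (Ob.pow ι n).dual

variable {M N L Y V : Ob ι}

/-- The tensor of a matrix. -/
def hat (M N : Ob ι) : Matrix N.X M.X K ≃ₗ[K]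
    ((N.I ⊕ M.J → ι) → (N.J ⊕ M.I → ι) → K) where
  toFun F p q := F (N.e.symm (p ∘ Sum.inl, q ∘ Sum.inl)) (M.e.symm (q ∘ Sum.inr, p ∘ Sum.inr))
  invFun x n m := x (Sum.elim (N.e n).1 (M.e m).2) (Sum.elim (N.e n).2 (M.e m).1)
  map_add' F G := rfl
  map_smul' c F := rfl
  left_inv F := by
    funext n m
    simp
  right_inv x := by
    funext p q
    simp [Sum.elim_comp_inl_inr]

lemma hat_apply (F : Matrix N.X M.X K) (p : N.I ⊕ M.J → ι) (q : N.J ⊕ M.I → ι) :
    hat M N F p q =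
      F (N.e.symm (p ∘ Sum.inl, q ∘ Sum.inl)) (M.e.symm (q ∘ Sum.inr, p ∘ Sum.inr)) := rfl

/-- The homomorphisms of the system. -/
def THom (A : TSys K ι) (M N : Ob ι) : Submodule K (Matrix N.X M.X K) :=
  (A.S (N.I ⊕ M.J) (N.J ⊕ M.I)).comap (hat M N).toLinearMap

lemma mem_THom {F : Matrix N.X M.X K} :
    F ∈ THom A M N ↔ hat M N F ∈ A.S (N.I ⊕ M.J) (N.J ⊕ M.I) := Iff.rfl

/-- Rearrangement. -/
def eqA (A B C D : Type) : (A ⊕ B) ⊕ (C ⊕ D) ≃ (A ⊕ D) ⊕ (C ⊕ B) where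
  toFun := Sum.elim (Sum.elim (fun a => Sum.inl (Sum.inl a)) fun b => Sum.inr (Sum.inr b))
    (Sum.elim (fun c => Sum.inr (Sum.inl c)) fun d => Sum.inl (Sum.inr d))
  invFun := Sum.elim (Sum.elim (fun a => Sum.inl (Sum.inl a)) fun d => Sum.inr (Sum.inr d))
    (Sum.elim (fun c => Sum.inr (Sum.inl c)) fun b => Sum.inl (Sum.inr b))
  left_inv := by rintro ((_ | _) | (_ | _)) <;> rfl
  right_inv := by rintro ((_ | _) | (_ | _)) <;> rfl

/-- Rearrangement. -/
def eqB (A B C D : Type) : (A ⊕ B) ⊕ (C ⊕ D) ≃ (A ⊕ D) ⊕ (B ⊕ C) where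
  toFun := Sum.elim (Sum.elim (fun a => Sum.inl (Sum.inl a)) fun b => Sum.inr (Sum.inl b))
    (Sum.elim (fun c => Sum.inr (Sum.inr c)) fun d => Sum.inl (Sum.inr d))
  invFun := Sum.elim (Sum.elim (fun a => Sum.inl (Sum.inl a)) fun d => Sum.inr (Sum.inr d))
    (Sum.elim (fun b => Sum.inl (Sum.inr b)) fun c => Sum.inr (Sum.inl c))
  left_inv := by rintro ((_ | _) | (_ | _)) <;> rfl
  right_inv := by rintro ((_ | _) | (_ | _)) <;> rfl

/-- Sums over the indices of an object. -/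
lemma Ob.sum_eq (N : Ob ι) {β : Type*} [AddCommMonoid β] (F : N.X → β) :
    ∑ n, F n = ∑ c : N.I ⊕ N.J → ι, F (N.e.symm (c ∘ Sum.inl, c ∘ Sum.inr)) :=
  (Equiv.sum_comp ((Equiv.sumArrowEquivProdArrow N.I N.J ι).trans N.e.symm) F).symm

/-- Composition. -/
lemma THom.mul {F : Matrix N.X M.X K} {G : Matrix L.X N.X K} (hG : G ∈ THom A N L)
    (hF : F ∈ THom A M N) : G * F ∈ THom A M L := by
  rw [mem_THom] at hF hG ⊢
  refine A.glue hG hF (eqA L.I N.J N.I M.J) (eqB L.J N.I N.J M.I) fun a b => ?_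
  rw [hat_apply, Matrix.mul_apply, N.sum_eq]
  rfl

lemma THom.one : (1 : Matrix M.X M.X K) ∈ THom A M M := by
  rw [mem_THom]
  refine A.mem_of (Equiv.refl (M.I ⊕ M.J)) (Equiv.sumComm M.I M.J) A.one fun a b => ?_
  rw [hat_apply, Matrix.one_apply]
  congr 1
  rw [EmbeddingLike.apply_eq_iff_eq, Prod.mk.injEq]
  apply propext
  constructor
  · rintro ⟨h1, h2⟩
    funext i
    rcases i with i | i
    · exact congrFun h1 i
    · exact (congrFun h2 i).symm
  · intro h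
    refine ⟨funext fun i => congrFun h (Sum.inl i), funext fun j => (congrFun h (Sum.inr j)).symm⟩

/-- The tensor product of matrices. -/
def kr {M' N' : Ob ι} (F : Matrix N.X M.X K) (G : Matrix N'.X M'.X K) :
    Matrix (N.tmul N').X (M.tmul M').X K := fun p q => F p.1 q.1 * G p.2 q.2

/-- Tensor products of homomorphisms. -/
lemma THom.tmul {M' N' : Ob ι} {F : Matrix N.X M.X K} {G : Matrix N'.X M'.X K}
    (hF : F ∈ THom A M N) (hG : G ∈ THom A M' N') : kr F G ∈ THom A (M.tmul M') (N.tmul N') := by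
  rw [mem_THom] at hF hG ⊢
  exact A.mem_of (Equiv.sumSumSumComm N.I M.J N'.I M'.J) (Equiv.sumSumSumComm N.J M.I N'.J M'.I)
    (A.tensor hF hG) fun a b => rfl

/-- Transposes. -/
lemma THom.transpose {F : Matrix N.X M.X K} (hF : F ∈ THom A M N) :
    (Matrix.transpose F : Matrix M.dual.X N.dual.X K) ∈ THom A N.dual M.dual := by
  have h : (hat N.dual M.dual) (Matrix.transpose F : Matrix M.dual.X N.dual.X K) ∈
      A.S (M.dual.I ⊕ N.dual.J) (M.dual.J ⊕ N.dual.I) :=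
    A.mem_of (Equiv.sumComm N.I M.J) (Equiv.sumComm N.J M.I) hF fun a b => rfl
  exact h

end Pool.Agent.R940
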