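import Pool.Agent.R940.TnA

/-!
# Ranks of the trace pairings
-/

set_option linter.unusedVariables false
set_option linter.unusedSectionVars false

namespace Pool.Agent.R940

open Module Pool.Agent.Y163 Matrix

universe v

section Lin

variable {K : Type*} [Field K] {P Q P' Q' : Type*} [AddCommGroup P] [Module K P]
  [AddCommGroup Q] [Module K Q] [AddCommGroup P'] [Module K P'] [AddCommGroup Q'] [Module K Q']

lemma rank_congr [Module.Finite K Q] [Module.Finite K Q'] (β : P →ₗ[K] Module.Dual K Q)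
    (β' : P' →ₗ[K] Module.Dual K Q')
    (φ : P ≃ₗ[K] P') (ψ : Q ≃ₗ[K] Q') (h : ∀ x y, β x y = β' (φ x) (ψ y)) :
    finrank K (LinearMap.range β) = finrank K (LinearMap.range β') := by
  have h1 : β = ψ.toLinearMap.dualMap ∘ₗ β' ∘ₗ φ.toLinearMap :=
    LinearMap.ext fun x => LinearMap.ext fun y => h x y
  have h2 : β' = ψ.symm.toLinearMap.dualMap ∘ₗ β ∘ₗ φ.symm.toLinearMap := by
    apply LinearMap.ext
    intro x
    apply LinearMap.ext
    intro y
    have := h (φ.symm x) (ψ.symm y)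
    rw [LinearEquiv.apply_symm_apply, LinearEquiv.apply_symm_apply] at this
    exact this.symm
  apply le_antisymm
  · rw [h1]
    exact finrank_range_comp_comp_le _ _ _
  · rw [h2]
    exact finrank_range_comp_comp_le _ _ _

lemma rank_flip_le [Module.Finite K P] [Module.Finite K Q] (β : P →ₗ[K] Module.Dual K Q) :
    finrank K (LinearMap.range β) ≤ finrank K (LinearMap.range (LinearMap.flip β)) := by
  obtain ⟨x, y, h⟩ := exists_dual_family β 1
  have h1 := le_rank_of_dual (LinearMap.flip β) y x (fun _ => 1) (fun _ => one_ne_zero)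
    (fun a b => by
      rw [LinearMap.flip_apply, h]
      by_cases hab : a = b
      · rw [if_pos hab, if_pos hab.symm]
      · rw [if_neg hab, if_neg (Ne.symm hab)])
  rwa [Fintype.card_fin] at h1

lemma rank_flip [Module.Finite K P] [Module.Finite K Q] (β : P →ₗ[K] Module.Dual K Q) :
    finrank K (LinearMap.range β) = finrank K (LinearMap.range (LinearMap.flip β)) :=
  le_antisymm (rank_flip_le β) (rank_flip_le (LinearMap.flip β))

lemma rank_swap [Module.Finite K P] [Module.Finite K Q] [Module.Finite K P']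
    [Module.Finite K Q'] (β : P →ₗ[K] Module.Dual K Q) (β' : P' →ₗ[K] Module.Dual K Q')
    (φ : P ≃ₗ[K] Q') (ψ : Q ≃ₗ[K] P') (h : ∀ x y, β x y = β' (ψ y) (φ x)) :
    finrank K (LinearMap.range β) = finrank K (LinearMap.range β') := by
  rw [rank_flip β']
  exact rank_congr β (LinearMap.flip β') φ ψ h

/-- Equivalences of subspaces. -/
def subEq (E : P ≃ₗ[K] Q) (U : Submodule K P) (U' : Submodule K Q) (h : ∀ x, x ∈ U ↔ E x ∈ U') :
    U ≃ₗ[K] U' where
  toFun x := ⟨E x, (h x).1 x.2⟩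
  invFun y := ⟨E.symm y, (h _).2 (by rw [E.apply_symm_apply]; exact y.2)⟩
  map_add' x y := Subtype.ext (map_add E _ _)
  map_smul' c x := Subtype.ext (map_smul E _ _)
  left_inv x := Subtype.ext (E.symm_apply_apply _)
  right_inv y := Subtype.ext (E.apply_symm_apply _)

lemma subEq_coe (E : P ≃ₗ[K] Q) (U : Submodule K P) (U' : Submodule K Q)
    (h : ∀ x, x ∈ U ↔ E x ∈ U') (x : U) : (subEq E U U' h x : Q) = E x := rfl

end Lin

variable {K : Type v} [Field K] {ι : Type} [Fintype ι] [DecidableEq ι] {A : TSys K ι}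
  {M N L Y V : Ob ι}

section

variable {P Q P' Q' : Type} [Fintype P] [DecidableEq P] [Fintype Q]
  [DecidableEq Q] [Fintype P'] [DecidableEq P'] [Fintype Q'] [DecidableEq Q']

lemma TSys.mem_iff (e : P ≃ P') (f : Q ≃ Q') {x : (P → ι) → (Q → ι) → K}
    {y : (P' → ι) → (Q' → ι) → K} (h : ∀ a b, y a b = x (a ∘ e) (b ∘ f)) :
    x ∈ A.S P Q ↔ y ∈ A.S P' Q' := by
  refine ⟨fun hx => A.mem_of e f hx h, fun hy => A.mem_of e.symm f.symm hy fun a b => ?_⟩
  rw [h]
  congr 1
  · funext i; simp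
  · funext i; simp

/-- The pairing of tensors. -/
noncomputable def tpair (A : TSys K ι) (P Q : Type) [Fintype P] [DecidableEq P] [Fintype Q]
    [DecidableEq Q] : A.S P Q →ₗ[K] Module.Dual K (A.S Q P) where
  toFun s :=
    { toFun := fun t => ∑ a, ∑ b, (s : (P → ι) → (Q → ι) → K) a b *
        (t : (Q → ι) → (P → ι) → K) b a
      map_add' := fun t t' => by
        simp only [Submodule.coe_add, Pi.add_apply, mul_add, Finset.sum_add_distrib]
      map_smul' := fun c t => by
        simp only [Submodule.coe_smul, Pi.smul_apply, smul_eq_mul, RingHom.id_apply,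
          Finset.mul_sum]
        exact Finset.sum_congr rfl fun a _ => Finset.sum_congr rfl fun b _ => by ring }
  map_add' s s' := by
    apply LinearMap.ext
    intro t
    simp only [LinearMap.coe_mk, AddHom.coe_mk, LinearMap.add_apply, Submodule.coe_add,
      Pi.add_apply, add_mul, Finset.sum_add_distrib]
  map_smul' c s := by
    apply LinearMap.ext
    intro t
    simp only [LinearMap.coe_mk, AddHom.coe_mk, LinearMap.smul_apply, Submodule.coe_smul,
      Pi.smul_apply, smul_eq_mul, RingHom.id_apply, Finset.mul_sum]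
    exact Finset.sum_congr rfl fun a _ => Finset.sum_congr rfl fun b _ => by ring

lemma tpair_apply (s : A.S P Q) (t : A.S Q P) : tpair A P Q s t =
    ∑ a, ∑ b, (s : (P → ι) → (Q → ι) → K) a b * (t : (Q → ι) → (P → ι) → K) b a := rfl

/-- The rank of the pairing of tensors. -/
noncomputable def rr (A : TSys K ι) (P Q : Type) [Fintype P] [DecidableEq P] [Fintype Q]
    [DecidableEq Q] : ℕ := finrank K (LinearMap.range (tpair A P Q))

/-- Reindexing as an equivalence. -/
def reE (e : P ≃ P') (f : Q ≃ Q') :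
    ((P → ι) → (Q → ι) → K) ≃ₗ[K] ((P' → ι) → (Q' → ι) → K) where
  toFun x a b := x (a ∘ e) (b ∘ f)
  invFun y a b := y (a ∘ e.symm) (b ∘ f.symm)
  map_add' x y := rfl
  map_smul' c x := rfl
  left_inv x := by
    funext a b
    simp [Function.comp_def]
  right_inv x := by
    funext a b
    simp [Function.comp_def]

lemma rr_congr (e : P ≃ P') (f : Q ≃ Q') : rr A P Q = rr A P' Q' := by
  refine rank_congr _ _ (subEq (reE e f) _ _ fun x => A.mem_iff e f fun a b => rfl)
    (subEq (reE f e) _ _ fun x => A.mem_iff f e fun a b => rfl) fun s t => ?_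
  rw [tpair_apply, tpair_apply]
  refine Fintype.sum_equiv (e.arrowCongr (Equiv.refl ι)) _ _ fun a => ?_
  refine Fintype.sum_equiv (f.arrowCongr (Equiv.refl ι)) _ _ fun b => ?_
  rw [subEq_coe, subEq_coe]
  change _ = (s : (P → ι) → (Q → ι) → K) ((e.arrowCongr (Equiv.refl ι) a) ∘ e)
    ((f.arrowCongr (Equiv.refl ι) b) ∘ f) * (t : (Q → ι) → (P → ι) → K)
      ((f.arrowCongr (Equiv.refl ι) b) ∘ f) ((e.arrowCongr (Equiv.refl ι) a) ∘ e)
  have h1 : (e.arrowCongr (Equiv.refl ι) a) ∘ e = a := by funext i; simp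
  have h2 : (f.arrowCongr (Equiv.refl ι) b) ∘ f = b := by funext i; simp
  rw [h1, h2]

end

/-- The pairing of homomorphisms. -/
noncomputable def bm (A : TSys K ι) (M N : Ob ι) (H : Matrix N.X N.X K) (F : Matrix M.X M.X K) :
    THom A M N →ₗ[K] Module.Dual K (THom A N M) where
  toFun x :=
    { toFun := fun y => Matrix.trace ((y : Matrix M.X N.X K) * H * (x : Matrix N.X M.X K) * F)
      map_add' := fun y y' => by
        rw [Submodule.coe_add, Matrix.add_mul, Matrix.add_mul, Matrix.add_mul, Matrix.trace_add]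
      map_smul' := fun c y => by
        rw [Submodule.coe_smul, Matrix.smul_mul, Matrix.smul_mul, Matrix.smul_mul,
          Matrix.trace_smul, RingHom.id_apply] }
  map_add' x x' := by
    apply LinearMap.ext
    intro y
    simp only [LinearMap.coe_mk, AddHom.coe_mk, LinearMap.add_apply, Submodule.coe_add,
      Matrix.mul_add, Matrix.add_mul, Matrix.trace_add]
  map_smul' c x := by
    apply LinearMap.ext
    intro y
    simp only [LinearMap.coe_mk, AddHom.coe_mk, LinearMap.smul_apply, Submodule.coe_smul,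
      Matrix.mul_smul, Matrix.smul_mul, Matrix.trace_smul, RingHom.id_apply]

lemma bm_apply (H : Matrix N.X N.X K) (F : Matrix M.X M.X K) (x : THom A M N) (y : THom A N M) :
    bm A M N H F x y =
      Matrix.trace ((y : Matrix M.X N.X K) * H * (x : Matrix N.X M.X K) * F) := rfl

/-- The rank of the pairing of homomorphisms. -/
noncomputable def mk (A : TSys K ι) (M N : Ob ι) (H : Matrix N.X N.X K) (F : Matrix M.X M.X K) :
    ℕ := finrank K (LinearMap.range (bm A M N H F))

/-- The homomorphisms as linear maps. -/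
noncomputable def lin (A : TSys K ι) (M N : Ob ι) : Submodule K ((M.X → K) →ₗ[K] (N.X → K)) :=
  (THom A M N).map (Matrix.toLin' : Matrix N.X M.X K ≃ₗ[K] _).toLinearMap

lemma mem_lin {f : (M.X → K) →ₗ[K] (N.X → K)} :
    f ∈ lin A M N ↔ LinearMap.toMatrix' f ∈ THom A M N := by
  constructor
  · rintro ⟨F, hF, rfl⟩
    have h : LinearMap.toMatrix' (Matrix.toLin' F) = F := LinearMap.toMatrix'_toLin' F
    change LinearMap.toMatrix' (Matrix.toLin' F) ∈ THom A M N
    rw [h]
    exact hF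
  · intro h
    exact ⟨_, h, Matrix.toLin'_toMatrix' f⟩

lemma toLin_mem {F : Matrix N.X M.X K} (hF : F ∈ THom A M N) : Matrix.toLin' F ∈ lin A M N :=
  ⟨F, hF, rfl⟩

/-- The algebra of endomorphisms. -/
noncomputable def alg (A : TSys K ι) (M : Ob ι) : Subalgebra K (Module.End K (M.X → K)) where
  carrier := {f | f ∈ lin A M M}
  mul_mem' := by
    rintro _ _ ⟨F, hF, rfl⟩ ⟨G, hG, rfl⟩
    exact ⟨F * G, THom.mul hF hG, Matrix.toLin'_mul F G⟩
  one_mem' := ⟨1, THom.one, Matrix.toLin'_one⟩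
  add_mem' := fun h h' => (lin A M M).add_mem h h'
  zero_mem' := (lin A M M).zero_mem
  algebraMap_mem' := fun c => by
    have h1 : (algebraMap K (Module.End K (M.X → K))) c = c • Matrix.toLin' 1 := by
      rw [Matrix.toLin'_one]
      rfl
    have h2 := Submodule.smul_mem (lin A M M) c (toLin_mem (A := A) (THom.one (A := A) (M := M)))
    rw [← h1] at h2
    exact h2

lemma mem_alg {f : Module.End K (M.X → K)} : f ∈ alg A M ↔ f ∈ lin A M M := Iff.rfl

lemma toSub_alg : Subalgebra.toSubmodule (alg A M) = lin A M M := rfl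

lemma lin_comp {f : (M.X → K) →ₗ[K] (N.X → K)} {g : (N.X → K) →ₗ[K] (L.X → K)}
    (hg : g ∈ lin A N L) (hf : f ∈ lin A M N) : g ∘ₗ f ∈ lin A M L := by
  obtain ⟨F, hF, rfl⟩ := hf
  obtain ⟨G, hG, rfl⟩ := hg
  exact ⟨G * F, THom.mul hG hF, Matrix.toLin'_mul G F⟩

lemma duo (A : TSys K ι) (M N : Ob ι) : Duo (alg A M) (alg A N) (lin A M N) (lin A N M) where
  yx x hx y hy := lin_comp hy hx
  xy x hx y hy := lin_comp hx hy
  hx h hh x hx := lin_comp hh hx
  xf f hf x hx := lin_comp hx hf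
  fy f hf y hy := lin_comp hf hy
  yh h hh y hy := lin_comp hy hh

lemma toLin_mem_iff {F : Matrix N.X M.X K} :
    F ∈ THom A M N ↔ (Matrix.toLin' : Matrix N.X M.X K ≃ₗ[K] _) F ∈ lin A M N := by
  rw [mem_lin]
  have h : LinearMap.toMatrix' (Matrix.toLin' F) = F := LinearMap.toMatrix'_toLin' F
  rw [h]


lemma bt_congr {V₁ V₂ : Type*} [AddCommGroup V₁] [Module K V₁] [AddCommGroup V₂] [Module K V₂]
    [Module.Finite K V₁] [Module.Finite K V₂] {P Q : Type*} [AddCommGroup P] [Module K P]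
    [AddCommGroup Q] [Module K Q] [Module.Finite K Q] (β : P →ₗ[K] Module.Dual K Q)
    (P' : Submodule K (V₁ →ₗ[K] V₂)) (Q' : Submodule K (V₂ →ₗ[K] V₁)) (h : End K V₂)
    (f : End K V₁) (φ : P ≃ₗ[K] P') (ψ : Q ≃ₗ[K] Q')
    (hh : ∀ x y, β x y = LinearMap.trace K V₁ ((ψ y : V₂ →ₗ[K] V₁) ∘ₗ h ∘ₗ
      (φ x : V₁ →ₗ[K] V₂) ∘ₗ f)) :
    finrank K (LinearMap.range β) = mu P' Q' h f :=
  rank_congr β (bt P' Q' h f) φ ψ hh

lemma mu_eq_mk (H : Matrix N.X N.X K) (F : Matrix M.X M.X K) :
    mu (lin A M N) (lin A N M) (Matrix.toLin' H) (Matrix.toLin' F) = mk A M N H F := by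
  let φ : THom A M N ≃ₗ[K] lin A M N :=
    subEq Matrix.toLin' (THom A M N) (lin A M N) fun x => toLin_mem_iff
  let ψ : THom A N M ≃ₗ[K] lin A N M :=
    subEq Matrix.toLin' (THom A N M) (lin A N M) fun x => toLin_mem_iff
  refine (bt_congr (bm A M N H F) (lin A M N) (lin A N M) (Matrix.toLin' H)
    (Matrix.toLin' F) φ ψ fun x y => ?_).symm
  have h1 : (φ x : (M.X → K) →ₗ[K] (N.X → K)) = Matrix.toLin' (x : Matrix N.X M.X K) := rfl
  have h2 : (ψ y : (N.X → K) →ₗ[K] (M.X → K)) = Matrix.toLin' (y : Matrix M.X N.X K) := rfl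
  rw [bm_apply, h1, h2, ← Matrix.toLin'_mul, ← Matrix.toLin'_mul,
    ← Matrix.toLin'_mul, Matrix.trace_toLin'_eq, Matrix.mul_assoc, Matrix.mul_assoc]

lemma mu_eq_mk' (h : Module.End K (N.X → K)) (f : Module.End K (M.X → K)) :
    mu (lin A M N) (lin A N M) h f =
      mk A M N (LinearMap.toMatrix' h) (LinearMap.toMatrix' f) := by
  rw [← mu_eq_mk, Matrix.toLin'_toMatrix', Matrix.toLin'_toMatrix']

/-- The total tensors. -/
def totE (M N : Ob ι) : (N.I ⊕ M.J → ι) × (N.J ⊕ M.I → ι) ≃ N.X × M.X where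
  toFun c := (N.e.symm (c.1 ∘ Sum.inl, c.2 ∘ Sum.inl), M.e.symm (c.2 ∘ Sum.inr, c.1 ∘ Sum.inr))
  invFun p := (Sum.elim (N.e p.1).1 (M.e p.2).2, Sum.elim (N.e p.1).2 (M.e p.2).1)
  left_inv := by
    rintro ⟨a, b⟩
    simp [Sum.elim_comp_inl_inr]
  right_inv := by
    rintro ⟨n, m⟩
    simp

lemma mk_one : mk A M N 1 1 = rr A (N.I ⊕ M.J) (N.J ⊕ M.I) := by
  refine rank_congr _ _ (subEq (hat M N) _ _ fun x => Iff.rfl)
    (subEq ((hat N M).trans (reE (Equiv.sumComm M.I N.J) (Equiv.sumComm M.J N.I))) _ _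
      fun x => A.mem_iff (Equiv.sumComm M.I N.J) (Equiv.sumComm M.J N.I) fun a b => rfl)
    fun x y => ?_
  rw [bm_apply, tpair_apply, Matrix.mul_one, Matrix.mul_one]
  have h1 : Matrix.trace ((y : Matrix M.X N.X K) * (x : Matrix N.X M.X K)) =
      ∑ p : N.X × M.X, (x : Matrix N.X M.X K) p.1 p.2 * (y : Matrix M.X N.X K) p.2 p.1 := by
    rw [Matrix.trace_mul_comm, Fintype.sum_prod_type]
    rfl
  rw [h1, ← Fintype.sum_prod_type', ← Equiv.sum_comp (totE M N)]
  rfl

end Pool.Agent.R940
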