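import Pool.Agent.R940.TnB

/-!
# Bending of indices, and the multiplicity bound
-/

set_option linter.unusedVariables false
set_option linter.unusedSectionVars false

namespace Pool.Agent.R940

open Module Pool.Agent.Y163 Matrix

universe v

variable {K : Type v} [Field K] {ι : Type} [Fintype ι] [DecidableEq ι] {A : TSys K ι}
  {M N L Y V : Ob ι}

/-- Rearrangement. -/
def eqC (A B C : Type) : (A ⊕ B) ⊕ C ≃ B ⊕ (A ⊕ C) where
  toFun := Sum.elim (Sum.elim (fun a => Sum.inr (Sum.inl a)) fun b => Sum.inl b)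
    fun c => Sum.inr (Sum.inr c)
  invFun := Sum.elim (fun b => Sum.inl (Sum.inr b))
    (Sum.elim (fun a => Sum.inl (Sum.inl a)) fun c => Sum.inr c)
  left_inv := by rintro ((_ | _) | _) <;> rfl
  right_inv := by rintro (_ | (_ | _)) <;> rfl

/-- Bending. -/
def bendA (K : Type v) [Field K] (Y V : Ob ι) :
    Matrix (Y.tmul V).X V.X K ≃ₗ[K] Matrix V.X (Y.dual.tmul V).X K where
  toFun x := fun b p => x (p.1, b) p.2
  invFun x := fun p a => x p.2 (p.1, a)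
  map_add' x y := rfl
  map_smul' c x := rfl
  left_inv x := rfl
  right_inv x := rfl

/-- Bending. -/
def bendB (K : Type v) [Field K] (Y V : Ob ι) :
    Matrix V.X (Y.tmul V).X K ≃ₗ[K] Matrix (Y.dual.tmul V).X V.X K where
  toFun x := fun p b => x p.2 (p.1, b)
  invFun x := fun a p => x (p.1, a) p.2
  map_add' x y := rfl
  map_smul' c x := rfl
  left_inv x := rfl
  right_inv x := rfl

lemma bendA_mem (x : Matrix (Y.tmul V).X V.X K) :
    x ∈ THom A V (Y.tmul V) ↔ bendA K Y V x ∈ THom A (Y.dual.tmul V) V := by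
  have h : ∀ (p : V.I ⊕ (Y.I ⊕ V.J) → ι) (q : V.J ⊕ (Y.J ⊕ V.I) → ι),
      hat (Y.dual.tmul V) V (bendA K Y V x) p q =
        hat V (Y.tmul V) x (p ∘ eqC Y.I V.I V.J) (q ∘ eqC Y.J V.J V.I) := fun p q => rfl
  exact A.mem_iff (P := (Y.I ⊕ V.I) ⊕ V.J) (Q := (Y.J ⊕ V.J) ⊕ V.I)
    (P' := V.I ⊕ (Y.I ⊕ V.J)) (Q' := V.J ⊕ (Y.J ⊕ V.I)) (eqC Y.I V.I V.J)
    (eqC Y.J V.J V.I) h

lemma bendB_mem (x : Matrix V.X (Y.tmul V).X K) :
    x ∈ THom A (Y.tmul V) V ↔ bendB K Y V x ∈ THom A V (Y.dual.tmul V) := by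
  have h : ∀ (p : (Y.J ⊕ V.I) ⊕ V.J → ι) (q : (Y.I ⊕ V.J) ⊕ V.I → ι),
      hat V (Y.dual.tmul V) (bendB K Y V x) p q =
        hat (Y.tmul V) V x (p ∘ (eqC Y.J V.I V.J).symm) (q ∘ (eqC Y.I V.J V.I).symm) :=
    fun p q => rfl
  exact A.mem_iff (P := V.I ⊕ (Y.J ⊕ V.J)) (Q := V.J ⊕ (Y.I ⊕ V.I))
    (P' := (Y.J ⊕ V.I) ⊕ V.J) (Q' := (Y.I ⊕ V.J) ⊕ V.I) (eqC Y.J V.I V.J).symm
    (eqC Y.I V.J V.I).symm h

/-- Sums over products. -/
lemma trace_five {X Y : Type} [Fintype X] [Fintype Y] (y : X → Y → X → K) (π : Y → Y → K)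
    (f : X → X → K) (x : Y → X → X → K) (g : X → X → K) :
    ∑ a, ∑ a', (∑ p' : Y × X, (∑ p : Y × X, y a p.1 p.2 * (π p.1 p'.1 * f p.2 p'.2)) *
      x p'.1 p'.2 a') * g a' a =
    ∑ b, ∑ b', (∑ p' : Y × X, (∑ p : Y × X, x p.1 b p.2 * (π p'.1 p.1 * g p.2 p'.2)) *
      y p'.2 p'.1 b') * f b' b := by
  have h1 : ∑ a, ∑ a', (∑ p' : Y × X, (∑ p : Y × X, y a p.1 p.2 * (π p.1 p'.1 * f p.2 p'.2)) *
      x p'.1 p'.2 a') * g a' a = ∑ t : X × X × (Y × X) × (Y × X),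
        y t.1 t.2.2.2.1 t.2.2.2.2 * (π t.2.2.2.1 t.2.2.1.1 * f t.2.2.2.2 t.2.2.1.2) *
          x t.2.2.1.1 t.2.2.1.2 t.2.1 * g t.2.1 t.1 := by
    conv_rhs => rw [Fintype.sum_prod_type]
    refine Finset.sum_congr rfl fun a _ => ?_
    conv_rhs => rw [Fintype.sum_prod_type]
    refine Finset.sum_congr rfl fun a' _ => ?_
    rw [Finset.sum_mul]
    conv_rhs => rw [Fintype.sum_prod_type]
    refine Finset.sum_congr rfl fun p' _ => ?_
    rw [Finset.sum_mul, Finset.sum_mul]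
  have h2 : ∑ b, ∑ b', (∑ p' : Y × X, (∑ p : Y × X, x p.1 b p.2 * (π p'.1 p.1 * g p.2 p'.2)) *
      y p'.2 p'.1 b') * f b' b = ∑ t : X × X × (Y × X) × (Y × X),
        x t.2.2.2.1 t.1 t.2.2.2.2 * (π t.2.2.1.1 t.2.2.2.1 * g t.2.2.2.2 t.2.2.1.2) *
          y t.2.2.1.2 t.2.2.1.1 t.2.1 * f t.2.1 t.1 := by
    conv_rhs => rw [Fintype.sum_prod_type]
    refine Finset.sum_congr rfl fun a _ => ?_
    conv_rhs => rw [Fintype.sum_prod_type]
    refine Finset.sum_congr rfl fun a' _ => ?_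
    rw [Finset.sum_mul]
    conv_rhs => rw [Fintype.sum_prod_type]
    refine Finset.sum_congr rfl fun p' _ => ?_
    rw [Finset.sum_mul, Finset.sum_mul]
  rw [h1, h2]
  -- `t = (a, a', (η', b'), (η, b))` is sent to `(b', b, (η, a), (η', a'))`
  let E : X × X × (Y × X) × (Y × X) ≃ X × X × (Y × X) × (Y × X) :=
    { toFun := fun t => (t.2.2.1.2, t.2.2.2.2, (t.2.2.2.1, t.1), (t.2.2.1.1, t.2.1))
      invFun := fun t => (t.2.2.1.2, t.2.2.2.2, (t.2.2.2.1, t.1), (t.2.2.1.1, t.2.1))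
      left_inv := fun t => rfl
      right_inv := fun t => rfl }
  refine Fintype.sum_equiv E _ _ fun t => ?_
  simp only [E, Equiv.coe_fn_mk]
  ring

lemma mk_bend (π : Matrix Y.X Y.X K) (f g : Matrix V.X V.X K) :
    mk A V (Y.tmul V) (kr π f) g =
      mk A V (Y.dual.tmul V) (kr (M := Y.dual) (N := Y.dual) (Matrix.transpose π) g) f := by
  refine rank_swap (bm A V (Y.tmul V) (kr π f) g)
    (bm A V (Y.dual.tmul V) (kr (M := Y.dual) (N := Y.dual) (Matrix.transpose π) g) f)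
    (subEq (bendA K Y V) _ _ bendA_mem) (subEq (bendB K Y V) _ _ bendB_mem) fun x y => ?_
  exact trace_five (fun a p b => (y : Matrix V.X (Y.tmul V).X K) a (p, b)) π f
    (fun p b a => (x : Matrix (Y.tmul V).X V.X K) (p, b) a) g

/-- Rearrangement. -/
def eqD (A B C : Type) : (A ⊕ B) ⊕ C ≃ A ⊕ (C ⊕ B) where
  toFun := Sum.elim (Sum.elim (fun a => Sum.inl a) fun b => Sum.inr (Sum.inr b))
    fun c => Sum.inr (Sum.inl c)
  invFun := Sum.elim (fun a => Sum.inl (Sum.inl a))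
    (Sum.elim (fun c => Sum.inr c) fun b => Sum.inl (Sum.inr b))
  left_inv := by rintro ((_ | _) | _) <;> rfl
  right_inv := by rintro (_ | (_ | _)) <;> rfl

/-- Rearrangement. -/
def eqE (A B C : Type) : A ⊕ (B ⊕ C) ≃ (A ⊕ C) ⊕ B where
  toFun := Sum.elim (fun a => Sum.inl (Sum.inl a))
    (Sum.elim (fun b => Sum.inr b) fun c => Sum.inl (Sum.inr c))
  invFun := Sum.elim (Sum.elim (fun a => Sum.inl a) fun c => Sum.inr (Sum.inr c))
    fun b => Sum.inr (Sum.inl b)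
  left_inv := by rintro (_ | (_ | _)) <;> rfl
  right_inv := by rintro ((_ | _) | _) <;> rfl

/-- Bending. -/
def bendC (K : Type v) [Field K] (Y V : Ob ι) :
    Matrix (V.tmul V.dual).X Y.X K ≃ₗ[K] Matrix V.X (Y.tmul V).X K where
  toFun x := fun b p => x (b, p.2) p.1
  invFun x := fun p η => x p.1 (η, p.2)
  map_add' x y := rfl
  map_smul' c x := rfl
  left_inv x := rfl
  right_inv x := rfl

/-- Bending. -/
def bendD (K : Type v) [Field K] (Y V : Ob ι) :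
    Matrix Y.X (V.tmul V.dual).X K ≃ₗ[K] Matrix (Y.tmul V).X V.X K where
  toFun x := fun p b => x p.1 (b, p.2)
  invFun x := fun η p => x (η, p.2) p.1
  map_add' x y := rfl
  map_smul' c x := rfl
  left_inv x := rfl
  right_inv x := rfl

lemma bendC_mem (x : Matrix (V.tmul V.dual).X Y.X K) :
    x ∈ THom A Y (V.tmul V.dual) ↔ bendC K Y V x ∈ THom A (Y.tmul V) V := by
  have h : ∀ (p : V.I ⊕ (Y.J ⊕ V.J) → ι) (q : V.J ⊕ (Y.I ⊕ V.I) → ι),
      hat (Y.tmul V) V (bendC K Y V x) p q =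
        hat Y (V.tmul V.dual) x (p ∘ eqD V.I V.J Y.J) (q ∘ eqD V.J V.I Y.I) := fun p q => rfl
  exact A.mem_iff (P := (V.I ⊕ V.J) ⊕ Y.J) (Q := (V.J ⊕ V.I) ⊕ Y.I)
    (P' := V.I ⊕ (Y.J ⊕ V.J)) (Q' := V.J ⊕ (Y.I ⊕ V.I)) (eqD V.I V.J Y.J)
    (eqD V.J V.I Y.I) h

lemma bendD_mem (x : Matrix Y.X (V.tmul V.dual).X K) :
    x ∈ THom A (V.tmul V.dual) Y ↔ bendD K Y V x ∈ THom A V (Y.tmul V) := by
  have h : ∀ (p : (Y.I ⊕ V.I) ⊕ V.J → ι) (q : (Y.J ⊕ V.J) ⊕ V.I → ι),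
      hat V (Y.tmul V) (bendD K Y V x) p q =
        hat (V.tmul V.dual) Y x (p ∘ eqE Y.I V.J V.I) (q ∘ eqE Y.J V.I V.J) := fun p q => rfl
  exact A.mem_iff (P := Y.I ⊕ (V.J ⊕ V.I)) (Q := Y.J ⊕ (V.I ⊕ V.J))
    (P' := (Y.I ⊕ V.I) ⊕ V.J) (Q' := (Y.J ⊕ V.J) ⊕ V.I) (eqE Y.I V.J V.I)
    (eqE Y.J V.I V.J) h

lemma kr_one_mul (π : Matrix Y.X Y.X K) (z : Matrix (Y.tmul V).X V.X K) (p : (Y.tmul V).X)
    (b : V.X) : (kr π (1 : Matrix V.X V.X K) * z) p b = ∑ η, π p.1 η * z (η, p.2) b := by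
  have h1 : (kr π (1 : Matrix V.X V.X K) * z) p b = ∑ r : Y.X × V.X,
      (π p.1 r.1 * (1 : Matrix V.X V.X K) p.2 r.2) * z (r.1, r.2) b := rfl
  rw [h1, Fintype.sum_prod_type]
  refine Finset.sum_congr rfl fun η _ => ?_
  rw [Finset.sum_eq_single p.2]
  · rw [Matrix.one_apply_eq, mul_one]
  · intro c _ hc
    rw [Matrix.one_apply_ne (Ne.symm hc), mul_zero, zero_mul]
  · intro h
    exact absurd (Finset.mem_univ _) h

lemma trace_four {X Y : Type} [Fintype X] [Fintype Y] (y : Y → X → X → K) (π : Y → Y → K)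
    (x : X → X → Y → K) :
    ∑ η, ∑ η', (∑ p : X × X, y η p.1 p.2 * x p.1 p.2 η') * π η' η =
      ∑ b, ∑ p : Y × X, x b p.2 p.1 * ∑ η, π p.1 η * y η b p.2 := by
  have h1 : ∑ η, ∑ η', (∑ p : X × X, y η p.1 p.2 * x p.1 p.2 η') * π η' η =
      ∑ t : Y × Y × (X × X), y t.1 t.2.2.1 t.2.2.2 * x t.2.2.1 t.2.2.2 t.2.1 * π t.2.1 t.1 := by
    conv_rhs => rw [Fintype.sum_prod_type]
    refine Finset.sum_congr rfl fun η _ => ?_
    conv_rhs => rw [Fintype.sum_prod_type]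
    refine Finset.sum_congr rfl fun η' _ => ?_
    rw [Finset.sum_mul]
  have h2 : ∑ b, ∑ p : Y × X, x b p.2 p.1 * ∑ η, π p.1 η * y η b p.2 =
      ∑ t : X × (Y × X) × Y, x t.1 t.2.1.2 t.2.1.1 * (π t.2.1.1 t.2.2 * y t.2.2 t.1 t.2.1.2) := by
    conv_rhs => rw [Fintype.sum_prod_type]
    refine Finset.sum_congr rfl fun b _ => ?_
    conv_rhs => rw [Fintype.sum_prod_type]
    refine Finset.sum_congr rfl fun p _ => ?_
    rw [Finset.mul_sum]
  rw [h1, h2]
  let E : Y × Y × (X × X) ≃ X × (Y × X) × Y :=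
    { toFun := fun t => (t.2.2.1, (t.2.1, t.2.2.2), t.1)
      invFun := fun t => (t.2.2, t.2.1.1, (t.1, t.2.1.2))
      left_inv := fun t => rfl
      right_inv := fun t => rfl }
  refine Fintype.sum_equiv E _ _ fun t => ?_
  simp only [E, Equiv.coe_fn_mk]
  ring

lemma mk_sq (π : Matrix Y.X Y.X K) :
    mk A Y (V.tmul V.dual) 1 π = mk A V (Y.tmul V) (kr π (1 : Matrix V.X V.X K)) 1 := by
  refine rank_swap (bm A Y (V.tmul V.dual) 1 π)
    (bm A V (Y.tmul V) (kr π (1 : Matrix V.X V.X K)) 1)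
    (subEq (bendC K Y V) _ _ bendC_mem) (subEq (bendD K Y V) _ _ bendD_mem) fun x y => ?_
  rw [bm_apply, bm_apply, subEq_coe, subEq_coe, Matrix.mul_one, Matrix.mul_one,
    Matrix.mul_assoc (bendC K Y V (x : Matrix (V.tmul V.dual).X Y.X K))]
  have h2 : Matrix.trace (bendC K Y V (x : Matrix (V.tmul V.dual).X Y.X K) *
      (kr π (1 : Matrix V.X V.X K) * bendD K Y V (y : Matrix Y.X (V.tmul V.dual).X K))) =
      ∑ b, ∑ p : Y.X × V.X, (x : Matrix (V.tmul V.dual).X Y.X K) (b, p.2) p.1 *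
        ∑ η, π p.1 η * (y : Matrix Y.X (V.tmul V.dual).X K) η (b, p.2) :=
    Finset.sum_congr rfl fun b _ => Finset.sum_congr rfl fun p _ =>
      congrArg (fun s => (x : Matrix (V.tmul V.dual).X Y.X K) (b, p.2) p.1 * s)
        (kr_one_mul π (bendD K Y V (y : Matrix Y.X (V.tmul V.dual).X K)) p b)
  rw [h2]
  exact trace_four (fun η b b' => (y : Matrix Y.X (V.tmul V.dual).X K) η (b, b')) π
    (fun b b' η => (x : Matrix (V.tmul V.dual).X Y.X K) (b, b') η)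

/-- Products of tensor products. -/
lemma kr_mul {M' N' L' : Ob ι} (F : Matrix N.X M.X K) (G : Matrix N'.X M'.X K)
    (F' : Matrix L.X N.X K) (G' : Matrix L'.X N'.X K) :
    kr F' G' * kr F G = kr (F' * F) (G' * G) := by
  funext p q
  have h1 : (kr F' G' * kr F G) p q = ∑ r : N.X × N'.X,
      (F' p.1 r.1 * G' p.2 r.2) * (F r.1 q.1 * G r.2 q.2) := rfl
  have h2 : kr (F' * F) (G' * G) p q =
      (∑ n, F' p.1 n * F n q.1) * ∑ n', G' p.2 n' * G n' q.2 := rfl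
  rw [h1, h2, Fintype.sum_prod_type, Finset.sum_mul]
  refine Finset.sum_congr rfl fun n _ => ?_
  rw [Finset.mul_sum]
  refine Finset.sum_congr rfl fun n' _ => ?_
  ring

lemma kr_trace (π : Matrix Y.X Y.X K) (F : Matrix V.X V.X K) :
    Matrix.trace (kr π F) = Matrix.trace π * Matrix.trace F := by
  have h1 : Matrix.trace (kr π F) = ∑ r : Y.X × V.X, π r.1 r.1 * F r.2 r.2 := rfl
  rw [h1, Fintype.sum_prod_type, Matrix.trace, Matrix.trace, Finset.sum_mul]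
  refine Finset.sum_congr rfl fun n _ => ?_
  rw [Finset.mul_sum]
  rfl

lemma kr_sum {I : Type*} (s : Finset I) (π : Matrix Y.X Y.X K) (F : I → Matrix V.X V.X K) :
    ∑ i ∈ s, kr π (F i) = kr π (∑ i ∈ s, F i) := by
  funext p q
  have h2 : kr π (∑ i ∈ s, F i) p q = π p.1 q.1 * (∑ i ∈ s, F i) p.2 q.2 := rfl
  have h3 : (∑ i ∈ s, F i) p.2 q.2 = ∑ i ∈ s, F i p.2 q.2 := Matrix.sum_apply _ _ _ _
  rw [h2, Matrix.sum_apply, h3, Finset.mul_sum]
  rfl

/-- The rank of the tensor product of idempotents. -/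
lemma rank_kr [CharZero K] {π : Matrix Y.X Y.X K} {F : Matrix V.X V.X K} (hπ : π * π = π)
    (hF : F * F = F) : finrank K (LinearMap.range (Matrix.toLin' (kr π F))) =
      finrank K (LinearMap.range (Matrix.toLin' π)) *
        finrank K (LinearMap.range (Matrix.toLin' F)) := by
  have h1 : ∀ {X : Type} [Fintype X] [DecidableEq X] (G : Matrix X X K), G * G = G →
      Matrix.trace G = (finrank K (LinearMap.range (Matrix.toLin' G)) : K) := by
    intro X _ _ G hG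
    rw [← Matrix.trace_toLin'_eq]
    apply trace_idem
    have := Matrix.toLin'_mul G G
    rw [hG] at this
    exact this.symm
  have h2 : kr π F * kr π F = kr π F := by rw [kr_mul, hπ, hF]
  have h3 := h1 (kr π F) h2
  rw [kr_trace, h1 π hπ, h1 F hF] at h3
  exact_mod_cast h3.symm

lemma toMat_mul {X : Type} [Fintype X] [DecidableEq X] (f g : Module.End K (X → K)) :
    LinearMap.toMatrix' (f * g) = LinearMap.toMatrix' f * LinearMap.toMatrix' g :=
  LinearMap.toMatrix'_comp f g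

/-- **The multiplicity bound.** -/
theorem mult_le [IsAlgClosed K] [CharZero K] {π : Matrix Y.X Y.X K} (hπ : π ∈ THom A Y Y)
    (hππ : π * π = π) : mk A Y (V.tmul V.dual) 1 π ≤
      finrank K (LinearMap.range (Matrix.toLin' π)) * nu (alg A V) := by
  obtain ⟨w⟩ := exists_wed (alg A V)
  have hmem : ∀ i, LinearMap.toMatrix' (w.e i) ∈ THom A V V := fun i => mem_lin.1 (w.e_mem i)
  have hπt : (Matrix.transpose π : Matrix Y.dual.X Y.dual.X K) ∈ THom A Y.dual Y.dual :=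
    THom.transpose hπ
  have hππt : (Matrix.transpose π : Matrix Y.dual.X Y.dual.X K) *
      (Matrix.transpose π : Matrix Y.dual.X Y.dual.X K) = Matrix.transpose π := by
    have := congrArg Matrix.transpose hππ
    rw [Matrix.transpose_mul] at this
    exact this
  have hE : ∀ i, LinearMap.toMatrix' (w.e i) * LinearMap.toMatrix' (w.e i) =
      LinearMap.toMatrix' (w.e i) := fun i => by
    rw [← toMat_mul, w.e_mul, if_pos rfl]
  have hid : ∀ {Z : Ob ι} {ϖ : Matrix Z.X Z.X K}, ϖ * ϖ = ϖ → ∀ i,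
      Matrix.toLin' (kr ϖ (LinearMap.toMatrix' (w.e i))) *
        Matrix.toLin' (kr ϖ (LinearMap.toMatrix' (w.e i))) =
      Matrix.toLin' (kr ϖ (LinearMap.toMatrix' (w.e i))) := by
    intro Z ϖ hϖ i
    have h1 := Matrix.toLin'_mul (kr ϖ (LinearMap.toMatrix' (w.e i)))
      (kr ϖ (LinearMap.toMatrix' (w.e i)))
    rw [kr_mul, hϖ, hE] at h1
    exact h1.symm
  have hrk : ∀ {Z : Ob ι} {ϖ : Matrix Z.X Z.X K}, ϖ * ϖ = ϖ → ∀ i,
      finrank K (LinearMap.range (Matrix.toLin' (kr ϖ (LinearMap.toMatrix' (w.e i))))) =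
        finrank K (LinearMap.range (Matrix.toLin' ϖ)) *
          finrank K (LinearMap.range (w.e i)) := by
    intro Z ϖ hϖ i
    rw [rank_kr hϖ (hE i), Matrix.toLin'_toMatrix']
  have hsym : ∀ i j, mu (lin A V (Y.tmul V)) (lin A (Y.tmul V) V)
        (Matrix.toLin' (kr π (LinearMap.toMatrix' (w.e i)))) (w.e j) =
      mu (lin A V (Y.dual.tmul V)) (lin A (Y.dual.tmul V) V)
        (Matrix.toLin' (kr (M := Y.dual) (N := Y.dual) (Matrix.transpose π)
          (LinearMap.toMatrix' (w.e j)))) (w.e i) := by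
    intro i j
    have h1 := mk_bend (A := A) π (LinearMap.toMatrix' (w.e i)) (LinearMap.toMatrix' (w.e j))
    rw [← mu_eq_mk, ← mu_eq_mk, Matrix.toLin'_toMatrix', Matrix.toLin'_toMatrix'] at h1
    exact h1
  have hkr : ∀ i, Matrix.toLin' (kr π (LinearMap.toMatrix' (w.e i))) ∈ alg A (Y.tmul V) :=
    fun i => toLin_mem (THom.tmul hπ (hmem i))
  have hkr' : ∀ i, Matrix.toLin' (kr (M := Y.dual) (N := Y.dual) (Matrix.transpose π)
      (LinearMap.toMatrix' (w.e i))) ∈ alg A (Y.dual.tmul V) :=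
    fun i => toLin_mem (THom.tmul hπt (hmem i))
  have hrt : finrank K (LinearMap.range (Matrix.toLin'
      (Matrix.transpose π : Matrix Y.dual.X Y.dual.X K))) =
      finrank K (LinearMap.range (Matrix.toLin' π)) := Matrix.rank_transpose π
  rw [mk_sq]
  have h0 : mk A V (Y.tmul V) (kr π (1 : Matrix V.X V.X K)) 1 ≤
      ∑ i, ∑ j, mu (lin A V (Y.tmul V)) (lin A (Y.tmul V) V)
        (Matrix.toLin' (kr π (LinearMap.toMatrix' (w.e i)))) (w.e j) := by
    have h1 := mu_sum_le (lin A V (Y.tmul V)) (lin A (Y.tmul V) V) Finset.univ Finset.univ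
      (fun i => Matrix.toLin' (kr π (LinearMap.toMatrix' (w.e i)))) w.e
    rw [← map_sum, kr_sum, ← map_sum, w.e_sum, mu_eq_mk'] at h1
    have h2 : LinearMap.toMatrix' (1 : Module.End K (V.X → K)) = 1 := LinearMap.toMatrix'_one
    rw [LinearMap.toMatrix'_toLin', h2] at h1
    exact h1
  refine h0.trans (w.schur _ _ ?_ ?_ ?_ ?_)
  · intro i j
    exact w.mu_le (duo A V (Y.tmul V)) (hkr i) j
  · intro i j
    rw [hsym, hsym (w.rep (w.κ i)) j]
    exact w.mu_le (duo A V (Y.dual.tmul V)) (hkr' j) i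
  · intro i
    have h1 := sum_mu_mul_rank_le (duo A V (Y.tmul V)) w.prims (hkr i) (hid hππ i)
    rw [hrk hππ] at h1
    exact h1
  · intro j
    have h1 := sum_mu_mul_rank_le (duo A V (Y.dual.tmul V)) w.prims (hkr' j) (hid hππt j)
    rw [hrk (Z := Y.dual) hππt, hrt] at h1
    refine le_trans (le_of_eq ?_) h1
    exact Finset.sum_congr rfl fun c _ => by rw [hsym]

end Pool.Agent.R940
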