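import Pool.Agent.R940.TnC
import Pool.Agent.Y163.Pow
import Pool.Agent.Y163.Idx

/-!
# The index law for systems of tensors
-/

set_option linter.unusedVariables false
set_option linter.unusedSectionVars false

namespace Pool.Agent.R940

open Module Pool.Agent.Y163 Matrix

universe v

variable {K : Type v} [Field K] {ι : Type} [Fintype ι] [DecidableEq ι] {A T : TSys K ι}
  {M N L Y V : Ob ι}

section

variable {P Q P' Q' : Type} [Fintype P] [DecidableEq P] [Fintype Q]
  [DecidableEq Q] [Fintype P'] [DecidableEq P'] [Fintype Q'] [DecidableEq Q']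

lemma rr_card (h : Fintype.card P = Fintype.card P') (h' : Fintype.card Q = Fintype.card Q') :
    rr A P Q = rr A P' Q' :=
  rr_congr (Fintype.equivOfCardEq h) (Fintype.equivOfCardEq h')

end

/-- The rank of the trace form on the endomorphisms of the `(n + 1)`-st tensor power. -/
noncomputable def al (A : TSys K ι) (n : ℕ) : ℕ := rr A (Fin (n + 1)) (Fin (n + 1))

/-- The endomorphisms of the tensor power. -/
def U (ι : Type) [Fintype ι] [DecidableEq ι] (n : ℕ) : Ob ι :=
  (Ob.pow ι (n + 1)).tmul (Ob.pow ι (n + 1)).dual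

lemma nu_eq (M : Ob ι) : nu (alg A M) = rr A (M.I ⊕ M.J) (M.J ⊕ M.I) := by
  rw [nu, toSub_alg, mu_eq_mk', ← mk_one]
  have h2 : LinearMap.toMatrix' (1 : Module.End K (M.X → K)) = 1 := LinearMap.toMatrix'_one
  rw [h2]

lemma al_eq_nu (n : ℕ) : al A n = nu (alg A (Ob.pow ι (n + 1))) := by
  rw [nu_eq]
  have h : ∀ (P Q : Type) [Fintype P] [DecidableEq P] [Fintype Q] [DecidableEq Q],
      Fintype.card P = n + 1 → Fintype.card Q = n + 1 → al A n = rr A P Q := by
    intro P Q _ _ _ _ hP hQ
    exact rr_card (by rw [Fintype.card_fin, hP]) (by rw [Fintype.card_fin, hQ])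
  apply h
  · change Fintype.card (Fin (n + 1) ⊕ Empty) = n + 1
    simp
  · change Fintype.card (Empty ⊕ Fin (n + 1)) = n + 1
    simp

lemma al_eq_mk (κ n : ℕ) : al A (κ + n + 1) = mk A (U ι κ) (U ι n) 1 1 := by
  rw [mk_one]
  have h : ∀ (P Q : Type) [Fintype P] [DecidableEq P] [Fintype Q] [DecidableEq Q],
      Fintype.card P = κ + n + 2 → Fintype.card Q = κ + n + 2 →
        al A (κ + n + 1) = rr A P Q := by
    intro P Q _ _ _ _ hP hQ
    exact rr_card (by rw [Fintype.card_fin, hP]) (by rw [Fintype.card_fin, hQ])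
  apply h
  · change Fintype.card ((Fin (n + 1) ⊕ Empty) ⊕ (Empty ⊕ Fin (κ + 1))) = κ + n + 2
    simp
    ring
  · change Fintype.card ((Empty ⊕ Fin (n + 1)) ⊕ (Fin (κ + 1) ⊕ Empty)) = κ + n + 2
    simp
    ring

lemma card_U (n : ℕ) : Fintype.card (U ι n).X = (Fintype.card ι ^ 2) ^ (n + 1) := by
  change Fintype.card ((Fin (n + 1) → ι) × (Fin (n + 1) → ι)) = _
  rw [Fintype.card_prod, Fintype.card_fun, Fintype.card_fin, ← pow_mul, mul_comm 2, pow_mul,
    pow_two]

variable [IsAlgClosed K] [CharZero K]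

lemma al_succ_le (n : ℕ) : al A (n + 1) ≤ Fintype.card ι ^ 2 * al A n := by
  have h1 := mult_le (A := A) (Y := U ι 0) (V := Ob.pow ι (n + 1)) THom.one (mul_one 1)
  rw [← al_eq_nu] at h1
  have h2 : finrank K (LinearMap.range (Matrix.toLin' (1 : Matrix (U ι 0).X (U ι 0).X K))) =
      Fintype.card ι ^ 2 := by
    rw [Matrix.toLin'_one, LinearMap.range_id, finrank_top, Module.finrank_fintype_fun_eq_card,
      card_U, zero_add, pow_one]
  rw [h2] at h1
  have h3 := al_eq_mk (A := A) 0 n
  rw [zero_add] at h3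
  rw [h3]
  exact h1

lemma al_sq_le (n : ℕ) : al A (n + 1) ^ 2 ≤ al A n * al A (n + 2) := by
  let V₁ : Ob ι := Ob.pow ι (n + 1)
  let V₂ : Ob ι := (Ob.pow ι (n + 2)).tmul (Ob.pow ι 1).dual
  have h : ∀ (m : ℕ) (P Q : Type) [Fintype P] [DecidableEq P] [Fintype Q] [DecidableEq Q],
      Fintype.card P = m + 1 → Fintype.card Q = m + 1 → rr A P Q = al A m := by
    intro m P Q _ _ _ _ hP hQ
    exact rr_card (by rw [Fintype.card_fin, hP]) (by rw [Fintype.card_fin, hQ])
  have h1 := mu_sq_le (duo A V₁ V₂)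
  have h2 : mu (lin A V₁ V₂) (lin A V₂ V₁) 1 1 = al A (n + 1) := by
    rw [mu_eq_mk']
    have e1 : LinearMap.toMatrix' (1 : Module.End K (V₁.X → K)) = 1 := LinearMap.toMatrix'_one
    have e2 : LinearMap.toMatrix' (1 : Module.End K (V₂.X → K)) = 1 := LinearMap.toMatrix'_one
    rw [e1, e2, mk_one]
    apply h
    · change Fintype.card ((Fin (n + 2) ⊕ Empty) ⊕ Empty) = n + 1 + 1
      simp
    · change Fintype.card ((Empty ⊕ Fin 1) ⊕ Fin (n + 1)) = n + 1 + 1
      simp
      ring
  have h3 : nu (alg A V₂) = al A (n + 2) := by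
    rw [nu_eq]
    apply h
    · change Fintype.card ((Fin (n + 2) ⊕ Empty) ⊕ (Empty ⊕ Fin 1)) = n + 2 + 1
      simp
    · change Fintype.card ((Empty ⊕ Fin 1) ⊕ (Fin (n + 2) ⊕ Empty)) = n + 2 + 1
      simp
      ring
  rw [h2, h3, ← al_eq_nu] at h1
  exact h1

/-- The permutations of the factors. -/
def prm (K : Type v) [Field K] (ι : Type) [Fintype ι] [DecidableEq ι] (n : ℕ) :
    Equiv.Perm (Fin (n + 1)) →* Module.End K ((Fin (n + 1) → ι) → K) where
  toFun σ := LinearMap.funLeft K K fun a : Fin (n + 1) → ι => a ∘ σ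
  map_one' := by
    apply LinearMap.ext
    intro f
    rfl
  map_mul' σ τ := by
    apply LinearMap.ext
    intro f
    rfl

omit [IsAlgClosed K] [CharZero K] in
lemma prm_apply (n : ℕ) (σ : Equiv.Perm (Fin (n + 1))) (f : (Fin (n + 1) → ι) → K)
    (a : Fin (n + 1) → ι) : prm K ι n σ f a = f (a ∘ σ) := rfl

omit [IsAlgClosed K] [CharZero K] in
lemma prm_mem (n : ℕ) (σ : Equiv.Perm (Fin (n + 1))) :
    (show Module.End K ((Ob.pow ι (n + 1)).X → K) from prm K ι n σ) ∈
      alg A (Ob.pow ι (n + 1)) := by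
  refine mem_alg.2 (mem_lin.2 ?_)
  have h : ∀ (a : Fin (n + 1) ⊕ Empty → ι) (b : Empty ⊕ Fin (n + 1) → ι),
      hat (Ob.pow ι (n + 1)) (Ob.pow ι (n + 1)) (LinearMap.toMatrix' (prm K ι n σ)) a b =
        (fun a b => if a = b then 1 else 0 : (Fin (n + 1) → ι) → (Fin (n + 1) → ι) → K)
          (a ∘ (σ.trans (Equiv.sumEmpty (Fin (n + 1)) Empty).symm))
          (b ∘ (Equiv.emptySum Empty (Fin (n + 1))).symm) := by
    intro a b
    have e1 : hat (Ob.pow ι (n + 1)) (Ob.pow ι (n + 1)) (LinearMap.toMatrix' (prm K ι n σ)) a b =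
        LinearMap.toMatrix' (prm K ι n σ) (a ∘ Sum.inl) (b ∘ Sum.inr) := rfl
    rw [e1, LinearMap.toMatrix'_apply, prm_apply, Pi.single_apply]
    rfl
  exact A.mem_of (P := Fin (n + 1)) (Q := Fin (n + 1)) (P' := Fin (n + 1) ⊕ Empty)
    (Q' := Empty ⊕ Fin (n + 1)) (σ.trans (Equiv.sumEmpty (Fin (n + 1)) Empty).symm)
    (Equiv.emptySum Empty (Fin (n + 1))).symm A.one h

omit [IsAlgClosed K] [CharZero K] in
/-- The commutant of the symmetric group. -/
lemma finrank_comm_prm_le (n : ℕ) :
    finrank K (comm (prm K ι n)) ≤ (n + 2) ^ (Fintype.card ι ^ 2) := by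
  classical
  have hcard : Fintype.card (ι × ι) = Fintype.card ι ^ 2 := by
    rw [Fintype.card_prod, pow_two]
  have hq : Fintype (Quotient (psetoid n (ι × ι))) := Fintype.ofFinite _
  rw [← hcard]
  refine le_trans ?_ (card_quot_le n (ι × ι))
  let F : comm (prm K ι n) →ₗ[K] (Quotient (psetoid n (ι × ι)) → K) :=
    { toFun := fun g q => (g : Module.End K ((Fin (n + 1) → ι) → K))
        (Pi.single (fun i => (q.out i).1) 1) (fun i => (q.out i).2)
      map_add' := fun g h => rfl
      map_smul' := fun c g => rfl }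
  have hinj : Function.Injective F := by
    rintro ⟨g₁, hg₁⟩ ⟨g₂, hg₂⟩ h00
    apply Subtype.ext
    change g₁ = g₂
    obtain ⟨g, hgdef⟩ : ∃ g, g = g₁ - g₂ := ⟨_, rfl⟩
    have hg : g ∈ comm (prm K ι n) := hgdef ▸ Submodule.sub_mem _ hg₁ hg₂
    have h0 : ∀ q : Quotient (psetoid n (ι × ι)), g (Pi.single (fun i => (q.out i).1) 1)
        (fun i => (q.out i).2) = 0 := by
      intro q
      have h1 : g₁ (Pi.single (fun i => (q.out i).1) 1) (fun i => (q.out i).2) =
        g₂ (Pi.single (fun i => (q.out i).1) 1) (fun i => (q.out i).2) := congrFun h00 q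
      rw [hgdef, LinearMap.sub_apply, Pi.sub_apply, h1, sub_self]
    rw [← sub_eq_zero, ← hgdef]
    have hent : ∀ I J : Fin (n + 1) → ι, g (Pi.single I 1) J = 0 := by
      intro I J
      set q := Quotient.mk (psetoid n (ι × ι)) (fun i => (I i, J i)) with hq
      obtain ⟨σ, hσ⟩ := Quotient.exact (Quotient.out_eq q)
      have h1 : g (Pi.single (fun i => (q.out i).1) 1) (fun i => (q.out i).2) = 0 := h0 q
      have hI : (fun i => (q.out i).1) = I ∘ σ := by
        funext i
        have := congrFun hσ i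
        exact congrArg Prod.fst this
      have hJ : (fun i => (q.out i).2) = J ∘ σ := by
        funext i
        have := congrFun hσ i
        exact congrArg Prod.snd this
      rw [hI, hJ] at h1
      have h3 : prm K ι n σ (Pi.single (I ∘ σ) 1) = Pi.single I 1 := by
        funext a
        rw [prm_apply, Pi.single_apply, Pi.single_apply]
        have : a ∘ σ = I ∘ σ ↔ a = I := by
          constructor
          · intro h
            funext i
            have := congrFun h (σ.symm i)
            simpa using this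
          · intro h; rw [h]
        simp only [this]
      have h4 := congrArg (fun f => f (Pi.single (I ∘ σ) 1) J) (hg σ)
      simp only [Module.End.mul_apply] at h4
      rw [h3, prm_apply, h1] at h4
      exact h4
    apply LinearMap.pi_ext'
    intro I
    apply LinearMap.ext_ring
    rw [LinearMap.comp_apply, LinearMap.comp_apply, LinearMap.zero_apply]
    funext J
    exact hent I J
  have h1 := LinearMap.finrank_le_finrank_of_injective hinj
  rwa [Module.finrank_fintype_fun_eq_card] at h1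

lemma al_growth (n : ℕ) :
    (Fintype.card ι ^ 2) ^ (n + 1) ≤ al A n * (n + 2) ^ (Fintype.card ι ^ 2) := by
  have h1 := sq_le_nu_mul (prm K ι n) (alg A (Ob.pow ι (n + 1))) (prm_mem n)
  have h2 : finrank K ((Fin (n + 1) → ι) → K) = Fintype.card ι ^ (n + 1) := by
    rw [Module.finrank_fintype_fun_eq_card, Fintype.card_fun, Fintype.card_fin]
  rw [al_eq_nu]
  calc (Fintype.card ι ^ 2) ^ (n + 1) = finrank K ((Fin (n + 1) → ι) → K) ^ 2 := by
        rw [h2, ← pow_mul, ← pow_mul, mul_comm]
    _ ≤ _ := h1.trans (Nat.mul_le_mul_left _ (finrank_comm_prm_le n))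

end Pool.Agent.R940
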