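import Pool.Agent.R940.TnD

/-!
# The index law for a pair of systems of tensors
-/

set_option linter.unusedVariables false
set_option linter.unusedSectionVars false

namespace Pool.Agent.R940

open Module Pool.Agent.Y163 Matrix

universe v

variable {K : Type v} [Field K] {ι : Type} [Fintype ι] [DecidableEq ι] {A T : TSys K ι}
  {M N L Y V : Ob ι}

/-- One system is contained in the other. -/
def TSys.Le (A T : TSys K ι) : Prop :=
  ∀ (P Q : Type) [Fintype P] [DecidableEq P] [Fintype Q] [DecidableEq Q], A.S P Q ≤ T.S P Q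

/-- The tensor of a vector. -/
def vhat (M : Ob ι) : (M.X → K) ≃ₗ[K] ((M.I → ι) → (M.J → ι) → K) where
  toFun t p q := t (M.e.symm (p, q))
  invFun x m := x (M.e m).1 (M.e m).2
  map_add' F G := rfl
  map_smul' c F := rfl
  left_inv t := by
    funext m
    simp
  right_inv x := by
    funext p q
    simp

/-- The tensors of the system. -/
def tsub (T : TSys K ι) (M : Ob ι) : Submodule K (M.X → K) :=
  (T.S M.I M.J).comap (vhat M).toLinearMap

lemma mem_tsub {t : M.X → K} : t ∈ tsub T M ↔ vhat M t ∈ T.S M.I M.J := Iff.rfl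

/-- Rearrangement. -/
def eqF (A B C : Type) : (A ⊕ B) ⊕ C ≃ A ⊕ (C ⊕ B) := eqD A B C

/-- Rearrangement. -/
def eqG (A B C : Type) : (A ⊕ B) ⊕ C ≃ A ⊕ (B ⊕ C) := Equiv.sumAssoc A B C

lemma tsub_stable (hAT : A.Le T) {f : (M.X → K) →ₗ[K] (N.X → K)} (hf : f ∈ lin A M N)
    {t : M.X → K} (ht : t ∈ tsub T M) : f t ∈ tsub T N := by
  obtain ⟨F, hF, rfl⟩ := hf
  rw [mem_tsub] at ht ⊢
  refine T.glue (hAT _ _ hF) ht (eqF N.I M.J M.I) (eqG N.J M.I M.J) fun a b => ?_
  have h1 : vhat N ((Matrix.toLin' : Matrix N.X M.X K ≃ₗ[K] _).toLinearMap F t) a b =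
      ∑ m, F (N.e.symm (a, b)) m * t m := rfl
  rw [h1, M.sum_eq]
  rfl

/-- The number of tensors. -/
noncomputable def zz (T : TSys K ι) (n : ℕ) : ℕ := finrank K (T.S (Fin (n + 1)) (Fin (n + 1)))

lemma finrank_tsub (n : ℕ) : finrank K (tsub T (U ι n)) = zz T n := by
  have h1 : ∀ x, x ∈ tsub T (U ι n) ↔
      ((vhat (U ι n)).trans (reE (Equiv.sumEmpty (Fin (n + 1)) Empty)
        (Equiv.emptySum Empty (Fin (n + 1))))) x ∈ T.S (Fin (n + 1)) (Fin (n + 1)) := fun x =>
    T.mem_iff (P := Fin (n + 1) ⊕ Empty) (Q := Empty ⊕ Fin (n + 1))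
      (Equiv.sumEmpty (Fin (n + 1)) Empty) (Equiv.emptySum Empty (Fin (n + 1))) fun a b => rfl
  exact (subEq _ _ _ h1).finrank_eq

lemma al_zero_le : al A 0 ≤ Fintype.card ι ^ 2 := by
  have h1 : al A 0 ≤ finrank K (A.S (Fin 1) (Fin 1)) := LinearMap.finrank_range_le _
  refine h1.trans ((Submodule.finrank_le _).trans (le_of_eq ?_))
  rw [Module.finrank_pi_fintype]
  simp [pow_two]

variable [IsAlgClosed K] [CharZero K]

/-- The data at the level `κ`. -/
noncomputable def lvl (hAT : A.Le T) (κ : ℕ) :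
    Level (al A) (zz T) (Fintype.card ι ^ 2) κ :=
  let w : Wed (alg A (U ι κ)) := Classical.choice (exists_wed _)
  { C := w.C
    fC := inferInstance
    m := w.m
    s := fun c => finrank K (LinearMap.range (w.e (w.rep c)))
    t := fun c => finrank K ((tsub T (U ι κ)).map (w.e (w.rep c)))
    N := fun n c => mu (lin A (U ι κ) (U ι n)) (lin A (U ι n) (U ι κ)) 1 (w.e (w.rep c))
    m_pos := fun c => Finset.card_pos.2 ⟨w.rep c, by simp [w.κ_rep]⟩
    sum_ms := by
      refine (sum_m_rank w).trans (le_of_eq ?_)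
      rw [Module.finrank_fintype_fun_eq_card, card_U]
    N_le := fun n c => by
      have hmem : LinearMap.toMatrix' (w.e (w.rep c)) ∈ THom A (U ι κ) (U ι κ) :=
        mem_lin.1 (w.e_mem _)
      have h1 := mult_le (V := Ob.pow ι (n + 1)) hmem (by
        rw [← toMat_mul, w.e_mul, if_pos rfl])
      rw [← al_eq_nu, Matrix.toLin'_toMatrix'] at h1
      have h2 : LinearMap.toMatrix' (1 : Module.End K ((U ι n).X → K)) = 1 :=
        LinearMap.toMatrix'_one
      rw [mu_eq_mk', h2]
      exact h1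
    le_sum := fun n => by
      have h0 : al A (κ + n + 1) =
          mu (lin A (U ι κ) (U ι n)) (lin A (U ι n) (U ι κ)) 1 1 := by
        have e1 : LinearMap.toMatrix' (1 : Module.End K ((U ι n).X → K)) = 1 :=
          LinearMap.toMatrix'_one
        have e2 : LinearMap.toMatrix' (1 : Module.End K ((U ι κ).X → K)) = 1 :=
          LinearMap.toMatrix'_one
        rw [mu_eq_mk', e1, e2, al_eq_mk]
      rw [h0]
      have h2 := mu_sum_le (lin A (U ι κ) (U ι n)) (lin A (U ι n) (U ι κ))
        (Finset.univ : Finset Unit) (Finset.univ : Finset w.I) (fun _ => 1) w.e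
      rw [w.e_sum] at h2
      simp only [Finset.univ_unique, Finset.sum_singleton] at h2
      refine h2.trans ?_
      rw [← w.sum_eq (fun c => mu (lin A (U ι κ) (U ι n)) (lin A (U ι n) (U ι κ)) 1
        (w.e (w.rep c)))]
      exact Finset.sum_le_sum fun i _ => w.mu_le (duo A _ _) (alg A (U ι n)).one_mem i
    sum_le := fun n => by
      have h1 := sum_mu_mul_le (duo A (U ι κ) (U ι n)) w.prims
        (alg A (U ι n)).one_mem (mul_one 1) (tsub T (U ι κ)) (tsub T (U ι n))
        (fun x hx t ht => tsub_stable hAT hx ht)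
      have h2 : (tsub T (U ι n)).map (1 : Module.End K ((U ι n).X → K)) = tsub T (U ι n) :=
        Submodule.map_id _
      rw [h2, finrank_tsub] at h1
      exact h1
    z_le := by
      have hstab : ∀ f ∈ alg A (U ι κ), ∀ t ∈ tsub T (U ι κ), f t ∈ tsub T (U ι κ) :=
        fun f hf t ht => tsub_stable hAT hf ht
      have h0 := w.finrank_stable_le (tsub T (U ι κ)) hstab
      rw [finrank_tsub] at h0
      refine h0.trans ?_
      rw [Finset.sum_mul]
      apply Finset.sum_le_sum
      intro c _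
      have hmem : LinearMap.toMatrix' (w.e (w.rep c)) ∈ THom A (U ι κ) (U ι κ) :=
        mem_lin.1 (w.e_mem _)
      have h1 := mult_le (V := Ob.pow ι (κ + 1)) hmem (by
        rw [← toMat_mul, w.e_mul, if_pos rfl])
      rw [← al_eq_nu, Matrix.toLin'_toMatrix'] at h1
      have h2 : LinearMap.toMatrix' (1 : Module.End K ((U ι κ).X → K)) = 1 :=
        LinearMap.toMatrix'_one
      have h3 := w.m_le c
      rw [toSub_alg, mu_eq_mk', h2] at h3
      have h4 := h3.trans h1
      calc w.m c * finrank K ((tsub T (U ι κ)).map (w.e (w.rep c)))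
          ≤ (finrank K (LinearMap.range (w.e (w.rep c))) * al A κ) *
            finrank K ((tsub T (U ι κ)).map (w.e (w.rep c))) := Nat.mul_le_mul_right _ h4
        _ = _ := by ring }

/-- **The index law for a pair of systems of tensors.** -/
theorem tensor_law (hι : 0 < Fintype.card ι) (hAT : A.Le T) {κ : ℕ} (hfail : al A κ < zz T κ)
    {n : ℕ} (hn : 0 < n) :
    (2 - 2 * (κ + 1) * (Fintype.card ι : ℝ) ^ (2 * κ + 4) * Real.log (n + 2) / n) * al A n ≤
      zz T n := by
  have h := eff_law (pow_pos hι 2) al_zero_le al_sq_le al_growth (lvl hAT κ) hfail hn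
  refine le_trans (le_of_eq ?_) h
  push_cast
  ring

end Pool.Agent.R940
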