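import Pool.Agent.R940.TnE

/-!
# The action of matrices on tensors
-/

set_option linter.unusedVariables false
set_option linter.unusedSectionVars false

namespace Pool.Agent.R940

open Module Pool.Agent.Y163 Matrix

universe v

variable {K : Type v} [Field K] {ι : Type} [Fintype ι] [DecidableEq ι]

section

variable {P Q R S P' Q' R' S' : Type} [Fintype P] [DecidableEq P] [Fintype Q]
  [DecidableEq Q] [Fintype P'] [DecidableEq P'] [Fintype Q'] [DecidableEq Q'] [Fintype R]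
  [DecidableEq R] [Fintype S] [DecidableEq S] [Fintype R'] [DecidableEq R'] [Fintype S']
  [DecidableEq S']

/-- The tensor power of a matrix. -/
def tp (g : Matrix ι ι K) (P : Type) [Fintype P] : Matrix (P → ι) (P → ι) K :=
  fun a b => ∏ i, g (a i) (b i)

lemma tp_mul (g h : Matrix ι ι K) (P : Type) [Fintype P] [DecidableEq P] :
    tp (g * h) P = tp g P * tp h P := by
  funext a b
  have h1 : tp (g * h) P a b = ∏ i, ∑ c, g (a i) c * h c (b i) := rfl
  rw [h1, Finset.prod_univ_sum, Matrix.mul_apply, Fintype.piFinset_univ]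
  exact Finset.sum_congr rfl fun c _ => Finset.prod_mul_distrib

lemma tp_one (P : Type) [Fintype P] [DecidableEq P] :
    tp (1 : Matrix ι ι K) P = 1 := by
  funext a b
  have h1 : tp (1 : Matrix ι ι K) P a b = ∏ i, (1 : Matrix ι ι K) (a i) (b i) := rfl
  rw [h1]
  by_cases h : a = b
  · subst h
    rw [Matrix.one_apply_eq]
    exact Finset.prod_eq_one fun i _ => Matrix.one_apply_eq _
  · rw [Matrix.one_apply_ne h]
    obtain ⟨i, hi⟩ : ∃ i, a i ≠ b i := by
      by_contra hcon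
      push Not at hcon
      exact h (funext hcon)
    exact Finset.prod_eq_zero (Finset.mem_univ i) (Matrix.one_apply_ne hi)

/-- The tensor product of tensors. -/
def ks (F : Matrix (P → ι) (Q → ι) K) (G : Matrix (R → ι) (S → ι) K) :
    Matrix (P ⊕ R → ι) (Q ⊕ S → ι) K :=
  fun a b => F (a ∘ Sum.inl) (b ∘ Sum.inl) * G (a ∘ Sum.inr) (b ∘ Sum.inr)

lemma sum_sum {β : Type*} [AddCommMonoid β] (F : (P → ι) → (R → ι) → β) :
    ∑ c : P ⊕ R → ι, F (c ∘ Sum.inl) (c ∘ Sum.inr) = ∑ a, ∑ b, F a b := by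
  rw [← Fintype.sum_prod_type']
  exact Equiv.sum_comp (Equiv.sumArrowEquivProdArrow P R ι) (fun p => F p.1 p.2)

lemma ks_mul (F : Matrix (P → ι) (Q → ι) K) (G : Matrix (R → ι) (S → ι) K)
    (F' : Matrix (Q → ι) (Q' → ι) K) (G' : Matrix (S → ι) (S' → ι) K) :
    ks F G * ks F' G' = ks (F * F') (G * G') := by
  funext a b
  have h1 : (ks F G * ks F' G') a b = ∑ u, ∑ v, (F (a ∘ Sum.inl) u * G (a ∘ Sum.inr) v) *
      (F' u (b ∘ Sum.inl) * G' v (b ∘ Sum.inr)) :=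
    sum_sum (fun u v => (F (a ∘ Sum.inl) u * G (a ∘ Sum.inr) v) *
      (F' u (b ∘ Sum.inl) * G' v (b ∘ Sum.inr)))
  have h2 : ks (F * F') (G * G') a b = (∑ u, F (a ∘ Sum.inl) u * F' u (b ∘ Sum.inl)) *
      ∑ v, G (a ∘ Sum.inr) v * G' v (b ∘ Sum.inr) := rfl
  rw [h1, h2, Finset.sum_mul]
  refine Finset.sum_congr rfl fun u _ => ?_
  rw [Finset.mul_sum]
  exact Finset.sum_congr rfl fun v _ => by ring

lemma tp_sum (g : Matrix ι ι K) : tp g (P ⊕ R) = ks (tp g P) (tp g R) := by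
  funext a b
  exact Fintype.prod_sum_type _

/-- The tensor `x` is fixed by `g`. -/
def Fix (g : Matrix ι ι K) (x : Matrix (P → ι) (Q → ι) K) : Prop :=
  tp g P * x = x * tp g Q

/-- Reindexing. -/
def rei (e : P ≃ P') (f : Q ≃ Q') (x : Matrix (P → ι) (Q → ι) K) :
    Matrix (P' → ι) (Q' → ι) K := fun a b => x (a ∘ e) (b ∘ f)

lemma Fix.reindex {g : Matrix ι ι K} {x : Matrix (P → ι) (Q → ι) K} (hx : Fix g x)
    (e : P ≃ P') (f : Q ≃ Q') : Fix g (rei e f x) := by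
  have he : ∀ a b : P' → ι, tp g P' a b = tp g P (a ∘ e) (b ∘ e) := fun a b =>
    (Equiv.prod_comp e fun i => g (a i) (b i)).symm
  have hf : ∀ a b : Q' → ι, tp g Q' a b = tp g Q (a ∘ f) (b ∘ f) := fun a b =>
    (Equiv.prod_comp f fun i => g (a i) (b i)).symm
  funext a b
  have h1 : (tp g P' * rei e f x) a b =
      ∑ c, tp g P' a c * x (c ∘ e) (b ∘ f) := rfl
  have h2 : (rei e f x * tp g Q') a b =
      ∑ c, x (a ∘ e) (c ∘ f) * tp g Q' c b := rfl
  rw [h1, h2]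
  have h3 : ∑ c, tp g P' a c * x (c ∘ e) (b ∘ f) =
      ∑ c, tp g P (a ∘ e) c * x c (b ∘ f) := by
    refine Fintype.sum_equiv (e.symm.arrowCongr (Equiv.refl ι)) _ _ fun c => ?_
    rw [he]
    rfl
  have h4 : ∑ c, x (a ∘ e) (c ∘ f) * tp g Q' c b =
      ∑ c, x (a ∘ e) c * tp g Q c (b ∘ f) := by
    refine Fintype.sum_equiv (f.symm.arrowCongr (Equiv.refl ι)) _ _ fun c => ?_
    rw [hf]
    rfl
  rw [h3, h4]
  exact congrFun (congrFun hx (a ∘ e)) (b ∘ f)

lemma Fix.one (g : Matrix ι ι K) : Fix g (1 : Matrix (P → ι) (P → ι) K) := by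
  rw [Fix, Matrix.mul_one, Matrix.one_mul]

lemma Fix.tensor {g : Matrix ι ι K} {x : Matrix (P → ι) (Q → ι) K}
    {y : Matrix (R → ι) (S → ι) K} (hx : Fix g x) (hy : Fix g y) : Fix g (ks x y) := by
  rw [Fix] at hx hy
  rw [Fix, tp_sum, tp_sum, ks_mul, ks_mul, hx, hy]

/-- Partial traces. -/
def ptr (x : Matrix (P ⊕ R → ι) (Q ⊕ R → ι) K) : Matrix (P → ι) (Q → ι) K :=
  fun a b => ∑ c : R → ι, x (Sum.elim a c) (Sum.elim b c)

lemma trace_ptr (x : Matrix (P ⊕ R → ι) (Q ⊕ R → ι) K) (y : Matrix (Q → ι) (P → ι) K) :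
    Matrix.trace (ptr x * y) = Matrix.trace (x * ks y (1 : Matrix (R → ι) (R → ι) K)) := by
  have h1 : Matrix.trace (ptr x * y) =
      ∑ a, ∑ b, (∑ c : R → ι, x (Sum.elim a c) (Sum.elim b c)) * y b a := rfl
  have e : ∀ u v, x u v = x (Sum.elim (u ∘ Sum.inl) (u ∘ Sum.inr))
      (Sum.elim (v ∘ Sum.inl) (v ∘ Sum.inr)) := by
    intro u v
    rw [Sum.elim_comp_inl_inr, Sum.elim_comp_inl_inr]
  have h2 : Matrix.trace (x * ks y (1 : Matrix (R → ι) (R → ι) K)) =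
      ∑ u : P ⊕ R → ι, ∑ v : Q ⊕ R → ι, x (Sum.elim (u ∘ Sum.inl) (u ∘ Sum.inr))
        (Sum.elim (v ∘ Sum.inl) (v ∘ Sum.inr)) * (y (v ∘ Sum.inl) (u ∘ Sum.inl) *
          (1 : Matrix (R → ι) (R → ι) K) (v ∘ Sum.inr) (u ∘ Sum.inr)) :=
    Finset.sum_congr rfl fun u _ => Finset.sum_congr rfl fun v _ => by
      rw [← e]
      rfl
  rw [h1, h2]
  refine Eq.trans ?_ (sum_sum (fun a c => ∑ v : Q ⊕ R → ι, x (Sum.elim a c)
    (Sum.elim (v ∘ Sum.inl) (v ∘ Sum.inr)) * (y (v ∘ Sum.inl) a *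
      (1 : Matrix (R → ι) (R → ι) K) (v ∘ Sum.inr) c))).symm
  refine Finset.sum_congr rfl fun a _ => ?_
  refine Eq.trans ?_ (Finset.sum_congr rfl fun c _ => (sum_sum (fun b d => x (Sum.elim a c)
    (Sum.elim b d) * (y b a * (1 : Matrix (R → ι) (R → ι) K) d c))).symm)
  rw [Finset.sum_comm]
  refine Finset.sum_congr rfl fun b _ => ?_
  rw [Finset.sum_mul]
  refine Finset.sum_congr rfl fun c _ => ?_
  rw [Finset.sum_eq_single c]
  · rw [Matrix.one_apply_eq, mul_one]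
  · intro d _ hd
    rw [Matrix.one_apply_ne hd, mul_zero, mul_zero]
  · intro h
    exact absurd (Finset.mem_univ _) h

lemma ext_trace {X Y : Type} [Fintype X] [DecidableEq X] [Fintype Y] [DecidableEq Y]
    {x x' : Matrix X Y K} (h : ∀ y : Matrix Y X K, Matrix.trace (x * y) = Matrix.trace (x' * y)) :
    x = x' := by
  funext a b
  have h1 := h (Matrix.single b a 1)
  rw [Matrix.trace_mul_comm, Matrix.trace_mul_comm x'] at h1
  simpa [Matrix.trace_single_mul] using h1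

lemma Fix.contract {g h : Matrix ι ι K} (hgh : g * h = 1)
    {x : Matrix (P ⊕ R → ι) (Q ⊕ R → ι) K} (hx : Fix g x) : Fix g (ptr x) := by
  have hhg : h * g = 1 := mul_eq_one_comm.1 hgh
  apply ext_trace
  intro y
  have e1 : ks (y * tp g P) (1 : Matrix (R → ι) (R → ι) K) =
      ks y (tp h R) * tp g (P ⊕ R) := by
    rw [tp_sum, ks_mul, ← tp_mul, hhg, tp_one]
  have e2 : ks (tp g Q * y) (1 : Matrix (R → ι) (R → ι) K) =
      tp g (Q ⊕ R) * ks y (tp h R) := by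
    rw [tp_sum, ks_mul, ← tp_mul, hgh, tp_one]
  rw [Matrix.mul_assoc, Matrix.trace_mul_comm, Matrix.mul_assoc, trace_ptr, e1,
    Matrix.mul_assoc, trace_ptr, e2, ← Matrix.mul_assoc, Matrix.trace_mul_comm, ← Matrix.mul_assoc,
    ← Matrix.mul_assoc]
  rw [Fix] at hx
  rw [hx]

end

end Pool.Agent.R940
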