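import Pool.Agent.R940.TnF

/-!
# Equivariance of the operators of a system of invariant tensors
-/

set_option linter.unusedVariables false
set_option linter.unusedSectionVars false

namespace Pool.Agent.R940

open Module Pool.Agent.Y163 Matrix

universe v

variable {K : Type v} [Field K] {ι : Type} [Fintype ι] [DecidableEq ι]

section

variable {P Q R S : Type} [Fintype P] [DecidableEq P] [Fintype Q]
  [DecidableEq Q] [Fintype R] [DecidableEq R] [Fintype S] [DecidableEq S]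

lemma ks_one_mul {B : Type} [Fintype B] (F : Matrix (P → ι) (P → ι) K)
    (x : Matrix (P ⊕ R → ι) B K) (a : P ⊕ R → ι) (b : B) :
    (ks F (1 : Matrix (R → ι) (R → ι) K) * x) a b =
      ∑ u, F (a ∘ Sum.inl) u * x (Sum.elim u (a ∘ Sum.inr)) b := by
  have h1 : (ks F (1 : Matrix (R → ι) (R → ι) K) * x) a b =
      ∑ c : P ⊕ R → ι, (F (a ∘ Sum.inl) (c ∘ Sum.inl) *
        (1 : Matrix (R → ι) (R → ι) K) (a ∘ Sum.inr) (c ∘ Sum.inr)) *
          x (Sum.elim (c ∘ Sum.inl) (c ∘ Sum.inr)) b :=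
    Finset.sum_congr rfl fun c _ => by
      rw [Sum.elim_comp_inl_inr]
      rfl
  rw [h1]
  refine (sum_sum (fun u v => (F (a ∘ Sum.inl) u * (1 : Matrix (R → ι) (R → ι) K)
    (a ∘ Sum.inr) v) * x (Sum.elim u v) b)).trans ?_
  refine Finset.sum_congr rfl fun u _ => ?_
  rw [Finset.sum_eq_single (a ∘ Sum.inr)]
  · rw [Matrix.one_apply_eq, mul_one]
  · intro d _ hd
    rw [Matrix.one_apply_ne (Ne.symm hd), mul_zero, zero_mul]
  · intro h
    exact absurd (Finset.mem_univ _) h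

lemma one_ks_mul {B : Type} [Fintype B] (F : Matrix (R → ι) (R → ι) K)
    (x : Matrix (P ⊕ R → ι) B K) (a : P ⊕ R → ι) (b : B) :
    (ks (1 : Matrix (P → ι) (P → ι) K) F * x) a b =
      ∑ v, F (a ∘ Sum.inr) v * x (Sum.elim (a ∘ Sum.inl) v) b := by
  have h1 : (ks (1 : Matrix (P → ι) (P → ι) K) F * x) a b =
      ∑ c : P ⊕ R → ι, ((1 : Matrix (P → ι) (P → ι) K) (a ∘ Sum.inl) (c ∘ Sum.inl) *
        F (a ∘ Sum.inr) (c ∘ Sum.inr)) * x (Sum.elim (c ∘ Sum.inl) (c ∘ Sum.inr)) b :=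
    Finset.sum_congr rfl fun c _ => by
      rw [Sum.elim_comp_inl_inr]
      rfl
  rw [h1]
  refine (sum_sum (fun u v => ((1 : Matrix (P → ι) (P → ι) K) (a ∘ Sum.inl) u *
    F (a ∘ Sum.inr) v) * x (Sum.elim u v) b)).trans ?_
  rw [Finset.sum_eq_single (a ∘ Sum.inl)]
  · refine Finset.sum_congr rfl fun v _ => ?_
    rw [Matrix.one_apply_eq, one_mul]
  · intro d _ hd
    refine Finset.sum_eq_zero fun v _ => ?_
    rw [Matrix.one_apply_ne (Ne.symm hd), zero_mul, zero_mul]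
  · intro h
    exact absurd (Finset.mem_univ _) h

lemma mul_ks_one {B : Type} [Fintype B] (F : Matrix (P → ι) (P → ι) K)
    (x : Matrix B (P ⊕ R → ι) K) (a : B) (b : P ⊕ R → ι) :
    (x * ks F (1 : Matrix (R → ι) (R → ι) K)) a b =
      ∑ u, x a (Sum.elim u (b ∘ Sum.inr)) * F u (b ∘ Sum.inl) := by
  have h1 : (x * ks F (1 : Matrix (R → ι) (R → ι) K)) a b =
      ∑ c : P ⊕ R → ι, x a (Sum.elim (c ∘ Sum.inl) (c ∘ Sum.inr)) *
        (F (c ∘ Sum.inl) (b ∘ Sum.inl) *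
          (1 : Matrix (R → ι) (R → ι) K) (c ∘ Sum.inr) (b ∘ Sum.inr)) :=
    Finset.sum_congr rfl fun c _ => by
      rw [Sum.elim_comp_inl_inr]
      rfl
  rw [h1]
  refine (sum_sum (fun u v => x a (Sum.elim u v) * (F u (b ∘ Sum.inl) *
    (1 : Matrix (R → ι) (R → ι) K) v (b ∘ Sum.inr)))).trans ?_
  refine Finset.sum_congr rfl fun u _ => ?_
  rw [Finset.sum_eq_single (b ∘ Sum.inr)]
  · rw [Matrix.one_apply_eq, mul_one]
  · intro d _ hd
    rw [Matrix.one_apply_ne hd, mul_zero, mul_zero]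
  · intro h
    exact absurd (Finset.mem_univ _) h

lemma mul_one_ks {B : Type} [Fintype B] (F : Matrix (R → ι) (R → ι) K)
    (x : Matrix B (P ⊕ R → ι) K) (a : B) (b : P ⊕ R → ι) :
    (x * ks (1 : Matrix (P → ι) (P → ι) K) F) a b =
      ∑ v, x a (Sum.elim (b ∘ Sum.inl) v) * F v (b ∘ Sum.inr) := by
  have h1 : (x * ks (1 : Matrix (P → ι) (P → ι) K) F) a b =
      ∑ c : P ⊕ R → ι, x a (Sum.elim (c ∘ Sum.inl) (c ∘ Sum.inr)) *
        ((1 : Matrix (P → ι) (P → ι) K) (c ∘ Sum.inl) (b ∘ Sum.inl) *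
          F (c ∘ Sum.inr) (b ∘ Sum.inr)) :=
    Finset.sum_congr rfl fun c _ => by
      rw [Sum.elim_comp_inl_inr]
      rfl
  rw [h1]
  refine (sum_sum (fun u v => x a (Sum.elim u v) * ((1 : Matrix (P → ι) (P → ι) K) u
    (b ∘ Sum.inl) * F v (b ∘ Sum.inr)))).trans ?_
  rw [Finset.sum_eq_single (b ∘ Sum.inl)]
  · refine Finset.sum_congr rfl fun v _ => ?_
    rw [Matrix.one_apply_eq, one_mul]
  · intro d _ hd
    refine Finset.sum_eq_zero fun v _ => ?_
    rw [Matrix.one_apply_ne hd, zero_mul, mul_zero]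
  · intro h
    exact absurd (Finset.mem_univ _) h

/-- Bending of the invariance. -/
lemma Fix.bend {P R Q S : Type} [Fintype P] [DecidableEq P] [Fintype Q]
    [DecidableEq Q] [Fintype R] [DecidableEq R] [Fintype S] [DecidableEq S]
    {g h : Matrix ι ι K} (hgh : g * h = 1) {x : Matrix (P ⊕ R → ι) (Q ⊕ S → ι) K}
    (hx : Fix g x) :
    ks (tp g P) (1 : Matrix (R → ι) (R → ι) K) * x *
        ks (tp h Q) (1 : Matrix (S → ι) (S → ι) K) =
      ks (1 : Matrix (P → ι) (P → ι) K) (tp h R) * x *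
        ks (1 : Matrix (Q → ι) (Q → ι) K) (tp g S) := by
  have hhg : h * g = 1 := mul_eq_one_comm.1 hgh
  have e1 : ks (1 : Matrix (Q → ι) (Q → ι) K) (tp g S) =
      ks (tp g Q) (tp g S) * ks (tp h Q) (1 : Matrix (S → ι) (S → ι) K) := by
    rw [ks_mul, ← tp_mul, hgh, tp_one, Matrix.mul_one]
  have e2 : ks (1 : Matrix (P → ι) (P → ι) K) (tp h R) * ks (tp g P) (tp g R) =
      ks (tp g P) (1 : Matrix (R → ι) (R → ι) K) := by
    rw [ks_mul, ← tp_mul, hhg, tp_one, Matrix.one_mul]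
  rw [Fix, tp_sum, tp_sum] at hx
  calc ks (tp g P) (1 : Matrix (R → ι) (R → ι) K) * x *
        ks (tp h Q) (1 : Matrix (S → ι) (S → ι) K)
      = ks (1 : Matrix (P → ι) (P → ι) K) (tp h R) * (ks (tp g P) (tp g R) * x) *
          ks (tp h Q) (1 : Matrix (S → ι) (S → ι) K) := by
        rw [← e2, Matrix.mul_assoc (ks (1 : Matrix (P → ι) (P → ι) K) (tp h R))]
    _ = ks (1 : Matrix (P → ι) (P → ι) K) (tp h R) * x * (ks (tp g Q) (tp g S) *
          ks (tp h Q) (1 : Matrix (S → ι) (S → ι) K)) := by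
        rw [hx]
        simp only [Matrix.mul_assoc]
    _ = _ := by rw [← e1]

end

variable {M N L Y V : Ob ι}

/-- The action of a matrix on the tensors of an object; `h` is the inverse of `g`. -/
def actM (g h : Matrix ι ι K) (M : Ob ι) : Matrix M.X M.X K :=
  fun m m' => tp g M.I (M.e m).1 (M.e m').1 * tp h M.J (M.e m').2 (M.e m).2

lemma Ob.sum_eq' (N : Ob ι) {β : Type*} [AddCommMonoid β] (F : N.X → β) :
    ∑ n, F n = ∑ u, ∑ v, F (N.e.symm (u, v)) := by
  rw [← Fintype.sum_prod_type' (fun u v => F (N.e.symm (u, v)))]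
  exact (Equiv.sum_comp N.e.symm F).symm

/-- The tensor of a matrix, as a matrix. -/
def mhat (M N : Ob ι) (F : Matrix N.X M.X K) :
    Matrix (N.I ⊕ M.J → ι) (N.J ⊕ M.I → ι) K := hat M N F

lemma mhat_apply (F : Matrix N.X M.X K) (p : N.I ⊕ M.J → ι) (q : N.J ⊕ M.I → ι) :
    mhat M N F p q =
      F (N.e.symm (p ∘ Sum.inl, q ∘ Sum.inl)) (M.e.symm (q ∘ Sum.inr, p ∘ Sum.inr)) := rfl

/-- The tensor of a vector, as a matrix. -/
def mvhat (M : Ob ι) (t : M.X → K) : Matrix (M.I → ι) (M.J → ι) K := vhat M t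

/-- The operators of the system commute with the action. -/
lemma actM_comm {g h : Matrix ι ι K} (hgh : g * h = 1) {F : Matrix N.X M.X K}
    (hF : Fix g (mhat M N F)) :
    actM g h N * F = F * actM g h M := by
  have h0 := hF.bend hgh
  funext n m
  have h1 := congrFun (congrFun h0 (Sum.elim (N.e n).1 (M.e m).2))
    (Sum.elim (N.e n).2 (M.e m).1)
  rw [mul_ks_one, mul_one_ks] at h1
  have hL : (actM g h N * F) n m = ∑ u, (∑ u', tp g N.I (N.e n).1 u' *
      F (N.e.symm (u', u)) m) * tp h N.J u (N.e n).2 := by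
    have e1 : (actM g h N * F) n m = ∑ n', tp g N.I (N.e n).1 (N.e n').1 *
      tp h N.J (N.e n').2 (N.e n).2 * F n' m := rfl
    rw [e1, N.sum_eq', Finset.sum_comm]
    refine Finset.sum_congr rfl fun u _ => ?_
    rw [Finset.sum_mul]
    refine Finset.sum_congr rfl fun u' _ => ?_
    rw [Equiv.apply_symm_apply]
    ring
  have hR : (F * actM g h M) n m = ∑ v, (∑ v', tp h M.J (M.e m).2 v' *
      F n (M.e.symm (v, v'))) * tp g M.I v (M.e m).1 := by
    have e1 : (F * actM g h M) n m = ∑ m', F n m' * (tp g M.I (M.e m').1 (M.e m).1 *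
      tp h M.J (M.e m).2 (M.e m').2) := rfl
    rw [e1, M.sum_eq']
    refine Finset.sum_congr rfl fun v _ => ?_
    rw [Finset.sum_mul]
    refine Finset.sum_congr rfl fun v' _ => ?_
    rw [Equiv.apply_symm_apply]
    ring
  rw [hL, hR]
  refine Eq.trans ?_ (h1.trans ?_)
  · refine Finset.sum_congr rfl fun u _ => ?_
    rw [ks_one_mul]
    congr 1
    refine Finset.sum_congr rfl fun u' _ => ?_
    rw [mhat_apply]
    simp only [Sum.elim_comp_inl, Sum.elim_comp_inr, Prod.mk.eta, Equiv.symm_apply_apply]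
  · refine Finset.sum_congr rfl fun v _ => ?_
    rw [one_ks_mul]
    congr 1
    refine Finset.sum_congr rfl fun v' _ => ?_
    rw [mhat_apply]
    simp only [Sum.elim_comp_inl, Sum.elim_comp_inr, Prod.mk.eta, Equiv.symm_apply_apply]

lemma actM_mul (g h g' h' : Matrix ι ι K) :
    actM g h M * actM g' h' M = actM (g * g') (h' * h) M := by
  funext m m'
  have e1 : (actM g h M * actM g' h' M) m m' = ∑ n, (tp g M.I (M.e m).1 (M.e n).1 *
      tp h M.J (M.e n).2 (M.e m).2) * (tp g' M.I (M.e n).1 (M.e m').1 *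
        tp h' M.J (M.e m').2 (M.e n).2) := rfl
  have e2 : actM (g * g') (h' * h) M m m' = (∑ u, tp g M.I (M.e m).1 u *
      tp g' M.I u (M.e m').1) * ∑ v, tp h' M.J (M.e m').2 v * tp h M.J v (M.e m).2 := by
    have : actM (g * g') (h' * h) M m m' = tp (g * g') M.I (M.e m).1 (M.e m').1 *
      tp (h' * h) M.J (M.e m').2 (M.e m).2 := rfl
    rw [this, tp_mul, tp_mul]
    rfl
  rw [e1, e2, M.sum_eq', Finset.sum_mul]
  refine Finset.sum_congr rfl fun u _ => ?_
  rw [Finset.mul_sum]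
  refine Finset.sum_congr rfl fun v _ => ?_
  rw [Equiv.apply_symm_apply]
  ring

lemma actM_one : actM (1 : Matrix ι ι K) 1 M = 1 := by
  funext m m'
  have e1 : actM (1 : Matrix ι ι K) 1 M m m' = tp (1 : Matrix ι ι K) M.I (M.e m).1 (M.e m').1 *
      tp (1 : Matrix ι ι K) M.J (M.e m').2 (M.e m).2 := rfl
  rw [e1, tp_one, tp_one]
  by_cases h : m = m'
  · subst h
    rw [Matrix.one_apply_eq, Matrix.one_apply_eq, Matrix.one_apply_eq, mul_one]
  · rw [Matrix.one_apply_ne h]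
    by_cases h1 : (M.e m).1 = (M.e m').1
    · have h2 : (M.e m').2 ≠ (M.e m).2 := fun h2 => h (M.e.injective (Prod.ext h1 h2.symm))
      rw [Matrix.one_apply_ne h2, mul_zero]
    · rw [Matrix.one_apply_ne h1, zero_mul]

lemma actM_kr (g h : Matrix ι ι K) : actM g h (M.tmul N) = kr (actM g h M) (actM g h N) := by
  funext p q
  have e1 : actM g h (M.tmul N) p q =
      (∏ i : M.I ⊕ N.I, g (Sum.elim (M.e p.1).1 (N.e p.2).1 i)
        (Sum.elim (M.e q.1).1 (N.e q.2).1 i)) *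
      ∏ j : M.J ⊕ N.J, h (Sum.elim (M.e q.1).2 (N.e q.2).2 j)
        (Sum.elim (M.e p.1).2 (N.e p.2).2 j) := rfl
  have e2 : kr (actM g h M) (actM g h N) p q =
      ((∏ i, g ((M.e p.1).1 i) ((M.e q.1).1 i)) * ∏ j, h ((M.e q.1).2 j) ((M.e p.1).2 j)) *
      ((∏ i, g ((N.e p.2).1 i) ((N.e q.2).1 i)) * ∏ j, h ((N.e q.2).2 j) ((N.e p.2).2 j)) := rfl
  rw [e1, e2, Fintype.prod_sum_type, Fintype.prod_sum_type]
  simp only [Sum.elim_inl, Sum.elim_inr]
  ring

/-- The action on tensors. -/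
lemma vhat_act (g h : Matrix ι ι K) (t : M.X → K) :
    mvhat M (actM g h M *ᵥ t) = tp g M.I * mvhat M t * tp h M.J := by
  funext a b
  have e1 : mvhat M (actM g h M *ᵥ t) a b = ∑ m', (tp g M.I (M.e (M.e.symm (a, b))).1 (M.e m').1 *
      tp h M.J (M.e m').2 (M.e (M.e.symm (a, b))).2) * t m' := rfl
  have e2 : (tp g M.I * mvhat M t * tp h M.J) a b =
      ∑ v, (∑ u, tp g M.I a u * t (M.e.symm (u, v))) * tp h M.J v b := rfl
  rw [e1, e2, M.sum_eq', Finset.sum_comm]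
  refine Finset.sum_congr rfl fun v _ => ?_
  rw [Finset.sum_mul]
  refine Finset.sum_congr rfl fun u _ => ?_
  rw [Equiv.apply_symm_apply, Equiv.apply_symm_apply]
  ring

end Pool.Agent.R940
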