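import Pool.Agent.R940.TnL

/-!
# Spaces of functions on a group
-/

set_option linter.unusedVariables false
set_option linter.unusedSectionVars false

namespace Pool.Agent.R940

open Module Pool.Agent.Y163 Matrix

universe v

section Fun

variable {K : Type*} [Field K] [CharZero K] {V : Type*} [AddCommGroup V] [Module K V]
  [Module.Finite K V] {B : Subalgebra K (End K V)}

/-- The number of linearly independent matrix coefficients. -/
lemma fun_dim (w : Wed B) (hrad : rad B = ⊥) (T : Submodule K V)
    (hT : ∀ f ∈ B, ∀ t ∈ T, f t ∈ T) {Γ' : Type*} (ρ : Γ' → End K V)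
    (hρ : ∀ g, ∀ f ∈ B, ρ g * f = f * ρ g) {ν : Type*} [Fintype ν] (t : ν → V)
    (ht : ∀ i, t i ∈ T) (φ : ν → Module.Dual K V)
    (hlin : LinearIndependent K (fun i => (fun g => φ i (ρ g (t i)) : Γ' → K))) :
    Fintype.card ν ≤ ∑ c, finrank K (LinearMap.range (w.e (w.rep c))) *
      finrank K (T.map (w.e (w.rep c))) := by
  classical
  have hmem : ∀ c, ∀ x ∈ T.map (w.e (w.rep c)), ∀ g, ρ g x ∈ LinearMap.range (w.e (w.rep c)) := by
    rintro c _ ⟨s, hs, rfl⟩ g
    refine ⟨ρ g s, ?_⟩
    have := congrArg (fun f => f s) (hρ g _ (w.e_mem (w.rep c)))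
    exact this.symm
  let bR := fun c => Module.finBasis K (LinearMap.range (w.e (w.rep c)))
  let bT := fun c => Module.finBasis K (T.map (w.e (w.rep c)))
  let a : (Σ c : w.C, Fin (finrank K (LinearMap.range (w.e (w.rep c)))) ×
      Fin (finrank K (T.map (w.e (w.rep c))))) → (Γ' → K) := fun x g =>
    (bR x.1).repr ⟨ρ g (bT x.1 x.2.2 : V), hmem x.1 _ (bT x.1 x.2.2).2 g⟩ x.2.1
  -- the expansion
  have hexp : ∀ c, ∀ x : T.map (w.e (w.rep c)), ∀ ψ : Module.Dual K V,
      (fun g => ψ (ρ g (x : V)) : Γ' → K) ∈ Submodule.span K (Set.range a) := by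
    intro c x ψ
    have h1 : (fun g => ψ (ρ g (x : V)) : Γ' → K) = ∑ q, ∑ p, ((bT c).repr x q *
        ψ ((bR c p : LinearMap.range (w.e (w.rep c))) : V)) • a ⟨c, (p, q)⟩ := by
      funext g
      rw [Finset.sum_apply]
      have h2 : (x : V) = ∑ q, (bT c).repr x q • (bT c q : V) := by
        have h3 := congrArg (Submodule.subtype _) ((bT c).sum_repr x)
        rw [map_sum] at h3
        exact h3.symm
      have h4 : ∀ q, ρ g (bT c q : V) = ∑ p, a ⟨c, (p, q)⟩ g •
          ((bR c p : LinearMap.range (w.e (w.rep c))) : V) := by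
        intro q
        have h5 := congrArg (Submodule.subtype _)
          ((bR c).sum_repr ⟨ρ g (bT c q : V), hmem c _ (bT c q).2 g⟩)
        rw [map_sum] at h5
        exact h5.symm
      conv_lhs => rw [h2]
      rw [map_sum, map_sum]
      refine Finset.sum_congr rfl fun q _ => ?_
      rw [map_smul, map_smul, h4, map_sum, Finset.smul_sum, Finset.sum_apply]
      refine Finset.sum_congr rfl fun p _ => ?_
      rw [map_smul, Pi.smul_apply, smul_eq_mul, smul_eq_mul, smul_eq_mul]
      ring
    rw [h1]
    exact Submodule.sum_mem _ fun q _ => Submodule.sum_mem _ fun p _ =>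
      Submodule.smul_mem _ _ (Submodule.subset_span ⟨_, rfl⟩)
  have hall : ∀ x ∈ T, ∀ ψ : Module.Dual K V,
      (fun g => ψ (ρ g x) : Γ' → K) ∈ Submodule.span K (Set.range a) := by
    intro x hx ψ
    have h1 : (fun g => ψ (ρ g x) : Γ' → K) = ∑ i, fun g => ψ (ρ g (w.e i x)) := by
      funext g
      rw [Finset.sum_apply, ← map_sum, ← map_sum]
      have h2 : ∑ i, w.e i x = x := by
        have := congrArg (fun f => f x) w.e_sum
        simp only [LinearMap.sum_apply, Module.End.one_apply] at this
        exact this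
      rw [h2]
    rw [h1]
    refine Submodule.sum_mem _ fun i _ => ?_
    obtain ⟨u, hu, v, hv, heu, hue, hev, hve, huv, hvu⟩ :=
      w.conn i (w.rep (w.κ i)) (w.κ_rep _).symm
    rw [hrad, Submodule.mem_bot, sub_eq_zero] at huv
    have h3 : v x ∈ T.map (w.e (w.rep (w.κ i))) := by
      refine ⟨v x, hT v hv x hx, ?_⟩
      rw [← Module.End.mul_apply, hev]
    have h4 := hexp (w.κ i) ⟨v x, h3⟩ (ψ ∘ₗ u)
    refine Eq.subst (motive := fun F => F ∈ Submodule.span K (Set.range a)) ?_ h4
    funext g
    change ψ (u (ρ g (v x))) = ψ (ρ g (w.e i x))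
    have h5 : ρ g (u (v x)) = u (ρ g (v x)) := congrArg (fun f => f (v x)) (hρ g u hu)
    rw [← huv, Module.End.mul_apply, h5]
  have h1 : Submodule.span K (Set.range fun i => (fun g => φ i (ρ g (t i)) : Γ' → K)) ≤
      Submodule.span K (Set.range a) := by
    rw [Submodule.span_le]
    rintro _ ⟨i, rfl⟩
    exact hall (t i) (ht i) (φ i)
  have hfin : Module.Finite K (Submodule.span K (Set.range a)) :=
    Module.Finite.span_of_finite K (Set.finite_range a)
  have h2 := Submodule.finrank_mono h1
  rw [finrank_span_eq_card hlin] at h2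
  refine h2.trans ((finrank_range_le_card a).trans (le_of_eq ?_))
  rw [Fintype.card_sigma]
  refine Finset.sum_congr rfl fun c _ => ?_
  rw [Fintype.card_prod, Fintype.card_fin, Fintype.card_fin]

end Fun

/-- The powers of a function with infinitely many values are linearly independent. -/
lemma pow_indep {K : Type*} [Field K] {Γ' : Type*} (f : Γ' → K) (hf : (Set.range f).Infinite)
    (j : ℕ) : LinearIndependent K (fun i : Fin (j + 1) => (fun g => f g ^ (i : ℕ) : Γ' → K)) := by
  rw [Fintype.linearIndependent_iff]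
  intro c hc i
  let p : Polynomial K := ∑ i : Fin (j + 1), Polynomial.C (c i) * Polynomial.X ^ (i : ℕ)
  have hp : p = 0 := by
    apply Polynomial.eq_zero_of_infinite_isRoot
    refine hf.mono ?_
    rintro _ ⟨g, rfl⟩
    have h1 := congrFun hc g
    rw [Finset.sum_apply, Pi.zero_apply] at h1
    change Polynomial.eval (f g) p = 0
    rw [Polynomial.eval_finsetSum, ← h1]
    refine Finset.sum_congr rfl fun i _ => ?_
    rw [Polynomial.eval_mul, Polynomial.eval_C, Polynomial.eval_pow, Polynomial.eval_X]
    rfl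
  have h2 : p.coeff (i : ℕ) = c i := by
    rw [Polynomial.finsetSum_coeff, Finset.sum_eq_single i]
    · rw [Polynomial.coeff_C_mul_X_pow, if_pos rfl]
    · intro k _ hk
      rw [Polynomial.coeff_C_mul_X_pow, if_neg]
      intro h
      exact hk (Fin.ext h.symm)
    · intro h
      exact absurd (Finset.mem_univ _) h
  rw [← h2, hp, Polynomial.coeff_zero]

end Pool.Agent.R940
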