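import Pool.Agent.R940.TnH

/-!
# Invariants of a group and their tensor powers
-/

set_option linter.unusedVariables false
set_option linter.unusedSectionVars false

namespace Pool.Agent.R940

open Module Pool.Agent.Y163 Matrix

universe v

variable {K : Type v} [Field K] {ι : Type} [Fintype ι] [DecidableEq ι]

section

variable {P Q : Type} [Fintype P] [DecidableEq P] [Fintype Q] [DecidableEq Q]

lemma Fix.zero (g : Matrix ι ι K) : Fix g (0 : Matrix (P → ι) (Q → ι) K) := by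
  rw [Fix, Matrix.mul_zero, Matrix.zero_mul]

lemma Fix.add {g : Matrix ι ι K} {x y : Matrix (P → ι) (Q → ι) K} (hx : Fix g x)
    (hy : Fix g y) : Fix g (x + y) := by
  rw [Fix] at hx hy
  rw [Fix, Matrix.mul_add, Matrix.add_mul, hx, hy]

lemma Fix.smul {g : Matrix ι ι K} {x : Matrix (P → ι) (Q → ι) K} (c : K) (hx : Fix g x) :
    Fix g (c • x) := by
  rw [Fix] at hx
  rw [Fix, Matrix.mul_smul, Matrix.smul_mul, hx]

/-- The invariants of a group of matrices. -/
def invSub (G : Subgroup (GL ι K)) (P Q : Type) [Fintype P] [DecidableEq P] [Fintype Q]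
    [DecidableEq Q] : Submodule K (Matrix (P → ι) (Q → ι) K) where
  carrier := {x | ∀ g ∈ G, Fix (g : Matrix ι ι K) x}
  zero_mem' := fun g _ => Fix.zero _
  add_mem' := fun hx hy g hg => (hx g hg).add (hy g hg)
  smul_mem' := fun c _ hx g hg => (hx g hg).smul c

lemma mem_invSub {G : Subgroup (GL ι K)} {x : Matrix (P → ι) (Q → ι) K} :
    x ∈ invSub G P Q ↔ ∀ g ∈ G, Fix (g : Matrix ι ι K) x := Iff.rfl

/-- The invariants of subgroups of finite index. -/
def tateSubT {Γ : Type*} [Group Γ] (ρ : Γ →* GL ι K) (P Q : Type) [Fintype P] [DecidableEq P]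
    [Fintype Q] [DecidableEq Q] : Submodule K (Matrix (P → ι) (Q → ι) K) where
  carrier := {x | ∃ Δ : Subgroup Γ, Δ.FiniteIndex ∧ ∀ σ ∈ Δ, Fix (ρ σ : Matrix ι ι K) x}
  zero_mem' := ⟨⊤, inferInstance, fun σ _ => Fix.zero _⟩
  add_mem' := by
    rintro x y ⟨Δ, hΔ, hx⟩ ⟨Δ', hΔ', hy⟩
    exact ⟨Δ ⊓ Δ', inferInstance, fun σ hσ => (hx σ hσ.1).add (hy σ hσ.2)⟩
  smul_mem' := by
    rintro c x ⟨Δ, hΔ, hx⟩
    exact ⟨Δ, hΔ, fun σ hσ => (hx σ hσ).smul c⟩

lemma mem_tateSubT {Γ : Type*} [Group Γ] {ρ : Γ →* GL ι K} {x : Matrix (P → ι) (Q → ι) K} :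
    x ∈ tateSubT ρ P Q ↔ ∃ Δ : Subgroup Γ, Δ.FiniteIndex ∧
      ∀ σ ∈ Δ, Fix (ρ σ : Matrix ι ι K) x := Iff.rfl

end

/-- The system of the invariants of a group. -/
def invSys (G : Subgroup (GL ι K)) : TSys K ι where
  S P Q _ _ _ _ := invSub G P Q
  reindex := by
    intro P Q P' Q' _ _ _ _ _ _ _ _ e f x hx
    exact mem_invSub.2 fun g hg => (mem_invSub.1 hx g hg).reindex e f
  one := by
    intro P _ _
    exact mem_invSub.2 fun g hg => Fix.one (g : Matrix ι ι K)
  tensor := by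
    intro P Q P' Q' _ _ _ _ _ _ _ _ x y hx hy
    exact mem_invSub.2 fun g hg => (mem_invSub.1 hx g hg).tensor (mem_invSub.1 hy g hg)
  contract := by
    intro P Q R _ _ _ _ _ _ x hx
    exact mem_invSub.2 fun g hg => (mem_invSub.1 hx g hg).contract
      (h := ((g⁻¹ : GL ι K) : Matrix ι ι K)) (Units.mul_inv g)

/-- The system of the invariants of subgroups of finite index. -/
def tateSys {Γ : Type*} [Group Γ] (ρ : Γ →* GL ι K) : TSys K ι where
  S P Q _ _ _ _ := tateSubT ρ P Q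
  reindex := by
    intro P Q P' Q' _ _ _ _ _ _ _ _ e f x hx
    obtain ⟨Δ, hΔ, hx⟩ := mem_tateSubT.1 hx
    exact mem_tateSubT.2 ⟨Δ, hΔ, fun σ hσ => (hx σ hσ).reindex e f⟩
  one := by
    intro P _ _
    exact mem_tateSubT.2 ⟨⊤, inferInstance, fun σ _ => Fix.one (ρ σ : Matrix ι ι K)⟩
  tensor := by
    intro P Q P' Q' _ _ _ _ _ _ _ _ x y hx hy
    obtain ⟨Δ, hΔ, hx⟩ := mem_tateSubT.1 hx
    obtain ⟨Δ', hΔ', hy⟩ := mem_tateSubT.1 hy
    exact mem_tateSubT.2 ⟨Δ ⊓ Δ', inferInstance,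
      fun σ hσ => (hx σ hσ.1).tensor (hy σ hσ.2)⟩
  contract := by
    intro P Q R _ _ _ _ _ _ x hx
    obtain ⟨Δ, hΔ, hx⟩ := mem_tateSubT.1 hx
    exact mem_tateSubT.2 ⟨Δ, hΔ, fun σ hσ => (hx σ hσ).contract
      (h := (((ρ σ)⁻¹ : GL ι K) : Matrix ι ι K)) (Units.mul_inv (ρ σ))⟩

lemma inv_le_tate {Γ : Type*} [Group Γ] {ρ : Γ →* GL ι K} {G : Subgroup (GL ι K)}
    (h : ∃ Δ : Subgroup Γ, Δ.FiniteIndex ∧ ∀ σ ∈ Δ, ρ σ ∈ G) : (invSys G).Le (tateSys ρ) := by
  obtain ⟨Δ, hΔ, h⟩ := h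
  intro P Q _ _ _ _ x hx
  exact mem_tateSubT.2 ⟨Δ, hΔ, fun σ hσ => mem_invSub.1 hx _ (h σ hσ)⟩

variable {M N L Y V : Ob ι}

/-- Tensors fixed by a matrix are fixed vectors. -/
lemma act_of_fix {g h : Matrix ι ι K} (hgh : g * h = 1) {t : M.X → K}
    (ht : Fix g (mvhat M t)) : actM g h M *ᵥ t = t := by
  have h1 := vhat_act (M := M) g h t
  rw [Fix] at ht
  rw [ht, Matrix.mul_assoc, ← tp_mul, hgh, tp_one, Matrix.mul_one] at h1
  exact (vhat M).injective h1

lemma fix_of_act {g h : Matrix ι ι K} (hgh : g * h = 1) {t : M.X → K}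
    (ht : actM g h M *ᵥ t = t) : Fix g (mvhat M t) := by
  have hhg : h * g = 1 := mul_eq_one_comm.1 hgh
  have h1 := vhat_act (M := M) g h t
  rw [ht] at h1
  rw [Fix]
  calc tp g M.I * mvhat M t = tp g M.I * mvhat M t * (tp h M.J * tp g M.J) := by
        rw [← tp_mul, hhg, tp_one, Matrix.mul_one]
    _ = (tp g M.I * mvhat M t * tp h M.J) * tp g M.J := by simp only [Matrix.mul_assoc]
    _ = _ := by rw [← h1]

/-- The action of a group element. -/
def act (g : GL ι K) (M : Ob ι) : Matrix M.X M.X K :=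
  actM (g : Matrix ι ι K) ((g⁻¹ : GL ι K) : Matrix ι ι K) M

lemma act_mul (g g' : GL ι K) : act (g * g') M = act g M * act g' M := by
  rw [act, act, act, actM_mul, _root_.mul_inv_rev, Units.val_mul, Units.val_mul]

lemma act_one : act (1 : GL ι K) M = 1 := by
  have h : act (1 : GL ι K) M = actM (1 : Matrix ι ι K) 1 M := by
    rw [act, inv_one, Units.val_one]
  rw [h, actM_one]

/-- An orbit is infinite if the group has no proper subgroups of finite index. -/
lemma infinite_orbit {G : Subgroup (GL ι K)}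
    (hG : ∀ N : Subgroup G, N.FiniteIndex → N = ⊤) {t : M.X → K}
    (ht : ∃ g ∈ G, act g M *ᵥ t ≠ t) :
    ∃ m, (Set.range fun g : G => (act (g : GL ι K) M *ᵥ t) m).Infinite := by
  by_contra hcon
  push Not at hcon
  have hfin : (Set.range fun g : G => act (g : GL ι K) M *ᵥ t).Finite := by
    refine Set.Finite.subset (Set.Finite.pi' fun m => hcon m) ?_
    rintro _ ⟨g, rfl⟩ m
    exact ⟨g, rfl⟩
  let N : Subgroup G :=
    { carrier := {g | act (g : GL ι K) M *ᵥ t = t}
      mul_mem' := by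
        intro a b ha hb
        change act ((a * b : G) : GL ι K) M *ᵥ t = t
        rw [Subgroup.coe_mul, act_mul, ← Matrix.mulVec_mulVec]
        have h1 : act (b : GL ι K) M *ᵥ t = t := hb
        rw [h1]
        exact ha
      one_mem' := by
        change act ((1 : G) : GL ι K) M *ᵥ t = t
        rw [Subgroup.coe_one, act_one, Matrix.one_mulVec]
      inv_mem' := by
        intro a ha
        have h1 : act (a : GL ι K) M *ᵥ t = t := ha
        change act ((a⁻¹ : G) : GL ι K) M *ᵥ t = t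
        calc act ((a⁻¹ : G) : GL ι K) M *ᵥ t
            = act ((a⁻¹ : G) : GL ι K) M *ᵥ (act (a : GL ι K) M *ᵥ t) := by rw [h1]
          _ = t := by
            rw [Matrix.mulVec_mulVec, ← act_mul, ← Subgroup.coe_mul, inv_mul_cancel,
              Subgroup.coe_one, act_one, Matrix.one_mulVec] }
  have hN : N.FiniteIndex := by
    have hfq : Finite (G ⧸ N) := by
      have : Finite (Set.range fun g : G => act (g : GL ι K) M *ᵥ t) := hfin
      refine Finite.of_injective (β := Set.range fun g : G => act (g : GL ι K) M *ᵥ t)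
        (fun q => ⟨act ((q.out : G) : GL ι K) M *ᵥ t, q.out, rfl⟩) ?_
      intro q q' h
      have h1 : act ((q.out : G) : GL ι K) M *ᵥ t = act ((q'.out : G) : GL ι K) M *ᵥ t :=
        congrArg Subtype.val h
      rw [← QuotientGroup.out_eq' q, ← QuotientGroup.out_eq' q', QuotientGroup.eq]
      change act (((q.out : G)⁻¹ * (q'.out : G) : G) : GL ι K) M *ᵥ t = t
      rw [Subgroup.coe_mul, act_mul, ← Matrix.mulVec_mulVec, ← h1, Matrix.mulVec_mulVec,
        ← act_mul, ← Subgroup.coe_mul, inv_mul_cancel, Subgroup.coe_one, act_one,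
        Matrix.one_mulVec]
    exact Subgroup.finiteIndex_of_finite_quotient
  obtain ⟨g, hg, hne⟩ := ht
  apply hne
  have h1 := hG N hN
  have h2 : (⟨g, hg⟩ : G) ∈ N := by rw [h1]; trivial
  exact h2

end Pool.Agent.R940
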