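import Pool.Agent.R940.TnI

/-!
# The law for connected groups
-/

set_option linter.unusedVariables false
set_option linter.unusedSectionVars false

namespace Pool.Agent.R940

open Module Pool.Agent.Y163 Matrix

universe v

variable {K : Type v} [Field K] {ι : Type} [Fintype ι] [DecidableEq ι] {A T : TSys K ι}
  {M N L Y V : Ob ι}

/-- The unit object. -/
def Ob.unit (ι : Type) : Ob ι where
  X := Unit
  I := Empty
  J := Empty
  e := { toFun := fun _ => (fun i => i.elim, fun i => i.elim)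
         invFun := fun _ => ()
         left_inv := fun _ => rfl
         right_inv := fun p => Prod.ext (funext fun i => i.elim) (funext fun i => i.elim) }

/-- The tensor powers of the endomorphisms. -/
def Yt (ι : Type) [Fintype ι] [DecidableEq ι] (κ : ℕ) : ℕ → Ob ι
  | 0 => Ob.unit ι
  | j + 1 => (U ι κ).tmul (Yt ι κ j)

lemma card_Yt_I (κ j : ℕ) : Fintype.card (Yt ι κ j).I = j * (κ + 1) := by
  induction j with
  | zero =>
    change Fintype.card Empty = _
    simp
  | succ j ih =>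
    change Fintype.card ((Fin (κ + 1) ⊕ Empty) ⊕ (Yt ι κ j).I) = _
    rw [Fintype.card_sum, ih]
    simp
    ring

lemma card_Yt_J (κ j : ℕ) : Fintype.card (Yt ι κ j).J = j * (κ + 1) := by
  induction j with
  | zero =>
    change Fintype.card Empty = _
    simp
  | succ j ih =>
    change Fintype.card ((Empty ⊕ Fin (κ + 1)) ⊕ (Yt ι κ j).J) = _
    rw [Fintype.card_sum, ih]
    simp
    ring

/-- The tensor product of vectors. -/
def vt (s : M.X → K) (t : N.X → K) : (M.tmul N).X → K := fun p => s p.1 * t p.2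

lemma vt_mem {s : M.X → K} {t : N.X → K} (hs : s ∈ tsub T M) (ht : t ∈ tsub T N) :
    vt s t ∈ tsub T (M.tmul N) :=
  T.mem_of (Equiv.refl (M.I ⊕ N.I)) (Equiv.refl (M.J ⊕ N.J)) (T.tensor hs ht) fun a b => rfl

lemma act_vt (g : GL ι K) (s : M.X → K) (t : N.X → K) :
    act g (M.tmul N) *ᵥ vt s t = vt (act g M *ᵥ s) (act g N *ᵥ t) := by
  rw [act, actM_kr]
  funext p
  have h1 : (kr (act g M) (act g N) *ᵥ vt s t) p = ∑ q : M.X × N.X,
      (act g M p.1 q.1 * act g N p.2 q.2) * (s q.1 * t q.2) := rfl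
  have h2 : vt (act g M *ᵥ s) (act g N *ᵥ t) p =
      (∑ m, act g M p.1 m * s m) * ∑ n, act g N p.2 n * t n := rfl
  refine Eq.trans h1 (Eq.trans ?_ h2.symm)
  rw [Fintype.sum_prod_type, Finset.sum_mul]
  refine Finset.sum_congr rfl fun m _ => ?_
  rw [Finset.mul_sum]
  exact Finset.sum_congr rfl fun n _ => by ring

/-- The vector of a tensor. -/
def vec (κ : ℕ) (x : Matrix (Fin (κ + 1) → ι) (Fin (κ + 1) → ι) K) : (U ι κ).X → K :=
  fun p => x p.1 p.2

lemma vec_mem {κ : ℕ} {x : Matrix (Fin (κ + 1) → ι) (Fin (κ + 1) → ι) K}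
    (hx : x ∈ T.S (Fin (κ + 1)) (Fin (κ + 1))) : vec κ x ∈ tsub T (U ι κ) :=
  T.mem_of (P := Fin (κ + 1)) (Q := Fin (κ + 1)) (P' := Fin (κ + 1) ⊕ Empty)
    (Q' := Empty ⊕ Fin (κ + 1)) (Equiv.sumEmpty (Fin (κ + 1)) Empty).symm
    (Equiv.emptySum Empty (Fin (κ + 1))).symm hx fun a b => rfl

lemma mvhat_vec {κ : ℕ} (x : Matrix (Fin (κ + 1) → ι) (Fin (κ + 1) → ι) K) :
    mvhat (U ι κ) (vec κ x) = rei (P := Fin (κ + 1)) (Q := Fin (κ + 1))
      (P' := Fin (κ + 1) ⊕ Empty) (Q' := Empty ⊕ Fin (κ + 1))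
      (Equiv.sumEmpty (Fin (κ + 1)) Empty).symm (Equiv.emptySum Empty (Fin (κ + 1))).symm x := rfl

lemma fix_vec {κ : ℕ} {g : Matrix ι ι K} {x : Matrix (Fin (κ + 1) → ι) (Fin (κ + 1) → ι) K} :
    Fix g (mvhat (U ι κ) (vec κ x)) ↔ Fix g x := by
  constructor
  · intro h
    have h1 := Fix.reindex (P := Fin (κ + 1) ⊕ Empty) (Q := Empty ⊕ Fin (κ + 1)) h
      (Equiv.sumEmpty (Fin (κ + 1)) Empty) (Equiv.emptySum Empty (Fin (κ + 1)))
    exact h1
  · intro h
    rw [mvhat_vec]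
    exact h.reindex _ _

/-- Powers of a matrix coefficient. -/
lemma exists_pow {κ : ℕ} {t : (U ι κ).X → K} (ht : t ∈ tsub T (U ι κ)) (m₀ : (U ι κ).X) (j : ℕ) :
    ∀ i ≤ j, ∃ s ∈ tsub T (Yt ι κ j), ∃ y : (Yt ι κ j).X, ∀ g : GL ι K,
      (act g (Yt ι κ j) *ᵥ s) y = ((act g (U ι κ) *ᵥ t) m₀) ^ i := by
  induction j with
  | zero =>
    intro i hi
    obtain rfl : i = 0 := by omega
    refine ⟨fun _ => 1, ?_, (), fun g => ?_⟩
    · refine T.mem_of (P := Empty) (Q := Empty) (P' := Empty) (Q' := Empty) (Equiv.refl Empty)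
        (Equiv.refl Empty) T.one fun a b => ?_
      have h1 : (a ∘ Equiv.refl Empty : Empty → ι) = b ∘ Equiv.refl Empty := Subsingleton.elim _ _
      rw [if_pos h1]
      rfl
    · rw [pow_zero]
      have h2 : ∀ (h : Matrix ι ι K) (a b : Empty → ι), tp h Empty a b = 1 := by
        intro h a b
        rw [tp]
        exact Finset.prod_empty
      have h1 : (act g (Ob.unit ι) *ᵥ fun _ => (1 : K)) () = ∑ u : Unit,
          act g (Ob.unit ι) () u * 1 := rfl
      refine Eq.trans h1 ?_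
      rw [Fintype.sum_unique, mul_one]
      exact Eq.trans (congrArg₂ (· * ·) (h2 (g : Matrix ι ι K) (fun i => i.elim)
        (fun i => i.elim)) (h2 ((g⁻¹ : GL ι K) : Matrix ι ι K) (fun i => i.elim)
        (fun i => i.elim))) (one_mul 1)
  | succ j ih =>
    intro i hi
    rcases Nat.lt_or_ge i (j + 1) with hlt | hge
    · obtain ⟨s, hs, y, hy⟩ := ih i (by omega)
      refine ⟨vt (vec κ (1 : Matrix (Fin (κ + 1) → ι) (Fin (κ + 1) → ι) K)) s,
        vt_mem (vec_mem ?_) hs, ((m₀.1, m₀.1), y), fun g => ?_⟩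
      · exact T.mem_of (Equiv.refl _) (Equiv.refl _) T.one fun a b => Matrix.one_apply
      · have h1 := act_vt g (vec κ (1 : Matrix (Fin (κ + 1) → ι) (Fin (κ + 1) → ι) K)) s
        have h2 : act g (U ι κ) *ᵥ vec κ (1 : Matrix (Fin (κ + 1) → ι) (Fin (κ + 1) → ι) K) =
            vec κ 1 := act_of_fix (Units.mul_inv g) (fix_vec.2 (Fix.one _))
        rw [h2] at h1
        have h3 := congrFun h1 ((m₀.1, m₀.1), y)
        refine Eq.trans h3 ?_
        change (1 : Matrix (Fin (κ + 1) → ι) (Fin (κ + 1) → ι) K) m₀.1 m₀.1 *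
          (act g (Yt ι κ j) *ᵥ s) y = _
        have e1 : (1 : Matrix (Fin (κ + 1) → ι) (Fin (κ + 1) → ι) K) m₀.1 m₀.1 = 1 :=
          Matrix.one_apply_eq _
        refine Eq.trans (congrArg (· * (act g (Yt ι κ j) *ᵥ s) y) e1) ?_

        rw [one_mul, hy]
    · obtain rfl : i = j + 1 := by omega
      obtain ⟨s, hs, y, hy⟩ := ih j le_rfl
      refine ⟨vt t s, vt_mem ht hs, (m₀, y), fun g => ?_⟩
      have h3 := congrFun (act_vt g t s) (m₀, y)
      refine Eq.trans h3 ?_
      change (act g (U ι κ) *ᵥ t) m₀ * (act g (Yt ι κ j) *ᵥ s) y = _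
      rw [hy, pow_succ']

/-- The trace forms are nondegenerate. -/
def NonDeg (A : TSys K ι) : Prop :=
  ∀ (n : ℕ) (x : (Fin n → ι) → (Fin n → ι) → K), x ∈ A.S (Fin n) (Fin n) →
    (∀ y ∈ A.S (Fin n) (Fin n), ∑ a, ∑ b, x a b * y b a = 0) → x = 0

lemma nondeg_gen (h : NonDeg A) {P Q : Type} [Fintype P] [DecidableEq P] [Fintype Q]
    [DecidableEq Q] (hPQ : Fintype.card P = Fintype.card Q) {x : (P → ι) → (Q → ι) → K}
    (hx : x ∈ A.S P Q) (hx0 : ∀ y ∈ A.S Q P, ∑ a, ∑ b, x a b * y b a = 0) : x = 0 := by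
  let e : P ≃ Fin (Fintype.card P) := Fintype.equivFin P
  let f : Q ≃ Fin (Fintype.card P) := Fintype.equivFinOfCardEq hPQ.symm
  have h1 := h _ (fun a b => x (a ∘ e) (b ∘ f)) (A.reindex e f hx) (by
    intro y hy
    have h2 := hx0 (fun b a => y (b ∘ f.symm) (a ∘ e.symm)) (A.reindex f.symm e.symm hy)
    rw [← h2]
    refine Fintype.sum_equiv (e.symm.arrowCongr (Equiv.refl ι)) _ _ fun a => ?_
    refine Fintype.sum_equiv (f.symm.arrowCongr (Equiv.refl ι)) _ _ fun b => ?_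
    have e1 : (e.symm.arrowCongr (Equiv.refl ι)) a = a ∘ e := rfl
    have e2 : (f.symm.arrowCongr (Equiv.refl ι)) b = b ∘ f := rfl
    rw [e1, e2]
    congr 2
    · funext i; simp
    · funext i; simp)
  funext a b
  have h3 := congrFun (congrFun h1 (a ∘ e.symm)) (b ∘ f.symm)
  simpa [Function.comp_def] using h3

lemma rr_eq (h : NonDeg A) {P Q : Type} [Fintype P] [DecidableEq P] [Fintype Q]
    [DecidableEq Q] (hPQ : Fintype.card P = Fintype.card Q) :
    rr A P Q = finrank K (A.S P Q) := by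
  refine LinearMap.finrank_range_of_inj ?_
  rw [injective_iff_map_eq_zero]
  rintro ⟨x, hx⟩ h0
  apply Subtype.ext
  exact nondeg_gen h hPQ hx fun y hy => congrArg (fun F => F ⟨y, hy⟩) h0

lemma al_eq_zz (h : NonDeg A) (n : ℕ) : al A n = zz A n := rr_eq h rfl

lemma rad_bot (h : NonDeg A) (hM : Fintype.card M.I = Fintype.card M.J) :
    rad (alg A M) = ⊥ := by
  have h1 : finrank K (THom A M M) = finrank K (A.S (M.I ⊕ M.J) (M.J ⊕ M.I)) :=
    (subEq (hat M M) (THom A M M) _ fun x => Iff.rfl).finrank_eq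
  have h2 : mk A M M 1 1 = finrank K (THom A M M) := by
    rw [mk_one, h1]
    exact rr_eq h (by rw [Fintype.card_sum, Fintype.card_sum, add_comm])
  have h3 := LinearMap.finrank_range_add_finrank_ker (bm A M M 1 1)
  have h4 : finrank K (LinearMap.ker (bm A M M 1 1)) = 0 := by
    have h5 : finrank K (LinearMap.range (bm A M M 1 1)) = finrank K (THom A M M) := h2
    omega
  have h5 : LinearMap.ker (bm A M M 1 1) = ⊥ := Submodule.finrank_eq_zero.1 h4
  rw [eq_bot_iff]
  rintro x ⟨hx, hx'⟩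
  have hF : LinearMap.toMatrix' x ∈ THom A M M := mem_lin.1 hx
  have h6 : (⟨LinearMap.toMatrix' x, hF⟩ : THom A M M) ∈ LinearMap.ker (bm A M M 1 1) := by
    rw [LinearMap.mem_ker]
    apply LinearMap.ext
    intro y
    rw [bm_apply, LinearMap.zero_apply, Matrix.mul_one, Matrix.mul_one,
      Matrix.trace_mul_comm]
    have h7 := hx' (Matrix.toLin' (y : Matrix M.X M.X K)) (toLin_mem y.2)
    rw [← Matrix.trace_toLin'_eq, Matrix.toLin'_mul, Matrix.toLin'_toMatrix']
    exact h7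
  rw [h5, Submodule.mem_bot] at h6
  have h7 : LinearMap.toMatrix' x = 0 := congrArg Subtype.val h6
  have h8 : x = 0 := by
    rw [← Matrix.toLin'_toMatrix' x, h7, map_zero]
  exact h8

variable [IsAlgClosed K] [CharZero K]

/-- The data at the level of the object `Y`. -/
noncomputable def lvlW (hAT : A.Le T) {κ : ℕ} (Y : Ob ι) (hI : Fintype.card Y.I = κ + 1)
    (hJ : Fintype.card Y.J = κ + 1) (w : Wed (alg A Y)) :
    LevelW (al A) (zz T) (Fintype.card ι ^ 2) κ where
  C := w.C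
  fC := inferInstance
  m := w.m
  s c := finrank K (LinearMap.range (w.e (w.rep c)))
  t c := finrank K ((tsub T Y).map (w.e (w.rep c)))
  N n c := mu (lin A Y (U ι n)) (lin A (U ι n) Y) 1 (w.e (w.rep c))
  m_pos c := Finset.card_pos.2 ⟨w.rep c, by simp [w.κ_rep]⟩
  sum_ms := by
    refine (sum_m_rank w).trans (le_of_eq ?_)
    rw [Module.finrank_fintype_fun_eq_card, Fintype.card_congr Y.e, Fintype.card_prod,
      Fintype.card_fun, Fintype.card_fun, hI, hJ, ← pow_mul, ← pow_add]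
    congr 1
    ring
  N_le n c := by
    have hmem : LinearMap.toMatrix' (w.e (w.rep c)) ∈ THom A Y Y := mem_lin.1 (w.e_mem _)
    have h1 := mult_le (V := Ob.pow ι (n + 1)) hmem (by
      rw [← toMat_mul, w.e_mul, if_pos rfl])
    rw [← al_eq_nu, Matrix.toLin'_toMatrix'] at h1
    have h2 : LinearMap.toMatrix' (1 : Module.End K ((U ι n).X → K)) = 1 :=
      LinearMap.toMatrix'_one
    rw [mu_eq_mk', h2]
    exact h1
  le_sum n := by
    have h0 : al A (κ + n + 1) = mu (lin A Y (U ι n)) (lin A (U ι n) Y) 1 1 := by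
      have e1 : LinearMap.toMatrix' (1 : Module.End K ((U ι n).X → K)) = 1 :=
        LinearMap.toMatrix'_one
      have e2 : LinearMap.toMatrix' (1 : Module.End K (Y.X → K)) = 1 :=
        LinearMap.toMatrix'_one
      rw [mu_eq_mk', e1, e2, mk_one]
      have h : ∀ (P Q : Type) [Fintype P] [DecidableEq P] [Fintype Q] [DecidableEq Q],
          Fintype.card P = κ + n + 2 → Fintype.card Q = κ + n + 2 →
            al A (κ + n + 1) = rr A P Q := by
        intro P Q _ _ _ _ hP hQ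
        exact rr_card (by rw [Fintype.card_fin, hP]) (by rw [Fintype.card_fin, hQ])
      apply h
      · change Fintype.card ((Fin (n + 1) ⊕ Empty) ⊕ Y.J) = κ + n + 2
        rw [Fintype.card_sum, hJ]
        simp
        ring
      · change Fintype.card ((Empty ⊕ Fin (n + 1)) ⊕ Y.I) = κ + n + 2
        rw [Fintype.card_sum, hI]
        simp
        ring
    rw [h0]
    have h2 := mu_sum_le (lin A Y (U ι n)) (lin A (U ι n) Y)
      (Finset.univ : Finset Unit) (Finset.univ : Finset w.I) (fun _ => 1) w.e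
    rw [w.e_sum] at h2
    simp only [Finset.univ_unique, Finset.sum_singleton] at h2
    refine h2.trans ?_
    rw [← w.sum_eq (fun c => mu (lin A Y (U ι n)) (lin A (U ι n) Y) 1 (w.e (w.rep c)))]
    exact Finset.sum_le_sum fun i _ => w.mu_le (duo A _ _) (alg A (U ι n)).one_mem i
  sum_le n := by
    have h1 := sum_mu_mul_le (duo A Y (U ι n)) w.prims
      (alg A (U ι n)).one_mem (mul_one 1) (tsub T Y) (tsub T (U ι n))
      (fun x hx t ht => tsub_stable hAT hx ht)
    have h2 : (tsub T (U ι n)).map (1 : Module.End K ((U ι n).X → K)) = tsub T (U ι n) :=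
      Submodule.map_id _
    rw [h2, finrank_tsub] at h1
    exact h1

/-- **The law for connected groups.** -/
theorem connected_law (hι : 0 < Fintype.card ι) {G : Subgroup (GL ι K)}
    (hG : ∀ N : Subgroup G, N.FiniteIndex → N = ⊤) (hnd : NonDeg (invSys G))
    (hGT : (invSys G).Le T) {κ : ℕ} {t : Matrix (Fin (κ + 1) → ι) (Fin (κ + 1) → ι) K}
    (ht : t ∈ T.S (Fin (κ + 1)) (Fin (κ + 1))) (hg : ∃ g ∈ G, ¬ Fix (g : Matrix ι ι K) t) :
    ManyTimes (Fintype.card ι) (κ + 1) (zz T) (al (invSys G)) := by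
  have hne : ∃ g ∈ G, act g (U ι κ) *ᵥ vec κ t ≠ vec κ t := by
    obtain ⟨g, hg, hne⟩ := hg
    exact ⟨g, hg, fun h => hne (fix_vec.1 (fix_of_act (Units.mul_inv g) h))⟩
  obtain ⟨m₀, hinf⟩ := infinite_orbit hG hne
  intro m n hn
  obtain ⟨κ', hκ'⟩ : ∃ κ', κ' + 1 = (m + 1) * (κ + 1) :=
    ⟨(m + 1) * (κ + 1) - 1, Nat.succ_pred_eq_of_pos (Nat.mul_pos (Nat.succ_pos m) (Nat.succ_pos κ))⟩
  obtain ⟨w⟩ := exists_wed (alg (invSys G) (Yt ι κ (m + 1)))
  have hpow := exists_pow (vec_mem ht) m₀ (m + 1)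
  choose s hs y hy using fun i : Fin (m + 1 + 1) => hpow i (by omega)
  have hdim := fun_dim w (rad_bot hnd (by rw [card_Yt_I, card_Yt_J])) (tsub T (Yt ι κ (m + 1)))
    (fun f hf t ht => tsub_stable hGT hf ht) (Γ' := G)
    (fun g => Matrix.toLin' (act (g : GL ι K) (Yt ι κ (m + 1)))) (by
      rintro ⟨g, hg⟩ f ⟨F, hF, rfl⟩
      have h1 := actM_comm (Units.mul_inv g) (mem_invSub.1 hF g hg)
      change Matrix.toLin' (act g (Yt ι κ (m + 1))) * Matrix.toLin' F =
        Matrix.toLin' F * Matrix.toLin' (act g (Yt ι κ (m + 1)))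
      have h2 := Matrix.toLin'_mul (act g (Yt ι κ (m + 1))) F
      have h3 := Matrix.toLin'_mul F (act g (Yt ι κ (m + 1)))
      exact h2.symm.trans ((congrArg Matrix.toLin' h1).trans h3)) s hs
    (fun i => LinearMap.proj (y i)) (by
      have h1 := pow_indep (fun g : G => (act (g : GL ι K) (U ι κ) *ᵥ vec κ t) m₀) hinf (m + 1)
      refine Eq.subst (motive := fun F => LinearIndependent K F) ?_ h1
      funext i g
      exact (hy i g).symm)
  rw [Fintype.card_fin] at hdim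
  have h := eff_law_w (pow_pos hι 2) al_zero_le al_sq_le al_growth
    (lvlW hGT (κ := κ') (Yt ι κ (m + 1)) (by rw [card_Yt_I, hκ']) (by rw [card_Yt_J, hκ']) w)
    hdim hn
  refine le_trans (le_of_eq ?_) h
  have h4 : ((κ' : ℝ) + 1) = (m + 1) * ((κ + 1 : ℕ) : ℝ) := by
    have := congrArg (Nat.cast (R := ℝ)) hκ'
    push_cast at this ⊢
    exact this
  have h5 : ((Fintype.card ι ^ 2 : ℕ) : ℝ) ^ (κ' + 1) * ((Fintype.card ι ^ 2 : ℕ) : ℝ) =
      (Fintype.card ι : ℝ) ^ (2 * (m + 1) * (κ + 1) + 2) := by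
    push_cast
    rw [hκ', ← pow_mul, ← pow_add]
    congr 1
    ring
  rw [h4, mul_assoc _ (((Fintype.card ι ^ 2 : ℕ) : ℝ) ^ (κ' + 1)), h5]
  push_cast
  ring

end Pool.Agent.R940
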