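import Pool.Agent.R940.TnJ
import Mathlib.RingTheory.MvPolynomial.Homogeneous
import Mathlib.RingTheory.SimpleModule.Basic

/-!
# Completely reducible groups: trace forms and double commutants
-/

set_option linter.unusedVariables false
set_option linter.unusedSectionVars false

namespace Pool.Agent.R940

open Module Matrix

universe v

variable {K : Type v} [Field K] {ι : Type} [Fintype ι] [DecidableEq ι]

/-- A subspace of the `n`-th tensor power is stable under a group of matrices. -/
def Stab (G : Subgroup (GL ι K)) (n : ℕ) (W : Submodule K ((Fin n → ι) → K)) : Prop :=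
  ∀ g ∈ G, ∀ w ∈ W, tp (g : Matrix ι ι K) (Fin n) *ᵥ w ∈ W

/-- A group of matrices acts completely reducibly on all tensor powers. -/
def CompRed (G : Subgroup (GL ι K)) : Prop :=
  ∀ (n : ℕ) (W : Submodule K ((Fin n → ι) → K)), Stab G n W →
    ∃ W' : Submodule K ((Fin n → ι) → K), Stab G n W' ∧ IsCompl W W'

/-- The action on the tensors, as a homomorphism. -/
noncomputable def tpHom (n : ℕ) : GL ι K →* Module.End K ((Fin n → ι) → K) where
  toFun g := Matrix.toLin' (tp (g : Matrix ι ι K) (Fin n))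
  map_one' := by rw [Units.val_one, tp_one, Matrix.toLin'_one]; rfl
  map_mul' g h := by rw [Units.val_mul, tp_mul, Matrix.toLin'_mul]; rfl

/-- The algebra spanned by the elements of a group. -/
noncomputable def spanAlg (G : Subgroup (GL ι K)) (n : ℕ) :
    Subalgebra K (Module.End K ((Fin n → ι) → K)) :=
  Algebra.adjoin K (MonoidHom.mrange ((tpHom n).comp G.subtype) :
    Set (Module.End K ((Fin n → ι) → K)))

variable {G : Subgroup (GL ι K)} {n : ℕ}

lemma mem_spanAlg {y : Module.End K ((Fin n → ι) → K)} (hy : y ∈ spanAlg G n) :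
    y ∈ Submodule.span K (Set.range fun g : G => tpHom n (g : GL ι K)) := by
  have h := Algebra.adjoin_eq_span K (MonoidHom.mrange ((tpHom n).comp G.subtype) :
    Set (Module.End K ((Fin n → ι) → K)))
  rw [Submonoid.closure_eq] at h
  have h1 : y ∈ Subalgebra.toSubmodule (spanAlg G n) := hy
  rw [spanAlg, h] at h1
  exact h1

/-- An element of the algebra. -/
noncomputable def spG (n : ℕ) (g : G) : spanAlg G n :=
  ⟨tpHom n (g : GL ι K), Algebra.subset_adjoin ⟨g, rfl⟩⟩

lemma semisimple (hG : CompRed G) (n : ℕ) :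
    IsSemisimpleModule (spanAlg G n) ((Fin n → ι) → K) := by
  rw [isSemisimpleModule_iff]
  refine ⟨fun N => ?_⟩
  obtain ⟨W', hst, hc⟩ := hG n (N.restrictScalars K) (by
    intro g hg w hw
    exact N.smul_mem (spG n ⟨g, hg⟩) hw)
  have hst' : ∀ a ∈ spanAlg G n, ∀ w ∈ W', a w ∈ W' := by
    intro a ha
    refine Algebra.adjoin_induction (p := fun a _ => ∀ w ∈ W', a w ∈ W') ?_ ?_ ?_ ?_ ha
    · rintro _ ⟨⟨g, hg⟩, rfl⟩ w hw
      exact hst g hg w hw
    · intro r w hw
      exact W'.smul_mem r hw
    · intro x y _ _ hx hy w hw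
      exact W'.add_mem (hx w hw) (hy w hw)
    · intro x y _ _ hx hy w hw
      exact hx _ (hy w hw)
  let N' : Submodule (spanAlg G n) ((Fin n → ι) → K) :=
    { carrier := W'
      zero_mem' := W'.zero_mem
      add_mem' := fun h1 h2 => W'.add_mem h1 h2
      smul_mem' := fun a w hw => hst' a a.2 w hw }
  refine ⟨N', ?_⟩
  rw [isCompl_iff] at hc ⊢
  constructor
  · rw [Submodule.disjoint_def]
    intro x hx hx'
    exact Submodule.disjoint_def.1 hc.1 x hx hx'
  · rw [codisjoint_iff, eq_top_iff]
    intro x _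
    have h1 : x ∈ N.restrictScalars K ⊔ W' := by
      rw [codisjoint_iff.1 hc.2]
      exact Submodule.mem_top
    obtain ⟨y, hy, z, hz, rfl⟩ := Submodule.mem_sup.1 h1
    exact Submodule.add_mem_sup (S := N) (T := N') hy hz

/-- Equivariant endomorphisms are invariant tensors. -/
lemma toMatrix_mem (φ : Module.End (spanAlg G n) ((Fin n → ι) → K)) :
    LinearMap.toMatrix' (φ.restrictScalars K) ∈ invSub G (Fin n) (Fin n) := by
  intro g hg
  have h1 : tpHom n g ∘ₗ φ.restrictScalars K = φ.restrictScalars K ∘ₗ tpHom n g := by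
    apply LinearMap.ext
    intro w
    exact (φ.map_smul (spG n ⟨g, hg⟩) w).symm
  have h2 := congrArg LinearMap.toMatrix' h1
  rw [LinearMap.toMatrix'_comp, LinearMap.toMatrix'_comp] at h2
  have h3 : LinearMap.toMatrix' (tpHom n g) = tp (g : Matrix ι ι K) (Fin n) :=
    LinearMap.toMatrix'_toLin' _
  rw [h3] at h2
  exact h2

/-- Invariant tensors are equivariant endomorphisms. -/
lemma exists_end {x : Matrix (Fin n → ι) (Fin n → ι) K} (hx : x ∈ invSub G (Fin n) (Fin n)) :
    ∃ φ : Module.End (spanAlg G n) ((Fin n → ι) → K), φ.restrictScalars K = Matrix.toLin' x := by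
  refine ⟨{ toFun := fun w => Matrix.toLin' x w
            map_add' := map_add _
            map_smul' := ?_ }, rfl⟩
  rintro ⟨a, ha⟩ w
  change Matrix.toLin' x (a w) = a (Matrix.toLin' x w)
  revert w
  refine Algebra.adjoin_induction (p := fun a _ => ∀ w, Matrix.toLin' x (a w) =
    a (Matrix.toLin' x w)) ?_ ?_ ?_ ?_ ha
  · rintro _ ⟨⟨g, hg⟩, rfl⟩ w
    have h1 : tp (g : Matrix ι ι K) (Fin n) * x = x * tp (g : Matrix ι ι K) (Fin n) := hx g hg
    have h2 := congrArg (fun F => Matrix.toLin' F w) h1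
    simp only [Matrix.toLin'_mul] at h2
    exact h2.symm
  · intro r w
    exact map_smul _ r w
  · intro a b _ _ ha hb w
    rw [LinearMap.add_apply, LinearMap.add_apply, map_add, ha, hb]
  · intro a b _ _ ha hb w
    rw [Module.End.mul_apply, Module.End.mul_apply, ha, hb]

/-- **The double commutant theorem.** -/
lemma double_commutant (hG : CompRed G) {m : GL ι K}
    (hm : ∀ x ∈ invSub G (Fin n) (Fin n), Fix (m : Matrix ι ι K) x) :
    tp (m : Matrix ι ι K) (Fin n) ∈
      Submodule.span K (Set.range fun g : G => tp ((g : GL ι K) : Matrix ι ι K) (Fin n)) := by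
  classical
  have := semisimple hG n
  let f : Module.End (Module.End (spanAlg G n) ((Fin n → ι) → K)) ((Fin n → ι) → K) :=
    { toFun := fun w => tpHom n m w
      map_add' := map_add _
      map_smul' := by
        intro φ w
        have h1 := hm _ (toMatrix_mem φ)
        have h2 := congrArg (fun F => Matrix.toLin' F w) h1
        simp only [Matrix.toLin'_mul, Matrix.toLin'_toMatrix'] at h2
        exact h2 }
  obtain ⟨r, hr⟩ := jacobson_density (R := spanAlg G n) (M := (Fin n → ι) → K) f
    (Finset.univ.image fun i => Pi.single i (1 : K))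
  have h1 : tpHom n m = (r : Module.End K ((Fin n → ι) → K)) := by
    refine (Pi.basisFun K (Fin n → ι)).ext fun i => ?_
    rw [Pi.basisFun_apply]
    exact hr _ (Finset.mem_image.2 ⟨i, Finset.mem_univ _, rfl⟩)
  have h2 := mem_spanAlg r.2
  rw [← h1] at h2
  let F : Module.End K ((Fin n → ι) → K) →ₗ[K] Matrix (Fin n → ι) (Fin n → ι) K :=
    LinearMap.toMatrix'.toLinearMap
  have h4 : ∀ g : GL ι K, F (tpHom n g) = tp (g : Matrix ι ι K) (Fin n) :=
    fun g => LinearMap.toMatrix'_toLin' _
  have h3 := Submodule.mem_map_of_mem (f := F) h2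
  rw [Submodule.map_span, ← Set.range_comp, h4] at h3
  have h5 : (⇑F ∘ fun g : G => tpHom n (g : GL ι K)) =
      fun g : G => tp ((g : GL ι K) : Matrix ι ι K) (Fin n) := funext fun g => h4 _
  rw [h5] at h3
  exact h3

/-- Endomorphisms of semisimple modules are von Neumann regular. -/
lemma exists_regular {R N : Type*} [Ring R] [AddCommGroup N] [Module R N]
    [IsSemisimpleModule R N] (φ : N →ₗ[R] N) : ∃ ψ : N →ₗ[R] N, ∀ w, φ (ψ (φ w)) = φ w := by
  obtain ⟨s, hs⟩ := IsSemisimpleModule.lifting_property φ.rangeRestrict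
    φ.surjective_rangeRestrict LinearMap.id
  obtain ⟨p, hp⟩ := IsSemisimpleModule.extension_property (LinearMap.range φ).subtype
    (Submodule.subtype_injective _) (LinearMap.id : LinearMap.range φ →ₗ[R] LinearMap.range φ)
  refine ⟨s ∘ₗ p, fun w => ?_⟩
  have h1 : p (φ w) = φ.rangeRestrict w := congrArg (fun F => F (φ.rangeRestrict w)) hp
  have h2 := congrArg (fun F => F (φ.rangeRestrict w)) hs
  have h3 := congrArg Subtype.val h2
  rw [LinearMap.comp_apply, h1]
  exact h3

/-- **Complete reducibility makes the trace form nondegenerate.** -/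
lemma trace_nondeg [CharZero K] (hG : CompRed G) {x : Matrix (Fin n → ι) (Fin n → ι) K}
    (hx : x ∈ invSub G (Fin n) (Fin n))
    (h0 : ∀ y ∈ invSub G (Fin n) (Fin n), Matrix.trace (x * y) = 0) : x = 0 := by
  have := semisimple hG n
  obtain ⟨φ, hφ⟩ := exists_end (n := n) (x := x) hx
  obtain ⟨ψ, hψ⟩ := exists_regular (R := spanAlg G n) (N := (Fin n → ι) → K) φ
  have h1 := h0 _ (toMatrix_mem ψ)
  have h2 : LinearMap.trace K _ (φ.restrictScalars K ∘ₗ ψ.restrictScalars K) = 0 := by
    rw [hφ, ← Matrix.toLin'_toMatrix' (ψ.restrictScalars K), ← Matrix.toLin'_mul,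
      Matrix.trace_toLin'_eq]
    exact h1
  have h3 : LinearMap.IsProj (LinearMap.range (φ.restrictScalars K))
      (φ.restrictScalars K ∘ₗ ψ.restrictScalars K) := by
    refine ⟨fun w => ⟨ψ w, rfl⟩, ?_⟩
    rintro _ ⟨w, rfl⟩
    exact hψ w
  rw [h3.trace, Nat.cast_eq_zero, Submodule.finrank_eq_zero, LinearMap.range_eq_bot, hφ] at h2
  exact (LinearEquiv.map_eq_zero_iff _).1 h2

lemma nonDeg_of_compRed [CharZero K] (hG : CompRed G) : NonDeg (invSys G) :=
  fun n x hx h0 => trace_nondeg hG hx fun y hy => h0 y hy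

end Pool.Agent.R940
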