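import Pool.Agent.R940.TnG
import Pool.Agent.R940.DFin

/-!
# The effective limit law at a single level
-/

set_option linter.unusedVariables false
set_option linter.unusedSectionVars false

namespace Pool.Agent.R940

open Module Pool.Agent.Y163 Finset

/-- The data at one level. -/
structure LevelW (α z : ℕ → ℕ) (b k : ℕ) where
  /-- the classes -/
  C : Type
  fC : Fintype C
  /-- multiplicities -/
  m : C → ℕ
  /-- ranks -/
  s : C → ℕ
  /-- dimensions -/
  t : C → ℕ
  /-- numbers of homomorphisms -/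
  N : ℕ → C → ℕ
  m_pos : ∀ c, 0 < m c
  sum_ms : ∑ c, m c * s c ≤ b ^ (k + 1)
  N_le : ∀ M c, N M c ≤ s c * α M
  le_sum : ∀ M, α (k + M + 1) ≤ ∑ c, m c * N M c
  sum_le : ∀ M, ∑ c, N M c * t c ≤ z M

attribute [instance] LevelW.fC

section Law

variable {α z : ℕ → ℕ} {b e : ℕ}

/-- **The effective limit law**, for arbitrary lower bounds of the limit. -/
theorem eff_law_w (hb : 0 < b) (h0 : α 0 ≤ b)
    (h2 : ∀ n, α (n + 1) ^ 2 ≤ α n * α (n + 2)) (h3 : ∀ n, b ^ (n + 1) ≤ α n * (n + 2) ^ e)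
    {κ : ℕ} (l : LevelW α z b κ) {S : ℕ} (hS : S ≤ ∑ c, l.s c * l.t c) {M : ℕ} (hM : 0 < M) :
    S * (1 - (κ + 1) * b ^ (κ + 1) * e * Real.log (M + 2) / M) * α M ≤ z M := by
  have hpos : ∀ n, 0 < α n := by
    intro n
    apply Nat.pos_of_ne_zero
    intro h
    have := h3 n
    rw [h, zero_mul] at this
    exact absurd (pow_pos hb (n + 1)) (by omega)
  have hposR : ∀ n, (0 : ℝ) < α n := fun n => by exact_mod_cast hpos n
  have heta := eta_le hb h0 h2 h3 κ hM
  set η : ℝ := (b : ℝ) ^ (κ + 1) - (α (M + (κ + 1)) : ℝ) / α M with hη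
  have e1 : ∀ c, (0 : ℝ) ≤ l.s c * α M - l.N M c := by
    intro c
    have := l.N_le M c
    have h4 : (l.N M c : ℝ) ≤ l.s c * α M := by exact_mod_cast this
    linarith
  have hN : ∀ c, ((l.s c : ℝ) - η) * α M ≤ l.N M c := by
    intro c
    have e2 : (l.s c : ℝ) * α M - l.N M c ≤ ∑ c, (l.m c : ℝ) * (l.s c * α M - l.N M c) := by
      calc (l.s c : ℝ) * α M - l.N M c ≤ l.m c * (l.s c * α M - l.N M c) := by
            have h5 : (1 : ℝ) ≤ l.m c := by exact_mod_cast l.m_pos c
            nlinarith [e1 c]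
        _ ≤ ∑ c, (l.m c : ℝ) * (l.s c * α M - l.N M c) :=
            Finset.single_le_sum (f := fun c => (l.m c : ℝ) * (l.s c * α M - l.N M c))
              (fun c _ => mul_nonneg (Nat.cast_nonneg _) (e1 c)) (Finset.mem_univ c)
    have e3 : ∑ c, (l.m c : ℝ) * (l.s c * α M - l.N M c) =
        (∑ c, (l.m c : ℝ) * l.s c) * α M - ∑ c, (l.m c : ℝ) * l.N M c := by
      rw [Finset.sum_mul, ← Finset.sum_sub_distrib]
      apply Finset.sum_congr rfl
      intro c _
      ring
    have e4 : (∑ c, (l.m c : ℝ) * l.s c) ≤ (b : ℝ) ^ (κ + 1) := by exact_mod_cast l.sum_ms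
    have e5 : (α (M + (κ + 1)) : ℝ) ≤ ∑ c, (l.m c : ℝ) * l.N M c := by
      have := l.le_sum M
      rw [show κ + M + 1 = M + (κ + 1) by ring] at this
      exact_mod_cast this
    have e6 : η * α M = (b : ℝ) ^ (κ + 1) * α M - α (M + (κ + 1)) := by
      simp only [hη]
      have := (hposR M).ne'
      field_simp
    have e7 : (∑ c, (l.m c : ℝ) * l.s c) * α M ≤ (b : ℝ) ^ (κ + 1) * α M :=
      mul_le_mul_of_nonneg_right e4 (hposR M).le
    have e8 : ((l.s c : ℝ) - η) * α M = l.s c * α M - η * α M := by ring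
    rw [e8, e6]
    linarith
  have hz0 : (0 : ℝ) ≤ z M := Nat.cast_nonneg _
  rcases le_or_gt 1 η with h1 | h1
  · refine le_trans ?_ hz0
    apply mul_nonpos_of_nonpos_of_nonneg _ (hposR M).le
    apply mul_nonpos_of_nonneg_of_nonpos (Nat.cast_nonneg _)
    linarith
  · have hterm : ∀ c, (1 - η) * α M * ((l.s c * l.t c : ℕ) : ℝ) ≤ (l.N M c * l.t c : ℕ) := by
      intro c
      push_cast
      have ht : (0 : ℝ) ≤ l.t c := Nat.cast_nonneg _
      have hs : (1 - η) * α M * l.s c ≤ l.N M c := by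
        rcases Nat.eq_zero_or_pos (l.s c) with h | h
        · rw [h, Nat.cast_zero, mul_zero]
          exact Nat.cast_nonneg _
        · refine le_trans ?_ (hN c)
          have h5 : (1 : ℝ) ≤ l.s c := by exact_mod_cast h
          have h6 := hposR M
          have h7 : (1 - η) * l.s c ≤ l.s c - η ∨ η < 0 := by
            rcases lt_or_ge η 0 with h8 | h8
            · exact Or.inr h8
            · left; nlinarith
          rcases h7 with h7 | h7
          · calc (1 - η) * α M * l.s c = ((1 - η) * l.s c) * α M := by ring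
              _ ≤ _ := mul_le_mul_of_nonneg_right h7 h6.le
          · -- `η` is nonnegative
            exfalso
            have h9 := hN c
            have h10 := e1 c
            nlinarith
      calc (1 - η) * α M * (l.s c * l.t c) = ((1 - η) * α M * l.s c) * l.t c := by ring
        _ ≤ _ := mul_le_mul_of_nonneg_right hs ht
    have h5 : (∑ c, (l.N M c : ℝ) * l.t c) ≤ z M := by exact_mod_cast l.sum_le M
    have h6 : (1 - η) * α M * (∑ c, ((l.s c * l.t c : ℕ) : ℝ)) ≤ z M := by
      rw [Finset.mul_sum]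
      refine le_trans (Finset.sum_le_sum fun c _ => hterm c) ?_
      push_cast
      exact h5
    have h7 : (S : ℝ) ≤ ∑ c, ((l.s c * l.t c : ℕ) : ℝ) := by exact_mod_cast hS
    have h8 : 0 ≤ (1 - η) * α M := mul_nonneg (by linarith) (hposR M).le
    have h9 : (1 - η) * α M * S ≤ z M := (mul_le_mul_of_nonneg_left h7 h8).trans h6
    refine le_trans ?_ h9
    have h10 : (S : ℝ) * (1 - (κ + 1) * b ^ (κ + 1) * e * Real.log (M + 2) / M) ≤
        S * (1 - η) := mul_le_mul_of_nonneg_left (by linarith) (Nat.cast_nonneg _)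
    calc S * (1 - (κ + 1) * b ^ (κ + 1) * e * Real.log (M + 2) / M) * α M
        ≤ S * (1 - η) * α M := mul_le_mul_of_nonneg_right h10 (hposR M).le
      _ = (1 - η) * α M * S := by ring

end Law

end Pool.Agent.R940
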