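import Pool.Agent.R940.TnK
import Mathlib.Algebra.Polynomial.Roots

/-!
# Polynomials in the matrix entries and invariant tensors
-/

set_option linter.unusedVariables false
set_option linter.unusedSectionVars false

namespace Pool.Agent.R940

open Module Matrix

universe v

variable {K : Type v} [Field K] {ι : Type} [Fintype ι] [DecidableEq ι]

/-- The value of a polynomial in the matrix entries. -/
noncomputable def pev (p : MvPolynomial (ι × ι) K) (g : GL ι K) : K :=
  MvPolynomial.eval (fun ij : ι × ι => (g : Matrix ι ι K) ij.1 ij.2) p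

/-- Every homogeneous polynomial of degree `a` in the matrix entries that vanishes on `S` vanishes
on `M`. -/
def DenseIn (a : ℕ) (S M : Subgroup (GL ι K)) : Prop :=
  ∀ p : MvPolynomial (ι × ι) K, p.IsHomogeneous a → (∀ g ∈ S, pev p g = 0) → ∀ g ∈ M, pev p g = 0

/-- Every polynomial in the matrix entries that vanishes on `S` vanishes on `M`. -/
def ZDense (S M : Subgroup (GL ι K)) : Prop :=
  ∀ p : MvPolynomial (ι × ι) K, (∀ g ∈ S, pev p g = 0) → ∀ g ∈ M, pev p g = 0

/-- Monomials are products of entries. -/
lemma exists_word {σ : Type*} (d : σ →₀ ℕ) {a : ℕ} (hd : d.degree = a) :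
    ∃ s : Fin a → σ, ∀ x : σ → K, (∏ i ∈ d.support, x i ^ d i) = ∏ k, x (s k) := by
  obtain ⟨l, hl⟩ := Quot.exists_rep (Finsupp.toMultiset d)
  have hl' : (l : Multiset σ) = Finsupp.toMultiset d := hl
  have hlen : l.length = a := by
    rw [← hd, ← Multiset.coe_card, hl', Finsupp.card_toMultiset]
    rfl
  subst hlen
  refine ⟨fun k => l[k.1], fun x => ?_⟩
  have h1 : (∏ i ∈ d.support, x i ^ d i) = ((Finsupp.toMultiset d).map x).prod := by
    rw [Finsupp.toMultiset_map, Finsupp.prod_toMultiset, Finsupp.prod_mapDomain_index]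
    · rfl
    · intro b
      exact pow_zero b
    · intro b m₁ m₂
      exact pow_add b m₁ m₂
  rw [h1, ← hl', Multiset.map_coe, Multiset.prod_coe, Fin.prod_univ_fun_getElem]

/-- Homogeneous polynomials are linear in the tensor power. -/
lemma exists_functional {a : ℕ} {p : MvPolynomial (ι × ι) K} (hp : p.IsHomogeneous a) :
    ∃ L : Matrix (Fin a → ι) (Fin a → ι) K →ₗ[K] K, ∀ g : GL ι K,
      pev p g = L (tp (g : Matrix ι ι K) (Fin a)) := by
  have h1 : ∀ d : (ι × ι) →₀ ℕ, ∃ L : Matrix (Fin a → ι) (Fin a → ι) K →ₗ[K] K,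
      d ∈ p.support → ∀ g : GL ι K, (∏ i ∈ d.support, (g : Matrix ι ι K) i.1 i.2 ^ d i) =
        L (tp (g : Matrix ι ι K) (Fin a)) := by
    intro d
    by_cases hd : d ∈ p.support
    · have hd' : d.degree = a := by
        by_contra hcon
        exact MvPolynomial.mem_support_iff.1 hd (hp.coeff_eq_zero hcon)
      obtain ⟨s, hs⟩ := exists_word (K := K) d hd'
      refine ⟨{ toFun := fun X => X (fun i => (s i).1) (fun i => (s i).2)
                map_add' := fun _ _ => rfl
                map_smul' := fun _ _ => rfl }, fun _ g => ?_⟩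
      exact hs fun i => (g : Matrix ι ι K) i.1 i.2
    · exact ⟨0, fun h => absurd h hd⟩
  choose L hL using h1
  refine ⟨∑ d ∈ p.support, p.coeff d • L d, fun g => ?_⟩
  rw [pev, MvPolynomial.eval_eq, LinearMap.sum_apply]
  refine Finset.sum_congr rfl fun d hd => ?_
  rw [LinearMap.smul_apply, smul_eq_mul, ← hL d hd g]

/-- The product of entries, as a polynomial. -/
noncomputable def mono {n : ℕ} (a b : Fin n → ι) : MvPolynomial (ι × ι) K :=
  ∏ i, MvPolynomial.X (a i, b i)

lemma mono_homog {n : ℕ} (a b : Fin n → ι) : (mono (K := K) a b).IsHomogeneous n := by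
  have h := MvPolynomial.IsHomogeneous.prod (Finset.univ : Finset (Fin n))
    (fun i => (MvPolynomial.X (a i, b i) : MvPolynomial (ι × ι) K)) (fun _ => 1)
    (fun i _ => MvPolynomial.isHomogeneous_X K (a i, b i))
  rw [Finset.sum_const, Finset.card_univ, Fintype.card_fin, smul_eq_mul, mul_one] at h
  exact h

lemma pev_mono {n : ℕ} (a b : Fin n → ι) (g : GL ι K) :
    pev (mono a b) g = tp (g : Matrix ι ι K) (Fin n) a b := by
  rw [pev, mono, map_prod]
  exact Finset.prod_congr rfl fun i _ => by rw [MvPolynomial.eval_X]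

variable {G M : Subgroup (GL ι K)} {n : ℕ}

/-- If the polynomials vanishing on `G` vanish on `M`, invariants of `G` are invariants of `M`. -/
lemma inv_of_dense (h : DenseIn n G M) : invSub G (Fin n) (Fin n) ≤ invSub M (Fin n) (Fin n) := by
  intro x hx m hm
  funext a b
  let p : MvPolynomial (ι × ι) K := (∑ c, x c b • mono a c) - ∑ c, x a c • mono c b
  have hp : ∀ g : GL ι K, pev p g = (tp (g : Matrix ι ι K) (Fin n) * x) a b -
      (x * tp (g : Matrix ι ι K) (Fin n)) a b := by
    intro g
    have h1 : pev p g = (∑ c, x c b * pev (mono a c) g) - ∑ c, x a c * pev (mono c b) g := by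
      rw [pev, map_sub, map_sum, map_sum]
      simp only [MvPolynomial.smul_eval]
      rfl
    rw [h1, Matrix.mul_apply, Matrix.mul_apply]
    simp only [pev_mono]
    congr 1
    exact Finset.sum_congr rfl fun c _ => mul_comm _ _
  have hph : p.IsHomogeneous n := by
    refine MvPolynomial.IsHomogeneous.sub ?_ ?_
    · refine MvPolynomial.IsHomogeneous.sum _ _ _ fun c _ => ?_
      rw [MvPolynomial.smul_eq_C_mul]
      have h1 := (MvPolynomial.isHomogeneous_C (ι × ι) (x c b)).mul (mono_homog (K := K) a c)
      rwa [zero_add] at h1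
    · refine MvPolynomial.IsHomogeneous.sum _ _ _ fun c _ => ?_
      rw [MvPolynomial.smul_eq_C_mul]
      have h1 := (MvPolynomial.isHomogeneous_C (ι × ι) (x a c)).mul (mono_homog (K := K) c b)
      rwa [zero_add] at h1
  have h0 := h p hph (fun g hg => by
    rw [hp, sub_eq_zero]
    exact congrFun (congrFun (hx g hg) a) b) m hm
  rw [hp, sub_eq_zero] at h0
  exact h0

/-- **Invariants detect density** of completely reducible groups. -/
lemma dense_of_inv (hG : CompRed G)
    (h : invSub G (Fin n) (Fin n) ≤ invSub M (Fin n) (Fin n)) : DenseIn n G M := by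
  intro p hp h0 m hm
  obtain ⟨L, hL⟩ := exists_functional hp
  have h1 := double_commutant hG (n := n) (m := m) fun x hx => h hx m hm
  rw [hL]
  have h2 : Submodule.span K (Set.range fun g : G => tp ((g : GL ι K) : Matrix ι ι K) (Fin n)) ≤
      LinearMap.ker L := by
    rw [Submodule.span_le]
    rintro _ ⟨g, rfl⟩
    change L (tp ((g : GL ι K) : Matrix ι ι K) (Fin n)) = 0
    rw [← hL]
    exact h0 g g.2
  exact h2 h1

lemma dense_iff (hG : CompRed G) :
    DenseIn n G M ↔ invSub G (Fin n) (Fin n) ≤ invSub M (Fin n) (Fin n) :=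
  ⟨inv_of_dense, dense_of_inv hG⟩

lemma pev_smul {a : ℕ} {p : MvPolynomial (ι × ι) K} (hp : p.IsHomogeneous a) {z g : GL ι K} {c : K}
    (hz : (z : Matrix ι ι K) = c • 1) : pev p (z * g) = c ^ a * pev p g := by
  obtain ⟨L, hL⟩ := exists_functional hp
  have h1 : tp ((z * g : GL ι K) : Matrix ι ι K) (Fin a) =
      c ^ a • tp (g : Matrix ι ι K) (Fin a) := by
    rw [Units.val_mul, hz, Matrix.smul_mul, Matrix.one_mul]
    funext u v
    change ∏ i, c * (g : Matrix ι ι K) (u i) (v i) = c ^ a * ∏ i, (g : Matrix ι ι K) (u i) (v i)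
    rw [Finset.prod_mul_distrib, Finset.prod_const, Finset.card_univ, Fintype.card_fin]
  rw [hL, hL, h1, map_smul, smul_eq_mul]

lemma pev_sum (p : MvPolynomial (ι × ι) K) (g : GL ι K) :
    pev p g = ∑ i ∈ Finset.range (p.totalDegree + 1),
      pev (MvPolynomial.homogeneousComponent i p) g := by
  conv_lhs => rw [← MvPolynomial.sum_homogeneousComponent p]
  rw [pev, map_sum]
  rfl

/-- The group contains infinitely many homotheties. -/
def HasScalars (G : Subgroup (GL ι K)) : Prop :=
  {c : K | ∃ g ∈ G, (g : Matrix ι ι K) = c • 1}.Infinite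

/-- Density is density in all degrees. -/
lemma zdense_iff (hG : HasScalars G) : ZDense G M ↔ ∀ a, DenseIn a G M := by
  constructor
  · exact fun h a p _ h0 => h p h0
  · intro h p h0 m hm
    have key : ∀ a, ∀ g ∈ G, pev (MvPolynomial.homogeneousComponent a p) g = 0 := by
      intro a g hg
      by_cases ha : a ∈ Finset.range (p.totalDegree + 1)
      swap
      · have h1 : MvPolynomial.homogeneousComponent a p = 0 :=
          MvPolynomial.homogeneousComponent_eq_zero _ _ (by
            rw [Finset.mem_range] at ha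
            omega)
        rw [h1, pev, map_zero]
      let q : Polynomial K := ∑ i ∈ Finset.range (p.totalDegree + 1),
        Polynomial.C (pev (MvPolynomial.homogeneousComponent i p) g) * Polynomial.X ^ i
      have hq : q = 0 := by
        refine Polynomial.eq_zero_of_infinite_isRoot q (hG.mono ?_)
        rintro c ⟨z, hz, hzc⟩
        have h1 := h0 (z * g) (G.mul_mem hz hg)
        change q.eval c = 0
        rw [Polynomial.eval_finsetSum, ← h1, pev_sum]
        refine Finset.sum_congr rfl fun i _ => ?_
        rw [pev_smul (MvPolynomial.homogeneousComponent_isHomogeneous i p) hzc,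
          Polynomial.eval_mul, Polynomial.eval_C, Polynomial.eval_pow, Polynomial.eval_X, mul_comm]
      have h4 : q.coeff a = pev (MvPolynomial.homogeneousComponent a p) g := by
        rw [Polynomial.finsetSum_coeff]
        simp only [Polynomial.coeff_C_mul, Polynomial.coeff_X_pow]
        rw [Finset.sum_eq_single a]
        · rw [if_pos rfl, mul_one]
        · intro i _ hi
          rw [if_neg (Ne.symm hi), mul_zero]
        · exact fun h => absurd ha h
      rw [← h4, hq, Polynomial.coeff_zero]
    rw [pev_sum]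
    exact Finset.sum_eq_zero fun i _ =>
      h i _ (MvPolynomial.homogeneousComponent_isHomogeneous i p) (key i) m hm

end Pool.Agent.R940
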