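import Pool.Agent.R940.TnM
import Pool.Agent.R940.DFin

/-!
# The growth law for the Mumford–Tate conjecture
-/

set_option linter.unusedVariables false
set_option linter.unusedSectionVars false

namespace Pool.Agent.R940

open Module Matrix Filter

universe v w

/-- A representation `ρ` of a group on `K ^ b`, and a connected completely reducible group of
matrices `M` containing the image of a subgroup of finite index. -/
structure MTPair (K : Type v) [Field K] (b : ℕ) (Γ : Type w) [Group Γ] where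
  /-- the representation -/
  ρ : Γ →* GL (Fin b) K
  /-- the points of the Mumford–Tate group -/
  M : Subgroup (GL (Fin b) K)
  /-- connectedness -/
  connected : ∀ N : Subgroup M, N.FiniteIndex → N = ⊤
  /-- reductivity -/
  reductive : CompRed M
  /-- Deligne: Hodge tensors are Tate tensors -/
  deligne : ∃ U : Subgroup Γ, U.FiniteIndex ∧ U.map ρ ≤ M

variable {K : Type v} [Field K] {b : ℕ} {Γ : Type w} [Group Γ]

/-- The number of Hodge tensors: the dimension of the invariants of `M` in the endomorphisms of the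
`(n+1)`-st tensor power. -/
noncomputable def MTPair.hodge (D : MTPair K b Γ) (n : ℕ) : ℕ :=
  finrank K (invSub D.M (Fin (n + 1)) (Fin (n + 1)))

/-- The number of Tate tensors: the dimension of the space of the endomorphisms of the `(n+1)`-st
tensor power which are fixed by the image of a subgroup of finite index. -/
noncomputable def MTPair.tate (D : MTPair K b Γ) (n : ℕ) : ℕ :=
  finrank K (tateSubT D.ρ (Fin (n + 1)) (Fin (n + 1)))

/-- There are many more Tate tensors than Hodge tensors. -/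
def MTPair.Excess (D : MTPair K b Γ) (a : ℕ) : Prop :=
  ManyTimes b a D.tate D.hodge ∧ LogTimes b a D.tate D.hodge

lemma MTPair.inv_le (D : MTPair K b Γ) (P Q : Type) [Fintype P] [DecidableEq P] [Fintype Q]
    [DecidableEq Q] : invSub D.M P Q ≤ tateSubT D.ρ P Q := by
  obtain ⟨U, hU, h⟩ := D.deligne
  intro x hx
  exact mem_tateSubT.2 ⟨U, hU, fun σ hσ => mem_invSub.1 hx _ (h ⟨σ, hσ, rfl⟩)⟩

lemma MTPair.hodge_le (D : MTPair K b Γ) (n : ℕ) : D.hodge n ≤ D.tate n :=
  Submodule.finrank_mono (D.inv_le _ _)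

/-- **The dichotomy.** -/
theorem MTPair.dichotomy [IsAlgClosed K] [CharZero K] (D : MTPair K b Γ) (hb : 0 < b) {a : ℕ}
    (ha : 0 < a) :
    tateSubT D.ρ (Fin a) (Fin a) = invSub D.M (Fin a) (Fin a) ∨ D.Excess a := by
  obtain ⟨κ, rfl⟩ : ∃ κ, a = κ + 1 := ⟨a - 1, by omega⟩
  by_cases h : tateSubT D.ρ (Fin (κ + 1)) (Fin (κ + 1)) ≤ invSub D.M (Fin (κ + 1)) (Fin (κ + 1))
  · exact Or.inl (le_antisymm h (D.inv_le _ _))
  right
  obtain ⟨t, ht, hne⟩ := Set.not_subset.1 h
  have hne' : ∃ g ∈ D.M, ¬ Fix (g : Matrix (Fin b) (Fin b) K) t := by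
    by_contra hcon
    push Not at hcon
    exact hne (mem_invSub.2 hcon)
  have hnd : NonDeg (invSys D.M) := nonDeg_of_compRed D.reductive
  have hle : (invSys D.M).Le (tateSys D.ρ) := fun P Q _ _ _ _ x hx => D.inv_le P Q hx
  have h1 := connected_law (T := tateSys D.ρ) (by rwa [Fintype.card_fin]) D.connected hnd hle
    (κ := κ) (t := t) ht hne'
  have h2 : al (invSys D.M) = D.hodge := funext fun n => al_eq_zz hnd n
  have h3 : zz (tateSys D.ρ) = D.tate := rfl
  rw [h2, h3, Fintype.card_fin] at h1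
  exact ⟨h1, log_of_many hb (Nat.succ_pos κ) D.hodge_le h1⟩

lemma one_mem_inv (M : Subgroup (GL (Fin b) K)) (n : ℕ) :
    (1 : Matrix (Fin n → Fin b) (Fin n → Fin b) K) ∈ invSub M (Fin n) (Fin n) :=
  fun g _ => by rw [Fix, Matrix.mul_one, Matrix.one_mul]

lemma MTPair.hodge_pos (D : MTPair K b Γ) (hb : 0 < b) (n : ℕ) : 0 < D.hodge n := by
  have : Nonempty (Fin b) := ⟨⟨0, hb⟩⟩
  rw [MTPair.hodge, Module.finrank_pos_iff_exists_ne_zero]
  refine ⟨⟨1, one_mem_inv D.M (n + 1)⟩, fun h => ?_⟩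
  have h1 : (1 : Matrix (Fin (n + 1) → Fin b) (Fin (n + 1) → Fin b) K) = 0 :=
    congrArg Subtype.val h
  exact one_ne_zero h1

/-- If there is an excess, the ratio tends to infinity. -/
lemma MTPair.tendsto_of_excess (D : MTPair K b Γ) (hb : 0 < b) {a : ℕ} (ha : 0 < a)
    (h : D.Excess a) : Tendsto (fun n => (D.tate n : ℝ) / D.hodge n) atTop atTop := by
  have hc : (0 : ℝ) < 32 * a * (1 + Real.log (b + 1)) := by
    have h1 : (0 : ℝ) ≤ Real.log (b + 1) := Real.log_nonneg (by
      have : (0 : ℝ) ≤ b := Nat.cast_nonneg b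
      linarith)
    have h2 : (0 : ℝ) < a := by exact_mod_cast ha
    positivity
  have h1 : Tendsto (fun n : ℕ => Real.log (n + 2) / (32 * a * (1 + Real.log (b + 1)))) atTop
      atTop := by
    refine Tendsto.atTop_div_const hc ?_
    refine Real.tendsto_log_atTop.comp ?_
    exact tendsto_atTop_add_const_right _ _ tendsto_natCast_atTop_atTop
  refine tendsto_atTop_mono (fun n => ?_) h1
  have h2 : (0 : ℝ) < D.hodge n := by exact_mod_cast D.hodge_pos hb n
  rw [le_div_iff₀ h2]
  exact h.2 n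

/-- The Mumford–Tate conjecture: the image of every subgroup of finite index is Zariski dense in
`M`. -/
def MTPair.MumfordTate (D : MTPair K b Γ) : Prop :=
  ∀ U : Subgroup Γ, U.FiniteIndex → ZDense (U.map D.ρ) D.M

/-- The Mumford–Tate conjecture in degree `a`: every homogeneous polynomial of degree `a` in the
matrix entries vanishing on the image of a subgroup of finite index vanishes on `M`. -/
def MTPair.MumfordTateIn (D : MTPair K b Γ) (a : ℕ) : Prop :=
  ∀ U : Subgroup Γ, U.FiniteIndex → DenseIn a (U.map D.ρ) D.M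

/-- The images of subgroups of finite index are completely reducible and contain infinitely many
homotheties (theorems of Faltings and Bogomolov). -/
structure MTPair.Regular (D : MTPair K b Γ) : Prop where
  faltings : ∀ U : Subgroup Γ, U.FiniteIndex → CompRed (U.map D.ρ)
  bogomolov : ∀ U : Subgroup Γ, U.FiniteIndex → HasScalars (U.map D.ρ)

lemma MTPair.mt_iff (D : MTPair K b Γ) (hD : D.Regular) :
    D.MumfordTate ↔ ∀ a, D.MumfordTateIn a :=
  ⟨fun h a U hU => (zdense_iff (hD.bogomolov U hU)).1 (h U hU) a,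
    fun h U hU => (zdense_iff (hD.bogomolov U hU)).2 fun a => h a U hU⟩

lemma MTPair.tate_le (D : MTPair K b Γ) {a : ℕ} (h : D.MumfordTateIn a) :
    tateSubT D.ρ (Fin a) (Fin a) = invSub D.M (Fin a) (Fin a) := by
  refine le_antisymm ?_ (D.inv_le _ _)
  intro x hx
  obtain ⟨U, hU, hx⟩ := mem_tateSubT.1 hx
  refine inv_of_dense (h U hU) ?_
  rintro _ ⟨σ, hσ, rfl⟩
  exact hx σ hσ

lemma MTPair.in_of_eq (D : MTPair K b Γ) (hD : D.Regular) {a : ℕ}
    (h : tateSubT D.ρ (Fin a) (Fin a) = invSub D.M (Fin a) (Fin a)) : D.MumfordTateIn a := by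
  intro U hU
  refine dense_of_inv (hD.faltings U hU) ?_
  rw [← h]
  intro x hx
  exact mem_tateSubT.2 ⟨U, hU, fun σ hσ => hx _ ⟨σ, hσ, rfl⟩⟩

lemma MTPair.in_zero (D : MTPair K b Γ) : D.MumfordTateIn 0 := by
  intro U hU p hp h0 m hm
  obtain ⟨L, hL⟩ := exists_functional hp
  have h1 := h0 1 (Subgroup.one_mem _)
  rw [hL] at h1 ⊢
  have h2 : ∀ g : GL (Fin b) K, tp (g : Matrix (Fin b) (Fin b) K) (Fin 0) =
      tp ((1 : GL (Fin b) K) : Matrix (Fin b) (Fin b) K) (Fin 0) := by
    intro g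
    funext u v
    change ∏ i : Fin 0, _ = ∏ i : Fin 0, _
    rw [Finset.univ_eq_empty, Finset.prod_empty, Finset.prod_empty]
  rw [h2 m]
  exact h1

/-- **The growth law for the Mumford–Tate conjecture.** -/
theorem MTPair.law [IsAlgClosed K] [CharZero K] (D : MTPair K b Γ) (hb : 0 < b) :
    (∀ a : ℕ, 0 < a →
      tateSubT D.ρ (Fin a) (Fin a) = invSub D.M (Fin a) (Fin a) ∨ D.Excess a) ∧
    (D.Regular → (∀ a : ℕ, 0 < a → D.MumfordTateIn a ∨ D.Excess a) ∧
      (D.MumfordTate ↔ ∀ n, D.tate n = D.hodge n) ∧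
      (D.MumfordTate ↔ ¬ Tendsto (fun n => (D.tate n : ℝ) / D.hodge n) atTop atTop)) := by
  refine ⟨fun a ha => D.dichotomy hb ha, fun hD => ?_⟩
  have h1 : ∀ a : ℕ, 0 < a → D.MumfordTateIn a ∨ D.Excess a := fun a ha =>
    (D.dichotomy hb ha).imp_left (D.in_of_eq hD)
  have h2 : D.MumfordTate → ∀ n, D.tate n = D.hodge n := by
    intro h n
    rw [MTPair.tate, D.tate_le ((D.mt_iff hD).1 h (n + 1))]
    rfl
  have h3 : (∀ n, D.tate n = D.hodge n) →
      ¬ Tendsto (fun n => (D.tate n : ℝ) / D.hodge n) atTop atTop := by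
    intro h ht
    have h4 : (fun n => (D.tate n : ℝ) / D.hodge n) = fun _ => 1 := by
      funext n
      rw [h n]
      have h5 : (0 : ℝ) < D.hodge n := by exact_mod_cast D.hodge_pos hb n
      exact div_self h5.ne'
    rw [h4] at ht
    exact not_tendsto_const_atTop _ _ ht
  have h4 : ¬ Tendsto (fun n => (D.tate n : ℝ) / D.hodge n) atTop atTop → D.MumfordTate := by
    intro h
    rw [D.mt_iff hD]
    intro a
    rcases Nat.eq_zero_or_pos a with rfl | ha
    · exact D.in_zero
    · exact (h1 a ha).resolve_right fun hE => h (D.tendsto_of_excess hb ha hE)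
  exact ⟨h1, ⟨h2, fun h => h4 (h3 h)⟩, ⟨fun h => h3 (h2 h), h4⟩⟩

end Pool.Agent.R940
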