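import Pool.Agent.R940.TnM

/-!
# The law for infinite orbits
-/

set_option linter.unusedVariables false
set_option linter.unusedSectionVars false

namespace Pool.Agent.R940

open Module Pool.Agent.Y163 Matrix

universe v

variable {K : Type v} [Field K] {ι : Type} [Fintype ι] [DecidableEq ι] {A T : TSys K ι}
  {M N L Y V : Ob ι}

/-- The stabilizer of a vector. -/
def stabV (G : Subgroup (GL ι K)) (t : M.X → K) : Subgroup G where
  carrier := {g | act (g : GL ι K) M *ᵥ t = t}
  mul_mem' := by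
    intro a b ha hb
    change act ((a * b : G) : GL ι K) M *ᵥ t = t
    rw [Subgroup.coe_mul, act_mul, ← Matrix.mulVec_mulVec]
    have h1 : act (b : GL ι K) M *ᵥ t = t := hb
    rw [h1]
    exact ha
  one_mem' := by
    change act ((1 : G) : GL ι K) M *ᵥ t = t
    rw [Subgroup.coe_one, act_one, Matrix.one_mulVec]
  inv_mem' := by
    intro a ha
    have h1 : act (a : GL ι K) M *ᵥ t = t := ha
    change act ((a⁻¹ : G) : GL ι K) M *ᵥ t = t
    calc act ((a⁻¹ : G) : GL ι K) M *ᵥ t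
        = act ((a⁻¹ : G) : GL ι K) M *ᵥ (act (a : GL ι K) M *ᵥ t) := by rw [h1]
      _ = t := by
        rw [Matrix.mulVec_mulVec, ← act_mul, ← Subgroup.coe_mul, inv_mul_cancel,
          Subgroup.coe_one, act_one, Matrix.one_mulVec]

/-- If all coordinates of the orbit take finitely many values, the stabilizer has finite index. -/
lemma stabV_finiteIndex {G : Subgroup (GL ι K)} {t : M.X → K}
    (h : ∀ m, (Set.range fun g : G => (act (g : GL ι K) M *ᵥ t) m).Finite) :
    (stabV G t).FiniteIndex := by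
  have hfin : (Set.range fun g : G => act (g : GL ι K) M *ᵥ t).Finite := by
    refine Set.Finite.subset (Set.Finite.pi' fun m => h m) ?_
    rintro _ ⟨g, rfl⟩ m
    exact ⟨g, rfl⟩
  have hfq : Finite (G ⧸ stabV G t) := by
    have : Finite (Set.range fun g : G => act (g : GL ι K) M *ᵥ t) := hfin
    refine Finite.of_injective (β := Set.range fun g : G => act (g : GL ι K) M *ᵥ t)
      (fun q => ⟨act ((q.out : G) : GL ι K) M *ᵥ t, q.out, rfl⟩) ?_
    intro q q' h
    have h1 : act ((q.out : G) : GL ι K) M *ᵥ t = act ((q'.out : G) : GL ι K) M *ᵥ t :=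
      congrArg Subtype.val h
    rw [← QuotientGroup.out_eq' q, ← QuotientGroup.out_eq' q', QuotientGroup.eq]
    change act (((q.out : G)⁻¹ * (q'.out : G) : G) : GL ι K) M *ᵥ t = t
    rw [Subgroup.coe_mul, act_mul, ← Matrix.mulVec_mulVec, ← h1, Matrix.mulVec_mulVec,
      ← act_mul, ← Subgroup.coe_mul, inv_mul_cancel, Subgroup.coe_one, act_one,
      Matrix.one_mulVec]
  exact Subgroup.finiteIndex_of_finite_quotient

/-- Invariants of a subgroup meeting all components have infinite orbits. -/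
lemma infinite_of_comp {G H : Subgroup (GL ι K)} (hHG : H ≤ G)
    (hcomp : ∀ N : Subgroup G, N.FiniteIndex → H.subgroupOf G ≤ N → N = ⊤) {t : M.X → K}
    (htH : ∀ g ∈ H, act g M *ᵥ t = t) (ht : ∃ g ∈ G, act g M *ᵥ t ≠ t) :
    ∃ m, (Set.range fun g : G => (act (g : GL ι K) M *ᵥ t) m).Infinite := by
  by_contra hcon
  push Not at hcon
  have hN := stabV_finiteIndex (G := G) (t := t) fun m => hcon m
  have h1 := hcomp (stabV G t) hN fun g hg => htH (g : GL ι K) hg
  obtain ⟨g, hg, hne⟩ := ht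
  have h2 : (⟨g, hg⟩ : G) ∈ stabV G t := by
    rw [h1]
    exact Subgroup.mem_top _
  exact hne h2

variable [IsAlgClosed K] [CharZero K]

/-- **The law for infinite orbits.** -/
theorem orbit_law (hι : 0 < Fintype.card ι) {G : Subgroup (GL ι K)} (hnd : NonDeg (invSys G))
    (hGT : (invSys G).Le T) {κ : ℕ} {t : Matrix (Fin (κ + 1) → ι) (Fin (κ + 1) → ι) K}
    (ht : t ∈ T.S (Fin (κ + 1)) (Fin (κ + 1)))
    (hinf : ∃ m₀, (Set.range fun g : G => (act (g : GL ι K) (U ι κ) *ᵥ vec κ t) m₀).Infinite) :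
    ManyTimes (Fintype.card ι) (κ + 1) (zz T) (al (invSys G)) := by
  obtain ⟨m₀, hinf⟩ := hinf
  intro m n hn
  obtain ⟨κ', hκ'⟩ : ∃ κ', κ' + 1 = (m + 1) * (κ + 1) :=
    ⟨(m + 1) * (κ + 1) - 1, Nat.succ_pred_eq_of_pos (Nat.mul_pos (Nat.succ_pos m) (Nat.succ_pos κ))⟩
  obtain ⟨w⟩ := exists_wed (alg (invSys G) (Yt ι κ (m + 1)))
  have hpow := exists_pow (vec_mem ht) m₀ (m + 1)
  choose s hs y hy using fun i : Fin (m + 1 + 1) => hpow i (by omega)
  have hdim := fun_dim w (rad_bot hnd (by rw [card_Yt_I, card_Yt_J])) (tsub T (Yt ι κ (m + 1)))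
    (fun f hf t ht => tsub_stable hGT hf ht) (Γ' := G)
    (fun g => Matrix.toLin' (act (g : GL ι K) (Yt ι κ (m + 1)))) (by
      rintro ⟨g, hg⟩ f ⟨F, hF, rfl⟩
      have h1 := actM_comm (Units.mul_inv g) (mem_invSub.1 hF g hg)
      change Matrix.toLin' (act g (Yt ι κ (m + 1))) * Matrix.toLin' F =
        Matrix.toLin' F * Matrix.toLin' (act g (Yt ι κ (m + 1)))
      have h2 := Matrix.toLin'_mul (act g (Yt ι κ (m + 1))) F
      have h3 := Matrix.toLin'_mul F (act g (Yt ι κ (m + 1)))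
      exact h2.symm.trans ((congrArg Matrix.toLin' h1).trans h3)) s hs
    (fun i => LinearMap.proj (y i)) (by
      have h1 := pow_indep (fun g : G => (act (g : GL ι K) (U ι κ) *ᵥ vec κ t) m₀) hinf (m + 1)
      refine Eq.subst (motive := fun F => LinearIndependent K F) ?_ h1
      funext i g
      exact (hy i g).symm)
  rw [Fintype.card_fin] at hdim
  have h := eff_law_w (pow_pos hι 2) al_zero_le al_sq_le al_growth
    (lvlW hGT (κ := κ') (Yt ι κ (m + 1)) (by rw [card_Yt_I, hκ']) (by rw [card_Yt_J, hκ']) w)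
    hdim hn
  refine le_trans (le_of_eq ?_) h
  have h4 : ((κ' : ℝ) + 1) = (m + 1) * ((κ + 1 : ℕ) : ℝ) := by
    have := congrArg (Nat.cast (R := ℝ)) hκ'
    push_cast at this ⊢
    exact this
  have h5 : ((Fintype.card ι ^ 2 : ℕ) : ℝ) ^ (κ' + 1) * ((Fintype.card ι ^ 2 : ℕ) : ℝ) =
      (Fintype.card ι : ℝ) ^ (2 * (m + 1) * (κ + 1) + 2) := by
    push_cast
    rw [hκ', ← pow_mul, ← pow_add]
    congr 1
    ring
  rw [h4, mul_assoc _ (((Fintype.card ι ^ 2 : ℕ) : ℝ) ^ (κ' + 1)), h5]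
  push_cast
  ring

end Pool.Agent.R940
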