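import Pool.Agent.R940.TnO
import Pool.Agent.R940.TnN

/-!
# The growth law for the motivic Tate conjecture
-/

set_option linter.unusedVariables false
set_option linter.unusedSectionVars false

namespace Pool.Agent.R940

open Module Matrix Filter

universe v w

/-- A representation `ρ` of a group on `K ^ b` and a completely reducible group of matrices `G`
containing the image, such that the image meets all the components of `G`. -/
structure MotPair (K : Type v) [Field K] (b : ℕ) (Γ : Type w) [Group Γ] where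
  /-- the representation -/
  ρ : Γ →* GL (Fin b) K
  /-- the points of the motivic Galois group -/
  G : Subgroup (GL (Fin b) K)
  /-- reductivity -/
  reductive : CompRed G
  /-- the representation takes values in `G` -/
  range_le : ρ.range ≤ G
  /-- no proper subgroup of finite index of `G` contains the image -/
  components : ∀ N : Subgroup G, N.FiniteIndex → ρ.range.subgroupOf G ≤ N → N = ⊤

variable {K : Type v} [Field K] {b : ℕ} {Γ : Type w} [Group Γ]

/-- The dimension of the algebra of the endomorphisms of the `(n+1)`-st tensor power commuting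
with `G`. -/
noncomputable def MotPair.mot (D : MotPair K b Γ) (n : ℕ) : ℕ :=
  finrank K (invSub D.G (Fin (n + 1)) (Fin (n + 1)))

/-- The dimension of the algebra of the endomorphisms of the `(n+1)`-st tensor power commuting
with the image of `ρ`. -/
noncomputable def MotPair.gal (D : MotPair K b Γ) (n : ℕ) : ℕ :=
  finrank K (invSub D.ρ.range (Fin (n + 1)) (Fin (n + 1)))

/-- There are many more Galois invariant tensors than motivic ones. -/
def MotPair.Excess (D : MotPair K b Γ) (a : ℕ) : Prop :=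
  ManyTimes b a D.gal D.mot ∧ LogTimes b a D.gal D.mot

lemma MotPair.inv_le (D : MotPair K b Γ) (P Q : Type) [Fintype P] [DecidableEq P] [Fintype Q]
    [DecidableEq Q] : invSub D.G P Q ≤ invSub D.ρ.range P Q :=
  fun x hx => mem_invSub.2 fun g hg => mem_invSub.1 hx g (D.range_le hg)

lemma MotPair.mot_le (D : MotPair K b Γ) (n : ℕ) : D.mot n ≤ D.gal n :=
  Submodule.finrank_mono (D.inv_le _ _)

/-- **The dichotomy.** -/
theorem MotPair.dichotomy [IsAlgClosed K] [CharZero K] (D : MotPair K b Γ) (hb : 0 < b) {a : ℕ}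
    (ha : 0 < a) :
    invSub D.ρ.range (Fin a) (Fin a) = invSub D.G (Fin a) (Fin a) ∨ D.Excess a := by
  obtain ⟨κ, rfl⟩ : ∃ κ, a = κ + 1 := ⟨a - 1, by omega⟩
  by_cases h : invSub D.ρ.range (Fin (κ + 1)) (Fin (κ + 1)) ≤
      invSub D.G (Fin (κ + 1)) (Fin (κ + 1))
  · exact Or.inl (le_antisymm h (D.inv_le _ _))
  right
  obtain ⟨t, ht, hne⟩ := Set.not_subset.1 h
  have hne' : ∃ g ∈ D.G, ¬ Fix (g : Matrix (Fin b) (Fin b) K) t := by
    by_contra hcon
    push Not at hcon
    exact hne (mem_invSub.2 hcon)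
  have hnd : NonDeg (invSys D.G) := nonDeg_of_compRed D.reductive
  have hle : (invSys D.G).Le (invSys D.ρ.range) := fun P Q _ _ _ _ x hx => D.inv_le P Q hx
  have hinf := infinite_of_comp (M := U (Fin b) κ) (t := vec κ t) D.range_le D.components
    (fun g hg => act_of_fix (Units.mul_inv g) (fix_vec.2 (mem_invSub.1 ht g hg))) (by
      obtain ⟨g, hg, hne⟩ := hne'
      exact ⟨g, hg, fun h => hne (fix_vec.1 (fix_of_act (Units.mul_inv g) h))⟩)
  have h1 := orbit_law (T := invSys D.ρ.range) (by rwa [Fintype.card_fin]) hnd hle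
    (κ := κ) (t := t) ht hinf
  have h2 : al (invSys D.G) = D.mot := funext fun n => al_eq_zz hnd n
  have h3 : zz (invSys D.ρ.range) = D.gal := rfl
  rw [h2, h3, Fintype.card_fin] at h1
  exact ⟨h1, log_of_many hb (Nat.succ_pos κ) D.mot_le h1⟩

lemma MotPair.mot_pos (D : MotPair K b Γ) (hb : 0 < b) (n : ℕ) : 0 < D.mot n := by
  have : Nonempty (Fin b) := ⟨⟨0, hb⟩⟩
  rw [MotPair.mot, Module.finrank_pos_iff_exists_ne_zero]
  refine ⟨⟨1, one_mem_inv D.G (n + 1)⟩, fun h => ?_⟩
  have h1 : (1 : Matrix (Fin (n + 1) → Fin b) (Fin (n + 1) → Fin b) K) = 0 :=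
    congrArg Subtype.val h
  exact one_ne_zero h1

/-- If there is an excess, the ratio tends to infinity. -/
lemma MotPair.tendsto_of_excess (D : MotPair K b Γ) (hb : 0 < b) {a : ℕ} (ha : 0 < a)
    (h : D.Excess a) : Tendsto (fun n => (D.gal n : ℝ) / D.mot n) atTop atTop := by
  have hc : (0 : ℝ) < 32 * a * (1 + Real.log (b + 1)) := by
    have h1 : (0 : ℝ) ≤ Real.log (b + 1) := Real.log_nonneg (by
      have : (0 : ℝ) ≤ b := Nat.cast_nonneg b
      linarith)
    have h2 : (0 : ℝ) < a := by exact_mod_cast ha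
    positivity
  have h1 : Tendsto (fun n : ℕ => Real.log (n + 2) / (32 * a * (1 + Real.log (b + 1)))) atTop
      atTop := by
    refine Tendsto.atTop_div_const hc ?_
    refine Real.tendsto_log_atTop.comp ?_
    exact tendsto_atTop_add_const_right _ _ tendsto_natCast_atTop_atTop
  refine tendsto_atTop_mono (fun n => ?_) h1
  have h2 : (0 : ℝ) < D.mot n := by exact_mod_cast D.mot_pos hb n
  rw [le_div_iff₀ h2]
  exact h.2 n

lemma denseIn_zero {S M : Subgroup (GL (Fin b) K)} : DenseIn 0 S M := by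
  intro p hp h0 m hm
  obtain ⟨L, hL⟩ := exists_functional hp
  have h1 := h0 1 (Subgroup.one_mem _)
  rw [hL] at h1 ⊢
  have h2 : ∀ g : GL (Fin b) K, tp (g : Matrix (Fin b) (Fin b) K) (Fin 0) =
      tp ((1 : GL (Fin b) K) : Matrix (Fin b) (Fin b) K) (Fin 0) := by
    intro g
    funext u v
    change ∏ i : Fin 0, _ = ∏ i : Fin 0, _
    rw [Finset.univ_eq_empty, Finset.prod_empty, Finset.prod_empty]
  rw [h2 m]
  exact h1

/-- **The growth law for the motivic Tate conjecture.** -/
theorem MotPair.law [IsAlgClosed K] [CharZero K] (D : MotPair K b Γ) (hb : 0 < b) :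
    (∀ a : ℕ, 0 < a →
      invSub D.ρ.range (Fin a) (Fin a) = invSub D.G (Fin a) (Fin a) ∨ D.Excess a) ∧
    (CompRed D.ρ.range → HasScalars D.ρ.range →
      (∀ a : ℕ, 0 < a → DenseIn a D.ρ.range D.G ∨ D.Excess a) ∧
      (ZDense D.ρ.range D.G ↔ ∀ n, D.gal n = D.mot n) ∧
      (ZDense D.ρ.range D.G ↔
        ¬ Tendsto (fun n => (D.gal n : ℝ) / D.mot n) atTop atTop)) := by
  refine ⟨fun a ha => D.dichotomy hb ha, fun hss hsc => ?_⟩
  have h1 : ∀ a : ℕ, 0 < a → DenseIn a D.ρ.range D.G ∨ D.Excess a := fun a ha =>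
    (D.dichotomy hb ha).imp_left fun h => dense_of_inv hss (le_of_eq h)
  have h2 : ZDense D.ρ.range D.G → ∀ n, D.gal n = D.mot n := by
    intro h n
    have h3 := inv_of_dense ((zdense_iff hsc).1 h (n + 1))
    rw [MotPair.gal, MotPair.mot, le_antisymm h3 (D.inv_le _ _)]
  have h3 : (∀ n, D.gal n = D.mot n) →
      ¬ Tendsto (fun n => (D.gal n : ℝ) / D.mot n) atTop atTop := by
    intro h ht
    have h4 : (fun n => (D.gal n : ℝ) / D.mot n) = fun _ => 1 := by
      funext n
      rw [h n]
      have h5 : (0 : ℝ) < D.mot n := by exact_mod_cast D.mot_pos hb n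
      exact div_self h5.ne'
    rw [h4] at ht
    exact not_tendsto_const_atTop _ _ ht
  have h4 : ¬ Tendsto (fun n => (D.gal n : ℝ) / D.mot n) atTop atTop →
      ZDense D.ρ.range D.G := by
    intro h
    rw [zdense_iff hsc]
    intro a
    rcases Nat.eq_zero_or_pos a with rfl | ha
    · exact denseIn_zero
    · exact (h1 a ha).resolve_right fun hE => h (D.tendsto_of_excess hb ha hE)
  exact ⟨h1, ⟨h2, fun h => h4 (h3 h)⟩, ⟨fun h => h3 (h2 h), h4⟩⟩

end Pool.Agent.R940
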