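import Pool.Agent.R940.TnP
import Mathlib.MeasureTheory.Group.Integral
import Mathlib.MeasureTheory.Integral.Bochner.ContinuousLinearMap
import Mathlib.MeasureTheory.Function.LocallyIntegrable
import Mathlib.LinearAlgebra.UnitaryGroup
import Mathlib.Analysis.InnerProductSpace.PiL2

/-!
# Moments of traces of compact groups
-/

set_option linter.unusedVariables false
set_option linter.unusedSectionVars false

namespace Pool.Agent.R940

open Module Matrix MeasureTheory

universe v

section Mean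

variable {C : Type v} [Group C] [TopologicalSpace C] [IsTopologicalGroup C] [CompactSpace C]
  [MeasurableSpace C] [BorelSpace C] (μ : Measure C) [IsProbabilityMeasure μ]
  [μ.IsMulLeftInvariant]

lemma integrable_of_cont {f : C → ℂ} (hf : Continuous f) : Integrable f μ :=
  hf.integrable_of_hasCompactSupport (HasCompactSupport.of_compactSpace f)

/-- The dimension of the space of the invariants is the mean of the trace. -/
lemma mean_trace {X : Type} [Fintype X] [DecidableEq X] (A : C → Matrix X X ℂ)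
    (hA : ∀ g h, A (g * h) = A g * A h) (hc : ∀ i j, Continuous fun g => A g i j)
    (S : Submodule ℂ (X → ℂ)) (hS : ∀ v, v ∈ S ↔ ∀ g, A g *ᵥ v = v) :
    ∫ g, Matrix.trace (A g) ∂μ = finrank ℂ S := by
  have hint : ∀ i j, Integrable (fun g => A g i j) μ := fun i j => integrable_of_cont μ (hc i j)
  let P : Matrix X X ℂ := fun i j => ∫ g, A g i j ∂μ
  have h1 : ∀ h, A h * P = P := by
    intro h
    funext i j
    rw [Matrix.mul_apply]
    change ∑ k, A h i k * ∫ g, A g k j ∂μ = ∫ g, A g i j ∂μ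
    have h2 : ∀ k, A h i k * ∫ g, A g k j ∂μ = ∫ g, A h i k * A g k j ∂μ :=
      fun k => (integral_const_mul _ _).symm
    simp only [h2]
    rw [← integral_finsetSum _ (fun k _ => (hint k j).const_mul _)]
    have h3 : ∀ g, ∑ k, A h i k * A g k j = A (h * g) i j :=
      fun g => by rw [hA, Matrix.mul_apply]
    simp only [h3]
    exact integral_mul_left_eq_self (fun g => A g i j) h
  have h2 : ∀ v ∈ S, P *ᵥ v = v := by
    intro v hv
    funext i
    change ∑ j, (∫ g, A g i j ∂μ) * v j = v i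
    have h3 : ∀ j, (∫ g, A g i j ∂μ) * v j = ∫ g, A g i j * v j ∂μ :=
      fun j => (integral_mul_const _ _).symm
    simp only [h3]
    rw [← integral_finsetSum _ (fun j _ => (hint i j).mul_const _)]
    have h4 : ∀ g, ∑ j, A g i j * v j = v i := fun g => congrFun ((hS v).1 hv g) i
    simp only [h4, integral_const, probReal_univ, one_smul]
  have h3 : LinearMap.IsProj S (Matrix.toLin' P) :=
    ⟨fun v => (hS _).2 fun g => by rw [Matrix.toLin'_apply, Matrix.mulVec_mulVec, h1],
      fun v hv => h2 v hv⟩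
  have h4 := h3.trace
  rw [Matrix.trace_toLin'_eq] at h4
  rw [← h4]
  change ∫ g, ∑ i, A g i i ∂μ = ∑ i, ∫ g, A g i i ∂μ
  exact integral_finsetSum _ (fun i _ => hint i i)

end Mean

variable {ι : Type} [Fintype ι] [DecidableEq ι]

lemma trace_tp {K : Type v} [Field K] (g : Matrix ι ι K) (P : Type) [Fintype P] [DecidableEq P] :
    Matrix.trace (tp g P) = Matrix.trace g ^ Fintype.card P := by
  have h1 : Matrix.trace (tp g P) = ∑ a : P → ι, ∏ i, g (a i) (a i) := rfl
  have h2 : Matrix.trace g = ∑ j, g j j := rfl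
  rw [h1, h2, ← Finset.card_univ, ← Finset.prod_const, Finset.prod_univ_sum,
    Fintype.piFinset_univ]

lemma trace_act {K : Type v} [Field K] (g : GL ι K) (n : ℕ) :
    Matrix.trace (act g (U ι n)) = Matrix.trace (g : Matrix ι ι K) ^ (n + 1) *
      Matrix.trace ((g⁻¹ : GL ι K) : Matrix ι ι K) ^ (n + 1) := by
  have h1 : Matrix.trace (act g (U ι n)) = ∑ m : (U ι n).X,
      tp (g : Matrix ι ι K) (U ι n).I ((U ι n).e m).1 ((U ι n).e m).1 *
        tp ((g⁻¹ : GL ι K) : Matrix ι ι K) (U ι n).J ((U ι n).e m).2 ((U ι n).e m).2 := rfl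
  rw [h1, (U ι n).sum_eq']
  simp only [Equiv.apply_symm_apply]
  have h2 : ∀ u, ∑ v, tp (g : Matrix ι ι K) (U ι n).I u u *
      tp ((g⁻¹ : GL ι K) : Matrix ι ι K) (U ι n).J v v = tp (g : Matrix ι ι K) (U ι n).I u u *
      Matrix.trace (tp ((g⁻¹ : GL ι K) : Matrix ι ι K) (U ι n).J) := fun u => by
    rw [← Finset.mul_sum]
    rfl
  simp only [h2]
  rw [← Finset.sum_mul]
  have h3 := trace_tp (g : Matrix ι ι K) (U ι n).I
  have h4 := trace_tp ((g⁻¹ : GL ι K) : Matrix ι ι K) (U ι n).J
  have h5 : Fintype.card (U ι n).I = n + 1 := by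
    change Fintype.card (Fin (n + 1) ⊕ Empty) = _
    rw [Fintype.card_sum]
    simp
  have h6 : Fintype.card (U ι n).J = n + 1 := by
    change Fintype.card (Empty ⊕ Fin (n + 1)) = _
    rw [Fintype.card_sum]
    simp
  rw [h5] at h3
  rw [h6] at h4
  rw [← h3, ← h4]
  rfl

/-- Invariant vectors of the tensor space. -/
lemma mem_tsub_inv {K : Type v} [Field K] {G : Subgroup (GL ι K)} {M : Ob ι} {v : M.X → K} :
    v ∈ tsub (invSys G) M ↔ ∀ g ∈ G, act g M *ᵥ v = v :=
  ⟨fun h g hg => act_of_fix (Units.mul_inv g) (h g hg),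
    fun h g hg => fix_of_act (Units.mul_inv g) (h g hg)⟩

section Compact

variable {C : Type v} [Group C] [TopologicalSpace C] [IsTopologicalGroup C] [CompactSpace C]
  [MeasurableSpace C] [BorelSpace C] (μ : Measure C) [IsProbabilityMeasure μ]
  [μ.IsMulLeftInvariant]

/-- The matrices of a unitary representation, as invertible matrices. -/
noncomputable def toGL (ρ : C →* Matrix.unitaryGroup ι ℂ) : C →* GL ι ℂ :=
  Unitary.toUnits.comp ρ

lemma toGL_inv (ρ : C →* Matrix.unitaryGroup ι ℂ) (g : C) :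
    (((toGL ρ g)⁻¹ : GL ι ℂ) : Matrix ι ι ℂ) = ((toGL ρ g : GL ι ℂ) : Matrix ι ι ℂ)ᴴ := rfl

lemma tp_cont {ρ : C → Matrix ι ι ℂ} (hρ : Continuous ρ) (P : Type) [Fintype P]
    (a b : P → ι) : Continuous fun g => tp (ρ g) P a b :=
  continuous_finsetProd _ fun i _ => (continuous_apply_apply (a i) (b i)).comp hρ

/-- **Moments are numbers of invariants.** -/
lemma moment_eq {ρ : C →* Matrix.unitaryGroup ι ℂ} (hρ : Continuous ρ) (n : ℕ) :
    ∫ g, ‖Matrix.trace (ρ g : Matrix ι ι ℂ)‖ ^ (2 * (n + 1)) ∂μ =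
      zz (invSys (toGL ρ).range) n := by
  have hc : Continuous fun g => (ρ g : Matrix ι ι ℂ) := continuous_subtype_val.comp hρ
  have hc' : Continuous fun g => (ρ g : Matrix ι ι ℂ)ᴴ := hc.matrix_conjTranspose
  have h1 := mean_trace μ (fun g => act (toGL ρ g) (U ι n)) (fun g h => by rw [map_mul, act_mul])
    (fun i j => (tp_cont hc (U ι n).I _ _).mul (tp_cont hc' (U ι n).J _ _))
    (tsub (invSys (toGL ρ).range) (U ι n)) (fun v => by
      rw [mem_tsub_inv]
      exact ⟨fun h g => h _ ⟨g, rfl⟩, by rintro h _ ⟨g, rfl⟩; exact h g⟩)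
  rw [finrank_tsub] at h1
  have h2 : ∀ g, Matrix.trace (act (toGL ρ g) (U ι n)) =
      ((‖Matrix.trace (ρ g : Matrix ι ι ℂ)‖ ^ (2 * (n + 1)) : ℝ) : ℂ) := by
    intro g
    rw [trace_act, toGL_inv, Matrix.trace_conjTranspose, ← mul_pow]
    have h3 : Matrix.trace ((toGL ρ g : GL ι ℂ) : Matrix ι ι ℂ) *
        star (Matrix.trace ((toGL ρ g : GL ι ℂ) : Matrix ι ι ℂ)) =
        ((‖Matrix.trace (ρ g : Matrix ι ι ℂ)‖ ^ 2 : ℝ) : ℂ) := by
      have h4 := Complex.mul_conj' (Matrix.trace (ρ g : Matrix ι ι ℂ))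
      rw [Complex.ofReal_pow]
      exact h4
    rw [h3, ← Complex.ofReal_pow, ← pow_mul]
  simp only [h2] at h1
  rw [integral_complex_ofReal] at h1
  exact_mod_cast h1

end Compact

end Pool.Agent.R940
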