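import Pool.Agent.R940.TnQ

/-!
# The law for moments of traces
-/

set_option linter.unusedVariables false
set_option linter.unusedSectionVars false

namespace Pool.Agent.R940

open Module Matrix MeasureTheory Filter

universe v

variable {ι : Type} [Fintype ι] [DecidableEq ι]

lemma tp_conjTranspose (g : Matrix ι ι ℂ) (P : Type) [Fintype P] : (tp g P)ᴴ = tp gᴴ P := by
  funext a b
  have h1 : (tp g P)ᴴ a b = star (∏ i, g (b i) (a i)) := rfl
  rw [h1, star_prod]
  rfl

/-- **Groups of unitary matrices are completely reducible.** -/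
lemma compRed_unitary {G : Subgroup (GL ι ℂ)}
    (hG : ∀ g ∈ G, ((g⁻¹ : GL ι ℂ) : Matrix ι ι ℂ) = (g : Matrix ι ι ℂ)ᴴ) : CompRed G := by
  intro n W hW
  let e : EuclideanSpace ℂ (Fin n → ι) ≃ₗ[ℂ] ((Fin n → ι) → ℂ) := WithLp.linearEquiv 2 ℂ _
  let W₁ : Submodule ℂ (EuclideanSpace ℂ (Fin n → ι)) := W.comap e.toLinearMap
  have hin : ∀ x y : EuclideanSpace ℂ (Fin n → ι), inner ℂ x y = e y ⬝ᵥ star (e x) :=
    fun x y => EuclideanSpace.inner_eq_star_dotProduct x y
  refine ⟨W₁ᗮ.map e.toLinearMap, ?_, ?_⟩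
  · rintro g hg _ ⟨x, hx, rfl⟩
    refine ⟨e.symm (tp (g : Matrix ι ι ℂ) (Fin n) *ᵥ e x), ?_, e.apply_symm_apply _⟩
    rw [SetLike.mem_coe, Submodule.mem_orthogonal]
    intro u hu
    rw [hin, e.apply_symm_apply]
    have h1 : (tp (g : Matrix ι ι ℂ) (Fin n))ᴴ *ᵥ e u ∈ W := by
      rw [tp_conjTranspose, ← hG g hg]
      exact hW g⁻¹ (G.inv_mem hg) _ hu
    have h2 := (Submodule.mem_orthogonal _ _).1 hx (e.symm ((tp (g : Matrix ι ι ℂ) (Fin n))ᴴ *ᵥ
      e u)) (by
        change e (e.symm _) ∈ W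
        rw [e.apply_symm_apply]
        exact h1)
    rw [hin, e.apply_symm_apply, Matrix.star_mulVec, Matrix.conjTranspose_conjTranspose,
      dotProduct_comm, ← Matrix.dotProduct_mulVec, dotProduct_comm] at h2
    exact h2
  · have h1 : IsCompl W₁ W₁ᗮ := W₁.isCompl_orthogonal
    have h2 := (Submodule.orderIsoMapComap e).isCompl h1
    have h3 : (Submodule.orderIsoMapComap e) W₁ = W :=
      Submodule.map_comap_eq_of_surjective e.surjective W
    rw [h3] at h2
    exact h2

lemma compRed_range {C : Type v} [Group C] (ρ : C →* Matrix.unitaryGroup ι ℂ) :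
    CompRed (toGL ρ).range := by
  apply compRed_unitary
  rintro _ ⟨g, rfl⟩
  rfl

lemma tp_cont' {C : Type v} [TopologicalSpace C] {ρ : C → Matrix ι ι ℂ} (hρ : Continuous ρ)
    (P : Type) [Fintype P] (a b : P → ι) : Continuous fun g => tp (ρ g) P a b :=
  continuous_finsetProd _ fun i _ => (continuous_apply_apply (a i) (b i)).comp hρ

section Compact

variable {C D : Type v} [Group C] [TopologicalSpace C] [IsTopologicalGroup C] [CompactSpace C]
  [Group D]

/-- Invariants of a subgroup meeting all components have infinite orbits. -/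
lemma infinite_of_open {ρ : C →* Matrix.unitaryGroup ι ℂ} (hρ : Continuous ρ) (f : D →* C)
    (hcomp : ∀ N : Subgroup C, IsOpen (N : Set C) → f.range ≤ N → N = ⊤) {M : Ob ι}
    {t : M.X → ℂ} (htD : ∀ y, act (toGL ρ (f y)) M *ᵥ t = t)
    (ht : ∃ x, act (toGL ρ x) M *ᵥ t ≠ t) :
    ∃ m, (Set.range fun g : (toGL ρ).range => (act (g : GL ι ℂ) M *ᵥ t) m).Infinite := by
  by_contra hcon
  push Not at hcon
  have hN := stabV_finiteIndex (G := (toGL ρ).range) (t := t) fun m => hcon m
  let N : Subgroup C := (stabV (toGL ρ).range t).comap (toGL ρ).rangeRestrict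
  have hNf : N.FiniteIndex := by
    rw [Subgroup.finiteIndex_iff,
      Subgroup.index_comap_of_surjective _ (toGL ρ).rangeRestrict_surjective]
    exact hN.index_ne_zero
  have hc : Continuous fun g => (ρ g : Matrix ι ι ℂ) := continuous_subtype_val.comp hρ
  have hc' : Continuous fun g => (ρ g : Matrix ι ι ℂ)ᴴ := hc.matrix_conjTranspose
  have hcl : IsClosed (N : Set C) := by
    have h1 : (N : Set C) = {x | act (toGL ρ x) M *ᵥ t = t} := rfl
    rw [h1]
    refine isClosed_eq ?_ continuous_const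
    refine continuous_pi fun i => ?_
    refine continuous_finsetSum _ fun j _ => ?_
    exact ((tp_cont' hc M.I _ _).mul (tp_cont' hc' M.J _ _)).mul continuous_const
  have hop : IsOpen (N : Set C) := N.isOpen_of_isClosed_of_finiteIndex hcl
  have h1 := hcomp N hop (by
    rintro _ ⟨y, rfl⟩
    exact htD y)
  obtain ⟨x, hx⟩ := ht
  have h2 : x ∈ N := by
    rw [h1]
    exact Subgroup.mem_top _
  exact hx h2

end Compact

variable {K : Type v} [Field K]

/-- For isometry groups, density is density in all degrees. -/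
lemma zdense_isom {G H : Subgroup (GL ι K)} (h2 : (2 : K) ≠ 0) (hHG : H ≤ G)
    (hneg : ∃ g ∈ H, (g : Matrix ι ι K) = -1) {J : Matrix ι ι K} (hJ0 : J ≠ 0)
    (hJ : ∀ g ∈ G, (g : Matrix ι ι K)ᵀ * J * (g : Matrix ι ι K) = J) :
    ZDense H G ↔ ∀ a, DenseIn a H G := by
  refine ⟨fun h a p _ h0 => h p h0, fun h p h0 => ?_⟩
  obtain ⟨i, j, hij⟩ : ∃ i j, J i j ≠ 0 := by
    by_contra hcon
    push Not at hcon
    exact hJ0 (Matrix.ext hcon)
  let q : MvPolynomial (ι × ι) K := MvPolynomial.C (J i j)⁻¹ *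
    ∑ k, ∑ l, MvPolynomial.C (J k l) * (MvPolynomial.X (k, i) * MvPolynomial.X (l, j))
  have hqh : q.IsHomogeneous 2 := by
    have h1 := (MvPolynomial.isHomogeneous_C (ι × ι) (J i j)⁻¹).mul
      (MvPolynomial.IsHomogeneous.sum (Finset.univ : Finset ι) (fun k => ∑ l,
        MvPolynomial.C (J k l) * (MvPolynomial.X (k, i) * MvPolynomial.X (l, j))) 2
        fun k _ => MvPolynomial.IsHomogeneous.sum _ _ _ fun l _ => by
          have h3 := (MvPolynomial.isHomogeneous_C (ι × ι) (J k l)).mul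
            ((MvPolynomial.isHomogeneous_X K (k, i)).mul (MvPolynomial.isHomogeneous_X K (l, j)))
          rwa [zero_add] at h3)
    rwa [zero_add] at h1
  have hq1 : ∀ g ∈ G, pev q g = 1 := by
    intro g hg
    have h1 : pev q g = (J i j)⁻¹ * ∑ k, ∑ l, J k l * ((g : Matrix ι ι K) k i *
        (g : Matrix ι ι K) l j) := by
      simp only [pev, q, map_mul, map_sum, MvPolynomial.eval_C, MvPolynomial.eval_X]
    have h3 := congrFun (congrFun (hJ g hg) i) j
    have h4 : ((g : Matrix ι ι K)ᵀ * J * (g : Matrix ι ι K)) i j =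
        ∑ l, (∑ k, (g : Matrix ι ι K) k i * J k l) * (g : Matrix ι ι K) l j := rfl
    have h5 : ∑ k, ∑ l, J k l * ((g : Matrix ι ι K) k i * (g : Matrix ι ι K) l j) = J i j := by
      rw [← h3, h4, Finset.sum_comm]
      refine Finset.sum_congr rfl fun l _ => ?_
      rw [Finset.sum_mul]
      exact Finset.sum_congr rfl fun k _ => by ring
    rw [h1, h5, inv_mul_cancel₀ hij]
  let pc : ℕ → MvPolynomial (ι × ι) K := fun i => MvPolynomial.homogeneousComponent i p
  have hpc : ∀ i, (pc i).IsHomogeneous i := fun i =>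
    MvPolynomial.homogeneousComponent_isHomogeneous i p
  let d := p.totalDegree
  let s : ℕ → Finset ℕ := fun ε => (Finset.range (d + 1)).filter fun i => i % 2 = ε
  have hsum : ∀ g, pev p g = ∑ i ∈ s 0, pev (pc i) g + ∑ i ∈ s 1, pev (pc i) g := by
    intro g
    rw [pev_sum, ← Finset.sum_filter_add_sum_filter_not (Finset.range (d + 1))
      (fun i => i % 2 = 0)]
    congr 2
    ext i
    simp only [s, Finset.mem_filter]
    refine and_congr_right fun _ => ?_
    omega
  obtain ⟨z, hz, hz1⟩ := hneg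
  have hz2 : (z : Matrix ι ι K) = (-1 : K) • 1 := by rw [hz1, neg_one_smul]
  have hpar : ∀ ε, ε < 2 → ∀ g ∈ H, ∑ i ∈ s ε, pev (pc i) g = 0 := by
    have h3 : ∀ g ∈ H, ∑ i ∈ s 0, pev (pc i) g + ∑ i ∈ s 1, pev (pc i) g = 0 := fun g hg => by
      rw [← hsum]
      exact h0 g hg
    have h4 : ∀ g ∈ H, ∑ i ∈ s 0, pev (pc i) g - ∑ i ∈ s 1, pev (pc i) g = 0 := by
      intro g hg
      have h5 := h3 (z * g) (H.mul_mem hz hg)
      have h6 : ∑ i ∈ s 0, pev (pc i) (z * g) = ∑ i ∈ s 0, pev (pc i) g := by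
        refine Finset.sum_congr rfl fun i hi => ?_
        rw [pev_smul (hpc i) hz2, Even.neg_one_pow (Nat.even_iff.2 (Finset.mem_filter.1 hi).2),
          one_mul]
      have h7 : ∑ i ∈ s 1, pev (pc i) (z * g) = -∑ i ∈ s 1, pev (pc i) g := by
        rw [← Finset.sum_neg_distrib]
        refine Finset.sum_congr rfl fun i hi => ?_
        rw [pev_smul (hpc i) hz2, Odd.neg_one_pow (Nat.odd_iff.2 (Finset.mem_filter.1 hi).2),
          neg_one_mul]
      rw [h6, h7] at h5
      rw [sub_eq_add_neg]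
      exact h5
    intro ε hε g hg
    have h5 := h3 g hg
    have h6 := h4 g hg
    have h7 : 2 * ∑ i ∈ s 0, pev (pc i) g = 0 := by linear_combination h5 + h6
    have h8 : ∑ i ∈ s 0, pev (pc i) g = 0 := (mul_eq_zero.1 h7).resolve_left h2
    rcases (by omega : ε = 0 ∨ ε = 1) with rfl | rfl
    · exact h8
    · rw [h8, zero_add] at h5
      exact h5
  have hpar' : ∀ ε, ε < 2 → ∀ g ∈ G, ∑ i ∈ s ε, pev (pc i) g = 0 := by
    intro ε hε
    let P : MvPolynomial (ι × ι) K := ∑ i ∈ s ε, pc i * q ^ ((2 * d + ε - i) / 2)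
    have hP : P.IsHomogeneous (2 * d + ε) := by
      refine MvPolynomial.IsHomogeneous.sum _ _ _ fun i hi => ?_
      have h3 := (hpc i).mul (hqh.pow ((2 * d + ε - i) / 2))
      have h4 : i + 2 * ((2 * d + ε - i) / 2) = 2 * d + ε := by
        have h5 := Finset.mem_filter.1 hi
        have h6 := Finset.mem_range.1 h5.1
        omega
      rwa [h4] at h3
    have hPe : ∀ g ∈ G, pev P g = ∑ i ∈ s ε, pev (pc i) g := by
      intro g hg
      have h3 : pev P g = ∑ i ∈ s ε, pev (pc i) g * pev q g ^ ((2 * d + ε - i) / 2) := by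
        simp only [pev, P, map_sum, map_mul, map_pow]
      rw [h3, hq1 g hg]
      simp only [one_pow, mul_one]
    intro g hg
    rw [← hPe g hg]
    exact h _ P hP (fun g hg => by rw [hPe g (hHG hg), hpar ε hε g hg]) g hg
  intro g hg
  rw [hsum, hpar' 0 (by norm_num) g hg, hpar' 1 (by norm_num) g hg, add_zero]

end Pool.Agent.R940
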