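import Pool.Agent.R940.TnR

/-!
# The zero-infinity law for moments of traces of compact groups
-/

set_option linter.unusedVariables false
set_option linter.unusedSectionVars false

namespace Pool.Agent.R940

open Module Matrix MeasureTheory Filter

universe v

/-- The `2n`-th moment of the trace of a unitary representation. -/
noncomputable def moment {b : ℕ} {C : Type v} [Group C] [MeasurableSpace C] (μ : Measure C)
    (ρ : C →* Matrix.unitaryGroup (Fin b) ℂ) (n : ℕ) : ℝ :=
  ∫ g, ‖Matrix.trace (ρ g : Matrix (Fin b) (Fin b) ℂ)‖ ^ (2 * n) ∂μ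

/-- The moments `N` are at least twice the moments `M`, up to a relative error
`a * b ^ (2 * a + 2) * log (n + 2) / n`. -/
def TwiceMoments (b a : ℕ) (N M : ℕ → ℝ) : Prop :=
  ∀ n : ℕ, 0 < n →
    2 * (1 - a * (b : ℝ) ^ (2 * a + 2) * Real.log (n + 2) / n) * M (n + 1) ≤ N (n + 1)

/-- The moments `N` are at least `m + 2` times the moments `M`, up to a relative error
`(m + 1) * a * b ^ (2 * (m + 1) * a + 2) * log (n + 2) / n`, for all `m`, and at least
`log (n + 2) / (32 * a * (1 + log (b + 1)))` times the moments `M`. -/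
def ManyMoments (b a : ℕ) (N M : ℕ → ℝ) : Prop :=
  (∀ m n : ℕ, 0 < n →
    (m + 2) * (1 - (m + 1) * a * (b : ℝ) ^ (2 * (m + 1) * a + 2) * Real.log (n + 2) / n) *
      M (n + 1) ≤ N (n + 1)) ∧
  ∀ n : ℕ, Real.log (n + 2) / (32 * a * (1 + Real.log (b + 1))) * M (n + 1) ≤ N (n + 1)

variable {b : ℕ} {C D : Type v} [Group C] [TopologicalSpace C] [IsTopologicalGroup C]
  [CompactSpace C] [MeasurableSpace C] [BorelSpace C] [Group D] [TopologicalSpace D]
  [IsTopologicalGroup D] [CompactSpace D] [MeasurableSpace D] [BorelSpace D]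
  (μ : Measure C) [IsProbabilityMeasure μ] [μ.IsMulLeftInvariant]
  (ν : Measure D) [IsProbabilityMeasure ν] [ν.IsMulLeftInvariant]

lemma moment_succ {ρ : C →* Matrix.unitaryGroup (Fin b) ℂ} (hρ : Continuous ρ) (n : ℕ) :
    moment μ ρ (n + 1) = zz (invSys (toGL ρ).range) n := moment_eq μ hρ n

lemma range_comp_le (ρ : C →* Matrix.unitaryGroup (Fin b) ℂ) (f : D →* C) :
    (toGL (ρ.comp f)).range ≤ (toGL ρ).range := by
  rintro _ ⟨y, rfl⟩
  exact ⟨f y, rfl⟩

lemma inv_range_le (ρ : C →* Matrix.unitaryGroup (Fin b) ℂ) (f : D →* C) :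
    (invSys (toGL ρ).range).Le (invSys (toGL (ρ.comp f)).range) :=
  fun P Q _ _ _ _ x hx => mem_invSub.2 fun g hg => mem_invSub.1 hx g (range_comp_le ρ f hg)

lemma zz_le (ρ : C →* Matrix.unitaryGroup (Fin b) ℂ) (f : D →* C) (n : ℕ) :
    zz (invSys (toGL ρ).range) n ≤ zz (invSys (toGL (ρ.comp f)).range) n :=
  Submodule.finrank_mono (inv_range_le ρ f _ _)

/-- **The zero-infinity law for moments.** -/
theorem moment_law (hb : 0 < b) {ρ : C →* Matrix.unitaryGroup (Fin b) ℂ} (hρ : Continuous ρ)
    {f : D →* C} (hf : Continuous f) {a : ℕ} (ha : 0 < a)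
    (hne : moment ν (ρ.comp f) a ≠ moment μ ρ a) :
    TwiceMoments b a (moment ν (ρ.comp f)) (moment μ ρ) ∧
      ((∀ N : Subgroup C, IsOpen (N : Set C) → f.range ≤ N → N = ⊤) →
        ManyMoments b a (moment ν (ρ.comp f)) (moment μ ρ)) := by
  obtain ⟨κ, rfl⟩ : ∃ κ, a = κ + 1 := ⟨a - 1, by omega⟩
  have hρf : Continuous (ρ.comp f) := hρ.comp hf
  have hnd : NonDeg (invSys (toGL ρ).range) := nonDeg_of_compRed (compRed_range ρ)
  have hM : ∀ n, moment μ ρ (n + 1) = zz (invSys (toGL ρ).range) n := moment_succ μ hρ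
  have hN : ∀ n, moment ν (ρ.comp f) (n + 1) = zz (invSys (toGL (ρ.comp f)).range) n :=
    moment_succ ν hρf
  have hal : ∀ n, al (invSys (toGL ρ).range) n = zz (invSys (toGL ρ).range) n :=
    fun n => al_eq_zz hnd n
  have hlt : zz (invSys (toGL ρ).range) κ < zz (invSys (toGL (ρ.comp f)).range) κ := by
    refine lt_of_le_of_ne (zz_le ρ f κ) fun h => hne ?_
    rw [hM, hN, h]
  constructor
  · intro n hn
    have h := tensor_law (by rwa [Fintype.card_fin]) (inv_range_le ρ f)
      (by rw [hal]; exact hlt) hn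
    rw [hal, Fintype.card_fin] at h
    rw [hM, hN]
    refine le_trans (le_of_eq ?_) h
    push_cast
    ring
  · intro hcomp
    have hnle : ¬ (invSub (toGL (ρ.comp f)).range (Fin (κ + 1)) (Fin (κ + 1)) ≤
        invSub (toGL ρ).range (Fin (κ + 1)) (Fin (κ + 1))) := by
      intro h
      exact absurd (Submodule.finrank_mono h) (not_le.2 hlt)
    obtain ⟨t, ht, hne'⟩ := Set.not_subset.1 hnle
    have hinf := infinite_of_open (M := U (Fin b) κ) (t := vec κ t) hρ f hcomp
      (fun y => act_of_fix (Units.mul_inv _) (fix_vec.2 (mem_invSub.1 ht _ ⟨y, rfl⟩))) (by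
        by_contra hcon
        push Not at hcon
        apply hne'
        refine mem_invSub.2 ?_
        rintro _ ⟨x, rfl⟩
        exact fix_vec.1 (fix_of_act (Units.mul_inv _) (hcon x)))
    have h1 := orbit_law (T := invSys (toGL (ρ.comp f)).range) (by rwa [Fintype.card_fin]) hnd
      (inv_range_le ρ f) (κ := κ) (t := t) ht hinf
    have h2 : al (invSys (toGL ρ).range) = zz (invSys (toGL ρ).range) := funext hal
    rw [h2, Fintype.card_fin] at h1
    have h3 := log_of_many hb (Nat.succ_pos κ) (fun n => zz_le ρ f n) h1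
    refine ⟨fun m n hn => ?_, fun n => ?_⟩
    · rw [hM, hN]
      exact h1 m n hn
    · rw [hM, hN]
      exact h3 n

lemma moment_pos {ρ : C →* Matrix.unitaryGroup (Fin b) ℂ} (hρ : Continuous ρ) (hb : 0 < b)
    (n : ℕ) : 0 < moment μ ρ (n + 1) := by
  have : Nonempty (Fin b) := ⟨⟨0, hb⟩⟩
  rw [moment_succ μ hρ, Nat.cast_pos]
  change 0 < finrank ℂ (invSub (toGL ρ).range (Fin (n + 1)) (Fin (n + 1)))
  rw [Module.finrank_pos_iff_exists_ne_zero]
  refine ⟨⟨1, one_mem_inv _ (n + 1)⟩, fun h => ?_⟩
  have h1 : (1 : Matrix (Fin (n + 1) → Fin b) (Fin (n + 1) → Fin b) ℂ) = 0 :=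
    congrArg Subtype.val h
  exact one_ne_zero h1

/-- Equal moments mean equal invariants. -/
lemma inv_eq_of_moment {ρ : C →* Matrix.unitaryGroup (Fin b) ℂ} (hρ : Continuous ρ)
    {f : D →* C} (hf : Continuous f) {a : ℕ} (ha : 0 < a) :
    moment ν (ρ.comp f) a = moment μ ρ a ↔
      DenseIn a (toGL (ρ.comp f)).range (toGL ρ).range := by
  obtain ⟨κ, rfl⟩ : ∃ κ, a = κ + 1 := ⟨a - 1, by omega⟩
  rw [dense_iff (compRed_range (ρ.comp f)), moment_succ μ hρ, moment_succ ν (hρ.comp hf),
    Nat.cast_inj]
  constructor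
  · intro h
    have h1 := Submodule.eq_of_le_of_finrank_eq (inv_range_le ρ f (Fin (κ + 1)) (Fin (κ + 1)))
      h.symm
    exact le_of_eq h1.symm
  · intro h
    exact le_antisymm (Submodule.finrank_mono h) (zz_le ρ f κ)

/-- The case of isometry groups. -/
theorem moment_dense (hb : 0 < b) {ρ : C →* Matrix.unitaryGroup (Fin b) ℂ} (hρ : Continuous ρ)
    {f : D →* C} (hf : Continuous f) {J : Matrix (Fin b) (Fin b) ℂ} (hJ0 : J ≠ 0)
    (hJ : ∀ x, (ρ x : Matrix (Fin b) (Fin b) ℂ)ᵀ * J * (ρ x : Matrix (Fin b) (Fin b) ℂ) = J)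
    (hneg : ∃ y, (ρ (f y) : Matrix (Fin b) (Fin b) ℂ) = -1) :
    (ZDense (toGL (ρ.comp f)).range (toGL ρ).range ↔
      ∀ n, moment ν (ρ.comp f) n = moment μ ρ n) ∧
    (ZDense (toGL (ρ.comp f)).range (toGL ρ).range ↔
      ∃ c : ℝ, c < 2 ∧ ∃ᶠ n in atTop, moment ν (ρ.comp f) n ≤ c * moment μ ρ n) ∧
    ((∀ N : Subgroup C, IsOpen (N : Set C) → f.range ≤ N → N = ⊤) →
      (ZDense (toGL (ρ.comp f)).range (toGL ρ).range ↔
        ¬ Tendsto (fun n => moment ν (ρ.comp f) n / moment μ ρ n) atTop atTop)) := by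
  have hz : ZDense (toGL (ρ.comp f)).range (toGL ρ).range ↔
      ∀ a, DenseIn a (toGL (ρ.comp f)).range (toGL ρ).range := by
    refine zdense_isom two_ne_zero (range_comp_le ρ f) ?_ hJ0 ?_
    · obtain ⟨y, hy⟩ := hneg
      exact ⟨toGL (ρ.comp f) y, ⟨y, rfl⟩, hy⟩
    · rintro _ ⟨x, rfl⟩
      exact hJ x
  have hz0 : moment ν (ρ.comp f) 0 = moment μ ρ 0 := by
    simp [moment]
  have h1 : ZDense (toGL (ρ.comp f)).range (toGL ρ).range ↔
      ∀ n, moment ν (ρ.comp f) n = moment μ ρ n := by
    rw [hz]
    constructor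
    · intro h n
      rcases Nat.eq_zero_or_pos n with rfl | hn
      · exact hz0
      · exact (inv_eq_of_moment μ ν hρ hf hn).2 (h n)
    · intro h n
      rcases Nat.eq_zero_or_pos n with rfl | hn
      · exact denseIn_zero
      · exact (inv_eq_of_moment μ ν hρ hf hn).1 (h n)
  have hpos : ∀ n, 0 < moment μ ρ n := by
    intro n
    rcases n with _ | n
    · simp [moment]
    · exact moment_pos μ hρ hb n
  refine ⟨h1, ?_, ?_⟩
  · rw [h1]
    constructor
    · intro h
      refine ⟨1, by norm_num, Filter.Frequently.of_forall fun n => ?_⟩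
      rw [h n, one_mul]
    · rintro ⟨c, hc, hfr⟩ a
      by_contra hne
      have ha : 0 < a := by
        rcases Nat.eq_zero_or_pos a with rfl | ha
        · exact absurd hz0 hne
        · exact ha
      have h2 := (moment_law μ ν hb hρ hf ha hne).1
      -- the error tends to zero
      have hlim : Tendsto (fun n : ℕ => 2 * (1 - a * (b : ℝ) ^ (2 * a + 2) *
          (Real.log (n + 2) / n))) atTop (nhds 2) := by
        have h3 : Tendsto (fun n : ℕ => Real.log ((n : ℝ) + 2) / n) atTop (nhds 0) := by
          have h4 : Tendsto (fun x : ℝ => Real.log (x + 2) / x) atTop (nhds 0) := by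
            have h5 := Real.isLittleO_log_id_atTop
            have h6 : Tendsto (fun x : ℝ => Real.log x / x) atTop (nhds 0) :=
              h5.tendsto_div_nhds_zero
            have h7 : Tendsto (fun x : ℝ => x + 2) atTop atTop :=
              tendsto_atTop_add_const_right _ _ tendsto_id
            have h8 := h6.comp h7
            have h9 : Tendsto (fun x : ℝ => (x + 2) / x) atTop (nhds 1) := by
              have h10 : Tendsto (fun x : ℝ => 1 + 2 / x) atTop (nhds (1 + 0)) :=
                tendsto_const_nhds.add (tendsto_const_nhds.div_atTop tendsto_id)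
              rw [add_zero] at h10
              refine h10.congr' ?_
              filter_upwards [eventually_gt_atTop 0] with x hx
              field_simp
            have h11 := h8.mul h9
            rw [zero_mul] at h11
            refine h11.congr' ?_
            filter_upwards [eventually_gt_atTop 0] with x hx
            have hx2 : x + 2 ≠ 0 := by positivity
            simp only [Function.comp_apply]
            field_simp
          exact h4.comp tendsto_natCast_atTop_atTop
        have h4 := (h3.const_mul ((a : ℝ) * (b : ℝ) ^ (2 * a + 2))).const_sub 1 |>.const_mul 2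
        simpa using h4
      have hev : ∀ᶠ n : ℕ in atTop, c < 2 * (1 - a * (b : ℝ) ^ (2 * a + 2) *
          (Real.log (n + 2) / n)) := hlim.eventually (lt_mem_nhds hc)
      have hev' : ∀ᶠ n : ℕ in atTop, c * moment μ ρ (n + 1) < moment ν (ρ.comp f) (n + 1) := by
        filter_upwards [hev, eventually_gt_atTop 0] with n hn hn0
        have h3 := h2 n hn0
        rw [mul_div_assoc] at h3
        have h4 := hpos (n + 1)
        nlinarith
      have hev'' : ∀ᶠ n : ℕ in atTop, c * moment μ ρ n < moment ν (ρ.comp f) n := by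
        have := (eventually_atTop.1 hev')
        obtain ⟨n0, h0⟩ := this
        refine eventually_atTop.2 ⟨n0 + 1, fun n hn => ?_⟩
        have := h0 (n - 1) (by omega)
        rwa [Nat.sub_add_cancel (by omega)] at this
      exact hfr (hev''.mono fun n hn => not_le.2 hn)
  · intro hcomp
    rw [h1]
    constructor
    · intro h ht
      have h4 : (fun n => moment ν (ρ.comp f) n / moment μ ρ n) = fun _ => 1 := by
        funext n
        rw [h n]
        exact div_self (hpos n).ne'
      rw [h4] at ht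
      exact not_tendsto_const_atTop _ _ ht
    · intro h a
      by_contra hne
      have ha : 0 < a := by
        rcases Nat.eq_zero_or_pos a with rfl | ha
        · exact absurd hz0 hne
        · exact ha
      apply h
      have h2 := ((moment_law μ ν hb hρ hf ha hne).2 hcomp).2
      rw [← tendsto_add_atTop_iff_nat 1]
      have hc : (0 : ℝ) < 32 * a * (1 + Real.log (b + 1)) := by
        have h1 : (0 : ℝ) ≤ Real.log (b + 1) := Real.log_nonneg (by
          have : (0 : ℝ) ≤ b := Nat.cast_nonneg b
          linarith)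
        have h2 : (0 : ℝ) < a := by exact_mod_cast ha
        positivity
      have h3 : Tendsto (fun n : ℕ => Real.log (n + 2) / (32 * a * (1 + Real.log (b + 1)))) atTop
          atTop := by
        refine Tendsto.atTop_div_const hc ?_
        refine Real.tendsto_log_atTop.comp ?_
        exact tendsto_atTop_add_const_right _ _ tendsto_natCast_atTop_atTop
      refine tendsto_atTop_mono (fun n => ?_) h3
      rw [le_div_iff₀ (hpos (n + 1))]
      exact h2 n

end Pool.Agent.R940
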