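import Pool.Agent.R940.TnP

/-!
# Rational systems of tensors and twists
-/

set_option linter.unusedVariables false
set_option linter.unusedSectionVars false

namespace Pool.Agent.R940

open Module Matrix

universe v w

variable {F : Type w} [Field F] {K : Type v} [Field K] [Algebra F K] {ι : Type} [Fintype ι]
  [DecidableEq ι]

/-- Extension of scalars of a tensor. -/
def ext (K : Type v) [Field K] [Algebra F K] {X Y : Type} (x : X → Y → F) : X → Y → K :=
  fun a b => algebraMap F K (x a b)

/-- The span of a system of tensors over a larger field. -/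
def TSys.base (A : TSys F ι) (K : Type v) [Field K] [Algebra F K] : TSys K ι where
  S P Q := Submodule.span K {y | ∃ x ∈ A.S P Q, y = ext K x}
  reindex := by
    intro P Q P' Q' _ _ _ _ _ _ _ _ e f x hx
    induction hx using Submodule.span_induction with
    | mem x hx =>
      obtain ⟨x, hx, rfl⟩ := hx
      exact Submodule.subset_span ⟨_, A.reindex e f hx, rfl⟩
    | zero => exact Submodule.zero_mem _
    | add x y _ _ hx hy => exact Submodule.add_mem _ hx hy
    | smul c x _ hx => exact Submodule.smul_mem _ c hx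
  one := by
    intro P _ _
    refine Submodule.subset_span ⟨_, A.one, ?_⟩
    funext a b
    rw [ext]
    split_ifs
    · exact (map_one _).symm
    · exact (map_zero _).symm
  tensor := by
    intro P Q P' Q' _ _ _ _ _ _ _ _ x y hx hy
    induction hx using Submodule.span_induction with
    | mem x hx =>
      obtain ⟨x, hx, rfl⟩ := hx
      induction hy using Submodule.span_induction with
      | mem y hy =>
        obtain ⟨y, hy, rfl⟩ := hy
        refine Submodule.subset_span ⟨_, A.tensor hx hy, ?_⟩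
        funext a b
        exact (map_mul _ _ _).symm
      | zero =>
        have h1 : (fun a b => ext K x (a ∘ Sum.inl) (b ∘ Sum.inl) *
            (0 : (P' → ι) → (Q' → ι) → K) (a ∘ Sum.inr) (b ∘ Sum.inr) :
            (P ⊕ P' → ι) → (Q ⊕ Q' → ι) → K) = 0 := by
          funext a b
          exact mul_zero _
        rw [h1]
        exact Submodule.zero_mem _
      | add y y' _ _ hy hy' =>
        have h1 := Submodule.add_mem _ hy hy'
        refine Eq.subst (motive := fun z => z ∈ _) ?_ h1
        funext a b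
        exact (mul_add _ _ _).symm
      | smul c y _ hy =>
        have h1 := Submodule.smul_mem _ c hy
        refine Eq.subst (motive := fun z => z ∈ _) ?_ h1
        funext a b
        exact (mul_left_comm _ _ _).symm
    | zero =>
      have h1 : (fun a b => (0 : (P → ι) → (Q → ι) → K) (a ∘ Sum.inl) (b ∘ Sum.inl) *
          y (a ∘ Sum.inr) (b ∘ Sum.inr) : (P ⊕ P' → ι) → (Q ⊕ Q' → ι) → K) = 0 := by
        funext a b
        exact zero_mul _
      rw [h1]
      exact Submodule.zero_mem _
    | add x x' _ _ hx hx' =>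
      have h1 := Submodule.add_mem _ hx hx'
      refine Eq.subst (motive := fun z => z ∈ _) ?_ h1
      funext a b
      exact (add_mul _ _ _).symm
    | smul c x _ hx =>
      have h1 := Submodule.smul_mem _ c hx
      refine Eq.subst (motive := fun z => z ∈ _) ?_ h1
      funext a b
      exact (mul_assoc _ _ _).symm
  contract := by
    intro P Q R _ _ _ _ _ _ x hx
    induction hx using Submodule.span_induction with
    | mem x hx =>
      obtain ⟨x, hx, rfl⟩ := hx
      refine Submodule.subset_span ⟨_, A.contract hx, ?_⟩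
      funext a b
      exact (map_sum _ _ _).symm
    | zero =>
      have h1 : (fun a b => ∑ c : R → ι, (0 : (P ⊕ R → ι) → (Q ⊕ R → ι) → K) (Sum.elim a c)
          (Sum.elim b c)) = 0 := by
        funext a b
        exact Finset.sum_const_zero
      rw [h1]
      exact Submodule.zero_mem _
    | add x y _ _ hx hy =>
      have h1 := Submodule.add_mem _ hx hy
      refine Eq.subst (motive := fun z => z ∈ _) ?_ h1
      funext a b
      exact Finset.sum_add_distrib.symm
    | smul c x _ hx =>
      have h1 := Submodule.smul_mem _ c hx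
      refine Eq.subst (motive := fun z => z ∈ _) ?_ h1
      funext a b
      exact Finset.mul_sum _ _ _

section Twist

variable {P Q R S P' Q' : Type} [Fintype P] [DecidableEq P] [Fintype Q]
  [DecidableEq Q] [Fintype P'] [DecidableEq P'] [Fintype Q'] [DecidableEq Q'] [Fintype R]
  [DecidableEq R] [Fintype S] [DecidableEq S]

/-- The matrix `g` takes the tensor `x` to the tensor `y`. -/
def Tw (g : Matrix ι ι K) (x y : Matrix (P → ι) (Q → ι) K) : Prop :=
  tp g P * x = y * tp g Q

lemma Tw.reindex {g : Matrix ι ι K} {x y : Matrix (P → ι) (Q → ι) K} (hx : Tw g x y)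
    (e : P ≃ P') (f : Q ≃ Q') : Tw g (rei e f x) (rei e f y) := by
  have he : ∀ a b : P' → ι, tp g P' a b = tp g P (a ∘ e) (b ∘ e) := fun a b =>
    (Equiv.prod_comp e fun i => g (a i) (b i)).symm
  have hf : ∀ a b : Q' → ι, tp g Q' a b = tp g Q (a ∘ f) (b ∘ f) := fun a b =>
    (Equiv.prod_comp f fun i => g (a i) (b i)).symm
  funext a b
  have h1 : (tp g P' * rei e f x) a b =
      ∑ c, tp g P' a c * x (c ∘ e) (b ∘ f) := rfl
  have h2 : (rei e f y * tp g Q') a b =
      ∑ c, y (a ∘ e) (c ∘ f) * tp g Q' c b := rfl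
  rw [h1, h2]
  have h3 : ∑ c, tp g P' a c * x (c ∘ e) (b ∘ f) =
      ∑ c, tp g P (a ∘ e) c * x c (b ∘ f) := by
    refine Fintype.sum_equiv (e.symm.arrowCongr (Equiv.refl ι)) _ _ fun c => ?_
    rw [he]
    rfl
  have h4 : ∑ c, y (a ∘ e) (c ∘ f) * tp g Q' c b =
      ∑ c, y (a ∘ e) c * tp g Q c (b ∘ f) := by
    refine Fintype.sum_equiv (f.symm.arrowCongr (Equiv.refl ι)) _ _ fun c => ?_
    rw [hf]
    rfl
  rw [h3, h4]
  exact congrFun (congrFun hx (a ∘ e)) (b ∘ f)

lemma Tw.one (g : Matrix ι ι K) : Tw g (1 : Matrix (P → ι) (P → ι) K) 1 := by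
  rw [Tw, Matrix.mul_one, Matrix.one_mul]

lemma Tw.tensor {g : Matrix ι ι K} {x x' : Matrix (P → ι) (Q → ι) K}
    {y y' : Matrix (R → ι) (S → ι) K} (hx : Tw g x x') (hy : Tw g y y') :
    Tw g (ks x y) (ks x' y') := by
  rw [Tw] at hx hy
  rw [Tw, tp_sum, tp_sum, ks_mul, ks_mul, hx, hy]

lemma Tw.contract {g h : Matrix ι ι K} (hgh : g * h = 1)
    {x x' : Matrix (P ⊕ R → ι) (Q ⊕ R → ι) K} (hx : Tw g x x') : Tw g (ptr x) (ptr x') := by
  have hhg : h * g = 1 := mul_eq_one_comm.1 hgh
  apply ext_trace
  intro y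
  have e1 : ks (y * tp g P) (1 : Matrix (R → ι) (R → ι) K) =
      ks y (tp h R) * tp g (P ⊕ R) := by
    rw [tp_sum, ks_mul, ← tp_mul, hhg, tp_one]
  have e2 : ks (tp g Q * y) (1 : Matrix (R → ι) (R → ι) K) =
      tp g (Q ⊕ R) * ks y (tp h R) := by
    rw [tp_sum, ks_mul, ← tp_mul, hgh, tp_one]
  rw [Matrix.mul_assoc, Matrix.trace_mul_comm, Matrix.mul_assoc, trace_ptr, e1,
    Matrix.mul_assoc, trace_ptr, e2, ← Matrix.mul_assoc, Matrix.trace_mul_comm, ← Matrix.mul_assoc,
    ← Matrix.mul_assoc]
  rw [Tw] at hx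
  rw [hx]

lemma Tw.add {g : Matrix ι ι K} {x x' y y' : Matrix (P → ι) (Q → ι) K}
    (hx : Tw g x x') (hy : Tw g y y') : Tw g (x + y) (x' + y') := by
  rw [Tw] at hx hy
  rw [Tw, Matrix.mul_add, Matrix.add_mul, hx, hy]

lemma Tw.smul {g : Matrix ι ι K} {x x' : Matrix (P → ι) (Q → ι) K} (c : K)
    (hx : Tw g x x') : Tw g (c • x) (c • x') := by
  rw [Tw] at hx
  rw [Tw, Matrix.mul_smul, Matrix.smul_mul, hx]

lemma Tw.zero (g : Matrix ι ι K) : Tw g (0 : Matrix (P → ι) (Q → ι) K) 0 := by
  rw [Tw, Matrix.mul_zero, Matrix.zero_mul]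

end Twist

end Pool.Agent.R940
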