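import Pool.Agent.R940.TnT

/-!
# Rational tensors that are Tate for all primes
-/

set_option linter.unusedVariables false
set_option linter.unusedSectionVars false

namespace Pool.Agent.R940

open Module Matrix Filter

universe v w

/-- Representations of a group over algebraically closed fields, in a common rational basis. -/
structure TateFamily (b : ℕ) (Γ : Type w) [Group Γ] (Λ : Type) where
  /-- the coefficient fields -/
  K : Λ → Type v
  [field : ∀ l, Field (K l)]
  [char : ∀ l, CharZero (K l)]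
  [closed : ∀ l, IsAlgClosed (K l)]
  /-- the representations -/
  ρ : ∀ l, Γ →* GL (Fin b) (K l)

attribute [instance] TateFamily.field TateFamily.char TateFamily.closed

variable {b : ℕ} {Γ : Type w} [Group Γ] {Λ : Type}

/-- The rational tensors which are Tate for all primes. -/
def TateFamily.rat (D : TateFamily.{v} b Γ Λ) : TSys ℚ (Fin b) where
  S P Q :=
    { carrier := {x | ∀ l, ext (D.K l) x ∈ (tateSys (D.ρ l)).S P Q}
      zero_mem' := fun l => by
        have h1 : ext (D.K l) (0 : (P → Fin b) → (Q → Fin b) → ℚ) = 0 := by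
          funext a b
          exact map_zero _
        rw [h1]
        exact Submodule.zero_mem _
      add_mem' := fun {x y} hx hy l => by
        refine Eq.subst (motive := fun z => z ∈ _) ?_ (Submodule.add_mem _ (hx l) (hy l))
        funext a b
        exact (map_add _ _ _).symm
      smul_mem' := fun c x hx l => by
        refine Eq.subst (motive := fun z => z ∈ _) ?_
          (Submodule.smul_mem _ (algebraMap ℚ (D.K l) c) (hx l))
        funext a b
        exact (map_mul _ _ _).symm }
  reindex := by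
    intro P Q P' Q' _ _ _ _ _ _ _ _ e f x hx l
    exact (tateSys (D.ρ l)).reindex e f (hx l)
  one := by
    intro P _ _ l
    refine Eq.subst (motive := fun z => z ∈ _) ?_ (tateSys (D.ρ l)).one
    funext a b
    rw [ext]
    split_ifs
    · exact (map_one _).symm
    · exact (map_zero _).symm
  tensor := by
    intro P Q P' Q' _ _ _ _ _ _ _ _ x y hx hy l
    refine Eq.subst (motive := fun z => z ∈ _) ?_ ((tateSys (D.ρ l)).tensor (hx l) (hy l))
    funext a b
    exact (map_mul _ _ _).symm
  contract := by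
    intro P Q R _ _ _ _ _ _ x hx l
    refine Eq.subst (motive := fun z => z ∈ _) ?_ ((tateSys (D.ρ l)).contract (hx l))
    funext a b
    exact (map_sum _ _ _).symm

/-- The rational tensors in `End(V^{⊗a})` which are Tate for all primes. -/
def TateFamily.common (D : TateFamily.{v} b Γ Λ) (a : ℕ) :
    Set (Matrix (Fin a → Fin b) (Fin a → Fin b) ℚ) :=
  {x | ∀ l, x.map (algebraMap ℚ (D.K l)) ∈ tateSubT (D.ρ l) (Fin a) (Fin a)}

/-- Their span over the coefficient field of `l`. -/
def TateFamily.span (D : TateFamily.{v} b Γ Λ) (l : Λ) (a : ℕ) :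
    Submodule (D.K l) (Matrix (Fin a → Fin b) (Fin a → Fin b) (D.K l)) :=
  Submodule.span (D.K l) ((fun x => x.map (algebraMap ℚ (D.K l))) '' D.common a)

/-- The rank of the trace form `(x, y) ↦ tr(x y)` on a space of matrices. -/
noncomputable def traceRank {K : Type v} [Field K] {X : Type} [Fintype X] [DecidableEq X]
    (S : Submodule K (Matrix X X K)) : ℕ :=
  finrank K (LinearMap.range
    (((LinearMap.mul K (Matrix X X K)).compr₂ (Matrix.traceLinearMap X K K)).domRestrict₁₂ S S))

/-- The rank of the trace form on the span of the rational tensors in `End(V^{⊗(n+1)})` that are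
Tate for all primes. -/
noncomputable def TateFamily.rat_rank (D : TateFamily.{v} b Γ Λ) (l : Λ) (n : ℕ) : ℕ :=
  traceRank (D.span l (n + 1))

/-- The dimension of the space of Tate tensors in `End(V^{⊗(n+1)})`. -/
noncomputable def TateFamily.tate (D : TateFamily.{v} b Γ Λ) (l : Λ) (n : ℕ) : ℕ :=
  finrank (D.K l) (tateSubT (D.ρ l) (Fin (n + 1)) (Fin (n + 1)))

lemma TateFamily.span_eq (D : TateFamily.{v} b Γ Λ) (l : Λ) (a : ℕ) :
    D.span l a = (D.rat.base (D.K l)).S (Fin a) (Fin a) := by
  have h1 : (fun x : Matrix (Fin a → Fin b) (Fin a → Fin b) ℚ =>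
      x.map (algebraMap ℚ (D.K l))) '' D.common a =
      {y | ∃ x ∈ D.rat.S (Fin a) (Fin a), y = ext (D.K l) x} := by
    ext y
    constructor
    · rintro ⟨x, hx, rfl⟩
      exact ⟨x, hx, rfl⟩
    · rintro ⟨x, hx, rfl⟩
      exact ⟨x, hx, rfl⟩
  rw [TateFamily.span, h1]
  rfl

lemma al_eq_traceRank {K : Type v} [Field K] {ι : Type} [Fintype ι] [DecidableEq ι]
    (A : TSys K ι) (n : ℕ) {S : Submodule K (Matrix (Fin (n + 1) → ι) (Fin (n + 1) → ι) K)}
    (hS : S = A.S (Fin (n + 1)) (Fin (n + 1))) : traceRank S = al A n := by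
  subst hS
  rfl

lemma TateFamily.rat_rank_eq (D : TateFamily.{v} b Γ Λ) (l : Λ) (n : ℕ) :
    D.rat_rank l n = al (D.rat.base (D.K l)) n :=
  al_eq_traceRank _ n (D.span_eq l (n + 1))

lemma TateFamily.base_le (D : TateFamily.{v} b Γ Λ) (l : Λ) :
    (D.rat.base (D.K l)).Le (tateSys (D.ρ l)) := by
  intro P Q _ _ _ _
  refine Submodule.span_le.2 ?_
  rintro _ ⟨x, hx, rfl⟩
  exact hx l

lemma TateFamily.span_le (D : TateFamily.{v} b Γ Λ) (l : Λ) (a : ℕ) :
    D.span l a ≤ tateSubT (D.ρ l) (Fin a) (Fin a) := by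
  rw [D.span_eq]
  exact D.base_le l _ _

lemma al_le_finrank {K : Type v} [Field K] {ι : Type} [Fintype ι] [DecidableEq ι]
    (A : TSys K ι) (n : ℕ) : al A n ≤ finrank K (A.S (Fin (n + 1)) (Fin (n + 1))) :=
  LinearMap.finrank_range_le _

/-- **The dichotomy.** -/
theorem TateFamily.dichotomy (D : TateFamily.{v} b Γ Λ) (hb : 0 < b) (l : Λ) {a : ℕ}
    (ha : 0 < a) :
    tateSubT (D.ρ l) (Fin a) (Fin a) = D.span l a ∨
      ∀ n : ℕ, 0 < n → 2 * (1 - a * (b : ℝ) ^ (2 * a + 2) * Real.log (n + 2) / n) *
        D.rat_rank l n ≤ D.tate l n := by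
  obtain ⟨κ, rfl⟩ : ∃ κ, a = κ + 1 := ⟨a - 1, by omega⟩
  by_cases h : tateSubT (D.ρ l) (Fin (κ + 1)) (Fin (κ + 1)) = D.span l (κ + 1)
  · exact Or.inl h
  right
  intro n hn
  have hlt : al (D.rat.base (D.K l)) κ < zz (tateSys (D.ρ l)) κ := by
    refine lt_of_le_of_lt (al_le_finrank _ κ) ?_
    refine lt_of_le_of_ne (Submodule.finrank_mono (D.base_le l _ _)) fun he => h ?_
    rw [D.span_eq]
    exact (Submodule.eq_of_le_of_finrank_eq (D.base_le l _ _) he).symm
  have h1 := tensor_law (by rwa [Fintype.card_fin]) (D.base_le l) hlt hn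
  rw [Fintype.card_fin] at h1
  refine le_trans (le_of_eq ?_) h1
  rw [D.rat_rank_eq]
  push_cast
  ring

/-- The Tate tensors are the invariants of a subgroup of finite index. -/
lemma tate_eq_inv {K : Type v} [Field K] {ι : Type} [Fintype ι] [DecidableEq ι]
    (ρ : Γ →* GL ι K) (P Q : Type) [Fintype P] [DecidableEq P] [Fintype Q] [DecidableEq Q] :
    ∃ U : Subgroup Γ, U.FiniteIndex ∧ tateSubT ρ P Q = invSub (U.map ρ) P Q := by
  obtain ⟨S, hS⟩ := (IsNoetherian.noetherian (tateSubT ρ P Q) : (tateSubT ρ P Q).FG)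
  have key : ∀ S : Finset (Matrix (P → ι) (Q → ι) K), (∀ s ∈ S, s ∈ tateSubT ρ P Q) →
      ∃ U : Subgroup Γ, U.FiniteIndex ∧ ∀ s ∈ S, s ∈ invSub (U.map ρ) P Q := by
    intro S
    classical
    induction S using Finset.induction_on with
    | empty => exact fun _ => ⟨⊤, inferInstance, fun s hs => absurd hs (Finset.notMem_empty s)⟩
    | insert s S _ ih =>
      intro h
      obtain ⟨U, hU, h1⟩ := ih fun t ht => h t (Finset.mem_insert_of_mem ht)
      obtain ⟨U', hU', h2⟩ := mem_tateSubT.1 (h s (Finset.mem_insert_self _ _))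
      refine ⟨U ⊓ U', inferInstance, fun t ht => ?_⟩
      rcases Finset.mem_insert.1 ht with rfl | ht
      · rintro _ ⟨σ, hσ, rfl⟩
        exact h2 σ hσ.2
      · rintro _ ⟨σ, hσ, rfl⟩
        exact h1 t ht _ ⟨σ, hσ.1, rfl⟩
  obtain ⟨U, hU, h1⟩ := key S fun s hs => by
    rw [← hS]
    exact Submodule.subset_span hs
  refine ⟨U, hU, le_antisymm ?_ ?_⟩
  · rw [← hS, Submodule.span_le]
    exact h1
  · intro x hx
    exact mem_tateSubT.2 ⟨U, hU, fun σ hσ => hx _ ⟨σ, hσ, rfl⟩⟩

/-- The matrix fixes all the rational tensors which are Tate for all primes: such matrices form a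
group given by equations with rational coefficients, the same for all primes. -/
def TateFamily.InFixGroup (D : TateFamily.{v} b Γ Λ) (l : Λ) (g : GL (Fin b) (D.K l)) : Prop :=
  ∀ a, ∀ x ∈ D.common a, Fix (g : Matrix (Fin b) (Fin b) (D.K l)) (x.map (algebraMap ℚ (D.K l)))

/-- For all subgroups `U` of finite index, polynomials vanishing on the image of `U` vanish on the
group of the matrices fixing all the rational tensors which are Tate for all primes. -/
def TateFamily.DenseImages (D : TateFamily.{v} b Γ Λ) (l : Λ) : Prop :=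
  ∀ U : Subgroup Γ, U.FiniteIndex → ∀ p : MvPolynomial (Fin b × Fin b) (D.K l),
    (∀ σ ∈ U, pev p (D.ρ l σ) = 0) → ∀ g, D.InFixGroup l g → pev p g = 0

/-- The group of the matrices fixing all rational tensors which are Tate for all primes. -/
def TateFamily.fixGroup (D : TateFamily.{v} b Γ Λ) (l : Λ) : Subgroup (GL (Fin b) (D.K l)) where
  carrier := {g | D.InFixGroup l g}
  mul_mem' := by
    intro g h hg hh a x hx
    have h1 := hg a x hx
    have h2 := hh a x hx
    rw [Fix] at h1 h2 ⊢
    rw [Units.val_mul, tp_mul, Matrix.mul_assoc, h2, ← Matrix.mul_assoc, h1, Matrix.mul_assoc]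
  one_mem' := by
    intro a x hx
    rw [Fix, Units.val_one, tp_one, Matrix.one_mul, Matrix.mul_one]
  inv_mem' := by
    intro g hg a x hx
    have h1 := hg a x hx
    rw [Fix] at h1 ⊢
    have h2 : tp ((g⁻¹ : GL (Fin b) (D.K l)) : Matrix (Fin b) (Fin b) (D.K l)) (Fin a) *
        tp (g : Matrix (Fin b) (Fin b) (D.K l)) (Fin a) = 1 := by
      rw [← tp_mul, Units.inv_mul, tp_one]
    have h3 : tp (g : Matrix (Fin b) (Fin b) (D.K l)) (Fin a) *
        tp ((g⁻¹ : GL (Fin b) (D.K l)) : Matrix (Fin b) (Fin b) (D.K l)) (Fin a) = 1 := by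
      rw [← tp_mul, Units.mul_inv, tp_one]
    calc _ = tp ((g⁻¹ : GL (Fin b) (D.K l)) : Matrix (Fin b) (Fin b) (D.K l)) (Fin a) *
          x.map (algebraMap ℚ (D.K l)) * (tp (g : Matrix (Fin b) (Fin b) (D.K l)) (Fin a) *
            tp ((g⁻¹ : GL (Fin b) (D.K l)) : Matrix (Fin b) (Fin b) (D.K l)) (Fin a)) := by
            rw [h3, Matrix.mul_one]
      _ = tp ((g⁻¹ : GL (Fin b) (D.K l)) : Matrix (Fin b) (Fin b) (D.K l)) (Fin a) *
          (x.map (algebraMap ℚ (D.K l)) * tp (g : Matrix (Fin b) (Fin b) (D.K l)) (Fin a)) *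
            tp ((g⁻¹ : GL (Fin b) (D.K l)) : Matrix (Fin b) (Fin b) (D.K l)) (Fin a) := by
            simp only [Matrix.mul_assoc]
      _ = (tp ((g⁻¹ : GL (Fin b) (D.K l)) : Matrix (Fin b) (Fin b) (D.K l)) (Fin a) *
          tp (g : Matrix (Fin b) (Fin b) (D.K l)) (Fin a)) * x.map (algebraMap ℚ (D.K l)) *
            tp ((g⁻¹ : GL (Fin b) (D.K l)) : Matrix (Fin b) (Fin b) (D.K l)) (Fin a) := by
            rw [← h1]
            simp only [Matrix.mul_assoc]
      _ = _ := by rw [h2, Matrix.one_mul]

/-- Faltings and Bogomolov. -/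
structure TateFamily.Regular (D : TateFamily.{v} b Γ Λ) (l : Λ) : Prop where
  faltings : ∀ U : Subgroup Γ, U.FiniteIndex → CompRed (U.map (D.ρ l))
  bogomolov : ∀ U : Subgroup Γ, U.FiniteIndex → HasScalars (U.map (D.ρ l))

lemma TateFamily.rank_le (D : TateFamily.{v} b Γ Λ) (l : Λ) (n : ℕ) :
    D.rat_rank l n ≤ D.tate l n := by
  rw [D.rat_rank_eq]
  refine (al_le_finrank (D.rat.base (D.K l)) n).trans ?_
  change _ ≤ finrank (D.K l) ((tateSys (D.ρ l)).S (Fin (n + 1)) (Fin (n + 1)))
  exact Submodule.finrank_mono (D.base_le l (Fin (n + 1)) (Fin (n + 1)))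

lemma TateFamily.rank_eq (D : TateFamily.{v} b Γ Λ) {l : Λ} (hD : D.Regular l) {n : ℕ}
    (h : tateSubT (D.ρ l) (Fin (n + 1)) (Fin (n + 1)) = D.span l (n + 1)) :
    D.rat_rank l n = D.tate l n := by
  obtain ⟨U, hU, hT⟩ := tate_eq_inv (D.ρ l) (Fin (n + 1)) (Fin (n + 1))
  have hb : (D.rat.base (D.K l)).S (Fin (n + 1)) (Fin (n + 1)) =
      tateSubT (D.ρ l) (Fin (n + 1)) (Fin (n + 1)) := by rw [h, D.span_eq]
  have h1 : D.rat_rank l n =
      finrank (D.K l) ((D.rat.base (D.K l)).S (Fin (n + 1)) (Fin (n + 1))) := by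
    rw [D.rat_rank_eq]
    refine LinearMap.finrank_range_of_inj ?_
    rw [injective_iff_map_eq_zero]
    rintro ⟨x, hx⟩ h0
    apply Subtype.ext
    have hx' : x ∈ invSub (U.map (D.ρ l)) (Fin (n + 1)) (Fin (n + 1)) := by
      rw [← hT, ← hb]
      exact hx
    refine trace_nondeg (hD.faltings U hU) hx' fun y hy => ?_
    have hy' : y ∈ (D.rat.base (D.K l)).S (Fin (n + 1)) (Fin (n + 1)) := by
      rw [hb, hT]
      exact hy
    exact congrArg (fun F => F ⟨y, hy'⟩) h0
  rw [h1, hb]
  rfl

lemma tendsto_err (b a : ℕ) : Tendsto (fun n : ℕ => 2 * (1 - a * (b : ℝ) ^ (2 * a + 2) *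
    Real.log (n + 2) / n)) atTop (nhds 2) := by
  have h3 : Tendsto (fun n : ℕ => Real.log ((n : ℝ) + 2) / n) atTop (nhds 0) := by
    have h4 : Tendsto (fun x : ℝ => Real.log (x + 2) / x) atTop (nhds 0) := by
      have h5 := Real.isLittleO_log_id_atTop
      have h6 : Tendsto (fun x : ℝ => Real.log x / x) atTop (nhds 0) :=
        h5.tendsto_div_nhds_zero
      have h7 : Tendsto (fun x : ℝ => x + 2) atTop atTop :=
        tendsto_atTop_add_const_right _ _ tendsto_id
      have h8 := h6.comp h7
      have h9 : Tendsto (fun x : ℝ => (x + 2) / x) atTop (nhds 1) := by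
        have h10 : Tendsto (fun x : ℝ => 1 + 2 / x) atTop (nhds (1 + 0)) :=
          tendsto_const_nhds.add (tendsto_const_nhds.div_atTop tendsto_id)
        rw [add_zero] at h10
        refine h10.congr' ?_
        filter_upwards [eventually_gt_atTop 0] with x hx
        field_simp
      have h11 := h8.mul h9
      rw [zero_mul] at h11
      refine h11.congr' ?_
      filter_upwards [eventually_gt_atTop 0] with x hx
      have hx2 : x + 2 ≠ 0 := by positivity
      simp only [Function.comp_apply]
      field_simp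
    exact h4.comp tendsto_natCast_atTop_atTop
  have h4 := (h3.const_mul ((a : ℝ) * (b : ℝ) ^ (2 * a + 2))).const_sub 1 |>.const_mul 2
  simp only [mul_zero, sub_zero, mul_one] at h4
  refine h4.congr fun n => ?_
  rw [mul_div_assoc]

/-- **The criterion for a common rational form.** -/
theorem TateFamily.law (D : TateFamily.{v} b Γ Λ) (hb : 0 < b) (l : Λ) (hD : D.Regular l) :
    ((∀ a, tateSubT (D.ρ l) (Fin a) (Fin a) = D.span l a) ↔
      ∃ c : ℝ, c < 2 ∧ ∃ᶠ n in atTop, (D.tate l n : ℝ) ≤ c * D.rat_rank l n) ∧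
    ((∀ a, tateSubT (D.ρ l) (Fin a) (Fin a) = D.span l a) →
      D.DenseImages l) := by
  constructor
  · constructor
    · intro h
      refine ⟨1, by norm_num, Filter.Frequently.of_forall fun n => ?_⟩
      rw [one_mul, D.rank_eq hD (h (n + 1))]
    · rintro ⟨c, hc, hfr⟩ a
      by_contra hne
      have ha : 0 < a := by
        rcases Nat.eq_zero_or_pos a with rfl | ha
        · exfalso
          apply hne
          refine le_antisymm ?_ (D.span_le l 0)
          intro x hx
          have h1 : x = x default default • (1 : Matrix (Fin 0 → Fin b) (Fin 0 → Fin b) ℚ).map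
              (algebraMap ℚ (D.K l)) := by
            funext u v
            rw [Subsingleton.elim u default, Subsingleton.elim v default, Matrix.smul_apply,
              Matrix.map_apply, Matrix.one_apply_eq, map_one, smul_eq_mul, mul_one]
          rw [h1]
          refine Submodule.smul_mem _ _ (Submodule.subset_span ⟨1, ?_, rfl⟩)
          intro l'
          refine mem_tateSubT.2 ⟨⊤, inferInstance, fun σ _ => ?_⟩
          have h2 : (1 : Matrix (Fin 0 → Fin b) (Fin 0 → Fin b) ℚ).map (algebraMap ℚ (D.K l')) =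
              1 := Matrix.map_one _ (map_zero _) (map_one _)
          rw [h2]
          exact Fix.one _
        · exact ha
      have h2 := (D.dichotomy hb l ha).resolve_left hne
      have hev : ∀ᶠ n : ℕ in atTop, c < 2 * (1 - a * (b : ℝ) ^ (2 * a + 2) *
          Real.log (n + 2) / n) := (tendsto_err b a).eventually (lt_mem_nhds hc)
      have hpos : ∀ n, 0 < D.rat_rank l n := by
        intro n
        by_contra h0
        have h3 : al (D.rat.base (D.K l)) n = 0 := by
          rw [← D.rat_rank_eq]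
          exact Nat.eq_zero_of_not_pos h0
        have h4 : finrank (D.K l) (LinearMap.range (tpair (D.rat.base (D.K l)) (Fin (n + 1))
          (Fin (n + 1)))) = 0 := h3
        rw [Submodule.finrank_eq_zero, LinearMap.range_eq_bot] at h4
        have h5 := congrArg (fun F => F ⟨_, (D.rat.base (D.K l)).one⟩
          ⟨_, (D.rat.base (D.K l)).one⟩) h4
        have h6 : ∑ u : Fin (n + 1) → Fin b, ∑ v : Fin (n + 1) → Fin b,
            (if u = v then (1 : D.K l) else 0) * (if v = u then (1 : D.K l) else 0) = 0 := h5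
        have h7 : ∑ u : Fin (n + 1) → Fin b, ∑ v : Fin (n + 1) → Fin b,
            (if u = v then (1 : D.K l) else 0) * (if v = u then (1 : D.K l) else 0) =
            (Fintype.card (Fin (n + 1) → Fin b) : D.K l) := by
          have h8 : ∀ u : Fin (n + 1) → Fin b, ∑ v : Fin (n + 1) → Fin b,
              (if u = v then (1 : D.K l) else 0) * (if v = u then (1 : D.K l) else 0) = 1 := by
            intro u
            rw [Finset.sum_eq_single u]
            · rw [if_pos rfl, one_mul]
            · intro v _ hv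
              rw [if_neg (Ne.symm hv), zero_mul]
            · intro h
              exact absurd (Finset.mem_univ _) h
          simp only [h8]
          rw [Finset.sum_const, Finset.card_univ, nsmul_eq_mul, mul_one]
        rw [h7, Nat.cast_eq_zero] at h6
        have : Nonempty (Fin (n + 1) → Fin b) := ⟨fun _ => ⟨0, hb⟩⟩
        exact Fintype.card_ne_zero h6
      have hev' : ∀ᶠ n : ℕ in atTop, c * D.rat_rank l n < (D.tate l n : ℝ) := by
        filter_upwards [hev, eventually_gt_atTop 0] with n hn hn0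
        have h3 := h2 n hn0
        have h4 : (0 : ℝ) < D.rat_rank l n := by exact_mod_cast hpos n
        nlinarith
      exact hfr (hev'.mono fun n hn => not_le.2 hn)
  · intro h U hU
    suffices hz : ZDense (U.map (D.ρ l)) (D.fixGroup l) by
      intro p hp g hg
      refine hz p ?_ g hg
      rintro _ ⟨σ, hσ, rfl⟩
      exact hp σ hσ
    rw [zdense_iff (hD.bogomolov U hU)]
    intro a
    refine dense_of_inv (hD.faltings U hU) ?_
    intro x hx
    have h1 : x ∈ D.span l a := by
      rw [← h a]
      exact mem_tateSubT.2 ⟨U, hU, fun σ hσ => hx _ ⟨σ, hσ, rfl⟩⟩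
    have h2 : D.span l a ≤ invSub (D.fixGroup l) (Fin a) (Fin a) := by
      rw [TateFamily.span, Submodule.span_le]
      rintro _ ⟨y, hy, rfl⟩ g hg
      exact hg a y hy
    exact h2 h1

end Pool.Agent.R940
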