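import Pool.Agent.R940.VDefs
import Pool.Agent.R940.SDefs

/-!
# Hodge-Tate weights of the characters: definitions
-/

open CategoryTheory AlgebraicGeometry

universe u v w

namespace Pool.Agent.R940

section Alg

variable {K : Type*} [Field K] {A : Type*} [Ring A] [Algebra K A] {Γ : Type*} [Group Γ]

/-- The Hodge-Tate weights of the characters `ψ` (of subgroups of finite index) which occur in the
cohomology (`occ i ψ`: in degree `i`). The index set `S` consists of the pairs of an embedding of the
algebraic closure of the field of definition into `ℂ_ℓ` and an embedding of the coefficients into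
`ℂ_ℓ`; the number `wt s ψ` is the weight of `ψ` with respect to `s`, normalised such that
the weights which occur in degree `i` are between `0` and `i`. -/
structure HTW (χ : Chr K Γ) (occ : ℕ → (Γ → K) → Prop) where
  /-- the index set -/
  S : Type
  nonempty : Nonempty S
  /-- the weights -/
  wt : S → (Γ → K) → ℤ
  /-- the weights depend only on the restriction to subgroups of finite index -/
  agree : ∀ s ψ φ, PotAgree ψ φ → wt s ψ = wt s φ
  /-- the weights are additive -/
  add : ∀ s i i' ψ φ, occ i ψ → occ i' φ → wt s (fun g => ψ g * φ g) = wt s ψ + wt s φ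
  /-- the weights which occur in degree `i` are between `0` and `i` -/
  bound : ∀ s i ψ, occ i ψ → 0 ≤ wt s ψ ∧ wt s ψ ≤ i
  /-- the weights of the Tate twists -/
  twist : ∀ (s : S) (j : ℕ), wt s (fun g => χ.val g ^ j) = j
  /-- a character with the weights of a Tate twist agrees with it on a subgroup of finite index -/
  tate : ∀ (j : ℕ) (ψ : Γ → K), occ (2 * j) ψ → (∀ s, wt s ψ = j) →
    PotAgree ψ (fun g => χ.val g ^ j)

/-- The algebra is spanned by eigenvectors of subgroups of finite index in the subspaces `gr i`. -/
def SpannedByEig (ρ : AAct K A Γ) (gr : ℕ → Submodule K A) : Prop :=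
  ∀ x : A, x ∈ Submodule.span K {x | ∃ i ψ, x ∈ gr i ∧ PotEig ρ ψ x}

end Alg

open Pool.Agent.H914 Pool.Agent.H914.VarClass Pool.Agent.H914.VarClass.Obj
  Pool.Agent.H914.WeilCohomology
open Pool.Agent.Y163 (pw sq)

variable {k : Type u} [Field k] {𝒱 : VarClass k} {ops : CycleOps 𝒱}
  {W : WeilCohomology.{u, v} ops} {Γ : Type w} [Group Γ]

/-- The character `ψ` of a subgroup of finite index occurs in the cohomology of degree `i` of some
variety. -/
def OccG (G : GSys W Γ) (i : ℕ) (ψ : Γ → W.K) : Prop :=
  ∃ Y : 𝒱.Obj, ChrOccurs (G.act Y) (W.gr Y) i ψ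

/-- The Hodge-Tate weights of the characters which occur in the cohomology of varieties. -/
def HTWeights (G : GSys W Γ) : Type (max 1 v w) := HTW G.χ (OccG G)

/-- The Galois representation on the cohomology of `X` is potentially abelian and semisimple: it is
spanned by eigenvectors of subgroups of finite index. -/
def PotAbelianG (G : GSys W Γ) (X : 𝒱.Obj) : Prop := SpannedByEig (G.act X) (W.gr X)

/-- The Tate conjecture for `Y`, in all codimensions and over all finite extensions of the field of
definition. -/
def TateAll (G : GSys W Γ) (Y : 𝒱.Obj) : Prop :=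
  AllTateIn G.χ (G.act Y) (W.gr Y) fun j => spanCycles W Y (j : ℕ)

end Pool.Agent.R940
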