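import Pool.Agent.R940.VHT
import Pool.Agent.R940.VConv

/-!
# The uniform excess law for varieties of CM type
-/

set_option linter.unusedVariables false
set_option linter.unusedSectionVars false

open CategoryTheory AlgebraicGeometry CategoryTheory.Limits TensorProduct

universe u v w

namespace Pool.Agent.R940

open Pool.Agent.H914 Pool.Agent.H447 Pool.Agent.W534 Pool.Agent.Y163 VarClass Obj WeilCohomology
  Module

variable {k : Type u} [Field k] {𝒱 : VarClass k} {ops : CycleOps 𝒱}
  {W : WeilCohomology.{u, v} ops} {X Y Z : 𝒱.Obj} {Γ : Type w} [Group Γ] {G : GSys W Γ}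

/-- The Hodge-Tate weights in the sense of the file `CMDefs`. -/
def HTWeights.old (HT : HTWeights G) : HodgeTate G.old where
  S := HTW.S HT
  nonempty := HTW.nonempty HT
  wt := HTW.wt HT
  agree := HTW.agree HT
  mul := by
    intro s Y Y' i i' ψ φ h1 h2
    exact HTW.add HT s i i' ψ φ ⟨Y, h1⟩ ⟨Y', h2⟩
  bound := by
    intro s Y i ψ h
    exact HTW.bound HT s i ψ ⟨Y, h⟩
  twist := HTW.twist HT
  tate := by
    intro Y j ψ h h2
    exact HTW.tate HT j ψ ⟨Y, h⟩ h2

lemma PotAbelianG.old (h : PotAbelianG G X) : IsPotAbelian G.old X :=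
  Submodule.eq_top_iff'.2 fun x => h x

lemma tateAll_iff : TateAll G Y ↔ TateConj G.old Y :=
  ⟨fun h j _ c hc => h j c hc, fun h j c hc => h.all j hc⟩

/-- The set of the homogeneous eigenvectors of subgroups of finite index. -/
def eigSet (G : GaloisSystem W Γ) (Y : 𝒱.Obj) : Set (W.H Y) :=
  {x | ∃ i ψ, x ∈ W.gr Y i ∧ IsEigen G Y ψ x}

lemma potAbelian_prod {G : GaloisSystem W Γ} (hX : IsPotAbelian G X) (hY : IsPotAbelian G Y) :
    IsPotAbelian G (X.prod Y) := by
  have hmul : ∀ a ∈ Submodule.span W.K (eigSet G X), ∀ b ∈ Submodule.span W.K (eigSet G Y),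
      W.map (fst X Y) a * W.map (snd X Y) b ∈ Submodule.span W.K (eigSet G (X.prod Y)) := by
    intro a ha b hb
    induction ha using Submodule.span_induction with
    | mem a ha =>
      obtain ⟨i, ψ, h1, h2⟩ := ha
      induction hb using Submodule.span_induction with
      | mem b hb =>
        obtain ⟨j, φ, h3, h4⟩ := hb
        exact Submodule.subset_span ⟨i + j, ψ * φ,
          W.mul_mem (W.map_mem _ h1) (W.map_mem _ h3), (h2.map _).mul (h4.map _)⟩
      | zero => rw [map_zero, mul_zero]; exact Submodule.zero_mem _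
      | add x y _ _ hx hy => rw [map_add, mul_add]; exact Submodule.add_mem _ hx hy
      | smul c x _ hx => rw [map_smul, mul_smul_comm]; exact Submodule.smul_mem _ _ hx
    | zero => rw [map_zero, zero_mul]; exact Submodule.zero_mem _
    | add x y _ _ hx hy => rw [map_add, add_mul]; exact Submodule.add_mem _ hx hy
    | smul c x _ hx => rw [map_smul, smul_mul_assoc]; exact Submodule.smul_mem _ _ hx
  refine Submodule.eq_top_iff'.2 fun c => ?_
  refine W.kunneth_induction (p := fun c => c ∈ Submodule.span W.K (eigSet G (X.prod Y)))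
    (fun a b ha hb => Submodule.add_mem _ ha hb) (fun i j a _ b _ => ?_) c
  refine hmul a ?_ b ?_
  · have : a ∈ (⊤ : Submodule W.K (W.H X)) := Submodule.mem_top
    rwa [← hX] at this
  · have : b ∈ (⊤ : Submodule W.K (W.H Y)) := Submodule.mem_top
    rwa [← hY] at this

lemma potAbelian_pw {G : GaloisSystem W Γ} (hX : IsPotAbelian G X) :
    ∀ n, IsPotAbelian G (pw X n)
  | 0 => hX
  | n + 1 => potAbelian_prod hX (potAbelian_pw hX n)

/-- If all Tate classes are algebraic and the representation is potentially abelian and semisimple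
then homological and numerical equivalence agree. -/
lemma homEqNum_of_tate {G : GaloisSystem W Γ} (hY : IsPotAbelian G Y) (hT : TateConj G Y) :
    HomEqNum W Y := by
  intro j hj z hz hnum
  obtain ⟨l, hl⟩ := Nat.exists_eq_add_of_le hj
  by_contra hz0
  -- an eigenvector which does not pair to zero with the class
  obtain ⟨y, ⟨i, ψ, hyg, hye⟩, hy⟩ : ∃ y ∈ eigSet G Y, W.tr Y (W.cl Y z * y) ≠ 0 := by
    by_contra hcon
    push Not at hcon
    apply hz0
    apply (W.isPoincareAlgebra Y).nondeg
    intro b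
    have hb : b ∈ Submodule.span W.K (eigSet G Y) := by
      have : b ∈ (⊤ : Submodule W.K (W.H Y)) := Submodule.mem_top
      rwa [← hY] at this
    induction hb using Submodule.span_induction with
    | mem x hx => exact hcon x hx
    | zero => rw [mul_zero, map_zero]
    | add x y _ _ hx hy => rw [mul_add, map_add, hx, hy, add_zero]
    | smul c x _ hx => rw [mul_smul_comm, map_smul, hx, smul_zero]
  -- it is a Tate class
  obtain rfl : i = 2 * l := by
    by_contra hcon
    exact hy (W.tr_eq_zero (W.mul_mem (W.cl_mem hz) hyg) (by omega))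
  obtain ⟨Δ, hΔ, hy'⟩ := hye
  obtain ⟨Δ', hΔ', hz'⟩ := (G.gal Y).cl_fix j (W.cl Y z) ⟨z, hz, rfl⟩
  have hyT : y ∈ tateSub G Y l := by
    refine ⟨hyg, Δ ⊓ Δ', inferInstance, fun g hg => ?_⟩
    rw [hy' g hg.1]
    congr 1
    have h1 := (G.gal Y).tr_act g (W.cl Y z * y)
    rw [map_mul, hz' g hg.2, hy' g hg.1, smul_mul_smul_comm, map_smul, smul_eq_mul, hl,
      pow_add] at h1
    have h2 := mul_right_cancel₀ hy h1
    exact mul_left_cancel₀ (pow_ne_zero _ (Units.ne_zero _)) h2
  have h3 := hT l (by omega) hyT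
  apply hy
  have h4 := orth_of_num hl hz hnum y h3
  exact h4

/-- **The uniform excess law.** -/
theorem uniform_cm (HT : HTWeights G) (hXa : PotAbelianG G X) (hX : SignStd W X)
    (hZ : SignStd W Z) {D : X.Cycles} (hD : X.IsCyc 1 D) (hbig : Big ops X D) {N : ℕ}
    (hN : N = cmBound (betti W X) Z.dim) :
    ((∀ n, TateAll G (Z.prod (pw X n))) ∧
      (PotAbelianG G Z → ∀ n, HomEqNum W (Z.prod (pw X n)))) ∨
      ExcessG G Z X (N * betti W X ^ (2 * N + 2)) := by
  have hdim := dim_lt hD (hbig.tr (W := W) hD)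
  have hb : 1 ≤ betti W X := by rw [betti]; omega
  have hN1 : 1 ≤ N := by
    rw [hN]
    exact Nat.mul_pos hb (Nat.pow_pos (by omega))
  rcases strong_or_excess (G := G) hX hZ hD hbig (N - 1) with h | h
  · left
    have h3 : ∀ n, TateConj G.old (Z.prod (pw X n)) := by
      intro n
      have h1 : TateConj G.old (Z.prod (pw X (N - 1))) := tateAll_iff.1 h.1
      subst hN
      exact gal_red HT.old hXa.old hD hbig h1 n
    exact ⟨fun n => tateAll_iff.2 (h3 n), fun hZa n =>
      homEqNum_of_tate (potAbelian_prod hZa.old (potAbelian_pw hXa.old n)) (h3 n)⟩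
  · right
    have h2 : (N - 1 + 1) * betti W X ^ (2 * (N - 1) + 4) = N * betti W X ^ (2 * N + 2) := by
      rw [show N - 1 + 1 = N by omega, show 2 * (N - 1) + 4 = 2 * N + 2 by omega]
    rwa [h2] at h

end Pool.Agent.R940
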