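import Mathlib

/-!
# Alternating forms and complements, averages
-/

set_option linter.unusedVariables false
set_option linter.unusedSectionVars false

namespace Pool.Agent.R940

open Module

section Alt

variable {K V N : Type*} [Field K] [AddCommGroup V] [Module K V] [AddCommGroup N] [Module K N]

/-- An alternating map on a space of the same dimension. -/
lemma alt_scalar {n : ℕ} (A : V [⋀^Fin n]→ₗ[K] N) {V' : Submodule K V}
    (e : Basis (Fin n) K V') (w : Fin n → V') :
    A (fun i => (w i : V)) = e.det w • A (fun i => (e i : V)) := by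
  have h1 : A.compLinearMap V'.subtype =
      (LinearMap.toSpanSingleton K N (A fun i => (e i : V))).compAlternatingMap e.det := by
    apply Basis.ext_alternating e
    intro v hv
    let σ : Equiv.Perm (Fin n) := Equiv.ofBijective v (Finite.injective_iff_bijective.1 hv)
    have h2 : (fun i => e (v i)) = (fun i => e i) ∘ σ := rfl
    rw [h2, AlternatingMap.map_perm, AlternatingMap.map_perm]
    congr 1
    change A (fun i => (e i : V)) = e.det (fun i => e i) • A (fun i => (e i : V))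
    have h3 : e.det (fun i => e i) = 1 := e.det_self
    rw [h3, one_smul]
  have h2 := congrArg (fun f => f w) h1
  exact h2

lemma inj_miss {n : ℕ} {u : Fin n → Fin (n + 1)} (hu : Function.Injective u) :
    ∃ (k : Fin (n + 1)) (τ : Equiv.Perm (Fin n)), u = k.succAbove ∘ τ := by
  have h1 : ¬ Function.Surjective u := by
    intro h
    have := Fintype.card_le_of_surjective u h
    simp at this
  simp only [Function.Surjective, not_forall, not_exists] at h1
  obtain ⟨k, hk⟩ := h1
  have h2 : ∀ i, ∃ j, k.succAbove j = u i := fun i => Fin.exists_succAbove_eq (hk i)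
  choose τ hτ using h2
  have h3 : Function.Injective τ := by
    intro i j hij
    apply hu
    rw [← hτ i, ← hτ j, hij]
  exact ⟨k, Equiv.ofBijective τ (Finite.injective_iff_bijective.1 h3), funext fun i => (hτ i).symm⟩

/-- The elements of `E` which are orthogonal to `V'`. -/
def annihE {n : ℕ} (F : V [⋀^Fin (n + 1)]→ₗ[K] K) (V' E : Submodule K V) : Submodule K V where
  carrier := {v | v ∈ E ∧ ∀ w : Fin n → V', F (Matrix.vecCons v fun i => (w i : V)) = 0}
  zero_mem' := ⟨E.zero_mem, fun w => by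
    rw [← AlternatingMap.curryLeft_apply_apply, map_zero]; rfl⟩
  add_mem' := by
    rintro a b ⟨h1, h2⟩ ⟨h3, h4⟩
    refine ⟨E.add_mem h1 h3, fun w => ?_⟩
    rw [← AlternatingMap.curryLeft_apply_apply, map_add, AlternatingMap.add_apply,
      AlternatingMap.curryLeft_apply_apply, AlternatingMap.curryLeft_apply_apply, h2, h4, add_zero]
  smul_mem' := by
    rintro c a ⟨h1, h2⟩
    refine ⟨E.smul_mem c h1, fun w => ?_⟩
    rw [← AlternatingMap.curryLeft_apply_apply, map_smul, AlternatingMap.smul_apply,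
      AlternatingMap.curryLeft_apply_apply, h2, smul_zero]

variable {n : ℕ} (F : V [⋀^Fin (n + 1)]→ₗ[K] K) {V' : Submodule K V}
  (e : Basis (Fin (n + 1)) K V')

/-- The coordinates given by an alternating form. -/
noncomputable def altP (k : Fin (n + 1)) : V →ₗ[K] K where
  toFun v := F (Matrix.vecCons v fun i => (e (k.succAbove i) : V))
  map_add' a b := by
    rw [← AlternatingMap.curryLeft_apply_apply, map_add, AlternatingMap.add_apply]
    rfl
  map_smul' c a := by
    rw [← AlternatingMap.curryLeft_apply_apply, map_smul, AlternatingMap.smul_apply]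
    rfl

lemma altP_apply (k : Fin (n + 1)) (v : V) :
    altP F e k v = F (Matrix.vecCons v fun i => (e (k.succAbove i) : V)) := rfl

lemma altP_ne {k j : Fin (n + 1)} (h : j ≠ k) : altP F e k (e j) = 0 := by
  obtain ⟨i, hi⟩ := Fin.exists_succAbove_eq h
  rw [altP_apply]
  apply F.map_eq_zero_of_eq _ (i := 0) (j := i.succ)
  · rw [Matrix.cons_val_zero, Matrix.cons_val_succ, hi]
  · exact (Fin.succ_ne_zero i).symm

lemma altP_self (he : F (fun i => (e i : V)) ≠ 0) (k : Fin (n + 1)) : altP F e k (e k) ≠ 0 := by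
  have hb : Function.Injective (Matrix.vecCons k k.succAbove : Fin (n + 1) → Fin (n + 1)) := by
    intro i j
    refine Fin.cases ?_ (fun i => ?_) i <;> refine Fin.cases ?_ (fun j => ?_) j
    · intro _; rfl
    · intro h
      rw [Matrix.cons_val_zero, Matrix.cons_val_succ] at h
      exact absurd h.symm (Fin.succAbove_ne k j)
    · intro h
      rw [Matrix.cons_val_zero, Matrix.cons_val_succ] at h
      exact absurd h (Fin.succAbove_ne k i)
    · intro h
      rw [Matrix.cons_val_succ, Matrix.cons_val_succ] at h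
      rw [Fin.succAbove_right_injective h]
  let σ : Equiv.Perm (Fin (n + 1)) :=
    Equiv.ofBijective _ (Finite.injective_iff_bijective.1 hb)
  have h1 : (Matrix.vecCons (e k : V) fun i => (e (k.succAbove i) : V)) =
      (fun i => (e i : V)) ∘ σ := by
    funext i
    refine Fin.cases ?_ (fun i => ?_) i
    · rfl
    · rfl
  rw [altP_apply, h1, AlternatingMap.map_perm]
  intro h0
  rcases Int.units_eq_one_or (Equiv.Perm.sign σ) with h | h
  · rw [h, one_smul] at h0
    exact he h0
  · rw [h, Units.neg_smul, one_smul, neg_eq_zero] at h0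
    exact he h0

lemma annih_of_altP {v : V} (h : ∀ k, altP F e k v = 0) (w : Fin n → V') :
    F (Matrix.vecCons v fun i => (w i : V)) = 0 := by
  have h1 : (F.curryLeft v).compLinearMap V'.subtype = 0 := by
    apply Basis.ext_alternating e
    intro u hu
    obtain ⟨k, τ, rfl⟩ := inj_miss hu
    have h2 : (fun i => e ((k.succAbove ∘ τ) i)) = (fun i => e (k.succAbove i)) ∘ τ := rfl
    rw [h2, AlternatingMap.map_perm]
    have h3 : ((F.curryLeft v).compLinearMap V'.subtype) (fun i => e (k.succAbove i)) =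
        altP F e k v := rfl
    rw [h3, h k, smul_zero]
    rfl
  have h2 := congrArg (fun f => f w) h1
  exact h2

/-- **The complement given by an alternating form.** -/
theorem alt_compl (he : F (fun i => (e i : V)) ≠ 0) {E : Submodule K V} (hE : V' ≤ E) :
    V' ⊓ annihE F V' E = ⊥ ∧ V' ⊔ annihE F V' E = E := by
  constructor
  · rw [eq_bot_iff]
    rintro v ⟨h1, h2, h3⟩
    rw [Submodule.mem_bot]
    have h4 : ∀ k, e.repr ⟨v, h1⟩ k = 0 := by
      intro k
      have h5 : altP F e k v = 0 := h3 fun i => e (k.succAbove i)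
      have h6 : v = ∑ j, e.repr ⟨v, h1⟩ j • (e j : V) := by
        have h7 := congrArg (fun x : V' => (x : V)) (e.sum_repr ⟨v, h1⟩)
        simp only [Submodule.coe_sum, Submodule.coe_smul] at h7
        exact h7.symm
      rw [h6, map_sum, Finset.sum_eq_single k, map_smul, smul_eq_mul] at h5
      · exact (mul_eq_zero.1 h5).resolve_right (altP_self F e he k)
      · intro j _ hj
        rw [map_smul, altP_ne F e hj, smul_zero]
      · intro h; exact absurd (Finset.mem_univ _) h
    have h5 : (⟨v, h1⟩ : V') = 0 := by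
      apply e.repr.injective
      ext k
      rw [h4 k, map_zero]
      rfl
    exact congrArg (fun x : V' => (x : V)) h5
  · apply le_antisymm
    · exact sup_le hE fun v hv => hv.1
    · intro v hv
      have h1 : ∑ j, (altP F e j v / altP F e j (e j)) • (e j : V) ∈ V' :=
        Submodule.sum_mem _ fun j _ => V'.smul_mem _ (e j).2
      rw [show v = ∑ j, (altP F e j v / altP F e j (e j)) • (e j : V) +
        (v - ∑ j, (altP F e j v / altP F e j (e j)) • (e j : V)) by abel]
      refine Submodule.add_mem_sup h1 ⟨E.sub_mem hv (hE h1), annih_of_altP F e fun k => ?_⟩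
      rw [map_sub, map_sum, Finset.sum_eq_single k, map_smul, smul_eq_mul,
        div_mul_cancel₀ _ (altP_self F e he k), sub_self]
      · intro j _ hj
        rw [map_smul, altP_ne F e hj, smul_zero]
      · intro h; exact absurd (Finset.mem_univ _) h

end Alt

section Avg

variable {K V : Type*} [Field K] [CharZero K] [AddCommGroup V] [Module K V] {Γ : Type*} [Group Γ]

/-- **Averages of projections.** -/
theorem avg_compl (ρ : Γ → V →ₗ[K] V) (hmul : ∀ g h v, ρ (g * h) v = ρ g (ρ h v))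
    (hone : ∀ v, ρ 1 v = v) {E V' : Submodule K V} (hV' : V' ≤ E)
    (hE : ∀ g, ∀ v ∈ E, ρ g v ∈ E) (hs : ∀ g, ∀ v ∈ V', ρ g v ∈ V') (Δ : Subgroup Γ)
    (hΔ : Δ.FiniteIndex) {C : Submodule K V} (hC : C ≤ E) (h1 : V' ⊓ C = ⊥) (h2 : V' ⊔ C = E)
    (h3 : ∀ g ∈ Δ, ∀ v ∈ C, ρ g v ∈ C) :
    ∃ C' ≤ E, V' ⊓ C' = ⊥ ∧ V' ⊔ C' = E ∧ ∀ g, ∀ v ∈ C', ρ g v ∈ C' := by
  classical
  obtain ⟨D, hD⟩ := Submodule.exists_isCompl E
  have hcompl : IsCompl V' (C ⊔ D) := by
    constructor
    · rw [Submodule.disjoint_def]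
      intro v hv hv'
      obtain ⟨c, hc, d, hd, rfl⟩ := Submodule.mem_sup.1 hv'
      have hdE : d ∈ E := by
        have := E.sub_mem (hV' hv) (hC hc)
        rwa [add_sub_cancel_left] at this
      have hd0 : d = 0 := (Submodule.disjoint_def.1 hD.disjoint) d hdE hd
      rw [hd0, add_zero] at hv ⊢
      have : c ∈ V' ⊓ C := ⟨hv, hc⟩
      rwa [h1, Submodule.mem_bot] at this
    · rw [codisjoint_iff, ← sup_assoc, h2]
      exact hD.sup_eq_top
  let p : V →ₗ[K] V := V'.subtype ∘ₗ Submodule.projectionOnto V' (C ⊔ D) hcompl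
  have hp1 : ∀ v ∈ V', p v = v := by
    intro v hv
    have h4 := Submodule.projectionOnto_apply_left hcompl ⟨v, hv⟩
    exact congrArg (fun x : V' => (x : V)) h4
  have hp2 : ∀ v ∈ C, p v = 0 := by
    intro v hv
    have h4 := Submodule.projectionOnto_apply_of_mem_right hcompl
      (show v ∈ C ⊔ D from Submodule.mem_sup_left hv)
    exact congrArg (fun x : V' => (x : V)) h4
  have hp3 : ∀ v, p v ∈ V' := fun v =>
    (Submodule.projectionOnto V' (C ⊔ D) hcompl v).2
  have hpδ : ∀ g ∈ Δ, ∀ v ∈ E, p (ρ g v) = ρ g (p v) := by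
    intro g hg v hv
    rw [← h2] at hv
    obtain ⟨a, ha, c, hc, rfl⟩ := Submodule.mem_sup.1 hv
    rw [map_add, map_add, map_add, hp1 a ha, hp2 c hc, hp1 _ (hs g a ha), hp2 _ (h3 g hg c hc),
      add_zero, add_zero]
  let c : Γ → V →ₗ[K] V := fun g => ρ g ∘ₗ p ∘ₗ ρ g⁻¹
  have hc : ∀ g, ∀ δ ∈ Δ, ∀ x ∈ E, c (g * δ) x = c g x := by
    intro g δ hδ x hx
    change ρ (g * δ) (p (ρ (g * δ)⁻¹ x)) = ρ g (p (ρ g⁻¹ x))
    rw [mul_inv_rev, hmul, hmul, hpδ _ (inv_mem hδ) _ (hE _ _ hx), ← hmul δ, mul_inv_cancel, hone]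
  have hout : ∀ g : Γ, ∀ x ∈ E, c (Quotient.out (g : Γ ⧸ Δ)) x = c g x := by
    intro g x hx
    have h4 : ((Quotient.out (g : Γ ⧸ Δ) : Γ) : Γ ⧸ Δ) = (g : Γ ⧸ Δ) := Quotient.out_eq' _
    have h5 : g⁻¹ * Quotient.out (g : Γ ⧸ Δ) ∈ Δ := QuotientGroup.eq.1 h4.symm
    have h6 := hc g _ h5 x hx
    rwa [mul_inv_cancel_left] at h6
  have hfin : Fintype (Γ ⧸ Δ) := Fintype.ofFinite _
  let π : V →ₗ[K] V := ∑ q : Γ ⧸ Δ, c (Quotient.out q)
  have hπ : ∀ x, π x = ∑ q : Γ ⧸ Δ, c (Quotient.out q) x := fun x =>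
    LinearMap.sum_apply _ _ _
  have hm : (Fintype.card (Γ ⧸ Δ) : K) ≠ 0 := by
    have : Nonempty (Γ ⧸ Δ) := ⟨((1 : Γ) : Γ ⧸ Δ)⟩
    exact_mod_cast Fintype.card_ne_zero
  have hπV : ∀ x ∈ V', π x = (Fintype.card (Γ ⧸ Δ) : K) • x := by
    intro x hx
    rw [hπ]
    have h4 : ∀ q : Γ ⧸ Δ, c (Quotient.out q) x = x := by
      intro q
      change ρ _ (p (ρ _ x)) = x
      rw [hp1 _ (hs _ _ hx), ← hmul, mul_inv_cancel, hone]
    rw [Finset.sum_congr rfl fun q _ => h4 q, Finset.sum_const, Finset.card_univ, Nat.cast_smul_eq_nsmul]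
  have hπm : ∀ x, π x ∈ V' := by
    intro x
    rw [hπ]
    exact Submodule.sum_mem _ fun q _ => hs _ _ (hp3 _)
  have hπh : ∀ h, ∀ x ∈ E, ρ h (π x) = π (ρ h x) := by
    intro h x hx
    rw [hπ, hπ, map_sum]
    refine Fintype.sum_equiv (MulAction.toPerm h) _ _ fun q => ?_
    obtain ⟨g, rfl⟩ := QuotientGroup.mk_surjective q
    have h4 : (MulAction.toPerm h) ((g : Γ) : Γ ⧸ Δ) = ((h * g : Γ) : Γ ⧸ Δ) := rfl
    rw [h4, hout g x hx, hout (h * g) _ (hE h x hx)]
    change ρ h (ρ g (p (ρ g⁻¹ x))) = ρ (h * g) (p (ρ (h * g)⁻¹ (ρ h x)))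
    rw [hmul, ← hmul (h * g)⁻¹ h, mul_inv_rev, inv_mul_cancel_right]
  refine ⟨E ⊓ LinearMap.ker π, inf_le_left, ?_, ?_, ?_⟩
  · rw [eq_bot_iff]
    rintro x ⟨hx1, hx2, hx3⟩
    replace hx3 : π x = 0 := hx3
    rw [hπV x hx1] at hx3
    exact (Submodule.mem_bot _).2 ((smul_eq_zero.1 hx3).resolve_left hm)
  · apply le_antisymm
    · exact sup_le hV' inf_le_left
    · intro x hx
      have h4 : (Fintype.card (Γ ⧸ Δ) : K)⁻¹ • π x ∈ V' := V'.smul_mem _ (hπm x)
      rw [show x = (Fintype.card (Γ ⧸ Δ) : K)⁻¹ • π x +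
        (x - (Fintype.card (Γ ⧸ Δ) : K)⁻¹ • π x) by abel]
      refine Submodule.add_mem_sup h4 ⟨E.sub_mem hx (hV' h4), ?_⟩
      change π _ = 0
      rw [map_sub, map_smul, hπV _ (hπm x), smul_smul, inv_mul_cancel₀ hm, one_smul, sub_self]
  · rintro g x ⟨hx1, hx2⟩
    refine ⟨hE g x hx1, ?_⟩
    replace hx2 : π x = 0 := hx2
    change π (ρ g x) = 0
    rw [← hπh g x hx1, hx2, map_zero]

end Avg

end Pool.Agent.R940
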