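import Pool.Agent.R940.DLen

/-!
# Multiplicities with coefficients in a vector space
-/

set_option linter.unusedVariables false
set_option linter.unusedSectionVars false

namespace Pool.Agent.R940

open Module Pool.Agent.Y163 Finset TensorProduct

section Alg

variable {K : Type*} [Field K] [CharZero K] {U : Type*} [AddCommGroup U] [Module K U]
  [Module.Finite K U] {V : Type*} [AddCommGroup V] [Module K V] [Module.Finite K V]
  {V₂ : Type*} [AddCommGroup V₂] [Module K V₂] [Module.Finite K V₂]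

omit [CharZero K] [Module.Finite K U] [Module.Finite K V] in
lemma lT_mul (f g : End K V) (t : U ⊗[K] V) :
    (f * g).lTensor U t = f.lTensor U (g.lTensor U t) := by
  rw [Module.End.mul_eq_comp, LinearMap.lTensor_comp, LinearMap.comp_apply]

/-- Nakayama's lemma with coefficients. -/
lemma nakayama_lT (B : Subalgebra K (End K V)) {ι : Type*} [Fintype ι] (t : ι → U ⊗[K] V)
    (ε : ι → ι → End K V) (hε : ∀ a b, ε a b ∈ rad B)
    (h : ∀ a, t a = ∑ b, (ε a b).lTensor U (t b)) : ∀ a, t a = 0 := by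
  obtain ⟨N, hN⟩ := exists_nilp B
  have key : ∀ n : ℕ, ∀ a, t a ∈ Submodule.span K
      {w : U ⊗[K] V | ∃ l : List (End K V), (∀ x ∈ l, x ∈ rad B) ∧ l.length = n ∧
        ∃ v, w = l.prod.lTensor U v} := by
    intro n
    induction n with
    | zero =>
      intro a
      refine Submodule.subset_span ⟨[], by simp, rfl, t a, ?_⟩
      rw [List.prod_nil, Module.End.one_eq_id, LinearMap.lTensor_id, LinearMap.id_apply]
    | succ n ih =>
      intro a
      rw [h a]
      apply Submodule.sum_mem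
      intro b _
      have h1 := ih b
      generalize t b = w at h1
      induction h1 using Submodule.span_induction with
      | mem w hw =>
        obtain ⟨l, hl, hlen, v, rfl⟩ := hw
        refine Submodule.subset_span ⟨ε a b :: l, ?_, by simp [hlen], v, ?_⟩
        · intro x hx
          rcases List.mem_cons.1 hx with rfl | hx
          · exact hε a b
          · exact hl x hx
        · rw [List.prod_cons, lT_mul]
      | zero => rw [map_zero]; exact Submodule.zero_mem _
      | add x y _ _ hx hy => rw [map_add]; exact Submodule.add_mem _ hx hy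
      | smul c x _ hx => rw [map_smul]; exact Submodule.smul_mem _ _ hx
  intro a
  have h1 := key N a
  have h2 : Submodule.span K
      {w : U ⊗[K] V | ∃ l : List (End K V), (∀ x ∈ l, x ∈ rad B) ∧ l.length = N ∧
        ∃ v, w = l.prod.lTensor U v} ≤ ⊥ := by
    rw [Submodule.span_le]
    rintro w ⟨l, hl, hlen, v, rfl⟩
    rw [hN l hl hlen, LinearMap.lTensor_zero]
    simp
  exact h2 h1

variable {B₁ : Subalgebra K (End K V)} {B₂ : Subalgebra K (End K V₂)}
  {P : Submodule K (V →ₗ[K] V₂)} {Q : Submodule K (V₂ →ₗ[K] V)}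

/-- The multiplicities of primitive idempotents bound dimensions from below. -/
theorem sum_mu_mul_le_lT (D : Duo B₁ B₂ P Q) {C : Type} [Fintype C] {e : C → End K V}
    (he : Prims B₁ e) (T₁ : Submodule K (U ⊗[K] V)) (T₂ : Submodule K (U ⊗[K] V₂))
    (hT : ∀ x ∈ P, ∀ t ∈ T₁, x.lTensor U t ∈ T₂) :
    ∑ c, mu P Q 1 (e c) * finrank K (T₁.map ((e c).lTensor U)) ≤ finrank K T₂ := by
  classical
  obtain ⟨X, Y, hX, hY, hhX, hXe, heY, hYh, hoff, hdiag⟩ :=
    exists_dual_ops D he B₂.one_mem (mul_one 1)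
  let ι := Σ c, Fin (mu P Q 1 (e c))
  let Ψ : (∀ i : ι, T₁.map ((e i.1).lTensor U)) →ₗ[K] U ⊗[K] V₂ :=
    ∑ i : ι, (X i.1 i.2).lTensor U ∘ₗ (T₁.map ((e i.1).lTensor U)).subtype ∘ₗ LinearMap.proj i
  have hΨ : ∀ t, Ψ t = ∑ i : ι, (X i.1 i.2).lTensor U (t i : U ⊗[K] V) := by
    intro t
    simp only [Ψ, LinearMap.sum_apply]
    rfl
  have hinj : Function.Injective Ψ := by
    rw [← LinearMap.ker_eq_bot, LinearMap.ker_eq_bot']
    intro t ht
    rw [hΨ] at ht
    have het : ∀ i : ι, (e i.1).lTensor U (t i : U ⊗[K] V) = (t i : U ⊗[K] V) := by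
      intro i
      obtain ⟨s, hs, hs'⟩ := (t i).2
      rw [← hs', ← lT_mul, he.idem]
    have h1 : ∀ i : ι, (t i : U ⊗[K] V) = ∑ j : ι,
        (-(Y i.1 i.2 ∘ₗ X j.1 j.2 - (if i = j then e i.1 else 0))).lTensor U
          (t j : U ⊗[K] V) := by
      intro i
      have h2 := congrArg (fun w => (Y i.1 i.2).lTensor U w) ht
      simp only [map_zero, map_sum] at h2
      have h3 : ∑ j : ι, (if i = j then e i.1 else 0 : End K V).lTensor U (t j : U ⊗[K] V) =
          (t i : U ⊗[K] V) := by
        rw [Finset.sum_eq_single i]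
        · rw [if_pos rfl, het]
        · intro b _ hb
          rw [if_neg (Ne.symm hb), LinearMap.lTensor_zero, LinearMap.zero_apply]
        · intro h; exact absurd (Finset.mem_univ _) h
      have h4 : ∑ j : ι, (-(Y i.1 i.2 ∘ₗ X j.1 j.2 - (if i = j then e i.1 else 0))).lTensor U
          (t j : U ⊗[K] V) =
          ∑ j : ι, (if i = j then e i.1 else 0 : End K V).lTensor U (t j : U ⊗[K] V) -
            ∑ j : ι, (Y i.1 i.2).lTensor U ((X j.1 j.2).lTensor U (t j : U ⊗[K] V)) := by
        rw [← Finset.sum_sub_distrib]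
        apply Finset.sum_congr rfl
        intro j _
        rw [neg_sub, LinearMap.lTensor_sub, LinearMap.sub_apply, LinearMap.lTensor_comp,
          LinearMap.comp_apply]
      rw [h4, h3, h2, sub_zero]
    have h5 := nakayama_lT B₁ (fun i : ι => (t i : U ⊗[K] V)) _ (by
      rintro ⟨c, b⟩ ⟨c', a⟩
      apply Submodule.neg_mem
      by_cases hcc : c = c'
      · subst hcc
        have h6 := hdiag c a b
        by_cases hab : a = b
        · subst hab
          rw [if_pos rfl] at h6 ⊢
          exact h6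
        · rw [if_neg hab] at h6
          rw [if_neg]
          · exact h6
          · intro h7
            apply hab
            have := (Sigma.mk.injEq _ _ _ _).mp h7
            exact (eq_of_heq this.2).symm
      · rw [if_neg, sub_zero]
        · exact hoff c c' a b hcc
        · intro h7
          exact hcc (congrArg Sigma.fst h7)) h1
    funext i
    apply Subtype.ext
    exact h5 i
  have hrange : LinearMap.range Ψ ≤ T₂ := by
    rintro _ ⟨t, rfl⟩
    rw [hΨ]
    apply Submodule.sum_mem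
    intro i _
    obtain ⟨s, hs, hs'⟩ := (t i).2
    rw [← hs', ← LinearMap.comp_apply, ← LinearMap.lTensor_comp, hXe]
    exact hT _ (hX _ _) _ hs
  have h1 := LinearMap.finrank_range_of_inj hinj
  have h2 : finrank K (∀ i : ι, T₁.map ((e i.1).lTensor U)) =
      ∑ c, mu P Q 1 (e c) * finrank K (T₁.map ((e c).lTensor U)) := by
    rw [Module.finrank_pi_fintype, Fintype.sum_sigma]
    apply Finset.sum_congr rfl
    intro c _
    change ∑ _y : Fin (mu P Q 1 (e c)), finrank K (Submodule.map ((e c).lTensor U) T₁) = _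
    rw [Finset.sum_const, Finset.card_univ, Fintype.card_fin, smul_eq_mul]
  rw [← h2, ← h1]
  exact Submodule.finrank_mono hrange

/-- A nonzero stable subspace has a nonzero multiplicity. -/
lemma exists_rep_ne (w : Wed B₁) {T : Submodule K (U ⊗[K] V)}
    (hT : ∀ f ∈ B₁, ∀ t ∈ T, f.lTensor U t ∈ T) (hne : T ≠ ⊥) :
    ∃ c, 0 < finrank K (T.map ((w.e (w.rep c)).lTensor U)) := by
  by_contra hcon
  push Not at hcon
  have h0 : ∀ c, ∀ t ∈ T, (w.e (w.rep c)).lTensor U t = 0 := by
    intro c t ht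
    have h1 : T.map ((w.e (w.rep c)).lTensor U) = ⊥ :=
      Submodule.finrank_eq_zero.1 (Nat.le_zero.1 (hcon c))
    have h2 : (w.e (w.rep c)).lTensor U t ∈ T.map ((w.e (w.rep c)).lTensor U) := ⟨t, ht, rfl⟩
    rw [h1] at h2
    exact (Submodule.mem_bot _).1 h2
  apply hne
  rw [eq_bot_iff]
  intro t ht
  rw [Submodule.mem_bot]
  have h3 : t = ∑ i, (w.e i).lTensor U t := by
    have h4 : (∑ i, w.e i : End K V).lTensor U t = ∑ i, (w.e i).lTensor U t := by
      have h5 := map_sum (LinearMap.lTensorHom U (R := K) (N := V) (P := V)) w.e univ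
      have h6 := congrArg (fun f => f t) h5
      simp only [LinearMap.sum_apply, LinearMap.coe_lTensorHom] at h6
      exact h6
    rw [← h4, w.e_sum, Module.End.one_eq_id, LinearMap.lTensor_id, LinearMap.id_apply]
  rw [h3]
  refine Finset.sum_eq_zero fun i _ => ?_
  obtain ⟨u, hu, v, hv, heu, hue, hev, hve, huv, hvu⟩ :=
    w.conn i (w.rep (w.κ i)) (w.κ_rep _).symm
  set y := (w.e i).lTensor U t with hy
  have hyT : y ∈ T := hT _ (w.e_mem i) t ht
  have hey : (w.e i).lTensor U y = y := by rw [hy, ← lT_mul, w.e_mul, if_pos rfl]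
  have hv0 : v.lTensor U y = 0 := by
    rw [← hev, lT_mul]
    exact h0 _ _ (hT v hv y hyT)
  have h5 := nakayama_lT (ι := Unit) B₁ (fun _ => y) (fun _ _ => -(u * v - w.e i))
    (fun _ _ => Submodule.neg_mem _ huv) (fun _ => by
      rw [Finset.univ_unique, Finset.sum_singleton, neg_sub, LinearMap.lTensor_sub,
        LinearMap.sub_apply, hey, lT_mul, hv0, map_zero, sub_zero])
  exact h5 ()

end Alg

section Law

variable {α z : ℕ → ℕ} {b e : ℕ}

/-- The numbers of homomorphisms are asymptotically proportional to the ranks. -/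
theorem level_N_ge (hb : 0 < b) (h0 : α 0 ≤ b)
    (h2 : ∀ n, α (n + 1) ^ 2 ≤ α n * α (n + 2)) (h3 : ∀ n, b ^ (n + 1) ≤ α n * (n + 2) ^ e)
    {κ : ℕ} (l : Level α z b κ) {M : ℕ} (hM : 0 < M) (c : l.C) :
    ((l.s c : ℝ) - (κ + 1) * b ^ (κ + 1) * e * Real.log (M + 2) / M) * α M ≤ l.N M c := by
  have hpos : ∀ n, 0 < α n := by
    intro n
    apply Nat.pos_of_ne_zero
    intro h
    have := h3 n
    rw [h, zero_mul] at this
    exact absurd (pow_pos hb (n + 1)) (by omega)
  have hposR : ∀ n, (0 : ℝ) < α n := fun n => by exact_mod_cast hpos n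
  have heta := eta_le hb h0 h2 h3 κ hM
  set η : ℝ := (b : ℝ) ^ (κ + 1) - (α (M + (κ + 1)) : ℝ) / α M with hη
  have e1 : ∀ c, (0 : ℝ) ≤ l.s c * α M - l.N M c := by
    intro c
    have := l.N_le M c
    have h4 : (l.N M c : ℝ) ≤ l.s c * α M := by exact_mod_cast this
    linarith
  have e2 : (l.s c : ℝ) * α M - l.N M c ≤ ∑ c, (l.m c : ℝ) * (l.s c * α M - l.N M c) := by
    calc (l.s c : ℝ) * α M - l.N M c ≤ l.m c * (l.s c * α M - l.N M c) := by
          have h5 : (1 : ℝ) ≤ l.m c := by exact_mod_cast l.m_pos c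
          nlinarith [e1 c]
      _ ≤ ∑ c, (l.m c : ℝ) * (l.s c * α M - l.N M c) :=
          Finset.single_le_sum (f := fun c => (l.m c : ℝ) * (l.s c * α M - l.N M c))
            (fun c _ => mul_nonneg (Nat.cast_nonneg _) (e1 c)) (Finset.mem_univ c)
  have e3 : ∑ c, (l.m c : ℝ) * (l.s c * α M - l.N M c) =
      (∑ c, (l.m c : ℝ) * l.s c) * α M - ∑ c, (l.m c : ℝ) * l.N M c := by
    rw [Finset.sum_mul, ← Finset.sum_sub_distrib]
    apply Finset.sum_congr rfl
    intro c _
    ring
  have e4 : (∑ c, (l.m c : ℝ) * l.s c) ≤ (b : ℝ) ^ (κ + 1) := by exact_mod_cast l.sum_ms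
  have e5 : (α (M + (κ + 1)) : ℝ) ≤ ∑ c, (l.m c : ℝ) * l.N M c := by
    have := l.le_sum M
    rw [show κ + M + 1 = M + (κ + 1) by ring] at this
    exact_mod_cast this
  have e6 : η * α M = (b : ℝ) ^ (κ + 1) * α M - α (M + (κ + 1)) := by
    simp only [hη]
    have := (hposR M).ne'
    field_simp
  have e7 : (∑ c, (l.m c : ℝ) * l.s c) * α M ≤ (b : ℝ) ^ (κ + 1) * α M :=
    mul_le_mul_of_nonneg_right e4 (hposR M).le
  have e8 : ((l.s c : ℝ) - (κ + 1) * b ^ (κ + 1) * e * Real.log (M + 2) / M) * α M ≤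
      (l.s c - η) * α M := mul_le_mul_of_nonneg_right (by linarith) (hposR M).le
  refine e8.trans ?_
  rw [sub_mul, e6]
  linarith

end Law

end Pool.Agent.R940
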