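import Pool.Agent.R940.YAlg
import Pool.Agent.Y163.TateC

/-!
# Correspondences times the identity, and ranks on products
-/

set_option linter.unusedVariables false
set_option linter.unusedSectionVars false

open CategoryTheory AlgebraicGeometry CategoryTheory.Limits TensorProduct

universe u v

namespace Pool.Agent.R940

open Pool.Agent.H914 Pool.Agent.H447 Pool.Agent.W534 Pool.Agent.Y163 VarClass Obj WeilCohomology
  Module

variable {k : Type u} [Field k] {𝒱 : VarClass k} {ops : CycleOps 𝒱}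
  {W : WeilCohomology.{u, v} ops} {X Y Z Z' U S : 𝒱.Obj}

/-- The projection `(Y × Z) × (Y × Z') → Y × Y`. -/
noncomputable def r1 (Y Z Z' : 𝒱.Obj) : (Y.prod Z).prod (Y.prod Z') ⟶ Y.prod Y :=
  Obj.lift (fst (Y.prod Z) (Y.prod Z') ≫ fst Y Z) (snd (Y.prod Z) (Y.prod Z') ≫ fst Y Z')

/-- The projection `(Y × Z) × (Y × Z') → Z × Z'`. -/
noncomputable def r2 (Y Z Z' : 𝒱.Obj) : (Y.prod Z).prod (Y.prod Z') ⟶ Z.prod Z' :=
  Obj.lift (fst (Y.prod Z) (Y.prod Z') ≫ snd Y Z) (snd (Y.prod Z) (Y.prod Z') ≫ snd Y Z')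

lemma r1_tmul (a a' : W.H Y) :
    W.map (r1 Y Z Z') (W.map (fst Y Y) a * W.map (snd Y Y) a') =
      W.map (fst _ _) (W.map (fst Y Z) a) * W.map (snd _ _) (W.map (fst Y Z') a') := by
  have e1 : r1 Y Z Z' ≫ fst Y Y = fst (Y.prod Z) (Y.prod Z') ≫ fst Y Z := Obj.lift_fst _ _
  have e2 : r1 Y Z Z' ≫ snd Y Y = snd (Y.prod Z) (Y.prod Z') ≫ fst Y Z' := Obj.lift_snd _ _
  rw [map_mul (W.map (r1 Y Z Z')), ← W.map_comp, ← W.map_comp, e1, e2, W.map_comp, W.map_comp]

lemma r2_tmul (b : W.H Z) (b' : W.H Z') :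
    W.map (r2 Y Z Z') (W.map (fst Z Z') b * W.map (snd Z Z') b') =
      W.map (fst _ _) (W.map (snd Y Z) b) * W.map (snd _ _) (W.map (snd Y Z') b') := by
  have e1 : r2 Y Z Z' ≫ fst Z Z' = fst (Y.prod Z) (Y.prod Z') ≫ snd Y Z := Obj.lift_fst _ _
  have e2 : r2 Y Z Z' ≫ snd Z Z' = snd (Y.prod Z) (Y.prod Z') ≫ snd Y Z' := Obj.lift_snd _ _
  rw [map_mul (W.map (r2 Y Z Z')), ← W.map_comp, ← W.map_comp, e1, e2, W.map_comp, W.map_comp]

lemma push_r (A : W.H (Y.prod Y)) (B : W.H (Z.prod Z')) :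
    W.push (snd (Y.prod Z) (Y.prod Z')) (W.map (r1 Y Z Z') A * W.map (r2 Y Z Z') B) =
      W.map (fst Y Z') (W.push (snd Y Y) A) * W.map (snd Y Z') (W.push (snd Z Z') B) := by
  refine W.kunneth_induction (p := fun A =>
    W.push (snd (Y.prod Z) (Y.prod Z')) (W.map (r1 Y Z Z') A * W.map (r2 Y Z Z') B) =
      W.map (fst Y Z') (W.push (snd Y Y) A) * W.map (snd Y Z') (W.push (snd Z Z') B)) ?_ ?_ A
  · intro a b ha hb
    rw [map_add, add_mul, map_add, ha, hb, map_add, map_add, add_mul]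
  intro i j a ha a' ha'
  refine W.kunneth_induction (p := fun B =>
    W.push (snd (Y.prod Z) (Y.prod Z'))
      (W.map (r1 Y Z Z') (W.map (fst Y Y) a * W.map (snd Y Y) a') * W.map (r2 Y Z Z') B) =
      W.map (fst Y Z') (W.push (snd Y Y) (W.map (fst Y Y) a * W.map (snd Y Y) a')) *
        W.map (snd Y Z') (W.push (snd Z Z') B)) ?_ ?_ B
  · intro a b ha hb
    rw [map_add, mul_add, map_add, ha, hb, map_add, map_add, mul_add]
  intro l m b hb b' _
  rw [r1_tmul, r2_tmul]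
  have hsw : W.map (snd _ _) (W.map (fst Y Z') a') * W.map (fst _ _) (W.map (snd Y Z) b) =
      (-1 : W.K) ^ (j * l) • (W.map (fst (Y.prod Z) (Y.prod Z')) (W.map (snd Y Z) b) *
        W.map (snd (Y.prod Z) (Y.prod Z')) (W.map (fst Y Z') a')) :=
    W.comm (W.map_mem _ (W.map_mem _ ha')) (W.map_mem _ (W.map_mem _ hb))
  have e1 : W.map (fst _ _) (W.map (fst Y Z) a) * W.map (snd _ _) (W.map (fst Y Z') a') *
      (W.map (fst (Y.prod Z) (Y.prod Z')) (W.map (snd Y Z) b) *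
        W.map (snd (Y.prod Z) (Y.prod Z')) (W.map (snd Y Z') b')) =
      (-1 : W.K) ^ (j * l) • (W.map (fst _ _) (W.map (fst Y Z) a * W.map (snd Y Z) b) *
        W.map (snd _ _) (W.map (fst Y Z') a' * W.map (snd Y Z') b')) := by
    rw [map_mul (W.map (fst (Y.prod Z) (Y.prod Z'))), map_mul (W.map (snd (Y.prod Z) (Y.prod Z'))),
      mul_assoc, ← mul_assoc (W.map (snd _ _) (W.map (fst Y Z') a')), hsw, smul_mul_assoc,
      mul_smul_comm, mul_assoc, mul_assoc]
  rw [e1, map_smul, push_snd, W.tr_prod, push_snd, push_snd, map_smul, map_smul, smul_mul_assoc,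
    mul_smul_comm, smul_smul, smul_smul]
  by_cases hl : l = 2 * Z.dim
  · have hs : (-1 : W.K) ^ (j * l) = 1 := by
      rw [hl, mul_left_comm, pow_mul]
      simp
    rw [hs, one_mul]
  · rw [W.tr_eq_zero hb hl]
    simp

/-- The external product of correspondences. -/
lemma corr_r (c : W.H (Y.prod Y)) {p : ℕ} {d : W.H (Z.prod Z')} (hd : d ∈ W.gr _ (2 * p))
    (a : W.H Y) (b : W.H Z) :
    W.corr (W.map (r1 Y Z Z') c * W.map (r2 Y Z Z') d) (W.map (fst Y Z) a * W.map (snd Y Z) b) =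
      W.map (fst Y Z') (W.corr c a) * W.map (snd Y Z') (W.corr d b) := by
  rw [corr_apply, corr_apply, corr_apply, ← push_r]
  congr 1
  have e1 : W.map (fst _ _) (W.map (fst Y Z) a) = W.map (r1 Y Z Z') (W.map (fst Y Y) a) := by
    have := r1_tmul (W := W) (Z := Z) (Z' := Z') a 1
    rw [map_one, map_one, map_one, mul_one, mul_one] at this
    exact this.symm
  have e2 : W.map (fst _ _) (W.map (snd Y Z) b) = W.map (r2 Y Z Z') (W.map (fst Z Z') b) := by
    have := r2_tmul (W := W) (Y := Y) (Z' := Z') b 1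
    rw [map_one, map_one, map_one, mul_one, mul_one] at this
    exact this.symm
  rw [map_mul (W.map (fst (Y.prod Z) (Y.prod Z'))), e1, e2, map_mul (W.map (r1 Y Z Z')),
    map_mul (W.map (r2 Y Z Z')), mul_assoc, ← mul_assoc (W.map (r2 Y Z Z') d),
    W.even_comm (W.map_mem _ hd) (W.map (r1 Y Z Z') _)]
  simp only [mul_assoc]

/-- The product of the identity of `Y` with an operator. -/
noncomputable def idOp (W : WeilCohomology.{u, v} ops) (Y : 𝒱.Obj) {Z Z' : 𝒱.Obj}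
    (ψ : W.H Z →ₗ[W.K] W.H Z') : W.H (Y.prod Z) →ₗ[W.K] W.H (Y.prod Z') :=
  (kappa W Y Z').toLinearMap ∘ₗ ψ.lTensor (W.H Y) ∘ₗ (kappa W Y Z).symm.toLinearMap

lemma idOp_tmul (ψ : W.H Z →ₗ[W.K] W.H Z') (a : W.H Y) (b : W.H Z) :
    idOp W Y ψ (W.map (fst Y Z) a * W.map (snd Y Z) b) =
      W.map (fst Y Z') a * W.map (snd Y Z') (ψ b) := by
  rw [idOp, LinearMap.comp_apply, LinearMap.comp_apply, LinearEquiv.coe_coe, LinearEquiv.coe_coe,
    ← kappa_tmul, LinearEquiv.symm_apply_apply, LinearMap.lTensor_tmul, kappa_tmul]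

/-- The product of the identity with an algebraic operator is algebraic. -/
lemma KOp.idOp {d : ℤ} {ψ : W.H Z →ₗ[W.K] W.H Z'} (hψ : ψ ∈ KOp W Z Z' d) :
    idOp W Y ψ ∈ KOp W (Y.prod Z) (Y.prod Z') d := by
  induction hψ using Submodule.span_induction with
  | mem x hx =>
    obtain ⟨p', hp', w, hw, rfl⟩ := hx
    have hid : (LinearMap.id : W.H Y →ₗ[W.K] W.H Y) ∈ KOp W Y Y 0 := KOp.id Y
    obtain ⟨γ, hγ, h1⟩ := mem_KOp_iff.1 hid
    have e1 : Pool.Agent.R940.idOp W Y (W.corr (W.cl _ w)) =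
        W.corr (W.map (r1 Y Z Z') γ * W.map (r2 Y Z Z') (W.cl _ w)) := by
      apply ext_kunneth_lin
      intro a b
      rw [idOp_tmul, corr_r _ (W.cl_mem hw), h1, LinearMap.id_apply]
    rw [e1, mem_KOp_iff]
    refine ⟨_, ?_, rfl⟩
    have h2 : W.map (r1 Y Z Z') γ ∈ (spanS W).T _ Y.dim :=
      (spanS W).map (r1 Y Z Z') (by rw [add_zero] at hγ; exact hγ)
    have h3 := (spanS W).cl_mul (ops.pull_mem (r2 Y Z Z') hw) h2
    rw [W.cl_pull] at h3
    rw [← W.even_comm (W.map_mem _ (W.cl_mem hw))]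
    have h4 : ((Y.prod Z).dim : ℤ) + d = ((p' + Y.dim : ℕ) : ℤ) := by
      rw [dim_prod]; push_cast; omega
    rw [h4]
    exact h3
  | zero =>
    have : Pool.Agent.R940.idOp W Y (0 : W.H Z →ₗ[W.K] W.H Z') = 0 := by
      rw [Pool.Agent.R940.idOp, LinearMap.lTensor_zero, LinearMap.zero_comp, LinearMap.comp_zero]
    rw [this]; exact Submodule.zero_mem _
  | add x y _ _ hx hy =>
    have : Pool.Agent.R940.idOp W Y (x + y) =
        Pool.Agent.R940.idOp W Y x + Pool.Agent.R940.idOp W Y y := by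
      rw [Pool.Agent.R940.idOp, LinearMap.lTensor_add, LinearMap.add_comp, LinearMap.comp_add]
      rfl
    rw [this]; exact Submodule.add_mem _ hx hy
  | smul a x _ hx =>
    have : Pool.Agent.R940.idOp W Y (a • x) = a • Pool.Agent.R940.idOp W Y x := by
      rw [Pool.Agent.R940.idOp, LinearMap.lTensor_smul, LinearMap.smul_comp,
        LinearMap.comp_smul]
      rfl
    rw [this]; exact Submodule.smul_mem _ _ hx

lemma exists_lin {K V₁ V₂ : Type*} [Field K] [AddCommGroup V₁] [Module K V₁] [AddCommGroup V₂]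
    [Module K V₂] {A : Submodule K V₁} {B : Submodule K V₂} (g : V₁ → V₂)
    (h1 : ∀ a b, g (a + b) = g a + g b) (h2 : ∀ (c : K) a, g (c • a) = c • g a)
    (h3 : ∀ a ∈ A, g a ∈ B) : ∃ F : A →ₗ[K] B, ∀ a, (F a : V₂) = g a :=
  ⟨{ toFun := fun a => ⟨g a, h3 _ a.2⟩
     map_add' := fun a b => Subtype.ext (h1 _ _)
     map_smul' := fun a b => Subtype.ext (h2 _ _) }, fun _ => rfl⟩

lemma rk_comp_le {V₁ V₂ : Type*} [AddCommGroup V₁] [Module W.K V₁] [Module.Finite W.K V₁]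
    [AddCommGroup V₂] [Module W.K V₂] [Module.Finite W.K V₂] {j l : ℕ}
    (P : Submodule W.K (V₁ →ₗ[W.K] V₂)) (Q : Submodule W.K (V₂ →ₗ[W.K] V₁)) (h : End W.K V₂)
    (f : End W.K V₁) (eP : spanCycles W Z j →ₗ[W.K] P) (eQ : spanCycles W Z l →ₗ[W.K] Q)
    (f' : Module.End W.K (W.H Z))
    (h' : ∀ c d, form W Z j l f' c d = bt P Q h f (eP c) (eQ d)) :
    rk W Z j l f' ≤ mu P Q h f := by
  have key : form W Z j l f' = eQ.dualMap ∘ₗ bt P Q h f ∘ₗ eP := by
    apply LinearMap.ext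
    intro c
    apply LinearMap.ext
    intro d
    rw [h']
    rfl
  rw [rk, key, mu]
  exact finrank_range_comp_comp_le _ _ _

/-- The rank of a twisted intersection form on a product is bounded by the rank of a pairing of
correspondences. -/
theorem rk_extOp_le {j l : ℕ} {r : ℤ} (hj : (j : ℤ) = U.dim + r) (hl : (l : ℤ) = S.dim - r)
    (hpar : par (W.isInternal S) ∈ KOp W S S 0) {f : Module.End W.K (W.H U)}
    (hf : f ∈ KOp W U U 0) {h : Module.End W.K (W.H S)} (hh : h ∈ KOp W S S 0) :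
    rk W (U.prod S) j l (extOp W f h) ≤ mu (KOp W U S r) (KOp W S U (-r)) h (adj f) := by
  have hP : ∀ c ∈ spanCycles W (U.prod S) j, W.corr c ∈ KOp W U S r := by
    intro c hc
    rw [mem_KOp_iff]
    exact ⟨c, by rw [← hj]; exact hc, rfl⟩
  have hQ : ∀ c ∈ spanCycles W (U.prod S) l,
      W.corr (W.map (swap S U) c) ∘ₗ par (W.isInternal S) ∈ KOp W S U (-r) := by
    intro c hc
    refine KOp.cast (KOp.comp (d := 0) (e := -r) ?_ hpar) (by ring)
    rw [mem_KOp_iff]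
    refine ⟨W.map (swap S U) c, ?_, rfl⟩
    have := map_span (swap S U) hc
    rwa [show ((l : ℕ) : ℤ) = S.dim + -r by rw [hl]; ring] at this
  obtain ⟨eP, heP⟩ : ∃ eP : spanCycles W (U.prod S) j →ₗ[W.K] KOp W U S r,
      ∀ c, (eP c : W.H U →ₗ[W.K] W.H S) = W.corr (c : W.H _) :=
    exists_lin (fun c => W.corr c) (fun a b => corr_add W _ _) (fun a b => corr_smul W _ _) hP
  obtain ⟨eQ, heQ⟩ : ∃ eQ : spanCycles W (U.prod S) l →ₗ[W.K] KOp W S U (-r),
      ∀ c, (eQ c : W.H S →ₗ[W.K] W.H U) =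
        W.corr (W.map (swap S U) (c : W.H _)) ∘ₗ par (W.isInternal S) :=
    exists_lin (fun c => W.corr (W.map (swap S U) c) ∘ₗ par (W.isInternal S))
      (fun a b => by rw [map_add, corr_add, LinearMap.add_comp])
      (fun a b => by rw [map_smul, corr_smul, LinearMap.smul_comp]) hQ
  have hdf : Deg0 (adj f) := deg0_of_mem (adj_mem hf)
  have hdh : Deg0 h := deg0_of_mem hh
  refine rk_comp_le (W := W) (Z := U.prod S) (j := j) (l := l) (KOp W U S r)
    (KOp W S U (-r)) h (adj f) eP eQ (extOp W f h) fun c d => ?_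
  rw [bt_apply, heP, heQ, form_apply]
  have hc : extOp W f h (c : W.H _) ∈ W.gr (U.prod S) (2 * j) := by
    have h1 : extOp W f h ∈ KOp W (U.prod S) (U.prod S) 0 :=
      KOp.cast (KOp.ext hf hh) (by ring)
    exact deg0_of_mem h1 _ _ (span_gr c.2)
  rw [tr_mul_eq_trace' hc, corr_extOp hdf hdh]
  have e2 : par (W.isInternal S) ∘ₗ (h ∘ₗ W.corr (c : W.H _) ∘ₗ adj f) ∘ₗ
      W.corr (W.map (swap S U) (d : W.H _)) =
      (par (W.isInternal S) ∘ₗ (h ∘ₗ W.corr (c : W.H _) ∘ₗ adj f)) ∘ₗ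
      W.corr (W.map (swap S U) (d : W.H _)) := rfl
  rw [e2, LinearMap.trace_comp_comm']
  rfl

/-- The rank of the intersection form on a product is bounded by the rank of the pairing of the
correspondences. -/
theorem kRank_le_mu {j l : ℕ} {r : ℤ} (hj : (j : ℤ) = U.dim + r) (hl : (l : ℤ) = S.dim - r)
    (hpar : par (W.isInternal S) ∈ KOp W S S 0) :
    kRank W (U.prod S) j l ≤ mu (KOp W U S r) (KOp W S U (-r)) 1 1 := by
  have := rk_extOp_le hj hl hpar (KAlg W U).one_mem (KAlg W S).one_mem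
  rw [extOp_one, adj_one] at this
  exact this

/-- Reordering of the factors. -/
noncomputable def swapIso (X Y : 𝒱.Obj) : X.prod Y ≅ Y.prod X where
  hom := swap X Y
  inv := swap Y X
  hom_inv_id := by
    apply prod_hom_ext
    · rw [Category.assoc, swap, swap, Obj.lift_fst, Obj.lift_snd, Category.id_comp]
    · rw [Category.assoc, swap, swap, Obj.lift_snd, Obj.lift_fst, Category.id_comp]
  inv_hom_id := by
    apply prod_hom_ext
    · rw [Category.assoc, swap, swap, Obj.lift_fst, Obj.lift_snd, Category.id_comp]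
    · rw [Category.assoc, swap, swap, Obj.lift_snd, Obj.lift_fst, Category.id_comp]

/-- The isomorphism `(Z × U) × (Z × U) ≅ U × ((Z × Z) × U)`. -/
noncomputable def shufIso (Z U : 𝒱.Obj) :
    (Z.prod U).prod (Z.prod U) ≅ U.prod ((Z.prod Z).prod U) :=
  prodIso (swapIso Z U) (Iso.refl _) ≪≫ assocIso U Z (Z.prod U) ≪≫
    prodIso (Iso.refl U) (assocIso Z Z U).symm

/-- The rank of the cycles on the square of `Z × U`. -/
lemma nu_prod_le [IsAlgClosed W.K] (hZ : par (W.isInternal Z) ∈ KOp W Z Z 0)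
    (hU : par (W.isInternal U) ∈ KOp W U U 0) :
    nu (KAlg W (Z.prod U)) ≤ finrank W.K (W.H Z) ^ 2 * nu (KAlg W U) := by
  rw [← kRank_self (par_prod_mem hZ hU)]
  have hq : (Z.prod Z).dim = 2 * Z.dim := by rw [dim_prod]; ring
  have h1 := rk_le (W := W) (U := U) hq (par_prod_mem (par_prod_mem hZ hZ) hU)
    (KAlg W (Z.prod Z)).one_mem (mul_one 1)
  have h2 : extOp W (1 : Module.End W.K (W.H U))
      (extOp W (1 : Module.End W.K (W.H (Z.prod Z))) (1 : Module.End W.K (W.H U))) = 1 := by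
    rw [extOp_one, extOp_one]
  rw [h2, rk_one] at h1
  have h3 : finrank W.K (LinearMap.range (1 : Module.End W.K (W.H (Z.prod Z)))) =
      finrank W.K (W.H Z) ^ 2 := by
    have h4 : LinearMap.range (1 : Module.End W.K (W.H (Z.prod Z))) = ⊤ := LinearMap.range_id
    rw [h4, finrank_top]
    exact finrank_pw (W := W) (X := Z) 1
  rw [h3] at h1
  refine le_trans (le_of_eq ?_) h1
  rw [kRank_iso (shufIso Z U) (by simp only [dim_prod]; ring)]
  congr 1 <;> rw [dim_prod] <;> ring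

/-- **The ranks of the cycles on `Z × X ^ (2 n + 2)`.** -/
theorem kRank_prod_le [IsAlgClosed W.K] (hZ : par (W.isInternal Z) ∈ KOp W Z Z 0)
    (hX : par (W.isInternal X) ∈ KOp W X X 0) (n : ℕ) {i j l : ℕ} (hij : i + l = Z.dim)
    (hj : j = (n + 1) * X.dim + i) :
    kRank W (Z.prod (sq X n)) j ((n + 1) * X.dim + l) ≤ finrank W.K (W.H Z) * mrank W X n := by
  have hU := par_pw_mem hX n
  have h0 : kRank W (Z.prod (sq X n)) j ((n + 1) * X.dim + l) =
      kRank W ((pw X n).prod (Z.prod (pw X n))) j ((n + 1) * X.dim + l) := by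
    refine kRank_iso ((assocIso Z (pw X n) (pw X n)).symm ≪≫
      prodIso (swapIso Z (pw X n)) (Iso.refl _) ≪≫ assocIso (pw X n) Z (pw X n)) ?_ _ _
    simp only [Pool.Agent.Y163.sq, dim_prod]
    ring
  rw [h0]
  have h1 := kRank_le_mu (W := W) (U := pw X n) (S := Z.prod (pw X n)) (j := j)
    (l := (n + 1) * X.dim + l) (r := (i : ℤ)) (by rw [dim_pw, hj]; push_cast; ring)
    (by rw [dim_prod, dim_pw]; push_cast; omega) (par_prod_mem hZ hU)
  refine h1.trans ?_
  have h2 := mu_sq_le (duo W (pw X n) (Z.prod (pw X n)) (i : ℤ))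
  have h3 := h2.trans (Nat.mul_le_mul_left _ (nu_prod_le hZ hU))
  rw [mrank_eq_nu hX]
  have h4 : nu (KAlg W (pw X n)) * (finrank W.K (W.H Z) ^ 2 * nu (KAlg W (pw X n))) =
      (finrank W.K (W.H Z) * nu (KAlg W (pw X n))) ^ 2 := by ring
  rw [h4] at h3
  exact (Nat.pow_le_pow_iff_left two_ne_zero).1 h3

end Pool.Agent.R940
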