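import Pool.Agent.R940.YGeo

/-!
# The excess law on products with powers
-/

set_option linter.unusedVariables false
set_option linter.unusedSectionVars false

open CategoryTheory AlgebraicGeometry CategoryTheory.Limits TensorProduct

universe u v

namespace Pool.Agent.R940

open Pool.Agent.H914 Pool.Agent.H447 Pool.Agent.W534 Pool.Agent.Y163 VarClass Obj WeilCohomology
  Module

variable {k : Type u} [Field k] {𝒱 : VarClass k} {ops : CycleOps 𝒱}
  {W : WeilCohomology.{u, v} ops} {X Y Z Z' U S : 𝒱.Obj}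

/-- The classes of the system which are orthogonal to the algebraic classes. -/
noncomputable def perpS (F : SFam W) : SFam W where
  T Y j :=
    { carrier := {t | t ∈ F.T Y j ∧ ∀ l : ℕ, j + l = Y.dim → ∀ a ∈ spanCycles W Y l,
        W.tr Y (t * a) = 0}
      zero_mem' := ⟨Submodule.zero_mem _, fun l hl a ha => by rw [zero_mul, map_zero]⟩
      add_mem' := by
        rintro s t ⟨h1, h2⟩ ⟨h3, h4⟩
        exact ⟨Submodule.add_mem _ h1 h3, fun l hl a ha => by
          rw [add_mul, map_add, h2 l hl a ha, h4 l hl a ha, add_zero]⟩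
      smul_mem' := by
        rintro c t ⟨h1, h2⟩
        exact ⟨Submodule.smul_mem _ _ h1, fun l hl a ha => by
          rw [smul_mul_assoc, map_smul, h2 l hl a ha, smul_zero]⟩ }
  cl_mul := by
    rintro X p q z c hz ⟨h1, h2⟩
    refine ⟨F.cl_mul hz h1, fun l hl a ha => ?_⟩
    rw [W.even_comm (W.cl_mem hz), mul_assoc]
    exact h2 (q + l) (by omega) _ ((spanS W).cl_mul hz ha)
  map := by
    rintro X Y f p c ⟨h1, h2⟩
    refine ⟨F.map f h1, fun l hl a ha => ?_⟩
    rw [← W.even_comm (span_gr ha), ← W.tr_push]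
    by_cases hp : p ≤ Y.dim
    · have h3 : W.push f a ∈ spanCycles W Y ((Y.dim - p : ℕ) : ℤ) :=
        (spanS W).push f ha (by omega)
      rw [W.even_comm (span_gr h3)]
      exact h2 (Y.dim - p) (by omega) _ h3
    · rw [(spanS W).push_zero f ha (by omega), zero_mul, map_zero]
  push := by
    rintro X Y f p q c ⟨h1, h2⟩ hpq
    refine ⟨F.push f h1 hpq, fun l hl a ha => ?_⟩
    rw [W.tr_push]
    exact h2 l (by omega) _ (map_span f ha)
  push_zero := by
    rintro X Y f p c ⟨h1, h2⟩ hp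
    exact F.push_zero f h1 hp

lemma mem_perpS {F : SFam W} {j : ℕ} {t : W.H Y} : t ∈ (perpS F).T Y j ↔
    t ∈ F.T Y j ∧ ∀ l : ℕ, j + l = Y.dim → ∀ a ∈ spanCycles W Y l, W.tr Y (t * a) = 0 := Iff.rfl

/-- The pairing of the classes of the system with the algebraic classes. -/
noncomputable def fpair (F : SFam W) (Y : 𝒱.Obj) (j l : ℕ) :
    F.T Y j →ₗ[W.K] Module.Dual W.K (spanCycles W Y l) where
  toFun a := W.tr Y ∘ₗ LinearMap.mulLeft W.K (a : W.H Y) ∘ₗ (spanCycles W Y l).subtype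
  map_add' := by
    intro a b
    ext c
    simp [add_mul]
  map_smul' := by
    intro a b
    ext c
    simp

lemma fpair_apply (F : SFam W) (j l : ℕ) (a : F.T Y j) (b : spanCycles W Y l) :
    fpair F Y j l a b = W.tr Y ((a : W.H Y) * (b : W.H Y)) := rfl

lemma kRank_add_le {F : SFam W} (hF : ∀ Y j, spanCycles W Y (j : ℕ) ≤ F.T Y j) {j l : ℕ}
    (hjl : j + l = Y.dim) :
    kRank W Y j l + finrank W.K ((perpS F).T Y j) ≤ finrank W.K (F.T Y j) := by
  have h1 := LinearMap.finrank_range_add_finrank_ker (fpair F Y j l)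
  have h2 : kRank W Y j l ≤ finrank W.K (LinearMap.range (fpair F Y j l)) := by
    have h3 : pair W Y j l = fpair F Y j l ∘ₗ Submodule.inclusion (hF Y j) := by
      apply LinearMap.ext
      intro a
      apply LinearMap.ext
      intro b
      rfl
    rw [kRank, h3]
    refine Submodule.finrank_mono ?_
    rintro _ ⟨x, rfl⟩
    exact ⟨_, rfl⟩
  have h3 : finrank W.K ((perpS F).T Y j) ≤
      finrank W.K (LinearMap.ker (fpair F Y j l)) := by
    have h4 : ∀ t : (perpS F).T Y j, (⟨t.1, t.2.1⟩ : F.T Y j) ∈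
        LinearMap.ker (fpair F Y j l) := by
      intro t
      rw [LinearMap.mem_ker]
      apply LinearMap.ext
      intro b
      rw [fpair_apply, LinearMap.zero_apply]
      exact t.2.2 l hjl _ b.2
    let G : (perpS F).T Y j →ₗ[W.K] LinearMap.ker (fpair F Y j l) :=
      { toFun := fun t => ⟨⟨t.1, t.2.1⟩, h4 t⟩
        map_add' := fun a b => rfl
        map_smul' := fun a b => rfl }
    refine LinearMap.finrank_le_finrank_of_injective (f := G) ?_
    intro a b hab
    exact Subtype.ext (congrArg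
      (fun x : LinearMap.ker (fpair F Y j l) => ((x : F.T Y j) : W.H Y)) hab)
  omega

lemma le_kRank {F : SFam W} (hF : ∀ Y j, spanCycles W Y (j : ℕ) ≤ F.T Y j) {j l : ℕ}
    (hjl : j + l = Y.dim) (h1 : (perpS F).T Y j = ⊥) (h2 : (perpS F).T Y l = ⊥) :
    finrank W.K (F.T Y j) ≤ kRank W Y j l := by
  have hinj : Function.Injective (fpair F Y j l) := by
    rw [← LinearMap.ker_eq_bot, LinearMap.ker_eq_bot']
    intro a ha
    have h3 : (a : W.H Y) ∈ (perpS F).T Y j := by
      refine ⟨a.2, fun l' hl' b hb => ?_⟩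
      obtain rfl : l' = l := by omega
      exact congrArg (fun G => G ⟨b, hb⟩) ha
    rw [h1] at h3
    exact Subtype.ext ((Submodule.mem_bot _).1 h3)
  have hinj2 : Function.Injective (pair W Y l j) := by
    rw [← LinearMap.ker_eq_bot, LinearMap.ker_eq_bot']
    intro a ha
    have h3 : (a : W.H Y) ∈ (perpS F).T Y l := by
      refine ⟨hF _ _ a.2, fun l' hl' b hb => ?_⟩
      obtain rfl : l' = j := by omega
      exact congrArg (fun G => G ⟨b, hb⟩) ha
    rw [h2] at h3
    exact Subtype.ext ((Submodule.mem_bot _).1 h3)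
  have h3 := LinearMap.finrank_le_finrank_of_injective hinj
  rw [Subspace.dual_finrank_eq] at h3
  refine h3.trans ?_
  rw [kRank_symm, kRank, LinearMap.finrank_range_of_inj hinj2]

variable (hX : par (W.isInternal X) ∈ KOp W X X 0)

include hX

/-- The growth of a stable system on the products with powers. -/
theorem growth_of_ne [IsAlgClosed W.K] (hH : 0 < finrank W.K (W.H X)) (G : SFam W) {i κ : ℕ}
    (hne : G.T (Z.prod (Pool.Agent.Y163.sq X κ)) ((κ + 1) * X.dim + i) ≠ ⊥) {n : ℕ} (hn : 0 < n) :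
    (1 - (κ + 1) * (finrank W.K (W.H X) : ℝ) ^ (2 * κ + 4) * Real.log (n + 2) / n) *
      mrank W X n ≤
      finrank W.K (G.T (Z.prod (Pool.Agent.Y163.sq X n)) ((n + 1) * X.dim + i)) := by
  classical
  have hbot : Stable W X (fun n => (⊥ : Submodule W.K (W.H (Pool.Agent.Y163.sq X n)))) := by
    intro κ n φ hφ t ht
    rw [(Submodule.mem_bot _).1 ht, map_zero]
    exact Submodule.zero_mem _
  let L := level hX _ hbot κ
  let w : Wed (KAlg W (Pool.Agent.Y163.sq X κ)) := Classical.choice (exists_wed _)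
  set T₁ : Submodule W.K (W.H Z ⊗[W.K] W.H (Pool.Agent.Y163.sq X κ)) :=
    (G.T (Z.prod (Pool.Agent.Y163.sq X κ)) ((κ + 1) * X.dim + i)).comap
      (kappa W Z (Pool.Agent.Y163.sq X κ)).toLinearMap with hT₁
  set T₂ : Submodule W.K (W.H Z ⊗[W.K] W.H (Pool.Agent.Y163.sq X n)) :=
    (G.T (Z.prod (Pool.Agent.Y163.sq X n)) ((n + 1) * X.dim + i)).comap
      (kappa W Z (Pool.Agent.Y163.sq X n)).toLinearMap with hT₂
  have hstab : ∀ m : ℕ, ∀ x ∈ KOp W (Pool.Agent.Y163.sq X κ) (Pool.Agent.Y163.sq X m)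
      (((m : ℤ) - κ) * X.dim), ∀ t ∈ T₁, kappa W Z (Pool.Agent.Y163.sq X m)
        (x.lTensor (W.H Z) t) ∈
          G.T (Z.prod (Pool.Agent.Y163.sq X m)) ((m + 1) * X.dim + i) := by
    intro m x hx t ht
    have h1 := G.stable (KOp.idOp (Y := Z) hx) (j := (κ + 1) * X.dim + i)
      (j' := (m + 1) * X.dim + i) (by push_cast; ring) (x := kappa W Z _ t) ht
    have h2 : idOp W Z x (kappa W Z (Pool.Agent.Y163.sq X κ) t) =
        kappa W Z (Pool.Agent.Y163.sq X m) (x.lTensor (W.H Z) t) := by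
      rw [idOp, LinearMap.comp_apply, LinearMap.comp_apply, LinearEquiv.coe_coe,
        LinearEquiv.coe_coe, LinearEquiv.symm_apply_apply]
    rw [h2] at h1
    exact h1
  have hT : ∀ x ∈ KOp W (Pool.Agent.Y163.sq X κ) (Pool.Agent.Y163.sq X n)
      (((n : ℤ) - κ) * X.dim), ∀ t ∈ T₁, x.lTensor (W.H Z) t ∈ T₂ :=
    fun x hx t ht => hstab n x hx t ht
  have hT' : ∀ f ∈ KAlg W (Pool.Agent.Y163.sq X κ), ∀ t ∈ T₁, f.lTensor (W.H Z) t ∈ T₁ :=
    fun f hf t ht => hstab κ f (KOp.cast (mem_KAlg.1 hf) (by ring)) t ht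
  have hne' : T₁ ≠ ⊥ := by
    intro h0
    apply hne
    rw [eq_bot_iff]
    intro x hx
    have h1 : (kappa W Z (Pool.Agent.Y163.sq X κ)).symm x ∈ T₁ := by
      rw [hT₁, Submodule.mem_comap, LinearEquiv.coe_coe, LinearEquiv.apply_symm_apply]
      exact hx
    rw [h0, Submodule.mem_bot, LinearEquiv.map_eq_zero_iff] at h1
    rw [h1]
    exact Submodule.zero_mem _
  obtain ⟨c, hc⟩ := exists_rep_ne w hT' hne'
  have h1 := sum_mu_mul_le_lT (U := W.H Z)
    (duo W (Pool.Agent.Y163.sq X κ) (Pool.Agent.Y163.sq X n) (((n : ℤ) - κ) * X.dim)) w.prims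
    T₁ T₂ hT
  have h2 : L.N n c ≤ finrank W.K T₂ := by
    refine le_trans ?_ h1
    refine le_trans ?_ (Finset.single_le_sum (f := fun c =>
      mu (KOp W (Pool.Agent.Y163.sq X κ) (Pool.Agent.Y163.sq X n) (((n : ℤ) - κ) * X.dim))
        (KOp W (Pool.Agent.Y163.sq X n) (Pool.Agent.Y163.sq X κ) (-(((n : ℤ) - κ) * X.dim))) 1
        (w.e (w.rep c)) * finrank W.K (T₁.map ((w.e (w.rep c)).lTensor (W.H Z))))
      (fun c _ => Nat.zero_le _) (Finset.mem_univ c))
    exact Nat.le_mul_of_pos_right _ hc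
  have h3 : finrank W.K T₂ =
      finrank W.K (G.T (Z.prod (Pool.Agent.Y163.sq X n)) ((n + 1) * X.dim + i)) := by
    have e := LinearEquiv.finrank_map_eq (kappa W Z (Pool.Agent.Y163.sq X n)) T₂
    have h4 : T₂.map ((kappa W Z (Pool.Agent.Y163.sq X n)) : _ →ₗ[W.K] _) =
        G.T (Z.prod (Pool.Agent.Y163.sq X n)) ((n + 1) * X.dim + i) :=
      Submodule.map_comap_eq_of_surjective (kappa W Z (Pool.Agent.Y163.sq X n)).surjective _
    rw [h4] at e
    exact e.symm
  have h5 : 1 ≤ L.s c := by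
    have h6 : (finrank W.K (LinearMap.range (w.e (w.rep c))) : W.K) ≠ 0 :=
      rank_idem_ne (w.e_ne _)
    exact Nat.pos_of_ne_zero fun h0 => h6 (by exact_mod_cast h0)
  have h7 := level_N_ge (pow_pos hH 2) mrank_zero_le (mrank_sq_le hX) (mrank_growth hX) L hn c
  have h8 : (L.N n c : ℝ) ≤
      finrank W.K (G.T (Z.prod (Pool.Agent.Y163.sq X n)) ((n + 1) * X.dim + i)) := by
    rw [← h3]
    exact_mod_cast h2
  refine le_trans ?_ (h7.trans h8)
  apply mul_le_mul_of_nonneg_right _ (Nat.cast_nonneg _)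
  have h9 : (1 : ℝ) ≤ L.s c := by exact_mod_cast h5
  have h10 : (κ + 1 : ℝ) * ((finrank W.K (W.H X) ^ 2 : ℕ) : ℝ) ^ (κ + 1) *
      ((finrank W.K (W.H X) ^ 2 : ℕ) : ℝ) =
      (κ + 1) * (finrank W.K (W.H X) : ℝ) ^ (2 * κ + 4) := by
    push_cast
    ring
  rw [h10]
  linarith

/-- **The excess law.** -/
theorem excess_law [IsAlgClosed W.K] (hH : 0 < finrank W.K (W.H X)) {F : SFam W}
    (hF : ∀ Y j, spanCycles W Y (j : ℕ) ≤ F.T Y j)
    (hd : ∀ (Y : 𝒱.Obj) (j l : ℕ), j + l = Y.dim →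
      finrank W.K (F.T Y j) = finrank W.K (F.T Y l)) {i l κ : ℕ} (hil : i + l = Z.dim)
    (hfail : kRank W (Z.prod (Pool.Agent.Y163.sq X κ)) ((κ + 1) * X.dim + i)
      ((κ + 1) * X.dim + l) <
        finrank W.K (F.T (Z.prod (Pool.Agent.Y163.sq X κ)) ((κ + 1) * X.dim + i)))
    {n : ℕ} (hn : 0 < n) :
    kRank W (Z.prod (Pool.Agent.Y163.sq X n)) ((n + 1) * X.dim + i) ((n + 1) * X.dim + l) +
      (1 - (κ + 1) * (finrank W.K (W.H X) : ℝ) ^ (2 * κ + 4) * Real.log (n + 2) / n) *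
        mrank W X n ≤
      finrank W.K (F.T (Z.prod (Pool.Agent.Y163.sq X n)) ((n + 1) * X.dim + i)) := by
  have hdim : ∀ m, (m + 1) * X.dim + i + ((m + 1) * X.dim + l) =
      (Z.prod (Pool.Agent.Y163.sq X m)).dim := by
    intro m
    rw [dim_prod, dim_sq]
    omega
  have core : ∀ i l : ℕ, (∀ m, (m + 1) * X.dim + i + ((m + 1) * X.dim + l) =
      (Z.prod (Pool.Agent.Y163.sq X m)).dim) →
      (perpS F).T (Z.prod (Pool.Agent.Y163.sq X κ)) ((κ + 1) * X.dim + i) ≠ ⊥ →
      kRank W (Z.prod (Pool.Agent.Y163.sq X n)) ((n + 1) * X.dim + i) ((n + 1) * X.dim + l) +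
      (1 - (κ + 1) * (finrank W.K (W.H X) : ℝ) ^ (2 * κ + 4) * Real.log (n + 2) / n) *
        mrank W X n ≤
      finrank W.K (F.T (Z.prod (Pool.Agent.Y163.sq X n)) ((n + 1) * X.dim + i)) := by
    intro i l hdim hne
    have h1 := growth_of_ne hX hH (perpS F) hne hn
    have h2 := kRank_add_le hF (hdim n)
    have h3 : (kRank W (Z.prod (Pool.Agent.Y163.sq X n)) ((n + 1) * X.dim + i)
        ((n + 1) * X.dim + l) : ℝ) +
        finrank W.K ((perpS F).T (Z.prod (Pool.Agent.Y163.sq X n)) ((n + 1) * X.dim + i)) ≤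
        finrank W.K (F.T (Z.prod (Pool.Agent.Y163.sq X n)) ((n + 1) * X.dim + i)) := by
      exact_mod_cast h2
    linarith
  by_cases h1 : (perpS F).T (Z.prod (Pool.Agent.Y163.sq X κ)) ((κ + 1) * X.dim + i) = ⊥
  · by_cases h2 : (perpS F).T (Z.prod (Pool.Agent.Y163.sq X κ)) ((κ + 1) * X.dim + l) = ⊥
    · exact absurd (le_kRank hF (hdim κ) h1 h2) (not_le.2 hfail)
    · rw [kRank_symm, hd _ _ _ (hdim n)]
      exact core l i (fun m => by rw [← hdim m]; ring) h2
  · exact core i l hdim h1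

end Pool.Agent.R940
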