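import Pool.Agent.R940.HPig

/-!
# Decomposition of long solutions: parity
-/

namespace Pool.Agent.R940

open Finset

/-- **Decomposition of long approximate solutions into pieces of even degree.** -/
theorem exists_even {ι κ : Type*} [Fintype ι] (a : κ → ι → ℤ) (d : ι → ℕ) {b B R : ℕ}
    (hb : Fintype.card ι ≤ b) (hB : ∀ k l, |a k l| ≤ B) (c : ι → ℕ)
    (ha : ∀ k, |∑ l, a k l * c l| ≤ R)
    (hN : 2 * (b * (2 * (b * B + R) + 1) ^ b) < ∑ l, c l) :
    ∃ m : ι → ℕ, (∀ l, m l ≤ c l) ∧ 0 < ∑ l, m l ∧ ∑ l, m l < ∑ l, c l ∧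
      (∀ k, ∑ l, a k l * (m l : ℤ) = 0) ∧ Even (∑ l, d l * m l) := by
  classical
  set N := b * (2 * (b * B + R) + 1) ^ b with hNdef
  -- a solution of minimal length
  have hex : ∃ L : ℕ, ∃ m : ι → ℕ, ∑ l, m l = L ∧ (∀ l, m l ≤ c l) ∧ 0 < ∑ l, m l ∧
      (∀ k, ∑ l, a k l * (m l : ℤ) = 0) := by
    obtain ⟨m, h1, h2, _, h4⟩ := exists_sub_fam a hb hB c ha (by omega)
    exact ⟨_, m, rfl, h1, h2, h4⟩
  obtain ⟨m₁, hL, h1, h2, h3⟩ := Nat.find_spec hex
  have hmin : ∑ l, m₁ l ≤ N := by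
    by_contra hcon
    push Not at hcon
    obtain ⟨m, h4, h5, h6, h7⟩ := exists_sub_fam a hb hB m₁ (fun k => by
      rw [h3 k, abs_zero]; exact Int.natCast_nonneg _) hcon
    have := Nat.find_min hex (m := ∑ l, m l) (by rw [← hL]; exact h6)
    exact this ⟨m, rfl, fun l => (h4 l).trans (h1 l), h5, h7⟩
  by_cases hev : Even (∑ l, d l * m₁ l)
  · exact ⟨m₁, h1, h2, by omega, h3, hev⟩
  -- the rest
  have hc' : ∀ l, ((c l - m₁ l : ℕ) : ℤ) = c l - m₁ l := fun l => Nat.cast_sub (h1 l)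
  have hsum : ∑ l, (c l - m₁ l) = ∑ l, c l - ∑ l, m₁ l := Finset.sum_tsub_distrib _ fun l _ => h1 l
  obtain ⟨m₂, h4, h5, h6, h7⟩ := exists_sub_fam a hb hB (fun l => c l - m₁ l) (fun k => by
    simp only [hc', mul_sub, Finset.sum_sub_distrib, h3 k, sub_zero]
    exact ha k) (by rw [hsum]; omega)
  rw [hsum] at h6
  by_cases hev2 : Even (∑ l, d l * m₂ l)
  · exact ⟨m₂, fun l => (h4 l).trans (Nat.sub_le _ _), h5, by omega, h7, hev2⟩
  · refine ⟨fun l => m₁ l + m₂ l, fun l => ?_, ?_, ?_, fun k => ?_, ?_⟩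
    · have e1 := h4 l
      have e2 := h1 l
      change m₁ l + m₂ l ≤ c l
      omega
    · rw [Finset.sum_add_distrib]
      omega
    · rw [Finset.sum_add_distrib]
      omega
    · push_cast
      simp only [mul_add, Finset.sum_add_distrib]
      rw [h3 k, h7 k, add_zero]
    · simp only [mul_add, Finset.sum_add_distrib]
      exact Nat.even_add.2 ⟨fun h => absurd h hev, fun h => absurd h hev2⟩

end Pool.Agent.R940
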