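import Pool.Agent.R940.Tor
import Pool.Agent.R940.ZPar

/-!
# Relations between Weil numbers with one additional Weil number
-/

namespace Pool.Agent.R940

open Polynomial Finset IntermediateField

section

variable {K ι : Type*} [Field K] [CharZero K] {p : ℕ} [hp : Fact p.Prime] {e D : ℕ}
  {lam : ι → K} {deg : ι → ℕ} [Fintype ι]

/-- The rows are bounded on the approximate relations. -/
lemma row_bound (he : 0 < e) (h : IsWeilFamily p e D lam deg) {c : ι → ℕ} {ν : K} {T w : ℕ}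
    (hT : 0 < T) (hν : IsIntegral ℤ ν) (hν' : IsIntegral ℤ (((p : K) ^ e) ^ (2 * T * w) / ν))
    (hc : ν * (∏ l, lam l ^ c l) ^ (2 * T) = ((p : K) ^ e) ^ (T * (w + ∑ l, deg l * c l)))
    (ψ : EF lam →ₐ[ℚ] PadicAlgCl p) :
    |∑ l, row h ψ l * (c l : ℤ)| ≤ (D * w : ℕ) := by
  have hp0 : (p : K) ≠ 0 := Nat.cast_ne_zero.2 hp.out.ne_zero
  have hp0' : (p : EF lam) ≠ 0 := Nat.cast_ne_zero.2 hp.out.ne_zero
  have hel := fun l => el_ne_zero he h l
  have hprod : (∏ l, el lam l ^ c l) ≠ 0 := Finset.prod_ne_zero_iff.2 fun l _ => pow_ne_zero _ (hel l)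
  -- the element in the field
  set ν' : EF lam := ((p : EF lam) ^ e) ^ (T * (w + ∑ l, deg l * c l)) /
    (∏ l, el lam l ^ c l) ^ (2 * T) with hν'def
  have hcoe : algebraMap (EF lam) K ν' = ν := by
    rw [hν'def, map_div₀, map_pow, map_pow, map_pow, map_prod, map_natCast]
    simp only [map_pow]
    have h1 : ∀ l, algebraMap (EF lam) K (el lam l) = lam l := fun l => rfl
    simp only [h1]
    have hl0 : (∏ l, lam l ^ c l) ^ (2 * T) ≠ 0 := by
      have h2 := (map_ne_zero (algebraMap (EF lam) K)).2 (pow_ne_zero (2 * T) hprod)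
      rw [map_pow, map_prod] at h2
      simp only [map_pow, h1] at h2
      exact h2
    rw [← hc, mul_div_assoc, div_self hl0, mul_one]
  have hint : IsIntegral ℤ ν' := by
    have : IsIntegral ℤ (algebraMap (EF lam) K ν') := by rw [hcoe]; exact hν
    exact (isIntegral_algebraMap_iff (algebraMap (EF lam) K).injective).1 this
  have hint' : IsIntegral ℤ (((p : EF lam) ^ e) ^ (2 * T * w) / ν') := by
    have : IsIntegral ℤ (algebraMap (EF lam) K (((p : EF lam) ^ e) ^ (2 * T * w) / ν')) := by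
      rw [map_div₀, map_pow, map_pow, map_natCast, hcoe]; exact hν'
    exact (isIntegral_algebraMap_iff (algebraMap (EF lam) K).injective).1 this
  have hν0 : ν' ≠ 0 := div_ne_zero (pow_ne_zero _ (pow_ne_zero _ hp0')) (pow_ne_zero _ hprod)
  have hx := zero_lt_one.trans (pe_pos (p := p) he)
  have hx1 := pe_pos (p := p) he
  -- the absolute value
  have h1 : ‖ψ ν'‖ ^ D = ((p : ℝ) ^ e) ^ ((T : ℤ) * (∑ l, row h ψ l * (c l : ℤ)) - T * D * w) := by
    rw [hν'def, map_div₀, map_pow, map_pow, map_pow, map_natCast, map_prod, norm_div,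
      norm_natCast_p, norm_pow, norm_prod, div_pow, inv_pow, ← pow_mul, ← pow_mul _ (2 * T) D,
      mul_comm (2 * T) D, pow_mul _ D (2 * T), ← Finset.prod_pow]
    have h5 : ∀ l, ‖ψ (el lam l ^ c l)‖ ^ D = ((p : ℝ) ^ e) ^ (-(mm h ψ l * c l)) := by
      intro l
      rw [map_pow, norm_pow, ← pow_mul, mul_comm, pow_mul, mm_spec h, ← zpow_natCast, ← zpow_mul]
      congr 1
      ring
    rw [Finset.prod_congr rfl fun l _ => h5 l, prod_zpow hx]
    have key : ∀ (x : ℝ), 0 < x → ∀ (a b : ℕ) (f : ℤ), (x ^ a)⁻¹ / (x ^ f) ^ b =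
        x ^ (-(a : ℤ) - f * b) := by
      intro x hx a b f
      rw [zpow_sub₀ hx.ne', zpow_neg, zpow_natCast, zpow_mul, zpow_natCast]
    rw [key _ hx]
    congr 1
    have h9 : ∑ l, row h ψ l * (c l : ℤ) =
        2 * ∑ l, mm h ψ l * c l - D * ∑ l, (deg l * c l : ℤ) := by
      rw [Finset.mul_sum, Finset.mul_sum, ← Finset.sum_sub_distrib]
      exact Finset.sum_congr rfl fun l _ => by rw [row]; ring
    rw [h9, Finset.sum_neg_distrib]
    push_cast
    ring
  -- the upper bound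
  have h2 : ‖ψ ν'‖ ^ D ≤ 1 :=
    pow_le_one₀ (norm_nonneg _) (padic_integral (hint.map (ψ.restrictScalars ℤ)))
  have h3 : ‖ψ (((p : EF lam) ^ e) ^ (2 * T * w) / ν')‖ ≤ 1 :=
    padic_integral (hint'.map (ψ.restrictScalars ℤ))
  rw [map_div₀, map_pow, map_pow, map_natCast, norm_div, norm_natCast_p,
    div_le_one (norm_pos_iff.2 ((map_ne_zero ψ).2 hν0))] at h3
  have h4 : ((((p : ℝ) ^ e) ^ (2 * T * w))⁻¹) ^ D ≤ ‖ψ ν'‖ ^ D :=
    pow_le_pow_left₀ (by positivity) h3 D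
  have h5 : ((((p : ℝ) ^ e) ^ (2 * T * w))⁻¹) ^ D = ((p : ℝ) ^ e) ^ (-(2 * T * w * D : ℤ)) := by
    rw [zpow_neg, inv_pow, ← pow_mul]
    norm_cast
  rw [h1, ← zpow_zero ((p : ℝ) ^ e), zpow_le_zpow_iff_right₀ hx1] at h2
  rw [h1, h5, zpow_le_zpow_iff_right₀ hx1] at h4
  have hT' : (0 : ℤ) < T := by exact_mod_cast hT
  rw [abs_le]
  push_cast
  constructor
  · have h6 : (T : ℤ) * (-(D * w)) ≤ T * ∑ l, row h ψ l * (c l : ℤ) := by linarith
    exact le_of_mul_le_mul_left h6 hT'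
  · have h6 : (T : ℤ) * ∑ l, row h ψ l * (c l : ℤ) ≤ T * (D * w) := by linarith
    exact le_of_mul_le_mul_left h6 hT'

/-- **Decomposition of long approximate relations.** -/
theorem exists_subZ (he : 0 < e) (hD : 0 < D) (h : IsWeilFamily p e D lam deg) {b B R : ℕ}
    (hb : Fintype.card ι ≤ b) (hB : ∀ l, D * deg l ≤ B) {c : ι → ℕ} {ν : K} {T w : ℕ}
    (hT : 0 < T) (hν : IsIntegral ℤ ν) (hν' : IsIntegral ℤ (((p : K) ^ e) ^ (2 * T * w) / ν))
    (hc : ν * (∏ l, lam l ^ c l) ^ (2 * T) = ((p : K) ^ e) ^ (T * (w + ∑ l, deg l * c l)))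
    (hw : D * w ≤ R) (hN : 2 * (b * (2 * (b * B + R) + 1) ^ b) < ∑ l, c l) :
    ∃ m : ι → ℕ, (∀ l, m l ≤ c l) ∧ 0 < ∑ l, m l ∧ ∑ l, m l < ∑ l, c l ∧
      IsT (p ^ e) lam deg m := by
  obtain ⟨m, h1, h2, h3, h4, h5⟩ := exists_even (fun ψ => row h ψ) deg hb
    (B := B) (fun ψ l => (row_le he h ψ l).trans (by exact_mod_cast hB l)) c
    (R := R) (fun ψ => (row_bound he h hT hν hν' hc ψ).trans (by exact_mod_cast hw)) hN
  exact ⟨m, h1, h2, h3, isT_of_row_zero he hD h h5 h4⟩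

end

end Pool.Agent.R940
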