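import Pool.Agent.R940.HMain
import Pool.Agent.R940.ZTor
import Pool.Agent.R940.ZDefs

/-!
# Eigenspaces and generalised eigenspaces
-/

set_option linter.unusedVariables false
set_option linter.unusedSectionVars false

open CategoryTheory AlgebraicGeometry CategoryTheory.Limits

universe u v

namespace Pool.Agent.R940

open Pool.Agent.H914 Pool.Agent.H447 Pool.Agent.W534 Pool.Agent.Y163 VarClass Obj WeilCohomology
  Module Polynomial

section Lin

variable {K V V' : Type*} [Field K] [AddCommGroup V] [Module K V] [AddCommGroup V'] [Module K V']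

/-- The generalised eigenspace or the eigenspace. -/
noncomputable def Eg (g : Bool) (f : Module.End K V) (μ : K) : Submodule K V :=
  if g then f.maxGenEigenspace μ else f.eigenspace μ

lemma Eg_true (f : Module.End K V) (μ : K) : Eg true f μ = f.maxGenEigenspace μ := rfl

lemma Eg_false (f : Module.End K V) (μ : K) : Eg false f μ = f.eigenspace μ := rfl

lemma mem_Eg_false {f : Module.End K V} {μ : K} {x : V} : x ∈ Eg false f μ ↔ f x = μ • x := by
  rw [Eg_false, Module.End.mem_eigenspace_iff]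

lemma Eg_le (g : Bool) (f : Module.End K V) (μ : K) : Eg g f μ ≤ f.maxGenEigenspace μ := by
  cases g
  · intro x hx
    rw [mem_Eg_false] at hx
    rw [Module.End.mem_maxGenEigenspace]
    refine ⟨1, ?_⟩
    rw [pow_one, LinearMap.sub_apply, hx, LinearMap.smul_apply, Module.End.one_apply, sub_self]
  · exact le_rfl

lemma Eg_semi {g : Bool} {f : Module.End K V} {f' : Module.End K V'} {θ : V →ₗ[K] V'}
    (h : ∀ x, f' (θ x) = θ (f x)) {μ : K} {x : V} (hx : x ∈ Eg g f μ) : θ x ∈ Eg g f' μ := by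
  cases g
  · rw [mem_Eg_false] at hx ⊢
    rw [h, hx, map_smul]
  · exact gen_semi h hx

lemma Eg_bilin {g : Bool} {A B C : Type*} [AddCommGroup A] [Module K A] [AddCommGroup B]
    [Module K B] [AddCommGroup C] [Module K C] {f : Module.End K A} {f' : Module.End K B}
    {h : Module.End K C} {β : A →ₗ[K] B →ₗ[K] C} (hβ : ∀ a b, β (f a) (f' b) = h (β a b))
    {l m : K} {a : A} {b : B} (ha : a ∈ Eg g f l) (hb : b ∈ Eg g f' m) :
    β a b ∈ Eg g h (l * m) := by
  cases g
  · rw [mem_Eg_false] at ha hb ⊢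
    rw [← hβ, ha, hb, map_smul, map_smul, LinearMap.smul_apply, smul_smul, mul_comm m l]
  · exact gen_bilin hβ ha hb

lemma Eg_pow {g : Bool} {f : Module.End K V} {μ : K} {x : V} (hx : x ∈ Eg g f μ) (r : ℕ) :
    x ∈ Eg g (f ^ r) (μ ^ r) := by
  cases g
  · rw [mem_Eg_false] at hx ⊢
    induction r with
    | zero => simp
    | succ r ih => rw [pow_succ', Module.End.mul_apply, ih, map_smul, hx, smul_smul, pow_succ]
  · exact gen_mono f μ r hx

end Lin

variable {k : Type u} [Field k] {𝒱 : VarClass k} {ops : CycleOps 𝒱}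
  {W : WeilCohomology.{u, v} ops} {X Y Z U S : 𝒱.Obj} {p : ℕ}

lemma prZ_eq {m n : ℕ} (e : Fin (m + 1) → Fin (n + 1)) : prZ Z X e = projZ Z X e := rfl

section Frob

variable (Φ : FrobSystem W p)

/-- Tate classes or generalised Tate classes over one finite field. -/
noncomputable def tS (g : Bool) (Z : 𝒱.Obj) (s j : ℕ) : Submodule W.K (W.H Z) :=
  Eg g (frob Φ Z s) ((card Φ Z s : W.K) ^ j) ⊓ W.gr Z (2 * j)

lemma tS_true (Z : 𝒱.Obj) (s j : ℕ) : tS Φ true Z s j = genTate Φ Z s j := rfl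

lemma isTate_iff {j : ℕ} {c : W.H Z} : IsTate Φ Z j c ↔ ∃ s, 0 < s ∧ c ∈ tS Φ false Z s j := by
  have hcard : ∀ s, (card Φ Z s : W.K) ^ j = (p : W.K) ^ (Φ.e Z * s * j) := by
    intro s
    rw [card]
    push_cast
    rw [← pow_mul]
  constructor
  · rintro ⟨h1, s, hs, h2⟩
    refine ⟨s, hs, ?_, h1⟩
    rw [SetLike.mem_coe, mem_Eg_false, hcard]
    exact h2
  · rintro ⟨s, hs, h1, h2⟩
    refine ⟨h2, s, hs, ?_⟩
    rw [SetLike.mem_coe, mem_Eg_false, hcard] at h1
    exact h1

lemma ofFn_E {g : Bool} {s : ℕ} : ∀ {m : ℕ} (v : Fin m → W.H Z) (μ : Fin m → W.K),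
    (∀ i, v i ∈ Eg g (frob Φ Z s) (μ i)) →
    (List.ofFn v).prod ∈ Eg g (frob Φ Z s) (∏ i, μ i)
  | 0, v, μ, _ => by
    rw [List.ofFn_zero, List.prod_nil, Fin.prod_univ_zero]
    cases g
    · rw [mem_Eg_false, frob_one', one_smul]
    · rw [Eg_true, Module.End.mem_maxGenEigenspace]
      refine ⟨1, ?_⟩
      rw [pow_one, LinearMap.sub_apply, LinearMap.smul_apply, Module.End.one_apply, one_smul,
        frob_one', sub_self]
  | m + 1, v, μ, h => by
    rw [List.ofFn_succ, List.prod_cons, Fin.prod_univ_succ]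
    exact Eg_bilin (β := LinearMap.mul W.K (W.H Z)) (fun a b => (frob_mul' Φ s a b).symm) (h 0)
      (ofFn_E (fun i => v i.succ) (fun i => μ i.succ) fun i => h i.succ)

/-- Compatibility of the projections with the Frobenius endomorphisms. -/
theorem frob_prZ (Z X : 𝒱.Obj) (n : ℕ) : ∃ A α β : ℕ, 0 < A ∧ 0 < α ∧ 0 < β ∧
    A * Φ.e (Z.prod (pw X n)) = α * Φ.e Z ∧ A * Φ.e (Z.prod (pw X n)) = β * Φ.e X ∧
    (∀ (t : ℕ) (z : W.H Z), frob Φ (Z.prod (pw X n)) (A * t) (W.map (fst Z (pw X n)) z) =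
      W.map (fst Z (pw X n)) (frob Φ Z (α * t) z)) ∧
    ∀ (i : Fin (n + 1)) (t : ℕ) (y : W.H X),
      frob Φ (Z.prod (pw X n)) (A * t) (W.map (snd Z (pw X n)) (W.map (pr X n i) y)) =
        W.map (snd Z (pw X n)) (W.map (pr X n i) (frob Φ X (β * t) y)) := by
  obtain ⟨S, S', hS, hS', hSS, h⟩ := frob_pr Φ X n
  obtain ⟨a, b, ha, hb, hab, h1⟩ := frob_comm Φ (snd Z (pw X n))
  obtain ⟨a', b', ha', hb', hab', h2⟩ := frob_comm Φ (fst Z (pw X n))
  refine ⟨a * S * a', b' * (a * S), S' * (b * a'), by positivity, by positivity, by positivity,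
    ?_, ?_, fun t z => ?_, fun i t y => ?_⟩
  · calc a * S * a' * Φ.e (Z.prod (pw X n)) = a * S * (a' * Φ.e (Z.prod (pw X n))) := by ring
      _ = b' * (a * S) * Φ.e Z := by rw [hab']; ring
  · calc a * S * a' * Φ.e (Z.prod (pw X n)) = S * a' * (a * Φ.e (Z.prod (pw X n))) := by ring
      _ = a' * b * (S * Φ.e (pw X n)) := by rw [hab]; ring
      _ = S' * (b * a') * Φ.e X := by rw [hSS]; ring
  · have h3 := h2 (a * S * t) z
    rw [show a' * (a * S * t) = a * S * a' * t by ring,
      show b' * (a * S * t) = b' * (a * S) * t by ring] at h3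
    exact h3
  · have h3 := h1 (S * a' * t) (W.map (pr X n i) y)
    rw [show a * (S * a' * t) = a * S * a' * t by ring] at h3
    rw [frob_apply, h3]
    congr 1
    have h4 := h i (b * a' * t) y
    rw [show S * (b * a' * t) = b * (S * a' * t) by ring,
      show S' * (b * a' * t) = S' * (b * a') * t by ring] at h4
    exact h4

end Frob

section Int

variable [hp : Fact p.Prime] {Φ : FrobSystem W p} {σ : W.K →+* ℂ}

/-- Frobenius eigenvalues are algebraic integers, and so are the complementary numbers. -/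
lemma int_root (hRH : RiemannHyp Φ σ Z) (hint : HasIntegralPolys Φ σ Z) {w : ℕ} {lam : W.K}
    (h : (frobOn Φ Z 1 w).charpoly.IsRoot lam) :
    IsIntegral ℤ lam ∧ IsIntegral ℤ (((p : W.K) ^ Φ.e Z) ^ w / lam) := by
  obtain ⟨P, hP⟩ := hint w
  have h1 : (frobOn Φ Z 1 w).charpoly = P.map (Int.castRingHom W.K) := by
    apply Polynomial.map_injective σ σ.injective
    rw [← frobPoly_eq, hP, Polynomial.map_map]
    congr 1
    exact RingHom.ext_int _ _
  have hmon : P.Monic := by
    refine monic_of_injective (f := Int.castRingHom W.K) Int.cast_injective ?_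
    rw [← h1]
    exact LinearMap.charpoly_monic _
  have hroot : aeval lam P = 0 := by
    rw [h1, IsRoot.def, Polynomial.eval_map] at h
    rw [aeval_def]
    exact h
  have hD := slopeDenominator hRH hint
  have hF : IsWeilFamily p (Φ.e Z) (Φ.e Z * (finrank W.K (W.H Z)).factorial)
      (fun _ : Unit => lam) (fun _ => w) :=
    { int := fun _ => ⟨P, hmon, hroot⟩
      arch := fun _ y hy => by
        have h4 : aeval y P = 0 := aeval_of_minpoly hroot hy
        have h5 := hRH 1 one_pos w y (by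
          rw [hP, IsRoot.def, Polynomial.eval_map]
          exact h4)
        rw [h5, card, mul_one]
        push_cast
        rfl
      slope := fun _ y hy => hD.2 _ P hP y (aeval_of_minpoly hroot hy) }
  refine ⟨hF.int (), ?_⟩
  have h2 := co_int (Φ.e_pos Z) hF ()
  have h3 := h2.map ((algebraMap (EF (fun _ : Unit => lam)) W.K).toIntAlgHom)
  have h4 : (algebraMap (EF (fun _ : Unit => lam)) W.K).toIntAlgHom
      (((p : EF (fun _ : Unit => lam)) ^ Φ.e Z) ^ w / el (fun _ : Unit => lam) ()) =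
      ((p : W.K) ^ Φ.e Z) ^ w / lam := by
    change algebraMap (EF (fun _ : Unit => lam)) W.K _ = _
    rw [map_div₀, map_pow, map_pow, map_natCast]
    rfl
  rw [h4] at h3
  exact h3

/-- The same for the Frobenius endomorphisms over finite extensions. -/
lemma int_of_gen [IsAlgClosed W.K] (hRH : RiemannHyp Φ σ Z) (hint : HasIntegralPolys Φ σ Z)
    {w t : ℕ} (ht : 0 < t) {μ : W.K} {z : W.H Z} (hz : z ∈ W.gr Z w) (hz0 : z ≠ 0)
    (hμ : z ∈ (frob Φ Z t).maxGenEigenspace μ) :
    IsIntegral ℤ μ ∧ IsIntegral ℤ (((p : W.K) ^ (Φ.e Z * t)) ^ w / μ) := by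
  let v : W.gr Z w := ⟨z, hz⟩
  have hv0 : v ≠ 0 := fun h => hz0 (congrArg Subtype.val h)
  obtain ⟨n, hn⟩ := (Module.End.mem_maxGenEigenspace _ _ _).1 hμ
  have hpow : ∀ (r : ℕ) (x : W.gr Z w), (((frobOn Φ Z 1 w) ^ r) x : W.H Z) =
      frob Φ Z r (x : W.H Z) := by
    intro r
    induction r with
    | zero => intro x; exact (W.map_id _ _).symm
    | succ r ih =>
      intro x
      rw [pow_succ, Module.End.mul_apply, ih]
      have h1 : frob Φ Z (r + 1) = frob Φ Z 1 ^ (r + 1) := by rw [← frob_mul_eq, one_mul]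
      have h2 : frob Φ Z r = frob Φ Z 1 ^ r := by rw [← frob_mul_eq, one_mul]
      rw [h1, h2, pow_succ, Module.End.mul_apply]
      rfl
  have hv : (((frobOn Φ Z 1 w) ^ t - μ • 1) ^ n) v = 0 := by
    apply Subtype.ext
    have key : ∀ (n : ℕ) (x : W.gr Z w),
        ((((((frobOn Φ Z 1 w) ^ t - μ • 1) ^ n) x : W.gr Z w)) : W.H Z) =
          ((frob Φ Z t - μ • 1) ^ n) (x : W.H Z) := by
      intro n
      induction n with
      | zero => intro x; rfl
      | succ n ih =>
        intro x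
        rw [pow_succ, pow_succ, Module.End.mul_apply, Module.End.mul_apply, ih]
        congr 1
        rw [LinearMap.sub_apply, LinearMap.sub_apply, LinearMap.smul_apply, LinearMap.smul_apply,
          Module.End.one_apply, Module.End.one_apply, ← hpow t x]
        rfl
    rw [key]
    exact hn
  have h0 : ((frobOn Φ Z 1 w) ^ t).HasGenEigenvalue μ n := by
    intro hbot
    have h2 : v ∈ ((frobOn Φ Z 1 w) ^ t).genEigenspace μ n := by
      rw [Module.End.mem_genEigenspace_nat, LinearMap.mem_ker]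
      exact hv
    rw [hbot] at h2
    exact hv0 ((Submodule.mem_bot _).1 h2)
  have h1 := (Module.End.hasEigenvalue_of_hasGenEigenvalue h0).mem_spectrum
  have hnt : Nontrivial (W.gr Z w) := ⟨⟨v, 0, hv0⟩⟩
  rw [spectrum.map_pow_of_pos _ ht] at h1
  obtain ⟨lam, hlam, rfl⟩ := h1
  have h2 := Module.End.hasEigenvalue_iff_mem_spectrum.2 hlam
  have h3 := (Module.End.hasEigenvalue_iff_isRoot_charpoly _ _).1 h2
  obtain ⟨h4, h5⟩ := int_root hRH hint h3
  refine ⟨h4.pow t, ?_⟩
  have h6 : ((p : W.K) ^ (Φ.e Z * t)) ^ w / lam ^ t = (((p : W.K) ^ Φ.e Z) ^ w / lam) ^ t := by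
    rw [div_pow, ← pow_mul, ← pow_mul, ← pow_mul]
    congr 2
    ring
  rw [h6]
  exact h5.pow t

end Int

end Pool.Agent.R940
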